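import Mathlib

/-! Digits of the binary Champernowne constant. -/

namespace V11327.CH

open Finset

/-- binary digits of `m`, most significant first -/
def bits (m : ℕ) : List ℕ := (Nat.digits 2 m).reverse

/-- the word `1 10 11 100 ...` up to the number `n` -/
def champWord (n : ℕ) : List ℕ := (List.range n).flatMap fun i => bits (i + 1)

/-- the `n`-th binary digit (starting from `0`) of the Champernowne constant -/
def champDigit (n : ℕ) : ℕ := (champWord (n + 1)).getD n 0

/-- length of `bits m` -/
lemma length_bits (m : ℕ) : (bits m).length = m.size := by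
  unfold bits
  rw [List.length_reverse, Nat.digits_two_eq_bits, List.length_map, Nat.size_eq_bits_len]

lemma getD_bits (m r : ℕ) (h : r < m.size) :
    (bits m).getD r 0 = m / 2 ^ (m.size - 1 - r) % 2 := by
  have hl : (Nat.digits 2 m).length = m.size := by
    have := length_bits m
    unfold bits at this
    rwa [List.length_reverse] at this
  rw [← Nat.getD_digits m (m.size - 1 - r) (le_refl 2)]
  unfold bits
  rw [List.getD_eq_getElem _ _ (by rw [List.length_reverse, hl]; exact h),
    List.getD_eq_getElem _ _ (by rw [hl]; omega), List.getElem_reverse]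
  congr 1
  rw [hl]

/-- starting position of the number `n + 1` -/
def S (n : ℕ) : ℕ := ∑ i ∈ range n, (i + 1).size

lemma S_zero : S 0 = 0 := rfl
lemma S_succ (n : ℕ) : S (n + 1) = S n + (n + 1).size := by
  unfold S; rw [sum_range_succ]

lemma size_pos (n : ℕ) : 0 < (n + 1).size := Nat.size_pos.mpr (Nat.succ_pos n)

lemma le_S (n : ℕ) : n ≤ S n := by
  induction n with
  | zero => simp [S_zero]
  | succ n ih => rw [S_succ]; have := size_pos n; omega

lemma S_mono : Monotone S := by
  apply monotone_nat_of_le_succ
  intro n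
  rw [S_succ]; omega

lemma champWord_succ (n : ℕ) : champWord (n + 1) = champWord n ++ bits (n + 1) := by
  unfold champWord
  rw [List.range_succ, List.flatMap_append]
  simp

lemma length_champWord (n : ℕ) : (champWord n).length = S n := by
  induction n with
  | zero => rfl
  | succ n ih => rw [champWord_succ, List.length_append, ih, length_bits, S_succ]

lemma getD_champWord_add (n d p : ℕ) (hp : p < S n) :
    (champWord (n + d)).getD p 0 = (champWord n).getD p 0 := by
  induction d with
  | zero => rfl
  | succ d ih =>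
    rw [← add_assoc, champWord_succ, List.getD_append _ _ _ _ (by
      rw [length_champWord]; exact lt_of_lt_of_le hp (S_mono (by omega))), ih]

lemma champDigit_eq (n M : ℕ) (h : n < S M) : champDigit n = (champWord M).getD n 0 := by
  unfold champDigit
  have h1 : n < S (n + 1) := lt_of_lt_of_le (Nat.lt_succ_self n) (le_S (n + 1))
  rcases le_total M (n + 1) with h2 | h2
  · obtain ⟨d, hd⟩ := Nat.exists_eq_add_of_le h2
    rw [hd, getD_champWord_add _ _ _ h]
  · obtain ⟨d, hd⟩ := Nat.exists_eq_add_of_le h2
    rw [hd, getD_champWord_add _ _ _ h1]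

lemma champDigit_S (i r : ℕ) (h : r < (i + 1).size) :
    champDigit (S i + r) = (i + 1) / 2 ^ ((i + 1).size - 1 - r) % 2 := by
  rw [champDigit_eq _ (i + 1) (by rw [S_succ]; omega), champWord_succ,
    List.getD_append_right _ _ _ _ (by rw [length_champWord]; omega), length_champWord,
    Nat.add_sub_cancel_left, getD_bits _ _ h]

lemma champDigit_lt (n : ℕ) : champDigit n < 2 := by
  have h1 : n < S (n + 1) := lt_of_lt_of_le (Nat.lt_succ_self n) (le_S (n + 1))
  have h2 : ∃ i r, r < (i + 1).size ∧ n = S i + r := by
    clear h1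
    induction n with
    | zero => exact ⟨0, 0, size_pos 0, rfl⟩
    | succ n ih =>
      obtain ⟨i, r, hr, hn⟩ := ih
      by_cases h : r + 1 < (i + 1).size
      · exact ⟨i, r + 1, h, by omega⟩
      · refine ⟨i + 1, 0, size_pos _, ?_⟩
        rw [S_succ]; omega
  obtain ⟨i, r, hr, hn⟩ := h2
  rw [hn, champDigit_S i r hr]
  exact Nat.mod_lt _ (by norm_num)

/-- the block of `k` digits starting at position `n`, read as a number -/
def W : ℕ → ℕ → ℕ
  | 0, _ => 0
  | k + 1, n => 2 * W k n + champDigit (n + k)

lemma W_zero (n : ℕ) : W 0 n = 0 := rfl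
lemma W_succ (k n : ℕ) : W (k + 1) n = 2 * W k n + champDigit (n + k) := rfl

lemma W_lt (k n : ℕ) : W k n < 2 ^ k := by
  induction k with
  | zero => simp [W_zero]
  | succ k ih => rw [W_succ, pow_succ]; have := champDigit_lt (n + k); omega

lemma W_add (j k n : ℕ) : W (j + k) n = W j n * 2 ^ k + W k (n + j) := by
  induction k with
  | zero => simp [W_zero]
  | succ k ih =>
    rw [← add_assoc, W_succ, ih, W_succ, pow_succ, add_assoc n j k]; ring

/-- interior blocks -/
lemma W_interior (i k r : ℕ) (h : r + k ≤ (i + 1).size) :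
    W k (S i + r) = (i + 1) / 2 ^ ((i + 1).size - r - k) % 2 ^ k := by
  induction k with
  | zero => simp [W_zero, Nat.mod_one]
  | succ k ih =>
    rw [W_succ, ih (by omega), add_assoc, champDigit_S _ _ (by omega)]
    have e1 : (i + 1).size - r - k = ((i + 1).size - r - (k + 1)) + 1 := by omega
    have e2 : (i + 1).size - 1 - (r + k) = (i + 1).size - r - (k + 1) := by omega
    rw [e1, e2]
    generalize (i + 1).size - r - (k + 1) = e
    rw [pow_succ 2 e, ← Nat.div_div_eq_div_mul]
    generalize (i + 1) / 2 ^ e = q
    rw [pow_succ, mul_comm (2 ^ k) 2, Nat.mod_mul]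
    omega

/-- blocks crossing from one number to the next one of the same size -/
lemma W_crossing (i j k : ℕ) (hj : j ≤ k) (hk : k ≤ (i + 1).size)
    (hs : (i + 2).size = (i + 1).size) :
    W k (S i + ((i + 1).size - j)) =
      (i + 1) % 2 ^ j * 2 ^ (k - j) + (i + 2) / 2 ^ ((i + 1).size - (k - j)) := by
  have h1 : k = j + (k - j) := by omega
  have h2 : S i + ((i + 1).size - j) + j = S (i + 1) + 0 := by rw [S_succ]; omega
  have h3 : W j (S i + ((i + 1).size - j)) = (i + 1) % 2 ^ j := by
    rw [W_interior _ _ _ (by omega)]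
    have : (i + 1).size - ((i + 1).size - j) - j = 0 := by omega
    rw [this]; simp
  have h4 : W (k - j) (S (i + 1) + 0) = (i + 2) / 2 ^ ((i + 1).size - (k - j)) := by
    have h5 := W_interior (i + 1) (k - j) 0 (by rw [show i + 1 + 1 = i + 2 from rfl, hs]; omega)
    rw [h5, show i + 1 + 1 = i + 2 from rfl, hs, Nat.sub_zero]
    apply Nat.mod_eq_of_lt
    rw [Nat.div_lt_iff_lt_mul (by positivity), ← pow_add]
    have : k - j + ((i + 1).size - (k - j)) = (i + 2).size := by rw [hs]; omega
    rw [this]
    exact Nat.lt_size_self _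
  conv_lhs => rw [h1]
  rw [W_add, h2, h3, h4]

lemma sum_S (f : ℕ → ℝ) (M : ℕ) :
    ∑ n ∈ range (S M), f n = ∑ i ∈ range M, ∑ r ∈ range (i + 1).size, f (S i + r) := by
  induction M with
  | zero => simp [S_zero]
  | succ M ih => rw [S_succ, sum_range_add, sum_range_succ, ih]

lemma size_eq (p h : ℕ) (hh : h < 2 ^ p) : (2 ^ p + h).size = p + 1 := by
  apply le_antisymm
  · rw [Nat.size_le, pow_succ]; omega
  · have : p < (2 ^ p + h).size := by rw [Nat.lt_size]; omega
    omega

end V11327.CH
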