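import Mathlib
import Pool.Agent.V11327.CHdefs

/-! Counting lemmas. -/

namespace V11327.CH

open Finset

/-- normalised `ℓ²` bound -/
def P (k : ℕ) (f : ℕ → ℝ) (A : ℝ) : Prop :=
  0 ≤ A ∧ 2 ^ k * ∑ w ∈ range (2 ^ k), (f w) ^ 2 ≤ A ^ 2

lemma P_add {k : ℕ} {f g : ℕ → ℝ} {A B : ℝ} (hf : P k f A) (hg : P k g B) :
    P k (fun w => f w + g w) (A + B) := by
  obtain ⟨hA, hf⟩ := hf
  obtain ⟨hB, hg⟩ := hg
  refine ⟨add_nonneg hA hB, ?_⟩
  have hcs := Finset.sum_mul_sq_le_sq_mul_sq (range (2 ^ k)) f g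
  set F := ∑ w ∈ range (2 ^ k), (f w) ^ 2
  set G := ∑ w ∈ range (2 ^ k), (g w) ^ 2
  set H := ∑ w ∈ range (2 ^ k), f w * g w
  have hF : 0 ≤ F := Finset.sum_nonneg fun _ _ => sq_nonneg _
  have hG : 0 ≤ G := Finset.sum_nonneg fun _ _ => sq_nonneg _
  have h1 : ∑ w ∈ range (2 ^ k), (f w + g w) ^ 2 = F + 2 * H + G := by
    simp only [F, G, H, Finset.mul_sum, ← Finset.sum_add_distrib]
    apply Finset.sum_congr rfl
    intro w _
    ring
  have hK : (0:ℝ) < 2 ^ k := by positivity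
  have h2 : (2 ^ k * H) ^ 2 ≤ (A * B) ^ 2 := by
    have h3 : (2 ^ k * H) ^ 2 ≤ (2 ^ k * F) * (2 ^ k * G) := by
      have : (2 ^ k * H) ^ 2 = 2 ^ k * 2 ^ k * H ^ 2 := by ring
      rw [this]
      have h5 : (2:ℝ) ^ k * F * (2 ^ k * G) = 2 ^ k * 2 ^ k * (F * G) := by ring
      rw [h5]
      exact mul_le_mul_of_nonneg_left hcs (by positivity)
    have h4 : (2 ^ k * F) * (2 ^ k * G) ≤ A ^ 2 * B ^ 2 :=
      mul_le_mul hf hg (by positivity) (by positivity)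
    calc (2 ^ k * H) ^ 2 ≤ _ := h3
      _ ≤ _ := h4
      _ = (A * B) ^ 2 := by ring
  have h3 : 2 ^ k * H ≤ A * B := by
    have := abs_le_of_sq_le_sq h2 (mul_nonneg hA hB)
    exact (abs_le.mp this).2
  rw [h1]
  have : (2:ℝ) ^ k * (F + 2 * H + G) = 2 ^ k * F + 2 * (2 ^ k * H) + 2 ^ k * G := by ring
  rw [this]
  have h6 : (A + B) ^ 2 = A ^ 2 + 2 * (A * B) + B ^ 2 := by ring
  rw [h6]
  linarith

lemma P_zero (k : ℕ) : P k (fun _ => 0) 0 := by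
  refine ⟨le_refl _, ?_⟩
  simp

lemma P_mono {k : ℕ} {f : ℕ → ℝ} {A B : ℝ} (hf : P k f A) (h : A ≤ B) : P k f B := by
  refine ⟨le_trans hf.1 h, le_trans hf.2 ?_⟩
  exact pow_le_pow_left₀ hf.1 h 2

lemma P_mono_fun {k : ℕ} {f g : ℕ → ℝ} {A : ℝ} (hg : P k g A)
    (h0 : ∀ w < 2 ^ k, 0 ≤ f w) (h : ∀ w < 2 ^ k, f w ≤ g w) : P k f A := by
  refine ⟨hg.1, le_trans ?_ hg.2⟩
  apply mul_le_mul_of_nonneg_left _ (by positivity)
  apply Finset.sum_le_sum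
  intro w hw
  exact pow_le_pow_left₀ (h0 w (mem_range.mp hw)) (h w (mem_range.mp hw)) 2

lemma P_sum {ι : Type*} {k : ℕ} (s : Finset ι) {f : ι → ℕ → ℝ} {A : ι → ℝ}
    (h : ∀ i ∈ s, P k (f i) (A i)) : P k (fun w => ∑ i ∈ s, f i w) (∑ i ∈ s, A i) := by
  classical
  induction s using Finset.induction_on with
  | empty => simpa using P_zero k
  | insert a s ha ih =>
    have h1 := h a (mem_insert_self a s)
    have h2 := ih fun i hi => h i (mem_insert_of_mem hi)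
    have h3 := P_add h1 h2
    simpa only [sum_insert ha] using h3

lemma P_const {k : ℕ} {f : ℕ → ℝ} {A : ℝ} (hA : 0 ≤ A) (h0 : ∀ w < 2 ^ k, 0 ≤ f w)
    (h : ∀ w < 2 ^ k, 2 ^ k * f w ≤ A) : P k f A := by
  refine ⟨hA, ?_⟩
  have h1 : ∀ w ∈ range (2 ^ k), (2 ^ k * 2 ^ k : ℝ) * (f w) ^ 2 ≤ A ^ 2 := by
    intro w hw
    rw [mem_range] at hw
    have h2 := pow_le_pow_left₀ (mul_nonneg (by positivity) (h0 w hw)) (h w hw) 2
    calc (2 ^ k * 2 ^ k : ℝ) * (f w) ^ 2 = (2 ^ k * f w) ^ 2 := by ring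
      _ ≤ _ := h2
  have h2 := Finset.sum_le_sum h1
  rw [← Finset.mul_sum, Finset.sum_const, card_range, nsmul_eq_mul] at h2
  push_cast at h2
  have hK : (0:ℝ) < 2 ^ k := by positivity
  have h3 : (2:ℝ) ^ k * (2 ^ k * ∑ w ∈ range (2 ^ k), (f w) ^ 2) ≤ 2 ^ k * A ^ 2 := by
    rw [← mul_assoc]; exact h2
  exact le_of_mul_le_mul_left h3 hK

lemma P_delta (k w₀ : ℕ) : P k (fun w => if w₀ = w then (1:ℝ) else 0) (2 ^ k) := by
  refine ⟨by positivity, ?_⟩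
  have h1 : ∑ w ∈ range (2 ^ k), (if w₀ = w then (1:ℝ) else 0) ^ 2 ≤ 1 := by
    have : ∀ w ∈ range (2 ^ k), (if w₀ = w then (1:ℝ) else 0) ^ 2 = if w₀ = w then (1:ℝ) else 0 := by
      intro w _
      split_ifs <;> simp
    rw [Finset.sum_congr rfl this, Finset.sum_ite_eq]
    split_ifs <;> norm_num
  have h2 : (1:ℝ) ≤ 2 ^ k := one_le_pow₀ (by norm_num)
  calc (2:ℝ) ^ k * _ ≤ 2 ^ k * 1 := mul_le_mul_of_nonneg_left h1 (by positivity)
    _ ≤ 2 ^ k * 2 ^ k := mul_le_mul_of_nonneg_left h2 (by positivity)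
    _ = (2 ^ k) ^ 2 := by ring

lemma card_mod_le (u b q d Z : ℕ) (hb : b ≤ q * Z) :
    ((range b).filter fun h => (u + h) % q = d).card ≤ Z := by
  rw [← card_range Z]
  apply Finset.card_le_card_of_injOn (fun h => h / q)
  · intro h hh
    rw [mem_coe, mem_filter, mem_range] at hh
    rw [mem_coe, mem_range]
    exact Nat.div_lt_of_lt_mul (lt_of_lt_of_le hh.1 hb)
  · intro x hx y hy hxy
    rw [mem_coe, mem_filter, mem_range] at hx hy
    have h1 : x ≡ y [MOD q] := by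
      have : u + x ≡ u + y [MOD q] := by
        unfold Nat.ModEq; rw [hx.2, hy.2]
      exact Nat.ModEq.add_left_cancel' u this
    have h2 : x / q = y / q := hxy
    rw [← Nat.div_add_mod x q, ← Nat.div_add_mod y q, h2, h1]

lemma card_modset_le (u b q : ℕ) (D : Finset ℕ) (hq : 0 < q) :
    q * ((range b).filter fun h => (u + h) % q ∈ D).card ≤ D.card * (b + q) := by
  classical
  have h1 : ((range b).filter fun h => (u + h) % q ∈ D) ⊆
      D.biUnion fun d => (range b).filter fun h => (u + h) % q = d := by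
    intro h hh
    rw [mem_filter] at hh
    rw [mem_biUnion]
    exact ⟨_, hh.2, mem_filter.mpr ⟨hh.1, rfl⟩⟩
  have h2 := card_le_card h1
  have h3 : (D.biUnion fun d => (range b).filter fun h => (u + h) % q = d).card ≤
      D.card * (b / q + 1) := by
    apply Finset.card_biUnion_le_card_mul
    intro d _
    apply card_mod_le u b q d _
    have := Nat.div_add_mod b q
    have h4 := Nat.mod_lt b hq
    calc b = q * (b / q) + b % q := this.symm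
      _ ≤ q * (b / q) + q := by omega
      _ = q * (b / q + 1) := by ring
  calc q * _ ≤ q * (D.card * (b / q + 1)) := Nat.mul_le_mul_left _ (le_trans h2 h3)
    _ = D.card * (q * (b / q) + q) := by ring
    _ ≤ D.card * (b + q) := by
      apply Nat.mul_le_mul_left
      have := Nat.mul_div_le b q
      omega

/-- interior class -/
lemma interior_count (u b g k w : ℕ) :
    2 ^ k * ((range b).filter fun h => (u + h) / 2 ^ g % 2 ^ k = w).card ≤ b + 2 ^ (g + k) := by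
  have h1 : ((range b).filter fun h => (u + h) / 2 ^ g % 2 ^ k = w) ⊆
      (range b).filter fun h => (u + h) % 2 ^ (g + k) ∈ Ico (w * 2 ^ g) ((w + 1) * 2 ^ g) := by
    intro h hh
    rw [mem_filter] at hh ⊢
    refine ⟨hh.1, ?_⟩
    have h2 := hh.2
    rw [← Nat.mod_mul_right_div_self, ← pow_add] at h2
    rw [mem_Ico]
    constructor
    · rw [← h2]; exact Nat.div_mul_le_self _ _
    · rw [← Nat.div_lt_iff_lt_mul (by positivity), h2]; omega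
  have h2 := card_modset_le u b (2 ^ (g + k)) (Ico (w * 2 ^ g) ((w + 1) * 2 ^ g)) (by positivity)
  rw [Nat.card_Ico] at h2
  have h3 : (w + 1) * 2 ^ g - w * 2 ^ g = 2 ^ g := by
    rw [add_mul, one_mul, Nat.add_sub_cancel_left]
  rw [h3] at h2
  have h4 := Nat.mul_le_mul_left (2 ^ (g + k)) (card_le_card h1)
  have h5 := le_trans h4 h2
  rw [pow_add, mul_assoc] at h5
  have h6 := Nat.le_of_mul_le_mul_left h5 (by positivity)
  rw [pow_add]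
  exact h6

/-- crossing values -/
def V (p k s h : ℕ) : ℕ := (2 ^ p + h) % 2 ^ (k - s) * 2 ^ s + (2 ^ p + h + 1) / 2 ^ (p + 1 - s)

lemma div_lt_aux (p s h a : ℕ) (ha : a < 2 ^ p) (hh : h < a) (hs : s ≤ p + 1) :
    (2 ^ p + h + 1) / 2 ^ (p + 1 - s) < 2 ^ s := by
  rw [Nat.div_lt_iff_lt_mul (by positivity), ← pow_add]
  have : s + (p + 1 - s) = p + 1 := by omega
  rw [this, pow_succ]
  omega

/-- (i) -/
lemma count_V (p k s w a : ℕ) (hsk : s ≤ k) (hk : k ≤ p + 1) (ha : a < 2 ^ p) :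
    ((range a).filter fun h => V p k s h = w).card ≤ 2 ^ (p + 1 - k) := by
  rw [← card_range (2 ^ (p + 1 - k))]
  apply Finset.card_le_card_of_injOn
    (fun h => (2 ^ p + h + 1) % 2 ^ (p + 1 - s) / 2 ^ (k - s))
  · intro h hh
    rw [mem_coe, mem_range]
    apply Nat.div_lt_of_lt_mul
    rw [← pow_add]
    have : k - s + (p + 1 - k) = p + 1 - s := by omega
    rw [this]
    exact Nat.mod_lt _ (by positivity)
  · intro x hx y hy hxy
    rw [mem_coe, mem_filter, mem_range] at hx hy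
    have hx1 := div_lt_aux p s x a ha hx.1 (by omega)
    have hy1 := div_lt_aux p s y a ha hy.1 (by omega)
    have h1 : V p k s x = V p k s y := by rw [hx.2, hy.2]
    unfold V at h1
    have h2 : (2 ^ p + x) % 2 ^ (k - s) = (2 ^ p + y) % 2 ^ (k - s) ∧
        (2 ^ p + x + 1) / 2 ^ (p + 1 - s) = (2 ^ p + y + 1) / 2 ^ (p + 1 - s) := by
      have hd := congrArg (fun t => t / 2 ^ s) h1
      have hm := congrArg (fun t => t % 2 ^ s) h1
      rw [mul_comm _ (2 ^ s), mul_comm _ (2 ^ s), Nat.mul_add_div (by positivity),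
        Nat.mul_add_div (by positivity), Nat.div_eq_of_lt hx1, Nat.div_eq_of_lt hy1] at hd
      rw [mul_comm _ (2 ^ s), mul_comm _ (2 ^ s), Nat.mul_add_mod, Nat.mul_add_mod,
        Nat.mod_eq_of_lt hx1, Nat.mod_eq_of_lt hy1] at hm
      exact ⟨by simpa using hd, hm⟩
    have h3 : (2 ^ p + x + 1) % 2 ^ (k - s) = (2 ^ p + y + 1) % 2 ^ (k - s) := by
      rw [Nat.add_mod, h2.1, ← Nat.add_mod]
    have hdvd : 2 ^ (k - s) ∣ 2 ^ (p + 1 - s) := pow_dvd_pow 2 (by omega)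
    have h4 : (2 ^ p + x + 1) % 2 ^ (p + 1 - s) = (2 ^ p + y + 1) % 2 ^ (p + 1 - s) := by
      have hxm := Nat.mod_mod_of_dvd (2 ^ p + x + 1) hdvd
      have hym := Nat.mod_mod_of_dvd (2 ^ p + y + 1) hdvd
      have h5 : (2 ^ p + x + 1) % 2 ^ (p + 1 - s) / 2 ^ (k - s) =
        (2 ^ p + y + 1) % 2 ^ (p + 1 - s) / 2 ^ (k - s) := hxy
      rw [← Nat.div_add_mod ((2 ^ p + x + 1) % 2 ^ (p + 1 - s)) (2 ^ (k - s)),
        ← Nat.div_add_mod ((2 ^ p + y + 1) % 2 ^ (p + 1 - s)) (2 ^ (k - s)), h5, hxm, hym, h3]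
    have h6 := Nat.div_add_mod (2 ^ p + x + 1) (2 ^ (p + 1 - s))
    have h7 := Nat.div_add_mod (2 ^ p + y + 1) (2 ^ (p + 1 - s))
    rw [h4, h2.2, h7] at h6
    omega

/-- (ii) -/
lemma cond_V (p k s₁ s₂ h₁ h₂ a : ℕ) (hs : s₂ ≤ s₁) (hs2 : 1 ≤ s₂) (hsk : s₁ ≤ k)
    (hk : k ≤ p + 1) (ha : a < 2 ^ p) (hh₁ : h₁ < a) (hh₂ : h₂ < a)
    (hV : V p k s₁ h₁ = V p k s₂ h₂) :
    (2 ^ p + 1 + h₁) % 2 ^ (p + 1 - (s₁ - s₂)) ∈
      Ico (2 ^ (p - (s₁ - s₂))) (((2 ^ p + a) / 2 ^ (p + 1 - s₂) + 1) * 2 ^ (p + 1 - s₁)) := by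
  have h2lt := div_lt_aux p s₂ h₂ a ha hh₂ (by omega)
  unfold V at hV
  have hm := congrArg (fun t => t % 2 ^ s₂) hV
  rw [mul_comm _ (2 ^ s₂), Nat.mul_add_mod, Nat.mod_eq_of_lt h2lt] at hm
  have h3 : ((2 ^ p + h₁) % 2 ^ (k - s₁) * 2 ^ s₁ + (2 ^ p + h₁ + 1) / 2 ^ (p + 1 - s₁)) % 2 ^ s₂ =
      (2 ^ p + h₁ + 1) / 2 ^ (p + 1 - s₁) % 2 ^ s₂ := by
    have : 2 ^ s₁ = 2 ^ s₂ * 2 ^ (s₁ - s₂) := by rw [← pow_add]; congr 1; omega
    rw [this, mul_comm (2 ^ s₂) (2 ^ (s₁ - s₂)), ← mul_assoc, mul_comm _ (2 ^ s₂), Nat.mul_add_mod]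
  rw [h3, ← Nat.mod_mul_right_div_self, ← pow_add] at hm
  have h4 : p + 1 - s₁ + s₂ = p + 1 - (s₁ - s₂) := by omega
  rw [h4] at hm
  have h5 : 2 ^ p + 1 + h₁ = 2 ^ p + h₁ + 1 := by ring
  rw [h5, mem_Ico]
  have h6 : (2 ^ p + h₂ + 1) / 2 ^ (p + 1 - s₂) ≤ (2 ^ p + a) / 2 ^ (p + 1 - s₂) :=
    Nat.div_le_div_right (by omega)
  have h7 : 2 ^ (s₂ - 1) ≤ (2 ^ p + h₂ + 1) / 2 ^ (p + 1 - s₂) := by
    rw [Nat.le_div_iff_mul_le (by positivity), ← pow_add]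
    have : s₂ - 1 + (p + 1 - s₂) = p := by omega
    rw [this]; omega
  constructor
  · have h8 : 2 ^ (p - (s₁ - s₂)) = 2 ^ (s₂ - 1) * 2 ^ (p + 1 - s₁) := by
      rw [← pow_add]; congr 1; omega
    rw [h8, ← Nat.le_div_iff_mul_le (by positivity), hm]
    exact h7
  · rw [← Nat.div_lt_iff_lt_mul (by positivity), hm]
    omega

/-- (iii) -/
lemma pair_count (p k s₁ s₂ a : ℕ) (hs : s₂ ≤ s₁) (hs2 : 1 ≤ s₂) (hsk : s₁ ≤ k)
    (hk : k ≤ p + 1) (ha : a < 2 ^ p) :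
    2 ^ k * ∑ h₁ ∈ range a, ((range a).filter fun h₂ => V p k s₂ h₂ = V p k s₁ h₁).card ≤
      (a + 2 ^ (p + 1 - s₂)) * (a + 2 ^ (p + 1 - (s₁ - s₂))) := by
  classical
  set D := Ico (2 ^ (p - (s₁ - s₂))) (((2 ^ p + a) / 2 ^ (p + 1 - s₂) + 1) * 2 ^ (p + 1 - s₁))
    with hD
  have h1 : ∑ h₁ ∈ range a, ((range a).filter fun h₂ => V p k s₂ h₂ = V p k s₁ h₁).card ≤
      2 ^ (p + 1 - k) *
        ((range a).filter fun h => (2 ^ p + 1 + h) % 2 ^ (p + 1 - (s₁ - s₂)) ∈ D).card := by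
    rw [Finset.card_filter, Finset.mul_sum]
    apply Finset.sum_le_sum
    intro h₁ hh₁
    rw [mem_range] at hh₁
    split_ifs with hc
    · rw [mul_one]
      exact count_V p k s₂ _ a (by omega) hk ha
    · rw [mul_zero, Nat.le_zero, Finset.card_eq_zero, Finset.filter_eq_empty_iff]
      intro h₂ hh₂ hV
      rw [mem_range] at hh₂
      exact hc (cond_V p k s₁ s₂ h₁ h₂ a hs hs2 hsk hk ha hh₁ hh₂ hV.symm)
  have h2 := card_modset_le (2 ^ p + 1) a (2 ^ (p + 1 - (s₁ - s₂))) D (by positivity)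
  set N := ((range a).filter fun h => (2 ^ p + 1 + h) % 2 ^ (p + 1 - (s₁ - s₂)) ∈ D).card
  have h3 : D.card * 2 ^ (s₁ - s₂) ≤ a + 2 ^ (p + 1 - s₂) := by
    rw [hD, Nat.card_Ico, Nat.sub_mul]
    have e1 : 2 ^ (p - (s₁ - s₂)) * 2 ^ (s₁ - s₂) = 2 ^ p := by
      rw [← pow_add]; congr 1; omega
    have e2 : ((2 ^ p + a) / 2 ^ (p + 1 - s₂) + 1) * 2 ^ (p + 1 - s₁) * 2 ^ (s₁ - s₂) =
        (2 ^ p + a) / 2 ^ (p + 1 - s₂) * 2 ^ (p + 1 - s₂) + 2 ^ (p + 1 - s₂) := by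
      rw [mul_assoc, ← pow_add]
      have : p + 1 - s₁ + (s₁ - s₂) = p + 1 - s₂ := by omega
      rw [this]; ring
    rw [e1, e2]
    have h4 := Nat.div_mul_le_self (2 ^ p + a) (2 ^ (p + 1 - s₂))
    clear_value D
    clear e1 e2 h1 h2 hD
    generalize (2 ^ p + a) / 2 ^ (p + 1 - s₂) * 2 ^ (p + 1 - s₂) = Y at h4 ⊢
    generalize 2 ^ (p + 1 - s₂) = X
    omega
  have h4 : 2 ^ (p + 1) * N ≤ (a + 2 ^ (p + 1 - s₂)) * (a + 2 ^ (p + 1 - (s₁ - s₂))) := by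
    have e1 : 2 ^ (p + 1) = 2 ^ (s₁ - s₂) * 2 ^ (p + 1 - (s₁ - s₂)) := by
      rw [← pow_add]; congr 1; omega
    calc 2 ^ (p + 1) * N = 2 ^ (s₁ - s₂) * (2 ^ (p + 1 - (s₁ - s₂)) * N) := by rw [e1]; ring
      _ ≤ 2 ^ (s₁ - s₂) * (D.card * (a + 2 ^ (p + 1 - (s₁ - s₂)))) := Nat.mul_le_mul_left _ h2
      _ = (D.card * 2 ^ (s₁ - s₂)) * (a + 2 ^ (p + 1 - (s₁ - s₂))) := by ring
      _ ≤ _ := Nat.mul_le_mul_right _ h3
  calc 2 ^ k * _ ≤ 2 ^ k * (2 ^ (p + 1 - k) * N) := Nat.mul_le_mul_left _ h1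
    _ = 2 ^ (p + 1) * N := by
      rw [← mul_assoc, ← pow_add]
      congr 2; omega
    _ ≤ _ := h4

end V11327.CH
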