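import Mathlib
import Pool.Agent.V11327.CHcount

/-! `ℓ²` bounds for the block counts. -/

namespace V11327.CH

open Finset

/-- crossing counts -/
def cV (p k a s w : ℕ) : ℕ := ((range a).filter fun h => V p k s h = w).card

lemma dot_nat (p k s₁ s₂ a : ℕ) (hs : s₂ ≤ s₁) (hs2 : 1 ≤ s₂) (hsk : s₁ ≤ k)
    (hk : k ≤ p + 1) (ha : a < 2 ^ p) :
    2 ^ k * ∑ w ∈ range (2 ^ k), cV p k a s₁ w * cV p k a s₂ w ≤
      (a + 2 ^ (p + 1 - s₂)) * (a + 2 ^ (p + 1 - (s₁ - s₂))) := by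
  refine le_trans (Nat.mul_le_mul_left _ ?_) (pair_count p k s₁ s₂ a hs hs2 hsk hk ha)
  have h1 : ∀ w ∈ range (2 ^ k), cV p k a s₁ w * cV p k a s₂ w =
      ∑ h₁ ∈ range a, if V p k s₁ h₁ = w then cV p k a s₂ w else 0 := by
    intro w _
    unfold cV
    rw [Finset.card_filter, Finset.sum_mul]
    apply Finset.sum_congr rfl
    intro h _
    split_ifs <;> simp
  rw [Finset.sum_congr rfl h1, Finset.sum_comm]
  apply Finset.sum_le_sum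
  intro h₁ _
  rw [Finset.sum_ite_eq]
  split_ifs
  · exact le_refl _
  · exact Nat.zero_le _

/-- the error weight -/
noncomputable def ew (s₁ s₂ : ℕ) : ℝ :=
  4 * ((1 / 2) ^ s₁ + (1 / 2) ^ s₂) + 2 * (1 / 2) ^ ((s₁ - s₂) + (s₂ - s₁))

lemma ew_comm (s₁ s₂ : ℕ) : ew s₁ s₂ = ew s₂ s₁ := by
  unfold ew
  rw [add_comm ((1/2:ℝ) ^ s₁), add_comm (s₁ - s₂)]

lemma two_pow_sub (m t : ℕ) (h : t ≤ m) : (2:ℝ) ^ (m - t) = 2 ^ m * (1 / 2) ^ t := by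
  have : (2:ℝ) ^ m = 2 ^ (m - t) * 2 ^ t := by rw [← pow_add]; congr 1; omega
  rw [this, mul_assoc, ← mul_pow]
  norm_num

lemma dot_real_aux (p k s₁ s₂ a : ℕ) (hs : s₂ ≤ s₁) (hs2 : 1 ≤ s₂) (hsk : s₁ ≤ k)
    (hk : k ≤ p + 1) (ha : a < 2 ^ p) :
    2 ^ k * ∑ w ∈ range (2 ^ k), (cV p k a s₁ w : ℝ) * (cV p k a s₂ w : ℝ) ≤
      (a : ℝ) ^ 2 + 4 ^ p * ew s₁ s₂ := by
  have h1 := dot_nat p k s₁ s₂ a hs hs2 hsk hk ha
  have h2 : (2:ℝ) ^ k * ∑ w ∈ range (2 ^ k), (cV p k a s₁ w : ℝ) * (cV p k a s₂ w : ℝ) ≤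
      ((a:ℝ) + 2 ^ (p + 1 - s₂)) * (a + 2 ^ (p + 1 - (s₁ - s₂))) := by exact_mod_cast h1
  refine le_trans h2 ?_
  rw [two_pow_sub (p + 1) s₂ (by omega), two_pow_sub (p + 1) (s₁ - s₂) (by omega)]
  unfold ew
  have e1 : s₂ - s₁ = 0 := by omega
  rw [e1, add_zero]
  have ha' : (a:ℝ) ≤ 2 ^ p := by exact_mod_cast ha.le
  have e2 : (1 / 2 : ℝ) ^ s₁ = (1 / 2) ^ s₂ * (1 / 2) ^ (s₁ - s₂) := by
    rw [← pow_add]; congr 1; omega
  rw [e2]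
  have e3 : (4:ℝ) ^ p = 2 ^ p * 2 ^ p := by rw [← mul_pow]; norm_num
  rw [e3, pow_succ]
  have hx : (0:ℝ) ≤ (1 / 2) ^ s₂ := by positivity
  have hy : (0:ℝ) ≤ (1 / 2) ^ (s₁ - s₂) := by positivity
  have hx1 : (1 / 2 : ℝ) ^ s₂ ≤ 1 := pow_le_one₀ (by norm_num) (by norm_num)
  generalize (1 / 2 : ℝ) ^ s₂ = x at *
  generalize (1 / 2 : ℝ) ^ (s₁ - s₂) = y at *
  have ha0 : (0:ℝ) ≤ a := Nat.cast_nonneg a
  generalize (a : ℝ) = A at *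
  have hZ : (0:ℝ) ≤ 2 ^ p := by positivity
  generalize (2:ℝ) ^ p = Z at *
  have k1 : A * (Z * x) ≤ Z * (Z * x) := mul_le_mul_of_nonneg_right ha' (mul_nonneg hZ hx)
  have k2 : A * (Z * y) ≤ Z * (Z * y) := mul_le_mul_of_nonneg_right ha' (mul_nonneg hZ hy)
  have k3 : 0 ≤ Z * (Z * x) := mul_nonneg hZ (mul_nonneg hZ hx)
  have e4 : (A + Z * 2 * x) * (A + Z * 2 * y) =
      A ^ 2 + 2 * (A * (Z * x)) + 2 * (A * (Z * y)) + 4 * (Z * Z * (x * y)) := by ring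
  have e5 : A ^ 2 + Z * Z * (4 * (x * y + x) + 2 * y) =
      A ^ 2 + 4 * (Z * (Z * x)) + 2 * (Z * (Z * y)) + 4 * (Z * Z * (x * y)) := by ring
  rw [e4, e5]
  linarith

lemma dot_real (p k s₁ s₂ a : ℕ) (h1 : 1 ≤ s₁) (h2 : 1 ≤ s₂) (h1k : s₁ ≤ k) (h2k : s₂ ≤ k)
    (hk : k ≤ p + 1) (ha : a < 2 ^ p) :
    2 ^ k * ∑ w ∈ range (2 ^ k), (cV p k a s₁ w : ℝ) * (cV p k a s₂ w : ℝ) ≤
      (a : ℝ) ^ 2 + 4 ^ p * ew s₁ s₂ := by
  rcases le_total s₂ s₁ with h | h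
  · exact dot_real_aux p k s₁ s₂ a h h2 h1k hk ha
  · have := dot_real_aux p k s₂ s₁ a h h1 h2k hk ha
    rw [ew_comm]
    refine le_trans (le_of_eq ?_) this
    congr 1
    apply Finset.sum_congr rfl
    intro w _
    ring

lemma geo1 (n : ℕ) : ∑ s ∈ range n, (1 / 2 : ℝ) ^ (s + 1) ≤ 1 := by
  have : ∑ s ∈ range n, (1 / 2 : ℝ) ^ (s + 1) = 1 - (1 / 2) ^ n := by
    induction n with
    | zero => simp
    | succ n ih => rw [sum_range_succ, ih, pow_succ]; ring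
  rw [this]
  have : (0:ℝ) ≤ (1 / 2) ^ n := by positivity
  linarith

lemma geo2 (n : ℕ) : ∑ s ∈ range n, (1 / 2 : ℝ) ^ (n - s) ≤ 1 := by
  induction n with
  | zero => simp
  | succ n ih =>
    rw [sum_range_succ]
    have h1 : ∑ s ∈ range n, (1 / 2 : ℝ) ^ (n + 1 - s) =
        (1 / 2) * ∑ s ∈ range n, (1 / 2 : ℝ) ^ (n - s) := by
      rw [Finset.mul_sum]
      apply Finset.sum_congr rfl
      intro s hs
      rw [mem_range] at hs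
      have : n + 1 - s = (n - s) + 1 := by omega
      rw [this, pow_succ]; ring
    have h2 : n + 1 - n = 1 := by omega
    rw [h1, h2]
    linarith

lemma geo3 (n : ℕ) :
    ∑ s₁ ∈ range n, ∑ s₂ ∈ range n, (1 / 2 : ℝ) ^ ((s₁ - s₂) + (s₂ - s₁)) ≤ 3 * n := by
  induction n with
  | zero => simp
  | succ n ih =>
    rw [sum_range_succ]
    simp_rw [sum_range_succ _ n]
    rw [Finset.sum_add_distrib]
    have h1 : ∑ s ∈ range n, (1 / 2 : ℝ) ^ ((s - n) + (n - s)) ≤ 1 := by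
      refine le_trans (le_of_eq ?_) (geo2 n)
      apply Finset.sum_congr rfl
      intro s hs
      rw [mem_range] at hs
      congr 1; omega
    have h2 : ∑ s ∈ range n, (1 / 2 : ℝ) ^ ((n - s) + (s - n)) ≤ 1 := by
      refine le_trans (le_of_eq ?_) (geo2 n)
      apply Finset.sum_congr rfl
      intro s hs
      rw [mem_range] at hs
      congr 1; omega
    have h3 : (1 / 2 : ℝ) ^ ((n - n) + (n - n)) = 1 := by simp
    rw [h3]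
    push_cast
    linarith

lemma ew_sum (n : ℕ) :
    ∑ s₁ ∈ range n, ∑ s₂ ∈ range n, ew (s₁ + 1) (s₂ + 1) ≤ 14 * n := by
  have h1 : ∑ s₁ ∈ range n, ∑ s₂ ∈ range n, ew (s₁ + 1) (s₂ + 1) =
      4 * (n * ∑ s ∈ range n, (1 / 2 : ℝ) ^ (s + 1) + n * ∑ s ∈ range n, (1 / 2 : ℝ) ^ (s + 1)) +
      2 * ∑ s₁ ∈ range n, ∑ s₂ ∈ range n, (1 / 2 : ℝ) ^ ((s₁ - s₂) + (s₂ - s₁)) := by
    have e1 : ∀ s₁ s₂ : ℕ, ew (s₁ + 1) (s₂ + 1) = 4 * (1 / 2 : ℝ) ^ (s₁ + 1) +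
        4 * (1 / 2 : ℝ) ^ (s₂ + 1) + 2 * (1 / 2) ^ ((s₁ - s₂) + (s₂ - s₁)) := by
      intro s₁ s₂
      unfold ew
      have : (s₁ + 1 - (s₂ + 1)) + (s₂ + 1 - (s₁ + 1)) = (s₁ - s₂) + (s₂ - s₁) := by omega
      rw [this]; ring
    simp_rw [e1, Finset.sum_add_distrib, Finset.sum_const, card_range, nsmul_eq_mul,
      ← Finset.mul_sum]
    ring
  rw [h1]
  have h2 := geo1 n
  have h3 := geo3 n
  have hn : (0:ℝ) ≤ n := Nat.cast_nonneg n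
  have h4 : (n:ℝ) * ∑ s ∈ range n, (1 / 2 : ℝ) ^ (s + 1) ≤ n * 1 := mul_le_mul_of_nonneg_left h2 hn
  linarith

/-- crossing part -/
lemma P_cross (p k a n : ℕ) (hn : n + 1 ≤ k) (hk : k ≤ p + 1) (ha : a < 2 ^ p) :
    P k (fun w => ∑ s ∈ range n, (cV p k a (s + 1) w : ℝ)) (n * a + 4 * √n * 2 ^ p) := by
  refine ⟨by positivity, ?_⟩
  have h1 : 2 ^ k * ∑ w ∈ range (2 ^ k), (∑ s ∈ range n, (cV p k a (s + 1) w : ℝ)) ^ 2 =
      ∑ s₁ ∈ range n, ∑ s₂ ∈ range n,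
        2 ^ k * ∑ w ∈ range (2 ^ k), (cV p k a (s₁ + 1) w : ℝ) * (cV p k a (s₂ + 1) w : ℝ) := by
    simp_rw [sq, Finset.sum_mul_sum]
    rw [Finset.sum_comm, Finset.mul_sum]
    apply Finset.sum_congr rfl
    intro s₁ _
    rw [Finset.sum_comm, Finset.mul_sum]
  have h2 : ∑ s₁ ∈ range n, ∑ s₂ ∈ range n,
        2 ^ k * ∑ w ∈ range (2 ^ k), (cV p k a (s₁ + 1) w : ℝ) * (cV p k a (s₂ + 1) w : ℝ) ≤
      ∑ s₁ ∈ range n, ∑ s₂ ∈ range n, ((a : ℝ) ^ 2 + 4 ^ p * ew (s₁ + 1) (s₂ + 1)) := by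
    apply Finset.sum_le_sum
    intro s₁ hs₁
    apply Finset.sum_le_sum
    intro s₂ hs₂
    rw [mem_range] at hs₁ hs₂
    exact dot_real p k (s₁ + 1) (s₂ + 1) a (by omega) (by omega) (by omega) (by omega) hk ha
  have h3 : ∑ s₁ ∈ range n, ∑ s₂ ∈ range n, ((a : ℝ) ^ 2 + 4 ^ p * ew (s₁ + 1) (s₂ + 1)) =
      n * n * (a:ℝ) ^ 2 + 4 ^ p * ∑ s₁ ∈ range n, ∑ s₂ ∈ range n, ew (s₁ + 1) (s₂ + 1) := by
    simp_rw [Finset.sum_add_distrib, Finset.sum_const, card_range, nsmul_eq_mul, ← Finset.mul_sum]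
    ring
  have h4 : (4:ℝ) ^ p * ∑ s₁ ∈ range n, ∑ s₂ ∈ range n, ew (s₁ + 1) (s₂ + 1) ≤ 4 ^ p * (14 * n) :=
    mul_le_mul_of_nonneg_left (ew_sum n) (by positivity)
  rw [h1]
  refine le_trans h2 ?_
  rw [h3]
  have e3 : (4:ℝ) ^ p = 2 ^ p * 2 ^ p := by rw [← mul_pow]; norm_num
  have e4 : √(n:ℝ) * √(n:ℝ) = n := Real.mul_self_sqrt (Nat.cast_nonneg n)
  have h5 : ((n:ℝ) * a + 4 * √n * 2 ^ p) ^ 2 = n * n * (a:ℝ) ^ 2 + 8 * (n * a * √n * 2 ^ p) +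
      16 * (√n * √n) * (2 ^ p * 2 ^ p) := by ring
  rw [h5, e4, ← e3]
  have h6 : (0:ℝ) ≤ n * a * √n * 2 ^ p := by positivity
  have h7 : (0:ℝ) ≤ n * 4 ^ p := by positivity
  have h8 : (4:ℝ) ^ p * (14 * n) = 14 * (n * 4 ^ p) := by ring
  have h9 : 16 * (n:ℝ) * 4 ^ p = 16 * (n * 4 ^ p) := by ring
  rw [h8] at h4
  rw [h9]
  linarith

lemma geo4 (n : ℕ) : ∑ r ∈ range (n + 1), (2:ℝ) ^ (n - r) ≤ 2 ^ (n + 1) := by
  induction n with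
  | zero => simp
  | succ n ih =>
    rw [sum_range_succ']
    have h1 : ∀ r ∈ range (n + 1), (2:ℝ) ^ (n + 1 - (r + 1)) = 2 ^ (n - r) := by
      intro r _
      congr 1; omega
    rw [Finset.sum_congr rfl h1, Nat.sub_zero, pow_succ 2 (n + 1)]
    linarith

/-- interior part -/
lemma P_int (p k b n : ℕ) (hn : n + k = p + 1) :
    P k (fun w => ∑ r ∈ range (n + 1),
      (((range b).filter fun h => (2 ^ p + h) / 2 ^ (n - r) % 2 ^ k = w).card : ℝ))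
      ((n + 1) * b + 4 * 2 ^ p) := by
  apply P_const
  · positivity
  · intro w _
    positivity
  · intro w _
    rw [Finset.mul_sum]
    have h1 : ∀ r ∈ range (n + 1), (2:ℝ) ^ k *
        (((range b).filter fun h => (2 ^ p + h) / 2 ^ (n - r) % 2 ^ k = w).card : ℝ) ≤
        b + 2 ^ k * 2 ^ (n - r) := by
      intro r _
      have := interior_count (2 ^ p) b (n - r) k w
      have h2 : (2:ℝ) ^ k *
        (((range b).filter fun h => (2 ^ p + h) / 2 ^ (n - r) % 2 ^ k = w).card : ℝ) ≤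
          b + 2 ^ (n - r + k) := by exact_mod_cast this
      rw [pow_add] at h2
      linarith
    refine le_trans (Finset.sum_le_sum h1) ?_
    rw [Finset.sum_add_distrib, Finset.sum_const, card_range, nsmul_eq_mul, ← Finset.mul_sum]
    have h3 : (2:ℝ) ^ k * ∑ r ∈ range (n + 1), (2:ℝ) ^ (n - r) ≤ 2 ^ k * 2 ^ (n + 1) :=
      mul_le_mul_of_nonneg_left (geo4 n) (by positivity)
    have h4 : (2:ℝ) ^ k * 2 ^ (n + 1) = 4 * 2 ^ p := by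
      rw [← pow_add]
      have : k + (n + 1) = p + 2 := by omega
      rw [this, pow_add]; ring
    rw [h4] at h3
    push_cast
    linarith

end V11327.CH
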