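import Mathlib
import Pool.Agent.V11327.CHlevel

/-! Global `ℓ²` bound. -/

namespace V11327.CH

open Finset

noncomputable def ind (x w : ℕ) : ℝ := if x = w then 1 else 0

lemma ind_nonneg (x w : ℕ) : 0 ≤ ind x w := by unfold ind; split_ifs <;> norm_num

lemma P_ind (k x : ℕ) : P k (ind x) (2 ^ k) := P_delta k x

lemma card_eq_sum_ind (f : ℕ → ℕ) (a w : ℕ) :
    (((range a).filter fun h => f h = w).card : ℝ) = ∑ h ∈ range a, ind (f h) w := by
  unfold ind
  rw [Finset.card_filter]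
  push_cast
  rfl

noncomputable def level (k p b w : ℕ) : ℝ :=
  ∑ h ∈ range b, ∑ r ∈ range (p + 1), ind (W k (S (2 ^ p - 1 + h) + r)) w

lemma idx (p h : ℕ) : 2 ^ p - 1 + h + 1 = 2 ^ p + h := by
  have : 1 ≤ 2 ^ p := Nat.one_le_two_pow
  omega

lemma P_level_triv (k p b : ℕ) (hp : p + 1 < k) (hb : b ≤ 2 ^ p) :
    P k (level k p b) (k * 4 ^ k) := by
  have h1 : P k (level k p b) (∑ h ∈ range b, ∑ r ∈ range (p + 1), (2:ℝ) ^ k) := by
    unfold level
    apply P_sum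
    intro h _
    apply P_sum
    intro r _
    exact P_ind k _
  apply P_mono h1
  rw [Finset.sum_const, Finset.sum_const, card_range, card_range, nsmul_eq_mul, nsmul_eq_mul]
  have h2 : (b:ℝ) ≤ 2 ^ k := by
    have : b ≤ 2 ^ k := le_trans hb (Nat.pow_le_pow_right (by norm_num) (by omega))
    exact_mod_cast this
  have h3 : ((p + 1 : ℕ) : ℝ) ≤ k := by exact_mod_cast hp.le
  have e3 : (4:ℝ) ^ k = 2 ^ k * 2 ^ k := by rw [← mul_pow]; norm_num
  rw [e3]
  calc (b:ℝ) * (((p + 1 : ℕ) : ℝ) * 2 ^ k) ≤ 2 ^ k * (k * 2 ^ k) := by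
        apply mul_le_mul h2 _ (by positivity) (by positivity)
        exact mul_le_mul_of_nonneg_right h3 (by positivity)
    _ = _ := by ring

lemma P_level_main (k p b : ℕ) (hk1 : 1 ≤ k) (hp : k ≤ p + 1) (hb : b ≤ 2 ^ p) :
    P k (level k p b) ((p + 1) * b + (4 + 4 * √k) * 2 ^ p + k * 2 ^ k) := by
  obtain ⟨n, hn⟩ : ∃ n, n + k = p + 1 := ⟨p + 1 - k, by omega⟩
  obtain ⟨q, hq⟩ : ∃ q, q + 1 = k := ⟨k - 1, by omega⟩
  obtain ⟨a, ha⟩ : ∃ a, a = min b (2 ^ p - 1) := ⟨_, rfl⟩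
  have hp1 : 1 ≤ 2 ^ p := Nat.one_le_two_pow
  have hab : a ≤ b := by omega
  have ha2 : a < 2 ^ p := by omega
  have hba : b - a ≤ 1 := by omega
  have hI := P_int p k b n hn
  have hC := P_cross p k a q (by omega) hp ha2
  have hE : P k (fun w => ∑ h ∈ Ico a b, ∑ r ∈ range q,
      ind (W k (S (2 ^ p - 1 + h) + (n + 1 + r))) w)
      (∑ h ∈ Ico a b, ∑ r ∈ range q, (2:ℝ) ^ k) := by
    apply P_sum
    intro h _
    apply P_sum
    intro r _
    exact P_ind k _
  have hall := P_add (P_add hI hC) hE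
  have hsum : ((n:ℝ) + 1) * b + 4 * 2 ^ p + (q * a + 4 * √q * 2 ^ p) +
      ∑ h ∈ Ico a b, ∑ r ∈ range q, (2:ℝ) ^ k ≤
      (p + 1) * b + (4 + 4 * √k) * 2 ^ p + k * 2 ^ k := by
    rw [Finset.sum_const, Finset.sum_const, card_range, Nat.card_Ico, nsmul_eq_mul, nsmul_eq_mul]
    have h1 : ((b - a : ℕ) : ℝ) ≤ 1 := by exact_mod_cast hba
    have h2 : (q:ℝ) ≤ k := by exact_mod_cast (by omega : q ≤ k)
    have h3 : (a:ℝ) ≤ b := by exact_mod_cast hab
    have h4 : √(q:ℝ) ≤ √k := Real.sqrt_le_sqrt h2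
    have h5 : (p:ℝ) + 1 = n + 1 + q := by
      have : p + 1 = n + 1 + q := by omega
      exact_mod_cast this
    rw [h5]
    have hK : (0:ℝ) ≤ 2 ^ k := by positivity
    have k1 : ((b - a : ℕ) : ℝ) * (q * 2 ^ k) ≤ 1 * (k * 2 ^ k) := by
      apply mul_le_mul h1 _ (by positivity) (by norm_num)
      exact mul_le_mul_of_nonneg_right h2 hK
    have k2 : (q:ℝ) * a ≤ q * b := mul_le_mul_of_nonneg_left h3 (Nat.cast_nonneg q)
    have k3 : √(q:ℝ) * 2 ^ p ≤ √k * 2 ^ p := mul_le_mul_of_nonneg_right h4 (by positivity)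
    have e1 : ((n:ℝ) + 1 + q) * b + (4 + 4 * √k) * 2 ^ p + k * 2 ^ k =
      (n + 1) * b + q * b + 4 * 2 ^ p + 4 * (√k * 2 ^ p) + k * 2 ^ k := by ring
    rw [e1]
    have e2 : 4 * √(q:ℝ) * 2 ^ p = 4 * (√q * 2 ^ p) := by ring
    rw [e2]
    linarith
  apply P_mono _ hsum
  apply P_mono_fun hall
  · intro w _
    unfold level
    exact Finset.sum_nonneg fun _ _ => Finset.sum_nonneg fun _ _ => ind_nonneg _ _
  · intro w _
    unfold level
    have hpn : p + 1 = (n + 1) + q := by omega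
    have e1 : ∑ h ∈ range b, ∑ r ∈ range (p + 1), ind (W k (S (2 ^ p - 1 + h) + r)) w =
        ∑ h ∈ range b, ∑ r ∈ range (n + 1), ind (W k (S (2 ^ p - 1 + h) + r)) w +
        ∑ h ∈ range b, ∑ r ∈ range q, ind (W k (S (2 ^ p - 1 + h) + (n + 1 + r))) w := by
      rw [← Finset.sum_add_distrib]
      apply Finset.sum_congr rfl
      intro h _
      rw [hpn, sum_range_add]
    have e2 : ∑ h ∈ range b, ∑ r ∈ range q, ind (W k (S (2 ^ p - 1 + h) + (n + 1 + r))) w =
        ∑ h ∈ range a, ∑ r ∈ range q, ind (W k (S (2 ^ p - 1 + h) + (n + 1 + r))) w +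
        ∑ h ∈ Ico a b, ∑ r ∈ range q, ind (W k (S (2 ^ p - 1 + h) + (n + 1 + r))) w := by
      rw [Finset.sum_range_add_sum_Ico _ hab]
    have e3 : ∑ h ∈ range b, ∑ r ∈ range (n + 1), ind (W k (S (2 ^ p - 1 + h) + r)) w =
        ∑ r ∈ range (n + 1),
          (((range b).filter fun h => (2 ^ p + h) / 2 ^ (n - r) % 2 ^ k = w).card : ℝ) := by
      rw [Finset.sum_comm]
      apply Finset.sum_congr rfl
      intro r hr
      rw [mem_range] at hr
      rw [card_eq_sum_ind]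
      apply Finset.sum_congr rfl
      intro h hh
      rw [mem_range] at hh
      have hsz : (2 ^ p - 1 + h + 1).size = p + 1 := by rw [idx]; exact size_eq p h (by omega)
      rw [W_interior _ _ _ (by rw [hsz]; omega), hsz, idx]
      congr 4; omega
    have e4 : ∑ h ∈ range a, ∑ r ∈ range q, ind (W k (S (2 ^ p - 1 + h) + (n + 1 + r))) w =
        ∑ s ∈ range q, (cV p k a (s + 1) w : ℝ) := by
      rw [Finset.sum_comm]
      apply Finset.sum_congr rfl
      intro r hr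
      rw [mem_range] at hr
      unfold cV
      rw [card_eq_sum_ind]
      apply Finset.sum_congr rfl
      intro h hh
      rw [mem_range] at hh
      have hsz : (2 ^ p - 1 + h + 1).size = p + 1 := by rw [idx]; exact size_eq p h (by omega)
      have hsz2 : (2 ^ p - 1 + h + 2).size = (2 ^ p - 1 + h + 1).size := by
        rw [hsz, show 2 ^ p - 1 + h + 2 = (2 ^ p - 1 + h + 1) + 1 from rfl, idx]
        exact size_eq p (h + 1) (by omega)
      have hpos : n + 1 + r = (2 ^ p - 1 + h + 1).size - (q - r) := by rw [hsz]; omega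
      rw [hpos, W_crossing _ (q - r) k (by omega) (by rw [hsz]; omega) hsz2, hsz,
        show 2 ^ p - 1 + h + 2 = (2 ^ p - 1 + h + 1) + 1 from rfl, idx]
      unfold V
      have f1 : k - (q - r) = r + 1 := by omega
      have f2 : k - (r + 1) = q - r := by omega
      rw [f1, f2]
    rw [e1, e2, e3, e4]
    linarith

/-- level bound, uniform -/
lemma P_level (k p b : ℕ) (hk1 : 1 ≤ k) (hb : b ≤ 2 ^ p) :
    P k (level k p b) ((p + 1) * b + (4 + 4 * √k) * 2 ^ p + k * 4 ^ k) := by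
  rcases lt_or_ge (p + 1) k with h | h
  · apply P_mono (P_level_triv k p b h hb)
    have : (0:ℝ) ≤ (p + 1) * b + (4 + 4 * √k) * 2 ^ p := by positivity
    linarith
  · apply P_mono (P_level_main k p b hk1 h hb)
    have h1 : (2:ℝ) ^ k ≤ 4 ^ k := pow_le_pow_left₀ (by norm_num) (by norm_num) k
    have h2 : (k:ℝ) * 2 ^ k ≤ k * 4 ^ k := mul_le_mul_of_nonneg_left h1 (Nat.cast_nonneg k)
    linarith

lemma sum_dyadic (g : ℕ → ℝ) (P : ℕ) :
    ∑ i ∈ range (2 ^ P - 1), g i = ∑ p ∈ range P, ∑ h ∈ range (2 ^ p), g (2 ^ p - 1 + h) := by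
  induction P with
  | zero => simp
  | succ P ih =>
    have : 2 ^ (P + 1) - 1 = (2 ^ P - 1) + 2 ^ P := by
      have : 1 ≤ 2 ^ P := Nat.one_le_two_pow
      rw [pow_succ]; omega
    rw [this, sum_range_add, sum_range_succ, ih]

lemma sum_dyadic' (g : ℕ → ℝ) (P b : ℕ) :
    ∑ i ∈ range (2 ^ P - 1 + b), g i =
      ∑ p ∈ range P, ∑ h ∈ range (2 ^ p), g (2 ^ p - 1 + h) +
        ∑ h ∈ range b, g (2 ^ P - 1 + h) := by
  rw [sum_range_add, sum_dyadic]

/-- counts over all positions before `S M` -/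
noncomputable def call (k m w : ℕ) : ℝ := ∑ n ∈ range m, ind (W k n) w

lemma call_eq (k Q b w : ℕ) (hb : b ≤ 2 ^ Q) :
    call k (S (2 ^ Q - 1 + b)) w = ∑ p ∈ range Q, level k p (2 ^ p) w + level k Q b w := by
  unfold call
  rw [sum_S, sum_dyadic']
  unfold level
  congr 1
  · apply Finset.sum_congr rfl
    intro p _
    apply Finset.sum_congr rfl
    intro h hh
    rw [mem_range] at hh
    rw [idx, size_eq p h hh]
  · apply Finset.sum_congr rfl
    intro h hh
    rw [mem_range] at hh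
    rw [idx, size_eq Q h (by omega)]

lemma S_eq_real (Q b : ℕ) (hb : b ≤ 2 ^ Q) :
    (S (2 ^ Q - 1 + b) : ℝ) = ∑ p ∈ range Q, ((p:ℝ) + 1) * 2 ^ p + (Q + 1) * b := by
  unfold S
  push_cast
  rw [sum_dyadic' (fun i => ((i + 1).size : ℝ))]
  congr 1
  · apply Finset.sum_congr rfl
    intro p _
    have : ∀ h ∈ range (2 ^ p), ((2 ^ p - 1 + h + 1).size : ℝ) = p + 1 := by
      intro h hh
      rw [mem_range] at hh
      rw [idx, size_eq p h hh]; push_cast; ring
    rw [Finset.sum_congr rfl this, Finset.sum_const, card_range, nsmul_eq_mul]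
    push_cast; ring
  · have : ∀ h ∈ range b, ((2 ^ Q - 1 + h + 1).size : ℝ) = Q + 1 := by
      intro h hh
      rw [mem_range] at hh
      rw [idx, size_eq Q h (by omega)]; push_cast; ring
    rw [Finset.sum_congr rfl this, Finset.sum_const, card_range, nsmul_eq_mul]
    ring

lemma geo5 (Q : ℕ) : ∑ p ∈ range Q, (2:ℝ) ^ p = 2 ^ Q - 1 := by
  induction Q with
  | zero => simp
  | succ Q ih => rw [sum_range_succ, ih, pow_succ]; ring

lemma P_call (k Q b : ℕ) (hk1 : 1 ≤ k) (hb : b ≤ 2 ^ Q) :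
    P k (call k (S (2 ^ Q - 1 + b)))
      ((S (2 ^ Q - 1 + b) : ℝ) + (4 + 4 * √k) * 2 ^ (Q + 1) + (Q + 1) * (k * 4 ^ k)) := by
  have h1 := P_sum (range Q) (f := fun p => level k p (2 ^ p))
    (A := fun p => ((p:ℝ) + 1) * ((2 ^ p : ℕ) : ℝ) + (4 + 4 * √k) * 2 ^ p + k * 4 ^ k)
    (fun p _ => P_level k p (2 ^ p) hk1 (le_refl _))
  have h2 := P_level k Q b hk1 hb
  have h3 := P_add h1 h2
  have h4 : call k (S (2 ^ Q - 1 + b)) =
      fun w => ∑ p ∈ range Q, level k p (2 ^ p) w + level k Q b w := by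
    funext w
    exact call_eq k Q b w hb
  rw [h4]
  apply P_mono h3
  rw [S_eq_real Q b hb]
  rw [Finset.sum_add_distrib, Finset.sum_add_distrib, Finset.sum_const, card_range, nsmul_eq_mul,
    ← Finset.mul_sum, geo5]
  push_cast
  have h5 : (0:ℝ) ≤ 4 + 4 * √k := by positivity
  have e1 : (4 + 4 * √(k:ℝ)) * (2 ^ Q - 1) = (4 + 4 * √k) * 2 ^ Q - (4 + 4 * √k) := by ring
  have e2 : (4 + 4 * √(k:ℝ)) * 2 ^ (Q + 1) = 2 * ((4 + 4 * √k) * 2 ^ Q) := by ring
  rw [e1, e2]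
  linarith

end V11327.CH
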