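import Mathlib
import Pool.Agent.V11327.CHglobal

/-! Choice of the block length. -/

namespace V11327.CH

open Finset

/-- error term -/
noncomputable def err (k : ℕ) : ℝ :=
  (4 * k + 4) + 64 * (1 + √k) * 16 ^ k + 4 * (k + 1) * k * 4 ^ k

lemma sum_closed (Q : ℕ) : ∑ p ∈ range Q, ((p:ℝ) + 1) * 2 ^ p = (Q - 1) * 2 ^ Q + 1 := by
  induction Q with
  | zero => simp
  | succ Q ih => rw [sum_range_succ, ih, pow_succ]; push_cast; ring

lemma S_dyadic (Q : ℕ) : (S (2 ^ Q - 1) : ℝ) = (Q - 1) * 2 ^ Q + 1 := by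
  have := S_eq_real Q 0 (Nat.zero_le _)
  rw [add_zero] at this
  rw [this, sum_closed]; push_cast; ring

lemma choose_k (N : ℕ) (hN : S 16 ≤ N) :
    ∃ k : ℕ, 1 ≤ k ∧ (k:ℝ) * 16 ^ k ≤ N ∧ (N:ℝ) ≤ 64 * (k + 1) * 16 ^ k ∧
      P k (call k (N + 1)) (N + err k) := by
  have hex : ∃ M, N < S M := ⟨N + 1, lt_of_lt_of_le (Nat.lt_succ_self N) (le_S (N + 1))⟩
  classical
  obtain ⟨M, hM, hmin⟩ : ∃ M, N < S M ∧ ∀ m < M, S m ≤ N :=
    ⟨Nat.find hex, Nat.find_spec hex, fun m hm => not_lt.mp (Nat.find_min hex hm)⟩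
  have hM16 : 16 < M := by
    by_contra h
    push Not at h
    have := S_mono h
    omega
  obtain ⟨Q, hQ⟩ : ∃ Q, Q = Nat.log 2 M := ⟨_, rfl⟩
  have hQ1 : 2 ^ Q ≤ M := by rw [hQ]; exact Nat.pow_log_le_self 2 (by omega)
  have hQ2 : M < 2 ^ (Q + 1) := by rw [hQ]; exact Nat.lt_pow_succ_log_self (by norm_num) M
  have hQ4 : 4 ≤ Q := by
    rw [hQ]
    apply Nat.le_log_of_pow_le (by norm_num)
    omega
  obtain ⟨b, hb⟩ : ∃ b, M = 2 ^ Q - 1 + b := ⟨M - (2 ^ Q - 1), by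
    have : 1 ≤ 2 ^ Q := Nat.one_le_two_pow
    omega⟩
  have hb2 : b ≤ 2 ^ Q := by
    rw [pow_succ] at hQ2
    have : 1 ≤ 2 ^ Q := Nat.one_le_two_pow
    omega
  obtain ⟨k, hk⟩ : ∃ k, k = Q / 4 := ⟨_, rfl⟩
  have hk1 : 1 ≤ k := by omega
  have hk4 : 4 * k ≤ Q := by omega
  have hk5 : Q ≤ 4 * k + 3 := by omega
  refine ⟨k, hk1, ?_, ?_, ?_⟩
  · -- lower bound for N
    have h1 : S (2 ^ Q - 1) ≤ N := by
      apply hmin
      have : 1 ≤ 2 ^ Q := Nat.one_le_two_pow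
      omega
    have h2 : (S (2 ^ Q - 1) : ℝ) ≤ N := by exact_mod_cast h1
    rw [S_dyadic] at h2
    have h3 : (16:ℝ) ^ k ≤ 2 ^ Q := by
      have : (16:ℝ) ^ k = 2 ^ (4 * k) := by rw [pow_mul]; norm_num
      rw [this]
      exact pow_le_pow_right₀ (by norm_num) hk4
    have h4 : (k:ℝ) ≤ Q - 1 := by
      have : k + 1 ≤ Q := by omega
      have : ((k + 1 : ℕ) : ℝ) ≤ Q := by exact_mod_cast this
      push_cast at this
      linarith
    have h5 : (k:ℝ) * 16 ^ k ≤ (Q - 1) * 2 ^ Q := by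
      apply mul_le_mul h4 h3 (by positivity)
      exact le_trans (Nat.cast_nonneg k) h4
    linarith
  · have h1 : N ≤ S (2 ^ (Q + 1) - 1) := by
      have : S M ≤ S (2 ^ (Q + 1) - 1) := S_mono (by omega)
      omega
    have h2 : (N:ℝ) ≤ S (2 ^ (Q + 1) - 1) := by exact_mod_cast h1
    rw [S_dyadic] at h2
    push_cast at h2
    have h3 : (2:ℝ) ^ (Q + 1) ≤ 16 * 16 ^ k := by
      have : (16:ℝ) * 16 ^ k = 2 ^ (4 * k + 4) := by
        rw [pow_add, pow_mul]; norm_num; ring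
      rw [this]
      exact pow_le_pow_right₀ (by norm_num) (by omega)
    have h4 : (Q:ℝ) ≤ 4 * k + 3 := by exact_mod_cast hk5
    have h5 : ((Q:ℝ) + 1 - 1) * 2 ^ (Q + 1) ≤ (4 * k + 3) * (16 * 16 ^ k) := by
      rw [add_sub_cancel_right]
      exact mul_le_mul h4 h3 (by positivity) (by positivity)
    have h6 : (1:ℝ) ≤ 16 ^ k := one_le_pow₀ (by norm_num)
    calc (N:ℝ) ≤ _ := h2
      _ ≤ (4 * k + 3) * (16 * 16 ^ k) + 1 := by linarith
      _ ≤ (4 * k + 3) * (16 * 16 ^ k) + 16 * 16 ^ k := by linarith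
      _ = 64 * (k + 1) * 16 ^ k := by ring
  · have h1 := P_call k Q b hk1 hb2
    rw [← hb] at h1
    have h2 : P k (call k (N + 1))
        ((S M : ℝ) + (4 + 4 * √k) * 2 ^ (Q + 1) + (Q + 1) * (k * 4 ^ k)) := by
      apply P_mono_fun h1
      · intro w _
        exact Finset.sum_nonneg fun _ _ => ind_nonneg _ _
      · intro w _
        unfold call
        apply Finset.sum_le_sum_of_subset_of_nonneg
        · intro x hx
          rw [mem_range] at hx ⊢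
          omega
        · intro _ _ _
          exact ind_nonneg _ _
    apply P_mono h2
    have h3 : (S M : ℝ) ≤ N + (Q + 1) := by
      obtain ⟨M', hM'⟩ : ∃ M', M = M' + 1 := ⟨M - 1, by omega⟩
      have h4 := hmin M' (by omega)
      have h5 : S M ≤ N + (Q + 1) := by
        rw [hM', S_succ]
        have : (M' + 1).size ≤ Q + 1 := by rw [Nat.size_le, ← hM']; exact hQ2
        omega
      exact_mod_cast h5
    have h4 : (Q:ℝ) ≤ 4 * k + 3 := by exact_mod_cast hk5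
    have h5 : (2:ℝ) ^ (Q + 1) ≤ 16 * 16 ^ k := by
      have : (16:ℝ) * 16 ^ k = 2 ^ (4 * k + 4) := by
        rw [pow_add, pow_mul]; norm_num; ring
      rw [this]
      exact pow_le_pow_right₀ (by norm_num) (by omega)
    have h6 : (4 + 4 * √(k:ℝ)) * 2 ^ (Q + 1) ≤ (4 + 4 * √k) * (16 * 16 ^ k) :=
      mul_le_mul_of_nonneg_left h5 (by positivity)
    have h7 : ((Q:ℝ) + 1) * (k * 4 ^ k) ≤ (4 * k + 4) * (k * 4 ^ k) :=
      mul_le_mul_of_nonneg_right (by linarith) (by positivity)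
    unfold err
    have e1 : (4 + 4 * √(k:ℝ)) * (16 * 16 ^ k) = 64 * (1 + √k) * 16 ^ k := by ring
    have e2 : (4 * (k:ℝ) + 4) * (k * 4 ^ k) = 4 * (k + 1) * k * 4 ^ k := by ring
    rw [e1] at h6
    rw [e2] at h7
    linarith

end V11327.CH
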