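import Mathlib
import Pool.Agent.V11327.CHchoose

/-! From block counts to pair correlations. -/

namespace V11327.CH

open Finset

/-- tails of the binary expansion -/
noncomputable def y (n : ℕ) : ℝ := ∑' j : ℕ, (champDigit (n + j) : ℝ) / 2 ^ (j + 1)

lemma digit_le_one (n : ℕ) : (champDigit n : ℝ) ≤ 1 := by
  have := champDigit_lt n
  exact_mod_cast (by omega : champDigit n ≤ 1)

lemma summ_half : Summable fun j : ℕ => (1:ℝ) / 2 ^ (j + 1) := by
  have h := (summable_geometric_two).mul_left (1 / 2 : ℝ)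
  refine h.congr ?_
  intro j
  rw [one_div_pow, pow_succ]; field_simp

lemma tsum_half : ∑' j : ℕ, (1:ℝ) / 2 ^ (j + 1) = 1 := by
  have h : ∀ j : ℕ, (1:ℝ) / 2 ^ (j + 1) = 1 / 2 * (1 / 2) ^ j := by
    intro j
    rw [one_div_pow, pow_succ]; field_simp
  simp_rw [h]
  rw [tsum_mul_left, tsum_geometric_two]; norm_num

lemma summ_y (n : ℕ) : Summable fun j : ℕ => (champDigit (n + j) : ℝ) / 2 ^ (j + 1) := by
  apply Summable.of_nonneg_of_le _ _ summ_half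
  · intro j; positivity
  · intro j
    exact div_le_div_of_nonneg_right (digit_le_one _) (by positivity)

lemma y_nonneg (n : ℕ) : 0 ≤ y n := tsum_nonneg fun j => by positivity

lemma y_le_one (n : ℕ) : y n ≤ 1 := by
  rw [← tsum_half]
  apply Summable.tsum_le_tsum _ (summ_y n) summ_half
  intro j
  exact div_le_div_of_nonneg_right (digit_le_one _) (by positivity)

lemma y_succ (n : ℕ) : 2 * y n = champDigit n + y (n + 1) := by
  unfold y
  rw [(summ_y n).tsum_eq_zero_add]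
  have h : ∀ j : ℕ, (champDigit (n + (j + 1)) : ℝ) / 2 ^ (j + 1 + 1) =
      1 / 2 * ((champDigit (n + 1 + j) : ℝ) / 2 ^ (j + 1)) := by
    intro j
    rw [show n + (j + 1) = n + 1 + j by ring, pow_succ 2 (j + 1)]
    field_simp
  simp_rw [h]
  rw [tsum_mul_left, add_zero]
  ring

lemma y_block (k n : ℕ) : 2 ^ k * y n = W k n + y (n + k) := by
  induction k with
  | zero => simp [W_zero]
  | succ k ih =>
    rw [W_succ, pow_succ]
    have h1 : (2:ℝ) ^ k * 2 * y n = 2 * (2 ^ k * y n) := by ring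
    rw [h1, ih, mul_add, y_succ (n + k)]
    push_cast
    ring_nf

/-- being close modulo one -/
def near (δ : ℝ) (l m : ℕ) : Prop := ∃ z : ℤ, |y l - y m - z| ≤ δ

lemma near_upper (k l m : ℕ) (δ : ℝ) (h : near δ l m) :
    ∃ i : ℤ, i ∈ Finset.Icc (-(⌊δ * 2 ^ k⌋ + 1)) (⌊δ * 2 ^ k⌋ + 1) ∧
      ((W k l : ℕ) : ZMod (2 ^ k)) = ((W k m : ℕ) : ZMod (2 ^ k)) + (i : ZMod (2 ^ k)) := by
  obtain ⟨z, hz⟩ := h
  refine ⟨(W k l : ℤ) - W k m - 2 ^ k * z, ?_, ?_⟩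
  · have hK : (0:ℝ) < 2 ^ k := by positivity
    have h1 := y_block k l
    have h2 := y_block k m
    have h3 : |2 ^ k * y l - 2 ^ k * y m - 2 ^ k * z| ≤ δ * 2 ^ k := by
      have : (2:ℝ) ^ k * y l - 2 ^ k * y m - 2 ^ k * z = 2 ^ k * (y l - y m - z) := by ring
      rw [this, abs_mul, abs_of_pos hK, mul_comm δ]
      exact mul_le_mul_of_nonneg_left hz hK.le
    rw [h1, h2] at h3
    have a1 := y_nonneg (l + k)
    have a2 := y_le_one (l + k)
    have a3 := y_nonneg (m + k)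
    have a4 := y_le_one (m + k)
    have h4 := abs_le.mp h3
    have h5 : ((W k l : ℤ) - W k m - 2 ^ k * z : ℤ) ≤ ⌊δ * 2 ^ k⌋ + 1 := by
      rw [← Int.floor_add_one, Int.le_floor]
      push_cast
      linarith [h4.2]
    have h6 : -((W k l : ℤ) - W k m - 2 ^ k * z : ℤ) ≤ ⌊δ * 2 ^ k⌋ + 1 := by
      rw [← Int.floor_add_one, Int.le_floor]
      push_cast
      linarith [h4.1]
    rw [Finset.mem_Icc]
    constructor
    · linarith
    · exact h5
  · have hcast : ((2:ZMod (2 ^ k)) ^ k) = 0 := by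
      have := ZMod.natCast_self (2 ^ k)
      push_cast at this
      exact this
    push_cast
    rw [hcast]
    ring

lemma near_lower (k l m : ℕ) (δ : ℝ) (i : ℤ)
    (hi : i ∈ Finset.Icc (-(⌊δ * 2 ^ k⌋ - 1)) (⌊δ * 2 ^ k⌋ - 1))
    (h : ((W k l : ℕ) : ZMod (2 ^ k)) = ((W k m : ℕ) : ZMod (2 ^ k)) + (i : ZMod (2 ^ k))) :
    near δ l m := by
  have h1 : (((W k l : ℤ) - W k m - i : ℤ) : ZMod (2 ^ k)) = 0 := by
    push_cast
    rw [h]; ring
  rw [ZMod.intCast_zmod_eq_zero_iff_dvd] at h1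
  obtain ⟨z, hz⟩ := h1
  refine ⟨z, ?_⟩
  push_cast at hz
  have hK : (0:ℝ) < 2 ^ k := by positivity
  have e1 : (W k l : ℝ) - W k m - i = 2 ^ k * z := by exact_mod_cast hz
  have h2 := y_block k l
  have h3 := y_block k m
  have a1 := y_nonneg (l + k)
  have a2 := y_le_one (l + k)
  have a3 := y_nonneg (m + k)
  have a4 := y_le_one (m + k)
  rw [Finset.mem_Icc] at hi
  have hf := Int.floor_le (δ * 2 ^ k)
  have h4 : (i:ℝ) ≤ δ * 2 ^ k - 1 := by
    have : (i:ℝ) ≤ (⌊δ * 2 ^ k⌋ - 1 : ℤ) := by exact_mod_cast hi.2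
    push_cast at this
    linarith
  have h5 : -(δ * 2 ^ k - 1) ≤ (i:ℝ) := by
    have : ((-(⌊δ * 2 ^ k⌋ - 1) : ℤ) : ℝ) ≤ i := by exact_mod_cast hi.1
    push_cast at this
    linarith
  have h6 : |2 ^ k * (y l - y m - z)| ≤ 2 ^ k * δ := by
    have : (2:ℝ) ^ k * (y l - y m - z) = i + y (l + k) - y (m + k) := by
      have : (2:ℝ) ^ k * (y l - y m - z) = 2 ^ k * y l - 2 ^ k * y m - 2 ^ k * z := by ring
      rw [this, h2, h3, ← e1]; ring
    rw [this, abs_le]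
    constructor <;> linarith
  rw [abs_mul, abs_of_pos hK] at h6
  exact le_of_mul_le_mul_left h6 hK

/-- block counts over `ZMod` -/
noncomputable def cZ (k N : ℕ) (z : ZMod (2 ^ k)) : ℝ :=
  ∑ n ∈ Icc 1 N, if ((W k n : ℕ) : ZMod (2 ^ k)) = z then 1 else 0

noncomputable def Gam (k N : ℕ) (i : ZMod (2 ^ k)) : ℝ :=
  ∑ l ∈ Icc 1 N, ∑ m ∈ Icc 1 N,
    if ((W k l : ℕ) : ZMod (2 ^ k)) = ((W k m : ℕ) : ZMod (2 ^ k)) + i then 1 else 0

instance (k : ℕ) : NeZero (2 ^ k) := ⟨by positivity⟩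

lemma Gam_eq (k N : ℕ) (i : ZMod (2 ^ k)) :
    Gam k N i = ∑ z : ZMod (2 ^ k), cZ k N (z + i) * cZ k N z := by
  unfold Gam cZ
  simp_rw [Finset.sum_mul_sum]
  symm
  rw [Finset.sum_comm]
  apply Finset.sum_congr rfl
  intro l _
  rw [Finset.sum_comm]
  apply Finset.sum_congr rfl
  intro m _
  have h1 : ∀ z : ZMod (2 ^ k),
      ((if ((W k l : ℕ) : ZMod (2 ^ k)) = z + i then (1:ℝ) else 0) *
        (if ((W k m : ℕ) : ZMod (2 ^ k)) = z then 1 else 0)) =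
      if ((W k m : ℕ) : ZMod (2 ^ k)) = z then
        (if ((W k l : ℕ) : ZMod (2 ^ k)) = ((W k m : ℕ) : ZMod (2 ^ k)) + i then (1:ℝ) else 0)
        else 0 := by
    intro z
    by_cases hz : ((W k m : ℕ) : ZMod (2 ^ k)) = z
    · rw [if_pos hz, if_pos hz, mul_one, hz]
    · rw [if_neg hz, if_neg hz, mul_zero]
  rw [Finset.sum_congr rfl (fun z _ => h1 z), Finset.sum_ite_eq, if_pos (mem_univ _)]

noncomputable def Qs (k N : ℕ) : ℝ := ∑ z : ZMod (2 ^ k), cZ k N z ^ 2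

lemma sum_cZ (k N : ℕ) : ∑ z : ZMod (2 ^ k), cZ k N z = N := by
  unfold cZ
  rw [Finset.sum_comm]
  have : ∀ n ∈ Icc 1 N, ∑ z : ZMod (2 ^ k),
      (if ((W k n : ℕ) : ZMod (2 ^ k)) = z then (1:ℝ) else 0) = 1 := by
    intro n _
    rw [Finset.sum_ite_eq, if_pos (mem_univ _)]
  rw [Finset.sum_congr rfl this]
  simp

lemma sum_shift (k N : ℕ) (i : ZMod (2 ^ k)) : ∑ z : ZMod (2 ^ k), cZ k N (z + i) = N := by
  rw [← sum_cZ k N]
  exact Equiv.sum_comp (Equiv.addRight i) (fun z => cZ k N z)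

lemma sum_shift_sq (k N : ℕ) (i : ZMod (2 ^ k)) :
    ∑ z : ZMod (2 ^ k), cZ k N (z + i) ^ 2 = Qs k N := by
  unfold Qs
  exact Equiv.sum_comp (Equiv.addRight i) (fun z => cZ k N z ^ 2)

lemma Gam_le (k N : ℕ) (i : ZMod (2 ^ k)) : Gam k N i ≤ Qs k N := by
  rw [Gam_eq]
  have h1 : 0 ≤ ∑ z : ZMod (2 ^ k), (cZ k N (z + i) - cZ k N z) ^ 2 :=
    Finset.sum_nonneg fun _ _ => sq_nonneg _
  have h2 : ∑ z : ZMod (2 ^ k), (cZ k N (z + i) - cZ k N z) ^ 2 =
      ∑ z : ZMod (2 ^ k), cZ k N (z + i) ^ 2 - 2 * ∑ z : ZMod (2 ^ k), cZ k N (z + i) * cZ k N z +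
      ∑ z : ZMod (2 ^ k), cZ k N z ^ 2 := by
    rw [Finset.mul_sum, ← Finset.sum_sub_distrib, ← Finset.sum_add_distrib]
    apply Finset.sum_congr rfl
    intro z _
    ring
  rw [h2, sum_shift_sq] at h1
  have : ∑ z : ZMod (2 ^ k), cZ k N z ^ 2 = Qs k N := rfl
  rw [this] at h1
  linarith

lemma Gam_ge (k N : ℕ) (i : ZMod (2 ^ k)) :
    2 * (N:ℝ) ^ 2 / 2 ^ k - Qs k N ≤ Gam k N i := by
  rw [Gam_eq]
  set μ : ℝ := N / 2 ^ k with hμ
  have h1 : 0 ≤ ∑ z : ZMod (2 ^ k), (cZ k N (z + i) + cZ k N z - 2 * μ) ^ 2 :=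
    Finset.sum_nonneg fun _ _ => sq_nonneg _
  have h2 : ∑ z : ZMod (2 ^ k), (cZ k N (z + i) + cZ k N z - 2 * μ) ^ 2 =
      ∑ z : ZMod (2 ^ k), cZ k N (z + i) ^ 2 + 2 * ∑ z : ZMod (2 ^ k), cZ k N (z + i) * cZ k N z +
      ∑ z : ZMod (2 ^ k), cZ k N z ^ 2 - 4 * μ * (∑ z : ZMod (2 ^ k), cZ k N (z + i)) -
      4 * μ * (∑ z : ZMod (2 ^ k), cZ k N z) + ∑ z : ZMod (2 ^ k), 4 * μ ^ 2 := by
    rw [Finset.mul_sum, Finset.mul_sum, Finset.mul_sum, ← Finset.sum_add_distrib,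
      ← Finset.sum_add_distrib, ← Finset.sum_sub_distrib, ← Finset.sum_sub_distrib,
      ← Finset.sum_add_distrib]
    apply Finset.sum_congr rfl
    intro z _
    ring
  rw [h2, sum_shift_sq, sum_shift, sum_cZ, Finset.sum_const, card_univ, ZMod.card,
    nsmul_eq_mul] at h1
  have h3 : ∑ z : ZMod (2 ^ k), cZ k N z ^ 2 = Qs k N := rfl
  rw [h3] at h1
  have h4 : ((2 ^ k : ℕ) : ℝ) * (4 * μ ^ 2) = 4 * μ * N := by
    rw [hμ]; push_cast; field_simp
  rw [h4] at h1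
  have h5 : 2 * (N:ℝ) ^ 2 / 2 ^ k = 2 * μ * N := by rw [hμ]; ring
  rw [h5]
  linarith

lemma cast_eq_iff (k n : ℕ) (z : ZMod (2 ^ k)) :
    ((W k n : ℕ) : ZMod (2 ^ k)) = z ↔ W k n = z.val := by
  constructor
  · intro h
    rw [← h, ZMod.val_natCast_of_lt (W_lt k n)]
  · intro h
    rw [h, ZMod.natCast_zmod_val]

lemma Qs_le (k N : ℕ) : Qs k N ≤ ∑ w ∈ range (2 ^ k), (call k (N + 1) w) ^ 2 := by
  have h1 : ∑ w ∈ range (2 ^ k), (call k (N + 1) w) ^ 2 =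
      ∑ z : ZMod (2 ^ k), (call k (N + 1) z.val) ^ 2 := by
    symm
    apply Finset.sum_nbij' (i := ZMod.val) (j := fun w : ℕ => (w : ZMod (2 ^ k)))
    · intro z _
      rw [mem_range]; exact ZMod.val_lt z
    · intro w _
      exact mem_univ _
    · intro z _
      exact ZMod.natCast_zmod_val z
    · intro w hw
      rw [mem_range] at hw
      exact ZMod.val_natCast_of_lt hw
    · intro z _
      rfl
  rw [h1]
  unfold Qs
  apply Finset.sum_le_sum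
  intro z _
  have h2 : cZ k N z ≤ call k (N + 1) z.val := by
    unfold cZ call
    have h3 : ∀ n ∈ Icc 1 N, (if ((W k n : ℕ) : ZMod (2 ^ k)) = z then (1:ℝ) else 0) =
        ind (W k n) z.val := by
      intro n _
      unfold ind
      simp only [cast_eq_iff]
    rw [Finset.sum_congr rfl h3]
    apply Finset.sum_le_sum_of_subset_of_nonneg
    · intro x hx
      rw [mem_Icc] at hx
      rw [mem_range]; omega
    · intro _ _ _
      exact ind_nonneg _ _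
  have h3 : 0 ≤ cZ k N z := by
    unfold cZ
    apply Finset.sum_nonneg
    intro n _
    split_ifs <;> norm_num
  exact pow_le_pow_left₀ h3 h2 2

end V11327.CH
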