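import Mathlib
import Pool.Agent.V11327.CHpair

/-! Bounds for the pair counting function. -/

namespace V11327.CH

open Finset

/-- the binary Champernowne constant -/
noncomputable def champ : ℝ := ∑' n : ℕ, (champDigit n : ℝ) / 2 ^ (n + 1)

/-- the doubling orbit `x n = {2 ^ n * champ}` -/
noncomputable def x (n : ℕ) : ℝ := Int.fract (2 ^ n * champ)

/-- the number of ordered pairs of distinct indices `l, m` in `1, ..., N` with
`‖x l - x m‖ ≤ δ` (distance to the nearest integer) -/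
noncomputable def pairCount (x : ℕ → ℝ) (N : ℕ) (δ : ℝ) : ℕ :=
  ((Finset.Icc 1 N ×ˢ Finset.Icc 1 N).filter fun q : ℕ × ℕ =>
    q.1 ≠ q.2 ∧ |(x q.1 - x q.2) - round (x q.1 - x q.2)| ≤ δ).card

lemma champ_eq : champ = y 0 := by
  unfold champ y
  simp only [zero_add]

lemma x_eq (n : ℕ) : x n = Int.fract (y n) := by
  unfold x
  rw [champ_eq, y_block n 0, zero_add, Int.fract_natCast_add]

lemma near_iff (l m : ℕ) (δ : ℝ) :
    |(x l - x m) - round (x l - x m)| ≤ δ ↔ near δ l m := by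
  rw [x_eq, x_eq]
  unfold Int.fract
  constructor
  · intro h
    refine ⟨round (y l - ⌊y l⌋ - (y m - ⌊y m⌋)) + ⌊y l⌋ - ⌊y m⌋, ?_⟩
    push_cast
    refine le_trans (le_of_eq ?_) h
    congr 1
    ring
  · rintro ⟨z, hz⟩
    refine le_trans (round_le _ (z - ⌊y l⌋ + ⌊y m⌋)) (le_trans (le_of_eq ?_) hz)
    congr 1
    push_cast
    ring

lemma pairCount_eq (N : ℕ) (δ : ℝ) [∀ l m, Decidable (near δ l m)] :
    (pairCount x N δ : ℝ) = ∑ l ∈ Icc 1 N, ∑ m ∈ Icc 1 N,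
      if l ≠ m ∧ near δ l m then (1:ℝ) else 0 := by
  unfold pairCount
  rw [Finset.card_filter, Finset.sum_product]
  push_cast
  apply Finset.sum_congr rfl
  intro l _
  apply Finset.sum_congr rfl
  intro m _
  simp only [near_iff]

lemma pair_upper (N k : ℕ) (δ : ℝ) (hδ : 0 ≤ δ) :
    (pairCount x N δ : ℝ) ≤ (2 * (δ * 2 ^ k) + 3) * Qs k N := by
  classical
  rw [pairCount_eq]
  set v : ℤ := ⌊δ * 2 ^ k⌋ + 1 with hv
  have h1 : ∑ l ∈ Icc 1 N, ∑ m ∈ Icc 1 N, (if l ≠ m ∧ near δ l m then (1:ℝ) else 0) ≤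
      ∑ l ∈ Icc 1 N, ∑ m ∈ Icc 1 N, ∑ i ∈ Finset.Icc (-v) v,
        if ((W k l : ℕ) : ZMod (2 ^ k)) = ((W k m : ℕ) : ZMod (2 ^ k)) + (i : ZMod (2 ^ k))
          then (1:ℝ) else 0 := by
    apply Finset.sum_le_sum
    intro l _
    apply Finset.sum_le_sum
    intro m _
    have h0 : ∀ i ∈ Finset.Icc (-v) v, (0:ℝ) ≤
        if ((W k l : ℕ) : ZMod (2 ^ k)) = ((W k m : ℕ) : ZMod (2 ^ k)) + (i : ZMod (2 ^ k))
          then (1:ℝ) else 0 := by
      intro i _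
      split_ifs <;> norm_num
    split_ifs with h
    · obtain ⟨i, hi, hw⟩ := near_upper k l m δ h.2
      refine le_trans ?_ (Finset.single_le_sum h0 hi)
      rw [if_pos hw]
    · exact Finset.sum_nonneg h0
  refine le_trans h1 ?_
  have h2 : ∑ l ∈ Icc 1 N, ∑ m ∈ Icc 1 N, ∑ i ∈ Finset.Icc (-v) v,
        (if ((W k l : ℕ) : ZMod (2 ^ k)) = ((W k m : ℕ) : ZMod (2 ^ k)) + (i : ZMod (2 ^ k))
          then (1:ℝ) else 0) = ∑ i ∈ Finset.Icc (-v) v, Gam k N (i : ZMod (2 ^ k)) := by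
    unfold Gam
    rw [Finset.sum_comm (s := Finset.Icc (-v) v)]
    apply Finset.sum_congr rfl
    intro l _
    rw [Finset.sum_comm]
  rw [h2]
  have h3 : ∑ i ∈ Finset.Icc (-v) v, Gam k N (i : ZMod (2 ^ k)) ≤
      ∑ i ∈ Finset.Icc (-v) v, Qs k N :=
    Finset.sum_le_sum fun i _ => Gam_le k N _
  refine le_trans h3 ?_
  rw [Finset.sum_const, nsmul_eq_mul, Int.card_Icc]
  have hQ : 0 ≤ Qs k N := Finset.sum_nonneg fun _ _ => sq_nonneg _
  apply mul_le_mul_of_nonneg_right _ hQ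
  have hfl : 0 ≤ ⌊δ * 2 ^ k⌋ := Int.floor_nonneg.mpr (by positivity)
  have h4 : ((v + 1 - -v).toNat : ℤ) = 2 * ⌊δ * 2 ^ k⌋ + 3 := by
    rw [Int.toNat_of_nonneg (by rw [hv]; linarith), hv]; ring
  have h5 : ((v + 1 - -v).toNat : ℝ) = 2 * (⌊δ * 2 ^ k⌋ : ℝ) + 3 := by exact_mod_cast h4
  rw [h5]
  have := Int.floor_le (δ * 2 ^ k)
  linarith

lemma pair_lower (N k : ℕ) (δ D : ℝ) (hδ2 : δ ≤ 1 / 2) (hD : 0 ≤ D)
    (hD2 : D ≤ 2 * (N:ℝ) ^ 2 / 2 ^ k - Qs k N) :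
    (2 * (δ * 2 ^ k) - 3) * D - N ≤ (pairCount x N δ : ℝ) := by
  classical
  rw [pairCount_eq]
  set v : ℤ := ⌊δ * 2 ^ k⌋ - 1 with hv
  have h1 : ∑ l ∈ Icc 1 N, ∑ m ∈ Icc 1 N, ∑ i ∈ Finset.Icc (-v) v,
        (if ((W k l : ℕ) : ZMod (2 ^ k)) = ((W k m : ℕ) : ZMod (2 ^ k)) + (i : ZMod (2 ^ k))
          then (1:ℝ) else 0) ≤
      ∑ l ∈ Icc 1 N, ∑ m ∈ Icc 1 N, ((if l ≠ m ∧ near δ l m then (1:ℝ) else 0) +
        if l = m then 1 else 0) := by
    apply Finset.sum_le_sum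
    intro l _
    apply Finset.sum_le_sum
    intro m _
    rw [← Finset.sum_filter, Finset.sum_const, nsmul_eq_mul, mul_one]
    have hcard : ((Finset.Icc (-v) v).filter fun i : ℤ =>
        ((W k l : ℕ) : ZMod (2 ^ k)) = ((W k m : ℕ) : ZMod (2 ^ k)) + (i : ZMod (2 ^ k))).card
          ≤ 1 := by
      rw [Finset.card_le_one]
      intro i hi j hj
      rw [mem_filter, Finset.mem_Icc] at hi hj
      have h2 : (i : ZMod (2 ^ k)) = (j : ZMod (2 ^ k)) := by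
        have := hi.2.symm.trans hj.2
        exact add_left_cancel this
      have h3 : ((i - j : ℤ) : ZMod (2 ^ k)) = 0 := by push_cast; rw [h2]; ring
      rw [ZMod.intCast_zmod_eq_zero_iff_dvd] at h3
      have h4 : 2 * v < ((2 ^ k : ℕ) : ℤ) := by
        have hf := Int.floor_le (δ * 2 ^ k)
        have : (2:ℝ) * (v : ℝ) < ((2 ^ k : ℕ) : ℝ) := by
          rw [hv]; push_cast
          have hK : (0:ℝ) < 2 ^ k := by positivity
          have : δ * 2 ^ k ≤ 1 / 2 * 2 ^ k := mul_le_mul_of_nonneg_right hδ2 hK.le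
          linarith
        exact_mod_cast this
      have h5 : |i - j| < ((2 ^ k : ℕ) : ℤ) := by
        rw [abs_lt]
        constructor <;> linarith [hi.1.1, hi.1.2, hj.1.1, hj.1.2]
      have := Int.eq_zero_of_abs_lt_dvd h3 h5
      omega
    by_cases hlm : l = m
    · rw [if_pos hlm]
      have : (0:ℝ) ≤ if l ≠ m ∧ near δ l m then (1:ℝ) else 0 := by split_ifs <;> norm_num
      have h6 : ((((Finset.Icc (-v) v).filter fun i : ℤ =>
        ((W k l : ℕ) : ZMod (2 ^ k)) = ((W k m : ℕ) : ZMod (2 ^ k)) +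
          (i : ZMod (2 ^ k))).card : ℕ) : ℝ) ≤ 1 := by exact_mod_cast hcard
      linarith
    · rw [if_neg hlm, add_zero]
      by_cases hn : near δ l m
      · rw [if_pos ⟨hlm, hn⟩]
        exact_mod_cast hcard
      · have h7 : ((Finset.Icc (-v) v).filter fun i : ℤ =>
            ((W k l : ℕ) : ZMod (2 ^ k)) = ((W k m : ℕ) : ZMod (2 ^ k)) +
              (i : ZMod (2 ^ k))) = ∅ := by
          rw [Finset.filter_eq_empty_iff]
          intro i hi hw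
          exact hn (near_lower k l m δ i hi hw)
        rw [h7]
        simp only [card_empty, Nat.cast_zero]
        split_ifs <;> norm_num
  have h2 : ∑ l ∈ Icc 1 N, ∑ m ∈ Icc 1 N, ∑ i ∈ Finset.Icc (-v) v,
        (if ((W k l : ℕ) : ZMod (2 ^ k)) = ((W k m : ℕ) : ZMod (2 ^ k)) + (i : ZMod (2 ^ k))
          then (1:ℝ) else 0) = ∑ i ∈ Finset.Icc (-v) v, Gam k N (i : ZMod (2 ^ k)) := by
    unfold Gam
    rw [Finset.sum_comm (s := Finset.Icc (-v) v)]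
    apply Finset.sum_congr rfl
    intro l _
    rw [Finset.sum_comm]
  rw [h2] at h1
  have h3 : ∑ l ∈ Icc 1 N, ∑ m ∈ Icc 1 N, ((if l ≠ m ∧ near δ l m then (1:ℝ) else 0) +
        if l = m then 1 else 0) = ∑ l ∈ Icc 1 N, ∑ m ∈ Icc 1 N,
          (if l ≠ m ∧ near δ l m then (1:ℝ) else 0) + N := by
    simp_rw [Finset.sum_add_distrib]
    congr 1
    have : ∀ l ∈ Icc 1 N, ∑ m ∈ Icc 1 N, (if l = m then (1:ℝ) else 0) = 1 := by
      intro l hl
      rw [Finset.sum_ite_eq, if_pos hl]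
    rw [Finset.sum_congr rfl this]
    simp
  rw [h3] at h1
  have h4 : ∑ i ∈ Finset.Icc (-v) v, D ≤ ∑ i ∈ Finset.Icc (-v) v, Gam k N (i : ZMod (2 ^ k)) :=
    Finset.sum_le_sum fun i _ => le_trans hD2 (Gam_ge k N _)
  rw [Finset.sum_const, nsmul_eq_mul, Int.card_Icc] at h4
  have h5 : (2 * (δ * 2 ^ k) - 3) * D ≤ ((v + 1 - -v).toNat : ℝ) * D := by
    apply mul_le_mul_of_nonneg_right _ hD
    have h6 : v + 1 - -v ≤ ((v + 1 - -v).toNat : ℤ) := Int.self_le_toNat _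
    have h7 : ((v + 1 - -v : ℤ) : ℝ) ≤ ((v + 1 - -v).toNat : ℝ) := by exact_mod_cast h6
    rw [hv] at h7 ⊢
    push_cast at h7
    have := Int.lt_floor_add_one (δ * 2 ^ k)
    linarith
  linarith

end V11327.CH
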