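import Mathlib
import Pool.Agent.V11327.CHcorr

/-! The limit. -/

namespace V11327.CH

open Finset Filter Topology

noncomputable def G (k : ℕ) : ℝ :=
  8 * ((k:ℝ) ^ 1 / 16 ^ k) + 128 / √(k:ℝ) + 8 * ((k:ℝ) ^ 1 / 4 ^ k)

lemma G_nonneg (k : ℕ) : 0 ≤ G k := by unfold G; positivity

lemma err_le (k : ℕ) (hk : 1 ≤ k) : err k ≤ G k * (k * 16 ^ k) := by
  have hk1 : (1:ℝ) ≤ k := by exact_mod_cast hk
  have hk0 : (0:ℝ) < k := by linarith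
  have hs : 0 < √(k:ℝ) := Real.sqrt_pos.mpr hk0
  have hs1 : 1 ≤ √(k:ℝ) := by rw [Real.one_le_sqrt]; exact hk1
  have e1 : G k * (k * 16 ^ k) = 8 * (k * k) + 128 * (√(k:ℝ) * 16 ^ k) + 8 * (k * k * 4 ^ k) := by
    unfold G
    have e3 : (k:ℝ) / √(k:ℝ) = √(k:ℝ) := Real.div_sqrt
    have e4 : (16:ℝ) ^ k = 4 ^ k * 4 ^ k := by rw [← mul_pow]; norm_num
    have f1 : 8 * ((k:ℝ) ^ 1 / 16 ^ k) * (k * 16 ^ k) = 8 * (k * k) := by field_simp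
    have f2 : 128 / √(k:ℝ) * (k * 16 ^ k) = 128 * (√(k:ℝ) * 16 ^ k) := by
      calc 128 / √(k:ℝ) * (k * 16 ^ k) = 128 * ((k / √(k:ℝ)) * 16 ^ k) := by ring
        _ = _ := by rw [e3]
    have f3 : 8 * ((k:ℝ) ^ 1 / 4 ^ k) * (k * 16 ^ k) = 8 * (k * k * 4 ^ k) := by
      rw [e4]; field_simp
    rw [add_mul, add_mul, f1, f2, f3]
  rw [e1]
  unfold err
  have g1 : (1:ℝ) * 1 ≤ k * k := mul_le_mul hk1 hk1 (by norm_num) (by linarith)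
  have g2 : (k:ℝ) * 1 ≤ k * k := mul_le_mul_of_nonneg_left hk1 (by linarith)
  have g3 : 1 * (16:ℝ) ^ k ≤ √(k:ℝ) * 16 ^ k := mul_le_mul_of_nonneg_right hs1 (by positivity)
  have g4 : (k:ℝ) * 4 ^ k ≤ k * k * 4 ^ k := mul_le_mul_of_nonneg_right (by linarith) (by positivity)
  have e5 : 64 * (1 + √(k:ℝ)) * 16 ^ k = 64 * (1 * 16 ^ k) + 64 * (√(k:ℝ) * 16 ^ k) := by ring
  have e6 : 4 * ((k:ℝ) + 1) * k * 4 ^ k = 4 * (k * k * 4 ^ k) + 4 * (k * 4 ^ k) := by ring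
  rw [e5, e6]
  linarith

lemma G_tendsto : Tendsto G atTop (𝓝 0) := by
  unfold G
  have h1 : Tendsto (fun k : ℕ => (k:ℝ) ^ 1 / 16 ^ k) atTop (𝓝 0) :=
    tendsto_pow_const_div_const_pow_of_one_lt 1 (by norm_num)
  have h2 : Tendsto (fun k : ℕ => (k:ℝ) ^ 1 / 4 ^ k) atTop (𝓝 0) :=
    tendsto_pow_const_div_const_pow_of_one_lt 1 (by norm_num)
  have h3 : Tendsto (fun k : ℕ => 128 / √(k:ℝ)) atTop (𝓝 0) :=
    Tendsto.div_atTop tendsto_const_nhds (Real.tendsto_sqrt_atTop.comp tendsto_natCast_atTop_atTop)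
  have := ((h1.const_mul 8).add h3).add (h2.const_mul 8)
  simpa using this

noncomputable def U (k : ℕ) : ℝ := 64 * ((k:ℝ) ^ 1 / √2 ^ k) + 64 * ((k:ℝ) ^ 0 / √2 ^ k)

lemma sqrt2_gt : (1:ℝ) < √2 := by
  rw [Real.lt_sqrt (by norm_num)]; norm_num

lemma U_tendsto : Tendsto U atTop (𝓝 0) := by
  unfold U
  have h1 : Tendsto (fun k : ℕ => (k:ℝ) ^ 1 / √2 ^ k) atTop (𝓝 0) :=
    tendsto_pow_const_div_const_pow_of_one_lt 1 sqrt2_gt
  have h2 : Tendsto (fun k : ℕ => (k:ℝ) ^ 0 / √2 ^ k) atTop (𝓝 0) :=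
    tendsto_pow_const_div_const_pow_of_one_lt 0 sqrt2_gt
  have := (h1.const_mul 64).add (h2.const_mul 64)
  simpa using this

lemma rpow_le_U (k : ℕ) (N : ℝ) (hN0 : 0 ≤ N) (hN : N ≤ 64 * (k + 1) * 16 ^ k) :
    N ^ (1 / 8 : ℝ) / 2 ^ k ≤ U k := by
  have h2 : √(2:ℝ) * √2 = 2 := Real.mul_self_sqrt (by norm_num)
  have hs : (0:ℝ) < √2 := by positivity
  have h8 : (√2 : ℝ) ^ 8 = 16 := by
    have : (√2 : ℝ) ^ 8 = (√2 * √2) ^ 4 := by ring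
    rw [this, h2]; norm_num
  have hk0 : (0:ℝ) ≤ k := Nat.cast_nonneg k
  have h1 : N ≤ (64 * (k + 1) * √2 ^ k) ^ 8 := by
    refine le_trans hN ?_
    have e1 : (64 * ((k:ℝ) + 1) * √2 ^ k) ^ 8 = (64 * ((k:ℝ) + 1)) ^ 8 * 16 ^ k := by
      rw [mul_pow, ← pow_mul, mul_comm k 8, pow_mul, h8]
    rw [e1]
    apply mul_le_mul_of_nonneg_right _ (by positivity)
    have h3 : (1:ℝ) ≤ 64 * (k + 1) := by linarith
    calc 64 * ((k:ℝ) + 1) = (64 * ((k:ℝ) + 1)) ^ 1 := (pow_one _).symm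
      _ ≤ _ := pow_le_pow_right₀ h3 (by norm_num)
  have h3 : N ^ (1 / 8 : ℝ) ≤ 64 * (k + 1) * √2 ^ k := by
    have h4 := Real.rpow_le_rpow hN0 h1 (by norm_num : (0:ℝ) ≤ 1 / 8)
    have h5 : ((64 * ((k:ℝ) + 1) * √2 ^ k) ^ 8) ^ (1 / 8 : ℝ) = 64 * (k + 1) * √2 ^ k := by
      have := Real.pow_rpow_inv_natCast (x := 64 * ((k:ℝ) + 1) * √2 ^ k) (n := 8)
        (by positivity) (by norm_num)
      rw [show ((8:ℕ):ℝ)⁻¹ = 1 / 8 by norm_num] at this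
      exact this
    rwa [h5] at h4
  have h4 : (2:ℝ) ^ k = √2 ^ k * √2 ^ k := by rw [← mul_pow, h2]
  rw [div_le_iff₀ (by positivity)]
  refine le_trans h3 (le_of_eq ?_)
  unfold U
  rw [h4]
  field_simp

/-- algebra for the upper bound -/
lemma upper_alg (n N K s g R : ℝ) (hn : 0 < n) (hN : 0 < N) (hK : 0 < K)
    (hR : R ≤ (2 * (s / n * K) + 3) * (N ^ 2 * (1 + g) ^ 2 / K)) :
    n / N ^ 2 * R ≤ (2 * s + 3 * (n / K)) * (1 + g) ^ 2 := by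
  have h1 : n / N ^ 2 * R ≤ n / N ^ 2 * ((2 * (s / n * K) + 3) * (N ^ 2 * (1 + g) ^ 2 / K)) :=
    mul_le_mul_of_nonneg_left hR (by positivity)
  refine le_trans h1 (le_of_eq ?_)
  field_simp

/-- algebra for the lower bound -/
lemma lower_alg (n N K s g R : ℝ) (hn : 0 < n) (hN : 0 < N) (hK : 0 < K)
    (hR : (2 * (s / n * K) - 3) * (N ^ 2 / K * (2 - (1 + g) ^ 2)) - N ≤ R) :
    (2 * s - 3 * (n / K)) * (2 - (1 + g) ^ 2) - n / N ≤ n / N ^ 2 * R := by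
  have h1 : n / N ^ 2 * ((2 * (s / n * K) - 3) * (N ^ 2 / K * (2 - (1 + g) ^ 2)) - N) ≤
      n / N ^ 2 * R :=
    mul_le_mul_of_nonneg_left hR (by positivity)
  refine le_trans (le_of_eq ?_) h1
  field_simp

lemma Qs_bound (k N : ℕ) (hk : 1 ≤ k) (h1 : (k:ℝ) * 16 ^ k ≤ N)
    (hP : P k (call k (N + 1)) (N + err k)) :
    Qs k N ≤ (N:ℝ) ^ 2 * (1 + G k) ^ 2 / 2 ^ k := by
  have h2 := Qs_le k N
  have h3 := hP.2
  have hK : (0:ℝ) < 2 ^ k := by positivity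
  rw [le_div_iff₀ hK]
  have h4 : err k ≤ G k * N :=
    le_trans (err_le k hk) (mul_le_mul_of_nonneg_left h1 (G_nonneg k))
  have h5 : (N:ℝ) + err k ≤ N * (1 + G k) := by
    have : (N:ℝ) * (1 + G k) = N + G k * N := by ring
    rw [this]; linarith
  have h6 := pow_le_pow_left₀ hP.1 h5 2
  calc Qs k N * 2 ^ k ≤ (∑ w ∈ range (2 ^ k), (call k (N + 1) w) ^ 2) * 2 ^ k :=
        mul_le_mul_of_nonneg_right h2 hK.le
    _ = 2 ^ k * ∑ w ∈ range (2 ^ k), (call k (N + 1) w) ^ 2 := by ring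
    _ ≤ _ := h3
    _ ≤ _ := h6
    _ = _ := by ring

theorem main (s : ℝ) (hs : 0 ≤ s) :
    Tendsto (fun N : ℕ => (N:ℝ) ^ ((1 / 8 : ℝ) - 2) *
      (pairCount x N (s * (N:ℝ) ^ (-(1 / 8 : ℝ))) : ℝ)) atTop (𝓝 (2 * s)) := by
  have hch : ∀ N : ℕ, ∃ k : ℕ, S 16 ≤ N → 1 ≤ k ∧ (k:ℝ) * 16 ^ k ≤ N ∧
      (N:ℝ) ≤ 64 * (k + 1) * 16 ^ k ∧ P k (call k (N + 1)) (N + err k) := by
    intro N
    by_cases h : S 16 ≤ N
    · obtain ⟨k, hk⟩ := choose_k N h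
      exact ⟨k, fun _ => hk⟩
    · exact ⟨0, fun h' => absurd h' h⟩
  choose kf hkf using hch
  have hkt : Tendsto kf atTop atTop := by
    rw [tendsto_atTop]
    intro C
    filter_upwards [eventually_ge_atTop (S 16), eventually_gt_atTop (64 * (C + 1) * 16 ^ C)]
      with N hN1 hN2
    by_contra hlt
    push Not at hlt
    have h1 := (hkf N hN1).2.2.1
    have h2 : (64:ℝ) * (kf N + 1) * 16 ^ kf N ≤ 64 * (C + 1) * 16 ^ C := by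
      have h3 : (kf N : ℝ) ≤ C := by exact_mod_cast hlt.le
      have h4 : (16:ℝ) ^ kf N ≤ 16 ^ C := pow_le_pow_right₀ (by norm_num) hlt.le
      apply mul_le_mul (by linarith) h4 (by positivity) (by positivity)
    have h3 : (N:ℝ) ≤ 64 * (C + 1) * 16 ^ C := le_trans h1 h2
    have h4 : N ≤ 64 * (C + 1) * 16 ^ C := by exact_mod_cast h3
    omega
  have hG : Tendsto (fun N => G (kf N)) atTop (𝓝 0) := G_tendsto.comp hkt
  have hU : Tendsto (fun N => U (kf N)) atTop (𝓝 0) := U_tendsto.comp hkt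
  have hn0 : Tendsto (fun N : ℕ => s / (N:ℝ) ^ (1 / 8 : ℝ)) atTop (𝓝 0) := by
    apply Tendsto.div_atTop tendsto_const_nhds
    exact (tendsto_rpow_atTop (by norm_num)).comp tendsto_natCast_atTop_atTop
  have hnN : Tendsto (fun N : ℕ => (N:ℝ) ^ (1 / 8 : ℝ) / N) atTop (𝓝 0) := by
    have h1 : Tendsto (fun N : ℕ => (N:ℝ) ^ (-(7 / 8 : ℝ))) atTop (𝓝 0) :=
      (tendsto_rpow_neg_atTop (by norm_num)).comp tendsto_natCast_atTop_atTop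
    apply h1.congr'
    filter_upwards [eventually_gt_atTop 0] with N hN
    have hNr : (0:ℝ) < N := by exact_mod_cast hN
    rw [show (-(7 / 8 : ℝ)) = 1 / 8 - 1 by norm_num, Real.rpow_sub_one hNr.ne']
  have hlow : Tendsto (fun N : ℕ => (2 * s - 3 * U (kf N)) * (2 - (1 + G (kf N)) ^ 2) -
      (N:ℝ) ^ (1 / 8 : ℝ) / N) atTop (𝓝 (2 * s)) := by
    have h1 := ((tendsto_const_nhds (x := 2 * s)).sub (hU.const_mul 3)).mul
      ((tendsto_const_nhds (x := (2:ℝ))).sub (((tendsto_const_nhds (x := (1:ℝ))).add hG).pow 2))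
    have h2 := h1.sub hnN
    have e : (2 * s - 3 * 0) * (2 - (1 + 0) ^ 2) - 0 = 2 * s := by ring
    rw [e] at h2
    exact h2
  have hup : Tendsto (fun N : ℕ => (2 * s + 3 * U (kf N)) * (1 + G (kf N)) ^ 2) atTop
      (𝓝 (2 * s)) := by
    have h1 := ((tendsto_const_nhds (x := 2 * s)).add (hU.const_mul 3)).mul
      (((tendsto_const_nhds (x := (1:ℝ))).add hG).pow 2)
    have e : (2 * s + 3 * 0) * (1 + 0) ^ 2 = 2 * s := by ring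
    rw [e] at h1
    exact h1
  apply tendsto_of_tendsto_of_tendsto_of_le_of_le' hlow hup
  · filter_upwards [eventually_ge_atTop (S 16), eventually_gt_atTop 0,
      hn0.eventually (ge_mem_nhds (by norm_num : (0:ℝ) < 1 / 2)),
      hG.eventually (ge_mem_nhds (by norm_num : (0:ℝ) < 1 / 4))] with N hN1 hN0 hδ hg
    obtain ⟨hk1, hk2, hk3, hP⟩ := hkf N hN1
    have hNr : (0:ℝ) < N := by exact_mod_cast hN0
    have hn : 0 < (N:ℝ) ^ (1 / 8 : ℝ) := Real.rpow_pos_of_pos hNr _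
    have e1 : (N:ℝ) ^ ((1 / 8 : ℝ) - 2) = (N:ℝ) ^ (1 / 8 : ℝ) / (N:ℝ) ^ 2 := by
      rw [Real.rpow_sub hNr, Real.rpow_two]
    have e2 : s * (N:ℝ) ^ (-(1 / 8 : ℝ)) = s / (N:ℝ) ^ (1 / 8 : ℝ) := by
      rw [Real.rpow_neg hNr.le]; ring
    rw [e1, e2]
    have hGn := G_nonneg (kf N)
    have hD0 : 0 ≤ 2 - (1 + G (kf N)) ^ 2 := by
      have : (1 + G (kf N)) ^ 2 ≤ (5 / 4) ^ 2 := pow_le_pow_left₀ (by linarith) (by linarith) 2
      norm_num at this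
      linarith
    have hQ := Qs_bound (kf N) N hk1 hk2 hP
    have h1 := pair_lower N (kf N) (s / (N:ℝ) ^ (1 / 8 : ℝ))
      ((N:ℝ) ^ 2 / 2 ^ (kf N) * (2 - (1 + G (kf N)) ^ 2)) hδ (by positivity) (by
        have : (N:ℝ) ^ 2 / 2 ^ (kf N) * (2 - (1 + G (kf N)) ^ 2) =
          2 * (N:ℝ) ^ 2 / 2 ^ (kf N) - (N:ℝ) ^ 2 * (1 + G (kf N)) ^ 2 / 2 ^ (kf N) := by ring
        rw [this]; linarith)
    have h2 := lower_alg ((N:ℝ) ^ (1 / 8 : ℝ)) N (2 ^ (kf N)) s (G (kf N)) _ hn hNr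
      (by positivity) h1
    refine le_trans ?_ h2
    have h3 := rpow_le_U (kf N) N hNr.le hk3
    have h4 : (2 * s - 3 * U (kf N)) * (2 - (1 + G (kf N)) ^ 2) ≤
        (2 * s - 3 * ((N:ℝ) ^ (1 / 8 : ℝ) / 2 ^ (kf N))) * (2 - (1 + G (kf N)) ^ 2) :=
      mul_le_mul_of_nonneg_right (by linarith) hD0
    linarith
  · filter_upwards [eventually_ge_atTop (S 16), eventually_gt_atTop 0] with N hN1 hN0
    obtain ⟨hk1, hk2, hk3, hP⟩ := hkf N hN1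
    have hNr : (0:ℝ) < N := by exact_mod_cast hN0
    have hn : 0 < (N:ℝ) ^ (1 / 8 : ℝ) := Real.rpow_pos_of_pos hNr _
    have e1 : (N:ℝ) ^ ((1 / 8 : ℝ) - 2) = (N:ℝ) ^ (1 / 8 : ℝ) / (N:ℝ) ^ 2 := by
      rw [Real.rpow_sub hNr, Real.rpow_two]
    have e2 : s * (N:ℝ) ^ (-(1 / 8 : ℝ)) = s / (N:ℝ) ^ (1 / 8 : ℝ) := by
      rw [Real.rpow_neg hNr.le]; ring
    rw [e1, e2]
    have hQ := Qs_bound (kf N) N hk1 hk2 hP
    have hδ0 : 0 ≤ s / (N:ℝ) ^ (1 / 8 : ℝ) := by positivity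
    have h1 := pair_upper N (kf N) (s / (N:ℝ) ^ (1 / 8 : ℝ)) hδ0
    have h2 : (pairCount x N (s / (N:ℝ) ^ (1 / 8 : ℝ)) : ℝ) ≤
        (2 * (s / (N:ℝ) ^ (1 / 8 : ℝ) * 2 ^ (kf N)) + 3) *
          ((N:ℝ) ^ 2 * (1 + G (kf N)) ^ 2 / 2 ^ (kf N)) :=
      le_trans h1 (mul_le_mul_of_nonneg_left hQ (by positivity))
    have h3 := upper_alg ((N:ℝ) ^ (1 / 8 : ℝ)) N (2 ^ (kf N)) s (G (kf N)) _ hn hNr
      (by positivity) h2
    refine le_trans h3 ?_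
    have h4 := rpow_le_U (kf N) N hNr.le hk3
    apply mul_le_mul_of_nonneg_right _ (by positivity)
    linarith

end V11327.CH
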