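import Pool.Agent.V11327.DBdefs

/-! `2 x / (1 + x)` is a disagreement bound (rejection sampling from a common sequence). -/

set_option autoImplicit false

namespace Pool.Agent.V11327.DB

open MeasureTheory Filter Topology ENNReal

section reject
variable {E : Type} [MeasurableSpace E] (Q : Measure E) [IsProbabilityMeasure Q]

/-- measure of a box -/
theorem box_measure (R C : Set E) (hR : MeasurableSet R) (hC : MeasurableSet C) (n : ℕ) :
    Measure.infinitePi (fun _ : ℕ => Q) {ω | (∀ m < n, ω m ∈ R) ∧ ω n ∈ C} = Q R ^ n * Q C := by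
  have e : {ω : ℕ → E | (∀ m < n, ω m ∈ R) ∧ ω n ∈ C}
      = Set.pi (Finset.range (n + 1) : Set ℕ) (fun m => if m < n then R else C) := by
    ext ω
    simp only [Set.mem_ofPred_eq, Set.mem_pi, Finset.coe_range, Set.mem_Iio]
    constructor
    · rintro ⟨h1, h2⟩ m hm
      rcases lt_or_eq_of_le (Nat.lt_succ_iff.1 hm) with h | h
      · rw [if_pos h]; exact h1 m h
      · subst h; rw [if_neg (lt_irrefl _)]; exact h2
    · intro h
      refine ⟨fun m hm => ?_, ?_⟩
      · have := h m (by omega)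
        rwa [if_pos hm] at this
      · have := h n (by omega)
        rwa [if_neg (lt_irrefl _)] at this
  rw [e, Measure.infinitePi_pi (fun _ : ℕ => Q) (fun m _ => by split_ifs <;> assumption),
    Finset.prod_range_succ, if_neg (lt_irrefl _)]
  congr 1
  rw [Finset.prod_congr rfl (fun m hm => by rw [if_pos (Finset.mem_range.1 hm)])]
  simp

theorem box_meas (R C : Set E) (hR : MeasurableSet R) (hC : MeasurableSet C) (n : ℕ) :
    MeasurableSet {ω : ℕ → E | (∀ m < n, ω m ∈ R) ∧ ω n ∈ C} := by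
  have e : {ω : ℕ → E | (∀ m < n, ω m ∈ R) ∧ ω n ∈ C}
      = (⋂ m, ⋂ (_ : m < n), (fun ω : ℕ → E => ω m) ⁻¹' R) ∩ (fun ω : ℕ → E => ω n) ⁻¹' C := by
    ext ω; simp
  rw [e]
  exact (MeasurableSet.iInter fun m => MeasurableSet.iInter fun _ => measurable_pi_apply m hR).inter
    (measurable_pi_apply n hC)

/-- the geometric series of boxes: no visit to `R` before time `n`, and a visit to `C ⊆ R` at time `n` -/
theorem first_visit (R C : Set E) (hR : MeasurableSet R) (hC : MeasurableSet C) (hCR : C ⊆ R) :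
    Measure.infinitePi (fun _ : ℕ => Q) (⋃ n, {ω | (∀ m < n, ω m ∈ Rᶜ) ∧ ω n ∈ C}) = Q C / Q R := by
  rw [measure_iUnion]
  · simp only [box_measure Q Rᶜ C hR.compl hC]
    rw [ENNReal.tsum_mul_right, ENNReal.tsum_geometric, prob_compl_eq_one_sub hR,
      ENNReal.sub_sub_cancel one_ne_top prob_le_one, mul_comm, div_eq_mul_inv]
  · intro a b hab
    rw [Function.onFun, Set.disjoint_left]
    rintro ω ⟨h1, h2⟩ ⟨h3, h4⟩
    rcases lt_or_gt_of_ne hab with h | h
    · exact h3 a h (hCR h2)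
    · exact h1 b h (hCR h4)
  · exact fun n => box_meas _ _ hR.compl hC n

end reject

/-- uniform measure of `{v ∈ [0, 1] : v < c}` -/
theorem vol_lt (c : ℝ≥0∞) (hc : c ≤ 1) :
    (volume.restrict (Set.Icc (0 : ℝ) 1)) {v | ENNReal.ofReal v < c} = c := by
  have hm : MeasurableSet {v : ℝ | ENNReal.ofReal v < c} :=
    measurableSet_lt ENNReal.measurable_ofReal measurable_const
  rw [Measure.restrict_apply hm]
  have hct : c ≠ ∞ := ne_top_of_le_ne_top one_ne_top hc
  have e : {v : ℝ | ENNReal.ofReal v < c} ∩ Set.Icc (0 : ℝ) 1 = Set.Ico 0 c.toReal := by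
    ext v
    simp only [Set.mem_inter_iff, Set.mem_ofPred_eq, Set.mem_Icc, Set.mem_Ico]
    have hc1 : c.toReal ≤ 1 := by
      have := ENNReal.toReal_mono one_ne_top hc
      simpa using this
    constructor
    · rintro ⟨h1, h2, _⟩
      exact ⟨h2, (ENNReal.ofReal_lt_iff_lt_toReal h2 hct).1 h1⟩
    · rintro ⟨h1, h2⟩
      exact ⟨(ENNReal.ofReal_lt_iff_lt_toReal h1 hct).2 h2, h1, by linarith⟩
  rw [e, Real.volume_Ico, sub_zero, ENNReal.ofReal_toReal hct]

section coupling
variable {ι : Type} [Fintype ι] [Nonempty ι] (μ : ι → Measure ℝ) [∀ i, IsProbabilityMeasure (μ i)]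

/-- the sum of all laws -/
noncomputable def lam : Measure ℝ := ∑ i, μ i

instance : IsFiniteMeasure (lam μ) := by
  unfold lam; infer_instance

theorem le_lam (i : ι) : μ i ≤ lam μ := by
  classical
  unfold lam
  rw [← Finset.add_sum_erase _ _ (Finset.mem_univ i)]
  exact Measure.le_add_right le_rfl

theorem lam_univ : lam μ Set.univ = Fintype.card ι := by
  unfold lam
  rw [Measure.finsetSum_apply]
  simp

/-- the normalised law -/
noncomputable def nu : Measure ℝ := (Fintype.card ι : ℝ≥0∞)⁻¹ • lam μ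

instance : IsProbabilityMeasure (nu μ) := by
  constructor
  unfold nu
  rw [Measure.smul_apply, lam_univ, smul_eq_mul, ENNReal.inv_mul_cancel]
  · exact Nat.cast_ne_zero.2 Fintype.card_ne_zero
  · exact ENNReal.natCast_ne_top _

instance : IsProbabilityMeasure (volume.restrict (Set.Icc (0 : ℝ) 1)) := by
  constructor
  rw [Measure.restrict_apply MeasurableSet.univ]; simp

/-- law of one proposal -/
noncomputable def QQ : Measure (ℝ × ℝ) := (nu μ).prod (volume.restrict (Set.Icc (0 : ℝ) 1))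

instance : IsProbabilityMeasure (QQ μ) := by unfold QQ; infer_instance

/-- acceptance region of `i` -/
def acc (i : ι) : Set (ℝ × ℝ) := {e | ENNReal.ofReal e.2 < (μ i).rnDeriv (lam μ) e.1}

theorem acc_meas (i : ι) : MeasurableSet (acc μ i) := by
  unfold acc
  exact measurableSet_lt (ENNReal.measurable_ofReal.comp measurable_snd)
    ((Measure.measurable_rnDeriv _ _).comp measurable_fst)

theorem acc_prob (i : ι) (A : Set ℝ) (hA : MeasurableSet A) :
    QQ μ (acc μ i ∩ Prod.fst ⁻¹' A) = (Fintype.card ι : ℝ≥0∞)⁻¹ * μ i A := by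
  have hm : MeasurableSet (acc μ i ∩ Prod.fst ⁻¹' A) := (acc_meas μ i).inter (measurable_fst hA)
  unfold QQ
  rw [Measure.prod_apply hm]
  have hle : (μ i).rnDeriv (lam μ) ≤ᵐ[nu μ] 1 := by
    have h1 := Measure.rnDeriv_le_one_of_le (le_lam μ i)
    have h2 : nu μ ≪ lam μ := by
      unfold nu
      exact Measure.smul_absolutelyContinuous
    exact h2.ae_le h1
  have h3 : ∫⁻ x, (volume.restrict (Set.Icc (0 : ℝ) 1)) (Prod.mk x ⁻¹' (acc μ i ∩ Prod.fst ⁻¹' A)) ∂(nu μ)
      = ∫⁻ x in A, (μ i).rnDeriv (lam μ) x ∂(nu μ) := by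
    rw [← lintegral_indicator hA]
    refine lintegral_congr_ae ?_
    filter_upwards [hle] with x hx
    by_cases hxA : x ∈ A
    · rw [Set.indicator_of_mem hxA]
      have : Prod.mk x ⁻¹' (acc μ i ∩ Prod.fst ⁻¹' A)
          = {v | ENNReal.ofReal v < (μ i).rnDeriv (lam μ) x} := by
        ext v; simp [acc, hxA]
      rw [this, vol_lt _ hx]
    · rw [Set.indicator_of_notMem hxA]
      have : Prod.mk x ⁻¹' (acc μ i ∩ Prod.fst ⁻¹' A) = ∅ := by
        ext v; simp [hxA]
      rw [this, measure_empty]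
  rw [h3]
  unfold nu
  rw [Measure.restrict_smul, lintegral_smul_measure, smul_eq_mul]
  congr 1
  have hac : μ i ≪ lam μ := (le_lam μ i).absolutelyContinuous
  rw [← withDensity_apply _ hA, Measure.withDensity_rnDeriv_eq _ _ hac]

/-- the proposals -/
noncomputable def PP : Measure (ℕ → ℝ × ℝ) := Measure.infinitePi (fun _ : ℕ => QQ μ)

instance : IsProbabilityMeasure (PP μ) := by unfold PP; infer_instance

theorem ex_acc (i : ι) (ω : ℕ → ℝ × ℝ) :
    ∃ n, ω n ∈ acc μ i ∨ ∀ m, ω m ∉ acc μ i := by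
  by_cases h : ∃ n, ω n ∈ acc μ i
  · exact ⟨h.choose, Or.inl h.choose_spec⟩
  · push Not at h
    exact ⟨0, Or.inr h⟩

open Classical in
/-- the accepted value -/
noncomputable def XX (i : ι) (ω : ℕ → ℝ × ℝ) : ℝ := (ω (Nat.find (ex_acc μ i ω))).1

theorem XX_meas (i : ι) : Measurable (XX μ i) := by
  classical
  refine Measurable.find (f := fun n (ω : ℕ → ℝ × ℝ) => (ω n).1)
    (p := fun n ω => ω n ∈ acc μ i ∨ ∀ m, ω m ∉ acc μ i)
    (fun n => (measurable_pi_apply n).fst) (fun n => ?_) (ex_acc μ i)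
  have h1 : MeasurableSet {ω : ℕ → ℝ × ℝ | ω n ∈ acc μ i} := measurable_pi_apply n (acc_meas μ i)
  have h2 : MeasurableSet {ω : ℕ → ℝ × ℝ | ∀ m, ω m ∉ acc μ i} := by
    have e : {ω : ℕ → ℝ × ℝ | ∀ m, ω m ∉ acc μ i}
        = ⋂ m, (fun ω : ℕ → ℝ × ℝ => ω m) ⁻¹' (acc μ i)ᶜ := by
      ext ω; simp
    rw [e]
    exact MeasurableSet.iInter fun m => measurable_pi_apply m (acc_meas μ i).compl
  exact h1.union h2

theorem XX_eq (i : ι) (ω : ℕ → ℝ × ℝ) (n : ℕ) (h1 : ∀ m < n, ω m ∉ acc μ i) (h2 : ω n ∈ acc μ i) :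
    XX μ i ω = (ω n).1 := by
  classical
  unfold XX
  have : Nat.find (ex_acc μ i ω) = n := by
    rw [Nat.find_eq_iff]
    refine ⟨Or.inl h2, fun m hm hcon => ?_⟩
    rcases hcon with h | h
    · exact h1 m hm h
    · exact h n h2
  rw [this]

theorem card_inv_ne_zero : (Fintype.card ι : ℝ≥0∞)⁻¹ ≠ 0 :=
  ENNReal.inv_ne_zero.2 (ENNReal.natCast_ne_top _)

theorem card_inv_ne_top : (Fintype.card ι : ℝ≥0∞)⁻¹ ≠ ∞ :=
  ENNReal.inv_ne_top.2 (Nat.cast_ne_zero.2 Fintype.card_ne_zero)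

theorem acc_total (i : ι) : QQ μ (acc μ i) = (Fintype.card ι : ℝ≥0∞)⁻¹ := by
  have := acc_prob μ i Set.univ MeasurableSet.univ
  simpa using this

theorem XX_law (i : ι) : (PP μ).map (XX μ i) = μ i := by
  have hle : ∀ A, MeasurableSet A → μ i A ≤ (PP μ).map (XX μ i) A := by
    intro A hA
    rw [Measure.map_apply (XX_meas μ i) hA]
    have hC : MeasurableSet (acc μ i ∩ Prod.fst ⁻¹' A) := (acc_meas μ i).inter (measurable_fst hA)
    have h1 := first_visit (QQ μ) (acc μ i) (acc μ i ∩ Prod.fst ⁻¹' A) (acc_meas μ i) hC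
      Set.inter_subset_left
    rw [acc_prob μ i A hA, acc_total, mul_comm,
      ENNReal.mul_div_cancel_right card_inv_ne_zero card_inv_ne_top] at h1
    rw [← h1]
    refine measure_mono ?_
    intro ω hω
    rw [Set.mem_iUnion] at hω
    obtain ⟨n, h2, h3⟩ := hω
    rw [Set.mem_preimage, XX_eq μ i ω n h2 h3.1]
    exact h3.2
  haveI : IsProbabilityMeasure ((PP μ).map (XX μ i)) :=
    Measure.isProbabilityMeasure_map (XX_meas μ i).aemeasurable
  refine Measure.ext fun A hA => le_antisymm ?_ (hle A hA)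
  have h1 := hle Aᶜ hA.compl
  rw [prob_compl_eq_one_sub hA, prob_compl_eq_one_sub hA] at h1
  have h2 : (PP μ).map (XX μ i) A ≤ 1 := prob_le_one
  have h3 : μ i A ≤ 1 := prob_le_one
  exact (ENNReal.sub_le_sub_iff_left h2 one_ne_top).1 h1

theorem le_tv (m m' : Measure ℝ) [IsProbabilityMeasure m] [IsProbabilityMeasure m'] (A : Set ℝ)
    (hA : MeasurableSet A) : m.real A - m'.real A ≤ tv m m' := by
  have hbdd : BddAbove (Set.range fun A : {A : Set ℝ // MeasurableSet A} =>
      |m.real A - m'.real A|) := by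
    refine ⟨1, ?_⟩
    rintro _ ⟨B, rfl⟩
    have h1 : m.real B ≤ 1 := measureReal_le_one
    have h2 : m'.real B ≤ 1 := measureReal_le_one
    have h3 : 0 ≤ m.real B := measureReal_nonneg
    have h4 : 0 ≤ m'.real B := measureReal_nonneg
    exact abs_le.2 ⟨by linarith, by linarith⟩
  exact (le_abs_self _).trans (le_ciSup hbdd ⟨A, hA⟩)

theorem tv_nonneg (m m' : Measure ℝ) : 0 ≤ tv m m' :=
  Real.iSup_nonneg fun _ => abs_nonneg _

theorem XX_pair (i j : ι) :
    (PP μ).real {ω | XX μ i ω ≠ XX μ j ω} ≤ 2 * tv (μ i) (μ j) / (1 + tv (μ i) (μ j)) := by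
  set d := tv (μ i) (μ j) with hd
  have hd0 : 0 ≤ d := tv_nonneg _ _
  set N : ℝ := (Fintype.card ι : ℝ) with hN
  have hN0 : 0 < N := by rw [hN]; exact_mod_cast Fintype.card_pos
  set p := (QQ μ).real (acc μ i ∩ acc μ j) with hp
  set q := (QQ μ).real (acc μ i ∪ acc μ j) with hq
  have hmi := acc_meas μ i
  have hmj := acc_meas μ j
  have hacc : ∀ k, (QQ μ).real (acc μ k) = 1 / N := by
    intro k
    rw [Measure.real, acc_total, ENNReal.toReal_inv, ENNReal.toReal_natCast, one_div]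
  have hpq : q + p = 2 / N := by
    have := measureReal_union_add_inter (μ := QQ μ) (s := acc μ i) hmj
    rw [hacc, hacc] at this
    rw [hq, hp, this]; ring
  have haccA : ∀ k (A : Set ℝ), MeasurableSet A →
      (QQ μ).real (acc μ k ∩ Prod.fst ⁻¹' A) = (μ k).real A / N := by
    intro k A hA
    rw [Measure.real, acc_prob μ k A hA, ENNReal.toReal_mul, ENNReal.toReal_inv,
      ENNReal.toReal_natCast, Measure.real]
    rw [inv_mul_eq_div]
  have hp1 : 1 / N - p ≤ d / N := by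
    set A0 : Set ℝ := {x | (μ j).rnDeriv (lam μ) x < (μ i).rnDeriv (lam μ) x} with hA0
    have hA0m : MeasurableSet A0 := measurableSet_lt (Measure.measurable_rnDeriv _ _)
      (Measure.measurable_rnDeriv _ _)
    have h1 : 1 / N - p = (QQ μ).real (acc μ i \ acc μ j) := by
      have := measureReal_inter_add_diff (μ := QQ μ) (s := acc μ i) hmj
      rw [hacc] at this
      rw [hp]; linarith
    rw [h1]
    have hmi' : MeasurableSet (acc μ i ∩ Prod.fst ⁻¹' A0) := hmi.inter (measurable_fst hA0m)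
    have hmj' : MeasurableSet (acc μ j ∩ Prod.fst ⁻¹' A0) := hmj.inter (measurable_fst hA0m)
    have h2 : acc μ i \ acc μ j ⊆ (acc μ i ∩ Prod.fst ⁻¹' A0) \ (acc μ j ∩ Prod.fst ⁻¹' A0) := by
      rintro e ⟨he1, he2⟩
      refine ⟨⟨he1, ?_⟩, fun h => he2 h.1⟩
      have h3 : ENNReal.ofReal e.2 < (μ i).rnDeriv (lam μ) e.1 := he1
      have h4 : ¬ ENNReal.ofReal e.2 < (μ j).rnDeriv (lam μ) e.1 := he2
      exact lt_of_le_of_lt (not_lt.1 h4) h3
    have h5 : acc μ j ∩ Prod.fst ⁻¹' A0 ⊆ acc μ i ∩ Prod.fst ⁻¹' A0 := by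
      rintro e ⟨he1, he2⟩
      refine ⟨?_, he2⟩
      have h3 : ENNReal.ofReal e.2 < (μ j).rnDeriv (lam μ) e.1 := he1
      have h4 : (μ j).rnDeriv (lam μ) e.1 < (μ i).rnDeriv (lam μ) e.1 := he2
      exact h3.trans h4
    refine (measureReal_mono h2).trans ?_
    rw [measureReal_diff h5 hmj', haccA i A0 hA0m, haccA j A0 hA0m, ← sub_div]
    exact div_le_div_of_nonneg_right (le_tv _ _ A0 hA0m) hN0.le
  have hq0 : 0 < q := by
    have : (QQ μ).real (acc μ i) ≤ q := measureReal_mono Set.subset_union_left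
    rw [hacc] at this
    have : 0 < 1 / N := by positivity
    linarith
  have hfv := first_visit (QQ μ) (acc μ i ∪ acc μ j) (acc μ i ∩ acc μ j) (hmi.union hmj)
    (hmi.inter hmj) (fun e he => Or.inl he.1)
  have hfv' : (PP μ).real (⋃ n, {ω | (∀ m < n, ω m ∈ (acc μ i ∪ acc μ j)ᶜ) ∧
      ω n ∈ acc μ i ∩ acc μ j}) = p / q := by
    rw [Measure.real]
    unfold PP
    rw [hfv, ENNReal.toReal_div]
    rfl
  have hsub : {ω | XX μ i ω ≠ XX μ j ω} ⊆ (⋃ n, {ω | (∀ m < n, ω m ∈ (acc μ i ∪ acc μ j)ᶜ) ∧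
      ω n ∈ acc μ i ∩ acc μ j})ᶜ := by
    intro ω hω hcon
    rw [Set.mem_iUnion] at hcon
    obtain ⟨n, h1, h2⟩ := hcon
    apply hω
    rw [XX_eq μ i ω n (fun m hm h => h1 m hm (Or.inl h)) h2.1,
      XX_eq μ j ω n (fun m hm h => h1 m hm (Or.inr h)) h2.2]
  have hmU : MeasurableSet (⋃ n, {ω : ℕ → ℝ × ℝ | (∀ m < n, ω m ∈ (acc μ i ∪ acc μ j)ᶜ) ∧
      ω n ∈ acc μ i ∩ acc μ j}) := MeasurableSet.iUnion fun n =>
    box_meas _ _ (hmi.union hmj).compl (hmi.inter hmj) n
  refine (measureReal_mono hsub).trans ?_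
  rw [probReal_compl_eq_one_sub hmU, hfv']
  have h9 : 1 - 2 * d / (1 + d) ≤ p / q := by
    have e1 : 1 - 2 * d / (1 + d) = (1 - d) / (1 + d) := by
      field_simp; ring
    rw [e1, div_le_div_iff₀ (by linarith) hq0]
    have e2 : q = 2 / N - p := by linarith
    have e3 : 1 / N - d / N ≤ p := by linarith
    have e4 : 2 / N = 2 * (1 / N) := by ring
    have e5 : d / N = d * (1 / N) := by ring
    rw [e2, e4]
    rw [e5] at e3
    nlinarith
  linarith

end coupling

/-- `2 x / (1 + x)` is a disagreement bound. -/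
theorem upper : DisagreementBound (fun x => 2 * x / (1 + x)) := by
  refine ⟨?_, ?_⟩
  · rintro x ⟨h0, h1⟩
    refine ⟨by positivity, ?_⟩
    rw [div_le_one (by linarith)]; linarith
  · intro ι _ μ hμ
    rcases isEmpty_or_nonempty ι with he | hne
    · exact ⟨Unit, inferInstance, Measure.dirac (), fun i => (he.false i).elim, inferInstance,
        fun i => (he.false i).elim, fun i => (he.false i).elim, fun i => (he.false i).elim⟩
    · exact ⟨ℕ → ℝ × ℝ, inferInstance, PP μ, XX μ, inferInstance, XX_meas μ, XX_law μ,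
        fun i j _ => XX_pair μ i j⟩

end Pool.Agent.V11327.DB
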