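import Mathlib

/-! # Semifilters (MP_7a28e0_gt): definitions -/

open Set

namespace Pool.Agent.V11327.SF

/-- The Cantor set `2^ω`; a point is identified with a subset of `ω` via `k ∈ x ↔ x k = true`. -/
abbrev C := ℕ → Bool

/-- `x ⊆* y`: the set `x \ y` is finite. -/
def aSub (x y : C) : Prop := {k : ℕ | x k = true ∧ y k = false}.Finite

/-- A semifilter: a nonempty family of infinite subsets of `ω` closed under almost supersets. -/
structure IsSemifilter (S : Set C) : Prop where
  nonempty : S.Nonempty
  infinite : ∀ x ∈ S, {k : ℕ | x k = true}.Infinite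
  up : ∀ x ∈ S, ∀ y, aSub x y → y ∈ S

/-- A space is strongly homogeneous if every nonempty clopen subset is homeomorphic to it. -/
def StronglyHomogeneous (X : Type) [TopologicalSpace X] : Prop :=
  ∀ U : Set X, IsClopen U → U.Nonempty → Nonempty (U ≃ₜ X)

end Pool.Agent.V11327.SF
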