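import Mathlib
import Pool.Agent.V11327.SFdefs

open Set Filter

namespace Pool.Agent.V11327.SF

/-! ### Almost inclusion -/

lemma aSub_refl (x : C) : aSub x x := by
  unfold aSub
  have : {k : ℕ | x k = true ∧ x k = false} = ∅ := by
    ext k
    simp
  rw [this]
  exact finite_empty

lemma aSub_trans {x y z : C} (h1 : aSub x y) (h2 : aSub y z) : aSub x z := by
  unfold aSub at *
  refine (h1.union h2).subset ?_
  rintro k ⟨hx, hz⟩
  by_cases hy : y k = true
  · exact Or.inr ⟨hy, hz⟩
  · exact Or.inl ⟨hx, by simpa using hy⟩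

/-! ### Blocks -/

/-- index type of the blocks -/
abbrev J := Σ n : ℕ, (Fin n → Bool) × Fin (8 ^ n)

instance : Infinite J := by
  refine Infinite.of_injective (fun n : ℕ => (⟨n, (fun _ => false, ⟨0, by positivity⟩)⟩ : J)) ?_
  intro a b h
  exact congrArg Sigma.fst h

/-- an enumeration -/
noncomputable def e : ℕ ≃ J := (nonempty_equiv_of_countable (α := ℕ) (β := J)).some

/-- the elements of a block -/
noncomputable def emb (n : ℕ) : ((Fin n → Bool) × Fin (8 ^ n)) ↪ ℕ where
  toFun := fun a => e.symm ⟨n, a⟩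
  inj' := by
    intro a b h
    have h1 : (⟨n, a⟩ : J) = ⟨n, b⟩ := e.symm.injective h
    exact eq_of_heq (Sigma.mk.inj h1).2

lemma emb_apply (n : ℕ) (a : (Fin n → Bool) × Fin (8 ^ n)) : emb n a = e.symm ⟨n, a⟩ := rfl

/-- The blocks. -/
noncomputable def B (n : ℕ) : Finset ℕ :=
  (Finset.univ : Finset ((Fin n → Bool) × Fin (8 ^ n))).map (emb n)

lemma mem_B {n k : ℕ} : k ∈ B n ↔ (e k).1 = n := by
  unfold B
  rw [Finset.mem_map]
  constructor
  · rintro ⟨a, -, rfl⟩
    rw [emb_apply, Equiv.apply_symm_apply]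
  · intro h
    subst h
    refine ⟨(e k).2, Finset.mem_univ _, ?_⟩
    rw [emb_apply]
    exact e.symm_apply_apply k

lemma card_B (n : ℕ) : (B n).card = 16 ^ n := by
  unfold B
  rw [Finset.card_map, Finset.card_univ, Fintype.card_prod, Fintype.card_fun, Fintype.card_bool,
    Fintype.card_fin, Fintype.card_fin, ← mul_pow]
  norm_num

/-- number of elements of `x` in the block `n` -/
noncomputable def tc (x : C) (n : ℕ) : ℕ := ((B n).filter (fun k => x k = true)).card

lemma tc_le (x : C) (n : ℕ) : tc x n ≤ (B n).card := Finset.card_filter_le _ _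

/-- the sets that are large in almost all blocks -/
def Up0 : Set C := {x | ∀ᶠ n in atTop, 5 * (B n).card ≤ 8 * tc x n}

/-- the sets that are small in almost all blocks -/
def Low0 : Set C := {x | ∀ᶠ n in atTop, 8 * tc x n ≤ 3 * (B n).card}

lemma eventually_sub {x y : C} (h : aSub x y) :
    ∀ᶠ n in atTop, ∀ k ∈ B n, x k = true → y k = true := by
  classical
  unfold aSub at h
  filter_upwards [eventually_gt_atTop (h.toFinset.sup (fun k => (e k).1))] with n hn k hk hx
  by_contra hy
  have hmem : k ∈ h.toFinset := by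
    rw [Set.Finite.mem_toFinset]
    exact ⟨hx, by simpa using hy⟩
  have h3 : (e k).1 ≤ h.toFinset.sup (fun k => (e k).1) :=
    Finset.le_sup (f := fun k => (e k).1) hmem
  rw [mem_B] at hk
  omega

lemma eventually_tc {x y : C} (h : aSub x y) : ∀ᶠ n in atTop, tc x n ≤ tc y n := by
  filter_upwards [eventually_sub h] with n hn
  refine Finset.card_le_card ?_
  intro k hk
  rw [Finset.mem_filter] at hk ⊢
  exact ⟨hk.1, hn k hk.1 hk.2⟩

lemma Up0_up {x y : C} (hx : x ∈ Up0) (h : aSub x y) : y ∈ Up0 := by
  have hx' : ∀ᶠ n in atTop, 5 * (B n).card ≤ 8 * tc x n := hx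
  change ∀ᶠ n in atTop, 5 * (B n).card ≤ 8 * tc y n
  filter_upwards [hx', eventually_tc h] with n h1 h2
  omega

lemma Low0_down {x y : C} (hy : y ∈ Low0) (h : aSub x y) : x ∈ Low0 := by
  have hy' : ∀ᶠ n in atTop, 8 * tc y n ≤ 3 * (B n).card := hy
  change ∀ᶠ n in atTop, 8 * tc x n ≤ 3 * (B n).card
  filter_upwards [hy', eventually_tc h] with n h1 h2
  omega

lemma disj0 {x : C} (h1 : x ∈ Up0) (h2 : x ∈ Low0) : False := by
  have h1' : ∀ᶠ n in atTop, 5 * (B n).card ≤ 8 * tc x n := h1
  have h2' : ∀ᶠ n in atTop, 8 * tc x n ≤ 3 * (B n).card := h2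
  obtain ⟨n, h3, h4⟩ := (h1'.and h2').exists
  have := card_B n
  have h5 : 0 < 16 ^ n := by positivity
  omega

/-- the full set -/
def top : C := fun _ => true

/-- the empty set -/
def bot : C := fun _ => false

lemma top_mem : top ∈ Up0 := by
  change ∀ᶠ n in atTop, 5 * (B n).card ≤ 8 * tc top n
  refine Eventually.of_forall fun n => ?_
  have : tc top n = (B n).card := by
    unfold tc top
    rw [Finset.filter_true_of_mem]
    intro _ _
    rfl
  omega

lemma bot_mem : bot ∈ Low0 := by
  change ∀ᶠ n in atTop, 8 * tc bot n ≤ 3 * (B n).card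
  refine Eventually.of_forall fun n => ?_
  have : tc bot n = 0 := by
    unfold tc bot
    rw [Finset.filter_false_of_mem]
    · rfl
    · intro _ _
      simp
  omega

lemma aSub_top (x : C) : aSub x top := by
  unfold aSub top
  have : {k : ℕ | x k = true ∧ true = false} = ∅ := by
    ext k
    simp
  rw [this]
  exact finite_empty

lemma bot_aSub (x : C) : aSub bot x := by
  unfold aSub bot
  have : {k : ℕ | false = true ∧ x k = false} = ∅ := by
    ext k
    simp
  rw [this]
  exact finite_empty

/-! ### The patterns -/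

/-- linear form -/
def lin (n : ℕ) (t : C) (a : Fin n → Bool) : ZMod 2 := ∑ i : Fin n, if (t i && a i) then 1 else 0

lemma lin_congr {n : ℕ} {t t' : C} (h : ∀ i < n, t i = t' i) (a : Fin n → Bool) :
    lin n t a = lin n t' a := by
  unfold lin
  refine Finset.sum_congr rfl fun i _ => ?_
  rw [h i i.2]

lemma lin_flip (n : ℕ) (t : C) (a : Fin n → Bool) (i0 : Fin n) :
    lin n t (Function.update a i0 (!a i0)) = lin n t a + (if t i0 then 1 else 0) := by
  unfold lin
  rw [← Finset.add_sum_erase _ _ (Finset.mem_univ i0), ← Finset.add_sum_erase _ _ (Finset.mem_univ i0)]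
  have h1 : ∑ i ∈ Finset.univ.erase i0,
      (if (t i && Function.update a i0 (!a i0) i) then (1 : ZMod 2) else 0)
      = ∑ i ∈ Finset.univ.erase i0, (if (t i && a i) then (1 : ZMod 2) else 0) := by
    refine Finset.sum_congr rfl fun i hi => ?_
    rw [Function.update_of_ne (Finset.ne_of_mem_erase hi)]
  rw [h1, Function.update_self]
  have h2 : (if (t i0 && !a i0) then (1 : ZMod 2) else 0)
      = (if (t i0 && a i0) then (1 : ZMod 2) else 0) + (if t i0 then 1 else 0) := by
    cases t i0 <;> cases a i0 <;> decide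
  rw [h2]
  ring

/-- the pattern attached to `t` -/
noncomputable def pt (t : C) (k : ℕ) : Bool := decide (lin (e k).1 t (e k).2.1 ≠ 0)

lemma pt_symm (t : C) (n : ℕ) (a : (Fin n → Bool) × Fin (8 ^ n)) :
    pt t (e.symm ⟨n, a⟩) = decide (lin n t a.1 ≠ 0) := by
  unfold pt
  rw [Equiv.apply_symm_apply]

lemma pt_congr {n : ℕ} {t t' : C} (h : ∀ i < n, t i = t' i) {k : ℕ} (hk : k ∈ B n) :
    pt t k = pt t' k := by
  rw [mem_B] at hk
  subst hk
  unfold pt
  rw [lin_congr h]

/-- Two different patterns agree on exactly half of the block. -/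
lemma balanced {n : ℕ} {t t' : C} {i0 : ℕ} (hi : i0 < n) (h : t i0 ≠ t' i0) :
    2 * ((B n).filter (fun k => pt t k = pt t' k)).card = (B n).card := by
  classical
  have hdec : ∀ u v : ZMod 2, (decide (u ≠ 0) = decide (v ≠ 0)) ↔ u = v := by decide
  set P : (Fin n → Bool) × Fin (8 ^ n) → Prop := fun a => lin n t a.1 = lin n t' a.1 with hP
  have h1 : ((B n).filter (fun k => pt t k = pt t' k)).card
      = ((Finset.univ : Finset ((Fin n → Bool) × Fin (8 ^ n))).filter P).card := by
    unfold B
    rw [Finset.filter_map, Finset.card_map]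
    congr 1
    refine Finset.filter_congr fun a _ => ?_
    simp only [Function.comp, emb_apply, pt_symm, hdec, hP]
  have h2 : ((Finset.univ : Finset ((Fin n → Bool) × Fin (8 ^ n))).filter P).card
      = ((Finset.univ : Finset ((Fin n → Bool) × Fin (8 ^ n))).filter (fun a => ¬ P a)).card := by
    set φ : (Fin n → Bool) × Fin (8 ^ n) → (Fin n → Bool) × Fin (8 ^ n) :=
      fun a => (Function.update a.1 ⟨i0, hi⟩ (!a.1 ⟨i0, hi⟩), a.2) with hφ
    have hinv : ∀ a, φ (φ a) = a := by
      intro a
      simp only [hφ, Function.update_self, Bool.not_not, Function.update_idem,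
        Function.update_eq_self]
    have hflip : ∀ a, P (φ a) ↔ ¬ P a := by
      intro a
      simp only [hP, hφ, lin_flip]
      have h3 : ∀ (u v : ZMod 2) (b b' : Bool), b ≠ b' →
          (u + (if b then 1 else 0) = v + (if b' then 1 else 0) ↔ ¬ u = v) := by decide
      exact h3 _ _ _ _ h
    refine Finset.card_nbij' φ φ ?_ ?_ ?_ ?_
    · intro a ha
      simp only [Finset.coe_filter, Finset.mem_univ, true_and, mem_ofPred_eq] at ha ⊢
      rw [hflip]
      exact not_not.2 ha
    · intro a ha
      simp only [Finset.coe_filter, Finset.mem_univ, true_and, mem_ofPred_eq] at ha ⊢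
      rw [hflip]
      exact ha
    · intro a _
      exact hinv a
    · intro a _
      exact hinv a
  have h3 := Finset.card_filter_add_card_filter_not (s := (Finset.univ : Finset ((Fin n → Bool) × Fin (8 ^ n)))) P
  have h4 : (B n).card = (Finset.univ : Finset ((Fin n → Bool) × Fin (8 ^ n))).card := by
    unfold B
    rw [Finset.card_map]
  rw [h1, h4, ← h3]
  omega

end Pool.Agent.V11327.SF
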