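import Mathlib
import Pool.Agent.V11327.SFblocks

open MeasureTheory Set Filter
open scoped ENNReal Topology

namespace Pool.Agent.V11327.SF

/-- Chebyshev's inequality for pairwise independent events. -/
lemma cheb2 {Ω ι : Type*} [MeasurableSpace Ω] (μ : Measure Ω) [IsProbabilityMeasure μ]
    (s : Finset ι) (A : ι → Set Ω) (hA : ∀ i ∈ s, MeasurableSet (A i))
    (hp : ∀ i ∈ s, ∀ j ∈ s, i ≠ j → μ.real (A i ∩ A j) ≤ μ.real (A i) * μ.real (A j))
    (hl : 0 < ∑ i ∈ s, μ.real (A i)) (δ : ℝ) (hδ : 0 < δ) (E : Set Ω)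
    (hE : ∀ ω ∈ E, ∑ i ∈ s, (A i).indicator (fun _ => (1:ℝ)) ω ≤
      (1 - δ) * ∑ i ∈ s, μ.real (A i)) :
    μ.real E ≤ 1 / (δ ^ 2 * ∑ i ∈ s, μ.real (A i)) := by
  classical
  set L : ℝ := ∑ i ∈ s, μ.real (A i) with hL
  set S : Ω → ℝ := fun ω => ∑ i ∈ s, (A i).indicator (fun _ => (1:ℝ)) ω with hS
  have hIi : ∀ i ∈ s, Integrable ((A i).indicator (fun _ => (1:ℝ))) μ := fun i hi =>
    (integrable_const 1).indicator (hA i hi)
  have hSi : Integrable S μ := integrable_finsetSum _ hIi
  have hSS : ∀ ω, S ω * S ω = ∑ i ∈ s, ∑ j ∈ s, (A i ∩ A j).indicator (fun _ => (1:ℝ)) ω := by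
    intro ω
    simp only [hS]
    rw [Finset.sum_mul_sum]
    refine Finset.sum_congr rfl fun i _ => Finset.sum_congr rfl fun j _ => ?_
    by_cases h1 : ω ∈ A i <;> by_cases h2 : ω ∈ A j <;> simp [h1, h2]
  have hIij : ∀ i ∈ s, ∀ j ∈ s, Integrable ((A i ∩ A j).indicator (fun _ => (1:ℝ))) μ :=
    fun i hi j hj => (integrable_const 1).indicator ((hA i hi).inter (hA j hj))
  have hSSi : Integrable (fun ω => S ω * S ω) μ := by
    simp only [hSS]
    exact integrable_finsetSum _ fun i hi => integrable_finsetSum _ fun j hj => hIij i hi j hj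
  have hf : ∀ ω, (S ω - L) ^ 2 = S ω * S ω - 2 * L * S ω + L ^ 2 := fun ω => by ring
  have hfi : Integrable (fun ω => (S ω - L) ^ 2) μ := by
    simp only [hf]
    exact (hSSi.sub (hSi.const_mul _)).add (integrable_const _)
  have hint1 : ∫ ω, S ω ∂μ = L := by
    simp only [hS]
    rw [integral_finsetSum _ hIi]
    refine Finset.sum_congr rfl fun i hi => ?_
    rw [integral_indicator_const _ (hA i hi)]
    simp
  have hint2 : ∫ ω, S ω * S ω ∂μ ≤ L ^ 2 + L := by
    simp only [hSS]
    rw [integral_finsetSum _ (fun i hi => integrable_finsetSum _ fun j hj => hIij i hi j hj)]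
    have : ∀ i ∈ s, ∫ ω, ∑ j ∈ s, (A i ∩ A j).indicator (fun _ => (1:ℝ)) ω ∂μ
        ≤ μ.real (A i) * L + μ.real (A i) := by
      intro i hi
      rw [integral_finsetSum _ (fun j hj => hIij i hi j hj)]
      have h1 : ∀ j ∈ s, ∫ ω, (A i ∩ A j).indicator (fun _ => (1:ℝ)) ω ∂μ
          ≤ μ.real (A i) * μ.real (A j) + (if i = j then μ.real (A i) else 0) := by
        intro j hj
        rw [integral_indicator_const _ ((hA i hi).inter (hA j hj))]
        rw [smul_eq_mul, mul_one]
        by_cases hij : i = j
        · subst hij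
          rw [if_pos rfl, inter_self]
          have : 0 ≤ μ.real (A i) * μ.real (A i) := by positivity
          linarith
        · rw [if_neg hij, add_zero]
          exact hp i hi j hj hij
      refine (Finset.sum_le_sum h1).trans ?_
      rw [Finset.sum_add_distrib, ← Finset.mul_sum, Finset.sum_ite_eq, if_pos hi]
    refine (Finset.sum_le_sum this).trans ?_
    rw [Finset.sum_add_distrib, ← Finset.sum_mul]
    exact le_of_eq (by rw [← hL]; ring)
  have hint : ∫ ω, (S ω - L) ^ 2 ∂μ ≤ L := by
    simp only [hf]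
    have hsub1 : Integrable (fun ω => S ω * S ω - 2 * L * S ω) μ := hSSi.sub (hSi.const_mul _)
    rw [integral_add hsub1 (integrable_const _),
      integral_sub hSSi (hSi.const_mul _), integral_const_mul, hint1, integral_const]
    simp only [probReal_univ, one_smul]
    nlinarith [hint2]
  have hmark := mul_meas_ge_le_integral_of_nonneg (μ := μ) (f := fun ω => (S ω - L) ^ 2)
    (Filter.Eventually.of_forall fun ω => sq_nonneg _) hfi ((δ * L) ^ 2)
  have hsub : E ⊆ {ω | (δ * L) ^ 2 ≤ (S ω - L) ^ 2} := by
    intro ω hω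
    have h1 := hE ω hω
    change S ω ≤ (1 - δ) * L at h1
    change (δ * L) ^ 2 ≤ (S ω - L) ^ 2
    have h2 : δ * L ≤ L - S ω := by linarith
    have h3 : (δ * L) ^ 2 ≤ (L - S ω) ^ 2 := pow_le_pow_left₀ (by positivity) h2 2
    calc (δ * L) ^ 2 ≤ (L - S ω) ^ 2 := h3
      _ = (S ω - L) ^ 2 := by ring
  have hmono : μ.real E ≤ μ.real {ω | (δ * L) ^ 2 ≤ (S ω - L) ^ 2} := measureReal_mono hsub
  have h5 : (δ * L) ^ 2 * μ.real E ≤ L := by
    calc (δ * L) ^ 2 * μ.real E ≤ (δ * L) ^ 2 * μ.real {ω | (δ * L) ^ 2 ≤ (S ω - L) ^ 2} :=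
          mul_le_mul_of_nonneg_left hmono (by positivity)
      _ ≤ _ := hmark
      _ ≤ L := hint
  rw [le_div_iff₀ (by positivity)]
  have h6 : L * (μ.real E * (δ ^ 2 * L)) ≤ L * 1 := by
    calc L * (μ.real E * (δ ^ 2 * L)) = (δ * L) ^ 2 * μ.real E := by ring
      _ ≤ L := h5
      _ = L * 1 := by ring
  exact le_of_mul_le_mul_left h6 hl

/-! ### The coin-tossing measure -/

/-- fair coin -/
noncomputable def coin : Measure Bool :=
  (2⁻¹ : ℝ≥0∞) • Measure.dirac true + (2⁻¹ : ℝ≥0∞) • Measure.dirac false

lemma coin_singleton (b : Bool) : coin {b} = 2⁻¹ := by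
  unfold coin
  rw [Measure.add_apply, Measure.smul_apply, Measure.smul_apply,
    Measure.dirac_apply' _ (MeasurableSet.singleton _),
    Measure.dirac_apply' _ (MeasurableSet.singleton _)]
  cases b <;> simp

instance : IsProbabilityMeasure coin := by
  constructor
  unfold coin
  rw [Measure.add_apply, Measure.smul_apply, Measure.smul_apply, measure_univ, measure_univ,
    smul_eq_mul, mul_one]
  exact ENNReal.inv_two_add_inv_two

lemma coin_map_xor (b : Bool) : coin.map (fun c => xor c b) = coin := by
  refine Measure.ext_of_singleton fun c => ?_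
  rw [Measure.map_apply (measurable_of_countable _) (MeasurableSet.singleton _), coin_singleton]
  have : (fun c => xor c b) ⁻¹' {c} = {xor c b} := by
    ext d
    simp only [mem_preimage, mem_singleton_iff]
    cases b <;> cases c <;> cases d <;> simp
  rw [this, coin_singleton]

/-- The coin-tossing measure on the Cantor set. -/
noncomputable def mu : Measure C := Measure.infinitePi (fun _ : ℕ => coin)

instance : IsProbabilityMeasure mu := by
  unfold mu
  infer_instance

lemma mu_map_xor (p : C) : mu.map (fun (z : C) k => xor (z k) (p k)) = mu := by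
  unfold mu
  have h := Measure.infinitePi_map_pi (μ := fun _ : ℕ => coin) (f := fun k (c : Bool) => xor c (p k))
    (fun k => measurable_of_countable _)
  rw [h]
  congr 1
  funext k
  exact coin_map_xor (p k)

lemma mu_cyl (F : Finset ℕ) (s : C) :
    mu.real {z : C | ∀ k ∈ F, z k = s k} = (1 / 2) ^ F.card := by
  have e1 : {z : C | ∀ k ∈ F, z k = s k} = Set.pi (F : Set ℕ) (fun k => {s k}) := by
    ext z
    rfl
  rw [e1]
  unfold Measure.real mu
  rw [Measure.infinitePi_pi _ (fun i _ => MeasurableSet.singleton _)]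
  simp only [coin_singleton, Finset.prod_const]
  rw [ENNReal.toReal_pow, ENNReal.toReal_inv]
  norm_num

lemma measurable_eval_eq (k : ℕ) (b : Bool) : MeasurableSet {z : C | z k = b} := by
  have h : Measurable (fun z : C => z k) := measurable_pi_apply k
  exact h (MeasurableSet.singleton b)

lemma count_bound (F : Finset ℕ) (hF : F.Nonempty) (s : C) (δ : ℝ) (hδ : 0 < δ) :
    mu.real {z : C | ((F.filter (fun k => z k = s k)).card : ℝ) ≤ (1 - δ) * (F.card / 2)}
      ≤ 2 / (δ ^ 2 * F.card) := by
  classical
  have hc : (0:ℝ) < F.card := by exact_mod_cast hF.card_pos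
  have h1 : ∀ k, mu.real {z : C | z k = s k} = 1 / 2 := by
    intro k
    have := mu_cyl {k} s
    simpa using this
  have h2 : ∀ k l, k ≠ l → mu.real ({z : C | z k = s k} ∩ {z : C | z l = s l})
      = mu.real {z : C | z k = s k} * mu.real {z : C | z l = s l} := by
    intro k l hkl
    rw [h1, h1]
    have := mu_cyl {k, l} s
    rw [Finset.card_pair hkl] at this
    have e1 : {z : C | z k = s k} ∩ {z : C | z l = s l} = {z : C | ∀ i ∈ ({k, l} : Finset ℕ), z i = s i} := by
      ext z
      simp
    rw [e1, this]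
    norm_num
  have hL : ∑ k ∈ F, mu.real {z : C | z k = s k} = F.card / 2 := by
    simp only [h1]
    rw [Finset.sum_const, nsmul_eq_mul]
    ring
  have := cheb2 mu F (fun k => {z : C | z k = s k}) (fun k _ => measurable_eval_eq k _)
    (fun k _ l _ hkl => (h2 k l hkl).le) (by rw [hL]; positivity) δ hδ
    {z : C | ((F.filter (fun k => z k = s k)).card : ℝ) ≤ (1 - δ) * (F.card / 2)}
    (by
      intro z hz
      rw [hL]
      have e1 : ∑ k ∈ F, ({z : C | z k = s k}).indicator (fun _ => (1:ℝ)) z
          = ((F.filter (fun k => z k = s k)).card : ℝ) := by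
        rw [Finset.card_filter]
        push_cast
        refine Finset.sum_congr rfl fun k _ => ?_
        by_cases h : z k = s k
        · rw [if_pos h, indicator_of_mem (show z ∈ {z : C | z k = s k} from h)]
        · rw [if_neg h, indicator_of_notMem (show z ∉ {z : C | z k = s k} from h)]
      rw [e1]
      exact hz)
  rw [hL] at this
  refine this.trans (le_of_eq ?_)
  field_simp

instance : NullSingletonClass mu := by
  constructor
  intro x
  have h : ∀ n : ℕ, mu {x} ≤ ENNReal.ofReal ((1 / 2) ^ n) := by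
    intro n
    have h1 : ({x} : Set C) ⊆ {z : C | ∀ k ∈ Finset.range n, z k = x k} := by
      intro z hz k _
      rw [mem_singleton_iff.1 hz]
    refine (measure_mono h1).trans ?_
    rw [← ENNReal.ofReal_toReal (measure_ne_top mu _)]
    refine ENNReal.ofReal_le_ofReal ?_
    have := mu_cyl (Finset.range n) x
    unfold Measure.real at this
    rw [this, Finset.card_range]
  have h2 : Tendsto (fun n : ℕ => ENNReal.ofReal ((1 / 2) ^ n)) atTop (𝓝 0) := by
    have := ENNReal.tendsto_ofReal
      (tendsto_pow_atTop_nhds_zero_of_lt_one (r := (1 / 2 : ℝ)) (by norm_num) (by norm_num))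
    rwa [ENNReal.ofReal_zero] at this
  exact le_antisymm (ge_of_tendsto' h2 h) zero_le

/-! ### Good shifts -/

/-- extension of a finite pattern -/
def ext {n : ℕ} (σ : Fin n → Bool) : C := fun i => if h : i < n then σ ⟨i, h⟩ else false

/-- agreement set of two patterns -/
noncomputable def agr (n : ℕ) (t t' : C) : Finset ℕ := (B n).filter (fun k => pt t k = pt t' k)

/-- bad events at block `n` -/
def E1 (n : ℕ) (t : C) (b : Bool) : Set C :=
  {z | (((B n).filter (fun k => z k = xor (pt t k) b)).card : ℝ) ≤ (1 - 1 / 4) * ((B n).card / 2)}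

def E2 (n : ℕ) (t t' : C) (b : Bool) : Set C :=
  {z | (((agr n t t').filter (fun k => z k = xor (pt t k) b)).card : ℝ) ≤
    (1 - 1 / 2) * ((agr n t t').card / 2)}

open Classical in
def BadB (n : ℕ) : Set C :=
  (⋃ σ : Fin n → Bool, ⋃ b : Bool, E1 n (ext σ) b) ∪
    (⋃ σ : Fin n → Bool, ⋃ σ' : Fin n → Bool, ⋃ b : Bool,
      if σ = σ' then ∅ else E2 n (ext σ) (ext σ') b)

lemma E1_bound (n : ℕ) (t : C) (b : Bool) : mu (E1 n t b) ≤ ENNReal.ofReal (32 / 16 ^ n) := by
  have hB : (B n).Nonempty := by
    rw [← Finset.card_pos, card_B]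
    positivity
  rw [← ENNReal.ofReal_toReal (measure_ne_top mu _)]
  refine ENNReal.ofReal_le_ofReal ?_
  have := count_bound (B n) hB (fun k => xor (pt t k) b) (1 / 4) (by norm_num)
  refine this.trans (le_of_eq ?_)
  rw [card_B]
  push_cast
  field_simp
  norm_num

lemma ext_ne {n : ℕ} {σ σ' : Fin n → Bool} (h : σ ≠ σ') : ∃ i < n, ext σ i ≠ ext σ' i := by
  obtain ⟨i, hi⟩ := Function.ne_iff.1 h
  refine ⟨i, i.2, ?_⟩
  unfold ext
  rw [dif_pos i.2, dif_pos i.2]
  exact hi

lemma E2_bound (n : ℕ) (t t' : C) (b : Bool) (h : ∃ i < n, t i ≠ t' i) :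
    mu (E2 n t t' b) ≤ ENNReal.ofReal (16 / 16 ^ n) := by
  obtain ⟨i0, hi0, hne⟩ := h
  have hcard : 2 * (agr n t t').card = (B n).card := balanced hi0 hne
  have hpos : 0 < (B n).card := by
    rw [card_B]
    positivity
  have hA : (agr n t t').Nonempty := by
    rw [← Finset.card_pos]
    omega
  rw [← ENNReal.ofReal_toReal (measure_ne_top mu _)]
  refine ENNReal.ofReal_le_ofReal ?_
  have := count_bound (agr n t t') hA (fun k => xor (pt t k) b) (1 / 2) (by norm_num)
  refine this.trans (le_of_eq ?_)
  have h1 : ((agr n t t').card : ℝ) = 16 ^ n / 2 := by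
    have h2 : (2:ℝ) * (agr n t t').card = 16 ^ n := by
      have h3 := hcard
      rw [card_B] at h3
      exact_mod_cast h3
    linarith
  rw [h1]
  field_simp
  norm_num

lemma BadB_bound (n : ℕ) : mu (BadB n) ≤ ENNReal.ofReal (96 * (1 / 4) ^ n) := by
  classical
  have h1 : mu (⋃ σ : Fin n → Bool, ⋃ b : Bool, E1 n (ext σ) b)
      ≤ ENNReal.ofReal (64 * (1 / 4) ^ n) := by
    calc mu (⋃ σ : Fin n → Bool, ⋃ b : Bool, E1 n (ext σ) b)
        ≤ ∑ _σ : Fin n → Bool, ∑ _b : Bool, ENNReal.ofReal (32 / 16 ^ n) := by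
          refine (measure_iUnion_fintype_le _ _).trans (Finset.sum_le_sum fun σ _ => ?_)
          exact (measure_iUnion_fintype_le _ _).trans (Finset.sum_le_sum fun b _ => E1_bound n _ b)
      _ = ENNReal.ofReal (2 ^ n * (2 * (32 / 16 ^ n))) := by
          rw [Finset.sum_const, Finset.sum_const, Finset.card_univ, Finset.card_univ,
            Fintype.card_fun, Fintype.card_bool, Fintype.card_fin, nsmul_eq_mul, nsmul_eq_mul,
            ← ENNReal.ofReal_natCast, ← ENNReal.ofReal_natCast, ← ENNReal.ofReal_mul (by positivity),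
            ← ENNReal.ofReal_mul (by positivity)]
          push_cast
          rfl
      _ ≤ ENNReal.ofReal (64 * (1 / 4) ^ n) := by
          refine ENNReal.ofReal_le_ofReal ?_
          have e16 : (16:ℝ) ^ n = 4 ^ n * 4 ^ n := by rw [← mul_pow]; norm_num
          have h24 : (2:ℝ) ^ n ≤ 4 ^ n := pow_le_pow_left₀ (by norm_num) (by norm_num) n
          have h4 : (0:ℝ) < 4 ^ n := by positivity
          rw [e16, one_div, inv_pow]
          calc (2:ℝ) ^ n * (2 * (32 / (4 ^ n * 4 ^ n))) ≤ 4 ^ n * (2 * (32 / (4 ^ n * 4 ^ n))) :=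
                mul_le_mul_of_nonneg_right h24 (by positivity)
            _ = 64 * (4 ^ n)⁻¹ := by
                field_simp
                norm_num
  have h2 : mu (⋃ σ : Fin n → Bool, ⋃ σ' : Fin n → Bool, ⋃ b : Bool,
      (if σ = σ' then (∅ : Set C) else E2 n (ext σ) (ext σ') b))
      ≤ ENNReal.ofReal (32 * (1 / 4) ^ n) := by
    calc mu (⋃ σ : Fin n → Bool, ⋃ σ' : Fin n → Bool, ⋃ b : Bool,
          (if σ = σ' then (∅ : Set C) else E2 n (ext σ) (ext σ') b))
        ≤ ∑ _σ : Fin n → Bool, ∑ _σ' : Fin n → Bool, ∑ _b : Bool, ENNReal.ofReal (16 / 16 ^ n) := by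
          refine (measure_iUnion_fintype_le _ _).trans (Finset.sum_le_sum fun σ _ => ?_)
          refine (measure_iUnion_fintype_le _ _).trans (Finset.sum_le_sum fun σ' _ => ?_)
          refine (measure_iUnion_fintype_le _ _).trans (Finset.sum_le_sum fun b _ => ?_)
          split_ifs with h
          · rw [measure_empty]; exact zero_le
          · exact E2_bound n _ _ b (ext_ne h)
      _ = ENNReal.ofReal (2 ^ n * (2 ^ n * (2 * (16 / 16 ^ n)))) := by
          rw [Finset.sum_const, Finset.sum_const, Finset.sum_const, Finset.card_univ,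
            Finset.card_univ,
            Fintype.card_fun, Fintype.card_bool, Fintype.card_fin, nsmul_eq_mul, nsmul_eq_mul,
            nsmul_eq_mul,
            ← ENNReal.ofReal_natCast, ← ENNReal.ofReal_natCast, ← ENNReal.ofReal_mul (by positivity),
            ← ENNReal.ofReal_mul (by positivity), ← ENNReal.ofReal_mul (by positivity)]
          push_cast
          rfl
      _ ≤ ENNReal.ofReal (32 * (1 / 4) ^ n) := by
          refine ENNReal.ofReal_le_ofReal (le_of_eq ?_)
          have e16 : (16:ℝ) ^ n = 4 ^ n * 4 ^ n := by rw [← mul_pow]; norm_num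
          have e4 : (4:ℝ) ^ n = 2 ^ n * 2 ^ n := by rw [← mul_pow]; norm_num
          have h2 : (2:ℝ) ^ n ≠ 0 := by positivity
          rw [e16, one_div, inv_pow, e4]
          field_simp
          norm_num
  unfold BadB
  refine (measure_union_le _ _).trans ?_
  have h3 : ENNReal.ofReal (96 * (1 / 4) ^ n)
      = ENNReal.ofReal (64 * (1 / 4) ^ n) + ENNReal.ofReal (32 * (1 / 4) ^ n) := by
    rw [← ENNReal.ofReal_add (by positivity) (by positivity)]
    congr 1
    ring
  rw [h3]
  exact add_le_add h1 h2

lemma ae_good : ∀ᵐ z ∂mu, ∀ᶠ n in atTop, z ∉ BadB n := by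
  refine ae_eventually_notMem ?_
  have hs : Summable (fun n : ℕ => 96 * (1 / 4 : ℝ) ^ n) :=
    (summable_geometric_of_lt_one (by norm_num) (by norm_num)).mul_left _
  refine ne_top_of_le_ne_top hs.tsum_ofReal_ne_top (ENNReal.tsum_le_tsum fun n => BadB_bound n)

/-- the shifted pattern -/
noncomputable def sh (z t : C) : C := fun k => xor (z k) (pt t k)

lemma ext_res {n : ℕ} (t : C) : ∀ i < n, ext (fun i : Fin n => t i) i = t i := by
  intro i hi
  unfold ext
  rw [dif_pos hi]

lemma tc_sh {z : C} {n : ℕ} (hz : z ∉ BadB n) (t : C) :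
    3 * (B n).card < 8 * tc (sh z t) n ∧ 8 * tc (sh z t) n < 5 * (B n).card := by
  classical
  have h1 : ∀ b : Bool, 3 * (B n).card < 8 * ((B n).filter (fun k => z k = xor (pt t k) b)).card := by
    intro b
    have h2 : z ∉ E1 n (ext (fun i : Fin n => t i)) b := by
      intro h
      exact hz (Or.inl (mem_iUnion.2 ⟨fun i : Fin n => t i, mem_iUnion.2 ⟨b, h⟩⟩))
    unfold E1 at h2
    have h3 : ¬ ((((B n).filter (fun k => z k = xor (pt (ext (fun i : Fin n => t i)) k) b)).card : ℝ)
      ≤ (1 - 1 / 4) * ((B n).card / 2)) := h2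
    have e1 : (B n).filter (fun k => z k = xor (pt (ext (fun i : Fin n => t i)) k) b)
        = (B n).filter (fun k => z k = xor (pt t k) b) := by
      refine Finset.filter_congr fun k hk => ?_
      rw [pt_congr (ext_res t) hk]
    rw [e1] at h3
    push Not at h3
    have h4 : (3:ℝ) * (B n).card < 8 * ((B n).filter (fun k => z k = xor (pt t k) b)).card := by
      linarith
    exact_mod_cast h4
  have e2 : tc (sh z t) n = ((B n).filter (fun k => z k = xor (pt t k) true)).card := by
    unfold tc sh
    congr 1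
    refine Finset.filter_congr fun k _ => ?_
    cases z k <;> cases pt t k <;> simp
  have e3 : tc (sh z t) n + ((B n).filter (fun k => z k = xor (pt t k) false)).card = (B n).card := by
    unfold tc sh
    have := Finset.card_filter_add_card_filter_not (s := B n) (fun k => xor (z k) (pt t k) = true)
    rw [← this]
    congr 2
    refine Finset.filter_congr fun k _ => ?_
    cases z k <;> cases pt t k <;> simp
  have h5 := h1 true
  have h6 := h1 false
  rw [← e2] at h5
  omega

/-- intersection and union -/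
def inf' (x y : C) : C := fun k => x k && y k
def sup' (x y : C) : C := fun k => x k || y k

lemma tc_pair {z : C} {n : ℕ} (hz : z ∉ BadB n) {t t' : C} (hne : ∃ i < n, t i ≠ t' i) :
    8 * tc (inf' (sh z t) (sh z t')) n ≤ 3 * (B n).card ∧
      5 * (B n).card ≤ 8 * tc (sup' (sh z t) (sh z t')) n := by
  classical
  have hne' := hne
  obtain ⟨i0, hi0, hne0⟩ := hne
  have hcard : 2 * (agr n t t').card = (B n).card := balanced hi0 hne0
  have hσ : (fun i : Fin n => t i) ≠ (fun i : Fin n => t' i) := by
    intro h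
    exact hne0 (congrFun h ⟨i0, hi0⟩)
  have h1 : ∀ b : Bool, (agr n t t').card < 4 *
      ((agr n t t').filter (fun k => z k = xor (pt t k) b)).card := by
    intro b
    have h2 : z ∉ E2 n (ext (fun i : Fin n => t i)) (ext (fun i : Fin n => t' i)) b := by
      intro h
      exact hz (Or.inr (mem_iUnion.2 ⟨fun i : Fin n => t i, mem_iUnion.2 ⟨fun i : Fin n => t' i,
        mem_iUnion.2 ⟨b, by rw [if_neg hσ]; exact h⟩⟩⟩))
    have e0 : agr n (ext (fun i : Fin n => t i)) (ext (fun i : Fin n => t' i)) = agr n t t' := by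
      unfold agr
      refine Finset.filter_congr fun k hk => ?_
      rw [pt_congr (ext_res t) hk, pt_congr (ext_res t') hk]
    have h3 : ¬ ((((agr n (ext (fun i : Fin n => t i)) (ext (fun i : Fin n => t' i))).filter
      (fun k => z k = xor (pt (ext (fun i : Fin n => t i)) k) b)).card : ℝ)
      ≤ (1 - 1 / 2) * ((agr n (ext (fun i : Fin n => t i)) (ext (fun i : Fin n => t' i))).card / 2)) := h2
    have e1 : (agr n t t').filter (fun k => z k = xor (pt (ext (fun i : Fin n => t i)) k) b)
        = (agr n t t').filter (fun k => z k = xor (pt t k) b) := by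
      refine Finset.filter_congr fun k hk => ?_
      have hk' : k ∈ B n := (Finset.mem_filter.1 hk).1
      rw [pt_congr (ext_res t) hk']
    rw [e0, e1] at h3
    push Not at h3
    have h4 : ((agr n t t').card : ℝ) < 4 * ((agr n t t').filter (fun k => z k = xor (pt t k) b)).card := by
      linarith
    exact_mod_cast h4
  have h5 := h1 true
  have h6 := h1 false
  -- the agreement set splits
  have h7 : ((agr n t t').filter (fun k => z k = xor (pt t k) true)).card +
      ((agr n t t').filter (fun k => z k = xor (pt t k) false)).card = (agr n t t').card := by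
    have := Finset.card_filter_add_card_filter_not (s := agr n t t')
      (fun k => z k = xor (pt t k) true)
    rw [← this]
    congr 2
    refine Finset.filter_congr fun k _ => ?_
    cases z k <;> cases pt t k <;> simp
  have h8 : tc (inf' (sh z t) (sh z t')) n ≤
      ((agr n t t').filter (fun k => z k = xor (pt t k) true)).card := by
    unfold tc
    refine Finset.card_le_card ?_
    intro k hk
    rw [Finset.mem_filter] at hk
    obtain ⟨hkB, hk2⟩ := hk
    unfold agr
    rw [Finset.mem_filter, Finset.mem_filter]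
    unfold inf' sh at hk2
    revert hk2
    cases z k <;> cases pt t k <;> cases pt t' k <;> simp [hkB]
  have h9 : ((agr n t t').filter (fun k => z k = xor (pt t k) true)).card +
      ((B n).filter (fun k => ¬ pt t k = pt t' k)).card ≤ tc (sup' (sh z t) (sh z t')) n := by
    unfold tc
    rw [← Finset.card_union_of_disjoint]
    · refine Finset.card_le_card ?_
      intro k hk
      rw [Finset.mem_union, Finset.mem_filter, Finset.mem_filter] at hk
      unfold agr at hk
      rw [Finset.mem_filter] at hk
      rw [Finset.mem_filter]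
      rcases hk with ⟨⟨h10, h11⟩, h12⟩ | ⟨h10, h11⟩
      · refine ⟨h10, ?_⟩
        unfold sup' sh
        rw [h12]
        cases pt t k <;> simp
      · refine ⟨h10, ?_⟩
        unfold sup' sh
        revert h11
        cases z k <;> cases pt t k <;> cases pt t' k <;> simp
    · rw [Finset.disjoint_left]
      intro k hk hk'
      rw [Finset.mem_filter] at hk hk'
      unfold agr at hk
      rw [Finset.mem_filter] at hk
      exact hk'.2 hk.1.2
  have h10 : (agr n t t').card + ((B n).filter (fun k => ¬ pt t k = pt t' k)).card = (B n).card :=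
    Finset.card_filter_add_card_filter_not (s := B n) (fun k => pt t k = pt t' k)
  constructor <;> omega

end Pool.Agent.V11327.SF
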