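import Mathlib
import Pool.Agent.V11327.SFmeas

open MeasureTheory Set Filter
open scoped ENNReal Topology

namespace Pool.Agent.V11327.SF

/-- agreement up to `n` -/
def agree (n : ℕ) (x y : C) : Prop := ∀ k < n, x k = y k

lemma agree_symm {n : ℕ} {x y : C} (h : agree n x y) : agree n y x := fun k hk => (h k hk).symm

lemma agree_trans {n : ℕ} {x y z : C} (h : agree n x y) (h' : agree n y z) : agree n x z :=
  fun k hk => (h k hk).trans (h' k hk)

lemma agree_mono {m n : ℕ} (hmn : m ≤ n) {x y : C} (h : agree n x y) : agree m x y :=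
  fun k hk => h k (hk.trans_le hmn)

lemma eq_of_agree {x y : C} (h : ∀ n, agree n x y) : x = y :=
  funext fun k => h (k + 1) k (Nat.lt_succ_self k)

/-- enumeration of the finite sets -/
noncomputable def ff : ℕ ≃ Finset ℕ := (nonempty_equiv_of_countable (α := ℕ) (β := Finset ℕ)).some

/-- enumeration of the cofinite sets -/
noncomputable def c (m : ℕ) : C := fun k => !decide (k ∈ ff m)

lemma c_mem (m : ℕ) : c m ∈ Up0 := by
  refine Up0_up top_mem ?_
  unfold aSub
  refine (ff m).finite_toSet.subset ?_
  rintro k ⟨-, hk⟩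
  unfold c at hk
  simpa using hk

lemma c_dense (x : C) (n : ℕ) : ∃ m, agree n (c m) x := by
  refine ⟨ff.symm ((Finset.range n).filter (fun k => x k = false)), fun k hk => ?_⟩
  unfold c
  rw [Equiv.apply_symm_apply]
  cases hx : x k <;> simp [hk, hx]

/-- The partial bijection coded by `g`: the values `g i` at the cofinite sets `c i`. -/
def P (g : ℕ → C) (x y : C) : Prop :=
  (∀ n, ∃ m, ∀ i, agree m (c i) x → agree n (g i) y) ∧
    (∀ n, ∃ m, ∀ i, agree m (g i) y → agree n (c i) x)

lemma P_right {g : ℕ → C} {x y y' : C} (h : P g x y) (h' : P g x y') : y = y' := by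
  refine eq_of_agree fun n => ?_
  obtain ⟨m, hm⟩ := h.1 n
  obtain ⟨m', hm'⟩ := h'.1 n
  obtain ⟨i, hi⟩ := c_dense x (max m m')
  exact agree_trans (agree_symm (hm i (agree_mono (le_max_left _ _) hi)))
    (hm' i (agree_mono (le_max_right _ _) hi))

lemma P_left {g : ℕ → C} {x x' y : C} (h : P g x y) (h' : P g x' y) : x = x' := by
  refine eq_of_agree fun n => ?_
  obtain ⟨m, hm⟩ := h.2 n
  obtain ⟨m', hm'⟩ := h'.2 n
  obtain ⟨M, hM⟩ := h.1 (max m m')
  obtain ⟨i, hi⟩ := c_dense x M
  have h3 := hM i hi
  exact agree_trans (agree_symm (hm i (agree_mono (le_max_left _ _) h3)))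
    (hm' i (agree_mono (le_max_right _ _) h3))

/-- the limit function -/
noncomputable def L (g : ℕ → C) (x : C) : C := fun k =>
  @decide (∃ m, ∀ i, agree m (c i) x → g i k = true) (Classical.propDecidable _)

lemma L_true {g : ℕ → C} {x : C} {k : ℕ} :
    L g x k = true ↔ ∃ m, ∀ i, agree m (c i) x → g i k = true := by
  unfold L
  exact @decide_eq_true_iff _ (Classical.propDecidable _)

lemma P_L {g : ℕ → C} {x y : C} (h : P g x y) : y = L g x := by
  funext k
  obtain ⟨m, hm⟩ := h.1 (k + 1)
  cases hy : y k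
  · symm
    by_contra hcon
    have hcon' : L g x k = true := by simpa using hcon
    obtain ⟨m', hm'⟩ := L_true.1 hcon'
    obtain ⟨i, hi⟩ := c_dense x (max m m')
    have h1 := hm i (agree_mono (le_max_left _ _) hi) k (Nat.lt_succ_self k)
    have h2 := hm' i (agree_mono (le_max_right _ _) hi)
    rw [h1, hy] at h2
    exact Bool.false_ne_true h2
  · symm
    refine L_true.2 ⟨m, fun i hi => ?_⟩
    rw [hm i hi k (Nat.lt_succ_self k), hy]

lemma meas_agree_const (n : ℕ) (y : C) : MeasurableSet {x : C | agree n y x} := by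
  have : {x : C | agree n y x} = ⋂ k ∈ Finset.range n, {x : C | x k = y k} := by
    ext x
    simp only [mem_ofPred_eq, mem_iInter, Finset.mem_range, agree]
    exact ⟨fun h k hk => (h k hk).symm, fun h k hk => (h k hk).symm⟩
  rw [this]
  exact Finset.measurableSet_biInter _ fun k _ => measurable_eval_eq k _

lemma L_meas (g : ℕ → C) : Measurable (L g) := by
  refine measurable_pi_lambda _ fun k => ?_
  refine measurable_to_bool ?_
  have : (fun x : C => L g x k) ⁻¹' {true} =
      ⋃ m : ℕ, ⋂ i : ℕ, {x : C | agree m (c i) x → g i k = true} := by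
    ext x
    simp only [mem_preimage, mem_singleton_iff, L_true, mem_iUnion, mem_iInter,
      mem_ofPred_eq]
  rw [this]
  refine MeasurableSet.iUnion fun m => MeasurableSet.iInter fun i => ?_
  by_cases hg : g i k = true
  · have : {x : C | agree m (c i) x → g i k = true} = univ := by
      ext x
      simp [hg]
    rw [this]
    exact MeasurableSet.univ
  · have : {x : C | agree m (c i) x → g i k = true} = {x : C | agree m (c i) x}ᶜ := by
      ext x
      simp [hg]
    rw [this]
    exact (meas_agree_const m (c i)).compl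

lemma meas_agree_L (g : ℕ → C) (n : ℕ) (y : C) : MeasurableSet {x : C | agree n y (L g x)} :=
  (L_meas g) (meas_agree_const n y)

/-- the domain, restricted to values containing `0` -/
def G (g : ℕ → C) : Set C := {x | P g x (L g x) ∧ L g x 0 = true}

lemma G_meas (g : ℕ → C) : MeasurableSet (G g) := by
  have : G g = ((⋂ n : ℕ, ⋃ m : ℕ, ⋂ i : ℕ, ({x : C | agree m (c i) x}ᶜ ∪ {x : C | agree n (g i) (L g x)})) ∩
      (⋂ n : ℕ, ⋃ m : ℕ, ⋂ i : ℕ, ({x : C | agree m (g i) (L g x)}ᶜ ∪ {x : C | agree n (c i) x}))) ∩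
      {x : C | L g x 0 = true} := by
    ext x
    simp only [G, P, mem_ofPred_eq, mem_inter_iff, mem_iInter, mem_iUnion, mem_union, mem_compl_iff,
      imp_iff_not_or]
  rw [this]
  refine MeasurableSet.inter (MeasurableSet.inter ?_ ?_) ?_
  · exact MeasurableSet.iInter fun n => MeasurableSet.iUnion fun m => MeasurableSet.iInter fun i =>
      (meas_agree_const m (c i)).compl.union (meas_agree_L g n (g i))
  · exact MeasurableSet.iInter fun n => MeasurableSet.iUnion fun m => MeasurableSet.iInter fun i =>
      (meas_agree_L g m (g i)).compl.union (meas_agree_const n (c i))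
  · exact (L_meas g) (measurable_eval_eq 0 true)

/-- the part of the domain on which the value differs from the point by the finite set `F` -/
def GF (g : ℕ → C) (F : Finset ℕ) : Set C := {x | x ∈ G g ∧ ∀ k, x k ≠ L g x k ↔ k ∈ F}

lemma GF_meas (g : ℕ → C) (F : Finset ℕ) : MeasurableSet (GF g F) := by
  have hne : ∀ k, MeasurableSet {x : C | x k ≠ L g x k} := by
    intro k
    have h1 : Measurable (fun x : C => x k) := measurable_pi_apply k
    have h2 : Measurable (fun x : C => L g x k) := (measurable_pi_apply k).comp (L_meas g)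
    exact (measurableSet_eq_fun h1 h2).compl
  have : GF g F = G g ∩ ⋂ k : ℕ, {x : C | x k ≠ L g x k ↔ k ∈ F} := by
    ext x
    simp only [GF, mem_ofPred_eq, mem_inter_iff, mem_iInter]
  rw [this]
  refine (G_meas g).inter (MeasurableSet.iInter fun k => ?_)
  by_cases hk : k ∈ F
  · have : {x : C | x k ≠ L g x k ↔ k ∈ F} = {x : C | x k ≠ L g x k} := by
      ext x
      simp [hk]
    rw [this]
    exact hne k
  · have : {x : C | x k ≠ L g x k ↔ k ∈ F} = {x : C | x k ≠ L g x k}ᶜ := by
      ext x
      simp [hk]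
    rw [this]
    exact (hne k).compl

/-- the part of the domain where the value is not a finite modification of the point -/
def Cg (g : ℕ → C) : Set C := {x | x ∈ G g ∧ ¬ {k | x k ≠ L g x k}.Finite}

lemma Cg_eq (g : ℕ → C) : Cg g = G g \ ⋃ F : Finset ℕ, GF g F := by
  ext x
  simp only [Cg, mem_ofPred_eq, Set.mem_sdiff, mem_iUnion, GF, not_exists, not_and]
  constructor
  · rintro ⟨h1, h2⟩
    refine ⟨h1, fun F _ h3 => h2 ?_⟩
    refine F.finite_toSet.subset fun k hk => ?_
    exact (h3 k).1 hk
  · rintro ⟨h1, h2⟩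
    refine ⟨h1, fun hfin => ?_⟩
    refine h2 hfin.toFinset h1 fun k => ?_
    rw [Set.Finite.mem_toFinset]
    rfl

lemma Cg_meas (g : ℕ → C) : MeasurableSet (Cg g) := by
  rw [Cg_eq]
  exact (G_meas g).diff (MeasurableSet.iUnion fun F => GF_meas g F)

/-- translation by a finite set -/
def tau (F : Finset ℕ) (x : C) : C := fun k => xor (x k) (decide (k ∈ F))

lemma tau_tau (F : Finset ℕ) (x : C) : tau F (tau F x) = x := by
  funext k
  unfold tau
  cases x k <;> cases decide (k ∈ F) <;> rfl

lemma tau_meas (F : Finset ℕ) : Measurable (tau F) := by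
  refine measurable_pi_lambda _ fun k => ?_
  have h4 : Measurable (fun b : Bool => xor b (decide (k ∈ F))) := measurable_of_countable _
  exact h4.comp (measurable_pi_apply k)

lemma tau_preserves (F : Finset ℕ) {A : Set C} (hA : MeasurableSet A) :
    mu (tau F ⁻¹' A) = mu A := by
  have h : mu.map (tau F) = mu := mu_map_xor (fun k => decide (k ∈ F))
  nth_rewrite 2 [← h]
  rw [Measure.map_apply (tau_meas F) hA]

lemma GF_L {g : ℕ → C} {F : Finset ℕ} {x : C} (hx : x ∈ GF g F) : L g x = tau F x := by
  funext k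
  have h := hx.2 k
  unfold tau
  by_cases hk : k ∈ F
  · have h1 := h.2 hk
    revert h1
    cases x k <;> cases L g x k <;> simp [hk]
  · have h1 : ¬ (x k ≠ L g x k) := fun h2 => hk (h.1 h2)
    push Not at h1
    rw [← h1]
    simp [hk]

lemma sum_GF_le (g : ℕ → C) : mu (⋃ F : Finset ℕ, GF g F) ≤ 2⁻¹ := by
  refine (measure_iUnion_le _).trans ?_
  have h1 : ∑' F : Finset ℕ, mu (GF g F) = ∑' F : Finset ℕ, mu (tau F ⁻¹' GF g F) :=
    tsum_congr fun F => (tau_preserves F (GF_meas g F)).symm
  rw [h1, ← measure_iUnion]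
  · have hsub : (⋃ F : Finset ℕ, tau F ⁻¹' GF g F) ⊆ {z : C | ∀ k ∈ ({0} : Finset ℕ), z k = top k} := by
      intro z hz
      obtain ⟨F, hF⟩ := mem_iUnion.1 hz
      have h2 := GF_L hF
      rw [tau_tau] at h2
      have h3 := hF.1.2
      rw [h2] at h3
      intro k hk
      rw [Finset.mem_singleton] at hk
      rw [hk, h3]
      rfl
    refine (measure_mono hsub).trans ?_
    have h4 := mu_cyl {0} top
    rw [← ENNReal.ofReal_toReal (measure_ne_top mu _)]
    unfold Measure.real at h4
    rw [h4, Finset.card_singleton, pow_one, one_div, ENNReal.ofReal_inv_of_pos (by norm_num),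
      ENNReal.ofReal_ofNat]
  · intro F F' hFF'
    rw [Function.onFun, Set.disjoint_left]
    intro z hz hz'
    apply hFF'
    have h2 := GF_L hz
    rw [tau_tau] at h2
    have h2' := GF_L hz'
    rw [tau_tau] at h2'
    have h3 : P g (tau F z) z := by
      have := hz.1.1
      rwa [h2] at this
    have h3' : P g (tau F' z) z := by
      have := hz'.1.1
      rwa [h2'] at this
    have h4 := P_left h3 h3'
    ext k
    rw [← hz.2 k, ← hz'.2 k, h2, h2', h4]
  · intro F
    exact (tau_meas F) (GF_meas g F)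

/-- closed sets coded by sets of cylinders -/
def KA (A : Set (ℕ × Finset ℕ)) : Set C :=
  {x | ∀ p ∈ A, ¬ ∀ k < p.1, x k = decide (k ∈ p.2)}

lemma KA_closed (A : Set (ℕ × Finset ℕ)) : IsClosed (KA A) := by
  have : KA A = ⋂ p ∈ A, (⋂ k ∈ Finset.range p.1, {x : C | x k = decide (k ∈ p.2)})ᶜ := by
    ext x
    simp only [KA, mem_ofPred_eq, mem_iInter, mem_compl_iff, Finset.mem_range]
  rw [this]
  refine isClosed_biInter fun p _ => ?_
  rw [isClosed_compl_iff]
  refine isOpen_biInter_finset fun k _ => ?_
  have h1 : Continuous (fun x : C => x k) := continuous_apply k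
  exact (isOpen_discrete ({decide (k ∈ p.2)} : Set Bool)).preimage h1

lemma exists_KA {K : Set C} (hK : IsClosed K) : ∃ A, KA A = K := by
  classical
  refine ⟨{p | ∀ x ∈ K, ¬ ∀ k < p.1, x k = decide (k ∈ p.2)}, ?_⟩
  ext x
  constructor
  · intro hx
    by_contra hxK
    have hopen : IsOpen Kᶜ := hK.isOpen_compl
    obtain ⟨u, ⟨z, n, rfl⟩, hu1, hu2⟩ :=
      (PiNat.isTopologicalBasis_cylinders (fun _ => Bool)).exists_subset_of_mem_open hxK hopen
    have hx2 := hx (n, (Finset.range n).filter (fun k => x k = true)) (by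
      intro y hy hcon
      have h1 : y ∈ PiNat.cylinder (E := fun _ => Bool) z n := by
        rw [PiNat.mem_cylinder_iff] at hu1 ⊢
        intro i hi
        rw [← hu1 i hi, hcon i hi]
        cases hxi : x i <;> simp [hi, hxi]
      exact hu2 h1 hy)
    apply hx2
    intro k hk
    simp only at hk
    cases hxk : x k <;> simp [hk, hxk]
  · intro hx p hp
    exact hp x hx

end Pool.Agent.V11327.SF
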