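import Mathlib
import Pool.Agent.V11327.SFmeas

open MeasureTheory Set Filter
open scoped ENNReal Topology

namespace Pool.Agent.V11327.SF

instance : PolishSpace C where

lemma pt_cont (k : ℕ) : Continuous (fun t : C => pt t k) := by
  rw [continuous_discrete_rng]
  intro b
  rw [isOpen_iff_forall_mem_open]
  intro t ht
  refine ⟨PiNat.cylinder (E := fun _ => Bool) t ((e k).1), ?_,
    PiNat.isOpen_cylinder (E := fun _ => Bool) t _, PiNat.self_mem_cylinder t _⟩
  intro t' ht'
  rw [PiNat.mem_cylinder_iff] at ht'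
  have h1 : pt t' k = pt t k := pt_congr ht' (mem_B.2 rfl)
  rw [mem_preimage, mem_singleton_iff] at ht ⊢
  rw [h1, ht]

lemma sh_cont : Continuous (fun p : C × C => sh p.1 p.2) := by
  refine continuous_pi fun k => ?_
  have h1 : Continuous (fun p : C × C => (p.1 k, pt p.2 k)) :=
    ((continuous_apply k).comp continuous_fst).prodMk ((pt_cont k).comp continuous_snd)
  have h2 : Continuous (fun q : Bool × Bool => xor q.1 q.2) := continuous_of_discreteTopology
  exact h2.comp h1

lemma sh_inj {z t t' : C} (h : sh z t = sh z t') : t = t' := by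
  by_contra hne
  obtain ⟨i0, hi0⟩ := Function.ne_iff.1 hne
  have h1 := balanced (Nat.lt_succ_self i0) hi0
  have h2 : (B (i0 + 1)).filter (fun k => pt t k = pt t' k) = B (i0 + 1) := by
    refine Finset.filter_true_of_mem fun k _ => ?_
    have h3 := congrFun h k
    unfold sh at h3
    revert h3
    cases z k <;> cases pt t k <;> cases pt t' k <;> simp
  rw [Nat.succ_eq_add_one, h2] at h1
  have h4 := card_B (i0 + 1)
  have h5 : 0 < 16 ^ (i0 + 1) := by positivity
  omega

/-- A closed set of positive measure contains a continuum of pairwise independent sets. -/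
theorem perfect (K : Set C) (hK : IsClosed K) (hpos : 0 < mu K) :
    ∃ f : C → C, Function.Injective f ∧ (∀ s, f s ∈ K) ∧ (∀ s, f s ∉ Up0 ∧ f s ∉ Low0) ∧
      ∀ s s', s ≠ s' → inf' (f s) (f s') ∈ Low0 ∧ sup' (f s) (f s') ∈ Up0 := by
  set A : Set (C × C) := {p | sh p.1 p.2 ∈ K} with hA
  have hAc : IsClosed A := hK.preimage sh_cont
  have hAm : MeasurableSet A := hAc.measurableSet
  have hslice : ∀ t : C, mu ((fun z => (z, t)) ⁻¹' A) = mu K := by
    intro t
    have h1 : (fun z : C => (z, t)) ⁻¹' A = (fun (z : C) k => xor (z k) (pt t k)) ⁻¹' K := rfl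
    rw [h1]
    have h2 := mu_map_xor (pt t)
    have h3 : Measurable (fun (z : C) k => xor (z k) (pt t k)) := by
      refine measurable_pi_lambda _ fun k => ?_
      have h4 : Measurable (fun c : Bool => xor c (pt t k)) := measurable_of_countable _
      exact h4.comp (measurable_pi_apply k)
    nth_rewrite 2 [← h2]
    rw [Measure.map_apply h3 hK.measurableSet]
  have htot : ∫⁻ z, mu (Prod.mk z ⁻¹' A) ∂mu = mu K := by
    rw [← Measure.prod_apply hAm, Measure.prod_apply_symm hAm]
    simp only [hslice, lintegral_const, measure_univ, mul_one]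
  obtain ⟨z, hz, hTz⟩ : ∃ z, (∀ᶠ n in atTop, z ∉ BadB n) ∧ mu (Prod.mk z ⁻¹' A) ≠ 0 := by
    by_contra hcon
    push Not at hcon
    have h1 : ∀ᵐ z ∂mu, mu (Prod.mk z ⁻¹' A) = 0 := by
      filter_upwards [ae_good] with z hz using hcon z hz
    have h2 : ∫⁻ z, mu (Prod.mk z ⁻¹' A) ∂mu = 0 := by
      rw [lintegral_congr_ae h1]
      simp
    rw [htot] at h2
    exact hpos.ne' h2
  have hTc : IsClosed (Prod.mk z ⁻¹' A) := hAc.preimage (Continuous.prodMk_right z)
  have hunc : ¬ (Prod.mk z ⁻¹' A).Countable := fun h => hTz (h.measure_zero mu)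
  obtain ⟨f0, hf1, -, hf2⟩ := hTc.exists_nat_bool_injection_of_not_countable hunc
  refine ⟨fun s => sh z (f0 s), ?_, ?_, ?_, ?_⟩
  · intro s s' h
    exact hf2 (sh_inj h)
  · intro s
    exact hf1 ⟨s, rfl⟩
  · intro s
    constructor
    · intro h
      have h' : ∀ᶠ n in atTop, 5 * (B n).card ≤ 8 * tc (sh z (f0 s)) n := h
      obtain ⟨n, h1, h2⟩ := (h'.and hz).exists
      have := (tc_sh h2 (f0 s)).2
      omega
    · intro h
      have h' : ∀ᶠ n in atTop, 8 * tc (sh z (f0 s)) n ≤ 3 * (B n).card := h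
      obtain ⟨n, h1, h2⟩ := (h'.and hz).exists
      have := (tc_sh h2 (f0 s)).1
      omega
  · intro s s' hss
    have hne : f0 s ≠ f0 s' := fun h => hss (hf2 h)
    obtain ⟨i0, hi0⟩ := Function.ne_iff.1 hne
    constructor
    · change ∀ᶠ n in atTop, 8 * tc (inf' (sh z (f0 s)) (sh z (f0 s'))) n ≤ 3 * (B n).card
      filter_upwards [hz, eventually_gt_atTop i0] with n h1 h2
      exact (tc_pair h1 ⟨i0, h2, hi0⟩).1
    · change ∀ᶠ n in atTop, 5 * (B n).card ≤ 8 * tc (sup' (sh z (f0 s)) (sh z (f0 s'))) n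
      filter_upwards [hz, eventually_gt_atTop i0] with n h1 h2
      exact (tc_pair h1 ⟨i0, h2, hi0⟩).2

end Pool.Agent.V11327.SF
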