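import Mathlib
import Pool.Agent.V11327.SFperf
import Pool.Agent.V11327.SFcode

open MeasureTheory Set Filter Cardinal
open scoped ENNReal Topology

namespace Pool.Agent.V11327.SF

/-- the tasks -/
abbrev Task := (ℕ → C) ⊕ Set (ℕ × Finset ℕ)

/-- the index set, a well-order of type `𝔠` -/
abbrev I := (Cardinal.continuum : Cardinal.{0}).ord.ToType

lemma mk_C : #C = 𝔠 := by
  simp [C, Cardinal.mk_pi]

lemma mk_Task : #Task = 𝔠 := by
  have h1 : #(ℕ → C) = 𝔠 := by
    have : #(ℕ → C) = #C ^ #ℕ := by simp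
    rw [this, mk_C, Cardinal.mk_nat, Cardinal.continuum_power_aleph0]
  have h2 : #(Set (ℕ × Finset ℕ)) = 𝔠 := by
    rw [Cardinal.mk_set, Cardinal.mk_eq_aleph0, Cardinal.two_power_aleph0]
  rw [Cardinal.mk_sum, Cardinal.lift_id, Cardinal.lift_id, h1, h2, Cardinal.continuum_add_self]

/-- enumeration of the tasks -/
noncomputable def task : I ≃ Task :=
  (Cardinal.eq.1 (by rw [Cardinal.mk_ord_toType, mk_Task])).some

/-- the requirement of a task -/
def Req : Task → C → C → Prop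
  | Sum.inl g, s, n => 0 < mu (Cg g) → ∃ x y, P g x y ∧ y 0 = true ∧
      ((s = x ∧ n = y) ∨ (s = y ∧ n = x))
  | Sum.inr A, s, _ => 0 < mu (KA A) → s ∈ KA A

/-- the requirement at stage `i` -/
def GoodP (i : I) (prev : ∀ j, j < i → C × C) (pr : C × C) : Prop :=
  pr.1 ∉ Low0 ∧ pr.2 ∉ Up0 ∧ ¬ aSub pr.1 pr.2 ∧
    (∀ j (h : j < i), ¬ aSub pr.1 (prev j h).2 ∧ ¬ aSub (prev j h).1 pr.2) ∧
    Req (task i) pr.1 pr.2

open Classical in
/-- the recursion -/
noncomputable def F : I → C × C :=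
  IsWellFounded.fix (· < · : I → I → Prop) (fun i prev =>
    if h : ∃ pr : C × C, GoodP i prev pr then h.choose else (top, bot))

lemma F_spec (i : I) (h : ∃ pr : C × C, GoodP i (fun j _ => F j) pr) :
    GoodP i (fun j _ => F j) (F i) := by
  classical
  have h1 := IsWellFounded.fix_eq (· < · : I → I → Prop) (fun i (prev : ∀ j, j < i → C × C) =>
    if h : ∃ pr : C × C, GoodP i prev pr then h.choose else (top, bot)) i
  have h2 : F i = if h : ∃ pr : C × C, GoodP i (fun j _ => F j) pr then h.choose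
      else (top, bot) := h1
  rw [dif_pos h] at h2
  rw [h2]
  exact h.choose_spec

/-- what is known before stage `i` -/
structure Inv (i : I) : Prop where
  low : ∀ j < i, (F j).1 ∉ Low0
  up : ∀ j < i, (F j).2 ∉ Up0
  cross : ∀ j < i, ∀ k < i, ¬ aSub (F j).1 (F k).2

/-- undecided points before stage `i` -/
def Und (i : I) (x : C) : Prop :=
  x ∉ Up0 ∧ x ∉ Low0 ∧ ∀ j < i, ¬ aSub (F j).1 x ∧ ¬ aSub x (F j).2

lemma aSub_inf {x y z : C} (h1 : aSub x y) (h2 : aSub x z) : aSub x (inf' y z) := by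
  unfold aSub at *
  refine (h1.union h2).subset ?_
  rintro k ⟨hx, hyz⟩
  unfold inf' at hyz
  rw [Bool.and_eq_false_iff] at hyz
  rcases hyz with h | h
  · exact Or.inl ⟨hx, h⟩
  · exact Or.inr ⟨hx, h⟩

lemma aSub_sup {x y z : C} (h1 : aSub y x) (h2 : aSub z x) : aSub (sup' y z) x := by
  unfold aSub at *
  refine (h1.union h2).subset ?_
  rintro k ⟨hyz, hx⟩
  unfold sup' at hyz
  rw [Bool.or_eq_true] at hyz
  rcases hyz with h | h
  · exact Or.inl ⟨h, hx⟩
  · exact Or.inr ⟨h, hx⟩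

lemma exists_Und {i : I} (hI : Inv i) {K : Set C} (hK : IsClosed K) (hpos : 0 < mu K) :
    ∃ x ∈ K, Und i x := by
  classical
  obtain ⟨f, hf1, hf2, hf3, hf4⟩ := perfect K hK hpos
  by_contra hcon
  push Not at hcon
  have hdec : ∀ s : C, ∃ q : Iio i ⊕ Iio i,
      (∀ j, q = Sum.inl j → aSub (F j.1).1 (f s)) ∧ (∀ j, q = Sum.inr j → aSub (f s) (F j.1).2) := by
    intro s
    have h1 := hcon (f s) (hf2 s)
    unfold Und at h1
    push Not at h1
    obtain ⟨j, hj, h2⟩ := h1 (hf3 s).1 (hf3 s).2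
    by_cases h3 : aSub (F j).1 (f s)
    · refine ⟨Sum.inl ⟨j, hj⟩, ?_, ?_⟩
      · intro j' hj'
        have := Sum.inl.inj hj'
        rw [← this]
        exact h3
      · intro j' hj'
        exact absurd hj' (by simp)
    · refine ⟨Sum.inr ⟨j, hj⟩, ?_, ?_⟩
      · intro j' hj'
        exact absurd hj' (by simp)
      · intro j' hj'
        have := Sum.inr.inj hj'
        rw [← this]
        exact h2 h3
  choose φ hφ1 hφ2 using hdec
  have hinj : Function.Injective φ := by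
    intro s s' hss
    by_contra hne
    obtain ⟨h5, h6⟩ := hf4 s s' hne
    rcases hq : φ s with j | j
    · have h7 := hφ1 s j hq
      have h8 := hφ1 s' j (by rw [← hss, hq])
      exact hI.low j.1 j.2 (Low0_down h5 (aSub_inf h7 h8))
    · have h7 := hφ2 s j hq
      have h8 := hφ2 s' j (by rw [← hss, hq])
      exact hI.up j.1 j.2 (Up0_up h6 (aSub_sup h7 h8))
  have hcard := Cardinal.mk_le_of_injective hinj
  rw [mk_C, Cardinal.mk_sum, Cardinal.lift_id] at hcard
  have hlt : #(Iio i) < 𝔠 := Cardinal.mk_Iio_toType_ord_lt i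
  exact absurd hcard (not_le.2 (Cardinal.add_lt_of_lt Cardinal.aleph0_le_continuum hlt hlt))

lemma exists_pair {i : I} (hI : Inv i) {x y : C} (hx : Und i x)
    (hxy : ¬ (aSub x y ∧ aSub y x)) :
    ((x ∉ Low0 ∧ y ∉ Up0 ∧ ¬ aSub x y ∧ ∀ j, j < i → ¬ aSub x (F j).2 ∧ ¬ aSub (F j).1 y) ∨
      (y ∉ Low0 ∧ x ∉ Up0 ∧ ¬ aSub y x ∧ ∀ j, j < i → ¬ aSub y (F j).2 ∧ ¬ aSub (F j).1 x)) := by
  obtain ⟨hx1, hx2, hx3⟩ := hx
  by_contra hcon
  rw [not_or] at hcon
  obtain ⟨hc1, hc2⟩ := hcon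
  -- first failure
  have h1 : y ∈ Up0 ∨ aSub x y ∨ ∃ j < i, aSub (F j).1 y := by
    by_contra h
    push Not at h
    exact hc1 ⟨hx2, h.1, h.2.1, fun j hj => ⟨(hx3 j hj).2, h.2.2 j hj⟩⟩
  have h2 : y ∈ Low0 ∨ aSub y x ∨ ∃ j < i, aSub y (F j).2 := by
    by_contra h
    push Not at h
    exact hc2 ⟨h.1, hx1, h.2.1, fun j hj => ⟨h.2.2 j hj, (hx3 j hj).1⟩⟩
  rcases h1 with h1 | h1 | ⟨j, hj, h1⟩ <;> rcases h2 with h2 | h2 | ⟨k, hk, h2⟩
  · exact disj0 h1 h2
  · exact hx1 (Up0_up h1 h2)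
  · exact hI.up k hk (Up0_up h1 h2)
  · exact hx2 (Low0_down h2 h1)
  · exact hxy ⟨h1, h2⟩
  · exact (hx3 k hk).2 (aSub_trans h1 h2)
  · exact hI.low j hj (Low0_down h2 h1)
  · exact (hx3 j hj).1 (aSub_trans h1 h2)
  · exact hI.cross j hj k hk (aSub_trans h1 h2)

lemma trivial_pair {i : I} (hI : Inv i) :
    top ∉ Low0 ∧ bot ∉ Up0 ∧ ¬ aSub top bot ∧
      ∀ j, j < i → ¬ aSub top (F j).2 ∧ ¬ aSub (F j).1 bot := by
  refine ⟨fun h => disj0 top_mem h, fun h => disj0 h bot_mem, fun h => ?_, fun j hj => ⟨?_, ?_⟩⟩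
  · exact disj0 (Up0_up top_mem h) bot_mem
  · intro h
    exact hI.up j hj (Up0_up top_mem h)
  · intro h
    exact hI.low j hj (Low0_down bot_mem h)

lemma exists_good {i : I} (hI : Inv i) : ∃ pr : C × C, GoodP i (fun j _ => F j) pr := by
  rcases hτ : task i with g | A
  · by_cases hpos : 0 < mu (Cg g)
    · obtain ⟨K, hK1, hK2, hK3⟩ := (Cg_meas g).exists_lt_isClosed_of_ne_top (measure_ne_top mu _) hpos
      obtain ⟨x, hxK, hx⟩ := exists_Und hI hK2 hK3
      have hxC := hK1 hxK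
      have hne : ¬ (aSub x (L g x) ∧ aSub (L g x) x) := by
        rintro ⟨h1, h2⟩
        apply hxC.2
        unfold aSub at h1 h2
        refine (h1.union h2).subset ?_
        intro k hk
        have hk' : x k ≠ L g x k := hk
        cases hxk : x k
        · right
          refine ⟨?_, hxk⟩
          rw [hxk] at hk'
          cases hl : L g x k
          · exact absurd hl.symm hk'
          · rfl
        · left
          refine ⟨hxk, ?_⟩
          rw [hxk] at hk'
          cases hl : L g x k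
          · rfl
          · exact absurd hl.symm hk'
      rcases exists_pair hI hx hne with ⟨h1, h2, h3, h4⟩ | ⟨h1, h2, h3, h4⟩
      · refine ⟨(x, L g x), h1, h2, h3, h4, ?_⟩
        rw [hτ]
        intro _
        exact ⟨x, L g x, hxC.1.1, hxC.1.2, Or.inl ⟨rfl, rfl⟩⟩
      · refine ⟨(L g x, x), h1, h2, h3, h4, ?_⟩
        rw [hτ]
        intro _
        exact ⟨x, L g x, hxC.1.1, hxC.1.2, Or.inr ⟨rfl, rfl⟩⟩
    · obtain ⟨h1, h2, h3, h4⟩ := trivial_pair hI
      refine ⟨(top, bot), h1, h2, h3, h4, ?_⟩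
      rw [hτ]
      intro h
      exact absurd h hpos
  · by_cases hpos : 0 < mu (KA A)
    · obtain ⟨x, hxK, hx⟩ := exists_Und hI (KA_closed A) hpos
      refine ⟨(x, bot), hx.2.1, fun h => disj0 h bot_mem, fun h => hx.2.1 (Low0_down bot_mem h),
        fun j hj => ⟨(hx.2.2 j hj).2, fun h => hI.low j hj (Low0_down bot_mem h)⟩, ?_⟩
      rw [hτ]
      intro _
      exact hxK
    · obtain ⟨h1, h2, h3, h4⟩ := trivial_pair hI
      refine ⟨(top, bot), h1, h2, h3, h4, ?_⟩
      rw [hτ]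
      intro h
      exact absurd h hpos

lemma F_good (i : I) : GoodP i (fun j _ => F j) (F i) := by
  induction i using WellFoundedLT.induction with
  | ind i ih =>
    refine F_spec i (exists_good ⟨?_, ?_, ?_⟩)
    · intro j hj
      exact (ih j hj).1
    · intro j hj
      exact (ih j hj).2.1
    · intro j hj k hk
      rcases lt_trichotomy j k with h | h | h
      · exact ((ih k hk).2.2.2.1 j h).2
      · subst h
        exact (ih j hj).2.2.1
      · exact ((ih j hj).2.2.2.1 k h).1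

lemma F_cross (j k : I) : ¬ aSub (F j).1 (F k).2 := by
  rcases lt_trichotomy j k with h | h | h
  · exact ((F_good k).2.2.2.1 j h).2
  · subst h
    exact (F_good j).2.2.1
  · exact ((F_good j).2.2.2.1 k h).1

/-- the semifilter -/
def S : Set C := {z | z ∈ Up0 ∨ ∃ i, aSub (F i).1 z}

lemma not_mem_S (k : I) : (F k).2 ∉ S := by
  rintro (h | ⟨i, h⟩)
  · exact (F_good k).2.1 h
  · exact F_cross i k h

lemma mem_S (k : I) : (F k).1 ∈ S := Or.inr ⟨k, aSub_refl _⟩

lemma S_up {x y : C} (hx : x ∈ S) (h : aSub x y) : y ∈ S := by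
  rcases hx with hx | ⟨i, hx⟩
  · exact Or.inl (Up0_up hx h)
  · exact Or.inr ⟨i, aSub_trans hx h⟩

lemma S_disj {x : C} (hx : x ∈ S) (h : x ∈ Low0) : False := by
  rcases hx with hx | ⟨i, hx⟩
  · exact disj0 hx h
  · exact (F_good i).1 (Low0_down h hx)

lemma S_semifilter : IsSemifilter S where
  nonempty := ⟨top, Or.inl top_mem⟩
  infinite := by
    intro x hx hfin
    refine S_disj hx (Low0_down bot_mem ?_)
    unfold aSub
    refine hfin.subset ?_
    rintro k ⟨hk, -⟩
    exact hk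
  up := fun x hx y h => S_up hx h

end Pool.Agent.V11327.SF
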