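import Mathlib
import Pool.Agent.V11327.SFrec

open MeasureTheory Set Filter
open scoped ENNReal Topology

namespace Pool.Agent.V11327.SF

/-- Continuity in terms of agreement. -/
lemma cont_agree {A B' : Set C} {h : A → B'} (hc : Continuous h) (x : A) (n : ℕ) :
    ∃ m, ∀ y : A, agree m y.1 x.1 → agree n (h y).1 (h x).1 := by
  have hopen : IsOpen (PiNat.cylinder (E := fun _ => Bool) (h x).1 n) :=
    PiNat.isOpen_cylinder (E := fun _ => Bool) _ _
  have h1 : IsOpen ((fun y : A => (h y).1) ⁻¹' PiNat.cylinder (E := fun _ => Bool) (h x).1 n) :=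
    hopen.preimage (continuous_subtype_val.comp hc)
  obtain ⟨V, hV, hV2⟩ := isOpen_induced_iff.1 h1
  have hxV : x.1 ∈ V := by
    have : x ∈ Subtype.val ⁻¹' V := by
      rw [hV2]
      exact PiNat.self_mem_cylinder _ _
    exact this
  obtain ⟨u, ⟨z, m, rfl⟩, hu1, hu2⟩ :=
    (PiNat.isTopologicalBasis_cylinders (fun _ => Bool)).exists_subset_of_mem_open hxV hV
  refine ⟨m, fun y hy => ?_⟩
  have h2 : y.1 ∈ PiNat.cylinder (E := fun _ => Bool) z m := by
    rw [PiNat.mem_cylinder_iff] at hu1 ⊢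
    intro i hi
    rw [← hu1 i hi]
    exact hy i hi
  have h3 : y ∈ (fun y : A => (h y).1) ⁻¹' PiNat.cylinder (E := fun _ => Bool) (h x).1 n := by
    rw [← hV2]
    exact hu2 h2
  have h4 : (h y).1 ∈ PiNat.cylinder (E := fun _ => Bool) (h x).1 n := h3
  rw [PiNat.mem_cylinder_iff] at h4
  exact h4

/-- the clopen subset -/
def U : Set S := {x | x.1 0 = true}

lemma U_clopen : IsClopen U := by
  have h1 : Continuous (fun x : S => x.1 0) := (continuous_apply 0).comp continuous_subtype_val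
  have h2 : IsClopen ({true} : Set Bool) := isClopen_discrete _
  exact h2.preimage h1

lemma U_nonempty : U.Nonempty := ⟨⟨top, Or.inl top_mem⟩, rfl⟩

lemma c_S (i : ℕ) : c i ∈ S := Or.inl (c_mem i)

theorem no_homeo (h : U ≃ₜ S) : False := by
  -- the inverse map `S → U ⊆ S ⊆ C`
  set k : S → C := fun x => ((h.symm x).1).1 with hk
  have hkS : ∀ x, k x ∈ S := fun x => (h.symm x).1.2
  have hk0 : ∀ x, k x 0 = true := fun x => (h.symm x).2
  set g : ℕ → C := fun i => k ⟨c i, c_S i⟩ with hg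
  -- view everything as maps between subsets of `C`
  set U' : Set C := {z | z ∈ S ∧ z 0 = true} with hU'
  have hcont1 : Continuous (fun x : S => (⟨k x, hkS x, hk0 x⟩ : U')) := by
    refine Continuous.subtype_mk ?_ _
    exact continuous_subtype_val.comp (continuous_subtype_val.comp h.symm.continuous)
  have hcont2 : Continuous (fun y : U' => h ⟨⟨y.1, y.2.1⟩, y.2.2⟩) := by
    refine h.continuous.comp ?_
    refine Continuous.subtype_mk ?_ _
    exact Continuous.subtype_mk continuous_subtype_val _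
  have hP : ∀ x : S, P g x.1 (k x) := by
    intro x
    constructor
    · intro n
      obtain ⟨m, hm⟩ := cont_agree hcont1 x n
      exact ⟨m, fun i hi => hm ⟨c i, c_S i⟩ hi⟩
    · intro n
      obtain ⟨m, hm⟩ := cont_agree hcont2 ⟨k x, hkS x, hk0 x⟩ n
      refine ⟨m, fun i hi => ?_⟩
      have h1 := hm ⟨g i, hkS _, hk0 _⟩ hi
      have e1 : h ⟨⟨g i, hkS _⟩, hk0 _⟩ = ⟨c i, c_S i⟩ := by
        have : (⟨⟨g i, hkS _⟩, hk0 _⟩ : U) = h.symm ⟨c i, c_S i⟩ := rfl
        rw [this, h.apply_symm_apply]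
      have e2 : h ⟨⟨k x, hkS x⟩, hk0 x⟩ = x := by
        have : (⟨⟨k x, hkS x⟩, hk0 x⟩ : U) = h.symm x := rfl
        rw [this, h.apply_symm_apply]
      have h2 : agree n (h ⟨⟨g i, hkS _⟩, hk0 _⟩).1 (h ⟨⟨k x, hkS x⟩, hk0 x⟩).1 := h1
      rw [e1, e2] at h2
      exact h2
  -- the domain contains `S`, hence has full measure
  have hSG : S ⊆ G g := by
    intro x hx
    have h1 := hP ⟨x, hx⟩
    have h2 := P_L h1
    have h3 := hk0 ⟨x, hx⟩
    rw [h2] at h1 h3
    exact ⟨h1, h3⟩
  have hGfull : mu (G g)ᶜ = 0 := by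
    by_contra hne
    have hpos : 0 < mu (G g)ᶜ := pos_iff_ne_zero.2 hne
    obtain ⟨K, hK1, hK2, hK3⟩ :=
      (G_meas g).compl.exists_lt_isClosed_of_ne_top (measure_ne_top mu _) hpos
    obtain ⟨A, hA⟩ := exists_KA hK2
    have h1 := (F_good (task.symm (Sum.inr A))).2.2.2.2
    rw [Equiv.apply_symm_apply] at h1
    have h2 := h1 (by rw [hA]; exact hK3)
    rw [hA] at h2
    exact hK1 h2 (hSG (mem_S _))
  have hG1 : mu (G g) = 1 := (prob_compl_eq_zero_iff (G_meas g)).1 hGfull
  have hCpos : 0 < mu (Cg g) := by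
    rw [Cg_eq]
    have h1 : mu (G g) ≤ mu (G g \ ⋃ F : Finset ℕ, GF g F) + mu (⋃ F : Finset ℕ, GF g F) := by
      refine (measure_mono ?_).trans (measure_union_le _ _)
      intro x hx
      by_cases hx2 : x ∈ ⋃ F : Finset ℕ, GF g F
      · exact Or.inr hx2
      · exact Or.inl ⟨hx, hx2⟩
    rw [hG1] at h1
    by_contra hcon
    have h0 : mu (G g \ ⋃ F : Finset ℕ, GF g F) = 0 := by
      simpa using hcon
    rw [h0, zero_add] at h1
    have h2 := h1.trans (sum_GF_le g)
    have h3 : (2⁻¹ : ℝ≥0∞) < 1 := by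
      rw [ENNReal.inv_lt_one]
      norm_num
    exact absurd h2 (not_le.2 h3)
  -- the task `g`
  have h1 := (F_good (task.symm (Sum.inl g))).2.2.2.2
  rw [Equiv.apply_symm_apply] at h1
  obtain ⟨x, y, hxy, hy0, hcase⟩ := h1 hCpos
  rcases hcase with ⟨hs, hn⟩ | ⟨hs, hn⟩
  · have hxS : x ∈ S := by
      rw [← hs]
      exact mem_S _
    have h2 := P_right (hP ⟨x, hxS⟩) hxy
    have h3 : y ∈ S := by
      rw [← h2]
      exact hkS _
    rw [← hn] at h3
    exact not_mem_S _ h3
  · have hyS : y ∈ S := by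
      rw [← hs]
      exact mem_S _
    set u : U := ⟨⟨y, hyS⟩, hy0⟩ with hu
    have h2 := hP (h u)
    have h3 : k (h u) = y := by
      simp only [hk, h.symm_apply_apply, hu]
    rw [h3] at h2
    have h4 := P_left h2 hxy
    have h5 : x ∈ S := by
      rw [← h4]
      exact (h u).2
    rw [← hn] at h5
    exact not_mem_S _ h5

end Pool.Agent.V11327.SF
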