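import Mathlib

open MeasureTheory Set
open scoped ENNReal

namespace Pool.Agent.V11327.SM

/-- Chebyshev's inequality for pairwise (negatively) correlated events. -/
lemma cheb {Ω ι : Type*} [MeasurableSpace Ω] (μ : Measure Ω) [IsProbabilityMeasure μ]
    (s : Finset ι) (A : ι → Set Ω) (hA : ∀ i ∈ s, MeasurableSet (A i))
    (hp : ∀ i ∈ s, ∀ j ∈ s, i ≠ j → μ.real (A i ∩ A j) ≤ μ.real (A i) * μ.real (A j))
    (hl : 0 < ∑ i ∈ s, μ.real (A i)) (E : Set Ω)
    (hE : ∀ ω ∈ E, 2 * ∑ i ∈ s, (A i).indicator (fun _ => (1:ℝ)) ω ≤ ∑ i ∈ s, μ.real (A i)) :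
    μ.real E ≤ 4 / ∑ i ∈ s, μ.real (A i) := by
  classical
  set L : ℝ := ∑ i ∈ s, μ.real (A i) with hL
  set S : Ω → ℝ := fun ω => ∑ i ∈ s, (A i).indicator (fun _ => (1:ℝ)) ω with hS
  have hIi : ∀ i ∈ s, Integrable ((A i).indicator (fun _ => (1:ℝ))) μ := fun i hi =>
    (integrable_const 1).indicator (hA i hi)
  have hSi : Integrable S μ := integrable_finsetSum _ hIi
  have hSS : ∀ ω, S ω * S ω = ∑ i ∈ s, ∑ j ∈ s, (A i ∩ A j).indicator (fun _ => (1:ℝ)) ω := by
    intro ω
    simp only [hS]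
    rw [Finset.sum_mul_sum]
    refine Finset.sum_congr rfl fun i _ => Finset.sum_congr rfl fun j _ => ?_
    by_cases h1 : ω ∈ A i <;> by_cases h2 : ω ∈ A j <;> simp [h1, h2]
  have hIij : ∀ i ∈ s, ∀ j ∈ s, Integrable ((A i ∩ A j).indicator (fun _ => (1:ℝ))) μ :=
    fun i hi j hj => (integrable_const 1).indicator ((hA i hi).inter (hA j hj))
  have hSSi : Integrable (fun ω => S ω * S ω) μ := by
    simp only [hSS]
    exact integrable_finsetSum _ fun i hi => integrable_finsetSum _ fun j hj => hIij i hi j hj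
  have hf : ∀ ω, (S ω - L) ^ 2 = S ω * S ω - 2 * L * S ω + L ^ 2 := fun ω => by ring
  have hfi : Integrable (fun ω => (S ω - L) ^ 2) μ := by
    simp only [hf]
    exact (hSSi.sub (hSi.const_mul _)).add (integrable_const _)
  have hint1 : ∫ ω, S ω ∂μ = L := by
    simp only [hS]
    rw [integral_finsetSum _ hIi]
    refine Finset.sum_congr rfl fun i hi => ?_
    rw [integral_indicator_const _ (hA i hi)]
    simp
  have hint2 : ∫ ω, S ω * S ω ∂μ ≤ L ^ 2 + L := by
    simp only [hSS]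
    rw [integral_finsetSum _ (fun i hi => integrable_finsetSum _ fun j hj => hIij i hi j hj)]
    have : ∀ i ∈ s, ∫ ω, ∑ j ∈ s, (A i ∩ A j).indicator (fun _ => (1:ℝ)) ω ∂μ
        ≤ μ.real (A i) * L + μ.real (A i) := by
      intro i hi
      rw [integral_finsetSum _ (fun j hj => hIij i hi j hj)]
      have h1 : ∀ j ∈ s, ∫ ω, (A i ∩ A j).indicator (fun _ => (1:ℝ)) ω ∂μ
          ≤ μ.real (A i) * μ.real (A j) + (if i = j then μ.real (A i) else 0) := by
        intro j hj
        rw [integral_indicator_const _ ((hA i hi).inter (hA j hj))]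
        rw [smul_eq_mul, mul_one]
        by_cases hij : i = j
        · subst hij
          rw [if_pos rfl, inter_self]
          have : 0 ≤ μ.real (A i) * μ.real (A i) := by positivity
          linarith
        · rw [if_neg hij, add_zero]
          exact hp i hi j hj hij
      refine (Finset.sum_le_sum h1).trans ?_
      rw [Finset.sum_add_distrib, ← Finset.mul_sum, Finset.sum_ite_eq, if_pos hi]
    refine (Finset.sum_le_sum this).trans ?_
    rw [Finset.sum_add_distrib, ← Finset.sum_mul]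
    exact le_of_eq (by rw [← hL]; ring)
  have hint : ∫ ω, (S ω - L) ^ 2 ∂μ ≤ L := by
    simp only [hf]
    have hsub1 : Integrable (fun ω => S ω * S ω - 2 * L * S ω) μ := hSSi.sub (hSi.const_mul _)
    rw [integral_add hsub1 (integrable_const _),
      integral_sub hSSi (hSi.const_mul _), integral_const_mul, hint1, integral_const]
    simp only [probReal_univ, one_smul]
    nlinarith [hint2]
  have hmark := mul_meas_ge_le_integral_of_nonneg (μ := μ) (f := fun ω => (S ω - L) ^ 2)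
    (Filter.Eventually.of_forall fun ω => sq_nonneg _) hfi (L ^ 2 / 4)
  have hsub : E ⊆ {ω | L ^ 2 / 4 ≤ (S ω - L) ^ 2} := by
    intro ω hω
    have h1 := hE ω hω
    change 2 * S ω ≤ L at h1
    change L ^ 2 / 4 ≤ (S ω - L) ^ 2
    have h2 : L / 2 ≤ L - S ω := by linarith
    have h3 : (L / 2) ^ 2 ≤ (L - S ω) ^ 2 := pow_le_pow_left₀ (by linarith) h2 2
    calc L ^ 2 / 4 = (L / 2) ^ 2 := by ring
      _ ≤ (L - S ω) ^ 2 := h3
      _ = (S ω - L) ^ 2 := by ring
  have hmono : μ.real E ≤ μ.real {ω | L ^ 2 / 4 ≤ (S ω - L) ^ 2} := measureReal_mono hsub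
  have h5 : L ^ 2 / 4 * μ.real E ≤ L := by
    calc L ^ 2 / 4 * μ.real E ≤ L ^ 2 / 4 * μ.real {ω | L ^ 2 / 4 ≤ (S ω - L) ^ 2} :=
          mul_le_mul_of_nonneg_left hmono (by positivity)
      _ ≤ _ := hmark
      _ ≤ L := hint
  rw [le_div_iff₀ hl]
  have h6 : L * (L * μ.real E) ≤ L * 4 := by nlinarith [h5]
  have h7 := le_of_mul_le_mul_left h6 hl
  linarith

end Pool.Agent.V11327.SM
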