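import Mathlib
import Pool.Agent.V11327.SMcheb

open MeasureTheory Set Filter
open scoped ENNReal Topology

namespace Pool.Agent.V11327.SM

variable (m : Measure ℕ) [IsProbabilityMeasure m]

/-- the environment law -/
noncomputable def env : Measure (ℤ → ℕ) := Measure.infinitePi (fun _ : ℤ => m)

instance : IsProbabilityMeasure (env m) := by
  unfold env
  infer_instance

/-- the run event -/
def Run (n : ℤ) (k : ℕ) : Set (ℤ → ℕ) :=
  Set.pi ((Finset.Ioc n (n + k) : Finset ℤ) : Set ℤ) (fun _ => ({2} : Set ℕ))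

lemma mem_Run {n : ℤ} {k : ℕ} {X : ℤ → ℕ} :
    X ∈ Run n k ↔ ∀ i : ℤ, n < i → i ≤ n + k → X i = 2 := by
  unfold Run
  constructor
  · intro h i h1 h2
    exact h i (by simp [h1, h2])
  · intro h i hi
    rw [Finset.mem_coe, Finset.mem_Ioc] at hi
    exact h i hi.1 hi.2

lemma env_pi (F : Finset ℤ) (S : ℤ → Set ℕ) :
    (env m).real (Set.pi (F : Set ℤ) S) = ∏ i ∈ F, m.real (S i) := by
  unfold Measure.real env
  rw [Measure.infinitePi_pi _ (fun i _ => MeasurableSet.of_discrete), ENNReal.toReal_prod]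

lemma measurable_pi' (F : Finset ℤ) (S : ℤ → Set ℕ) :
    MeasurableSet (Set.pi (F : Set ℤ) S) :=
  MeasurableSet.pi F.countable_toSet (fun _ _ => MeasurableSet.of_discrete)

lemma env_Run (n : ℤ) (k : ℕ) : (env m).real (Run n k) = m.real {2} ^ k := by
  unfold Run
  rw [env_pi, Finset.prod_const, Int.card_Ioc]
  congr 1
  omega

lemma env_Run_inter {n n' : ℤ} {k : ℕ} (h : n + k ≤ n' ∨ n' + k ≤ n) :
    (env m).real (Run n k ∩ Run n' k) = (env m).real (Run n k) * (env m).real (Run n' k) := by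
  classical
  have e : Run n k ∩ Run n' k = Set.pi ((Finset.Ioc n (n + k) ∪ Finset.Ioc n' (n' + k) :
      Finset ℤ) : Set ℤ) (fun _ => ({2} : Set ℕ)) := by
    unfold Run
    rw [Finset.coe_union, Set.union_pi]
  rw [e, env_pi, Finset.prod_union, ← env_pi m _ (fun _ => ({2} : Set ℕ)),
    ← env_pi m _ (fun _ => ({2} : Set ℕ))]
  · rfl
  · rw [Finset.disjoint_left]
    intro i hi hi'
    rw [Finset.mem_Ioc] at hi hi'
    omega

/-- two large boxes on both sides of the run -/
def Big (n : ℤ) (k s j l : ℕ) : Set (ℤ → ℕ) :=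
  {X | 2 ^ 2 ^ s ≤ X (n - j) ∧ 2 ^ 2 ^ s ≤ X (n + k + 1 + l)}

lemma env_Run_Big (n : ℤ) (k s j l : ℕ) :
    (env m).real (Run n k ∩ Big n k s j l)
      = m.real {2} ^ k * m.real (Ici (2 ^ 2 ^ s)) ^ 2 := by
  classical
  set F : Finset ℤ := insert (n - j) (insert (n + k + 1 + l) (Finset.Ioc n (n + k))) with hF
  set S : ℤ → Set ℕ := fun i => if n < i ∧ i ≤ n + k then {2} else Ici (2 ^ 2 ^ s) with hS
  have e : Run n k ∩ Big n k s j l = Set.pi (F : Set ℤ) S := by
    ext X
    rw [mem_inter_iff, mem_Run]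
    constructor
    · rintro ⟨h1, h2, h3⟩ i hi
      rw [hF, Finset.mem_coe, Finset.mem_insert, Finset.mem_insert, Finset.mem_Ioc] at hi
      simp only [hS]
      split_ifs with hc
      · exact h1 i hc.1 hc.2
      · rcases hi with rfl | rfl | hi
        · exact h2
        · exact h3
        · exact absurd hi hc
    · intro h
      refine ⟨?_, ?_, ?_⟩
      · intro i h1 h2
        have h3 := h i (by
          rw [hF, Finset.mem_coe, Finset.mem_insert, Finset.mem_insert, Finset.mem_Ioc]
          exact Or.inr (Or.inr ⟨h1, h2⟩))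
        simp only [hS, if_pos (And.intro h1 h2)] at h3
        exact h3
      · have h3 := h (n - j) (by
          rw [hF, Finset.mem_coe, Finset.mem_insert]
          exact Or.inl rfl)
        have hc : ¬ (n < n - (j:ℤ) ∧ n - (j:ℤ) ≤ n + k) := by omega
        simp only [hS, if_neg hc] at h3
        exact h3
      · have h3 := h (n + k + 1 + l) (by
          rw [hF, Finset.mem_coe, Finset.mem_insert, Finset.mem_insert]
          exact Or.inr (Or.inl rfl))
        have hc : ¬ (n < n + (k:ℤ) + 1 + l ∧ n + (k:ℤ) + 1 + l ≤ n + k) := by omega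
        simp only [hS, if_neg hc] at h3
        exact h3
  rw [e, env_pi, hF, Finset.prod_insert, Finset.prod_insert]
  · have hc1 : ¬ (n < n - (j:ℤ) ∧ n - (j:ℤ) ≤ n + k) := by omega
    have hc2 : ¬ (n < n + (k:ℤ) + 1 + l ∧ n + (k:ℤ) + 1 + l ≤ n + k) := by omega
    have e3 : ∏ i ∈ Finset.Ioc n (n + (k:ℤ)), m.real (S i) = m.real {2} ^ k := by
      have : ∀ i ∈ Finset.Ioc n (n + (k:ℤ)), m.real (S i) = m.real {2} := by
        intro i hi
        rw [Finset.mem_Ioc] at hi
        simp only [hS, if_pos hi]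
      rw [Finset.prod_congr rfl this, Finset.prod_const, Int.card_Ioc]
      congr 1
      omega
    rw [e3]
    simp only [hS, if_neg hc1, if_neg hc2]
    ring
  · rw [Finset.mem_Ioc]
    omega
  · rw [Finset.mem_insert, Finset.mem_Ioc]
    omega

/-- the bad event at scales `≥ t` -/
def Bad (n : ℤ) (k t : ℕ) : Set (ℤ → ℕ) :=
  ⋃ s : ℕ, ⋃ j ∈ Finset.range (2 ^ (t + s + 1)), ⋃ l ∈ Finset.range (2 ^ (t + s + 1)),
    Big n k (t + s) j l

lemma env_Run_Bad (hm : ∀ s : ℕ, m.real (Ici (2 ^ 2 ^ s)) ≤ 1 / (2 ^ s * (s + 1)))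
    (n : ℤ) (k t : ℕ) :
    (env m) (Run n k ∩ Bad n k t)
      ≤ ENNReal.ofReal (m.real {2} ^ k) * ∑' s : ℕ, ENNReal.ofReal (4 / ((t + s : ℕ) + 1 : ℝ) ^ 2) := by
  have hsub : Run n k ∩ Bad n k t ⊆ ⋃ s : ℕ, ⋃ j ∈ Finset.range (2 ^ (t + s + 1)),
      ⋃ l ∈ Finset.range (2 ^ (t + s + 1)), (Run n k ∩ Big n k (t + s) j l) := by
    rintro X ⟨h1, h2⟩
    obtain ⟨s, h3⟩ := mem_iUnion.1 h2
    obtain ⟨j, hj, h4⟩ := mem_iUnion₂.1 h3
    obtain ⟨l, hl, h5⟩ := mem_iUnion₂.1 h4
    exact mem_iUnion.2 ⟨s, mem_iUnion₂.2 ⟨j, hj, mem_iUnion₂.2 ⟨l, hl, h1, h5⟩⟩⟩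
  refine (measure_mono hsub).trans ((measure_iUnion_le _).trans ?_)
  rw [← ENNReal.tsum_mul_left]
  refine ENNReal.tsum_le_tsum fun s => ?_
  refine (measure_biUnion_finset_le _ _).trans ?_
  refine (Finset.sum_le_sum fun j _ => measure_biUnion_finset_le _ _).trans ?_
  have hb : ∀ j l : ℕ, (env m) (Run n k ∩ Big n k (t + s) j l)
      ≤ ENNReal.ofReal (m.real {2} ^ k * (1 / (2 ^ (t + s) * ((t + s : ℕ) + 1))) ^ 2) := by
    intro j l
    rw [← ENNReal.ofReal_toReal (measure_ne_top (env m) _)]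
    refine ENNReal.ofReal_le_ofReal ?_
    have h1 := env_Run_Big m n k (t + s) j l
    unfold Measure.real at h1
    rw [h1]
    refine mul_le_mul_of_nonneg_left ?_ (by positivity)
    exact pow_le_pow_left₀ measureReal_nonneg (hm (t + s)) 2
  refine (Finset.sum_le_sum fun j _ => Finset.sum_le_sum fun l _ => hb j l).trans ?_
  rw [Finset.sum_const, Finset.sum_const, Finset.card_range, nsmul_eq_mul, nsmul_eq_mul,
    ← ENNReal.ofReal_natCast, ← ENNReal.ofReal_mul (by positivity),
    ← ENNReal.ofReal_mul (by positivity), ← ENNReal.ofReal_mul (by positivity)]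
  refine ENNReal.ofReal_le_ofReal (le_of_eq ?_)
  push_cast
  have h2 : (2:ℝ) ^ (t + s) ≠ 0 := by positivity
  have h3 : ((t:ℝ) + s + 1) ≠ 0 := by positivity
  rw [pow_succ]
  field_simp
  ring

/-- For positions `pos i` at distance at least `k`, some position carries a run without bad pairs,
up to a small probability. -/
theorem env_good (hm : ∀ s : ℕ, m.real (Ici (2 ^ 2 ^ s)) ≤ 1 / (2 ^ s * (s + 1)))
    (h2 : 0 < m.real {2}) (k t : ℕ) (pos : ℕ → ℤ)
    (hpos : ∀ i j, i ≠ j → pos i + k ≤ pos j ∨ pos j + k ≤ pos i) (ε : ℝ) (hε : 0 ≤ ε)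
    (hεt : ∑' s : ℕ, ENNReal.ofReal (4 / ((t + s : ℕ) + 1 : ℝ) ^ 2) ≤ ENNReal.ofReal ε) :
    (env m).real {X | ∀ i, ¬ (X ∈ Run (pos i) k ∧ X ∉ Bad (pos i) k t)} ≤ 2 * ε := by
  classical
  set a : ℝ := m.real {2} ^ k with ha
  have ha0 : 0 < a := by positivity
  have hRB : ∀ i, (env m).real (Run (pos i) k ∩ Bad (pos i) k t) ≤ a * ε := by
    intro i
    unfold Measure.real
    refine ENNReal.toReal_le_of_le_ofReal (by positivity) ?_
    rw [ENNReal.ofReal_mul ha0.le]
    exact (env_Run_Bad m hm (pos i) k t).trans (mul_le_mul_right hεt _)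
  have key : ∀ M : ℕ, 0 < M →
      (env m).real {X | ∀ i, ¬ (X ∈ Run (pos i) k ∧ X ∉ Bad (pos i) k t)}
        ≤ 4 / (M * a) + 2 * ε := by
    intro M hM
    have hM' : (0:ℝ) < M := by exact_mod_cast hM
    set E := {X : ℤ → ℕ | ∀ i, ¬ (X ∈ Run (pos i) k ∧ X ∉ Bad (pos i) k t)} with hE
    set S : (ℤ → ℕ) → ℝ := fun X =>
      ∑ i ∈ Finset.range M, (Run (pos i) k).indicator (fun _ => (1:ℝ)) X with hS
    have hBm : ∀ i, MeasurableSet (Run (pos i) k ∩ Bad (pos i) k t) := by
      intro i
      refine (measurable_pi' _ _).inter ?_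
      unfold Bad
      refine MeasurableSet.iUnion fun s => Finset.measurableSet_biUnion _ fun j _ =>
        Finset.measurableSet_biUnion _ fun l _ => ?_
      unfold Big
      have h3 : Measurable (fun X : ℤ → ℕ => X (pos i - j)) := measurable_pi_apply _
      have h4 : Measurable (fun X : ℤ → ℕ => X (pos i + k + 1 + l)) := measurable_pi_apply _
      exact (h3 (MeasurableSet.of_discrete (s := Ici (2 ^ 2 ^ (t + s))))).inter
        (h4 (MeasurableSet.of_discrete (s := Ici (2 ^ 2 ^ (t + s)))))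
    have hL : ∑ i ∈ Finset.range M, (env m).real (Run (pos i) k) = M * a := by
      simp only [env_Run]
      rw [Finset.sum_const, Finset.card_range, nsmul_eq_mul]
    have h5 : (env m).real {X | 2 * S X ≤ M * a} ≤ 4 / (M * a) := by
      have := cheb (env m) (Finset.range M) (fun i => Run (pos i) k)
        (fun i _ => measurable_pi' _ _)
        (fun i _ j _ hij => (env_Run_inter m (hpos i j hij)).le)
        (by rw [hL]; positivity) {X | 2 * S X ≤ M * a} (by
          intro X hX
          rw [hL]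
          exact hX)
      rw [hL] at this
      exact this
    set S' : (ℤ → ℕ) → ℝ := fun X =>
      ∑ i ∈ Finset.range M, (Run (pos i) k ∩ Bad (pos i) k t).indicator (fun _ => (1:ℝ)) X with hS'
    have hS'i : ∀ i ∈ Finset.range M,
        Integrable ((Run (pos i) k ∩ Bad (pos i) k t).indicator (fun _ => (1:ℝ))) (env m) :=
      fun i _ => (integrable_const 1).indicator (hBm i)
    have h6 : (env m).real {X | M * a / 2 ≤ S' X} ≤ 2 * ε := by
      have h7 := mul_meas_ge_le_integral_of_nonneg (μ := env m) (f := S')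
        (Filter.Eventually.of_forall fun X => Finset.sum_nonneg fun i _ =>
          indicator_nonneg (fun _ _ => zero_le_one) X)
        (integrable_finsetSum _ hS'i) (M * a / 2)
      have h8 : ∫ X, S' X ∂(env m) ≤ M * (a * ε) := by
        simp only [hS']
        rw [integral_finsetSum _ hS'i]
        calc ∑ i ∈ Finset.range M, ∫ X, (Run (pos i) k ∩ Bad (pos i) k t).indicator
              (fun _ => (1:ℝ)) X ∂(env m)
            ≤ ∑ _i ∈ Finset.range M, a * ε := by
              refine Finset.sum_le_sum fun i _ => ?_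
              rw [integral_indicator_const _ (hBm i), smul_eq_mul, mul_one]
              exact hRB i
          _ = M * (a * ε) := by rw [Finset.sum_const, Finset.card_range, nsmul_eq_mul]
      have h9 := h7.trans h8
      have h10 : M * a / 2 * (env m).real {X | M * a / 2 ≤ S' X} ≤ M * a / 2 * (2 * ε) := by
        refine h9.trans (le_of_eq ?_)
        ring
      exact le_of_mul_le_mul_left h10 (by positivity)
    have hsub : E ⊆ {X | 2 * S X ≤ M * a} ∪ {X | M * a / 2 ≤ S' X} := by
      intro X hX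
      have hSS : S X = S' X := by
        simp only [hS, hS']
        refine Finset.sum_congr rfl fun i _ => ?_
        by_cases h11 : X ∈ Run (pos i) k
        · have h12 : X ∈ Bad (pos i) k t := by
            by_contra hc
            exact hX i ⟨h11, hc⟩
          simp [h11, h12]
        · simp [h11]
      by_cases h13 : 2 * S X ≤ M * a
      · exact Or.inl h13
      · right
        change M * a / 2 ≤ S' X
        rw [← hSS]
        push Not at h13
        linarith
    refine (measureReal_mono hsub).trans ((measureReal_union_le _ _).trans ?_)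
    exact add_le_add h5 h6
  have hlim : Tendsto (fun M : ℕ => 4 / ((M:ℝ) * a) + 2 * ε) atTop (𝓝 (0 + 2 * ε)) := by
    refine Tendsto.add_const _ ?_
    refine Tendsto.const_div_atTop ?_ _
    exact tendsto_natCast_atTop_atTop.atTop_mul_const ha0
  rw [zero_add] at hlim
  refine ge_of_tendsto hlim ?_
  filter_upwards [eventually_gt_atTop 0] with M hM using key M hM

end Pool.Agent.V11327.SM
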