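import Mathlib

/-! # The planar Stack Model (MP_c59c01_pr): definitions -/

open MeasureTheory Set
open scoped ENNReal

namespace Pool.Agent.V11327.SM

/-- Vertices of `ℤ² = ℤ¹ × ℤ`; the second coordinate is the height. -/
abbrev V := ℤ × ℤ

/-- The nearest-neighbour graph of `ℤ²`. -/
def lat : SimpleGraph V where
  Adj u v := |u.1 - v.1| + |u.2 - v.2| = 1
  symm := ⟨fun u v h => by rw [abs_sub_comm v.1, abs_sub_comm v.2]; exact h⟩
  loopless := ⟨fun u h => by simp at h⟩

/-- The heights `Z(n)` of the centres of the boxes. -/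
noncomputable def Z (X : ℤ → ℕ) (n : ℤ) : ℤ :=
  if n = 0 then 0
  else if 0 < n then (X 0 : ℤ) + 2 * ∑ i ∈ Finset.Ioo 0 n, (X i : ℤ) + X n
  else -(X 0 : ℤ) - 2 * ∑ i ∈ Finset.Ioo n 0, (X i : ℤ) - X n

/-- The box `B(a, r)` of `ℤ¹ × ℤ`. -/
def box (a : ℤ) (r : ℕ) : Set V := {v | |v.1| ≤ r ∧ |v.2 - a| ≤ r}

/-- The region `R`, the union of the boxes `B_n = B(Z(n), X_n)`. -/
def region (X : ℤ → ℕ) : Set V := ⋃ n : ℤ, box (Z X n) (X n)

/-- The law of the state of one edge: open (`true`) with probability `t`. -/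
noncomputable def edgeLaw (t : Set.Icc (0 : ℝ) 1) : Measure Bool :=
  ENNReal.ofReal t.1 • Measure.dirac true + ENNReal.ofReal (1 - t.1) • Measure.dirac false

instance (t : Set.Icc (0 : ℝ) 1) : IsProbabilityMeasure (edgeLaw t) := by
  constructor
  unfold edgeLaw
  rw [Measure.add_apply, Measure.smul_apply, Measure.smul_apply, measure_univ, measure_univ,
    smul_eq_mul, smul_eq_mul, mul_one, mul_one,
    ← ENNReal.ofReal_add t.2.1 (by linarith [t.2.2])]
  simp

open Classical in
/-- The opening probability of an edge: `q` if both endpoints lie in `R`, else `p`. -/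
noncomputable def par (R : Set V) (p q : Set.Icc (0 : ℝ) 1) (e : Sym2 V) : Set.Icc (0 : ℝ) 1 :=
  if ∀ v ∈ e, v ∈ R then q else p

/-- The quenched law: edges are open independently, with probability `q` if both endpoints lie in
`R`, and with probability `p` otherwise. -/
noncomputable def perc (R : Set V) (p q : Set.Icc (0 : ℝ) 1) : Measure (lat.edgeSet → Bool) :=
  Measure.infinitePi (fun e : lat.edgeSet => edgeLaw (par R p q e.1))

/-- The open subgraph of a configuration. -/
def openGraph (ω : lat.edgeSet → Bool) : SimpleGraph V :=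
  SimpleGraph.fromEdgeSet {e | ∃ h : e ∈ lat.edgeSet, ω ⟨e, h⟩ = true}

/-- The probability that the origin lies in an infinite open cluster. -/
noncomputable def theta (R : Set V) (p q : Set.Icc (0 : ℝ) 1) : ℝ≥0∞ :=
  perc R p q {ω | {v | (openGraph ω).Reachable (0, 0) v}.Infinite}

/-- The bond percolation threshold of `ℤ²`: the supremum of the `p` for which homogeneous
percolation with parameter `p` has no infinite cluster. -/
noncomputable def pc : ℝ :=
  sSup {p : ℝ | ∃ hp : p ∈ Set.Icc (0 : ℝ) 1, theta ∅ ⟨p, hp⟩ ⟨p, hp⟩ = 0}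

end Pool.Agent.V11327.SM
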