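import Mathlib
import Pool.Agent.V11327.SMdefs

open MeasureTheory Set
open scoped ENNReal

namespace Pool.Agent.V11327.SM

lemma Z_succ (X : ℤ → ℕ) (n : ℤ) : Z X (n + 1) = Z X n + X n + X (n + 1) := by
  rcases lt_trichotomy n 0 with h | h | h
  · by_cases h1 : n = -1
    · subst h1
      have e : Finset.Ioo (-1 : ℤ) 0 = ∅ := by decide
      simp [Z, e]
    · have h2 : n + 1 < 0 := by omega
      have e : Finset.Ioo n 0 = insert (n + 1) (Finset.Ioo (n + 1) 0) := by
        ext i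
        simp only [Finset.mem_Ioo, Finset.mem_insert]
        omega
      have hn : (n + 1) ∉ Finset.Ioo (n + 1) 0 := by simp
      unfold Z
      rw [if_neg (by omega), if_neg (by omega), if_neg (by omega), if_neg (by omega), e,
        Finset.sum_insert hn]
      ring
  · subst h
    have e : Finset.Ioo (0 : ℤ) 1 = ∅ := by decide
    simp [Z, e]
  · have e : Finset.Ioo 0 (n + 1) = insert n (Finset.Ioo 0 n) := by
      ext i
      simp only [Finset.mem_Ioo, Finset.mem_insert]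
      omega
    have hn : n ∉ Finset.Ioo 0 n := by simp
    unfold Z
    rw [if_neg (by omega), if_pos (by omega), if_neg (by omega), if_pos (by omega), e,
      Finset.sum_insert hn]
    ring

/-- The height of the top of the `n`-th box. -/
noncomputable def T (X : ℤ → ℕ) (n : ℤ) : ℤ := Z X n + X n

lemma T_succ (X : ℤ → ℕ) (n : ℤ) : T X (n + 1) = T X n + 2 * X (n + 1) := by
  unfold T
  rw [Z_succ]
  ring

lemma T_zero (X : ℤ → ℕ) : T X 0 = X 0 := by
  simp [T, Z]

lemma T_neg_one (X : ℤ → ℕ) : T X (-1) = -(X 0 : ℤ) := by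
  have := T_succ X (-1)
  norm_num at this
  rw [T_zero] at this
  linarith

variable {X : ℤ → ℕ}

lemma T_gap (hX : ∀ i, 1 ≤ X i) (n : ℤ) (m : ℕ) : T X n + 2 * m ≤ T X (n + m) := by
  induction m with
  | zero => simp
  | succ m ih =>
    have h := T_succ X (n + m)
    have h1 := hX (n + m + 1)
    push_cast
    rw [← add_assoc, h]
    have : (1:ℤ) ≤ X (n + m + 1) := by exact_mod_cast h1
    linarith

lemma T_mono (hX : ∀ i, 1 ≤ X i) {n m : ℤ} (h : n ≤ m) : T X n ≤ T X m := by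
  obtain ⟨k, hk⟩ := Int.eq_ofNat_of_zero_le (sub_nonneg.2 h)
  have := T_gap hX n k
  rw [← hk] at this
  have e : n + (m - n) = m := by ring
  rw [e] at this
  linarith

lemma T_run {n : ℤ} {k : ℕ} (hrun : ∀ i : ℤ, n < i → i ≤ n + k → X i = 2) :
    T X (n + k) = T X n + 4 * k := by
  induction k with
  | zero => simp
  | succ k ih =>
    have ih' := ih (fun i h1 h2 => hrun i h1 (by push_cast; linarith))
    have h := T_succ X (n + k)
    have h1 := hrun (n + k + 1) (by omega) (by push_cast; linarith)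
    push_cast
    rw [← add_assoc, h, ih', h1]
    push_cast
    ring

lemma mem_box_iff {i : ℤ} {v : V} :
    v ∈ box (Z X i) (X i) ↔ |v.1| ≤ X i ∧ T X (i - 1) ≤ v.2 ∧ v.2 ≤ T X i := by
  have h := Z_succ X (i - 1)
  rw [sub_add_cancel] at h
  unfold box T
  simp only [mem_ofPred_eq, abs_le]
  constructor
  · rintro ⟨h1, h2, h3⟩
    exact ⟨h1, by linarith, by linarith⟩
  · rintro ⟨h1, h2, h3⟩
    exact ⟨h1, by linarith, by linarith⟩

lemma mem_region {v : V} : v ∈ region X ↔ ∃ i : ℤ, v ∈ box (Z X i) (X i) := mem_iUnion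

/-- Vertical edges with both endpoints in the region, in a run of small boxes. -/
lemma run_edge (hX : ∀ i, 1 ≤ X i) {n : ℤ} {k : ℕ} (hk : 1 ≤ k)
    (hrun : ∀ i : ℤ, n < i → i ≤ n + k → X i = 2) {x h : ℤ} (h1 : T X n ≤ h)
    (h2 : h < T X (n + k)) (hu : ((x, h) : V) ∈ region X) (hv : ((x, h + 1) : V) ∈ region X) :
    |x| ≤ 2 := by
  obtain ⟨i, hi⟩ := mem_region.1 hu
  obtain ⟨j, hj⟩ := mem_region.1 hv
  rw [mem_box_iff] at hi hj
  obtain ⟨hi1, hi2, hi3⟩ := hi
  obtain ⟨hj1, hj2, hj3⟩ := hj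
  simp only at hi1 hi2 hi3 hj1 hj2 hj3
  by_cases ci : n < i ∧ i ≤ n + k
  · rw [hrun i ci.1 ci.2] at hi1
    exact_mod_cast hi1
  by_cases cj : n < j ∧ j ≤ n + k
  · rw [hrun j cj.1 cj.2] at hj1
    exact_mod_cast hj1
  exfalso
  have hTk := T_run hrun
  have hi4 : ¬ (n + k < i) := by
    intro hc
    have := T_mono hX (show n + k ≤ i - 1 by omega)
    linarith
  have hi5 : i ≤ n := by
    by_contra hc
    exact ci ⟨by omega, by omega⟩
  have h6 := T_mono hX hi5
  have hj5 : ¬ (j ≤ n) := by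
    intro hc
    have := T_mono hX hc
    linarith
  have hj6 : n + k < j := by
    by_contra hc
    exact cj ⟨by omega, by omega⟩
  have h7 := T_mono hX (show n + k ≤ j - 1 by omega)
  have hk' : (1:ℤ) ≤ k := by exact_mod_cast hk
  linarith

lemma classify_low (hX : ∀ i, 1 ≤ X i) {n : ℤ} {k : ℕ}
    (hrun : ∀ i : ℤ, n < i → i ≤ n + k → X i = 2) {h : ℤ}
    (h2 : h < T X (n + k)) {u : V} (hu : u ∈ region X) (huh : u.2 ≤ h) :
    (|u.1| ≤ 2 ∧ T X n ≤ u.2 ∧ u.2 ≤ T X (n + k)) ∨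
      ∃ j : ℕ, u ∈ box (Z X (n - j)) (X (n - j)) := by
  obtain ⟨i, hi⟩ := mem_region.1 hu
  have hi' := hi
  rw [mem_box_iff] at hi
  obtain ⟨hi1, hi2, hi3⟩ := hi
  by_cases ci : n < i ∧ i ≤ n + k
  · left
    rw [hrun i ci.1 ci.2] at hi1
    refine ⟨by exact_mod_cast hi1, ?_, by linarith⟩
    have := T_mono hX (show n ≤ i - 1 by omega)
    linarith
  · right
    have hi4 : ¬ (n + k < i) := by
      intro hc
      have := T_mono hX (show n + k ≤ i - 1 by omega)
      linarith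
    have hi5 : i ≤ n := by
      by_contra hc
      exact ci ⟨by omega, by omega⟩
    obtain ⟨j, hj⟩ := Int.eq_ofNat_of_zero_le (sub_nonneg.2 hi5)
    refine ⟨j, ?_⟩
    have : n - (j:ℤ) = i := by omega
    rw [this]
    exact hi'

lemma classify_high (hX : ∀ i, 1 ≤ X i) {n : ℤ} {k : ℕ}
    (hrun : ∀ i : ℤ, n < i → i ≤ n + k → X i = 2) {h : ℤ}
    (h1 : T X n ≤ h) {u : V} (hu : u ∈ region X) (huh : h < u.2) :
    (|u.1| ≤ 2 ∧ T X n ≤ u.2 ∧ u.2 ≤ T X (n + k)) ∨
      ∃ l : ℕ, u ∈ box (Z X (n + k + 1 + l)) (X (n + k + 1 + l)) := by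
  obtain ⟨i, hi⟩ := mem_region.1 hu
  have hi' := hi
  rw [mem_box_iff] at hi
  obtain ⟨hi1, hi2, hi3⟩ := hi
  by_cases ci : n < i ∧ i ≤ n + k
  · left
    rw [hrun i ci.1 ci.2] at hi1
    refine ⟨by exact_mod_cast hi1, by linarith, ?_⟩
    have := T_mono hX ci.2
    linarith
  · right
    have hi4 : ¬ (i ≤ n) := by
      intro hc
      have := T_mono hX hc
      linarith
    have hi5 : n + k + 1 ≤ i := by
      by_contra hc
      exact ci ⟨by omega, by omega⟩
    obtain ⟨j, hj⟩ := Int.eq_ofNat_of_zero_le (sub_nonneg.2 hi5)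
    refine ⟨j, ?_⟩
    have : n + (k:ℤ) + 1 + (j:ℤ) = i := by omega
    rw [this]
    exact hi'

end Pool.Agent.V11327.SM
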