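import Mathlib
import Pool.Agent.V11327.SMdefs

open MeasureTheory Set
open scoped ENNReal

namespace Pool.Agent.V11327.SM

instance (R : Set V) (p q : Set.Icc (0 : ℝ) 1) : IsProbabilityMeasure (perc R p q) := by
  unfold perc
  infer_instance

lemma edgeLaw_true (p : Set.Icc (0 : ℝ) 1) : edgeLaw p {true} = ENNReal.ofReal p.1 := by
  unfold edgeLaw
  rw [Measure.add_apply, Measure.smul_apply, Measure.smul_apply,
    Measure.dirac_apply' _ (MeasurableSet.singleton _),
    Measure.dirac_apply' _ (MeasurableSet.singleton _)]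
  simp

lemma edgeLaw_false (p : Set.Icc (0 : ℝ) 1) :
    edgeLaw p {false} = ENNReal.ofReal (1 - p.1) := by
  unfold edgeLaw
  rw [Measure.add_apply, Measure.smul_apply, Measure.smul_apply,
    Measure.dirac_apply' _ (MeasurableSet.singleton _),
    Measure.dirac_apply' _ (MeasurableSet.singleton _)]
  simp

/-- The outer graph: open edges with at least one endpoint outside `R`. -/
def H (R : Set V) (ω : lat.edgeSet → Bool) : SimpleGraph V where
  Adj u v := (openGraph ω).Adj u v ∧ (u ∉ R ∨ v ∉ R)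
  symm := ⟨fun u v h => ⟨h.1.symm, h.2.symm⟩⟩
  loopless := ⟨fun u h => h.1.ne rfl⟩

/-- The four steps. -/
def stp : Fin 4 → V
  | 0 => (1, 0)
  | 1 => (-1, 0)
  | 2 => (0, 1)
  | 3 => (0, -1)

lemma adj_stp {u v : V} (h : lat.Adj u v) : ∃ d : Fin 4, v = u + stp d := by
  change |u.1 - v.1| + |u.2 - v.2| = 1 at h
  obtain ⟨a, b⟩ := u
  obtain ⟨c, e⟩ := v
  simp only at h
  have h1 : (c = a + 1 ∧ e = b) ∨ (c = a - 1 ∧ e = b) ∨ (c = a ∧ e = b + 1) ∨
      (c = a ∧ e = b - 1) := by
    rcases abs_cases (a - c) with ⟨h2, h3⟩ | ⟨h2, h3⟩ <;>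
    rcases abs_cases (b - e) with ⟨h4, h5⟩ | ⟨h4, h5⟩ <;> omega
  rcases h1 with ⟨rfl, rfl⟩ | ⟨rfl, rfl⟩ | ⟨rfl, rfl⟩ | ⟨rfl, rfl⟩
  · exact ⟨0, by simp [stp]⟩
  · exact ⟨1, by simp [stp]; rfl⟩
  · exact ⟨2, by simp [stp]⟩
  · exact ⟨3, by simp [stp]; rfl⟩

/-- The list of edges along a list of steps. -/
def edgesOf : V → List (Fin 4) → List (Sym2 V)
  | _, [] => []
  | v, d :: s => s(v, v + stp d) :: edgesOf (v + stp d) s

lemma edgesOf_length (v : V) (s : List (Fin 4)) : (edgesOf v s).length = s.length := by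
  induction s generalizing v with
  | nil => rfl
  | cons d s ih => simp [edgesOf, ih]

lemma openGraph_le (ω : lat.edgeSet → Bool) : openGraph ω ≤ lat := by
  intro u v h
  unfold openGraph at h
  rw [SimpleGraph.fromEdgeSet_adj] at h
  obtain ⟨⟨hG, _⟩, _⟩ := h
  exact (SimpleGraph.mem_edgeSet lat).1 hG

lemma H_le (R : Set V) (ω : lat.edgeSet → Bool) : H R ω ≤ openGraph ω := fun _ _ h => h.1

lemma walk_edges {R : Set V} {ω : lat.edgeSet → Bool} {u w : V} (π : (H R ω).Walk u w) :
    ∃ s : List (Fin 4), s.length = π.length ∧ π.edges = edgesOf u s := by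
  induction π with
  | nil => exact ⟨[], rfl, rfl⟩
  | @cons a b c hab π ih =>
    obtain ⟨s, hs1, hs2⟩ := ih
    obtain ⟨d, hd⟩ := adj_stp (openGraph_le ω hab.1)
    refine ⟨d :: s, by simp [hs1], ?_⟩
    rw [SimpleGraph.Walk.edges_cons, hs2, edgesOf, hd]

/-- an edge of type `p` which is open -/
def good (R : Set V) (ω : lat.edgeSet → Bool) (e : Sym2 V) : Prop :=
  (∃ h : e ∈ lat.edgeSet, ω ⟨e, h⟩ = true) ∧ ¬ (∀ v ∈ e, v ∈ R)

lemma walk_good {R : Set V} {ω : lat.edgeSet → Bool} {u w : V} (π : (H R ω).Walk u w) :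
    ∀ e ∈ π.edges, good R ω e := by
  intro e he
  have h1 := π.edges_subset_edgeSet he
  induction e using Sym2.ind with
  | _ x y =>
    rw [SimpleGraph.mem_edgeSet] at h1
    obtain ⟨h2, h3⟩ := h1
    unfold openGraph at h2
    rw [SimpleGraph.fromEdgeSet_adj] at h2
    refine ⟨h2.1, ?_⟩
    intro h4
    rcases h3 with h | h
    · exact h (h4 x (Sym2.mem_mk_left _ _))
    · exact h (h4 y (Sym2.mem_mk_right _ _))

/-- The event that a list of steps from `u` gives distinct open edges of type `p`. -/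
def EvS (R : Set V) (u : V) (s : List (Fin 4)) : Set (lat.edgeSet → Bool) :=
  {ω | (edgesOf u s).Nodup ∧ ∀ e ∈ edgesOf u s, good R ω e}

lemma perc_EvS (R : Set V) (p q : Set.Icc (0 : ℝ) 1) (u : V) (s : List (Fin 4)) :
    perc R p q (EvS R u s) ≤ ENNReal.ofReal p.1 ^ s.length := by
  classical
  rcases (EvS R u s).eq_empty_or_nonempty with h | ⟨ω0, hn, hg⟩
  · rw [h, measure_empty]
    exact zero_le
  set F : Finset lat.edgeSet := (edgesOf u s).toFinset.subtype (· ∈ lat.edgeSet) with hF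
  have hcard : F.card = s.length := by
    rw [hF, Finset.card_subtype, Finset.filter_true_of_mem, List.toFinset_card_of_nodup hn,
      edgesOf_length]
    intro e he
    rw [List.mem_toFinset] at he
    exact (hg e he).1.1
  have hsub : EvS R u s ⊆ Set.pi (F : Set lat.edgeSet) (fun _ => ({true} : Set Bool)) := by
    intro ω hω e he
    rw [Finset.mem_coe, hF, Finset.mem_subtype, List.mem_toFinset] at he
    exact (hω.2 e.1 he).1.2
  refine (measure_mono hsub).trans ?_
  unfold perc
  rw [Measure.infinitePi_pi _ (fun i _ => MeasurableSet.singleton _)]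
  have : ∀ e ∈ F, edgeLaw (par R p q e.1) {true} = ENNReal.ofReal p.1 := by
    intro e he
    rw [hF, Finset.mem_subtype, List.mem_toFinset] at he
    have := (hg e.1 he).2
    unfold par
    rw [if_neg this, edgeLaw_true]
  rw [Finset.prod_congr rfl this, Finset.prod_const, hcard]

/-- The event that there is a path of length `m` from `u` in the outer graph. -/
def PathEv (R : Set V) (u : V) (m : ℕ) : Set (lat.edgeSet → Bool) :=
  {ω | ∃ w, ∃ π : (H R ω).Walk u w, π.IsPath ∧ π.length = m}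

lemma PathEv_le (R : Set V) (p q : Set.Icc (0 : ℝ) 1) (u : V) (m : ℕ) :
    perc R p q (PathEv R u m) ≤ (4 * ENNReal.ofReal p.1) ^ m := by
  have hsub : PathEv R u m ⊆ ⋃ s : List.Vector (Fin 4) m, EvS R u s.1 := by
    rintro ω ⟨w, π, hπ, hm⟩
    obtain ⟨s, hs1, hs2⟩ := walk_edges π
    refine mem_iUnion.2 ⟨⟨s, hs1.trans hm⟩, ?_, ?_⟩
    · change (edgesOf u s).Nodup
      rw [← hs2]
      exact hπ.isTrail.edges_nodup
    · intro e he
      change e ∈ edgesOf u s at he
      rw [← hs2] at he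
      exact walk_good π e he
  refine (measure_mono hsub).trans ((measure_iUnion_fintype_le _ _).trans ?_)
  calc ∑ s : List.Vector (Fin 4) m, perc R p q (EvS R u s.1)
      ≤ ∑ _s : List.Vector (Fin 4) m, ENNReal.ofReal p.1 ^ m := by
        refine Finset.sum_le_sum fun s _ => ?_
        have := perc_EvS R p q u s.1
        rwa [s.2] at this
    _ = (4 * ENNReal.ofReal p.1) ^ m := by
        rw [Finset.sum_const, Finset.card_univ, card_vector, Fintype.card_fin, nsmul_eq_mul,
          mul_pow]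
        push_cast
        rfl

/-- Long paths contain shorter ones. -/
lemma PathEv_of_le {R : Set V} {ω : lat.edgeSet → Bool} {u w : V} (π : (H R ω).Walk u w)
    (hπ : π.IsPath) {m : ℕ} (hm : m ≤ π.length) : ω ∈ PathEv R u m := by
  refine ⟨_, π.take m, hπ.take m, ?_⟩
  rw [SimpleGraph.Walk.take_length]
  exact min_eq_left hm

lemma walk_dist {G : SimpleGraph V} (hG : G ≤ lat) {u w : V} (π : G.Walk u w) :
    |u.1 - w.1| ≤ π.length ∧ |u.2 - w.2| ≤ π.length := by
  induction π with
  | nil => simp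
  | @cons a b c hab π ih =>
    have h := hG hab
    change |a.1 - b.1| + |a.2 - b.2| = 1 at h
    rw [SimpleGraph.Walk.length_cons]
    have h1 : |a.1 - c.1| ≤ |a.1 - b.1| + |b.1 - c.1| := abs_sub_le _ _ _
    have h2 : |a.2 - c.2| ≤ |a.2 - b.2| + |b.2 - c.2| := abs_sub_le _ _ _
    have h3 := abs_nonneg (a.1 - b.1)
    have h4 := abs_nonneg (a.2 - b.2)
    push_cast
    constructor <;> linarith [ih.1, ih.2]

/-- If `u` and `w` are joined in the outer graph and far apart, then there is a long path. -/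
lemma PathEv_of_reach {R : Set V} {ω : lat.edgeSet → Bool} {u w : V}
    (h : (H R ω).Reachable u w) {m : ℕ} (hm : (m : ℤ) ≤ |u.1 - w.1| ∨ (m : ℤ) ≤ |u.2 - w.2|) :
    ω ∈ PathEv R u m := by
  classical
  obtain ⟨π, hπ⟩ := h.exists_isPath
  have := walk_dist ((H_le R ω).trans (openGraph_le ω)) π
  refine PathEv_of_le π hπ ?_
  rcases hm with hm | hm
  · exact_mod_cast hm.trans this.1
  · exact_mod_cast hm.trans this.2

end Pool.Agent.V11327.SM
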