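import Mathlib
import Pool.Agent.V11327.SMpath
import Pool.Agent.V11327.SMgeom
import Pool.Agent.V11327.SMcheb

open MeasureTheory Set
open scoped ENNReal

namespace Pool.Agent.V11327.SM

/-- The vertical edge from `(x, h)` to `(x, h + 1)`. -/
def ve (h x : ℤ) : lat.edgeSet :=
  ⟨s((x, h), (x, h + 1)), by
    rw [SimpleGraph.mem_edgeSet]
    change |x - x| + |h - (h + 1)| = 1
    simp⟩

lemma ve_inj {x h x' h' : ℤ} (e : ve h x = ve h' x') : x = x' ∧ h = h' := by
  have e1 : s(((x, h) : V), (x, h + 1)) = s(((x', h') : V), (x', h' + 1)) := congrArg Subtype.val e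
  rw [Sym2.eq_iff] at e1
  rcases e1 with ⟨h1, -⟩ | ⟨h1, h2⟩
  · exact ⟨congrArg Prod.fst h1, congrArg Prod.snd h1⟩
  · have h3 := congrArg Prod.snd h1
    have h4 := congrArg Prod.snd h2
    simp only at h3 h4
    omega

/-- The row of vertical edges at height `h` in the window `|x| ≤ W`. -/
noncomputable def Row (h : ℤ) (W : ℕ) : Finset lat.edgeSet := by
  classical
  exact (Finset.Icc (-(W:ℤ)) W).image (ve h)

/-- The event that the row is closed. -/
def RowEv (h : ℤ) (W : ℕ) : Set (lat.edgeSet → Bool) :=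
  Set.pi (Row h W : Set lat.edgeSet) (fun _ => ({false} : Set Bool))

lemma mem_Row {h : ℤ} {W : ℕ} {e : lat.edgeSet} :
    e ∈ Row h W ↔ ∃ x : ℤ, |x| ≤ W ∧ ve h x = e := by
  unfold Row
  rw [Finset.mem_image]
  constructor
  · rintro ⟨x, hx, rfl⟩
    rw [Finset.mem_Icc] at hx
    exact ⟨x, abs_le.2 hx, rfl⟩
  · rintro ⟨x, hx, rfl⟩
    exact ⟨x, Finset.mem_Icc.2 (abs_le.1 hx), rfl⟩

lemma Row_disjoint {h h' : ℤ} (hh : h ≠ h') (W : ℕ) : Disjoint (Row h W) (Row h' W) := by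
  rw [Finset.disjoint_left]
  intro e he he'
  obtain ⟨x, _, rfl⟩ := mem_Row.1 he
  obtain ⟨x', _, h2⟩ := mem_Row.1 he'
  exact hh (ve_inj h2).2.symm

lemma measurable_pi (F : Finset lat.edgeSet) :
    MeasurableSet (Set.pi (F : Set lat.edgeSet) (fun _ => ({false} : Set Bool))) :=
  MeasurableSet.pi F.countable_toSet (fun _ _ => MeasurableSet.singleton _)

lemma perc_closed (R : Set V) (p q : Set.Icc (0 : ℝ) 1) (F : Finset lat.edgeSet) :
    (perc R p q).real (Set.pi (F : Set lat.edgeSet) (fun _ => ({false} : Set Bool)))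
      = ∏ e ∈ F, (1 - (par R p q e.1 : ℝ)) := by
  unfold Measure.real perc
  rw [Measure.infinitePi_pi _ (fun i _ => MeasurableSet.singleton _), ENNReal.toReal_prod]
  refine Finset.prod_congr rfl fun e _ => ?_
  rw [edgeLaw_false, ENNReal.toReal_ofReal]
  linarith [(par R p q e.1).2.2]

lemma RowEv_indep (R : Set V) (p q : Set.Icc (0 : ℝ) 1) {h h' : ℤ} (hh : h ≠ h') (W : ℕ) :
    (perc R p q).real (RowEv h W ∩ RowEv h' W)
      = (perc R p q).real (RowEv h W) * (perc R p q).real (RowEv h' W) := by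
  classical
  have e : RowEv h W ∩ RowEv h' W =
      Set.pi ((Row h W ∪ Row h' W : Finset lat.edgeSet) : Set lat.edgeSet)
        (fun _ => ({false} : Set Bool)) := by
    unfold RowEv
    rw [Finset.coe_union, Set.union_pi]
  rw [e]
  unfold RowEv
  rw [perc_closed, perc_closed, perc_closed, Finset.prod_union (Row_disjoint hh W)]

lemma RowEv_lower (R : Set V) (p q : Set.Icc (0 : ℝ) 1) (h : ℤ) (W : ℕ)
    (hpar : ∀ x : ℤ, 2 < |x| → par R p q (ve h x).1 = p) :
    (1 - (q:ℝ)) ^ 5 * (1 - (p:ℝ)) ^ (2 * W + 1) ≤ (perc R p q).real (RowEv h W) := by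
  classical
  unfold RowEv
  rw [perc_closed]
  unfold Row
  rw [Finset.prod_image (fun x _ y _ hxy => (ve_inj hxy).1)]
  have q0 := q.2.1
  have q1 := q.2.2
  have p0 := p.2.1
  have p1 := p.2.2
  have h1 : ∀ x ∈ Finset.Icc (-(W:ℤ)) W, (if |x| ≤ 2 then (1 - (q:ℝ)) else 1) * (1 - (p:ℝ))
      ≤ 1 - (par R p q (ve h x).1 : ℝ) := by
    intro x _
    by_cases hx : |x| ≤ 2
    · rw [if_pos hx]
      have h2 : par R p q (ve h x).1 = q ∨ par R p q (ve h x).1 = p := by
        unfold par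
        split_ifs
        · exact Or.inl rfl
        · exact Or.inr rfl
      have h3 : (1 - (q:ℝ)) * (1 - (p:ℝ)) ≤ 1 - q := mul_le_of_le_one_right (by linarith) (by linarith)
      have h4 : (1 - (q:ℝ)) * (1 - (p:ℝ)) ≤ 1 - p := mul_le_of_le_one_left (by linarith) (by linarith)
      rcases h2 with h2 | h2
      · rw [h2]; exact h3
      · rw [h2]; exact h4
    · rw [if_neg hx, hpar x (by omega)]
      linarith
  have h0 : ∀ x ∈ Finset.Icc (-(W:ℤ)) W,
      0 ≤ (if |x| ≤ 2 then (1 - (q:ℝ)) else 1) * (1 - (p:ℝ)) := by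
    intro x _
    split_ifs
    · exact mul_nonneg (by linarith) (by linarith)
    · exact mul_nonneg (by norm_num) (by linarith)
  refine le_trans ?_ (Finset.prod_le_prod h0 h1)
  rw [Finset.prod_mul_distrib, Finset.prod_const, Int.card_Icc]
  have e1 : ((W:ℤ) + 1 - -(W:ℤ)).toNat = 2 * W + 1 := by omega
  rw [e1]
  refine mul_le_mul_of_nonneg_right ?_ (pow_nonneg (by linarith) _)
  rw [Finset.prod_ite, Finset.prod_const, Finset.prod_const_one, mul_one]
  refine pow_le_pow_of_le_one (by linarith) (by linarith) ?_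
  have hsub : (Finset.Icc (-(W:ℤ)) W).filter (fun x => |x| ≤ 2) ⊆ Finset.Icc (-2) 2 := by
    intro x hx
    rw [Finset.mem_filter] at hx
    exact Finset.mem_Icc.2 (abs_le.1 hx.2)
  have := Finset.card_le_card hsub
  simpa using this

/-- No open connection across height `h`. -/
def Cut (R : Set V) (ω : lat.edgeSet → Bool) (h : ℤ) : Prop :=
  ∀ u ∈ R, u.2 ≤ h → ∀ v ∈ R, h < v.2 → ¬ (openGraph ω).Reachable u v

lemma adj_up {u v : V} (hadj : lat.Adj u v) {h : ℤ} (hu : u.2 ≤ h) (hv : h < v.2) :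
    u = (u.1, h) ∧ v = (u.1, h + 1) := by
  change |u.1 - v.1| + |u.2 - v.2| = 1 at hadj
  obtain ⟨a, b⟩ := u
  obtain ⟨c, e⟩ := v
  simp only at *
  have : a = c ∧ b = h ∧ e = h + 1 := by
    rcases abs_cases (a - c) with ⟨h2, h3⟩ | ⟨h2, h3⟩ <;>
    rcases abs_cases (b - e) with ⟨h4, h5⟩ | ⟨h4, h5⟩ <;> omega
  obtain ⟨rfl, rfl, rfl⟩ := this
  exact ⟨rfl, rfl⟩

lemma row_closed {ω : lat.edgeSet → Bool} {h : ℤ} {W : ℕ} (hrow : ω ∈ RowEv h W) {x : ℤ}
    (hadj : (openGraph ω).Adj (x, h) (x, h + 1)) : (W:ℤ) < |x| := by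
  by_contra hcon
  push Not at hcon
  unfold openGraph at hadj
  rw [SimpleGraph.fromEdgeSet_adj] at hadj
  obtain ⟨⟨hG, ho⟩, _⟩ := hadj
  have h1 : ve h x ∈ Row h W := mem_Row.2 ⟨x, hcon, rfl⟩
  have h2 : ω (ve h x) = false := hrow (ve h x) h1
  have h3 : ω (ve h x) = true := ho
  rw [h2] at h3
  exact Bool.false_ne_true h3

/-- The crossing lemma: a path of the outer graph crossing a closed row goes far away. -/
lemma cross {R : Set V} {ω : lat.edgeSet → Bool} {h : ℤ} {W : ℕ} (hrow : ω ∈ RowEv h W)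
    {u v : V} (hu : u.2 ≤ h) (hv : h < v.2) (hr : (H R ω).Reachable u v) :
    ∃ z : V, (W:ℤ) < |z.1| ∧ (H R ω).Reachable u z := by
  classical
  obtain ⟨π⟩ := hr
  obtain ⟨d, hd, hd1, hd2⟩ := π.exists_boundary_dart {z | z.2 ≤ h} hu (by simpa using hv)
  have hadj := d.adj
  have hd1' : d.fst.2 ≤ h := hd1
  have hd2' : h < d.snd.2 := by
    by_contra hc
    exact hd2 (not_lt.1 hc)
  have h1 := adj_up (openGraph_le ω hadj.1) hd1' hd2'
  have h2 : (openGraph ω).Adj (d.fst.1, h) (d.fst.1, h + 1) := by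
    have := hadj.1
    rw [h1.1, h1.2] at this
    exact this
  refine ⟨d.fst, row_closed hrow h2, ?_⟩
  exact ⟨π.takeUntil d.fst (π.dart_fst_mem_support_of_mem_darts hd)⟩

lemma cut_of {R : Set V} {ω : lat.edgeSet → Bool} {h : ℤ} {W : ℕ} (hrow : ω ∈ RowEv h W)
    (hR : ∀ x : ℤ, ((x, h) : V) ∈ R → ((x, h + 1) : V) ∈ R → |x| ≤ W)
    (hb : ∀ u ∈ R, u.2 ≤ h → ∀ v ∈ R, h < v.2 → ¬ (H R ω).Reachable u v) : Cut R ω h := by
  intro u hu huh v hv hvh hr
  -- the set reachable from the low part in the outer graph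
  obtain ⟨π⟩ := hr
  obtain ⟨d, hd, hd1, hd2⟩ := π.exists_boundary_dart
    {z | ∃ u ∈ R, u.2 ≤ h ∧ (H R ω).Reachable u z} ⟨u, hu, huh, SimpleGraph.Reachable.refl _⟩
    (by
      rintro ⟨u', hu', huh', hr'⟩
      exact hb u' hu' huh' v hv hvh hr')
  obtain ⟨u', hu', huh', hr'⟩ := hd1
  by_cases hq : d.fst ∈ R ∧ d.snd ∈ R
  · have hlow : d.fst.2 ≤ h := by
      by_contra hc
      exact hb u' hu' huh' d.fst hq.1 (not_le.1 hc) hr'
    have hhigh : h < d.snd.2 := by
      by_contra hc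
      exact hd2 ⟨d.snd, hq.2, not_lt.1 hc, SimpleGraph.Reachable.refl _⟩
    have h1 := adj_up (openGraph_le ω d.adj) hlow hhigh
    have h2 : (openGraph ω).Adj (d.fst.1, h) (d.fst.1, h + 1) := by
      have := d.adj
      rw [h1.1, h1.2] at this
      exact this
    have h3 := row_closed hrow h2
    have h4 := hR d.fst.1 (by rw [← h1.1]; exact hq.1) (by rw [← h1.2]; exact hq.2)
    linarith
  · have hadj : (H R ω).Adj d.fst d.snd := ⟨d.adj, by
      by_contra hc
      push Not at hc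
      exact hq hc⟩
    exact hd2 ⟨u', hu', huh', hr'.trans hadj.reachable⟩

end Pool.Agent.V11327.SM
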