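import Mathlib
import Pool.Agent.V11327.SMcut

open MeasureTheory Set
open scoped ENNReal

namespace Pool.Agent.V11327.SM

/-- the value `p = 1/16` -/
noncomputable def p0 : Set.Icc (0 : ℝ) 1 := ⟨1 / 16, by norm_num, by norm_num⟩

lemma four_p0 : 4 * ENNReal.ofReal (p0 : ℝ) = 4⁻¹ := by
  have h1 : (4 : ℝ≥0∞) = ENNReal.ofReal 4 := by
    rw [ENNReal.ofReal_ofNat]
  have h2 : (4 : ℝ≥0∞)⁻¹ = ENNReal.ofReal 4⁻¹ := by
    rw [ENNReal.ofReal_inv_of_pos (by norm_num), ← h1]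
  rw [h2]
  nth_rewrite 1 [h1]
  rw [← ENNReal.ofReal_mul (by norm_num)]
  congr 1
  unfold p0
  norm_num

lemma PathEv_p0 (R : Set V) (q : Set.Icc (0 : ℝ) 1) (u : V) (m : ℕ) :
    perc R p0 q (PathEv R u m) ≤ (4⁻¹) ^ m := by
  have := PathEv_le R p0 q u m
  rwa [four_p0] at this

lemma rect_bound (R : Set V) (q : Set.Icc (0 : ℝ) 1) (F : Finset V) (m : ℕ) (S : Set V)
    (hS : S ⊆ F) :
    perc R p0 q (⋃ u ∈ S, PathEv R u m) ≤ F.card * (4⁻¹) ^ m := by
  have h1 : (⋃ u ∈ S, PathEv R u m) ⊆ ⋃ u ∈ F, PathEv R u m := by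
    intro ω hω
    obtain ⟨u, hu, h⟩ := mem_iUnion₂.1 hω
    exact mem_iUnion₂.2 ⟨u, hS hu, h⟩
  refine (measure_mono h1).trans ((measure_biUnion_finset_le _ _).trans ?_)
  refine (Finset.sum_le_sum fun u _ => PathEv_p0 R q u m).trans ?_
  rw [Finset.sum_const, nsmul_eq_mul]

lemma box_bound (R : Set V) (q : Set.Icc (0 : ℝ) 1) (a : ℤ) (r m : ℕ) (hr : r ≤ 2 ^ m) :
    perc R p0 q (⋃ u ∈ box a r, PathEv R u (2 * m)) ≤ 9 * (4⁻¹) ^ m := by
  have hsub : box a r ⊆ ((Finset.Icc (-(r:ℤ)) r ×ˢ Finset.Icc (a - r) (a + r) : Finset V) : Set V) := by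
    intro v hv
    obtain ⟨h1, h2⟩ := hv
    rw [abs_le] at h1 h2
    rw [Finset.mem_coe, Finset.mem_product, Finset.mem_Icc, Finset.mem_Icc]
    exact ⟨h1, by linarith, by linarith⟩
  refine (rect_bound R q _ _ _ hsub).trans ?_
  have hcard : ((Finset.Icc (-(r:ℤ)) r ×ˢ Finset.Icc (a - r) (a + r) : Finset V)).card
      ≤ 9 * 4 ^ m := by
    rw [Finset.card_product, Int.card_Icc, Int.card_Icc]
    have e1 : ((r:ℤ) + 1 - -(r:ℤ)).toNat = 2 * r + 1 := by omega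
    have e2 : (a + (r:ℤ) + 1 - (a - r)).toNat = 2 * r + 1 := by omega
    rw [e1, e2]
    have h1 : 2 * r + 1 ≤ 3 * 2 ^ m := by
      have : 1 ≤ 2 ^ m := Nat.one_le_two_pow
      omega
    calc (2 * r + 1) * (2 * r + 1) ≤ (3 * 2 ^ m) * (3 * 2 ^ m) := Nat.mul_le_mul h1 h1
      _ = 9 * 4 ^ m := by
        have : (4:ℕ) ^ m = 2 ^ m * 2 ^ m := by
          rw [← mul_pow]
          norm_num
        rw [this]
        ring
  calc (((Finset.Icc (-(r:ℤ)) r ×ˢ Finset.Icc (a - r) (a + r) : Finset V)).card : ℝ≥0∞)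
        * (4⁻¹) ^ (2 * m)
      ≤ ((9 * 4 ^ m : ℕ) : ℝ≥0∞) * (4⁻¹) ^ (2 * m) := by
        gcongr
    _ = 9 * (4⁻¹) ^ m := by
        push_cast
        rw [two_mul, pow_add]
        have h4 : (4:ℝ≥0∞) ^ m * (4⁻¹) ^ m = 1 := by
          rw [← mul_pow, ENNReal.mul_inv_cancel (by norm_num) (by norm_num), one_pow]
        calc 9 * (4:ℝ≥0∞) ^ m * ((4⁻¹) ^ m * (4⁻¹) ^ m)
            = 9 * ((4:ℝ≥0∞) ^ m * (4⁻¹) ^ m) * (4⁻¹) ^ m := by ring
          _ = 9 * (4⁻¹) ^ m := by rw [h4, mul_one]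

/-- The strip event. -/
def StripBad (R : Set V) (a b : ℤ) (t : ℕ) : Set (lat.edgeSet → Bool) :=
  ⋃ u ∈ {u : V | |u.1| ≤ 2 ∧ a ≤ u.2 ∧ u.2 ≤ b}, PathEv R u t

lemma strip_bound (R : Set V) (q : Set.Icc (0 : ℝ) 1) (a : ℤ) (k t : ℕ) (hk : 1 ≤ k) :
    perc R p0 q (StripBad R a (a + 4 * k) t) ≤ 25 * k * (4⁻¹) ^ t := by
  have hsub : {u : V | |u.1| ≤ 2 ∧ a ≤ u.2 ∧ u.2 ≤ a + 4 * k} ⊆
      ((Finset.Icc (-2:ℤ) 2 ×ˢ Finset.Icc a (a + 4 * k) : Finset V) : Set V) := by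
    intro v hv
    obtain ⟨h1, h2, h3⟩ := hv
    rw [abs_le] at h1
    rw [Finset.mem_coe, Finset.mem_product, Finset.mem_Icc, Finset.mem_Icc]
    exact ⟨h1, h2, h3⟩
  refine (rect_bound R q _ _ _ hsub).trans ?_
  have hcard : ((Finset.Icc (-2:ℤ) 2 ×ˢ Finset.Icc a (a + 4 * k) : Finset V)).card
      ≤ 25 * k := by
    rw [Finset.card_product, Int.card_Icc, Int.card_Icc]
    have e1 : ((2:ℤ) + 1 - (-2:ℤ)).toNat = 5 := by decide
    have e2 : (a + 4 * (k:ℤ) + 1 - a).toNat = 4 * k + 1 := by omega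
    rw [e1, e2]
    omega
  refine mul_le_mul_left ?_ _
  calc (((Finset.Icc (-2:ℤ) 2 ×ˢ Finset.Icc a (a + 4 * k) : Finset V)).card : ℝ≥0∞)
      ≤ ((25 * k : ℕ) : ℝ≥0∞) := by exact_mod_cast hcard
    _ = 25 * k := by push_cast; rfl

open Classical in
/-- the far event -/
def FarBad (X : ℤ → ℕ) (n : ℤ) (k : ℕ) : Set (lat.edgeSet → Bool) :=
  ⋃ j : ℕ, ⋃ l : ℕ,
    ((if X (n - j) ≤ 2 ^ (k + j + l) then
      ⋃ u ∈ box (Z X (n - j)) (X (n - j)), PathEv (region X) u (2 * (k + j + l)) else ∅) ∪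
     (if X (n + k + 1 + l) ≤ 2 ^ (k + j + l) then
      ⋃ u ∈ box (Z X (n + k + 1 + l)) (X (n + k + 1 + l)),
        PathEv (region X) u (2 * (k + j + l)) else ∅))

lemma far_bound (X : ℤ → ℕ) (q : Set.Icc (0 : ℝ) 1) (n : ℤ) (k : ℕ) :
    perc (region X) p0 q (FarBad X n k) ≤ 18 * (4⁻¹) ^ k * (1 - 4⁻¹)⁻¹ * (1 - 4⁻¹)⁻¹ := by
  classical
  have h1 : ∀ j l : ℕ, perc (region X) p0 q
    ((if X (n - j) ≤ 2 ^ (k + j + l) then
      ⋃ u ∈ box (Z X (n - j)) (X (n - j)), PathEv (region X) u (2 * (k + j + l)) else ∅) ∪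
     (if X (n + k + 1 + l) ≤ 2 ^ (k + j + l) then
      ⋃ u ∈ box (Z X (n + k + 1 + l)) (X (n + k + 1 + l)),
        PathEv (region X) u (2 * (k + j + l)) else ∅)) ≤ 18 * (4⁻¹) ^ (k + j + l) := by
    intro j l
    refine (measure_union_le _ _).trans ?_
    have e : (18 : ℝ≥0∞) * (4⁻¹) ^ (k + j + l) = 9 * (4⁻¹) ^ (k + j + l) + 9 * (4⁻¹) ^ (k + j + l) := by
      rw [← add_mul]
      norm_num
    rw [e]
    refine add_le_add ?_ ?_
    · split_ifs with h
      · exact box_bound _ _ _ _ _ h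
      · rw [measure_empty]; exact zero_le
    · split_ifs with h
      · exact box_bound _ _ _ _ _ h
      · rw [measure_empty]; exact zero_le
  unfold FarBad
  calc _ ≤ ∑' j : ℕ, ∑' l : ℕ, (18 : ℝ≥0∞) * (4⁻¹) ^ (k + j + l) := by
        refine (measure_iUnion_le _).trans (ENNReal.tsum_le_tsum fun j => ?_)
        exact (measure_iUnion_le _).trans (ENNReal.tsum_le_tsum fun l => h1 j l)
    _ = 18 * (4⁻¹) ^ k * (1 - 4⁻¹)⁻¹ * (1 - 4⁻¹)⁻¹ := by
        have e2 : ∀ j l : ℕ, (18 : ℝ≥0∞) * (4⁻¹) ^ (k + j + l)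
            = 18 * (4⁻¹) ^ k * (4⁻¹) ^ j * (4⁻¹) ^ l := by
          intro j l
          rw [pow_add, pow_add]
          ring
        simp only [e2]
        simp only [ENNReal.tsum_mul_left, ENNReal.tsum_mul_right, ENNReal.tsum_geometric]

/-- no closed row -/
def NoRow (a b : ℤ) (W : ℕ) : Set (lat.edgeSet → Bool) :=
  {ω | ∀ h ∈ Finset.Ico a b, ω ∉ RowEv h W}

lemma norow_bound (R : Set V) (q : Set.Icc (0 : ℝ) 1) (hq : (q:ℝ) < 1) (a : ℤ) (k W : ℕ)
    (hk : 1 ≤ k)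
    (hpar : ∀ h ∈ Finset.Ico a (a + 4 * k), ∀ x : ℤ, 2 < |x| → par R p0 q (ve h x).1 = p0) :
    (perc R p0 q).real (NoRow a (a + 4 * k) W)
      ≤ 4 / (4 * k * ((1 - (q:ℝ)) ^ 5 * (1 - (p0:ℝ)) ^ (2 * W + 1))) := by
  have hd : 0 < (1 - (q:ℝ)) ^ 5 * (1 - (p0:ℝ)) ^ (2 * W + 1) := by
    have : 0 < 1 - (q:ℝ) := by linarith
    have h2 : 0 < 1 - (p0:ℝ) := by unfold p0; norm_num
    positivity
  have hk' : (0:ℝ) < k := by exact_mod_cast hk
  have hL : 4 * k * ((1 - (q:ℝ)) ^ 5 * (1 - (p0:ℝ)) ^ (2 * W + 1)) ≤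
      ∑ h ∈ Finset.Ico a (a + 4 * k), (perc R p0 q).real (RowEv h W) := by
    calc 4 * k * ((1 - (q:ℝ)) ^ 5 * (1 - (p0:ℝ)) ^ (2 * W + 1))
        = ∑ _h ∈ Finset.Ico a (a + 4 * (k:ℤ)), ((1 - (q:ℝ)) ^ 5 * (1 - (p0:ℝ)) ^ (2 * W + 1)) := by
          rw [Finset.sum_const, Int.card_Ico, nsmul_eq_mul]
          have e2 : (a + 4 * (k:ℤ) - a).toNat = 4 * k := by omega
          rw [e2]
          push_cast
          ring
      _ ≤ _ := Finset.sum_le_sum fun h hh => RowEv_lower R p0 q h W (hpar h hh)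
  have hpos : 0 < 4 * k * ((1 - (q:ℝ)) ^ 5 * (1 - (p0:ℝ)) ^ (2 * W + 1)) := by positivity
  have := cheb (perc R p0 q) (Finset.Ico a (a + 4 * k)) (fun h => RowEv h W)
    (fun h _ => measurable_pi _) (fun i _ j _ hij => (RowEv_indep R p0 q hij W).le)
    (lt_of_lt_of_le hpos hL) (NoRow a (a + 4 * k) W)
    (by
      intro ω hω
      have e : ∑ h ∈ Finset.Ico a (a + 4 * (k:ℤ)), (RowEv h W).indicator (fun _ => (1:ℝ)) ω = 0 := by
        refine Finset.sum_eq_zero fun h hh => ?_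
        exact indicator_of_notMem (hω h hh) _
      rw [e, mul_zero]
      exact (hpos.trans_le hL).le)
  refine this.trans ?_
  exact div_le_div_of_nonneg_left (by norm_num) hpos hL

/-- The bound for the failure of a cut. -/
noncomputable def eta (q : Set.Icc (0 : ℝ) 1) (t : ℕ) : ℝ≥0∞ :=
  ENNReal.ofReal (4 / (4 * (2 ^ t : ℕ) * ((1 - (q:ℝ)) ^ 5 * (1 - (p0:ℝ)) ^ (2 * (t + 1) + 1))))
    + 25 * (2 ^ t : ℕ) * (4⁻¹) ^ t + 18 * (4⁻¹) ^ (2 ^ t) * (1 - 4⁻¹)⁻¹ * (1 - 4⁻¹)⁻¹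

theorem quench {X : ℤ → ℕ} (hX : ∀ i, 1 ≤ X i) (q : Set.Icc (0 : ℝ) 1) (hq : (q:ℝ) < 1)
    (n : ℤ) (t : ℕ) (ht : 1 ≤ t)
    (hrun : ∀ i : ℤ, n < i → i ≤ n + (2 ^ t : ℕ) → X i = 2)
    (hfar : ∀ j l : ℕ, X (n - j) ≤ 2 ^ (2 ^ t + j + l) ∨
      X (n + (2 ^ t : ℕ) + 1 + l) ≤ 2 ^ (2 ^ t + j + l)) :
    perc (region X) p0 q {ω | ¬ ∃ h, T X n ≤ h ∧ h < T X (n + (2 ^ t : ℕ)) ∧
      Cut (region X) ω h} ≤ eta q t := by
  classical
  set k : ℕ := 2 ^ t with hk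
  have hk1 : 1 ≤ k := Nat.one_le_two_pow
  have hTk := T_run hrun
  have hsub : {ω | ¬ ∃ h, T X n ≤ h ∧ h < T X (n + k) ∧ Cut (region X) ω h} ⊆
      NoRow (T X n) (T X n + 4 * k) (t + 1) ∪ StripBad (region X) (T X n) (T X n + 4 * k) t ∪
        FarBad X n k := by
    intro ω hω
    by_contra hcon
    simp only [mem_union, not_or] at hcon
    obtain ⟨⟨h1, h2⟩, h3⟩ := hcon
    apply hω
    have h1' : ∃ h ∈ Finset.Ico (T X n) (T X n + 4 * k), ω ∈ RowEv h (t + 1) := by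
      by_contra hc
      push Not at hc
      exact h1 hc
    obtain ⟨h, hh, hrow⟩ := h1'
    rw [Finset.mem_Ico] at hh
    rw [hTk]
    refine ⟨h, hh.1, hh.2, ?_⟩
    have hh2 : h < T X (n + k) := by rw [hTk]; exact hh.2
    have hstrip : ∀ u : V, |u.1| ≤ 2 ∧ T X n ≤ u.2 ∧ u.2 ≤ T X (n + k) →
        ω ∉ PathEv (region X) u t := by
      intro u hu hc
      apply h2
      rw [hTk] at hu
      exact mem_iUnion₂.2 ⟨u, hu, hc⟩
    refine cut_of hrow ?_ ?_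
    · intro x hx1 hx2
      have := run_edge hX hk1 hrun hh.1 hh2 hx1 hx2
      push_cast
      omega
    · intro u hu huh v hv hvh hr
      obtain ⟨z, hz1, hz2⟩ := cross hrow huh hvh hr
      push_cast at hz1
      rcases classify_low hX hrun hh2 hu huh with h4 | ⟨j, hj⟩
      · apply hstrip u h4
        refine PathEv_of_reach hz2 (Or.inl ?_)
        have h5 := h4.1
        have h6 : |z.1| ≤ |u.1| + |u.1 - z.1| := by
          have := abs_sub_abs_le_abs_sub z.1 u.1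
          rw [abs_sub_comm] at this
          linarith
        omega
      · rcases classify_high hX hrun hh.1 hv hvh with h4 | ⟨l, hl⟩
        · apply hstrip v h4
          refine PathEv_of_reach (hr.symm.trans hz2) (Or.inl ?_)
          have h5 := h4.1
          have h6 : |z.1| ≤ |v.1| + |v.1 - z.1| := by
            have := abs_sub_abs_le_abs_sub z.1 v.1
            rw [abs_sub_comm] at this
            linarith
          omega
        · apply h3
          have hgap := T_gap hX (n - j) (k + j + l)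
          have e1 : n - (j:ℤ) + ((k + j + l : ℕ) : ℤ) = n + k + l := by push_cast; ring
          rw [e1] at hgap
          have hu3 := (mem_box_iff.1 hj).2.2
          have hv2 := (mem_box_iff.1 hl).2.1
          have e2 : n + (k:ℤ) + 1 + (l:ℤ) - 1 = n + k + l := by ring
          rw [e2] at hv2
          refine mem_iUnion₂.2 ⟨j, l, ?_⟩
          rcases hfar j l with h7 | h7
          · left
            rw [if_pos h7]
            refine mem_iUnion₂.2 ⟨u, hj, ?_⟩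
            refine PathEv_of_reach hr (Or.inr ?_)
            rw [abs_sub_comm]
            refine le_trans ?_ (le_abs_self _)
            push_cast at hgap ⊢
            linarith
          · right
            rw [if_pos h7]
            refine mem_iUnion₂.2 ⟨v, hl, ?_⟩
            refine PathEv_of_reach hr.symm (Or.inr ?_)
            refine le_trans ?_ (le_abs_self _)
            push_cast at hgap ⊢
            linarith
  refine (measure_mono hsub).trans ((measure_union_le _ _).trans ?_)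
  unfold eta
  refine add_le_add ((measure_union_le _ _).trans (add_le_add ?_ ?_)) (far_bound X q n k)
  · have hpar : ∀ h ∈ Finset.Ico (T X n) (T X n + 4 * k), ∀ x : ℤ, 2 < |x| →
        par (region X) p0 q (ve h x).1 = p0 := by
      intro h hh x hx
      rw [Finset.mem_Ico] at hh
      unfold par
      rw [if_neg]
      intro hall
      have := run_edge hX hk1 hrun hh.1 (by rw [hTk]; exact hh.2)
        (hall _ (Sym2.mem_mk_left _ _)) (hall _ (Sym2.mem_mk_right _ _))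
      omega
    have := norow_bound (region X) q hq (T X n) k (t + 1) hk1 hpar
    rw [← ENNReal.ofReal_toReal (measure_ne_top (perc (region X) p0 q)
      (NoRow (T X n) (T X n + 4 * k) (t + 1)))]
    exact ENNReal.ofReal_le_ofReal this
  · exact strip_bound (region X) q (T X n) k t hk1

end Pool.Agent.V11327.SM
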