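import Mathlib
import Pool.Agent.V11327.SMquench
import Pool.Agent.V11327.SMenv

open MeasureTheory Set Filter
open scoped ENNReal Topology

namespace Pool.Agent.V11327.SM

/-! ### `eta` tends to zero -/

lemma eta_tendsto (q : Set.Icc (0 : ℝ) 1) (hq : (q:ℝ) < 1) :
    Tendsto (eta q) atTop (𝓝 0) := by
  have hc : 0 < 1 - (q:ℝ) := by linarith
  have h1 : Tendsto (fun t : ℕ => ENNReal.ofReal (4 / (4 * (2 ^ t : ℕ) *
      ((1 - (q:ℝ)) ^ 5 * (1 - (p0:ℝ)) ^ (2 * (t + 1) + 1))))) atTop (𝓝 0) := by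
    have h2 : ∀ t : ℕ, 4 / (4 * ((2 ^ t : ℕ) : ℝ) *
        ((1 - (q:ℝ)) ^ 5 * (1 - (p0:ℝ)) ^ (2 * (t + 1) + 1)))
        = (1 / ((1 - (q:ℝ)) ^ 5 * (15 / 16) ^ 3)) * (128 / 225 : ℝ) ^ t := by
      intro t
      have hp : (1 - (p0:ℝ)) = 15 / 16 := by unfold p0; norm_num
      rw [hp]
      have e1 : (15 / 16 : ℝ) ^ (2 * (t + 1) + 1) = (15 / 16) ^ 3 * ((15 / 16) ^ 2) ^ t := by
        rw [← pow_mul, ← pow_add]
        congr 1
        ring
      rw [e1]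
      push_cast
      have h3 : (0:ℝ) < 2 ^ t := by positivity
      have e2 : (128 / 225 : ℝ) ^ t * (2 ^ t * ((15 / 16) ^ 2) ^ t) = 1 := by
        rw [← mul_pow, ← mul_pow]
        norm_num
      have h4 : (0:ℝ) < ((15 / 16) ^ 2) ^ t := by positivity
      have h5 : (0:ℝ) < (1 - (q:ℝ)) ^ 5 := by positivity
      rw [div_eq_iff (by positivity)]
      calc (4:ℝ) = 4 * ((128 / 225 : ℝ) ^ t * (2 ^ t * ((15 / 16) ^ 2) ^ t)) := by rw [e2]; norm_num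
        _ = _ := by
          field_simp
    simp only [h2]
    have h3 : Tendsto (fun t : ℕ => (1 / ((1 - (q:ℝ)) ^ 5 * (15 / 16) ^ 3)) * (128 / 225 : ℝ) ^ t)
        atTop (𝓝 ((1 / ((1 - (q:ℝ)) ^ 5 * (15 / 16) ^ 3)) * 0)) :=
      (tendsto_pow_atTop_nhds_zero_of_lt_one (by norm_num) (by norm_num)).const_mul _
    rw [mul_zero] at h3
    have := ENNReal.tendsto_ofReal h3
    rwa [ENNReal.ofReal_zero] at this
  have h4lt : (4⁻¹ : ℝ≥0∞) < 1 := by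
    rw [ENNReal.inv_lt_one]
    norm_num
  have h2lt : (2⁻¹ : ℝ≥0∞) < 1 := by
    rw [ENNReal.inv_lt_one]
    norm_num
  have h2 : Tendsto (fun t : ℕ => (25 : ℝ≥0∞) * (2 ^ t : ℕ) * (4⁻¹) ^ t) atTop (𝓝 0) := by
    have h3 : ∀ t : ℕ, (25 : ℝ≥0∞) * (2 ^ t : ℕ) * (4⁻¹) ^ t = 25 * (2⁻¹) ^ t := by
      intro t
      push_cast
      rw [mul_assoc, ← mul_pow]
      congr 2
      have : (4:ℝ≥0∞) = 2 * 2 := by norm_num
      rw [this, ENNReal.mul_inv (Or.inl (by norm_num)) (Or.inl (by norm_num)), ← mul_assoc,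
        ENNReal.mul_inv_cancel (by norm_num) (by norm_num), one_mul]
    simp only [h3]
    have := ENNReal.Tendsto.const_mul (a := 25)
      (ENNReal.tendsto_pow_atTop_nhds_zero_of_lt_one h2lt) (Or.inr (by norm_num))
    rwa [mul_zero] at this
  have h3 : Tendsto (fun t : ℕ => (18 : ℝ≥0∞) * (4⁻¹) ^ (2 ^ t) * (1 - 4⁻¹)⁻¹ * (1 - 4⁻¹)⁻¹)
      atTop (𝓝 0) := by
    have hC : (1 - (4⁻¹ : ℝ≥0∞))⁻¹ ≠ ∞ := by
      rw [Ne, ENNReal.inv_eq_top, tsub_eq_zero_iff_le, not_le]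
      exact h4lt
    have hp : Tendsto (fun t : ℕ => (4⁻¹ : ℝ≥0∞) ^ (2 ^ t)) atTop (𝓝 0) :=
      (ENNReal.tendsto_pow_atTop_nhds_zero_of_lt_one h4lt).comp
        (tendsto_pow_atTop_atTop_of_one_lt one_lt_two)
    have h5 := ENNReal.Tendsto.mul_const (b := (1 - (4⁻¹ : ℝ≥0∞))⁻¹)
      (ENNReal.Tendsto.mul_const (b := (1 - (4⁻¹ : ℝ≥0∞))⁻¹)
        (ENNReal.Tendsto.const_mul (a := 18) hp (Or.inr (by norm_num))) (Or.inr hC)) (Or.inr hC)
    simpa using h5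
  have := (h1.add h2).add h3
  rw [add_zero, add_zero] at this
  exact this

/-! ### Finiteness of the clusters of the outer graph -/

lemma infinite_path {R : Set V} {ω : lat.edgeSet → Bool} {v : V}
    (h : {w | (H R ω).Reachable v w}.Infinite) (m : ℕ) : ω ∈ PathEv R v m := by
  have hfin : {w : V | |v.1 - w.1| ≤ m ∧ |v.2 - w.2| ≤ m}.Finite := by
    refine (Finset.finite_toSet (Finset.Icc (v.1 - m) (v.1 + m) ×ˢ
      Finset.Icc (v.2 - m) (v.2 + m))).subset ?_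
    intro w hw
    obtain ⟨h1, h2⟩ := hw
    rw [abs_le] at h1 h2
    rw [Finset.mem_coe, Finset.mem_product, Finset.mem_Icc, Finset.mem_Icc]
    exact ⟨⟨by linarith, by linarith⟩, ⟨by linarith, by linarith⟩⟩
  obtain ⟨w, hw, hw2⟩ := h.exists_notMem_finite hfin
  refine PathEv_of_reach hw ?_
  by_contra hc
  push Not at hc
  exact hw2 ⟨hc.1.le, hc.2.le⟩

lemma outer_finite (R : Set V) (p q : Set.Icc (0 : ℝ) 1) (hp : 4 * ENNReal.ofReal (p:ℝ) < 1) :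
    ∀ᵐ ω ∂(perc R p q), ∀ v : V, {w | (H R ω).Reachable v w}.Finite := by
  rw [ae_all_iff]
  intro v
  rw [ae_iff]
  have h1 : ∀ m : ℕ, perc R p q {ω | ¬ {w | (H R ω).Reachable v w}.Finite}
      ≤ (4 * ENNReal.ofReal (p:ℝ)) ^ m := by
    intro m
    refine (measure_mono ?_).trans (PathEv_le R p q v m)
    intro ω hω
    exact infinite_path hω m
  have h2 := ENNReal.tendsto_pow_atTop_nhds_zero_of_lt_one hp
  exact le_antisymm (ge_of_tendsto' h2 h1) (zero_le)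

lemma four_p0_lt : 4 * ENNReal.ofReal (p0 : ℝ) < 1 := by
  rw [four_p0, ENNReal.inv_lt_one]
  norm_num

/-! ### The threshold -/

lemma p0_lt_pc : (p0 : ℝ) < pc := by
  have h8 : (1 / 8 : ℝ) ∈ Set.Icc (0:ℝ) 1 := by constructor <;> norm_num
  have h1 : theta ∅ ⟨1 / 8, h8⟩ ⟨1 / 8, h8⟩ = 0 := by
    have hlt : 4 * ENNReal.ofReal ((⟨1 / 8, h8⟩ : Set.Icc (0:ℝ) 1) : ℝ) < 1 := by
      have e : (4 : ℝ≥0∞) = ENNReal.ofReal 4 := by rw [ENNReal.ofReal_ofNat]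
      rw [e, ← ENNReal.ofReal_mul (by norm_num), ← ENNReal.ofReal_one]
      exact (ENNReal.ofReal_lt_ofReal_iff one_pos).2 (by norm_num)
    have h2 := outer_finite ∅ ⟨1 / 8, h8⟩ ⟨1 / 8, h8⟩ hlt
    unfold theta
    rw [ae_iff] at h2
    refine measure_mono_null ?_ h2
    intro ω hω hc
    apply hω
    have h3 := hc (0, 0)
    have h4 : H ∅ ω = openGraph ω := by
      ext u v
      exact ⟨fun h => h.1, fun h => ⟨h, Or.inl (notMem_empty _)⟩⟩
    rw [h4] at h3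
    exact h3
  have h2 : (1 / 8 : ℝ) ≤ pc := by
    unfold pc
    refine le_csSup ⟨1, ?_⟩ ⟨h8, h1⟩
    rintro x ⟨hx, -⟩
    exact hx.2
  refine lt_of_lt_of_le ?_ h2
  unfold p0
  norm_num

/-! ### The deterministic conclusion -/

lemma window_finite {X : ℤ → ℕ} (hX : ∀ i, 1 ≤ X i) (a b : ℤ) :
    {v : V | v ∈ region X ∧ a < v.2 ∧ v.2 ≤ b}.Finite := by
  have hbox : ∀ i : ℤ, (box (Z X i) (X i)).Finite := by
    intro i
    refine (Finset.finite_toSet (Finset.Icc (-(X i:ℤ)) (X i) ×ˢ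
      Finset.Icc (Z X i - X i) (Z X i + X i))).subset ?_
    intro v hv
    obtain ⟨h1, h2⟩ := hv
    rw [abs_le] at h1 h2
    rw [Finset.mem_coe, Finset.mem_product, Finset.mem_Icc, Finset.mem_Icc]
    exact ⟨h1, by linarith, by linarith⟩
  have hfin : (⋃ i ∈ Finset.Icc (-(|a| + X 0)) (|b| + 1), box (Z X i) (X i)).Finite :=
    Set.Finite.biUnion (Finset.finite_toSet _) fun i _ => hbox i
  refine hfin.subset ?_
  rintro v ⟨hv, h1, h2⟩
  obtain ⟨i, hi⟩ := mem_region.1 hv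
  refine mem_iUnion₂.2 ⟨i, ?_, hi⟩
  rw [mem_box_iff] at hi
  obtain ⟨-, hi2, hi3⟩ := hi
  rw [Finset.mem_Icc]
  have hT0 := T_zero X
  have ha := neg_abs_le a
  have hb := le_abs_self b
  constructor
  · by_contra hc
    push Not at hc
    have hi0 : i < 0 := by
      have := abs_nonneg a
      omega
    obtain ⟨k, hk⟩ := Int.eq_ofNat_of_zero_le (show 0 ≤ 0 - i by omega)
    have := T_gap hX i k
    rw [← hk] at this
    have e : i + (0 - i) = 0 := by ring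
    rw [e, hT0] at this
    linarith
  · by_contra hc
    push Not at hc
    have hi0 : 0 ≤ i - 1 := by
      have := abs_nonneg b
      omega
    obtain ⟨k, hk⟩ := Int.eq_ofNat_of_zero_le hi0
    have := T_gap hX 0 k
    rw [← hk, zero_add, hT0] at this
    have h3 : (0:ℤ) ≤ X 0 := by positivity
    linarith

lemma cluster_finite {X : ℤ → ℕ} (hX : ∀ i, 1 ≤ X i) {ω : lat.edgeSet → Bool}
    (hout : ∀ v : V, {w | (H (region X) ω).Reachable v w}.Finite)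
    {h h' : ℤ} (hh : 0 ≤ h) (hh' : h' < 0) (hc : Cut (region X) ω h)
    (hc' : Cut (region X) ω h') : {v | (openGraph ω).Reachable (0, 0) v}.Finite := by
  have h0 : ((0, 0) : V) ∈ region X := by
    refine mem_region.2 ⟨0, ?_⟩
    constructor
    · simp
    · simp [Z]
  set F : Set V := {v : V | v ∈ region X ∧ h' < v.2 ∧ v.2 ≤ h} with hF
  have hFfin : F.Finite := window_finite hX h' h
  have hCF : ∀ v ∈ region X, (openGraph ω).Reachable (0, 0) v → v ∈ F := by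
    intro v hv hr
    refine ⟨hv, ?_, ?_⟩
    · by_contra hcon
      exact hc' v hv (not_lt.1 hcon) (0, 0) h0 hh' hr.symm
    · by_contra hcon
      exact hc (0, 0) h0 hh v hv (not_le.1 hcon) hr
  have hK : (⋃ w ∈ F, {z | (H (region X) ω).Reachable w z}).Finite :=
    Set.Finite.biUnion hFfin fun w _ => hout w
  refine hK.subset ?_
  intro v hv
  by_contra hcon
  obtain ⟨π⟩ := hv
  obtain ⟨d, hd, hd1, hd2⟩ := π.exists_boundary_dart
    (⋃ w ∈ F, {z | (H (region X) ω).Reachable w z})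
    (mem_iUnion₂.2 ⟨(0, 0), hCF _ h0 (SimpleGraph.Reachable.refl _),
      SimpleGraph.Reachable.refl _⟩) hcon
  obtain ⟨w, hw, hwr⟩ := mem_iUnion₂.1 hd1
  classical
  have hreach : (openGraph ω).Reachable (0, 0) d.snd :=
    ⟨π.takeUntil d.snd (π.dart_snd_mem_support_of_mem_darts hd)⟩
  by_cases hq : d.snd ∈ region X
  · exact hd2 (mem_iUnion₂.2 ⟨d.snd, hCF _ hq hreach, SimpleGraph.Reachable.refl _⟩)
  · have hadj : (H (region X) ω).Adj d.fst d.snd := ⟨d.adj, Or.inr hq⟩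
    exact hd2 (mem_iUnion₂.2 ⟨w, hw, SimpleGraph.Reachable.trans hwr hadj.reachable⟩)

/-! ### The environment -/

lemma far_of_not_Bad {X : ℤ → ℕ} {n : ℤ} {t : ℕ} (h : X ∉ Bad n (2 ^ t) t) (j l : ℕ) :
    X (n - j) ≤ 2 ^ (2 ^ t + j + l) ∨ X (n + (2 ^ t : ℕ) + 1 + l) ≤ 2 ^ (2 ^ t + j + l) := by
  by_contra hcon
  push Not at hcon
  obtain ⟨h1, h2⟩ := hcon
  apply h
  set g : ℕ := 2 ^ t + j + l with hg
  have hg0 : g ≠ 0 := by
    have : 0 < 2 ^ t := Nat.two_pow_pos t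
    omega
  have hlog1 : 2 ^ Nat.log 2 g ≤ g := Nat.pow_log_le_self 2 hg0
  have hlog2 : g < 2 ^ (Nat.log 2 g + 1) := Nat.lt_pow_succ_log_self one_lt_two g
  have hlog3 : t ≤ Nat.log 2 g := by
    refine Nat.le_log_of_pow_le one_lt_two ?_
    omega
  obtain ⟨s, hs⟩ := Nat.exists_eq_add_of_le hlog3
  have h2t : 0 < 2 ^ t := Nat.two_pow_pos t
  refine mem_iUnion.2 ⟨s, mem_iUnion₂.2 ⟨j, ?_, mem_iUnion₂.2 ⟨l, ?_, ?_, ?_⟩⟩⟩
  · rw [Finset.mem_range, ← hs]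
    omega
  · rw [Finset.mem_range, ← hs]
    omega
  · rw [← hs]
    exact (Nat.pow_le_pow_right (by norm_num) hlog1).trans h1.le
  · rw [← hs]
    exact (Nat.pow_le_pow_right (by norm_num) hlog1).trans h2.le

lemma tail_tendsto : Tendsto (fun t : ℕ =>
    ∑' s : ℕ, ENNReal.ofReal (4 / ((t + s : ℕ) + 1 : ℝ) ^ 2)) atTop (𝓝 0) := by
  have hsum : Summable (fun s : ℕ => 4 / (((s:ℕ):ℝ) + 1) ^ 2) := by
    have h1 : Summable (fun n : ℕ => 1 / ((n:ℝ)) ^ 2) := Real.summable_one_div_nat_pow.2 one_lt_two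
    have h2 := ((summable_nat_add_iff 1).2 h1).mul_left 4
    refine h2.congr fun s => ?_
    push_cast
    ring
  have h3 := ENNReal.tendsto_sum_nat_add
    (fun s : ℕ => ENNReal.ofReal (4 / (((s:ℕ):ℝ) + 1) ^ 2)) hsum.tsum_ofReal_ne_top
  refine h3.congr fun t => ?_
  refine tsum_congr fun s => ?_
  rw [add_comm s t]

lemma ae_env (m : Measure ℕ) [IsProbabilityMeasure m]
    (hm : ∀ s : ℕ, m.real (Ici (2 ^ 2 ^ s)) ≤ 1 / (2 ^ s * (s + 1)))
    (h2 : 0 < m.real {2}) (pos : ℕ → ℕ → ℤ)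
    (hpos : ∀ t i j, i ≠ j → pos t i + (2 ^ t : ℕ) ≤ pos t j ∨ pos t j + (2 ^ t : ℕ) ≤ pos t i) :
    ∀ᵐ X ∂(env m), ∀ t0 : ℕ, ∃ t, t0 ≤ t ∧ ∃ i, X ∈ Run (pos t i) (2 ^ t) ∧
      X ∉ Bad (pos t i) (2 ^ t) t := by
  rw [ae_all_iff]
  intro t0
  rw [ae_iff]
  set e : ℕ → ℝ≥0∞ := fun t => ∑' s : ℕ, ENNReal.ofReal (4 / ((t + s : ℕ) + 1 : ℝ) ^ 2) with he
  have he0 : Tendsto e atTop (𝓝 0) := tail_tendsto
  have hfin : ∀ᶠ t in atTop, e t < 1 := he0.eventually (gt_mem_nhds one_pos)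
  have h3 : ∀ᶠ t in atTop, (env m) {X | ¬ ∃ t, t0 ≤ t ∧ ∃ i, X ∈ Run (pos t i) (2 ^ t) ∧
      X ∉ Bad (pos t i) (2 ^ t) t} ≤ 2 * e t := by
    filter_upwards [hfin, eventually_ge_atTop t0] with t ht ht0
    have hne : e t ≠ ∞ := (ht.trans ENNReal.one_lt_top).ne
    have h4 := env_good m hm h2 (2 ^ t) t (pos t) (hpos t) (e t).toReal ENNReal.toReal_nonneg
      (by rw [ENNReal.ofReal_toReal hne])
    have hsub : {X : ℤ → ℕ | ¬ ∃ t, t0 ≤ t ∧ ∃ i, X ∈ Run (pos t i) (2 ^ t) ∧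
        X ∉ Bad (pos t i) (2 ^ t) t} ⊆
        {X | ∀ i, ¬ (X ∈ Run (pos t i) (2 ^ t) ∧ X ∉ Bad (pos t i) (2 ^ t) t)} := by
      intro X hX i hi
      exact hX ⟨t, ht0, i, hi⟩
    refine (measure_mono hsub).trans ?_
    rw [← ENNReal.ofReal_toReal (measure_ne_top (env m) _)]
    refine (ENNReal.ofReal_le_ofReal h4).trans ?_
    rw [ENNReal.ofReal_mul (by norm_num), ENNReal.ofReal_toReal hne, ENNReal.ofReal_ofNat]
  have h5 : Tendsto (fun t => 2 * e t) atTop (𝓝 0) := by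
    have := ENNReal.Tendsto.const_mul (a := 2) he0 (Or.inr (by norm_num))
    rwa [mul_zero] at this
  exact le_antisymm (ge_of_tendsto h5 h3) zero_le

/-- The main theorem for laws with the required tails. -/
theorem main (m : Measure ℕ) [IsProbabilityMeasure m]
    (hm : ∀ s : ℕ, m.real (Ici (2 ^ 2 ^ s)) ≤ 1 / (2 ^ s * (s + 1)))
    (h2 : 0 < m.real {2}) (h0 : m {0} = 0) (q : Set.Icc (0 : ℝ) 1) (hq : (q:ℝ) < 1) :
    ∀ᵐ X ∂(env m), theta (region X) p0 q = 0 := by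
  have hX1 : ∀ᵐ X ∂(env m), ∀ i, 1 ≤ X i := by
    rw [ae_all_iff]
    intro i
    have h3 : ∀ᵐ x ∂m, 1 ≤ x := by
      rw [ae_iff]
      have : {x : ℕ | ¬ 1 ≤ x} = {0} := by
        ext x
        simp
      rw [this, h0]
    have h4 : (env m).map (fun X => X i) = m := Measure.infinitePi_map_eval _ i
    rw [← h4] at h3
    exact ae_of_ae_map (measurable_pi_apply i).aemeasurable h3
  have hpos1 : ∀ t i j : ℕ, i ≠ j →
      ((2 ^ t : ℕ) : ℤ) * i + (2 ^ t : ℕ) ≤ ((2 ^ t : ℕ) : ℤ) * j ∨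
      ((2 ^ t : ℕ) : ℤ) * j + (2 ^ t : ℕ) ≤ ((2 ^ t : ℕ) : ℤ) * i := by
    intro t i j hij
    have hk : (0:ℤ) ≤ ((2 ^ t : ℕ) : ℤ) := by positivity
    rcases lt_or_gt_of_ne hij with h | h
    · left
      have h5 : (i:ℤ) + 1 ≤ j := by exact_mod_cast h
      calc ((2 ^ t : ℕ) : ℤ) * i + (2 ^ t : ℕ) = ((2 ^ t : ℕ) : ℤ) * (i + 1) := by ring
        _ ≤ _ := mul_le_mul_of_nonneg_left h5 hk
    · right
      have h5 : (j:ℤ) + 1 ≤ i := by exact_mod_cast h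
      calc ((2 ^ t : ℕ) : ℤ) * j + (2 ^ t : ℕ) = ((2 ^ t : ℕ) : ℤ) * (j + 1) := by ring
        _ ≤ _ := mul_le_mul_of_nonneg_left h5 hk
  have hup := ae_env m hm h2 (fun t i => ((2 ^ t : ℕ) : ℤ) * i) hpos1
  have hdown := ae_env m hm h2 (fun t i => -(((2 ^ t : ℕ) : ℤ) * (i + 2))) (by
    intro t i j hij
    rcases hpos1 t i j hij with h | h
    · right
      linarith
    · left
      linarith)
  filter_upwards [hX1, hup, hdown] with X hX hu hd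
  -- the failure of a cut above
  have hA : ∀ t0 : ℕ, 1 ≤ t0 → ∃ t, t0 ≤ t ∧
      perc (region X) p0 q {ω | ¬ ∃ h, 0 ≤ h ∧ Cut (region X) ω h} ≤ eta q t := by
    intro t0 ht0
    obtain ⟨t, ht, i, hi1, hi2⟩ := hu t0
    refine ⟨t, ht, ?_⟩
    have := quench hX q hq (((2 ^ t : ℕ) : ℤ) * i) t (ht0.trans ht) (mem_Run.1 hi1)
      (far_of_not_Bad hi2)
    refine (measure_mono ?_).trans this
    intro ω hω hcon
    obtain ⟨h, h1, h2, h3⟩ := hcon
    refine hω ⟨h, ?_, h3⟩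
    have h4 : (0:ℤ) ≤ ((2 ^ t : ℕ) : ℤ) * i := by positivity
    have h5 := T_mono hX h4
    rw [T_zero] at h5
    have h6 : (0:ℤ) ≤ X 0 := by positivity
    linarith
  have hB : ∀ t0 : ℕ, 1 ≤ t0 → ∃ t, t0 ≤ t ∧
      perc (region X) p0 q {ω | ¬ ∃ h, h < 0 ∧ Cut (region X) ω h} ≤ eta q t := by
    intro t0 ht0
    obtain ⟨t, ht, i, hi1, hi2⟩ := hd t0
    refine ⟨t, ht, ?_⟩
    have := quench hX q hq (-(((2 ^ t : ℕ) : ℤ) * (i + 2))) t (ht0.trans ht) (mem_Run.1 hi1)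
      (far_of_not_Bad hi2)
    refine (measure_mono ?_).trans this
    intro ω hω hcon
    obtain ⟨h, h1, h2, h3⟩ := hcon
    refine hω ⟨h, ?_, h3⟩
    have h4 : -(((2 ^ t : ℕ) : ℤ) * (i + 2)) + (2 ^ t : ℕ) ≤ -1 := by
      have hk : (1:ℤ) ≤ ((2 ^ t : ℕ) : ℤ) := by exact_mod_cast Nat.one_le_two_pow
      have hi0 : (0:ℤ) ≤ i := by positivity
      have h6 : (0:ℤ) ≤ ((2 ^ t : ℕ) : ℤ) * i := by positivity
      have e : -(((2 ^ t : ℕ) : ℤ) * (i + 2)) + (2 ^ t : ℕ)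
          = -(((2 ^ t : ℕ) : ℤ) * i) - ((2 ^ t : ℕ) : ℤ) := by ring
      rw [e]
      linarith
    have h5 := T_mono hX h4
    rw [T_neg_one] at h5
    have h6 : (1:ℤ) ≤ X 0 := by exact_mod_cast hX 0
    linarith
  have hlim := eta_tendsto q hq
  have hzero : ∀ S : Set (lat.edgeSet → Bool),
      (∀ t0 : ℕ, 1 ≤ t0 → ∃ t, t0 ≤ t ∧ perc (region X) p0 q S ≤ eta q t) →
      perc (region X) p0 q S = 0 := by
    intro S hS
    by_contra hne
    have hpos : 0 < perc (region X) p0 q S := pos_iff_ne_zero.2 hne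
    have hev : ∀ᶠ t in atTop, eta q t < perc (region X) p0 q S :=
      hlim.eventually (gt_mem_nhds hpos)
    obtain ⟨N, hN⟩ := eventually_atTop.1 hev
    obtain ⟨t, ht, hle⟩ := hS (N + 1) (by omega)
    exact absurd hle (not_le.2 (hN t (by omega)))
  have hA0 := hzero _ hA
  have hB0 := hzero _ hB
  have hC0 := outer_finite (region X) p0 q four_p0_lt
  rw [ae_iff] at hC0
  unfold theta
  refine measure_mono_null ?_ (measure_union_null (measure_union_null hA0 hB0) hC0)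
  intro ω hω
  by_contra hcon
  simp only [mem_union, not_or] at hcon
  obtain ⟨⟨h3, h4⟩, h5⟩ := hcon
  have h3' : ∃ h, 0 ≤ h ∧ Cut (region X) ω h := not_not.1 h3
  have h4' : ∃ h, h < 0 ∧ Cut (region X) ω h := not_not.1 h4
  have h5' : ∀ v : V, {w | (H (region X) ω).Reachable v w}.Finite := not_not.1 h5
  obtain ⟨h, hh, hc⟩ := h3'
  obtain ⟨h', hh', hc'⟩ := h4'
  exact hω (cluster_finite hX h5' hh hh' hc hc')

end Pool.Agent.V11327.SM
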