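import Mathlib

open MeasureTheory Set Filter
open scoped ENNReal Topology

namespace Pool.Agent.V11327.SM

/-- the tails `a i = 2^{-i} / (i+1)` -/
noncomputable def tl (i : ℕ) : ℝ := 1 / (2 ^ i * (i + 1))

lemma tl_pos (i : ℕ) : 0 < tl i := by
  unfold tl
  positivity

lemma tl_succ_le (i : ℕ) : tl (i + 1) ≤ tl i := by
  unfold tl
  refine one_div_le_one_div_of_le (by positivity) ?_
  push_cast
  rw [pow_succ]
  have h : (0:ℝ) < 2 ^ i := by positivity
  have h2 : (0:ℝ) ≤ i := by positivity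
  nlinarith [mul_nonneg h.le h2]

lemma tl_tendsto : Tendsto tl atTop (𝓝 0) := by
  have h : Tendsto (fun i : ℕ => (1:ℝ) / ((i:ℝ) + 1)) atTop (𝓝 0) :=
    tendsto_one_div_add_atTop_nhds_zero_nat
  refine squeeze_zero (fun i => (tl_pos i).le) (fun i => ?_) h
  unfold tl
  refine one_div_le_one_div_of_le (by positivity) ?_
  have h1 : (1:ℝ) ≤ 2 ^ i := one_le_pow₀ (by norm_num)
  have h2 : (0:ℝ) < (i:ℝ) + 1 := by positivity
  nlinarith

lemma hasSum_tl (s : ℕ) : HasSum (fun i => tl (i + s) - tl (i + s + 1)) (tl s) := by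
  rw [hasSum_iff_tendsto_nat_of_nonneg]
  · have h : ∀ n : ℕ, ∑ i ∈ Finset.range n, (tl (i + s) - tl (i + s + 1)) = tl s - tl (n + s) := by
      intro n
      induction n with
      | zero => simp
      | succ n ih =>
        rw [Finset.sum_range_succ, ih]
        have : n + 1 + s = n + s + 1 := by ring
        rw [this]
        ring
    simp only [h]
    have h2 : Tendsto (fun n => tl (n + s)) atTop (𝓝 0) :=
      (tendsto_add_atTop_iff_nat s).2 tl_tendsto
    have h3 := h2.const_sub (tl s)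
    rwa [sub_zero] at h3
  · intro i
    linarith [tl_succ_le (i + s)]

/-- the law of `X` -/
noncomputable def law : Measure ℕ :=
  Measure.sum (fun i : ℕ => ENNReal.ofReal (tl i - tl (i + 1)) • Measure.dirac (2 ^ 2 ^ i))

lemma law_apply (S : Set ℕ) :
    law S = ∑' i : ℕ, ENNReal.ofReal (tl i - tl (i + 1)) * S.indicator 1 (2 ^ 2 ^ i) := by
  unfold law
  rw [Measure.sum_apply _ MeasurableSet.of_discrete]
  refine tsum_congr fun i => ?_
  rw [Measure.smul_apply, Measure.dirac_apply' _ MeasurableSet.of_discrete, smul_eq_mul]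

lemma law_univ : law Set.univ = 1 := by
  rw [law_apply]
  simp only [indicator_univ, Pi.one_apply, mul_one]
  have h := hasSum_tl 0
  simp only [add_zero] at h
  rw [← ENNReal.ofReal_tsum_of_nonneg (fun i => by linarith [tl_succ_le i]) h.summable, h.tsum_eq]
  simp [tl]

instance : IsProbabilityMeasure law := ⟨law_univ⟩

lemma law_zero : law {0} = 0 := by
  rw [law_apply, ENNReal.tsum_eq_zero]
  intro i
  have : (2:ℕ) ^ 2 ^ i ∉ ({0} : Set ℕ) := by
    rw [mem_singleton_iff]
    positivity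
  rw [indicator_of_notMem this, mul_zero]

lemma law_two : 0 < law.real {2} := by
  unfold Measure.real
  refine ENNReal.toReal_pos ?_ (measure_ne_top _ _)
  rw [law_apply]
  intro h
  rw [ENNReal.tsum_eq_zero] at h
  have h0 := h 0
  have h1 : (2:ℕ) ^ 2 ^ 0 ∈ ({2} : Set ℕ) := by simp
  rw [indicator_of_mem h1, Pi.one_apply, mul_one, ENNReal.ofReal_eq_zero] at h0
  norm_num [tl] at h0

lemma law_tail (s : ℕ) : law.real (Ici (2 ^ 2 ^ s)) ≤ 1 / (2 ^ s * (s + 1)) := by
  unfold Measure.real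
  refine ENNReal.toReal_le_of_le_ofReal (by positivity) ?_
  rw [law_apply, ← ENNReal.summable.sum_add_tsum_nat_add' (k := s)]
  have h0 : ∑ i ∈ Finset.range s, ENNReal.ofReal (tl i - tl (i + 1)) *
      (Ici (2 ^ 2 ^ s)).indicator (1 : ℕ → ℝ≥0∞) (2 ^ 2 ^ i) = 0 := by
    refine Finset.sum_eq_zero fun i hi => ?_
    rw [Finset.mem_range] at hi
    have : (2:ℕ) ^ 2 ^ i ∉ Ici (2 ^ 2 ^ s) := by
      rw [mem_Ici, not_le]
      exact Nat.pow_lt_pow_right (by norm_num) (Nat.pow_lt_pow_right (by norm_num) hi)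
    rw [indicator_of_notMem this, mul_zero]
  rw [h0, zero_add]
  have h1 := hasSum_tl s
  calc ∑' i : ℕ, ENNReal.ofReal (tl (i + s) - tl (i + s + 1)) *
        (Ici (2 ^ 2 ^ s)).indicator (1 : ℕ → ℝ≥0∞) (2 ^ 2 ^ (i + s))
      ≤ ∑' i : ℕ, ENNReal.ofReal (tl (i + s) - tl (i + s + 1)) := by
        refine ENNReal.tsum_le_tsum fun i => ?_
        refine mul_le_of_le_one_right zero_le ?_
        exact indicator_le_self' (fun _ _ => zero_le_one) _
    _ = ENNReal.ofReal (tl s) := by
        rw [← ENNReal.ofReal_tsum_of_nonneg (fun i => by linarith [tl_succ_le (i + s)])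
          h1.summable, h1.tsum_eq]
    _ = ENNReal.ofReal (1 / (2 ^ s * (s + 1))) := rfl

lemma law_log : ∫⁻ x, ENNReal.ofReal (Real.log x) ∂law = ∞ := by
  unfold law
  rw [lintegral_sum_measure]
  have h1 : ∀ i : ℕ, ∫⁻ x, ENNReal.ofReal (Real.log x)
      ∂(ENNReal.ofReal (tl i - tl (i + 1)) • Measure.dirac ((2:ℕ) ^ 2 ^ i))
      = ENNReal.ofReal ((tl i - tl (i + 1)) * (2 ^ i * Real.log 2)) := by
    intro i
    rw [lintegral_smul_measure, lintegral_dirac, smul_eq_mul,
      ENNReal.ofReal_mul (by linarith [tl_succ_le i])]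
    congr 2
    push_cast
    rw [Real.log_pow]
    push_cast
    rfl
  simp only [h1]
  by_contra hne
  have h2 := ENNReal.summable_toReal hne
  have h3 : ∀ i : ℕ, (Real.log 2 / 2) * (1 / ((i:ℝ) + 1)) ≤
      (ENNReal.ofReal ((tl i - tl (i + 1)) * (2 ^ i * Real.log 2))).toReal := by
    intro i
    have hlog : 0 < Real.log 2 := Real.log_pos one_lt_two
    have e : (tl i - tl (i + 1)) * (2 ^ i * Real.log 2)
        = Real.log 2 * (1 / ((i:ℝ) + 1) - 1 / (2 * ((i:ℝ) + 2))) := by
      unfold tl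
      push_cast
      rw [pow_succ]
      have h4 : (2:ℝ) ^ i ≠ 0 := by positivity
      have h5 : ((i:ℝ) + 1) ≠ 0 := by positivity
      have h6 : ((i:ℝ) + 2) ≠ 0 := by positivity
      have h7 : ((i:ℝ) + 1 + 1) ≠ 0 := by positivity
      field_simp
      ring
    have h8 : 1 / (2 * ((i:ℝ) + 2)) ≤ 1 / 2 * (1 / ((i:ℝ) + 1)) := by
      rw [← one_div_mul_one_div_rev, mul_comm]
      refine mul_le_mul_of_nonneg_left ?_ (by norm_num)
      exact one_div_le_one_div_of_le (by positivity) (by linarith)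
    have h9 : Real.log 2 / 2 * (1 / ((i:ℝ) + 1)) ≤ (tl i - tl (i + 1)) * (2 ^ i * Real.log 2) := by
      rw [e]
      have h10 : 1 / 2 * (1 / ((i:ℝ) + 1)) ≤ 1 / ((i:ℝ) + 1) - 1 / (2 * ((i:ℝ) + 2)) := by
        linarith
      calc Real.log 2 / 2 * (1 / ((i:ℝ) + 1)) = Real.log 2 * (1 / 2 * (1 / ((i:ℝ) + 1))) := by ring
        _ ≤ _ := mul_le_mul_of_nonneg_left h10 hlog.le
    rw [ENNReal.toReal_ofReal]
    · exact h9
    · exact le_trans (by positivity) h9
  have h4 := Summable.of_nonneg_of_le (fun i => by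
    have hlog : 0 < Real.log 2 := Real.log_pos one_lt_two
    positivity) h3 h2
  have h5 : Summable (fun i : ℕ => 1 / ((i:ℝ) + 1)) := by
    have hlog : Real.log 2 / 2 ≠ 0 := by
      have : 0 < Real.log 2 := Real.log_pos one_lt_two
      positivity
    exact (summable_mul_left_iff hlog).1 h4
  have h6 : Summable (fun n : ℕ => 1 / (n:ℝ)) := by
    rw [← summable_nat_add_iff 1]
    refine h5.congr fun i => ?_
    push_cast
    rfl
  exact Real.not_summable_one_div_natCast h6

end Pool.Agent.V11327.SM
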