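import Mathlib

open MeasureTheory ProbabilityTheory Filter Set Topology
open scoped ENNReal

namespace Pool.Agent.V11327.SX

instance : IsProbabilityMeasure (expMeasure 1) := isProbabilityMeasure_expMeasure one_pos

theorem exp_Iic (x : ℝ) (hx : 0 ≤ x) :
    expMeasure 1 (Iic x) = ENNReal.ofReal (1 - Real.exp (-x)) := by
  rw [← ofReal_cdf, cdf_expMeasure_eq one_pos, if_pos hx, one_mul]

theorem exp_Iic_zero : expMeasure 1 (Iic 0) = 0 := by
  rw [exp_Iic 0 le_rfl]; simp

theorem exp_Ioi (x : ℝ) (hx : 0 ≤ x) : expMeasure 1 (Ioi x) = ENNReal.ofReal (Real.exp (-x)) := by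
  have h1 : expMeasure 1 (Ioi x) = 1 - expMeasure 1 (Iic x) := by
    rw [← compl_Iic, prob_compl_eq_one_sub measurableSet_Iic]
  rw [h1, exp_Iic x hx, ← ENNReal.ofReal_one, ← ENNReal.ofReal_sub]
  · congr 1; ring
  · have : Real.exp (-x) ≤ 1 := Real.exp_le_one_iff.2 (by linarith)
    linarith

theorem exp_lintegral : ∫⁻ x, ENNReal.ofReal x ∂(expMeasure 1) = 1 := by
  have hnn : 0 ≤ᵐ[expMeasure 1] (fun x : ℝ => x) := by
    have : ∀ᵐ x ∂(expMeasure 1), x ∉ Iic (0:ℝ) := measure_eq_zero_iff_ae_notMem.1 exp_Iic_zero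
    filter_upwards [this] with x hx
    have : ¬ x ≤ 0 := hx
    show (0:ℝ) ≤ x
    linarith [not_le.1 this]
  rw [lintegral_eq_lintegral_meas_lt (expMeasure 1) hnn measurable_id.aemeasurable]
  have h1 : ∫⁻ t in Ioi (0:ℝ), expMeasure 1 {a : ℝ | t < a}
      = ∫⁻ t in Ioi (0:ℝ), ENNReal.ofReal (Real.exp (-t)) := by
    apply setLIntegral_congr_fun measurableSet_Ioi
    intro t ht
    exact exp_Ioi t (le_of_lt ht)
  rw [h1, ← ofReal_integral_eq_lintegral_ofReal (integrableOn_exp_neg_Ioi 0)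
    (Eventually.of_forall fun t => (Real.exp_pos _).le), integral_exp_neg_Ioi_zero,
    ENNReal.ofReal_one]

theorem exp_nonneg : 0 ≤ᵐ[expMeasure 1] (fun x : ℝ => x) := by
  have : ∀ᵐ x ∂(expMeasure 1), x ∉ Iic (0:ℝ) := measure_eq_zero_iff_ae_notMem.1 exp_Iic_zero
  filter_upwards [this] with x hx
  have : ¬ x ≤ 0 := hx
  show (0:ℝ) ≤ x
  linarith [not_le.1 this]

theorem exp_integrable : Integrable (fun x : ℝ => x) (expMeasure 1) := by
  rw [← lintegral_ofReal_ne_top_iff_integrable (f := fun x : ℝ => x)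
    measurable_id.aestronglyMeasurable exp_nonneg, exp_lintegral]
  exact ENNReal.one_ne_top

theorem exp_mean : ∫ x, x ∂(expMeasure 1) = 1 := by
  rw [integral_eq_lintegral_of_nonneg_ae exp_nonneg measurable_id.aestronglyMeasurable,
    exp_lintegral, ENNReal.toReal_one]

section
variable {Ω : Type*} [MeasurableSpace Ω] {P : Measure Ω} {E : ℕ → Ω → ℝ}

theorem law_pos (hm : ∀ n, Measurable (E n)) (hlaw : ∀ n, P.map (E n) = expMeasure 1) :
    ∀ᵐ ω ∂P, ∀ n, 0 < E n ω := by
  rw [ae_all_iff]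
  intro n
  have h : P (E n ⁻¹' Iic 0) = 0 := by
    rw [← Measure.map_apply (hm n) measurableSet_Iic, hlaw n, exp_Iic_zero]
  filter_upwards [measure_eq_zero_iff_ae_notMem.1 h] with ω hω
  have : ¬ E n ω ≤ 0 := hω
  exact not_le.1 this

theorem law_slln (hm : ∀ n, Measurable (E n)) (hind : iIndepFun E P)
    (hlaw : ∀ n, P.map (E n) = expMeasure 1) :
    ∀ᵐ ω ∂P, Tendsto (fun n : ℕ => (∑ k ∈ Finset.range n, E k ω) / n) atTop (𝓝 1) := by
  have hint : Integrable (E 0) P := by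
    have h1 : Integrable (fun x : ℝ => x) (P.map (E 0)) := by rw [hlaw 0]; exact exp_integrable
    exact (integrable_map_measure measurable_id.aestronglyMeasurable (hm 0).aemeasurable).1 h1
  have hmean : ∫ ω, E 0 ω ∂P = 1 := by
    have h1 := integral_map (μ := P) (hm 0).aemeasurable (f := fun x : ℝ => x)
      measurable_id.aestronglyMeasurable
    rw [← h1, hlaw 0, exp_mean]
  have h := strong_law_ae_real E hint (fun i j hij => hind.indepFun hij)
    (fun i => ⟨(hm i).aemeasurable, (hm 0).aemeasurable, by rw [hlaw i, hlaw 0]⟩)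
  rw [hmean] at h
  exact h

/-- The good event has positive probability. -/
theorem good_pos [IsProbabilityMeasure P] (hm : ∀ n, Measurable (E n)) (hind : iIndepFun E P)
    (hlaw : ∀ n, P.map (E n) = expMeasure 1) :
    0 < P {ω | E 0 ω ≤ 1 / 400 ∧
      ∀ n : ℕ, 1 ≤ n → ∑ k ∈ Finset.range (n + 1), E k ω ≤ 20 / 9 * n - 21 / 10} := by
  -- tail events
  let D : ℕ → Set Ω := fun m => {ω | ∀ n, m ≤ n → ∑ k ∈ Finset.Ico m n, E k ω ≤ 3 / 2 * n}
  have hunion : ∀ᵐ ω ∂P, ∃ m, 10 ≤ m ∧ ω ∈ D m := by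
    filter_upwards [law_slln hm hind hlaw, law_pos hm hlaw] with ω h1 h2
    have h3 : ∀ᶠ n : ℕ in atTop, (∑ k ∈ Finset.range n, E k ω) / n < 3 / 2 :=
      h1.eventually (gt_mem_nhds (by norm_num))
    obtain ⟨m, hm'⟩ := eventually_atTop.1 h3
    refine ⟨max m 10, le_max_right _ _, ?_⟩
    intro n hn
    have hn10 : 10 ≤ n := (le_max_right _ _).trans hn
    have hn0 : (0:ℝ) < n := by positivity
    have h4 := hm' n ((le_max_left _ _).trans hn)
    rw [div_lt_iff₀ hn0] at h4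
    have h5 : ∑ k ∈ Finset.range (max m 10), E k ω + ∑ k ∈ Finset.Ico (max m 10) n, E k ω
      = ∑ k ∈ Finset.range n, E k ω := Finset.sum_range_add_sum_Ico _ hn
    have h6 : 0 ≤ ∑ k ∈ Finset.range (max m 10), E k ω :=
      Finset.sum_nonneg fun k _ => (h2 k).le
    linarith
  have hex : ∃ m, 10 ≤ m ∧ 0 < P (D m) := by
    by_contra hcon
    push Not at hcon
    have h0 : P (⋃ m ∈ {m : ℕ | 10 ≤ m}, D m) = 0 := by
      rw [measure_biUnion_null_iff (Set.to_countable _)]
      intro m hm'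
      exact le_antisymm (hcon m hm') bot_le
    have h1 : ∀ᵐ ω ∂P, ω ∈ ⋃ m ∈ {m : ℕ | 10 ≤ m}, D m := by
      filter_upwards [hunion] with ω hω
      obtain ⟨m, hm1, hm2⟩ := hω
      exact mem_biUnion (show m ∈ {m : ℕ | 10 ≤ m} from hm1) hm2
    have h2 : ∀ᵐ ω ∂P, False := by
      filter_upwards [h1, measure_eq_zero_iff_ae_notMem.1 h0] with ω a b
      exact b a
    rw [ae_iff] at h2
    simp at h2
  obtain ⟨m, hm10, hDm⟩ := hex
  -- the finite block
  let A : Set Ω := ⋂ k ∈ Finset.range m, E k ⁻¹' Iic (1 / 400)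
  have hA : 0 < P A := by
    have h1 := hind.measure_inter_preimage_eq_mul (Finset.range m)
      (sets := fun _ => Iic (1 / 400 : ℝ)) (fun i _ => measurableSet_Iic)
    show 0 < P (⋂ k ∈ Finset.range m, E k ⁻¹' Iic (1 / 400))
    rw [h1, pos_iff_ne_zero, Finset.prod_ne_zero_iff]
    intro k _
    rw [← Measure.map_apply (hm k) measurableSet_Iic, hlaw k, exp_Iic _ (by norm_num)]
    have : Real.exp (-(1 / 400 : ℝ)) < 1 := Real.exp_lt_one_iff.2 (by norm_num)
    rw [Ne, ENNReal.ofReal_eq_zero, not_le]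
    linarith
  -- independence
  let F : ℕ → MeasurableSpace Ω := fun k => MeasurableSpace.comap (E k) inferInstance
  have hF : ∀ k, F k ≤ (inferInstance : MeasurableSpace Ω) := fun k => (hm k).comap_le
  have hiind : iIndep F P := hind
  have hdisj : Disjoint {k : ℕ | k < m} {k : ℕ | m ≤ k} := by
    rw [Set.disjoint_left]
    intro k hk hk'
    exact absurd (show k < m from hk) (not_lt.2 (show m ≤ k from hk'))
  have hindep := indep_iSup_of_disjoint hF hiind hdisj
  have hAm : MeasurableSet[⨆ k ∈ {k : ℕ | k < m}, F k] A := by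
    apply Finset.measurableSet_biInter
    intro k hk
    have hk' : k ∈ {k : ℕ | k < m} := Finset.mem_range.1 hk
    have h1 : F k ≤ ⨆ k ∈ {k : ℕ | k < m}, F k := le_iSup₂_of_le k hk' le_rfl
    apply h1
    exact ⟨Iic (1 / 400), measurableSet_Iic, rfl⟩
  have hDmm : MeasurableSet[⨆ k ∈ {k : ℕ | m ≤ k}, F k] (D m) := by
    have hset : D m = ⋂ n : ℕ, ⋂ _ : m ≤ n, {ω | ∑ k ∈ Finset.Ico m n, E k ω ≤ 3 / 2 * n} := by
      ext ω
      simp only [D, mem_iInter]
      rfl
    rw [hset]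
    refine MeasurableSet.iInter fun n => MeasurableSet.iInter fun _ => ?_
    have hsum : Measurable[⨆ k ∈ {k : ℕ | m ≤ k}, F k]
        (fun ω => ∑ k ∈ Finset.Ico m n, E k ω) := by
      apply Finset.measurable_fun_sum
      intro k hk
      have hk' : k ∈ {k : ℕ | m ≤ k} := (Finset.mem_Ico.1 hk).1
      have h1 : F k ≤ ⨆ k ∈ {k : ℕ | m ≤ k}, F k := le_iSup₂_of_le k hk' le_rfl
      exact (comap_measurable (E k)).mono h1 le_rfl
    exact hsum measurableSet_Iic
  have hprod : P (A ∩ D m) = P A * P (D m) :=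
    (Indep_iff _ _ P).1 hindep A (D m) hAm hDmm
  have hpos : 0 < P (A ∩ D m) := by
    rw [hprod]
    exact ENNReal.mul_pos hA.ne' hDm.ne'
  refine hpos.trans_le (measure_mono ?_)
  rintro ω ⟨hωA, hωD⟩
  have hωA' : ∀ k, k < m → E k ω ≤ 1 / 400 := by
    intro k hk
    have := mem_iInter₂.1 hωA k (Finset.mem_range.2 hk)
    exact this
  have hsmall : ∀ n, n ≤ m → ∑ k ∈ Finset.range n, E k ω ≤ n * (1 / 400) := by
    intro n hn
    calc ∑ k ∈ Finset.range n, E k ω ≤ ∑ _k ∈ Finset.range n, (1 / 400 : ℝ) :=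
          Finset.sum_le_sum fun k hk => hωA' k (by have := Finset.mem_range.1 hk; omega)
      _ = n * (1 / 400) := by simp
  refine ⟨hωA' 0 (by omega), ?_⟩
  intro n hn
  have hn1 : (1:ℝ) ≤ n := by exact_mod_cast hn
  rcases Nat.lt_or_ge n m with h | h
  · have h1 := hsmall (n + 1) (by omega)
    push_cast at h1
    linarith
  · have h1 := hsmall m le_rfl
    have h2 := hωD (n + 1) (by omega)
    have h3 : ∑ k ∈ Finset.range m, E k ω + ∑ k ∈ Finset.Ico m (n + 1), E k ω
      = ∑ k ∈ Finset.range (n + 1), E k ω := Finset.sum_range_add_sum_Ico _ (by omega)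
    have h4 : (m : ℝ) ≤ n := by exact_mod_cast h
    have h5 : (10 : ℝ) ≤ m := by exact_mod_cast hm10
    push_cast at h2
    linarith

end

end Pool.Agent.V11327.SX
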