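import Pool.Agent.V11327.DR2

set_option autoImplicit false
open Filter Topology
open Finset.HasAntidiagonal (antidiagonal mem_antidiagonal)

namespace Pool.Agent.V11327.DR

/-! ### The initial law -/

noncomputable def r (k : ℕ) : ℝ :=
  if k = 0 then ∑' j : ℕ, (j : ℝ) / ((j : ℝ) + 2) ^ 3 else 1 / ((k : ℝ) + 1) ^ 3

theorem r_succ (k : ℕ) : r (k + 1) = 1 / ((k : ℝ) + 2) ^ 3 := by
  unfold r
  rw [if_neg (Nat.succ_ne_zero k)]
  push_cast
  ring_nf

theorem summable_inv_sq : Summable (fun j : ℕ => 1 / ((j : ℝ) + 2) ^ 2) := by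
  have h := (summable_nat_add_iff 2).2 (Real.summable_one_div_nat_pow (p := 2) |>.2 (by norm_num))
  refine h.congr fun j => ?_
  push_cast; rfl

theorem summable_c : Summable (fun j : ℕ => (j : ℝ) / ((j : ℝ) + 2) ^ 3) := by
  refine Summable.of_nonneg_of_le (fun j => by positivity) (fun j => ?_) summable_inv_sq
  have hj : (0 : ℝ) ≤ j := Nat.cast_nonneg _
  rw [div_le_div_iff₀ (by positivity) (by positivity)]
  have : (j : ℝ) * ((j : ℝ) + 2) ^ 2 ≤ ((j : ℝ) + 2) * ((j : ℝ) + 2) ^ 2 :=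
    mul_le_mul_of_nonneg_right (by linarith) (by positivity)
  nlinarith

theorem r_zero : r 0 = ∑' j : ℕ, (j : ℝ) / ((j : ℝ) + 2) ^ 3 := by simp [r]

theorem r_zero_pos : 0 < r 0 := by
  rw [r_zero]
  refine summable_c.tsum_pos (fun j => by positivity) 1 ?_
  norm_num

theorem r_nonneg (k : ℕ) : 0 ≤ r k := by
  rcases Nat.eq_zero_or_pos k with h | h
  · subst h; exact r_zero_pos.le
  · obtain ⟨j, rfl⟩ := Nat.exists_eq_succ_of_ne_zero h.ne'
    rw [Nat.succ_eq_add_one, r_succ]; positivity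

theorem summable_r : Summable r := by
  refine (summable_nat_add_iff 1).1 ?_
  refine Summable.of_nonneg_of_le (fun j => r_nonneg _) (fun j => ?_) summable_inv_sq
  rw [r_succ]
  have hj : (0 : ℝ) ≤ j := Nat.cast_nonneg _
  apply one_div_le_one_div_of_le (by positivity)
  nlinarith [sq_nonneg ((j : ℝ) + 2)]

theorem hasSum_crit : HasSum (fun k : ℕ => ((k : ℝ) - 1) * r k) 0 := by
  rw [← hasSum_nat_add_iff' 1]
  have h : HasSum (fun j : ℕ => (j : ℝ) / ((j : ℝ) + 2) ^ 3) (r 0) := by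
    rw [r_zero]; exact summable_c.hasSum
  have e : (fun k : ℕ => (((k + 1 : ℕ) : ℝ) - 1) * r (k + 1))
      = fun j : ℕ => (j : ℝ) / ((j : ℝ) + 2) ^ 3 := by
    funext k
    rw [r_succ]; push_cast; ring
  rw [e]
  simpa using h

theorem hasSum_kr : HasSum (fun k : ℕ => (k : ℝ) * r k) (∑' k, r k) := by
  have := hasSum_crit.add summable_r.hasSum
  rw [zero_add] at this
  have e : (fun k : ℕ => (k : ℝ) * r k) = fun k : ℕ => ((k : ℝ) - 1) * r k + r k := by
    funext k; ring
  rw [e]; exact this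

theorem summable_r2 : Summable (fun k : ℕ => r k / 2 ^ k) := by
  refine Summable.of_nonneg_of_le (fun k => by have := r_nonneg k; positivity) (fun k => ?_)
    summable_r
  have : (1 : ℝ) ≤ 2 ^ k := one_le_pow₀ (by norm_num)
  exact div_le_self (r_nonneg k) this

noncomputable def N : ℝ := ∑' k : ℕ, r k / 2 ^ k

theorem N_pos : 0 < N := by
  refine summable_r2.tsum_pos (fun k => by have := r_nonneg k; positivity) 0 ?_
  simpa using r_zero_pos

noncomputable def p0 (k : ℕ) : ℝ := r k / 2 ^ k / N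

theorem q0 (k : ℕ) : 2 ^ k * p0 k = r k / N := by
  unfold p0
  field_simp

theorem crit_p0 : Crit p0 where
  nn := fun k => by
    have := r_nonneg k; have := N_pos; unfold p0; positivity
  one := by
    have := summable_r2.hasSum.div_const N
    have h2 : (∑' k : ℕ, r k / 2 ^ k) / N = 1 := div_self N_pos.ne'
    rw [h2] at this
    exact this
  sA := by
    refine (summable_r.div_const N).congr fun k => (q0 k).symm
  sB := by
    refine (hasSum_kr.summable.div_const N).congr fun k => ?_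
    rw [q0]; ring
  eqAB := by
    have e1 : (fun k : ℕ => (k : ℝ) * (2 ^ k * p0 k)) = fun k : ℕ => (k : ℝ) * r k / N := by
      funext k; rw [q0]; ring
    have e2 : (fun k : ℕ => 2 ^ k * p0 k) = fun k : ℕ => r k / N := funext q0
    rw [e1, e2, tsum_div_const, tsum_div_const, hasSum_kr.tsum_eq]

theorem p0_zero_pos : 0 < p0 0 := by
  unfold p0
  have := N_pos
  have := r_zero_pos
  positivity

theorem tail_p0 (M : ℕ) (hM : 1 ≤ M) : (1 / (8 * N)) / (M : ℝ) ^ 2 ≤ tl p0 M := by
  have h1 := crit_p0.tl_hasSum M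
  have h2 := sum_le_hasSum (Finset.range M) (fun i _ => crit_p0.nnq (i + M)) h1
  refine le_trans ?_ h2
  have hN := N_pos
  have hM' : (0 : ℝ) < M := by exact_mod_cast hM
  have h3 : ∀ i ∈ Finset.range M, (1 / (8 * N * (M : ℝ) ^ 3)) ≤ 2 ^ (i + M) * p0 (i + M) := by
    intro i hi
    rw [Finset.mem_range] at hi
    rw [q0]
    obtain ⟨j, hj⟩ : ∃ j, i + M = j + 1 := ⟨i + M - 1, by omega⟩
    rw [hj, r_succ, div_div]
    have hj2 : (j : ℝ) + 2 ≤ 2 * M := by
      have : j + 2 ≤ 2 * M := by omega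
      exact_mod_cast this
    apply one_div_le_one_div_of_le (by positivity)
    have : ((j : ℝ) + 2) ^ 3 ≤ (2 * M) ^ 3 := pow_le_pow_left₀ (by positivity) hj2 3
    nlinarith
  have h4 := Finset.sum_le_sum h3
  rw [Finset.sum_const, Finset.card_range, nsmul_eq_mul] at h4
  refine le_trans (le_of_eq ?_) h4
  field_simp

noncomputable def P : ℕ → ℕ → ℝ
  | 0 => p0
  | n + 1 => stp (P n)

/-! ### Conversion of the `Fin` sums -/

theorem fin_sum_eq (a : ℕ → ℝ) (k : ℕ) :
    (∑ x : Fin 2 → Fin (k + 2), if (∑ i, (x i : ℕ)) = k + 1 then ∏ i, a (x i) else 0)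
      = conv a (k + 1) := by
  classical
  rw [← Finset.sum_filter]
  unfold conv
  refine Finset.sum_bij (fun x _ => ((x 0 : ℕ), (x 1 : ℕ))) ?_ ?_ ?_ ?_
  · intro x hx
    rw [Finset.mem_filter, Fin.sum_univ_two] at hx
    rw [mem_antidiagonal]; exact hx.2
  · intro x _ y _ hxy
    simp only [Prod.mk.injEq] at hxy
    funext i
    fin_cases i
    · exact Fin.ext hxy.1
    · exact Fin.ext hxy.2
  · rintro ⟨y1, y2⟩ hy
    rw [mem_antidiagonal] at hy
    simp only at hy
    refine ⟨![⟨y1, by omega⟩, ⟨y2, by omega⟩], ?_, ?_⟩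
    · rw [Finset.mem_filter, Fin.sum_univ_two]
      exact ⟨Finset.mem_univ _, by simpa using hy⟩
    · simp
  · intro x _
    rw [Fin.prod_univ_two]

end Pool.Agent.V11327.DR
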