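import Pool.Agent.V11327.BSseq

/-! Greedy path versus random leaf. -/

set_option autoImplicit false

namespace Pool.Agent.V11327.BS

open Finset Filter Asymptotics

theorem lrec_of_qrec (l : ℕ → ℝ)
    (hq : ∀ m : ℕ, 2 ≤ m → (m : ℝ) * l m = m + ∑ i ∈ Ico 1 m, q m i * (i * l i + ((m : ℝ) - i) * l (m - i)))
    (m : ℕ) (hm : 2 ≤ m) : h (m - 1) * l m = h (m - 1) + ∑ i ∈ Ico 1 m, l i / ((m : ℝ) - i) := by
  have hm0 : (m : ℝ) ≠ 0 := by positivity
  have hh := (h_pos (show 1 ≤ m - 1 by omega)).ne'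
  have h1 : ∑ i ∈ Ico 1 m, q m i * (i * l i + ((m : ℝ) - i) * l (m - i))
      = ∑ i ∈ Ico 1 m, q m i * (i * l i) + ∑ i ∈ Ico 1 m, q m i * (i * l i) := by
    rw [← sum_reflect m (fun i => q m i * (i * l i))]
    nth_rewrite 1 [sum_reflect m (fun i => q m i * (i * l i))]
    rw [← sum_add_distrib]
    refine sum_congr rfl fun i hi => ?_
    rw [mem_Ico] at hi
    rw [q_symm (by omega), Nat.cast_sub (by omega)]
    ring
  have h2 : ∑ i ∈ Ico 1 m, q m i * (i * l i) = m / (2 * h (m - 1)) * ∑ i ∈ Ico 1 m, l i / ((m : ℝ) - i) := by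
    rw [mul_sum]
    refine sum_congr rfl fun i hi => ?_
    rw [mem_Ico] at hi
    have a : (i : ℝ) ≠ 0 := by
      have : 0 < i := by omega
      positivity
    have b : (m : ℝ) - i ≠ 0 := by
      have : (i : ℝ) < m := by exact_mod_cast hi.2
      linarith
    unfold q
    field_simp
  have h3 := hq m hm
  rw [h1, h2] at h3
  have h4 : (m : ℝ) * (h (m - 1) * l m) = m * (h (m - 1) + ∑ i ∈ Ico 1 m, l i / ((m : ℝ) - i)) := by
    have : (m : ℝ) * (h (m - 1) * l m) = h (m - 1) * (m * l m) := by ring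
    rw [this, h3]
    field_simp
    ring
  exact mul_left_cancel₀ hm0 h4

/-- potential `h_{m-1}²` -/
noncomputable def G (m : ℕ) : ℝ := h (m - 1) ^ 2

theorem G_nonneg (m : ℕ) : 0 ≤ G m := sq_nonneg _

theorem G_mono : Monotone G := fun a b hab =>
  pow_le_pow_left₀ (h_nonneg _) (h_mono (by omega)) 2

theorem max_facts {m i : ℕ} (_ : 1 ≤ i) (hm : i < m) :
    1 ≤ max i (m - i) ∧ max i (m - i) ≤ m - 1 ∧ m ≤ 2 * max i (m - i) := by omega

/-- `q (m, i)` in terms of the larger part `M` -/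
theorem q_max {m i : ℕ} (hi : 1 ≤ i) (hm : i < m) :
    q m i = (m : ℝ) / (2 * h (m - 1) * (max i (m - i) : ℕ) * ((m : ℝ) - (max i (m - i) : ℕ))) := by
  rcases le_total i (m - i) with h1 | h1
  · rw [max_eq_right h1, ← q_symm (show i ≤ m by omega)]; rfl
  · rw [max_eq_left h1]; rfl

theorem G_drop_le {m : ℕ} (hm : 2 ≤ m) :
    ∑ i ∈ Ico 1 m, q m i * (G m - G (max i (m - i))) ≤ 4 := by
  have hm0 : (0 : ℝ) < m := by positivity
  have hterm : ∀ i ∈ Ico 1 m, q m i * (G m - G (max i (m - i))) ≤ 4 / m := by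
    intro i hi
    rw [mem_Ico] at hi
    obtain ⟨h1, h2, h3⟩ := max_facts hi.1 hi.2
    rw [q_max hi.1 hi.2]
    set M := max i (m - i) with hM
    have hM0 : (0 : ℝ) < M := by exact_mod_cast h1
    have hMm : (M : ℝ) < m := by
      have : M < m := by omega
      exact_mod_cast this
    have h4 : h (m - 1) - h (M - 1) ≤ ((m : ℝ) - M) / M := h_sub_le h1 (by omega)
    have h5 : h (M - 1) ≤ h (m - 1) := h_mono (by omega)
    have hh := h_pos (show 1 ≤ m - 1 by omega)
    have h6 : G m - G M ≤ 2 * h (m - 1) * (((m : ℝ) - M) / M) := by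
      unfold G
      have : h (m - 1) ^ 2 - h (M - 1) ^ 2 = (h (m - 1) + h (M - 1)) * (h (m - 1) - h (M - 1)) := by ring
      rw [this]
      refine mul_le_mul (by linarith) h4 (by linarith) (by linarith)
    have hq0 : 0 ≤ (m : ℝ) / (2 * h (m - 1) * M * ((m : ℝ) - M)) := by
      have : 0 < (m : ℝ) - M := by linarith
      positivity
    refine (mul_le_mul_of_nonneg_left h6 hq0).trans ?_
    have hne : (m : ℝ) - M ≠ 0 := by linarith
    have e : (m : ℝ) / (2 * h (m - 1) * M * ((m : ℝ) - M)) * (2 * h (m - 1) * (((m : ℝ) - M) / M))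
        = m / M ^ 2 := by
      field_simp
    rw [e, div_le_div_iff₀ (by positivity) hm0]
    have h7 : (m : ℝ) ≤ 2 * M := by exact_mod_cast h3
    nlinarith
  refine (sum_le_card_nsmul _ _ _ hterm).trans ?_
  rw [Nat.card_Ico, nsmul_eq_mul, Nat.cast_sub (by omega), mul_div_assoc', div_le_iff₀ hm0]
  push_cast
  nlinarith

theorem le_G_drop {m : ℕ} (hm : 2 ≤ m) :
    1 / 2 ≤ ∑ i ∈ Ico 1 m, q m i * (G m - G (max i (m - i))) := by
  have hm1 : (0 : ℝ) < (m : ℝ) - 1 := by
    have : (2 : ℝ) ≤ m := by exact_mod_cast hm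
    linarith
  have hterm : ∀ i ∈ Ico 1 m, 1 / (2 * ((m : ℝ) - 1)) ≤ q m i * (G m - G (max i (m - i))) := by
    intro i hi
    rw [mem_Ico] at hi
    obtain ⟨h1, h2, h3⟩ := max_facts hi.1 hi.2
    rw [q_max hi.1 hi.2]
    set M := max i (m - i) with hM
    have hM0 : (0 : ℝ) < M := by exact_mod_cast h1
    have hMm : (M : ℝ) < m := by
      have : M < m := by omega
      exact_mod_cast this
    have hMm1 : (M : ℝ) ≤ (m : ℝ) - 1 := by
      have : M + 1 ≤ m := by omega
      have : ((M + 1 : ℕ) : ℝ) ≤ m := by exact_mod_cast this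
      push_cast at this; linarith
    have h4 : ((m : ℝ) - M) / m ≤ h (m - 1) - h (M - 1) := le_h_sub h1 (by omega)
    have h5 : h (M - 1) ≤ h (m - 1) := h_mono (by omega)
    have h50 : 0 ≤ h (M - 1) := h_nonneg _
    have hh := h_pos (show 1 ≤ m - 1 by omega)
    have h6 : h (m - 1) * (((m : ℝ) - M) / m) ≤ G m - G M := by
      unfold G
      have : h (m - 1) ^ 2 - h (M - 1) ^ 2 = (h (m - 1) + h (M - 1)) * (h (m - 1) - h (M - 1)) := by ring
      rw [this]
      refine mul_le_mul (by linarith) h4 ?_ (by linarith)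
      have : (0 : ℝ) < m := by linarith
      exact div_nonneg (by linarith) this.le
    have hm0 : (0 : ℝ) < m := by linarith
    have hq0 : 0 ≤ (m : ℝ) / (2 * h (m - 1) * M * ((m : ℝ) - M)) := by
      have : 0 < (m : ℝ) - M := by linarith
      positivity
    refine le_trans ?_ (mul_le_mul_of_nonneg_left h6 hq0)
    have hne : (m : ℝ) - M ≠ 0 := by linarith
    have e : (m : ℝ) / (2 * h (m - 1) * M * ((m : ℝ) - M)) * (h (m - 1) * (((m : ℝ) - M) / m))
        = 1 / (2 * M) := by
      field_simp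
    rw [e]
    apply one_div_le_one_div_of_le (by positivity)
    linarith
  refine le_trans ?_ (card_nsmul_le_sum _ _ _ hterm)
  rw [Nat.card_Ico, nsmul_eq_mul, Nat.cast_sub (by omega)]
  push_cast
  refine le_of_eq ?_
  field_simp

section
variable (lp : ℕ → ℝ) (lp1 : lp 1 = 0)
  (lprec : ∀ m, 2 ≤ m → lp m = 1 + ∑ i ∈ Ico 1 m, q m i * lp (max i (m - i)))

include lp1 lprec in
theorem lp_le (m : ℕ) (hm : 1 ≤ m) : lp m ≤ 2 * G m := by
  induction m using Nat.strong_induction_on with
  | _ m ih =>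
    rcases Nat.lt_or_ge m 2 with h2 | h2
    · have : m = 1 := by omega
      subst this
      rw [lp1]; have := G_nonneg 1; linarith
    · rw [lprec m h2]
      have h3 : ∑ i ∈ Ico 1 m, q m i * lp (max i (m - i)) ≤ ∑ i ∈ Ico 1 m, q m i * (2 * G (max i (m - i))) := by
        refine sum_le_sum fun i hi => ?_
        rw [mem_Ico] at hi
        obtain ⟨a, b, c⟩ := max_facts hi.1 hi.2
        exact mul_le_mul_of_nonneg_left (ih _ (by omega) a) (q_nonneg (by omega))
      have h4 := le_G_drop h2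
      have h5 : ∑ i ∈ Ico 1 m, q m i * (2 * G (max i (m - i)))
          = 2 * G m - 2 * ∑ i ∈ Ico 1 m, q m i * (G m - G (max i (m - i))) := by
        have h6 : ∑ i ∈ Ico 1 m, q m i * (G m - G (max i (m - i)))
            = G m - ∑ i ∈ Ico 1 m, q m i * G (max i (m - i)) := by
          simp only [mul_sub]
          rw [sum_sub_distrib, ← sum_mul, q_sum h2, one_mul]
        rw [h6]
        have h7 : ∑ i ∈ Ico 1 m, q m i * (2 * G (max i (m - i)))
            = 2 * ∑ i ∈ Ico 1 m, q m i * G (max i (m - i)) := by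
          rw [mul_sum]; exact sum_congr rfl fun i _ => by ring
        rw [h7]; ring
      linarith

variable (l : ℕ → ℝ) (l1 : l 1 = 0)
  (hq : ∀ m : ℕ, 2 ≤ m → (m : ℝ) * l m = m + ∑ i ∈ Ico 1 m, q m i * (i * l i + ((m : ℝ) - i) * l (m - i)))

include lprec hq in
theorem D_rec (m : ℕ) (hm : 2 ≤ m) : lp m - l m = ∑ i ∈ Ico 1 m, q m i *
    ((lp (max i (m - i)) - l (max i (m - i)))
      + ((m : ℝ) - (max i (m - i) : ℕ)) / m * (l (max i (m - i)) - l (m - max i (m - i)))) := by
  have hm0 : (m : ℝ) ≠ 0 := by positivity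
  have h1 : l m = 1 + ∑ i ∈ Ico 1 m, q m i * ((i * l i + ((m : ℝ) - i) * l (m - i)) / m) := by
    have h2 := hq m hm
    have h3 : ∑ i ∈ Ico 1 m, q m i * ((i * l i + ((m : ℝ) - i) * l (m - i)) / m)
        = (∑ i ∈ Ico 1 m, q m i * (i * l i + ((m : ℝ) - i) * l (m - i))) / m := by
      rw [sum_div]; exact sum_congr rfl fun i _ => by ring
    rw [h3]
    field_simp
    linarith
  rw [h1, lprec m hm, add_sub_add_left_eq_sub, ← sum_sub_distrib]
  refine sum_congr rfl fun i hi => ?_
  rw [mem_Ico] at hi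
  rw [← mul_sub]
  congr 1
  rcases le_total i (m - i) with h2 | h2
  · rw [max_eq_right h2]
    have e : m - (m - i) = i := by omega
    rw [e, Nat.cast_sub (by omega)]
    field_simp; ring
  · rw [max_eq_left h2]
    field_simp; ring

include l1 hq in
theorem gain_nonneg {m i : ℕ} (hi : 1 ≤ i) (hm : i < m) :
    0 ≤ ((m : ℝ) - (max i (m - i) : ℕ)) / m * (l (max i (m - i)) - l (m - max i (m - i))) := by
  obtain ⟨a, b, c⟩ := max_facts hi hm
  have lrec := lrec_of_qrec l hq
  have h1 := l_diff l l1 lrec (a := m - max i (m - i)) (b := max i (m - i)) (by omega) (by omega)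
  have h2 : (0 : ℝ) ≤ (m : ℝ) - (max i (m - i) : ℕ) := by
    have : ((max i (m - i) : ℕ) : ℝ) ≤ m := by
      have : max i (m - i) ≤ m := by omega
      exact_mod_cast this
    linarith
  refine mul_nonneg (div_nonneg h2 (Nat.cast_nonneg _)) (le_trans ?_ h1)
  have h3 : (0 : ℝ) ≤ ((max i (m - i) : ℕ) : ℝ) - ((m - max i (m - i) : ℕ) : ℝ) := by
    have : m - max i (m - i) ≤ max i (m - i) := by omega
    have : ((m - max i (m - i) : ℕ) : ℝ) ≤ ((max i (m - i) : ℕ) : ℝ) := by exact_mod_cast this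
    linarith
  exact mul_nonneg (div_nonneg (h_nonneg _) (by norm_num)) (div_nonneg h3 (Nat.cast_nonneg _))

include lp1 lprec l1 hq in
theorem D_nonneg (m : ℕ) (hm : 1 ≤ m) : 0 ≤ lp m - l m := by
  induction m using Nat.strong_induction_on with
  | _ m ih =>
    rcases Nat.lt_or_ge m 2 with h2 | h2
    · have : m = 1 := by omega
      subst this
      rw [lp1, l1]; norm_num
    · rw [D_rec lp lprec l hq m h2]
      refine sum_nonneg fun i hi => ?_
      rw [mem_Ico] at hi
      obtain ⟨a, b, c⟩ := max_facts hi.1 hi.2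
      exact mul_nonneg (q_nonneg (by omega)) (add_nonneg (ih _ (by omega) a)
        (gain_nonneg l l1 hq hi.1 hi.2))

include l1 hq in
/-- the gain per step is bounded below -/
theorem gain_lower {m : ℕ} (hm : 24 ≤ m) :
    1 / 648 ≤ ∑ i ∈ Ico 1 m, q m i *
      (((m : ℝ) - (max i (m - i) : ℕ)) / m * (l (max i (m - i)) - l (m - max i (m - i)))) := by
  have lrec := lrec_of_qrec l hq
  have hmR : (24 : ℝ) ≤ m := by exact_mod_cast hm
  -- restrict to `m / 4 ≤ i ≤ m / 3`
  set I := (Ico 1 m).filter fun i => m ≤ 4 * i ∧ 3 * i ≤ m with hI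
  have hsub : I ⊆ Ico 1 m := filter_subset _ _
  refine le_trans ?_ (sum_le_sum_of_subset_of_nonneg hsub fun i hi _ => ?_)
  swap
  · rw [mem_Ico] at hi
    exact mul_nonneg (q_nonneg (by omega)) (gain_nonneg l l1 hq hi.1 hi.2)
  have hcard : (m : ℝ) / 24 ≤ I.card := by
    have h1 : Ico (m / 4 + 1) (m / 3 + 1) ⊆ I := by
      intro i hi
      rw [mem_Ico] at hi
      rw [hI, mem_filter, mem_Ico]
      omega
    have h2 := card_le_card h1
    rw [Nat.card_Ico] at h2
    have h3 : m ≤ 24 * (m / 3 + 1 - (m / 4 + 1)) := by omega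
    have h4 : m ≤ 24 * I.card := h3.trans (Nat.mul_le_mul_left 24 h2)
    rw [div_le_iff₀ (by norm_num)]
    have : (m : ℝ) ≤ 24 * I.card := by exact_mod_cast h4
    linarith
  have hterm : ∀ i ∈ I, 1 / (27 * (m : ℝ)) ≤ q m i *
      (((m : ℝ) - (max i (m - i) : ℕ)) / m * (l (max i (m - i)) - l (m - max i (m - i)))) := by
    intro i hi
    rw [hI, mem_filter, mem_Ico] at hi
    obtain ⟨⟨hi1, him⟩, h4, h3⟩ := hi
    have hmax : max i (m - i) = m - i := by omega
    rw [hmax]
    have e1 : m - (m - i) = i := by omega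
    rw [e1, Nat.cast_sub (by omega)]
    have h1 := l_diff l l1 lrec (a := i) (b := m - i) hi1 (by omega)
    rw [Nat.cast_sub (by omega)] at h1
    have hi0 : (0 : ℝ) < i := by exact_mod_cast hi1
    have h4' : (m : ℝ) ≤ 4 * i := by exact_mod_cast h4
    have h3' : 3 * (i : ℝ) ≤ m := by exact_mod_cast h3
    have hh := h_pos (show 1 ≤ m - 1 by omega)
    have hhi : h (m - 1) ≤ 4 * h i := by
      have a := h_sub_le (a := i + 1) (b := m) (by omega) (by omega)
      simp only [Nat.add_sub_cancel] at a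
      have b := one_le_h hi1
      have c : ((m : ℝ) - ((i + 1 : ℕ) : ℝ)) / ((i + 1 : ℕ) : ℝ) ≤ 3 := by
        rw [div_le_iff₀ (by positivity)]
        push_cast; linarith
      linarith
    have hmi : (0 : ℝ) < (m : ℝ) - i := by linarith
    have e2 : (m : ℝ) - ((m : ℝ) - i) = i := by ring
    rw [e2]
    unfold q
    have hm0 : (0 : ℝ) < m := by linarith
    have e3 : (m : ℝ) / (2 * h (m - 1) * i * ((m : ℝ) - i)) * (i / m * (l (m - i) - l i))
        = (l (m - i) - l i) / (2 * h (m - 1) * ((m : ℝ) - i)) := by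
      field_simp
    rw [e3, div_le_div_iff₀ (by positivity) (by positivity), one_mul]
    -- `l (m - i) - l i ≥ h i / 2 * ((m - 2 i) / (m - i))`
    have h5 : h i / 2 * (((m : ℝ) - i - i) / ((m : ℝ) - i)) * (27 * m) ≤ (l (m - i) - l i) * (27 * m) :=
      mul_le_mul_of_nonneg_right h1 (by positivity)
    refine le_trans ?_ h5
    rw [mul_div_assoc', div_mul_eq_mul_div, le_div_iff₀ hmi]
    have h6 : 0 < h i := h_pos hi1
    -- 2 h(m-1) (m-i)^2 ≤ h i / 2 (m - 2i) 27 m
    have h7 : 2 * h (m - 1) * ((m : ℝ) - i) * ((m : ℝ) - i) ≤ 8 * h i * (((m : ℝ) - i) * ((m : ℝ) - i)) := by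
      have : 0 ≤ ((m : ℝ) - i) * ((m : ℝ) - i) := by positivity
      nlinarith
    refine h7.trans ?_
    have h8 : ((m : ℝ) - i) * ((m : ℝ) - i) ≤ 9 / 16 * (m * m) := by nlinarith
    have h9 : (m : ℝ) / 3 ≤ (m : ℝ) - i - i := by linarith
    have h10 : 9 / 2 * (m * m) ≤ 27 / 2 * (((m : ℝ) - i - i) * m) := by nlinarith
    have h11 : 8 * h i * (((m : ℝ) - i) * ((m : ℝ) - i)) ≤ 8 * h i * (9 / 16 * (m * m)) :=
      mul_le_mul_of_nonneg_left h8 (by positivity)
    have h12 : h i * (9 / 2 * (m * m)) ≤ h i * (27 / 2 * (((m : ℝ) - i - i) * m)) :=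
      mul_le_mul_of_nonneg_left h10 h6.le
    nlinarith
  refine le_trans ?_ (card_nsmul_le_sum _ _ _ hterm)
  rw [nsmul_eq_mul]
  have h13 : (m : ℝ) / 24 * (1 / (27 * (m : ℝ))) ≤ I.card * (1 / (27 * (m : ℝ))) :=
    mul_le_mul_of_nonneg_right hcard (by positivity)
  refine le_trans (le_of_eq ?_) h13
  field_simp
  norm_num

include lp1 lprec l1 hq in
theorem D_lower (m : ℕ) (hm : 1 ≤ m) : 1 / 2592 * (G m - G 24) ≤ lp m - l m := by
  induction m using Nat.strong_induction_on with
  | _ m ih =>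
    rcases Nat.lt_or_ge m 24 with h2 | h2
    · have h3 := D_nonneg lp lp1 lprec l l1 hq m hm
      have h4 : G m ≤ G 24 := G_mono h2.le
      linarith
    · rw [D_rec lp lprec l hq m (by omega)]
      simp only [mul_add]
      rw [sum_add_distrib]
      have h3 := gain_lower l l1 hq h2
      have h4 : ∑ i ∈ Ico 1 m, q m i * (1 / 2592 * (G (max i (m - i)) - G 24))
          ≤ ∑ i ∈ Ico 1 m, q m i * (lp (max i (m - i)) - l (max i (m - i))) := by
        refine sum_le_sum fun i hi => ?_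
        rw [mem_Ico] at hi
        obtain ⟨a, b, c⟩ := max_facts hi.1 hi.2
        exact mul_le_mul_of_nonneg_left (ih _ (by omega) a) (q_nonneg (by omega))
      have h5 := G_drop_le (show 2 ≤ m by omega)
      have h6 : ∑ i ∈ Ico 1 m, q m i * (G m - G (max i (m - i)))
          = G m - ∑ i ∈ Ico 1 m, q m i * G (max i (m - i)) := by
        simp only [mul_sub]
        rw [sum_sub_distrib, ← sum_mul, q_sum (by omega), one_mul]
      have h7 : ∑ i ∈ Ico 1 m, q m i * (1 / 2592 * (G (max i (m - i)) - G 24))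
          = 1 / 2592 * (∑ i ∈ Ico 1 m, q m i * G (max i (m - i)) - G 24) := by
        have : ∀ i ∈ Ico 1 m, q m i * (1 / 2592 * (G (max i (m - i)) - G 24))
            = 1 / 2592 * (q m i * G (max i (m - i))) - 1 / 2592 * (q m i * G 24) := fun i _ => by ring
        rw [sum_congr rfl this, sum_sub_distrib, ← mul_sum, ← mul_sum, ← sum_mul,
          q_sum (by omega), one_mul]
        ring
      rw [h7] at h4
      rw [h6] at h5
      linarith

include lp1 lprec l1 hq in
/-- `lp m - l m = Θ (log² m)` -/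
theorem D_theta : (fun m : ℕ => lp m - l m) =Θ[atTop] fun m : ℕ => Real.log m ^ 2 := by
  have hlow : ∀ m : ℕ, 1 ≤ m → Real.log m ≤ h (m - 1) := by
    intro m hm
    have h1 := log_add_one_le_harmonic (m - 1)
    have e : ((harmonic (m - 1) : ℚ) : ℝ) = h (m - 1) := by
      unfold harmonic h; push_cast; exact sum_congr rfl fun i _ => by rw [one_div]
    rw [e] at h1
    have e2 : ((m - 1 : ℕ) : ℝ) + 1 = m := by rw [Nat.cast_sub hm]; push_cast; ring
    push_cast at h1
    rw [e2] at h1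
    exact h1
  have hup : ∀ m : ℕ, 1 ≤ m → h (m - 1) ≤ 1 + Real.log m := by
    intro m hm
    have h1 := harmonic_le_one_add_log (m - 1)
    have e : ((harmonic (m - 1) : ℚ) : ℝ) = h (m - 1) := by
      unfold harmonic h; push_cast; exact sum_congr rfl fun i _ => by rw [one_div]
    rw [e] at h1
    refine h1.trans ?_
    rcases Nat.eq_zero_or_pos (m - 1) with h0 | h0
    · rw [h0]; simp; exact Real.log_nonneg (by exact_mod_cast hm)
    · have : Real.log ((m - 1 : ℕ) : ℝ) ≤ Real.log m := Real.log_le_log (by exact_mod_cast h0)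
        (by exact_mod_cast Nat.sub_le m 1)
      linarith
  have hlogtop : Tendsto (fun m : ℕ => Real.log m) atTop atTop :=
    Real.tendsto_log_atTop.comp tendsto_natCast_atTop_atTop
  constructor
  · -- upper bound
    refine IsBigO.of_bound 8 ?_
    filter_upwards [eventually_ge_atTop 1, hlogtop.eventually_ge_atTop 1] with m hm hlog
    have h1 := D_nonneg lp lp1 lprec l l1 hq m hm
    have h2 := lp_le lp lp1 lprec m hm
    have h3 := l_nonneg l l1 (lrec_of_qrec l hq) m hm
    rw [Real.norm_of_nonneg h1, Real.norm_of_nonneg (sq_nonneg _)]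
    have h4 := hup m hm
    have h5 := h_nonneg (m - 1)
    unfold G at h2
    nlinarith
  · refine IsBigO.of_bound 5184 ?_
    have hbig : ∀ᶠ m : ℕ in atTop, 2 * G 24 ≤ Real.log m ^ 2 := by
      have : Tendsto (fun m : ℕ => Real.log m ^ 2) atTop atTop :=
        (tendsto_pow_atTop (by norm_num)).comp hlogtop
      exact this.eventually_ge_atTop _
    filter_upwards [eventually_ge_atTop 1, hbig] with m hm hb
    have h1 := D_nonneg lp lp1 lprec l l1 hq m hm
    have h2 := D_lower lp lp1 lprec l l1 hq m hm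
    rw [Real.norm_of_nonneg h1, Real.norm_of_nonneg (sq_nonneg _)]
    have h4 := hlow m hm
    have h5 : 0 ≤ Real.log m := Real.log_nonneg (by exact_mod_cast hm)
    have h6 : Real.log m ^ 2 ≤ G m := pow_le_pow_left₀ h5 h4 2
    linarith

end

end Pool.Agent.V11327.BS
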