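import Mathlib

/-! Sequences for the critical beta-splitting tree. -/

set_option autoImplicit false

namespace Pool.Agent.V11327.BS

open Finset Filter Asymptotics

/-- harmonic numbers `h n = ∑_{j=1}^n 1/j` -/
noncomputable def h (n : ℕ) : ℝ := ∑ j ∈ range n, 1 / ((j : ℝ) + 1)

/-- the splitting probabilities `q (m, i) = m / (2 h_{m-1} i (m - i))` -/
noncomputable def q (m i : ℕ) : ℝ := (m : ℝ) / (2 * h (m - 1) * i * ((m : ℝ) - i))

theorem h_zero : h 0 = 0 := by simp [h]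
theorem h_succ (n : ℕ) : h (n + 1) = h n + 1 / ((n : ℝ) + 1) := by unfold h; rw [sum_range_succ]
theorem h_nonneg (n : ℕ) : 0 ≤ h n := sum_nonneg fun _ _ => by positivity
theorem h_mono : Monotone h := monotone_nat_of_le_succ fun n => by
  rw [h_succ]
  have : (0 : ℝ) ≤ 1 / ((n : ℝ) + 1) := by positivity
  linarith
theorem one_le_h {n : ℕ} (hn : 1 ≤ n) : 1 ≤ h n := by
  have : h 1 = 1 := by simp [h]
  rw [← this]; exact h_mono hn

theorem h_pos {n : ℕ} (hn : 1 ≤ n) : 0 < h n := lt_of_lt_of_le one_pos (one_le_h hn)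

/-- upper bound for a block of the harmonic sum -/
theorem h_sub_le {a b : ℕ} (ha : 1 ≤ a) (hab : a ≤ b) : h (b - 1) - h (a - 1) ≤ ((b : ℝ) - a) / a := by
  induction b, hab using Nat.le_induction with
  | base => simp
  | succ b hb ih =>
    obtain ⟨c, rfl⟩ : ∃ c, b = c + 1 := ⟨b - 1, by omega⟩
    simp only [Nat.add_sub_cancel] at ih ⊢
    rw [h_succ c]
    have ha' : (0 : ℝ) < a := by exact_mod_cast ha
    have h1 : (1 : ℝ) / ((c : ℝ) + 1) ≤ 1 / a := by
      apply one_div_le_one_div_of_le ha'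
      exact_mod_cast hb
    have e : (((c + 1 + 1 : ℕ) : ℝ) - a) / a = (((c + 1 : ℕ) : ℝ) - a) / a + 1 / a := by
      push_cast; ring
    rw [e]; linarith

/-- lower bound for a block of the harmonic sum -/
theorem le_h_sub {a b : ℕ} (ha : 1 ≤ a) (hab : a ≤ b) : ((b : ℝ) - a) / b ≤ h (b - 1) - h (a - 1) := by
  have key : ∀ b, a ≤ b → ∀ c : ℕ, b ≤ c → ((b : ℝ) - a) / c ≤ h (b - 1) - h (a - 1) := by
    intro b hab
    induction b, hab using Nat.le_induction with
    | base => intro c _; simp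
    | succ b hb ih =>
      intro c hc
      obtain ⟨d, rfl⟩ : ∃ d, b = d + 1 := ⟨b - 1, by omega⟩
      have h0 := ih c (by omega)
      simp only [Nat.add_sub_cancel] at h0 ⊢
      rw [h_succ d]
      have h1 : (1 : ℝ) / c ≤ 1 / ((d : ℝ) + 1) := by
        apply one_div_le_one_div_of_le (by positivity)
        have : d + 1 ≤ c := by omega
        exact_mod_cast this
      have e : (((d + 1 + 1 : ℕ) : ℝ) - a) / c = (((d + 1 : ℕ) : ℝ) - a) / c + 1 / c := by
        push_cast; ring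
      rw [e]; linarith
  exact key b hab b le_rfl

theorem q_nonneg {m i : ℕ} (hi : i ≤ m) : 0 ≤ q m i := by
  unfold q
  have : (0 : ℝ) ≤ (m : ℝ) - i := by
    have : (i : ℝ) ≤ m := by exact_mod_cast hi
    linarith
  have := h_nonneg (m - 1)
  positivity

theorem q_symm {m i : ℕ} (hi : i ≤ m) : q m (m - i) = q m i := by
  unfold q
  rw [Nat.cast_sub hi]
  congr 1; ring

theorem q_eq {m i : ℕ} (hi : 1 ≤ i) (hm : i < m) :
    q m i = 1 / (2 * h (m - 1)) * (1 / (i : ℝ) + 1 / ((m : ℝ) - i)) := by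
  unfold q
  have h1 : (i : ℝ) ≠ 0 := by positivity
  have h2 : (m : ℝ) - i ≠ 0 := by
    have : (i : ℝ) < m := by exact_mod_cast hm
    linarith
  have h3 : h (m - 1) ≠ 0 := (h_pos (by omega)).ne'
  field_simp
  ring

theorem sum_inv (m : ℕ) : ∑ i ∈ Ico 1 m, 1 / (i : ℝ) = h (m - 1) := by
  unfold h
  rw [sum_Ico_eq_sum_range]
  refine sum_congr rfl fun i _ => ?_
  push_cast; ring

theorem sum_reflect (m : ℕ) (f : ℕ → ℝ) : ∑ i ∈ Ico 1 m, f (m - i) = ∑ i ∈ Ico 1 m, f i := by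
  refine sum_nbij' (fun i => m - i) (fun i => m - i) ?_ ?_ ?_ ?_ ?_
  · intro i hi; rw [mem_Ico] at hi ⊢; omega
  · intro i hi; rw [mem_Ico] at hi ⊢; omega
  · intro i hi; rw [mem_Ico] at hi; omega
  · intro i hi; rw [mem_Ico] at hi; omega
  · intro i _; rfl

theorem sum_inv' (m : ℕ) : ∑ i ∈ Ico 1 m, 1 / ((m : ℝ) - i) = h (m - 1) := by
  rw [← sum_inv m, ← sum_reflect m (fun i => 1 / (i : ℝ))]
  refine sum_congr rfl fun i hi => ?_
  rw [mem_Ico] at hi
  rw [Nat.cast_sub (by omega)]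

theorem q_sum {m : ℕ} (hm : 2 ≤ m) : ∑ i ∈ Ico 1 m, q m i = 1 := by
  have h1 : ∀ i ∈ Ico 1 m, q m i = 1 / (2 * h (m - 1)) * (1 / (i : ℝ) + 1 / ((m : ℝ) - i)) := by
    intro i hi
    rw [mem_Ico] at hi
    exact q_eq hi.1 hi.2
  rw [sum_congr rfl h1, ← mul_sum, sum_add_distrib, sum_inv, sum_inv']
  have h3 : h (m - 1) ≠ 0 := (h_pos (by omega)).ne'
  field_simp
  ring

/-! ### The mean depth of a random leaf -/

/-- the convolution identity `∑_{j=1}^{m-1} h_j / (m - j) = h_m² - ∑_{i ≤ m} 1/i²` -/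
theorem conv_h (m : ℕ) : ∑ j ∈ range m, h j / ((m : ℝ) - j)
    = h m ^ 2 - ∑ i ∈ range m, 1 / ((i : ℝ) + 1) ^ 2 := by
  induction m with
  | zero => simp [h_zero]
  | succ m ih =>
    have h1 : ∑ j ∈ range (m + 1), h j / (((m + 1 : ℕ) : ℝ) - j)
        = ∑ j ∈ range m, h (j + 1) / ((m : ℝ) - j) := by
      rw [sum_range_succ', h_zero, zero_div, add_zero]
      refine sum_congr rfl fun j _ => ?_
      push_cast
      congr 1; ring
    have h2 : ∑ j ∈ range m, h (j + 1) / ((m : ℝ) - j)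
        = ∑ j ∈ range m, h j / ((m : ℝ) - j) + ∑ j ∈ range m, 1 / ((j : ℝ) + 1) / ((m : ℝ) - j) := by
      rw [← sum_add_distrib]
      refine sum_congr rfl fun j _ => ?_
      rw [h_succ]; ring
    have h3 : ∑ j ∈ range m, 1 / ((j : ℝ) + 1) / ((m : ℝ) - j) = 2 * h m / ((m : ℝ) + 1) := by
      have h4 : ∀ j ∈ range m, 1 / ((j : ℝ) + 1) / ((m : ℝ) - j)
          = 1 / ((m : ℝ) + 1) * (1 / ((j : ℝ) + 1)) + 1 / ((m : ℝ) + 1) * (1 / ((m : ℝ) - j)) := by
        intro j hj
        have hjm : (j : ℝ) < m := by exact_mod_cast mem_range.1 hj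
        have a : (j : ℝ) + 1 ≠ 0 := by positivity
        have b : (m : ℝ) - j ≠ 0 := by linarith
        have c : (m : ℝ) + 1 ≠ 0 := by positivity
        field_simp; ring
      rw [sum_congr rfl h4, sum_add_distrib, ← mul_sum, ← mul_sum]
      have h5 : ∑ j ∈ range m, 1 / ((m : ℝ) - j) = h m := by
        unfold h
        rw [← sum_range_reflect]
        refine sum_congr rfl fun j hj => ?_
        have := mem_range.1 hj
        rw [Nat.cast_sub (by omega), Nat.cast_sub (by omega)]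
        push_cast; congr 1; ring
      rw [h5]
      show 1 / ((m : ℝ) + 1) * h m + 1 / ((m : ℝ) + 1) * h m = _
      ring
    rw [h1, h2, ih, h3, h_succ, sum_range_succ]
    have c : (m : ℝ) + 1 ≠ 0 := by positivity
    field_simp
    ring

theorem sum_sq_le (m : ℕ) : ∑ i ∈ range m, 1 / ((i : ℝ) + 1) ^ 2 ≤ 2 := by
  have key : ∀ m : ℕ, ∑ i ∈ range (m + 1), 1 / ((i : ℝ) + 1) ^ 2 ≤ 2 - 1 / ((m : ℝ) + 1) := by
    intro m
    induction m with
    | zero => norm_num
    | succ m ih =>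
      rw [sum_range_succ]
      have h1 : 1 / (((m + 1 : ℕ) : ℝ) + 1) ^ 2 ≤ 1 / ((m : ℝ) + 1) - 1 / (((m + 1 : ℕ) : ℝ) + 1) := by
        push_cast
        have a : (0 : ℝ) < (m : ℝ) + 1 := by positivity
        have b : (0 : ℝ) < (m : ℝ) + 1 + 1 := by positivity
        have e : 1 / ((m : ℝ) + 1) - 1 / ((m : ℝ) + 1 + 1) = 1 / (((m : ℝ) + 1) * ((m : ℝ) + 1 + 1)) := by
          field_simp; ring
        rw [e]
        apply one_div_le_one_div_of_le (by positivity)
        nlinarith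
      linarith
  rcases Nat.eq_zero_or_pos m with h0 | h0
  · subst h0; norm_num
  · obtain ⟨k, rfl⟩ : ∃ k, m = k + 1 := ⟨m - 1, by omega⟩
    have := key k
    have h1 : (0 : ℝ) < 1 / ((k : ℝ) + 1) := by positivity
    linarith

section ell
variable (l : ℕ → ℝ) (l1 : l 1 = 0)
  (lrec : ∀ m, 2 ≤ m → h (m - 1) * l m = h (m - 1) + ∑ i ∈ Ico 1 m, l i / ((m : ℝ) - i))

/-- `e m = m (l (m + 1) - l m)` -/
noncomputable def ee (l : ℕ → ℝ) (m : ℕ) : ℝ := m * (l (m + 1) - l m)

include l1 lrec in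
theorem ee_rec (m : ℕ) (hm : 1 ≤ m) : h m * ee l m = 1 + ∑ j ∈ Ico 1 m, ee l j / ((m : ℝ) - j) := by
  have hm0 : (m : ℝ) ≠ 0 := by positivity
  -- l m as a telescoping sum
  have htel : l m = ∑ j ∈ Ico 1 m, (l (j + 1) - l j) := by
    rw [sum_Ico_eq_sum_range]
    have : ∀ n, ∑ k ∈ range n, (l (1 + k + 1) - l (1 + k)) = l (n + 1) - l 1 := by
      intro n
      induction n with
      | zero => simp
      | succ n ih => rw [sum_range_succ, ih, show 1 + n + 1 = n + 1 + 1 by ring, add_comm 1 n]; ring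
    rw [this, l1, sub_zero]
    congr 1; omega
  have hA := lrec (m + 1) (by omega)
  simp only [Nat.add_sub_cancel] at hA
  have hshift : ∑ i ∈ Ico 1 (m + 1), l i / (((m + 1 : ℕ) : ℝ) - i)
      = ∑ j ∈ Ico 1 m, l (j + 1) / ((m : ℝ) - j) := by
    rw [sum_eq_sum_Ico_succ_bot (by omega), l1, zero_div, zero_add, sum_Ico_eq_sum_range,
      sum_Ico_eq_sum_range]
    refine sum_congr (by congr 1) fun j _ => ?_
    push_cast
    rw [show 1 + 1 + j = 1 + j + 1 by ring]
    congr 1; ring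
  rw [hshift] at hA
  have hB : h (m - 1) * l m = h (m - 1) + ∑ i ∈ Ico 1 m, l i / ((m : ℝ) - i) := by
    rcases Nat.lt_or_ge m 2 with h2 | h2
    · have : m = 1 := by omega
      subst this; simp [h_zero]
    · exact lrec m h2
  have hh : h m = h (m - 1) + 1 / (m : ℝ) := by
    obtain ⟨k, rfl⟩ : ∃ k, m = k + 1 := ⟨m - 1, by omega⟩
    simp only [Nat.add_sub_cancel]
    rw [h_succ]; push_cast; rfl
  have hsum : ∑ j ∈ Ico 1 m, ee l j / ((m : ℝ) - j)
      = m * ∑ j ∈ Ico 1 m, l (j + 1) / ((m : ℝ) - j) - m * ∑ j ∈ Ico 1 m, l j / ((m : ℝ) - j)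
        - ∑ j ∈ Ico 1 m, (l (j + 1) - l j) := by
    rw [mul_sum, mul_sum, ← sum_sub_distrib, ← sum_sub_distrib]
    refine sum_congr rfl fun j hj => ?_
    have hjm : (j : ℝ) < m := by exact_mod_cast (mem_Ico.1 hj).2
    have b : (m : ℝ) - j ≠ 0 := by linarith
    unfold ee
    field_simp
    ring
  rw [hsum, ← htel]
  unfold ee
  have e1 : h m * (m * (l (m + 1) - l m)) = m * (h m * l (m + 1)) - m * (h m * l m) := by ring
  have e2 : (m : ℝ) * (h m * l m) = m * (h (m - 1) * l m) + l m := by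
    rw [hh]; field_simp
  have e3 : (m : ℝ) * h m = m * h (m - 1) + 1 := by rw [hh]; field_simp
  rw [e1, e2, hA, hB]
  linear_combination e3

include l1 lrec in
theorem ee_lower (m : ℕ) (hm : 1 ≤ m) : h m / 2 ≤ ee l m := by
  induction m using Nat.strong_induction_on with
  | _ m ih =>
    have h1 := ee_rec l l1 lrec m hm
    have h2 : ∑ j ∈ Ico 1 m, (h j / 2) / ((m : ℝ) - j) ≤ ∑ j ∈ Ico 1 m, ee l j / ((m : ℝ) - j) := by
      refine sum_le_sum fun j hj => ?_
      rw [mem_Ico] at hj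
      have hjm : (j : ℝ) < m := by exact_mod_cast hj.2
      exact div_le_div_of_nonneg_right (ih j hj.2 hj.1) (by linarith)
    have h3 : ∑ j ∈ Ico 1 m, (h j / 2) / ((m : ℝ) - j) = 1 / 2 * ∑ j ∈ range m, h j / ((m : ℝ) - j) := by
      rw [range_eq_Ico, sum_eq_sum_Ico_succ_bot (show 0 < m by omega), h_zero, zero_div, zero_add,
        mul_sum]
      refine sum_congr rfl fun j _ => ?_
      ring
    rw [h3, conv_h] at h2
    have h4 := sum_sq_le m
    have h5 : h m * (h m / 2) ≤ h m * ee l m := by rw [h1]; linarith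
    exact le_of_mul_le_mul_left h5 (h_pos hm)

include l1 lrec in
theorem l_diff {a b : ℕ} (ha : 1 ≤ a) (hab : a ≤ b) :
    h a / 2 * (((b : ℝ) - a) / b) ≤ l b - l a := by
  have key : ∀ b, a ≤ b → h a / 2 * (h (b - 1) - h (a - 1)) ≤ l b - l a := by
    intro b hab
    induction b, hab using Nat.le_induction with
    | base => simp
    | succ b hb ih =>
      obtain ⟨d, rfl⟩ : ∃ d, b = d + 1 := ⟨b - 1, by omega⟩
      simp only [Nat.add_sub_cancel] at ih ⊢
      rw [h_succ d]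
      have h1 := ee_lower l l1 lrec (d + 1) (by omega)
      unfold ee at h1
      have hpos : (0 : ℝ) < ((d + 1 : ℕ) : ℝ) := by positivity
      have h2 : h a ≤ h (d + 1) := h_mono hb
      have h3 : h a / 2 * (1 / ((d : ℝ) + 1)) ≤ l (d + 1 + 1) - l (d + 1) := by
        rw [mul_one_div, div_le_iff₀ (by positivity)]
        push_cast at h1
        linarith
      linarith
  refine le_trans ?_ (key b hab)
  exact mul_le_mul_of_nonneg_left (le_h_sub ha hab) (by have := h_nonneg a; positivity)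

include l1 lrec in
theorem l_nonneg (m : ℕ) (hm : 1 ≤ m) : 0 ≤ l m := by
  have h1 := l_diff l l1 lrec le_rfl hm
  rw [l1, sub_zero] at h1
  refine le_trans ?_ h1
  have hm' : (1 : ℝ) ≤ m := by exact_mod_cast hm
  have := h_nonneg 1
  have : (0 : ℝ) ≤ ((m : ℝ) - ((1 : ℕ) : ℝ)) / m := by
    push_cast
    exact div_nonneg (by linarith) (by linarith)
  positivity

end ell

end Pool.Agent.V11327.BS
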