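import Pool.Agent.V11327.BSgreedy

/-! The critical beta-splitting tree as a probability on binary trees. -/

set_option autoImplicit false

namespace Pool.Agent.V11327.BS

open Finset Filter Asymptotics BinaryTree

/-- The probability that DTCS(n) is the tree `t`, `n` the number of leaves of `t`: every internal
node, with `i` leaves on its left and `j` on its right, contributes the factor `q (i + j, i)`. -/
noncomputable def prob : BinaryTree Unit → ℝ
  | .nil => 1
  | .node _ a b => q (a.numLeaves + b.numLeaves) a.numLeaves * prob a * prob b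

/-- Expectation under DTCS(n) of a function of the tree: the trees with `n` leaves are the trees
with `n - 1` internal nodes. -/
noncomputable def E (n : ℕ) (f : BinaryTree Unit → ℝ) : ℝ :=
  ∑ t ∈ treesOfNumNodesEq (n - 1), prob t * f t

/-- expectation for two independent trees -/
noncomputable def E2 (i j : ℕ) (f : BinaryTree Unit → BinaryTree Unit → ℝ) : ℝ :=
  ∑ a ∈ treesOfNumNodesEq (i - 1), ∑ b ∈ treesOfNumNodesEq (j - 1), prob a * prob b * f a b

theorem numLeaves_pos (t : BinaryTree Unit) : 1 ≤ t.numLeaves := by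
  rw [numLeaves_eq_numNodes_succ]; omega

theorem prob_nonneg (t : BinaryTree Unit) : 0 ≤ prob t := by
  induction t with
  | nil => simp [prob]
  | node v a b iha ihb =>
    rw [prob]
    exact mul_nonneg (mul_nonneg (q_nonneg (by omega)) iha) ihb

theorem E_one (f : BinaryTree Unit → ℝ) : E 1 f = f .nil := by
  simp [E, prob]

theorem sum_trees_succ (k : ℕ) (F : BinaryTree Unit → ℝ) :
    ∑ t ∈ treesOfNumNodesEq (k + 1), F t
      = ∑ i ∈ range (k + 1), ∑ a ∈ treesOfNumNodesEq i, ∑ b ∈ treesOfNumNodesEq (k - i),
        F (.node () a b) := by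
  rw [treesOfNumNodesEq_succ, sum_biUnion, Nat.sum_antidiagonal_eq_sum_range_succ_mk]
  · refine sum_congr rfl fun i _ => ?_
    rw [sum_map, sum_product]
    rfl
  · intro x hx y hy hxy
    rw [Function.onFun, disjoint_left]
    intro t ht ht'
    rw [Finset.mem_map] at ht ht'
    obtain ⟨⟨a, b⟩, h1, rfl⟩ := ht
    obtain ⟨⟨c, d⟩, h2, h3⟩ := ht'
    rw [mem_product, mem_treesOfNumNodesEq, mem_treesOfNumNodesEq] at h1 h2
    simp only [Function.Embedding.coeFn_mk, BinaryTree.node.injEq, true_and] at h3
    obtain ⟨rfl, rfl⟩ := h3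
    apply hxy
    ext
    · exact h1.1.symm.trans h2.1
    · exact h1.2.symm.trans h2.2

theorem E_rec {m : ℕ} (hm : 2 ≤ m) (f : BinaryTree Unit → ℝ) :
    E m f = ∑ i ∈ Ico 1 m, q m i * E2 i (m - i) (fun a b => f (.node () a b)) := by
  obtain ⟨k, rfl⟩ : ∃ k, m = k + 2 := ⟨m - 2, by omega⟩
  unfold E E2
  rw [show k + 2 - 1 = k + 1 by omega, sum_trees_succ, sum_Ico_eq_sum_range]
  refine sum_congr (by congr 1) fun i hi => ?_
  have hi' : i < k + 1 := mem_range.1 hi
  rw [mul_sum]
  refine sum_congr (by rw [show 1 + i - 1 = i by omega]) fun a ha => ?_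
  rw [mul_sum]
  refine sum_congr (by rw [show k + 2 - (1 + i) - 1 = k - i by omega]) fun b hb => ?_
  rw [mem_treesOfNumNodesEq] at ha hb
  rw [prob, numLeaves_eq_numNodes_succ, numLeaves_eq_numNodes_succ, ha, hb]
  rw [show 1 + i - 1 + 1 + (k + 2 - (1 + i) - 1 + 1) = k + 2 by omega,
    show 1 + i - 1 + 1 = 1 + i by omega]
  ring

theorem E_total (m : ℕ) (hm : 1 ≤ m) : E m (fun _ => 1) = 1 := by
  induction m using Nat.strong_induction_on with
  | _ m ih =>
    rcases Nat.lt_or_ge m 2 with h2 | h2
    · have : m = 1 := by omega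
      subst this
      rw [E_one]
    · rw [E_rec h2]
      refine Eq.trans (sum_congr rfl fun i hi => ?_) (q_sum h2)
      rw [mem_Ico] at hi
      have h3 : E2 i (m - i) (fun a b => 1) = E i (fun _ => 1) * E (m - i) (fun _ => 1) := by
        unfold E2 E
        rw [sum_mul_sum]
        exact sum_congr rfl fun a _ => sum_congr rfl fun b _ => by ring
      rw [h3, ih i (by omega) (by omega), ih (m - i) (by omega) (by omega)]
      ring

theorem E2_left {i j : ℕ} (hj : 1 ≤ j) (f : BinaryTree Unit → ℝ) :
    E2 i j (fun a _ => f a) = E i f := by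
  have h3 : E2 i j (fun a _ => f a) = E i f * E j (fun _ => 1) := by
    unfold E2 E
    rw [sum_mul_sum]
    exact sum_congr rfl fun a _ => sum_congr rfl fun b _ => by ring
  rw [h3, E_total j hj, mul_one]

theorem E2_right {i j : ℕ} (hi : 1 ≤ i) (f : BinaryTree Unit → ℝ) :
    E2 i j (fun _ b => f b) = E j f := by
  have h3 : E2 i j (fun _ b => f b) = E i (fun _ => 1) * E j f := by
    unfold E2 E
    rw [sum_mul_sum]
    exact sum_congr rfl fun a _ => sum_congr rfl fun b _ => by ring
  rw [h3, E_total i hi, one_mul]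

theorem E2_const {i j : ℕ} (hi : 1 ≤ i) (hj : 1 ≤ j) (c : ℝ) :
    E2 i j (fun _ _ => c) = c := by
  have h3 : E2 i j (fun _ _ => c) = c * (E i (fun _ => 1) * E j (fun _ => 1)) := by
    unfold E2 E
    rw [sum_mul_sum, mul_sum]
    refine sum_congr rfl fun a _ => ?_
    rw [mul_sum]
    exact sum_congr rfl fun b _ => by ring
  rw [h3, E_total i hi, E_total j hj]
  ring

theorem E2_congr {i j : ℕ} {f g : BinaryTree Unit → BinaryTree Unit → ℝ} (hi : 1 ≤ i) (hj : 1 ≤ j)
    (h : ∀ a b : BinaryTree Unit, a.numLeaves = i → b.numLeaves = j → f a b = g a b) :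
    E2 i j f = E2 i j g := by
  unfold E2
  refine sum_congr rfl fun a ha => sum_congr rfl fun b hb => ?_
  rw [mem_treesOfNumNodesEq] at ha hb
  rw [h a b (by rw [numLeaves_eq_numNodes_succ, ha]; omega)
    (by rw [numLeaves_eq_numNodes_succ, hb]; omega)]

theorem E2_add {i j : ℕ} (f g : BinaryTree Unit → BinaryTree Unit → ℝ) :
    E2 i j (fun a b => f a b + g a b) = E2 i j f + E2 i j g := by
  unfold E2
  rw [← sum_add_distrib]
  refine sum_congr rfl fun a _ => ?_
  rw [← sum_add_distrib]
  exact sum_congr rfl fun b _ => by ring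

theorem E2_smul {i j : ℕ} (c : ℝ) (f : BinaryTree Unit → BinaryTree Unit → ℝ) :
    E2 i j (fun a b => c * f a b) = c * E2 i j f := by
  unfold E2
  rw [mul_sum]
  refine sum_congr rfl fun a _ => ?_
  rw [mul_sum]
  exact sum_congr rfl fun b _ => by ring

/-- The depths of the leaves of a tree (the number of edges from the root). -/
def leafDepths : BinaryTree Unit → List ℕ
  | .nil => [0]
  | .node _ a b => (leafDepths a ++ leafDepths b).map (· + 1)

theorem length_leafDepths (t : BinaryTree Unit) : (leafDepths t).length = t.numLeaves := by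
  induction t with
  | nil => rfl
  | node v a b iha ihb => simp [leafDepths, iha, ihb]

theorem sum_map_succ (L : List ℕ) : (L.map (· + 1)).sum = L.sum + L.length := by
  induction L with
  | nil => rfl
  | cons x L ih => simp only [List.map_cons, List.sum_cons, List.length_cons, ih]; ring

theorem sum_leafDepths_node (v : Unit) (a b : BinaryTree Unit) :
    (leafDepths (.node v a b)).sum = (leafDepths a).sum + (leafDepths b).sum
      + (a.numLeaves + b.numLeaves) := by
  rw [leafDepths, sum_map_succ, List.sum_append, List.length_append, length_leafDepths,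
    length_leafDepths]

/-- The mean depth of a uniformly random leaf of `t`. -/
noncomputable def meanLeafDepth (t : BinaryTree Unit) : ℝ :=
  ((leafDepths t).sum : ℝ) / ((leafDepths t).length : ℝ)

/-- The mean length of the greedy path in `t`: start at the root and move into the larger subtree
until a leaf is reached; at a tie, move to the left with probability `p`. -/
noncomputable def greedyLen (p : ℝ) : BinaryTree Unit → ℝ
  | .nil => 0
  | .node _ a b => 1 + if b.numLeaves < a.numLeaves then greedyLen p a
      else if a.numLeaves < b.numLeaves then greedyLen p b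
      else p * greedyLen p a + (1 - p) * greedyLen p b

/-- `E L_n` -/
noncomputable def EL (n : ℕ) : ℝ := E n meanLeafDepth

/-- `E L⁺_n` -/
noncomputable def ELplus (p : ℝ) (n : ℕ) : ℝ := E n (greedyLen p)

theorem EL_one : EL 1 = 0 := by
  unfold EL; rw [E_one]; simp [meanLeafDepth, leafDepths]

theorem ELplus_one (p : ℝ) : ELplus p 1 = 0 := by
  unfold ELplus; rw [E_one]; simp [greedyLen]

theorem EL_rec (m : ℕ) (hm : 2 ≤ m) : (m : ℝ) * EL m
    = m + ∑ i ∈ Ico 1 m, q m i * (i * EL i + ((m : ℝ) - i) * EL (m - i)) := by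
  have hm0 : (m : ℝ) ≠ 0 := by positivity
  have h1 : EL m = ∑ i ∈ Ico 1 m, q m i *
      (1 + ((i : ℝ) / m * EL i + ((m : ℝ) - i) / m * EL (m - i))) := by
    unfold EL
    rw [E_rec hm]
    refine sum_congr rfl fun i hi => ?_
    rw [mem_Ico] at hi
    congr 1
    have hi0 : (i : ℝ) ≠ 0 := by
      have : 0 < i := by omega
      positivity
    have hmi : (m : ℝ) - i ≠ 0 := by
      have : (i : ℝ) < m := by exact_mod_cast hi.2
      linarith
    have h2 : E2 i (m - i) (fun a b => meanLeafDepth (.node () a b))
        = E2 i (m - i) (fun a b => 1 + ((i : ℝ) / m * meanLeafDepth a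
          + ((m : ℝ) - i) / m * meanLeafDepth b)) := by
      refine E2_congr (by omega) (by omega) fun a b ha hb => ?_
      unfold meanLeafDepth
      rw [length_leafDepths, length_leafDepths, length_leafDepths, sum_leafDepths_node,
        numLeaves, ha, hb]
      push_cast
      rw [Nat.cast_sub (by omega)]
      have e : (i : ℝ) + ((m : ℝ) - i) = m := by ring
      rw [e]
      field_simp
      ring
    rw [h2]
    rw [E2_add (fun _ _ => 1) (fun a b => (i : ℝ) / m * meanLeafDepth a
      + ((m : ℝ) - i) / m * meanLeafDepth b), E2_const (by omega) (by omega),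
      E2_add (fun a _ => (i : ℝ) / m * meanLeafDepth a)
        (fun _ b => ((m : ℝ) - i) / m * meanLeafDepth b),
      E2_smul ((i : ℝ) / m) (fun a _ => meanLeafDepth a),
      E2_smul (((m : ℝ) - i) / m) (fun _ b => meanLeafDepth b),
      E2_left (by omega), E2_right (by omega)]
  have h3 : ∑ i ∈ Ico 1 m, q m i *
      (1 + ((i : ℝ) / m * EL i + ((m : ℝ) - i) / m * EL (m - i)))
      = 1 + (∑ i ∈ Ico 1 m, q m i * (i * EL i + ((m : ℝ) - i) * EL (m - i))) / m := by
    have h4 : ∀ i ∈ Ico 1 m, q m i * (1 + ((i : ℝ) / m * EL i + ((m : ℝ) - i) / m * EL (m - i)))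
        = q m i + q m i * (i * EL i + ((m : ℝ) - i) * EL (m - i)) / m := by
      intro i _; ring
    rw [sum_congr rfl h4, sum_add_distrib, q_sum hm, sum_div]
  rw [h1, h3]
  field_simp

theorem ELplus_rec (p : ℝ) (m : ℕ) (hm : 2 ≤ m) : ELplus p m
    = 1 + ∑ i ∈ Ico 1 m, q m i * ELplus p (max i (m - i)) := by
  have h1 : ELplus p m = ∑ i ∈ Ico 1 m, q m i * (1 + ELplus p (max i (m - i))) := by
    unfold ELplus
    rw [E_rec hm]
    refine sum_congr rfl fun i hi => ?_
    rw [mem_Ico] at hi
    congr 1
    rcases lt_trichotomy i (m - i) with h2 | h2 | h2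
    · rw [max_eq_right h2.le]
      have h3 : E2 i (m - i) (fun a b => greedyLen p (.node () a b))
          = E2 i (m - i) (fun a b => 1 + greedyLen p b) := by
        refine E2_congr (by omega) (by omega) fun a b ha hb => ?_
        rw [greedyLen, if_neg (by omega), if_pos (by omega)]
      rw [h3, E2_add (fun _ _ => 1) (fun _ b => greedyLen p b), E2_const (by omega) (by omega),
        E2_right (by omega)]
    · have h3 : E2 i (m - i) (fun a b => greedyLen p (.node () a b))
          = E2 i (m - i) (fun a b => 1 + (p * greedyLen p a + (1 - p) * greedyLen p b)) := by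
        refine E2_congr (by omega) (by omega) fun a b ha hb => ?_
        rw [greedyLen, if_neg (by omega), if_neg (by omega)]
      rw [h3, E2_add (fun _ _ => 1) (fun a b => p * greedyLen p a + (1 - p) * greedyLen p b),
        E2_const (by omega) (by omega),
        E2_add (fun a _ => p * greedyLen p a) (fun _ b => (1 - p) * greedyLen p b),
        E2_smul p (fun a _ => greedyLen p a), E2_smul (1 - p) (fun _ b => greedyLen p b),
        E2_left (by omega), E2_right (by omega), ← h2, max_self]
      ring
    · rw [max_eq_left h2.le]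
      have h3 : E2 i (m - i) (fun a b => greedyLen p (.node () a b))
          = E2 i (m - i) (fun a b => 1 + greedyLen p a) := by
        refine E2_congr (by omega) (by omega) fun a b ha hb => ?_
        rw [greedyLen, if_pos (by omega)]
      rw [h3, E2_add (fun _ _ => 1) (fun a _ => greedyLen p a), E2_const (by omega) (by omega),
        E2_left (by omega)]
  rw [h1]
  simp only [mul_add, mul_one]
  rw [sum_add_distrib, q_sum hm]

/-- `E L⁺_n - E L_n = Θ (log² n)` -/
theorem greedy_vs_leaf (p : ℝ) : (fun n : ℕ => ELplus p n - EL n) =Θ[atTop] fun n : ℕ => Real.log n ^ 2 :=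
  D_theta (ELplus p) (ELplus_one p) (ELplus_rec p) EL EL_one EL_rec

end Pool.Agent.V11327.BS
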