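import Pool.Agent.V11327.CTcomp

set_option autoImplicit false

namespace Pool.Agent.V11327.CT

open Finset MeasureTheory ProbabilityTheory Pool.Agent.V11327.BS Filter Topology

noncomputable def th : ℝ := (1/20000) * (1/2) ^ 122

theorem th_pos : 0 < th := by unfold th; positivity

theorem two_y0 : ((1/2 : ℝ) ^ 120) ^ (1/40 : ℝ) = 1/8 := by
  rw [← Real.rpow_natCast, ← Real.rpow_mul (by norm_num)]
  norm_num

theorem lb {n : ℕ} (hn : 2 ≤ n) {t : ℝ} (ht : 0 ≤ t) (hA : 1 ≤ A n * Real.exp (-t)) :
    th ≤ 1 - G n t := by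
  set y : ℝ := (1/2) ^ 121 with hy
  have hy0 : 0 < y := by positivity
  set Y := A n * Real.exp (-t) with hY
  have hY0 : 0 < Y := by linarith
  have hlog : 1 ≤ Real.log (Y / y) := by
    rw [Real.le_log_iff_exp_le (by positivity)]
    have h1 := Real.exp_one_lt_d9
    have h2 : (3 : ℝ) ≤ Y / y := by
      rw [le_div_iff₀ hy0]
      have : 3 * y ≤ 1 := by rw [hy]; norm_num
      linarith
    linarith
  have h1 := lower n (by omega) hlog ht
  refine le_trans ?_ h1
  refine le_trans ?_ (le_max_left _ _)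
  have hexp : Real.exp (-(t + Real.log (Y / y))) = Real.exp (-t) * (y / Y) := by
    rw [neg_add, Real.exp_add, Real.exp_neg (Real.log _), Real.exp_log (by positivity), inv_div]
  have hAy : A n * Real.exp (-(t + Real.log (Y / y))) = y := by
    rw [hexp, ← mul_assoc, ← hY]
    field_simp
  have hn' : (2 : ℝ) ≤ n := by exact_mod_cast hn
  have hB : B n * Real.exp (-((41/40) * (t + Real.log (Y / y)))) ≤ y / 4 := by
    rw [exp_mul]
    set E := Real.exp (-(t + Real.log (Y / y))) with hE
    have hE0 : 0 < E := Real.exp_pos _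
    have h2 : B n ≤ (2 * A n) ^ (41/40 : ℝ) := by
      refine B_le.trans ?_
      calc (n : ℝ) ^ (41/20 : ℝ) = ((n : ℝ) ^ (2 : ℝ)) ^ (41/40 : ℝ) := by
            rw [← Real.rpow_mul (by linarith)]; norm_num
        _ ≤ (2 * A n) ^ (41/40 : ℝ) := by
            refine Real.rpow_le_rpow (by positivity) ?_ (by norm_num)
            rw [Real.rpow_two]; unfold A; nlinarith
    have hA0 := A_nonneg n
    calc B n * E ^ (41/40 : ℝ) ≤ (2 * A n) ^ (41/40 : ℝ) * E ^ (41/40 : ℝ) :=
          mul_le_mul_of_nonneg_right h2 (by positivity)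
      _ = (2 * (A n * E)) ^ (41/40 : ℝ) := by
          rw [← Real.mul_rpow (by positivity) hE0.le]; congr 1; ring
      _ = (2 * y) ^ (41/40 : ℝ) := by rw [hAy]
      _ = y / 4 := by
          have e : 2 * y = (1/2) ^ 120 := by rw [hy]; ring
          rw [show (41/40 : ℝ) = 1 + 1/40 by norm_num, Real.rpow_add (by positivity), Real.rpow_one,
            e, two_y0, ← e]
          ring
  unfold v th
  rw [hAy]
  have : (1/2 : ℝ) ^ 122 = y / 2 := by rw [hy]; ring
  rw [this]
  nlinarith

theorem G_le_F {n : ℕ} (hn : 2 ≤ n) (t : ℝ) : G n t ≤ F n t := by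
  rcases lt_or_ge t 0 with ht | ht
  · rw [G_neg n ht]; exact F_nonneg n t
  · have hr : 0 < h (n - 1) := h_pos (by omega)
    set r := h (n - 1) with hrdef
    have hd : ∀ x ∈ Set.uIcc 0 t, HasDerivAt (fun x => -Real.exp (-(r * x)) * F n t)
        (r * Real.exp (-(r * x)) * F n t) x := by
      intro x _
      have h1 : HasDerivAt (fun x => Real.exp (-(r * x))) (Real.exp (-(r * x)) * (-(r * 1))) x :=
        (((hasDerivAt_id x).const_mul r).neg).exp
      refine (h1.neg.mul_const (F n t)).congr_deriv ?_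
      ring
    have hFTC := intervalIntegral.integral_eq_sub_of_hasDerivAt hd
      (Continuous.intervalIntegrable (by fun_prop) _ _)
    have hle : G n t ≤ ∫ x in (0:ℝ)..t, r * Real.exp (-(r * x)) * F n t := by
      rw [G_rec hn ht]
      refine intervalIntegral.integral_mono_on ht (intervalIntegrable_F n r t 0 t)
        (Continuous.intervalIntegrable (by fun_prop) _ _) fun x hx => ?_
      refine mul_le_mul_of_nonneg_left (F_mono n (by linarith [hx.1])) (by positivity)
    rw [hFTC] at hle
    simp only [mul_zero, neg_zero, Real.exp_zero] at hle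
    have h2 := Real.exp_pos (-(r * t))
    have h3 := F_nonneg n t
    nlinarith

/-- bootstrap -/
theorem core {t η p : ℝ} {L X : ℕ} (hL : 1 ≤ L) (hX : 2 ≤ X) (hη0 : 0 ≤ η) (hη1 : η ≤ 1)
    (h1 : ∀ m, L ≤ m → G m t ≤ η)
    (h2 : ∀ m, X ≤ m → p ≤ ∑ i ∈ Ico L (m + 1 - L), q m i) :
    ∀ k m : ℕ, 2 ^ k * X ≤ m → G m t ≤ (1 - (1 - η) * p) ^ k := by
  have hp1 : p ≤ 1 := by
    refine (h2 X le_rfl).trans ?_
    rw [← q_sum hX]
    refine sum_le_sum_of_subset_of_nonneg ?_ ?_
    · intro i hi
      rw [mem_Ico] at hi ⊢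
      omega
    · intro i hi _
      exact q_nonneg (mem_Ico.1 hi).2.le
  have hρ : 0 ≤ 1 - (1 - η) * p := by nlinarith
  intro k
  induction k with
  | zero => intro m _; simpa using G_le_one m t
  | succ k ih =>
    intro m hm
    have hpow : 1 ≤ 2 ^ k := Nat.one_le_two_pow
    have hmX : 2 * (2 ^ k * X) ≤ m := by
      calc 2 * (2 ^ k * X) = 2 ^ (k + 1) * X := by ring
        _ ≤ m := hm
    have hXk : X ≤ 2 ^ k * X := Nat.le_mul_of_pos_left X (by positivity)
    have hm2 : 2 ≤ m := by omega
    refine (G_le_F hm2 t).trans ?_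
    set ρ := 1 - (1 - η) * p with hρdef
    have hρk : 0 ≤ ρ ^ k := pow_nonneg hρ k
    have h3 : ∀ i ∈ Ico 1 m, q m i * (G i t * G (m - i) t)
        ≤ q m i * ρ ^ k - (if i ∈ Ico L (m + 1 - L) then (1 - η) * ρ ^ k * q m i else 0) := by
      intro i hi
      have hi' := mem_Ico.1 hi
      have hq0 := q_nonneg (m := m) hi'.2.le
      have g1 := G_le_one i t
      have g2 := G_le_one (m - i) t
      have g3 := G_nonneg i t
      have g4 := G_nonneg (m - i) t
      have hbig : G i t ≤ ρ ^ k ∨ G (m - i) t ≤ ρ ^ k := by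
        rcases le_total (2 ^ k * X) i with h | h
        · exact Or.inl (ih i h)
        · right
          apply ih
          omega
      split_ifs with hgood
      · rw [mem_Ico] at hgood
        have a1 := h1 i hgood.1
        have a2 := h1 (m - i) (by omega)
        have a3 : G i t * G (m - i) t ≤ ρ ^ k * η := by
          rcases hbig with h | h
          · exact mul_le_mul h a2 g4 hρk
          · rw [mul_comm (G i t)]
            exact mul_le_mul h a1 g3 hρk
        have := mul_le_mul_of_nonneg_left a3 hq0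
        nlinarith
      · have a3 : G i t * G (m - i) t ≤ ρ ^ k := by
          rcases hbig with h | h
          · calc G i t * G (m - i) t ≤ G i t * 1 := mul_le_mul_of_nonneg_left g2 g3
              _ ≤ ρ ^ k := by linarith
          · calc G i t * G (m - i) t ≤ 1 * G (m - i) t := mul_le_mul_of_nonneg_right g1 g4
              _ ≤ ρ ^ k := by linarith
        have := mul_le_mul_of_nonneg_left a3 hq0
        linarith
    unfold F
    refine (sum_le_sum h3).trans ?_
    rw [sum_sub_distrib, ← sum_mul, q_sum hm2, ← sum_filter]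
    have h4 : (Ico 1 m).filter (fun i => i ∈ Ico L (m + 1 - L)) = Ico L (m + 1 - L) := by
      ext i
      simp only [mem_filter, mem_Ico]
      omega
    rw [h4, ← mul_sum]
    have h5 := h2 m (by omega)
    have h6 : 0 ≤ (1 - η) * ρ ^ k := mul_nonneg (by linarith) hρk
    have h7 := mul_le_mul_of_nonneg_left h5 h6
    calc 1 * ρ ^ k - (1 - η) * ρ ^ k * ∑ i ∈ Ico L (m + 1 - L), q m i
        ≤ 1 * ρ ^ k - (1 - η) * ρ ^ k * p := by linarith
      _ = ρ ^ (k + 1) := by rw [pow_succ, hρdef]; ring

theorem h_le_log {n : ℕ} (hn : 1 ≤ n) : h n ≤ 1 + Real.log n := by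
  induction n, hn using Nat.le_induction with
  | base => simp [h]
  | succ n hn ih =>
    rw [h_succ]
    have hn0 : (0 : ℝ) < n := by positivity
    have h1 : 1 / ((n : ℝ) + 1) ≤ Real.log ((n : ℝ) + 1) - Real.log n := by
      rw [← Real.log_div (by positivity) (by positivity)]
      have h2 := Real.one_sub_inv_le_log_of_pos (show 0 < ((n : ℝ) + 1) / n by positivity)
      refine le_trans (le_of_eq ?_) h2
      field_simp
      ring
    push_cast
    linarith

theorem sum_ge_log {L M : ℕ} (hL : 1 ≤ L) (hM : L ≤ M) :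
    Real.log M - Real.log L ≤ ∑ i ∈ Ico L M, 1 / (i : ℝ) := by
  induction M, hM using Nat.le_induction with
  | base => simp
  | succ M hM ih =>
    rw [sum_Ico_succ_top hM]
    have hM0 : (0 : ℝ) < M := by
      have : 1 ≤ M := by omega
      positivity
    have h1 : Real.log ((M : ℝ) + 1) - Real.log M ≤ 1 / (M : ℝ) := by
      rw [← Real.log_div (by positivity) (by positivity)]
      have h2 := Real.log_le_sub_one_of_pos (show 0 < ((M : ℝ) + 1) / M by positivity)
      refine h2.trans (le_of_eq ?_)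
      field_simp
      ring
    push_cast
    linarith

theorem sum_q_ge {m L : ℕ} (hL : 1 ≤ L) (hm : 2 * L ≤ m) (hm2 : 2 ≤ m) :
    (Real.log m - Real.log L - Real.log 2) / (2 * (1 + Real.log m))
      ≤ ∑ i ∈ Ico L (m + 1 - L), q m i := by
  have hL0 : (0 : ℝ) < L := by positivity
  have hm0 : (0 : ℝ) < m := by positivity
  have hm1 : (1 : ℝ) < m := by exact_mod_cast hm2
  have hh := h_pos (n := m - 1) (by omega)
  have h1 : ∀ i ∈ Ico L (m + 1 - L), 1 / (2 * h (m - 1)) * (1 / (i : ℝ)) ≤ q m i := by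
    intro i hi
    rw [mem_Ico] at hi
    rw [q_eq (by omega) (by omega)]
    refine mul_le_mul_of_nonneg_left ?_ (by positivity)
    have : (i : ℝ) ≤ m := by exact_mod_cast (by omega : i ≤ m)
    have : 0 ≤ 1 / ((m : ℝ) - i) := div_nonneg zero_le_one (by linarith)
    linarith
  refine le_trans ?_ (sum_le_sum h1)
  rw [← mul_sum]
  have h2 := sum_ge_log hL (M := m + 1 - L) (by omega)
  have h3 : Real.log m - Real.log 2 ≤ Real.log ((m + 1 - L : ℕ) : ℝ) := by
    rw [← Real.log_div hm0.ne' (by norm_num)]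
    apply Real.log_le_log (by positivity)
    have : (m : ℝ) ≤ 2 * ((m + 1 - L : ℕ) : ℝ) := by exact_mod_cast (by omega : m ≤ 2 * (m + 1 - L))
    linarith
  have hlog : 0 < Real.log m := Real.log_pos hm1
  have h4 : h (m - 1) ≤ 1 + Real.log m := by
    refine (h_le_log (by omega)).trans ?_
    have : Real.log ((m - 1 : ℕ) : ℝ) ≤ Real.log m := by
      apply Real.log_le_log
      · have : 1 ≤ m - 1 := by omega
        exact_mod_cast this
      · exact_mod_cast (by omega : m - 1 ≤ m)
    linarith
  have h5 : 0 ≤ ∑ i ∈ Ico L (m + 1 - L), 1 / (i : ℝ) := sum_nonneg fun i _ => by positivity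
  calc (Real.log m - Real.log L - Real.log 2) / (2 * (1 + Real.log m))
      ≤ (∑ i ∈ Ico L (m + 1 - L), 1 / (i : ℝ)) / (2 * (1 + Real.log m)) :=
        div_le_div_of_nonneg_right (by linarith) (by positivity)
    _ ≤ (∑ i ∈ Ico L (m + 1 - L), 1 / (i : ℝ)) / (2 * h (m - 1)) :=
        div_le_div_of_nonneg_left h5 (by positivity) (by linarith)
    _ = _ := by ring

end Pool.Agent.V11327.CT
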