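import Pool.Agent.V11327.CTsub

set_option autoImplicit false

namespace Pool.Agent.V11327.CT

open Finset MeasureTheory ProbabilityTheory Pool.Agent.V11327.BS Filter Topology

/-- the sub-solution -/
noncomputable def v (n : ℕ) (t : ℝ) : ℝ :=
  (1/20000) * (A n * Real.exp (-t) - 2 * B n * Real.exp (-((41/40) * t)))

noncomputable def vp (n : ℕ) (t : ℝ) : ℝ := max (v n t) 0

theorem vp_nonneg (n : ℕ) (t : ℝ) : 0 ≤ vp n t := le_max_right _ _

theorem exp_mul (t : ℝ) : Real.exp (-((41/40) * t)) = Real.exp (-t) ^ (41/40 : ℝ) := by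
  rw [← Real.exp_mul]; congr 1; ring

/-- for `n ≥ 3` -/
theorem v_le_of_three {n : ℕ} (hn : 3 ≤ n) (t : ℝ) :
    v n t ≤ (1/20000) * (A n * Real.exp (-t) - (A n * Real.exp (-t)) ^ (41/40 : ℝ)) := by
  unfold v
  refine mul_le_mul_of_nonneg_left ?_ (by norm_num)
  rw [Real.mul_rpow (A_nonneg n) (Real.exp_pos _).le, exp_mul]
  have h1 := A_rpow_le hn
  have h2 : 0 < Real.exp (-t) ^ (41/40 : ℝ) := Real.rpow_pos_of_pos (Real.exp_pos _) _
  nlinarith

theorem v_le_aux {n : ℕ} {t : ℝ} (ht : 1 ≤ t) :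
    v n t ≤ 0 ∨ (v n t ≤ (1/20000) * (A n * Real.exp (-t)) ∧ A n * Real.exp (-t) ≤ 1) := by
  rcases Nat.lt_or_ge n 3 with h3 | h3
  · right
    have hB : B n = 0 := by unfold B; rw [if_pos (by omega)]
    constructor
    · unfold v; rw [hB]; simp
    · have h1 : A n ≤ 2 := by
        unfold A
        interval_cases n <;> norm_num
      have h2 : Real.exp (-t) ≤ 1 / 2 := by
        have h4 : Real.exp (-t) ≤ Real.exp (-1) := Real.exp_le_exp.2 (by linarith)
        have h5 : Real.exp (-1) ≤ 1 / 2 := by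
          rw [Real.exp_neg, inv_eq_one_div]
          apply one_div_le_one_div_of_le (by norm_num)
          have := Real.add_one_le_exp (1 : ℝ)
          linarith
        linarith
      have h3 := Real.exp_pos (-t)
      nlinarith
  · have h1 := v_le_of_three h3 t
    set Y := A n * Real.exp (-t) with hY
    have hY0 : 0 ≤ Y := mul_nonneg (A_nonneg n) (Real.exp_pos _).le
    rcases le_total Y 1 with h4 | h4
    · right
      refine ⟨h1.trans ?_, h4⟩
      have : 0 ≤ Y ^ (41/40 : ℝ) := Real.rpow_nonneg hY0 _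
      linarith
    · left
      refine h1.trans ?_
      have h5 : Y ^ (1 : ℝ) ≤ Y ^ (41/40 : ℝ) := Real.rpow_le_rpow_of_exponent_le h4 (by norm_num)
      rw [Real.rpow_one] at h5
      linarith

theorem vp_le {n : ℕ} {t : ℝ} (ht : 1 ≤ t) : vp n t ≤ 1/20000 := by
  unfold vp
  rcases v_le_aux (n := n) ht with h1 | ⟨h1, h2⟩
  · exact max_le (by linarith) (by norm_num)
  · exact max_le (by linarith) (by norm_num)

theorem vp_le_rpow {n : ℕ} {t : ℝ} (ht : 1 ≤ t) :
    vp n t ≤ (1/20000) * (A n * Real.exp (-t)) ^ (41/80 : ℝ) := by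
  have hY0 : 0 ≤ A n * Real.exp (-t) := mul_nonneg (A_nonneg n) (Real.exp_pos _).le
  have hr : 0 ≤ (1/20000) * (A n * Real.exp (-t)) ^ (41/80 : ℝ) := by positivity
  unfold vp
  rcases v_le_aux (n := n) ht with h1 | ⟨h1, h2⟩
  · exact max_le (h1.trans hr) hr
  · refine max_le (h1.trans ?_) hr
    refine mul_le_mul_of_nonneg_left ?_ (by norm_num)
    rcases hY0.eq_or_lt with h0 | h0
    · rw [← h0]; exact Real.rpow_nonneg le_rfl _
    · have := Real.rpow_le_rpow_of_exponent_ge h0 h2 (show (41/80 : ℝ) ≤ 1 by norm_num)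
      rwa [Real.rpow_one] at this

theorem A_le_sq (n : ℕ) : A n ≤ (n : ℝ) ^ 2 := by
  unfold A
  have : (0 : ℝ) ≤ n := by positivity
  nlinarith

/-- the quadratic term -/
theorem quad {n : ℕ} (hn : 2 ≤ n) {t : ℝ} (ht : 1 ≤ t) :
    ∑ i ∈ Ico 1 n, h (n - 1) * q n i * (vp i t * vp (n - i) t)
      ≤ (1/20000) ^ 2 * ((n : ℝ) ^ (41/20 : ℝ) / 2) * Real.exp (-((41/40) * t)) := by
  have hn0 : (0 : ℝ) < n := by positivity
  have h1 : ∀ i ∈ Ico 1 n, h (n - 1) * q n i * (vp i t * vp (n - i) t)
      ≤ (1/20000) ^ 2 * ((n : ℝ) ^ (21/20 : ℝ) / 2) * Real.exp (-((41/40) * t)) := by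
    intro i hi
    have hi' := mem_Ico.1 hi
    rw [hq hi'.1 hi'.2]
    have hi0 : (1 : ℝ) ≤ i := by exact_mod_cast hi'.1
    have hin : (1 : ℝ) ≤ (n : ℝ) - i := by
      have : (i : ℝ) + 1 ≤ n := by exact_mod_cast hi'.2
      linarith
    set X : ℝ := i * ((n : ℝ) - i) with hX
    have hX0 : 0 < X := by positivity
    have hXn : X ≤ (n : ℝ) ^ 2 := by
      rw [hX]
      nlinarith
    have h2 : vp i t * vp (n - i) t ≤ (1/20000) ^ 2 * (X ^ (41/40 : ℝ) * Real.exp (-((41/40) * t))) := by
      have a1 := vp_le_rpow (n := i) ht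
      have a2 := vp_le_rpow (n := n - i) ht
      have a3 : A i * Real.exp (-t) * (A (n - i) * Real.exp (-t)) ≤ (X * Real.exp (-t)) ^ (2 : ℝ) := by
        rw [Real.rpow_two]
        have b1 := A_le_sq i
        have b2 := A_le_sq (n - i)
        rw [Nat.cast_sub hi'.2.le] at b2
        have b3 : A i * A (n - i) ≤ X ^ 2 := by
          calc A i * A (n - i) ≤ (i : ℝ) ^ 2 * ((n : ℝ) - i) ^ 2 :=
                mul_le_mul b1 b2 (A_nonneg _) (by positivity)
            _ = X ^ 2 := by rw [hX]; ring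
        have b4 := Real.exp_pos (-t)
        nlinarith [mul_le_mul_of_nonneg_right b3 (mul_pos b4 b4).le]
      calc vp i t * vp (n - i) t
          ≤ ((1/20000) * (A i * Real.exp (-t)) ^ (41/80 : ℝ))
              * ((1/20000) * (A (n - i) * Real.exp (-t)) ^ (41/80 : ℝ)) :=
            mul_le_mul a1 a2 (vp_nonneg _ _) (by
              have := A_nonneg i
              positivity)
        _ = (1/20000) ^ 2 * ((A i * Real.exp (-t)) * (A (n - i) * Real.exp (-t))) ^ (41/80 : ℝ) := by
            have := A_nonneg i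
            have := A_nonneg (n - i)
            rw [Real.mul_rpow (x := A i * Real.exp (-t)) (by positivity) (by positivity)]
            ring
        _ ≤ (1/20000) ^ 2 * ((X * Real.exp (-t)) ^ (2 : ℝ)) ^ (41/80 : ℝ) := by
            have := A_nonneg i
            have := A_nonneg (n - i)
            refine mul_le_mul_of_nonneg_left ?_ (by norm_num)
            exact Real.rpow_le_rpow (by positivity) a3 (by norm_num)
        _ = (1/20000) ^ 2 * (X ^ (41/40 : ℝ) * Real.exp (-((41/40) * t))) := by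
            rw [← Real.rpow_mul (by positivity), Real.mul_rpow hX0.le (Real.exp_pos _).le, exp_mul]
            norm_num
    have h3 : X ^ (41/40 : ℝ) ≤ X * (n : ℝ) ^ (1/20 : ℝ) := by
      rw [show (41/40 : ℝ) = 1 + 1/40 by norm_num, Real.rpow_add hX0, Real.rpow_one]
      refine mul_le_mul_of_nonneg_left ?_ hX0.le
      calc X ^ (1/40 : ℝ) ≤ ((n : ℝ) ^ 2) ^ (1/40 : ℝ) := Real.rpow_le_rpow hX0.le hXn (by norm_num)
        _ = (n : ℝ) ^ (1/20 : ℝ) := by
          rw [← Real.rpow_natCast, ← Real.rpow_mul hn0.le]; norm_num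
    have h4 : (n : ℝ) ^ (21/20 : ℝ) = n * (n : ℝ) ^ (1/20 : ℝ) := by
      rw [show (21/20 : ℝ) = 1 + 1/20 by norm_num, Real.rpow_add hn0, Real.rpow_one]
    have h5 : (n : ℝ) / (2 * i * ((n : ℝ) - i)) = n / (2 * X) := by rw [hX]; ring
    rw [h5, h4]
    have he := Real.exp_pos (-((41/40) * t))
    calc (n : ℝ) / (2 * X) * (vp i t * vp (n - i) t)
        ≤ (n : ℝ) / (2 * X) * ((1/20000) ^ 2 * ((X * (n : ℝ) ^ (1/20 : ℝ)) * Real.exp (-((41/40) * t)))) := by
          refine mul_le_mul_of_nonneg_left (h2.trans ?_) (by positivity)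
          refine mul_le_mul_of_nonneg_left ?_ (by norm_num)
          exact mul_le_mul_of_nonneg_right h3 he.le
      _ = (1/20000) ^ 2 * (n * (n : ℝ) ^ (1/20 : ℝ) / 2) * Real.exp (-((41/40) * t)) := by
          field_simp
  refine (sum_le_sum h1).trans ?_
  rw [sum_const, Nat.card_Ico, nsmul_eq_mul]
  have h6 : (n : ℝ) ^ (41/20 : ℝ) = n * (n : ℝ) ^ (21/20 : ℝ) := by
    rw [show (41/20 : ℝ) = 1 + 21/20 by norm_num, Real.rpow_add hn0, Real.rpow_one]
  rw [h6]
  have h7 : ((n - 1 : ℕ) : ℝ) ≤ n := by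
    have : n - 1 ≤ n := by omega
    exact_mod_cast this
  have he := Real.exp_pos (-((41/40) * t))
  have h8 : 0 < (n : ℝ) ^ (21/20 : ℝ) := Real.rpow_pos_of_pos hn0 _
  calc ((n - 1 : ℕ) : ℝ) * ((1/20000) ^ 2 * ((n : ℝ) ^ (21/20 : ℝ) / 2) * Real.exp (-((41/40) * t)))
      ≤ n * ((1/20000) ^ 2 * ((n : ℝ) ^ (21/20 : ℝ) / 2) * Real.exp (-((41/40) * t))) :=
        mul_le_mul_of_nonneg_right h7 (by positivity)
    _ = (1/20000) ^ 2 * (n * (n : ℝ) ^ (21/20 : ℝ) / 2) * Real.exp (-((41/40) * t)) := by ring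

theorem quad_le {n : ℕ} (hn : 2 ≤ n) {t : ℝ} (ht : 1 ≤ t) :
    ∑ i ∈ Ico 1 n, h (n - 1) * q n i * (vp i t * vp (n - i) t)
      ≤ (1/20000) * (2 * ((1/10000) * B n)) * Real.exp (-((41/40) * t)) := by
  rcases Nat.lt_or_ge n 3 with h3 | h3
  · have : n = 2 := by omega
    subst this
    have h1 : vp 1 t = 0 := by
      unfold vp v A B; simp
    have h2 : B 2 = 0 := by simp [B]
    rw [h2]
    have h4 : ∑ i ∈ Ico 1 2, h (2 - 1) * q 2 i * (vp i t * vp (2 - i) t) = 0 := by
      rw [show Ico 1 2 = {1} by rfl, sum_singleton, h1]; ring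
    rw [h4]; simp
  · refine (quad hn ht).trans ?_
    have he := Real.exp_pos (-((41/40) * t))
    refine mul_le_mul_of_nonneg_right ?_ he.le
    have hn' : (3 : ℝ) ≤ n := by exact_mod_cast h3
    have h1 := A_rpow_le h3
    have h2 : ((n : ℝ) ^ (2 : ℝ) / 2) ^ (41/40 : ℝ) ≤ A n ^ (41/40 : ℝ) := by
      refine Real.rpow_le_rpow (by positivity) ?_ (by norm_num)
      rw [Real.rpow_two]; unfold A; nlinarith
    have h4 : (n : ℝ) ^ (41/20 : ℝ) / 4 ≤ ((n : ℝ) ^ (2 : ℝ) / 2) ^ (41/40 : ℝ) := by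
      rw [Real.div_rpow (by positivity) (by norm_num), ← Real.rpow_mul (by linarith)]
      have h5 : (2 : ℝ) ^ (41/40 : ℝ) ≤ 2 ^ (2 : ℝ) :=
        Real.rpow_le_rpow_of_exponent_le (by norm_num) (by norm_num)
      rw [Real.rpow_two] at h5
      norm_num at h5 ⊢
      exact div_le_div_of_nonneg_left (by positivity) (by positivity) h5
    nlinarith [h1, h2, h4]

theorem hasDerivAt_v (n : ℕ) (τ s : ℝ) : HasDerivAt (fun s => v n (s + τ))
    ((1/20000) * (-(A n * Real.exp (-(s + τ)))
      + (41/40) * (2 * B n * Real.exp (-((41/40) * (s + τ)))))) s := by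
  unfold v
  have h0 : HasDerivAt (fun s : ℝ => s + τ) 1 s := (hasDerivAt_id s).add_const τ
  have h1 : HasDerivAt (fun s : ℝ => Real.exp (-(s + τ))) (Real.exp (-(s + τ)) * (-1)) s :=
    h0.neg.exp
  have h2 : HasDerivAt (fun s : ℝ => Real.exp (-((41/40) * (s + τ))))
      (Real.exp (-((41/40) * (s + τ))) * (-((41/40) * 1))) s := (h0.const_mul (41/40)).neg.exp
  have h3 := ((h1.const_mul (A n)).sub (h2.const_mul (2 * B n))).const_mul (1/20000)
  refine h3.congr_deriv ?_
  ring

theorem linear_ineq {n : ℕ} (hn : 2 ≤ n) (x y : ℝ) (hy : 0 ≤ y) :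
    (-(A n * x) + (41/40) * (2 * B n * y)) + h (n - 1) * (A n * x - 2 * B n * y)
      + 2 * ((1/10000) * B n) * y
      ≤ ∑ i ∈ Ico 1 n, h (n - 1) * q n i * ((A i * x - 2 * B i * y) + (A (n - i) * x - 2 * B (n - i) * y)) := by
  have h1 : ∑ i ∈ Ico 1 n, h (n - 1) * q n i
        * ((A i * x - 2 * B i * y) + (A (n - i) * x - 2 * B (n - i) * y))
      = x * (∑ i ∈ Ico 1 n, h (n - 1) * q n i * (A i + A (n - i)))
        - 2 * y * (∑ i ∈ Ico 1 n, h (n - 1) * q n i * (B i + B (n - i))) := by
    rw [mul_sum, mul_sum, ← sum_sub_distrib]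
    exact sum_congr rfl fun i _ => by ring
  rw [h1, sum_A hn]
  rcases Nat.lt_or_ge n 3 with h3 | h3
  · have : n = 2 := by omega
    subst this
    have e1 : B 2 = 0 := by simp [B]
    have e2 : B 1 = 0 := by simp [B]
    have h4 : ∑ i ∈ Ico 1 2, h (2 - 1) * q 2 i * (B i + B (2 - i)) = 0 := by
      rw [show Ico 1 2 = {1} by rfl, sum_singleton]
      simp [e2]
    rw [h4, e1]
    linarith
  · have h4 := margin h3
    have h5 := mul_le_mul_of_nonneg_left h4 (show 0 ≤ 2 * y by linarith)
    linarith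

theorem one_sub_F {n : ℕ} (h2 : 2 ≤ n) (s : ℝ) :
    h (n - 1) * (1 - F n s) = ∑ i ∈ Ico 1 n, h (n - 1) * q n i * (1 - G i s * G (n - i) s) := by
  have h1 : h (n - 1) * (1 - F n s)
      = h (n - 1) * (∑ i ∈ Ico 1 n, q n i - ∑ i ∈ Ico 1 n, q n i * (G i s * G (n - i) s)) := by
    rw [q_sum h2]; rfl
  rw [h1, ← sum_sub_distrib, mul_sum]
  exact sum_congr rfl fun i _ => by ring

/-- comparison with the sub-solution -/
theorem lower (n : ℕ) (hn : 1 ≤ n) {τ t : ℝ} (hτ : 1 ≤ τ) (ht : 0 ≤ t) :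
    vp n (t + τ) ≤ 1 - G n t := by
  induction n using Nat.strong_induction_on generalizing t with
  | _ n ih =>
    rcases Nat.lt_or_ge n 2 with h2 | h2
    · have : n = 1 := by omega
      subst this
      have h1 : vp 1 (t + τ) = 0 := by unfold vp v A B; simp
      rw [h1]; linarith [G_le_one 1 t]
    · refine max_le ?_ (by linarith [G_le_one n t])
      have hh : 0 < h (n - 1) := h_pos (by omega)
      refine le_of_sub h2 ht (fun s => v n (s + τ)) _ (hasDerivAt_v n τ) ?_ ?_ ?_
      · fun_prop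
      · intro s hs
        have hst : 1 ≤ s + τ := by linarith
        have hF : h (n - 1) * (1 - F n s) = ∑ i ∈ Ico 1 n, h (n - 1) * q n i
            * (1 - G i s * G (n - i) s) := by
          exact one_sub_F h2 s
        have h3 : ∑ i ∈ Ico 1 n, h (n - 1) * q n i
            * ((v i (s + τ) + v (n - i) (s + τ)) - vp i (s + τ) * vp (n - i) (s + τ))
            ≤ h (n - 1) * (1 - F n s) := by
          rw [hF]
          refine sum_le_sum fun i hi => ?_
          have hi' := mem_Ico.1 hi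
          refine mul_le_mul_of_nonneg_left ?_ (mul_nonneg hh.le (q_nonneg hi'.2.le))
          have a1 := ih i hi'.2 hi'.1 hs
          have a2 := ih (n - i) (by omega) (by omega) hs
          have a3 : v i (s + τ) ≤ vp i (s + τ) := le_max_left _ _
          have a4 : v (n - i) (s + τ) ≤ vp (n - i) (s + τ) := le_max_left _ _
          have a5 := G_nonneg i s
          have a6 := G_nonneg (n - i) s
          have a7 : G i s * G (n - i) s ≤ (1 - vp i (s + τ)) * (1 - vp (n - i) (s + τ)) :=
            mul_le_mul (by linarith) (by linarith) a6 (by linarith)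
          nlinarith
        refine le_trans ?_ h3
        have h4 := quad_le h2 hst
        have h5 := linear_ineq h2 (Real.exp (-(s + τ))) (Real.exp (-((41/40) * (s + τ))))
          (Real.exp_pos _).le
        have h6 : ∑ i ∈ Ico 1 n, h (n - 1) * q n i
            * ((v i (s + τ) + v (n - i) (s + τ)) - vp i (s + τ) * vp (n - i) (s + τ))
            = (1/20000) * (∑ i ∈ Ico 1 n, h (n - 1) * q n i *
              ((A i * Real.exp (-(s + τ)) - 2 * B i * Real.exp (-((41/40) * (s + τ))))
              + (A (n - i) * Real.exp (-(s + τ)) - 2 * B (n - i) * Real.exp (-((41/40) * (s + τ))))))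
              - ∑ i ∈ Ico 1 n, h (n - 1) * q n i * (vp i (s + τ) * vp (n - i) (s + τ)) := by
          rw [mul_sum, ← sum_sub_distrib]
          refine sum_congr rfl fun i _ => ?_
          unfold v
          ring
        rw [h6]
        show _ + h (n - 1) * v n (s + τ) ≤ _
        unfold v
        linarith
      · show v n (0 + τ) ≤ 1
        have := vp_le (n := n) (t := 0 + τ) (by linarith)
        have h3 : v n (0 + τ) ≤ vp n (0 + τ) := le_max_left _ _
        linarith

/-- the super-solution: `P(D*_n > t) ≤ n (n-1) e^{-t}` -/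
theorem upper (n : ℕ) {t : ℝ} (ht : 0 ≤ t) : 1 - G n t ≤ A n * Real.exp (-t) := by
  induction n using Nat.strong_induction_on generalizing t with
  | _ n ih =>
    rcases Nat.lt_or_ge n 2 with h2 | h2
    · rw [G_one (by omega) ht]
      have := A_nonneg n
      have := Real.exp_pos (-t)
      simp only [sub_self]
      positivity
    · have hh : 0 < h (n - 1) := h_pos (by omega)
      refine le_of_super h2 ht (fun s => A n * Real.exp (-s)) (fun s => A n * (-Real.exp (-s))) ?_ ?_ ?_ ?_
      · intro s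
        have h1 : HasDerivAt (fun s : ℝ => Real.exp (-s)) (Real.exp (-s) * (-1)) s :=
          (hasDerivAt_id s).neg.exp
        refine (h1.const_mul (A n)).congr_deriv ?_
        ring
      · fun_prop
      · intro s hs
        have hF : h (n - 1) * (1 - F n s) = ∑ i ∈ Ico 1 n, h (n - 1) * q n i
            * (1 - G i s * G (n - i) s) := by
          exact one_sub_F h2 s
        have h3 : h (n - 1) * (1 - F n s) ≤ ∑ i ∈ Ico 1 n, h (n - 1) * q n i
            * (A i * Real.exp (-s) + A (n - i) * Real.exp (-s)) := by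
          rw [hF]
          refine sum_le_sum fun i hi => ?_
          have hi' := mem_Ico.1 hi
          refine mul_le_mul_of_nonneg_left ?_ (mul_nonneg hh.le (q_nonneg hi'.2.le))
          have a1 := ih i hi'.2 hs
          have a2 := ih (n - i) (by omega) hs
          have a5 := G_le_one i s
          have a6 := G_le_one (n - i) s
          have a7 := G_nonneg i s
          nlinarith
        have h4 : ∑ i ∈ Ico 1 n, h (n - 1) * q n i
            * (A i * Real.exp (-s) + A (n - i) * Real.exp (-s))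
            = Real.exp (-s) * ((h (n - 1) - 1) * A n) := by
          rw [← sum_A h2, mul_sum]
          exact sum_congr rfl fun i _ => by ring
        rw [h4] at h3
        refine h3.trans (le_of_eq ?_)
        ring
      · show 1 ≤ A n * Real.exp (-0)
        rw [neg_zero, Real.exp_zero, mul_one]
        unfold A
        have : (2 : ℝ) ≤ n := by exact_mod_cast h2
        nlinarith

end Pool.Agent.V11327.CT
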