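import Pool.Agent.V11327.BSseq

/-! The law of the height of the continuous-time critical beta-splitting tree. -/

set_option autoImplicit false

namespace Pool.Agent.V11327.CT

open Finset MeasureTheory ProbabilityTheory Pool.Agent.V11327.BS

/-- The law of the height `D*_n` of `CTCS(n)`, defined by its recursive construction. A block of
size `n ≤ 1` has height `0`. A block of size `n ≥ 2` waits an Exponential time `e` of rate
`h (n - 1)`, splits into blocks of sizes `i` and `n - i` with probability `q n i`, and its height is
`e + max a b`, where `a` and `b` are the heights of the two blocks; `e`, `a`, `b` are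
independent. -/
noncomputable def heightLaw (n : ℕ) : Measure ℝ :=
  if n ≤ 1 then Measure.dirac 0
  else ∑ i ∈ (Ico 1 n).attach, ENNReal.ofReal (q n i.1) •
    ((expMeasure (h (n - 1))).prod ((heightLaw i.1).prod (heightLaw (n - i.1)))).map
      (fun p => p.1 + max p.2.1 p.2.2)
termination_by n
decreasing_by
  · have := mem_Ico.1 i.2; omega
  · have := mem_Ico.1 i.2; omega

end Pool.Agent.V11327.CT
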