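import Pool.Agent.V11327.CTboot

set_option autoImplicit false

namespace Pool.Agent.V11327.CT

open Finset MeasureTheory ProbabilityTheory Pool.Agent.V11327.BS Filter Topology

theorem G_small_core {ε : ℝ} (hε : 0 < ε) (hε1 : ε ≤ 1) (k : ℕ) {n : ℕ}
    (hn : 16 * Real.log 2 / (ε / 4) + 2 + (k + 1) * Real.log 2 * 8 / ε ≤ Real.log n) :
    G n ((2 - ε) * Real.log n) ≤ (1 - (1 - (1 - th)) * (ε / 32)) ^ k := by
  set δ := ε / 4 with hδ
  have hδ0 : 0 < δ := by positivity
  have hδ1 : δ ≤ 1/4 := by rw [hδ]; linarith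
  set l := Real.log n with hl
  have hlog2 : 0 < Real.log 2 := Real.log_pos (by norm_num)
  have hlog2' : Real.log 2 ≤ 1 := by have := Real.log_two_lt_d9; linarith
  have c0 : 0 ≤ 16 * Real.log 2 / δ := by positivity
  have c1 : 0 ≤ (k + 1) * Real.log 2 * 8 / ε := by positivity
  have hl2 : 2 ≤ l := by linarith
  have hn0 : n ≠ 0 := by
    rintro rfl
    simp [hl] at hl2
    linarith
  have hnpos : (0 : ℝ) < n := by positivity
  have hexpl : Real.exp l = n := by rw [hl, Real.exp_log hnpos]
  -- consequences of the size of `l`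
  have d1 : 16 * Real.log 2 ≤ δ * l - 2 * δ := by
    have h1 : 16 * Real.log 2 / δ ≤ l - 2 := by linarith
    rw [div_le_iff₀ hδ0] at h1
    linarith
  have d2 : (k + 1) * Real.log 2 ≤ δ / 2 * l := by
    have h1 : (k + 1) * Real.log 2 * 8 / ε ≤ l := by linarith
    rw [div_le_iff₀ hε] at h1
    have : ε = 4 * δ := by rw [hδ]; ring
    rw [this] at h1
    linarith
  set eL := Real.exp ((1 - δ) * l) with heL
  set eX := Real.exp ((1 - δ / 2) * l) with heX
  have heL1 : 1 ≤ eL := Real.one_le_exp (by nlinarith)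
  have heX1 : 1 ≤ eX := Real.one_le_exp (by nlinarith)
  set L := ⌈eL⌉₊ with hL
  set X := ⌈eX⌉₊ with hX
  have hLge : eL ≤ (L : ℝ) := Nat.le_ceil _
  have hXge : eX ≤ (X : ℝ) := Nat.le_ceil _
  have hLle : (L : ℝ) ≤ 2 * eL := by
    have := (Nat.ceil_lt_add_one (show 0 ≤ eL by linarith)).le
    linarith
  have hXle : (X : ℝ) ≤ 2 * eX := by
    have := (Nat.ceil_lt_add_one (show 0 ≤ eX by linarith)).le
    linarith
  have hLX : 4 * eL ≤ eX := by
    have h1 : (4 : ℝ) = Real.exp (2 * Real.log 2) := by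
      rw [two_mul, Real.exp_add, Real.exp_log (by norm_num)]; norm_num
    rw [h1, heL, heX, ← Real.exp_add]
    apply Real.exp_le_exp.2
    nlinarith
  have hX2 : 2 ≤ X := by
    have : (2 : ℝ) ≤ X := by linarith
    exact_mod_cast this
  have hL1 : 1 ≤ L := by
    have : (1 : ℝ) ≤ L := by linarith
    exact_mod_cast this
  have ht : 0 ≤ (2 - ε) * l := mul_nonneg (by linarith) (by linarith)
  have hth : th ≤ 1 := by
    unfold th
    norm_num
  have key := core (t := (2 - ε) * l) (η := 1 - th) (p := ε / 32) (L := L) (X := X) hL1 hX2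
    (by linarith) (by linarith [th_pos]) ?_ ?_ k n ?_
  · exact key
  · intro m hm
    have hmL : eL ≤ (m : ℝ) := hLge.trans (by exact_mod_cast hm)
    have he2 : 2 ≤ eL := by
      have h1 : (2 : ℝ) = Real.exp (Real.log 2) := by rw [Real.exp_log (by norm_num)]
      rw [h1, heL]
      apply Real.exp_le_exp.2
      nlinarith
    have hm2 : 2 ≤ m := by
      have : (2 : ℝ) ≤ m := he2.trans hmL
      exact_mod_cast this
    have hm2' : (2 : ℝ) ≤ m := by exact_mod_cast hm2
    have h3 := lb hm2 ht ?_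
    · linarith
    · have h4 : eL ^ 2 / 2 ≤ A m := by
        unfold A
        nlinarith
      have h5 : 2 * Real.exp ((2 - ε) * l) ≤ eL ^ 2 := by
        rw [heL, ← Real.exp_nat_mul]
        have h1 : (2 : ℝ) = Real.exp (Real.log 2) := by rw [Real.exp_log (by norm_num)]
        nth_rw 1 [h1]
        rw [← Real.exp_add]
        apply Real.exp_le_exp.2
        have : ε = 4 * δ := by rw [hδ]; ring
        rw [this]
        push_cast
        nlinarith
      rw [Real.exp_neg, ← div_eq_mul_inv, le_div_iff₀ (Real.exp_pos _), one_mul]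
      linarith
  · intro m hm
    have hmX : eX ≤ (m : ℝ) := hXge.trans (by exact_mod_cast hm)
    have hm2 : 2 ≤ m := hX2.trans hm
    have hmpos : (0 : ℝ) < m := by positivity
    have hLm : 2 * L ≤ m := by
      have : 2 * (L : ℝ) ≤ m := by linarith
      exact_mod_cast this
    refine le_trans ?_ (sum_q_ge hL1 hLm hm2)
    have hLpos : (0 : ℝ) < L := by positivity
    have hlm : (1 - δ / 2) * l ≤ Real.log m := by
      rw [Real.le_log_iff_exp_le hmpos]; exact hmX
    have hlL : Real.log L ≤ (1 - δ) * l + Real.log 2 := by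
      rw [Real.log_le_iff_le_exp hLpos, Real.exp_add, Real.exp_log (by norm_num)]
      linarith
    have hl0 : 0 ≤ l := by linarith
    have e3 : l / 2 ≤ Real.log m := by
      have := mul_le_mul_of_nonneg_right (show (1/2:ℝ) ≤ 1 - δ/2 by linarith) hl0
      linarith
    have hlm0 : 0 < Real.log m := by linarith
    rw [le_div_iff₀ (by positivity)]
    have e1 : (1 - δ) * l ≤ (1 - δ / 2) * Real.log m := by
      have h5 : (1 - δ / 2) * ((1 - δ / 2) * l) = (1 - δ) * l + δ ^ 2 / 4 * l := by ring
      have h6 : 0 ≤ δ ^ 2 / 4 * l := mul_nonneg (by positivity) hl0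
      have h7 := mul_le_mul_of_nonneg_left hlm (show 0 ≤ 1 - δ / 2 by linarith)
      linarith
    have e2 : ε = 4 * δ := by rw [hδ]; ring
    have e4 : δ * (l / 2) ≤ δ * Real.log m := mul_le_mul_of_nonneg_left e3 hδ0.le
    have e5 : 4 * δ / 32 * (2 * (1 + Real.log m)) = δ / 4 + (δ * Real.log m) / 4 := by ring
    rw [e2, e5]
    have e6 : (1 - δ / 2) * Real.log m = Real.log m - (δ * Real.log m) / 2 := by ring
    rw [e6] at e1
    linarith
  · have h1 : (2 : ℝ) ^ k * X ≤ n := by
      have h2 : (2 : ℝ) ^ (k + 1) = Real.exp ((k + 1) * Real.log 2) := by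
        rw [← Real.exp_log (show (0:ℝ) < 2 ^ (k + 1) by positivity), Real.log_pow]
        push_cast; rfl
      calc (2 : ℝ) ^ k * X ≤ 2 ^ k * (2 * eX) := mul_le_mul_of_nonneg_left hXle (by positivity)
        _ = 2 ^ (k + 1) * eX := by ring
        _ = Real.exp ((k + 1) * Real.log 2 + (1 - δ / 2) * l) := by rw [h2, heX, Real.exp_add]
        _ ≤ Real.exp l := Real.exp_le_exp.2 (by linarith)
        _ = n := hexpl
    exact_mod_cast h1

theorem tendsto_log_nat : Tendsto (fun n : ℕ => Real.log n) atTop atTop :=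
  Real.tendsto_log_atTop.comp tendsto_natCast_atTop_atTop

theorem G_small {ε : ℝ} (hε : 0 < ε) (hε1 : ε ≤ 1) :
    Tendsto (fun n : ℕ => G n ((2 - ε) * Real.log n)) atTop (𝓝 0) := by
  rw [Metric.tendsto_atTop]
  intro e he
  set ρ := 1 - (1 - (1 - th)) * (ε / 32) with hρ
  have hth : th ≤ 1 := by
    unfold th
    norm_num
  have h0 : 0 ≤ ρ := by
    rw [hρ]
    have := th_pos
    nlinarith
  have h1 : ρ < 1 := by
    rw [hρ]
    have := mul_pos th_pos hε
    nlinarith
  obtain ⟨k, hk⟩ := exists_pow_lt_of_lt_one he h1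
  obtain ⟨N, hN⟩ := eventually_atTop.1 (tendsto_log_nat.eventually_ge_atTop
    (16 * Real.log 2 / (ε / 4) + 2 + (k + 1) * Real.log 2 * 8 / ε))
  refine ⟨N, fun n hn => ?_⟩
  have := G_small_core hε hε1 k (hN n hn)
  rw [Real.dist_eq, sub_zero, abs_of_nonneg (G_nonneg _ _)]
  exact this.trans_lt hk

theorem U_small {ε : ℝ} (hε : 0 < ε) :
    Tendsto (fun n : ℕ => 1 - G n ((2 + ε) * Real.log n)) atTop (𝓝 0) := by
  have h1 : Tendsto (fun n : ℕ => Real.exp (-(ε * Real.log n))) atTop (𝓝 0) :=
    Real.tendsto_exp_neg_atTop_nhds_zero.comp (tendsto_log_nat.const_mul_atTop hε)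
  refine squeeze_zero' (Eventually.of_forall fun n => by linarith [G_le_one n ((2 + ε) * Real.log n)])
    ?_ h1
  filter_upwards [eventually_ge_atTop 1] with n hn
  have hn0 : (0 : ℝ) < n := by positivity
  have hl : 0 ≤ Real.log n := Real.log_natCast_nonneg n
  refine (upper n (by positivity)).trans ?_
  have h2 : A n ≤ Real.exp (2 * Real.log n) := by
    rw [two_mul, Real.exp_add, Real.exp_log hn0]
    unfold A; nlinarith
  calc A n * Real.exp (-((2 + ε) * Real.log n))
      ≤ Real.exp (2 * Real.log n) * Real.exp (-((2 + ε) * Real.log n)) :=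
        mul_le_mul_of_nonneg_right h2 (Real.exp_pos _).le
    _ = Real.exp (-(ε * Real.log n)) := by rw [← Real.exp_add]; congr 1; ring

/-- `D*_n / log n → 2` in probability -/
theorem main {ε : ℝ} (hε : 0 < ε) :
    Tendsto (fun n : ℕ => (heightLaw n).real {x | ε < |x / Real.log n - 2|}) atTop (𝓝 0) := by
  set e := min ε 1 with he
  have he0 : 0 < e := lt_min hε one_pos
  have h1 := (G_small he0 (min_le_right _ _)).add (U_small he0)
  rw [add_zero] at h1
  refine squeeze_zero' (Eventually.of_forall fun n => measureReal_nonneg) ?_ h1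
  filter_upwards [eventually_ge_atTop 2] with n hn
  have hn1 : (1 : ℝ) < n := by exact_mod_cast hn
  have hl : 0 < Real.log n := Real.log_pos hn1
  have hsub : {x : ℝ | ε < |x / Real.log n - 2|} ⊆
      Set.Iic ((2 - e) * Real.log n) ∪ (Set.Iic ((2 + e) * Real.log n))ᶜ := by
    intro x hx
    have hx' : ε < |x / Real.log n - 2| := hx
    have hex : e < |x / Real.log n - 2| := lt_of_le_of_lt (min_le_left _ _) hx'
    rcases lt_abs.1 hex with h | h
    · right
      intro h'
      have h'' : x ≤ (2 + e) * Real.log n := h'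
      have : x / Real.log n ≤ 2 + e := by rwa [div_le_iff₀ hl]
      linarith
    · left
      show x ≤ (2 - e) * Real.log n
      have : x / Real.log n ≤ 2 - e := by linarith
      rwa [div_le_iff₀ hl] at this
  refine (measureReal_mono hsub).trans ((measureReal_union_le _ _).trans ?_)
  have h2 : (heightLaw n).real (Set.Iic ((2 + e) * Real.log n))ᶜ = 1 - G n ((2 + e) * Real.log n) := by
    rw [probReal_compl_eq_one_sub measurableSet_Iic]; rfl
  rw [h2]
  exact le_of_eq rfl

end Pool.Agent.V11327.CT
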