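import Pool.Agent.V11327.CTdefs

set_option autoImplicit false

namespace Pool.Agent.V11327.CT

open Finset MeasureTheory ProbabilityTheory Pool.Agent.V11327.BS Filter Topology

theorem heightLaw_le_one {n : ℕ} (hn : n ≤ 1) : heightLaw n = Measure.dirac 0 := by
  rw [heightLaw, if_pos hn]

theorem heightLaw_rec {n : ℕ} (hn : 2 ≤ n) :
    heightLaw n = ∑ i ∈ Ico 1 n, ENNReal.ofReal (q n i) •
      ((expMeasure (h (n - 1))).prod ((heightLaw i).prod (heightLaw (n - i)))).map
        (fun p => p.1 + max p.2.1 p.2.2) := by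
  rw [heightLaw, if_neg (by omega)]
  exact Finset.sum_attach (Ico 1 n) (fun i => ENNReal.ofReal (q n i) •
      ((expMeasure (h (n - 1))).prod ((heightLaw i).prod (heightLaw (n - i)))).map
        (fun p : ℝ × ℝ × ℝ => p.1 + max p.2.1 p.2.2))

theorem measurable_comb : Measurable (fun p : ℝ × ℝ × ℝ => p.1 + max p.2.1 p.2.2) := by
  fun_prop

theorem sum_ofReal_q {n : ℕ} (hn : 2 ≤ n) : ∑ i ∈ Ico 1 n, ENNReal.ofReal (q n i) = 1 := by
  rw [← ENNReal.ofReal_sum_of_nonneg (fun i hi => q_nonneg (mem_Ico.1 hi).2.le), q_sum hn,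
    ENNReal.ofReal_one]

instance instProb (n : ℕ) : IsProbabilityMeasure (heightLaw n) := by
  induction n using Nat.strong_induction_on with
  | _ n ih =>
    rcases Nat.lt_or_ge n 2 with h2 | h2
    · rw [heightLaw_le_one (by omega)]; infer_instance
    · constructor
      rw [heightLaw_rec h2, Measure.finsetSum_apply]
      rw [← sum_ofReal_q h2]
      refine sum_congr rfl fun i hi => ?_
      have hi' := mem_Ico.1 hi
      have := ih i hi'.2
      have := ih (n - i) (by omega)
      have : IsProbabilityMeasure (expMeasure (h (n - 1))) :=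
        isProbabilityMeasure_expMeasure (h_pos (by omega))
      rw [Measure.smul_apply, Measure.map_apply measurable_comb MeasurableSet.univ, Set.preimage_univ,
        measure_univ, smul_eq_mul, mul_one]

/-- distribution function of the height -/
noncomputable def G (n : ℕ) (t : ℝ) : ℝ := (heightLaw n).real (Set.Iic t)

theorem G_nonneg (n : ℕ) (t : ℝ) : 0 ≤ G n t := measureReal_nonneg

theorem G_le_one (n : ℕ) (t : ℝ) : G n t ≤ 1 := measureReal_le_one

theorem G_mono (n : ℕ) : Monotone (G n) := fun _ _ hst =>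
  measureReal_mono (Set.Iic_subset_Iic.2 hst)

theorem G_one {n : ℕ} (hn : n ≤ 1) {t : ℝ} (ht : 0 ≤ t) : G n t = 1 := by
  unfold G
  rw [heightLaw_le_one hn, measureReal_def, Measure.dirac_apply' _ measurableSet_Iic]
  simp [ht]

theorem G_one_neg {n : ℕ} (hn : n ≤ 1) {t : ℝ} (ht : t < 0) : G n t = 0 := by
  unfold G
  rw [heightLaw_le_one hn, measureReal_def, Measure.dirac_apply' _ measurableSet_Iic]
  simp [ht]

/-- `F n s = ∑ q(n,i) G_i(s) G_{n-i}(s)` -/
noncomputable def F (n : ℕ) (s : ℝ) : ℝ := ∑ i ∈ Ico 1 n, q n i * (G i s * G (n - i) s)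

theorem F_mono (n : ℕ) : Monotone (F n) := by
  intro s t hst
  refine sum_le_sum fun i hi => ?_
  refine mul_le_mul_of_nonneg_left ?_ (q_nonneg (mem_Ico.1 hi).2.le)
  exact mul_le_mul (G_mono i hst) (G_mono _ hst) (G_nonneg _ _) (G_nonneg _ _)

theorem F_nonneg (n : ℕ) (s : ℝ) : 0 ≤ F n s := sum_nonneg fun i hi =>
  mul_nonneg (q_nonneg (mem_Ico.1 hi).2.le) (mul_nonneg (G_nonneg _ _) (G_nonneg _ _))

theorem F_le_one {n : ℕ} (hn : 2 ≤ n) (s : ℝ) : F n s ≤ 1 := by
  rw [← q_sum hn]
  refine sum_le_sum fun i hi => ?_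
  have h1 := q_nonneg (mem_Ico.1 hi).2.le
  have h2 : G i s * G (n - i) s ≤ 1 :=
    mul_le_one₀ (G_le_one _ _) (G_nonneg _ _) (G_le_one _ _)
  nlinarith

theorem G_rec_exp {n : ℕ} (hn : 2 ≤ n) (t : ℝ) :
    G n t = ∫ e, F n (t - e) ∂(expMeasure (h (n - 1))) := by
  have : IsProbabilityMeasure (expMeasure (h (n - 1))) :=
    isProbabilityMeasure_expMeasure (h_pos (by omega))
  have key : ∀ i ∈ Ico 1 n,
      ((expMeasure (h (n - 1))).prod ((heightLaw i).prod (heightLaw (n - i)))).real
        ((fun p : ℝ × ℝ × ℝ => p.1 + max p.2.1 p.2.2) ⁻¹' Set.Iic t)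
      = ∫ e, G i (t - e) * G (n - i) (t - e) ∂(expMeasure (h (n - 1))) := by
    intro i _
    have hm : MeasurableSet ((fun p : ℝ × ℝ × ℝ => p.1 + max p.2.1 p.2.2) ⁻¹' Set.Iic t) :=
      measurable_comb measurableSet_Iic
    rw [measureReal_def, Measure.prod_apply hm, integral_eq_lintegral_of_nonneg_ae]
    · congr 1
      refine lintegral_congr fun e => ?_
      have hset : Prod.mk e ⁻¹' ((fun p : ℝ × ℝ × ℝ => p.1 + max p.2.1 p.2.2) ⁻¹' Set.Iic t)
          = Set.Iic (t - e) ×ˢ Set.Iic (t - e) := by
        ext p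
        simp only [Set.mem_preimage, Set.mem_Iic, Set.mem_prod]
        constructor
        · intro hp
          constructor
          · have := le_max_left p.1 p.2; linarith
          · have := le_max_right p.1 p.2; linarith
        · rintro ⟨h1, h2⟩
          have := max_le h1 h2; linarith
      rw [hset, Measure.prod_prod]
      unfold G
      rw [ENNReal.ofReal_mul measureReal_nonneg, measureReal_def, measureReal_def,
        ENNReal.ofReal_toReal (measure_ne_top _ _), ENNReal.ofReal_toReal (measure_ne_top _ _)]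
    · exact Eventually.of_forall fun e => mul_nonneg (G_nonneg _ _) (G_nonneg _ _)
    · refine Measurable.aestronglyMeasurable ?_
      exact (((G_mono i).measurable).comp (measurable_const.sub measurable_id)).mul
        (((G_mono (n - i)).measurable).comp (measurable_const.sub measurable_id))
  have h1 : G n t = ∑ i ∈ Ico 1 n, q n i *
      ((expMeasure (h (n - 1))).prod ((heightLaw i).prod (heightLaw (n - i)))).real
        ((fun p : ℝ × ℝ × ℝ => p.1 + max p.2.1 p.2.2) ⁻¹' Set.Iic t) := by
    unfold G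
    rw [measureReal_def, heightLaw_rec hn, Measure.finsetSum_apply, ENNReal.toReal_sum]
    · refine sum_congr rfl fun i hi => ?_
      rw [Measure.smul_apply, Measure.map_apply measurable_comb measurableSet_Iic, smul_eq_mul,
        ENNReal.toReal_mul, ENNReal.toReal_ofReal (q_nonneg (mem_Ico.1 hi).2.le), measureReal_def]
    · intro i _
      rw [Measure.smul_apply, Measure.map_apply measurable_comb measurableSet_Iic, smul_eq_mul]
      exact ENNReal.mul_ne_top ENNReal.ofReal_ne_top (measure_ne_top _ _)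
  rw [h1]
  unfold F
  rw [integral_finsetSum]
  · refine sum_congr rfl fun i hi => ?_
    rw [key i hi, integral_const_mul]
  · intro i _
    refine Integrable.const_mul ?_ _
    refine Integrable.mono' (integrable_const (1 : ℝ)) ?_ ?_
    · refine Measurable.aestronglyMeasurable ?_
      exact (((G_mono i).measurable).comp (measurable_const.sub measurable_id)).mul
        (((G_mono (n - i)).measurable).comp (measurable_const.sub measurable_id))
    · refine Eventually.of_forall fun e => ?_
      rw [Real.norm_of_nonneg (mul_nonneg (G_nonneg _ _) (G_nonneg _ _))]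
      exact mul_le_one₀ (G_le_one _ _) (G_nonneg _ _) (G_le_one _ _)

theorem integral_exp {r : ℝ} (hr : 0 < r) (f : ℝ → ℝ) :
    ∫ e, f e ∂(expMeasure r) = ∫ e in Set.Ioi 0, r * Real.exp (-(r * e)) * f e := by
  have h1 : expMeasure r = (volume : Measure ℝ).withDensity (fun x => exponentialPDF r x) := rfl
  have h2 : ∀ x, exponentialPDF r x < ⊤ := fun x => ENNReal.ofReal_lt_top
  have hmeas : Measurable (fun x => exponentialPDF r x) := by
    unfold exponentialPDF
    exact (measurable_exponentialPDFReal r).ennreal_ofReal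
  rw [h1, integral_withDensity_eq_integral_toReal_smul hmeas (Eventually.of_forall h2)]
  rw [← integral_indicator measurableSet_Ioi]
  have h0 : ∀ᵐ x : ℝ, x ≠ 0 := by
    rw [ae_iff]; simp
  refine integral_congr_ae ?_
  filter_upwards [h0] with x hx
  rw [exponentialPDF_eq]
  by_cases hx0 : 0 ≤ x
  · have hx1 : x ∈ Set.Ioi (0:ℝ) := lt_of_le_of_ne hx0 (Ne.symm hx)
    rw [if_pos hx0, Set.indicator_of_mem hx1, ENNReal.toReal_ofReal (by positivity), smul_eq_mul]
  · have hx1 : x ∉ Set.Ioi (0:ℝ) := fun h' => hx0 (le_of_lt h')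
    rw [if_neg hx0, Set.indicator_of_notMem hx1]
    simp

theorem G_neg (n : ℕ) {t : ℝ} (ht : t < 0) : G n t = 0 := by
  induction n using Nat.strong_induction_on generalizing t with
  | _ n ih =>
    rcases Nat.lt_or_ge n 2 with h2 | h2
    · exact G_one_neg (by omega) ht
    · rw [G_rec_exp h2, integral_exp (h_pos (by omega))]
      rw [setIntegral_congr_fun (g := fun _ => 0) measurableSet_Ioi]
      · simp
      · intro e he
        have he' : (0:ℝ) < e := he
        have : F n (t - e) = 0 := by
          unfold F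
          refine sum_eq_zero fun i hi => ?_
          rw [ih i (mem_Ico.1 hi).2 (by linarith)]
          ring
        simp only [this, mul_zero]

theorem F_neg (n : ℕ) {t : ℝ} (ht : t < 0) : F n t = 0 := by
  unfold F
  refine sum_eq_zero fun i _ => ?_
  rw [G_neg i ht]; ring

theorem intervalIntegrable_F (n : ℕ) (r t a b : ℝ) :
    IntervalIntegrable (fun x => r * Real.exp (-(r * x)) * F n (t - x)) volume a b := by
  have h1 : IntervalIntegrable (fun x => F n (t - x)) volume a b := by
    apply Antitone.intervalIntegrable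
    intro x y hxy
    exact F_mono n (by linarith)
  refine h1.continuousOn_mul ?_
  exact Continuous.continuousOn (by fun_prop)

theorem G_rec {n : ℕ} (hn : 2 ≤ n) {t : ℝ} (ht : 0 ≤ t) :
    G n t = ∫ x in (0:ℝ)..t, h (n - 1) * Real.exp (-(h (n - 1) * x)) * F n (t - x) := by
  rw [G_rec_exp hn, integral_exp (h_pos (by omega)), intervalIntegral.integral_of_le ht]
  have h1 : Set.Ioi (0:ℝ) = Set.Ioc 0 t ∪ Set.Ioi t := (Set.Ioc_union_Ioi_eq_Ioi ht).symm
  have h2 : ∀ x ∈ Set.Ioi t, h (n - 1) * Real.exp (-(h (n - 1) * x)) * F n (t - x) = 0 := by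
    intro x hx
    have hx' : t < x := hx
    rw [F_neg n (by linarith), mul_zero]
  rw [h1]
  rw [setIntegral_union (Set.Ioc_disjoint_Ioi le_rfl) measurableSet_Ioi]
  · rw [setIntegral_eq_zero_of_forall_eq_zero h2, add_zero]
  · exact ((intervalIntegrable_iff_integrableOn_Ioc_of_le ht).1
      (intervalIntegrable_F n (h (n-1)) t 0 t))
  · exact (integrableOn_zero).congr_fun (fun x hx => (h2 x hx).symm) measurableSet_Ioi

/-- sub-solutions -/
theorem le_of_sub {n : ℕ} (hn : 2 ≤ n) {t : ℝ} (ht : 0 ≤ t) (w w' : ℝ → ℝ)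
    (hw : ∀ s, HasDerivAt w (w' s) s) (hc : Continuous w')
    (hsub : ∀ s, 0 ≤ s → w' s + h (n - 1) * w s ≤ h (n - 1) * (1 - F n s))
    (h0 : w 0 ≤ 1) : w t ≤ 1 - G n t := by
  set r := h (n - 1) with hr
  have hwc : Continuous w := continuous_iff_continuousAt.2 fun s => (hw s).continuousAt
  have hd : ∀ x ∈ Set.uIcc 0 t, HasDerivAt (fun x => -Real.exp (-(r * x)) * (1 - w (t - x)))
      (r * Real.exp (-(r * x)) - Real.exp (-(r * x)) * (w' (t - x) + r * w (t - x))) x := by
    intro x _
    have h1 : HasDerivAt (fun x => Real.exp (-(r * x))) (Real.exp (-(r * x)) * (-(r * 1))) x :=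
      (((hasDerivAt_id x).const_mul r).neg).exp
    have h2 : HasDerivAt (fun x => w (t - x)) (-w' (t - x)) x := by
      have := (hw (t - x)).comp x ((hasDerivAt_id x).const_sub t)
      refine this.congr_deriv ?_
      ring
    have h3 := h1.neg.mul (h2.const_sub 1)
    refine h3.congr_deriv ?_
    simp only [Pi.neg_apply]
    ring
  have hFTC := intervalIntegral.integral_eq_sub_of_hasDerivAt hd
    (Continuous.intervalIntegrable (by fun_prop) _ _)
  have hle : G n t ≤ ∫ x in (0:ℝ)..t,
      (r * Real.exp (-(r * x)) - Real.exp (-(r * x)) * (w' (t - x) + r * w (t - x))) := by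
    rw [G_rec hn ht]
    refine intervalIntegral.integral_mono_on ht (intervalIntegrable_F n r t 0 t)
      (Continuous.intervalIntegrable (by fun_prop) _ _) fun x hx => ?_
    have h1 := hsub (t - x) (by linarith [hx.2])
    have h2 := Real.exp_pos (-(r * x))
    nlinarith
  rw [hFTC] at hle
  simp only [sub_self, mul_zero, neg_zero, Real.exp_zero, sub_zero] at hle
  have h2 := Real.exp_pos (-(r * t))
  nlinarith

/-- super-solutions -/
theorem le_of_super {n : ℕ} (hn : 2 ≤ n) {t : ℝ} (ht : 0 ≤ t) (w w' : ℝ → ℝ)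
    (hw : ∀ s, HasDerivAt w (w' s) s) (hc : Continuous w')
    (hsub : ∀ s, 0 ≤ s → h (n - 1) * (1 - F n s) ≤ w' s + h (n - 1) * w s)
    (h0 : 1 ≤ w 0) : 1 - G n t ≤ w t := by
  set r := h (n - 1) with hr
  have hwc : Continuous w := continuous_iff_continuousAt.2 fun s => (hw s).continuousAt
  have hd : ∀ x ∈ Set.uIcc 0 t, HasDerivAt (fun x => -Real.exp (-(r * x)) * (1 - w (t - x)))
      (r * Real.exp (-(r * x)) - Real.exp (-(r * x)) * (w' (t - x) + r * w (t - x))) x := by
    intro x _
    have h1 : HasDerivAt (fun x => Real.exp (-(r * x))) (Real.exp (-(r * x)) * (-(r * 1))) x :=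
      (((hasDerivAt_id x).const_mul r).neg).exp
    have h2 : HasDerivAt (fun x => w (t - x)) (-w' (t - x)) x := by
      have := (hw (t - x)).comp x ((hasDerivAt_id x).const_sub t)
      refine this.congr_deriv ?_
      ring
    have h3 := h1.neg.mul (h2.const_sub 1)
    refine h3.congr_deriv ?_
    simp only [Pi.neg_apply]
    ring
  have hFTC := intervalIntegral.integral_eq_sub_of_hasDerivAt hd
    (Continuous.intervalIntegrable (by fun_prop) _ _)
  have hle : ∫ x in (0:ℝ)..t,
      (r * Real.exp (-(r * x)) - Real.exp (-(r * x)) * (w' (t - x) + r * w (t - x))) ≤ G n t := by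
    rw [G_rec hn ht]
    refine intervalIntegral.integral_mono_on ht (Continuous.intervalIntegrable (by fun_prop) _ _)
      (intervalIntegrable_F n r t 0 t) fun x hx => ?_
    have h1 := hsub (t - x) (by linarith [hx.2])
    have h2 := Real.exp_pos (-(r * x))
    nlinarith
  rw [hFTC] at hle
  simp only [sub_self, mul_zero, neg_zero, Real.exp_zero, sub_zero] at hle
  have h2 := Real.exp_pos (-(r * t))
  nlinarith

end Pool.Agent.V11327.CT
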