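import Pool.Agent.V11327.CTrec

set_option autoImplicit false

namespace Pool.Agent.V11327.CT

open Finset MeasureTheory ProbabilityTheory Pool.Agent.V11327.BS Filter Topology

/-- `c m = ∏_{j=1}^m (1 + (21/20)/j)` -/
noncomputable def c (m : ℕ) : ℝ := ∏ j ∈ range m, (1 + (21/20) / ((j : ℝ) + 1))

noncomputable def sg (m : ℕ) : ℝ := ∑ j ∈ range m, 1 / ((41/20 : ℝ) + j)

theorem c_zero : c 0 = 1 := by simp [c]
theorem c_succ (m : ℕ) : c (m + 1) = c m * (1 + (21/20) / ((m : ℝ) + 1)) := by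
  unfold c; rw [prod_range_succ]
theorem c_pos (m : ℕ) : 0 < c m := prod_pos fun j _ => by positivity
theorem c_succ' (m : ℕ) : ((m : ℝ) + 1) * c (m + 1) = ((41/20 : ℝ) + m) * c m := by
  rw [c_succ]
  have : (m : ℝ) + 1 ≠ 0 := by positivity
  field_simp
  ring

noncomputable def S (m : ℕ) : ℝ := ∑ k ∈ range m, c k / ((m : ℝ) - k)

theorem S_succ (m : ℕ) : ((m : ℝ) + 1) * S (m + 1) = ((41/20 : ℝ) + m) * S m + c m := by
  have h1 : ((m : ℝ) + 1) * S (m + 1)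
      = ∑ k ∈ range (m + 1), c k + ∑ k ∈ range (m + 1), (k : ℝ) * c k / ((m : ℝ) + 1 - k) := by
    unfold S
    rw [mul_sum, ← sum_add_distrib]
    refine sum_congr rfl fun k hk => ?_
    have hk' : (k : ℝ) < (m : ℝ) + 1 := by exact_mod_cast mem_range.1 hk
    have h2 : (m : ℝ) + 1 - k ≠ 0 := by linarith
    push_cast
    field_simp
    ring
  have h2 : ∑ k ∈ range (m + 1), (k : ℝ) * c k / ((m : ℝ) + 1 - k)
      = ∑ k ∈ range m, (((41/20 : ℝ) + m) * (c k / ((m : ℝ) - k)) - c k) := by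
    rw [sum_range_succ']
    simp only [Nat.cast_zero, zero_mul, zero_div, add_zero]
    refine sum_congr rfl fun k hk => ?_
    have hk' : (k : ℝ) < (m : ℝ) := by exact_mod_cast mem_range.1 hk
    have h2 : (m : ℝ) - k ≠ 0 := by linarith
    have h3 := c_succ' k
    push_cast
    rw [show (m : ℝ) + 1 - (k + 1) = (m : ℝ) - k by ring, h3]
    field_simp
    ring
  rw [h1, h2, sum_sub_distrib, ← mul_sum, sum_range_succ]
  unfold S
  ring

theorem S_eq (m : ℕ) : S m = c m * sg m := by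
  induction m with
  | zero => simp [S, sg]
  | succ m ih =>
    have h0 : (m : ℝ) + 1 ≠ 0 := by positivity
    have h1 : (41/20 : ℝ) + m ≠ 0 := by positivity
    apply mul_left_cancel₀ h0
    have h2 : ((m : ℝ) + 1) * (c (m + 1) * sg (m + 1)) = ((41/20 : ℝ) + m) * c m * sg (m + 1) := by
      rw [← mul_assoc, c_succ']
    rw [S_succ, ih, h2]
    unfold sg
    rw [sum_range_succ]
    field_simp
    try ring

/-- `A n = n (n-1)` -/
noncomputable def A (n : ℕ) : ℝ := (n : ℝ) * ((n : ℝ) - 1)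

noncomputable def B (n : ℕ) : ℝ := if n ≤ 2 then 0 else (n : ℝ) * c (n - 2)

theorem A_nonneg (n : ℕ) : 0 ≤ A n := by
  unfold A
  rcases Nat.eq_zero_or_pos n with h0 | h0
  · subst h0; simp
  · have : (1 : ℝ) ≤ n := by exact_mod_cast h0
    exact mul_nonneg (by positivity) (by linarith)

theorem B_nonneg (n : ℕ) : 0 ≤ B n := by
  unfold B
  split_ifs
  · exact le_rfl
  · exact mul_nonneg (by positivity) (c_pos _).le

theorem hq {n i : ℕ} (hi : 1 ≤ i) (hn : i < n) :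
    h (n - 1) * q n i = (n : ℝ) / (2 * i * ((n : ℝ) - i)) := by
  unfold q
  have h3 : h (n - 1) ≠ 0 := (h_pos (by omega)).ne'
  have h1 : (i : ℝ) ≠ 0 := by positivity
  have h2 : (n : ℝ) - i ≠ 0 := by
    have : (i : ℝ) < n := by exact_mod_cast hn
    linarith
  field_simp

theorem sum_hq (n : ℕ) (f : ℕ → ℝ) :
    ∑ i ∈ Ico 1 n, h (n - 1) * q n i * (f i + f (n - i))
      = ∑ i ∈ Ico 1 n, (n : ℝ) / (i * ((n : ℝ) - i)) * f i := by
  have h1 : ∑ i ∈ Ico 1 n, h (n - 1) * q n i * f (n - i)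
      = ∑ i ∈ Ico 1 n, h (n - 1) * q n i * f i := by
    rw [← sum_reflect n (fun i => h (n - 1) * q n i * f i)]
    refine sum_congr rfl fun i hi => ?_
    rw [q_symm (mem_Ico.1 hi).2.le]
  simp only [mul_add]
  rw [sum_add_distrib, h1, ← sum_add_distrib]
  refine sum_congr rfl fun i hi => ?_
  have hi' := mem_Ico.1 hi
  rw [hq hi'.1 hi'.2]
  have h1 : (i : ℝ) ≠ 0 := by
    have : 1 ≤ i := hi'.1
    positivity
  have h2 : (n : ℝ) - i ≠ 0 := by
    have : (i : ℝ) < n := by exact_mod_cast hi'.2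
    linarith
  field_simp
  ring

theorem sum_A {n : ℕ} (hn : 2 ≤ n) :
    ∑ i ∈ Ico 1 n, h (n - 1) * q n i * (A i + A (n - i)) = (h (n - 1) - 1) * A n := by
  rw [sum_hq]
  have h1 : ∀ i ∈ Ico 1 n, (n : ℝ) / (i * ((n : ℝ) - i)) * A i
      = n * ((n : ℝ) - 1) * (1 / ((n : ℝ) - i)) - n := by
    intro i hi
    have hi' := mem_Ico.1 hi
    unfold A
    have h1 : (i : ℝ) ≠ 0 := by
      have : 1 ≤ i := hi'.1
      positivity
    have h2 : (n : ℝ) - i ≠ 0 := by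
      have : (i : ℝ) < n := by exact_mod_cast hi'.2
      linarith
    field_simp
    ring
  rw [sum_congr rfl h1, sum_sub_distrib, ← mul_sum, sum_inv', sum_const, Nat.card_Ico, nsmul_eq_mul,
    Nat.cast_sub (by omega)]
  unfold A
  push_cast
  ring

theorem sum_B {n : ℕ} (hn : 3 ≤ n) :
    ∑ i ∈ Ico 1 n, h (n - 1) * q n i * (B i + B (n - i))
      = n * c (n - 2) * sg (n - 2) - n / ((n : ℝ) - 2) := by
  rw [sum_hq]
  obtain ⟨k, rfl⟩ : ∃ k, n = k + 3 := ⟨n - 3, by omega⟩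
  have h1 : ∑ i ∈ Ico 1 (k + 3), ((k + 3 : ℕ) : ℝ) / (i * (((k + 3 : ℕ) : ℝ) - i)) * B i
      = ((k + 3 : ℕ) : ℝ) * ∑ j ∈ range k, c (j + 1) / (((k + 1 : ℕ) : ℝ) - ((j + 1 : ℕ) : ℝ)) := by
    rw [sum_Ico_eq_sum_range, show k + 3 - 1 = k + 2 by omega, sum_range_succ', sum_range_succ',
      mul_sum]
    have e1 : B (1 + 0) = 0 := by simp [B]
    have e2 : B (1 + (0 + 1)) = 0 := by simp [B]
    rw [e1, e2]
    simp only [mul_zero, add_zero]
    refine sum_congr rfl fun j hj => ?_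
    have hj' : (j : ℝ) < k := by exact_mod_cast mem_range.1 hj
    have e3 : B (1 + (j + 1 + 1)) = ((j : ℝ) + 3) * c (j + 1) := by
      unfold B
      rw [if_neg (by omega), show 1 + (j + 1 + 1) - 2 = j + 1 by omega]
      push_cast; ring
    rw [e3]
    have h3 : (j : ℝ) + 3 ≠ 0 := by positivity
    have h4 : (k : ℝ) - j ≠ 0 := by linarith
    push_cast
    rw [show (k : ℝ) + 3 - (1 + ((j : ℝ) + 1 + 1)) = (k : ℝ) - j by ring,
      show (1 : ℝ) + ((j : ℝ) + 1 + 1) = (j : ℝ) + 3 by ring,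
      show (k : ℝ) + 1 - ((j : ℝ) + 1) = (k : ℝ) - j by ring]
    field_simp
  have h2 : S (k + 1) = (∑ j ∈ range k, c (j + 1) / (((k + 1 : ℕ) : ℝ) - ((j + 1 : ℕ) : ℝ)))
      + 1 / ((k : ℝ) + 1) := by
    unfold S
    rw [sum_range_succ', c_zero]
    push_cast
    rw [sub_zero]
  have h3 := S_eq (k + 1)
  rw [h2] at h3
  rw [h1, show k + 3 - 2 = k + 1 by omega]
  have h4 : ∑ j ∈ range k, c (j + 1) / (((k + 1 : ℕ) : ℝ) - ((j + 1 : ℕ) : ℝ))
      = c (k + 1) * sg (k + 1) - 1 / ((k : ℝ) + 1) := by linarith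
  rw [h4]
  push_cast
  rw [show (k : ℝ) + 3 - 2 = (k : ℝ) + 1 by ring]
  ring

theorem D_mono : Monotone (fun k => h (k + 1) - sg k) := by
  refine monotone_nat_of_le_succ fun k => ?_
  show h (k + 1) - sg k ≤ h (k + 1 + 1) - sg (k + 1)
  have h1 : sg (k + 1) = sg k + 1 / ((41/20 : ℝ) + k) := by
    unfold sg; rw [sum_range_succ]
  rw [h1, h_succ (k + 1)]
  have h2 : 1 / ((41/20 : ℝ) + k) ≤ 1 / (((k + 1 : ℕ) : ℝ) + 1) := by
    apply one_div_le_one_div_of_le (by positivity)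
    push_cast; linarith
  linarith

theorem margin_core {k : ℕ} (hk : 1 ≤ k) :
    (41/40 + 1/10000 : ℝ) ≤ h (k + 1) - sg k + 1 / (k * c k) := by
  rcases Nat.lt_or_ge k 6 with h6 | h6
  · interval_cases k
    all_goals (simp only [h, sg, c, sum_range_succ, prod_range_succ, sum_range_zero, prod_range_zero]; norm_num)
  · have h1 := D_mono h6
    simp only at h1
    have h2 : (41/40 + 1/10000 : ℝ) ≤ h (6 + 1) - sg 6 := by
      simp only [h, sg, sum_range_succ, sum_range_zero]; norm_num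
    have h3 : 0 ≤ 1 / ((k : ℝ) * c k) := by
      have := c_pos k
      positivity
    linarith

/-- the linear inequality with a margin -/
theorem margin {n : ℕ} (hn : 3 ≤ n) :
    (41/40 + 1/10000) * B n ≤ h (n - 1) * B n
      - ∑ i ∈ Ico 1 n, h (n - 1) * q n i * (B i + B (n - i)) := by
  rw [sum_B hn]
  have h1 := margin_core (k := n - 2) (by omega)
  rw [show n - 2 + 1 = n - 1 by omega, Nat.cast_sub (by omega)] at h1
  unfold B
  rw [if_neg (by omega)]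
  have hc := c_pos (n - 2)
  have hn' : (3 : ℝ) ≤ n := by exact_mod_cast hn
  have h2 := mul_le_mul_of_nonneg_left h1 (show 0 ≤ (n : ℝ) * c (n - 2) by positivity)
  have h3 : (n : ℝ) * c (n - 2) * (1 / (((n : ℝ) - (2 : ℕ)) * c (n - 2))) = n / ((n : ℝ) - 2) := by
    have : (n : ℝ) - 2 ≠ 0 := by linarith
    push_cast
    field_simp
  have h4 : (n : ℝ) * c (n - 2) * (h (n - 1) - sg (n - 2) + 1 / (((n : ℝ) - (2 : ℕ)) * c (n - 2)))
      = (n : ℝ) * c (n - 2) * (h (n - 1) - sg (n - 2))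
        + (n : ℝ) * c (n - 2) * (1 / (((n : ℝ) - (2 : ℕ)) * c (n - 2))) := by ring
  rw [h4, h3] at h2
  linarith

/-! ### growth of `c` -/

theorem c_ge (m : ℕ) : ((m : ℝ) + 1) * (((m : ℝ) + 2) / 2) ^ (1/20 : ℝ) ≤ c m := by
  induction m with
  | zero => simp [c_zero]
  | succ m ih =>
    have hm : (0 : ℝ) < (m : ℝ) + 1 := by positivity
    have h1 : c (m + 1) = c m * ((m : ℝ) + 2) * (1 + (1/20) * (1 / ((m : ℝ) + 2))) / ((m : ℝ) + 1) := by
      rw [c_succ]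
      field_simp
      ring
    have h2 : (1 + 1 / ((m : ℝ) + 2)) ^ (1/20 : ℝ) ≤ 1 + (1/20) * (1 / ((m : ℝ) + 2)) :=
      rpow_one_add_le_one_add_mul_self (by
        have : (0:ℝ) ≤ 1 / ((m : ℝ) + 2) := by positivity
        linarith) (by norm_num) (by norm_num)
    have h3 : ((((m + 1 : ℕ) : ℝ) + 2) / 2) ^ (1/20 : ℝ)
        = (((m : ℝ) + 2) / 2) ^ (1/20 : ℝ) * (1 + 1 / ((m : ℝ) + 2)) ^ (1/20 : ℝ) := by
      rw [← Real.mul_rpow (by positivity) (by positivity)]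
      congr 1
      push_cast
      field_simp
      ring
    rw [h1, h3, le_div_iff₀ hm]
    push_cast
    calc ((m : ℝ) + 1 + 1) * ((((m : ℝ) + 2) / 2) ^ (1/20 : ℝ) * (1 + 1 / ((m : ℝ) + 2)) ^ (1/20 : ℝ))
          * ((m : ℝ) + 1)
        = (((m : ℝ) + 1) * (((m : ℝ) + 2) / 2) ^ (1/20 : ℝ)) * ((m : ℝ) + 2)
            * (1 + 1 / ((m : ℝ) + 2)) ^ (1/20 : ℝ) := by ring
      _ ≤ c m * ((m : ℝ) + 2) * (1 + (1/20) * (1 / ((m : ℝ) + 2))) := by
          refine mul_le_mul (mul_le_mul_of_nonneg_right ih (by positivity)) h2 (by positivity) ?_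
          have := c_pos m
          positivity

theorem c_le (m : ℕ) : c m ≤ ((m : ℝ) + 1) ^ (21/20 : ℝ) := by
  induction m with
  | zero => simp [c_zero]
  | succ m ih =>
    have h2 : 1 + (21/20) * (1 / ((m : ℝ) + 1)) ≤ (1 + 1 / ((m : ℝ) + 1)) ^ (21/20 : ℝ) :=
      one_add_mul_self_le_rpow_one_add (by
        have : (0:ℝ) ≤ 1 / ((m : ℝ) + 1) := by positivity
        linarith) (by norm_num)
    have h3 : (((m + 1 : ℕ) : ℝ) + 1) ^ (21/20 : ℝ)
        = ((m : ℝ) + 1) ^ (21/20 : ℝ) * (1 + 1 / ((m : ℝ) + 1)) ^ (21/20 : ℝ) := by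
      rw [← Real.mul_rpow (by positivity) (by positivity)]
      congr 1
      push_cast
      field_simp
      
    rw [c_succ, h3]
    refine mul_le_mul ih ?_ (by positivity) (by positivity)
    rw [div_eq_mul_one_div]
    exact h2

theorem B_le {n : ℕ} : B n ≤ (n : ℝ) ^ (41/20 : ℝ) := by
  unfold B
  split_ifs with hn
  · positivity
  · have h1 := c_le (n - 2)
    have hn' : (3 : ℝ) ≤ n := by
      have : 3 ≤ n := by omega
      exact_mod_cast this
    rw [Nat.cast_sub (by omega)] at h1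
    have h2 : ((n : ℝ) - (2 : ℕ) + 1) ^ (21/20 : ℝ) ≤ (n : ℝ) ^ (21/20 : ℝ) := by
      refine Real.rpow_le_rpow ?_ ?_ (by norm_num)
      · push_cast; linarith
      · push_cast; linarith
    have h3 : (n : ℝ) ^ (41/20 : ℝ) = n * (n : ℝ) ^ (21/20 : ℝ) := by
      rw [show (41/20 : ℝ) = 1 + 21/20 by norm_num, Real.rpow_add (by linarith), Real.rpow_one]
    rw [h3]
    exact mul_le_mul_of_nonneg_left (h1.trans h2) (by linarith)

/-- `A^β ≤ 2 B` -/
theorem A_rpow_le {n : ℕ} (hn : 3 ≤ n) : A n ^ (41/40 : ℝ) ≤ 2 * B n := by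
  have hn' : (3 : ℝ) ≤ n := by exact_mod_cast hn
  have h1 := c_ge (n - 2)
  rw [Nat.cast_sub (by omega)] at h1
  push_cast at h1
  rw [show (n : ℝ) - 2 + 1 = n - 1 by ring, show (n : ℝ) - 2 + 2 = n by ring] at h1
  unfold B
  rw [if_neg (by omega)]
  have hA : 0 < A n := by unfold A; exact mul_pos (by linarith) (by linarith)
  have h2 : A n ^ (41/40 : ℝ) = A n * A n ^ (1/40 : ℝ) := by
    rw [show (41/40 : ℝ) = 1 + 1/40 by norm_num, Real.rpow_add hA, Real.rpow_one]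
  have h3 : A n ^ (1/40 : ℝ) ≤ (n : ℝ) ^ (1/20 : ℝ) := by
    have : A n ≤ (n : ℝ) ^ (2 : ℝ) := by
      rw [Real.rpow_two]; unfold A; nlinarith
    calc A n ^ (1/40 : ℝ) ≤ ((n : ℝ) ^ (2 : ℝ)) ^ (1/40 : ℝ) :=
          Real.rpow_le_rpow hA.le this (by norm_num)
      _ = (n : ℝ) ^ (1/20 : ℝ) := by
          rw [← Real.rpow_mul (by linarith)]; norm_num
  have h4 : (n : ℝ) ^ (1/20 : ℝ) ≤ 2 * ((n : ℝ) / 2) ^ (1/20 : ℝ) := by
    have e : (n : ℝ) = 2 * (n / 2) := by ring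
    have h5 : (2 : ℝ) ^ (1/20 : ℝ) ≤ 2 ^ (1 : ℝ) :=
      Real.rpow_le_rpow_of_exponent_le (by norm_num) (by norm_num)
    rw [Real.rpow_one] at h5
    calc (n : ℝ) ^ (1/20 : ℝ) = (2 * (n / 2)) ^ (1/20 : ℝ) := by rw [← e]
      _ = 2 ^ (1/20 : ℝ) * ((n : ℝ) / 2) ^ (1/20 : ℝ) := Real.mul_rpow (by norm_num) (by positivity)
      _ ≤ 2 * ((n : ℝ) / 2) ^ (1/20 : ℝ) := mul_le_mul_of_nonneg_right h5 (by positivity)
  rw [h2]
  calc A n * A n ^ (1/40 : ℝ) ≤ A n * (2 * ((n : ℝ) / 2) ^ (1/20 : ℝ)) :=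
        mul_le_mul_of_nonneg_left (h3.trans h4) hA.le
    _ = 2 * (n * (((n : ℝ) - 1) * ((n : ℝ) / 2) ^ (1/20 : ℝ))) := by unfold A; ring
    _ ≤ 2 * (n * c (n - 2)) := by
        refine mul_le_mul_of_nonneg_left (mul_le_mul_of_nonneg_left h1 (by linarith)) (by norm_num)

end Pool.Agent.V11327.CT
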