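import Mathlib

/-! Combinatorial part of the lower bound for disagreement bounds. -/

set_option autoImplicit false

namespace Pool.Agent.V11327.DB

open Finset

theorem abel (d h : ℕ → ℝ) (n : ℕ) (hh : ∀ i, 0 ≤ h i) (hanti : ∀ i, i + 1 < n → h (i + 1) ≤ h i)
    (hD : ∀ j, j ≤ n → 0 ≤ ∑ i ∈ range j, d i) : 0 ≤ ∑ i ∈ range n, d i * h i := by
  have key : ∀ j, j + 1 ≤ n → h j * ∑ i ∈ range (j + 1), d i ≤ ∑ i ∈ range (j + 1), d i * h i := by
    intro j
    induction j with
    | zero => intro _; simp [mul_comm]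
    | succ j ih =>
      intro hj
      have h1 := ih (by omega)
      have h2 := hanti j (by omega)
      have h3 := hD (j + 1) (by omega)
      rw [sum_range_succ (fun i => d i * h i), sum_range_succ d]
      nlinarith
  rcases Nat.eq_zero_or_pos n with h0 | h0
  · subst h0; simp
  · obtain ⟨m, rfl⟩ := Nat.exists_eq_succ_of_ne_zero h0.ne'
    have h1 := key m le_rfl
    have h2 := hD (m + 1) le_rfl
    have := mul_nonneg (hh m) h2
    exact this.trans h1

theorem sorted (n : ℕ) (c : Fin n → ℝ) (hc : ∀ i, 0 ≤ c i) (g : ℕ → ℝ) (hg : ∀ i, 0 ≤ g i)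
    (hga : ∀ i, i + 1 < n → g (i + 1) ≤ g i)
    (hB : ∀ B : Finset (Fin n), ∑ y ∈ B, c y ≤ ∑ i ∈ range B.card, g i) :
    ∑ y, c y ^ 2 ≤ ∑ i ∈ range n, g i ^ 2 := by
  set σ := Tuple.sort (fun i => - c i) with hσ
  have hmono : Monotone ((fun i => - c i) ∘ σ) := Tuple.monotone_sort _
  set c' : ℕ → ℝ := fun i => if h : i < n then c (σ ⟨i, h⟩) else 0 with hc'
  have hc'0 : ∀ i, 0 ≤ c' i := by
    intro i; simp only [hc']; split_ifs with h
    · exact hc _
    · exact le_rfl
  have hc'a : ∀ i, i + 1 < n → c' (i + 1) ≤ c' i := by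
    intro i hi
    have hi' : i < n := by omega
    simp only [hc', hi, hi', dif_pos]
    have := hmono (show (⟨i, hi'⟩ : Fin n) ≤ ⟨i + 1, hi⟩ from Fin.mk_le_mk.2 (by omega))
    simp only [Function.comp] at this
    linarith
  have hpart : ∀ j, j ≤ n → ∑ i ∈ range j, c' i ≤ ∑ i ∈ range j, g i := by
    intro j hj
    set B : Finset (Fin n) := (univ : Finset (Fin j)).map
      ((Fin.castLEEmb hj).trans σ.toEmbedding) with hBdef
    have hcard : B.card = j := by simp [hBdef]
    have h1 := hB B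
    rw [hcard] at h1
    refine le_trans (le_of_eq ?_) h1
    rw [hBdef, sum_map, Finset.sum_range]
    refine sum_congr rfl fun i _ => ?_
    have : (i : ℕ) < n := lt_of_lt_of_le i.2 hj
    simp only [hc', this, dif_pos]
    rfl
  have hsum : ∑ y, c y ^ 2 = ∑ i ∈ range n, c' i ^ 2 := by
    rw [Finset.sum_range, ← Equiv.sum_comp σ]
    refine sum_congr rfl fun i _ => ?_
    simp [hc']
  rw [hsum, ← sub_nonneg, ← sum_sub_distrib]
  have := abel (fun i => g i - c' i) (fun i => g i + c' i) n (fun i => add_nonneg (hg i) (hc'0 i))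
    (fun i hi => add_le_add (hga i hi) (hc'a i hi)) (fun j hj => by
      rw [sum_sub_distrib]; linarith [hpart j hj])
  refine le_trans this (le_of_eq ?_)
  refine sum_congr rfl fun i _ => ?_
  ring

/-- hockey stick -/
theorem hockey (n k : ℕ) (hk : 1 ≤ k) (j : ℕ) (hj : j ≤ n) :
    ∑ i ∈ range j, (n - 1 - i).choose (k - 1) + (n - j).choose k = n.choose k := by
  induction j with
  | zero => simp
  | succ j ih =>
    rw [← ih (by omega), sum_range_succ]
    obtain ⟨m, hm⟩ : ∃ m, n - j = m + 1 := ⟨n - j - 1, by omega⟩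
    obtain ⟨l, hl⟩ : ∃ l, k = l + 1 := ⟨k - 1, by omega⟩
    have h1 : n - 1 - j = m := by omega
    have h2 : n - (j + 1) = m := by omega
    rw [h1, h2, hm, hl, Nat.choose_succ_succ' m l]
    simp only [Nat.add_sub_cancel]
    omega

/-- number of `k`-sets meeting `B` -/
theorem card_meet (n k : ℕ) (B : Finset (Fin n)) :
    ((powersetCard k (univ : Finset (Fin n))).filter (fun S => ¬ Disjoint S B)).card
      + (n - B.card).choose k = n.choose k := by
  have h1 : ((powersetCard k (univ : Finset (Fin n))).filter (fun S => Disjoint S B))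
      = powersetCard k Bᶜ := by
    ext S
    simp only [mem_filter, mem_powersetCard, subset_univ, true_and]
    constructor
    · rintro ⟨h1, h2⟩
      exact ⟨fun x hx => mem_compl.2 fun hxB => (disjoint_left.1 h2 hx hxB), h1⟩
    · rintro ⟨h1, h2⟩
      exact ⟨h2, disjoint_left.2 fun x hx hxB => mem_compl.1 (h1 hx) hxB⟩
  have h2 : ((powersetCard k (univ : Finset (Fin n))).filter (fun S => Disjoint S B)).card
      = (n - B.card).choose k := by
    rw [h1, card_powersetCard, card_compl, Fintype.card_fin]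
  rw [← h2, add_comm, card_filter_add_card_filter_not, card_powersetCard, card_univ, Fintype.card_fin]

theorem sel_bound (n k : ℕ) (hk : 1 ≤ k) (hkn : k ≤ n) (sel : Finset (Fin n) → Option (Fin n))
    (hsel : ∀ S ∈ powersetCard k (univ : Finset (Fin n)), ∀ y, sel S = some y → y ∈ S) :
    ∑ y : Fin n, ((((powersetCard k (univ : Finset (Fin n))).filter
      (fun S => sel S = some y)).card : ℝ)) ^ 2
      ≤ ∑ i ∈ range n, (((n - 1 - i).choose (k - 1) : ℕ) : ℝ) ^ 2 := by
  refine sorted n _ (fun i => Nat.cast_nonneg _) _ (fun i => Nat.cast_nonneg _) ?_ ?_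
  · intro i hi
    exact_mod_cast Nat.choose_le_choose _ (by omega)
  · intro B
    have hBn : B.card ≤ n := by simpa using card_le_univ B
    have h1 : ∑ y ∈ B, ((powersetCard k (univ : Finset (Fin n))).filter
        (fun S => sel S = some y)).card
        ≤ ((powersetCard k (univ : Finset (Fin n))).filter (fun S => ¬ Disjoint S B)).card := by
      rw [← card_biUnion]
      · refine card_le_card ?_
        intro S hS
        rw [mem_biUnion] at hS
        obtain ⟨y, hy, hS⟩ := hS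
        rw [mem_filter] at hS ⊢
        exact ⟨hS.1, fun hd => disjoint_left.1 hd (hsel S hS.1 y hS.2) hy⟩
      · intro y _ z _ hyz
        rw [Function.onFun, disjoint_left]
        intro S hS hS'
        rw [mem_filter] at hS hS'
        exact hyz (Option.some.inj (hS.2.symm.trans hS'.2))
    have h2 := card_meet n k B
    have h3 := hockey n k hk B.card hBn
    have h4 : ∑ y ∈ B, ((powersetCard k (univ : Finset (Fin n))).filter
        (fun S => sel S = some y)).card ≤ ∑ i ∈ range B.card, (n - 1 - i).choose (k - 1) := by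
      omega
    exact_mod_cast h4

/-- the geometric bound -/
theorem g_bound (n k : ℕ) (hk : 2 ≤ k) (hkn : k ≤ n) (i : ℕ) (hi : i < n) :
    (((n - 1 - i).choose (k - 1) : ℕ) : ℝ)
      ≤ ((k : ℝ) / n) * (n.choose k : ℕ) * (((n : ℝ) - k) / ((n : ℝ) - 1)) ^ i := by
  have hn2 : (2 : ℝ) ≤ n := by exact_mod_cast hk.trans hkn
  have hkn' : (k : ℝ) ≤ n := by exact_mod_cast hkn
  have hρ : 0 ≤ ((n : ℝ) - k) / ((n : ℝ) - 1) := div_nonneg (by linarith) (by linarith)
  induction i with
  | zero =>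
    obtain ⟨m, rfl⟩ : ∃ m, n = m + 1 := ⟨n - 1, by omega⟩
    obtain ⟨l, rfl⟩ : ∃ l, k = l + 1 := ⟨k - 1, by omega⟩
    have h1 := Nat.add_one_mul_choose_eq m l
    have h2 : ((m : ℝ) + 1) * (m.choose l : ℕ) = ((m + 1).choose (l + 1) : ℕ) * ((l : ℝ) + 1) := by
      exact_mod_cast h1
    simp only [Nat.add_sub_cancel, Nat.sub_zero, pow_zero, mul_one]
    rw [div_mul_eq_mul_div, le_div_iff₀ (by positivity)]
    push_cast
    linarith
  | succ i ih =>
    have h0 := ih (by omega)
    -- ratio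
    obtain ⟨m, hm⟩ : ∃ m, n = m + i + 2 := ⟨n - i - 2, by omega⟩
    obtain ⟨l, rfl⟩ : ∃ l, k = l + 1 := ⟨k - 1, by omega⟩
    have e1 : n - 1 - i = m + 1 := by omega
    have e2 : n - 1 - (i + 1) = m := by omega
    rw [e1] at h0
    rw [e2]
    simp only [Nat.add_sub_cancel] at h0 ⊢
    -- (m+1 choose l) * (m + 1 - l) = (m choose l) * (m+1)
    have h3 : (m.choose l : ℝ) * ((m : ℝ) + 1) = ((m + 1).choose l : ℝ) * ((m : ℝ) + 1 - l) := by
      rcases le_or_gt l (m + 1) with hl | hl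
      · have := Nat.choose_mul_succ_eq m l
        have h5 : ((m + 1 - l : ℕ) : ℝ) = (m : ℝ) + 1 - l := by
          rw [Nat.cast_sub hl]; push_cast; ring
        rw [← h5]
        exact_mod_cast this
      · rw [Nat.choose_eq_zero_of_lt (by omega), Nat.choose_eq_zero_of_lt hl]; simp
    have hm1 : (0 : ℝ) < (m : ℝ) + 1 := by positivity
    have hn1 : (n : ℝ) = m + i + 2 := by exact_mod_cast hm
    have h6 : (m.choose l : ℝ) ≤ ((m + 1).choose l : ℝ) * (((n : ℝ) - (l + 1 : ℕ)) / ((n : ℝ) - 1)) := by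
      have h7 : (0 : ℝ) < (n : ℝ) - 1 := by linarith
      rw [← mul_div_assoc, le_div_iff₀ h7]
      have h8 : (m.choose l : ℝ) * ((n : ℝ) - 1) * ((m : ℝ) + 1)
          ≤ ((m + 1).choose l : ℝ) * ((n : ℝ) - (l + 1 : ℕ)) * ((m : ℝ) + 1) := by
        have e3 : (m.choose l : ℝ) * ((n : ℝ) - 1) * ((m : ℝ) + 1)
            = ((m + 1).choose l : ℝ) * (((m : ℝ) + 1 - l) * ((n : ℝ) - 1)) := by
          linear_combination ((n : ℝ) - 1) * h3
        rw [e3, mul_assoc]
        refine mul_le_mul_of_nonneg_left ?_ (Nat.cast_nonneg _)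
        push_cast
        rw [hn1]
        have : (0 : ℝ) ≤ l := Nat.cast_nonneg _
        have : (0 : ℝ) ≤ i := Nat.cast_nonneg _
        nlinarith [mul_nonneg (Nat.cast_nonneg (α := ℝ) l) (Nat.cast_nonneg (α := ℝ) i)]
      exact le_of_mul_le_mul_right h8 hm1
    rw [pow_succ, ← mul_assoc]
    refine h6.trans ?_
    exact mul_le_mul_of_nonneg_right h0 hρ

theorem g_sum (n k : ℕ) (hk : 2 ≤ k) (hkn : k ≤ n) :
    ∑ i ∈ range n, (((n - 1 - i).choose (k - 1) : ℕ) : ℝ) ^ 2
      ≤ ((n.choose k : ℕ) : ℝ) ^ 2 * (((k : ℝ) / n) ^ 2 / (1 - (((n : ℝ) - k) / ((n : ℝ) - 1)) ^ 2)) := by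
  have hn2 : (2 : ℝ) ≤ n := by exact_mod_cast hk.trans hkn
  have hk2 : (2 : ℝ) ≤ k := by exact_mod_cast hk
  have hkn' : (k : ℝ) ≤ n := by exact_mod_cast hkn
  set ρ := ((n : ℝ) - k) / ((n : ℝ) - 1) with hρdef
  have hρ : 0 ≤ ρ := div_nonneg (by linarith) (by linarith)
  have hρ1 : ρ < 1 := by rw [hρdef, div_lt_one (by linarith)]; linarith
  have h1 : ∀ i ∈ range n, (((n - 1 - i).choose (k - 1) : ℕ) : ℝ) ^ 2
      ≤ (((k : ℝ) / n) * (n.choose k : ℕ)) ^ 2 * (ρ ^ 2) ^ i := by
    intro i hi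
    have := g_bound n k hk hkn i (mem_range.1 hi)
    calc (((n - 1 - i).choose (k - 1) : ℕ) : ℝ) ^ 2
        ≤ (((k : ℝ) / n) * (n.choose k : ℕ) * ρ ^ i) ^ 2 :=
          pow_le_pow_left₀ (Nat.cast_nonneg _) this 2
      _ = _ := by rw [mul_pow, ← pow_mul, ← pow_mul, mul_comm i 2]
  refine (sum_le_sum h1).trans ?_
  rw [← mul_sum]
  have hρ2 : ρ ^ 2 < 1 := by nlinarith
  have h2 : ∑ i ∈ range n, (ρ ^ 2) ^ i ≤ 1 / (1 - ρ ^ 2) := by
    rw [one_div, ← tsum_geometric_of_lt_one (by positivity) hρ2]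
    exact (summable_geometric_of_lt_one (by positivity) hρ2).sum_le_tsum _
      (fun i _ => by positivity)
  calc (((k : ℝ) / n) * (n.choose k : ℕ)) ^ 2 * ∑ i ∈ range n, (ρ ^ 2) ^ i
      ≤ (((k : ℝ) / n) * (n.choose k : ℕ)) ^ 2 * (1 / (1 - ρ ^ 2)) :=
        mul_le_mul_of_nonneg_left h2 (by positivity)
    _ = _ := by ring

end Pool.Agent.V11327.DB
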