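import Mathlib

/-! Definitions for disagreement bounds. -/

set_option autoImplicit false

namespace Pool.Agent.V11327.DB

open MeasureTheory

/-- total variation distance of two measures on the line (laws of real random variables) -/
noncomputable def tv (μ ν : Measure ℝ) : ℝ :=
  ⨆ A : {A : Set ℝ // MeasurableSet A}, |μ.real A - ν.real A|

/-- `f` is a disagreement bound: it maps `[0, 1]` to `[0, 1]`, and every finite collection of laws
`μ i` of real random variables has a coupling `X` on some probability space with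
`P (X i ≠ X j) ≤ f (tv (μ i) (μ j))` for all pairs. -/
def DisagreementBound (f : ℝ → ℝ) : Prop :=
  (∀ x ∈ Set.Icc (0 : ℝ) 1, f x ∈ Set.Icc (0 : ℝ) 1) ∧
  ∀ (ι : Type) [Fintype ι] (μ : ι → Measure ℝ), (∀ i, IsProbabilityMeasure (μ i)) →
    ∃ (Ω : Type) (_ : MeasurableSpace Ω) (P : Measure Ω) (X : ι → Ω → ℝ),
      IsProbabilityMeasure P ∧ (∀ i, Measurable (X i)) ∧ (∀ i, P.map (X i) = μ i) ∧
      ∀ i j, i ≠ j → P.real {ω | X i ω ≠ X j ω} ≤ f (tv (μ i) (μ j))

end Pool.Agent.V11327.DB
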