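import Pool.Agent.V11327.DBdefs
import Pool.Agent.V11327.DBcomb

/-! The lower bound for disagreement bounds. -/

set_option autoImplicit false

namespace Pool.Agent.V11327.DB

open MeasureTheory Finset

/-! ### Finitely supported laws -/

section fm
variable {W : Type} [Fintype W] [DecidableEq W]

/-- finitely supported law -/
noncomputable def fm (e : W → ℝ) (m : W → ℝ) : Measure ℝ :=
  ∑ w, ENNReal.ofReal (m w) • Measure.dirac (e w)

theorem fm_apply (e : W → ℝ) (m : W → ℝ) (A : Set ℝ) (hA : MeasurableSet A) :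
    fm e m A = ∑ w, ENNReal.ofReal (m w) * A.indicator 1 (e w) := by
  simp [fm, Measure.finsetSum_apply, Measure.dirac_apply' _ hA]

theorem fm_real (e : W → ℝ) (m : W → ℝ) (hm : ∀ w, 0 ≤ m w) (A : Set ℝ) (hA : MeasurableSet A) :
    (fm e m).real A = ∑ w, m w * A.indicator 1 (e w) := by
  rw [Measure.real, fm_apply e m A hA, ENNReal.toReal_sum]
  · refine sum_congr rfl fun w _ => ?_
    rw [ENNReal.toReal_mul, ENNReal.toReal_ofReal (hm w)]
    congr 1
    by_cases h : e w ∈ A <;> simp [h]
  · intro w _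
    refine ENNReal.mul_ne_top ENNReal.ofReal_ne_top ?_
    by_cases h : e w ∈ A <;> simp [h]

theorem fm_prob (e : W → ℝ) (m : W → ℝ) (hm : ∀ w, 0 ≤ m w) (h1 : ∑ w, m w = 1) :
    IsProbabilityMeasure (fm e m) := by
  constructor
  rw [fm_apply e m _ MeasurableSet.univ]
  simp only [Set.indicator_univ, Pi.one_apply, mul_one]
  rw [← ENNReal.ofReal_sum_of_nonneg fun w _ => hm w, h1, ENNReal.ofReal_one]

theorem tv_fm (e : W → ℝ) (he : Function.Injective e) (m m' : W → ℝ) (hm : ∀ w, 0 ≤ m w)
    (hm' : ∀ w, 0 ≤ m' w) (h1 : ∑ w, m w = 1) (h1' : ∑ w, m' w = 1) :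
    tv (fm e m) (fm e m') = 1 - ∑ w, min (m w) (m' w) := by
  have hle : ∀ A : {A : Set ℝ // MeasurableSet A},
      |(fm e m).real A - (fm e m').real A| ≤ 1 - ∑ w, min (m w) (m' w) := by
    rintro ⟨A, hA⟩
    rw [fm_real e m hm A hA, fm_real e m' hm' A hA, abs_le]
    constructor
    · have : ∑ w, m' w * A.indicator 1 (e w) - ∑ w, m w * A.indicator 1 (e w)
          ≤ ∑ w, (m' w - min (m w) (m' w)) := by
        rw [← sum_sub_distrib]
        refine sum_le_sum fun w _ => ?_
        by_cases h : e w ∈ A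
        · simp only [h, Set.indicator_of_mem, Pi.one_apply, mul_one]
          linarith [min_le_left (m w) (m' w)]
        · simp only [h, not_false_iff, Set.indicator_of_notMem, mul_zero, sub_zero]
          linarith [min_le_right (m w) (m' w)]
      rw [sum_sub_distrib, h1'] at this
      linarith
    · have : ∑ w, m w * A.indicator 1 (e w) - ∑ w, m' w * A.indicator 1 (e w)
          ≤ ∑ w, (m w - min (m w) (m' w)) := by
        rw [← sum_sub_distrib]
        refine sum_le_sum fun w _ => ?_
        by_cases h : e w ∈ A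
        · simp only [h, Set.indicator_of_mem, Pi.one_apply, mul_one]
          linarith [min_le_right (m w) (m' w)]
        · simp only [h, not_false_iff, Set.indicator_of_notMem, mul_zero, sub_zero]
          linarith [min_le_left (m w) (m' w)]
      rw [sum_sub_distrib, h1] at this
      linarith
  refine le_antisymm (ciSup_le hle) ?_
  have hfin : (e '' {w | m' w ≤ m w}).Finite := Set.Finite.image _ (Set.toFinite _)
  have hbdd : BddAbove (Set.range fun A : {A : Set ℝ // MeasurableSet A} =>
      |(fm e m).real A - (fm e m').real A|) := by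
    refine ⟨1 - ∑ w, min (m w) (m' w), ?_⟩
    rintro _ ⟨A, rfl⟩
    exact hle A
  refine le_trans ?_ (le_ciSup hbdd ⟨_, hfin.measurableSet⟩)
  refine le_trans (le_of_eq ?_) (le_abs_self _)
  rw [fm_real e m hm _ hfin.measurableSet, fm_real e m' hm' _ hfin.measurableSet,
    ← sum_sub_distrib, ← h1, ← sum_sub_distrib]
  refine sum_congr rfl fun w _ => ?_
  by_cases h : m' w ≤ m w
  · have : e w ∈ e '' {w | m' w ≤ m w} := ⟨w, h, rfl⟩
    simp only [this, Set.indicator_of_mem, Pi.one_apply, mul_one]
    rw [min_eq_right h]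
  · have : e w ∉ e '' {w | m' w ≤ m w} := by
      rintro ⟨v, hv, hvw⟩
      rw [he hvw] at hv
      exact h hv
    simp only [this, not_false_iff, Set.indicator_of_notMem, mul_zero, sub_zero]
    rw [min_eq_left (not_le.1 h).le, sub_self]

theorem fm_supp (e : W → ℝ) (m : W → ℝ) :
    fm e m (e '' {w | 0 < m w})ᶜ = 0 := by
  have hfin : (e '' {w | 0 < m w}).Finite := Set.Finite.image _ (Set.toFinite _)
  rw [fm_apply e m _ hfin.measurableSet.compl]
  refine sum_eq_zero fun w _ => ?_
  by_cases h : 0 < m w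
  · have : e w ∉ (e '' {w | 0 < m w})ᶜ := fun h' => h' ⟨w, h, rfl⟩
    simp [this]
  · rw [ENNReal.ofReal_of_nonpos (not_lt.1 h), zero_mul]

end fm

/-! ### Combinatorial bound for pairs -/

abbrev Pt (n : ℕ) : Type := (Fin n × Fin n) ⊕ Bool

theorem half (n k : ℕ) (hk : 1 ≤ k) (w : Finset (Fin n) → Pt n) (π : Fin n × Fin n → Fin n)
    (hπ : ∀ S ∈ powersetCard k (univ : Finset (Fin n)), ∀ v, w S = Sum.inl v → π v ∈ S) :
    ∑ v : Fin n × Fin n, (∑ S ∈ powersetCard k (univ : Finset (Fin n)),
      if w S = Sum.inl v then (1 : ℝ) else 0) ^ 2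
      ≤ ∑ i ∈ range n, (((n - 1 - i).choose (k - 1) : ℕ) : ℝ) ^ 2 := by
  classical
  rcases le_or_gt k n with hkn | hkn
  · set sel : Finset (Fin n) → Option (Fin n) := fun S =>
      match w S with
      | Sum.inl v => some (π v)
      | Sum.inr _ => none with hsel
    have hb := sel_bound n k hk hkn sel (by
      intro S hS y hy
      simp only [hsel] at hy
      split at hy
      · next v hv =>
        have := hπ S hS v hv
        rw [Option.some.injEq] at hy
        rwa [← hy]
      · exact absurd hy (by simp))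
    refine le_trans ?_ hb
    set r : Fin n × Fin n → ℝ := fun v => ∑ S ∈ powersetCard k (univ : Finset (Fin n)),
      if w S = Sum.inl v then (1 : ℝ) else 0 with hr
    have hr0 : ∀ v, 0 ≤ r v := fun v => sum_nonneg fun S _ => by split_ifs <;> norm_num
    have h1 : ∀ y : Fin n, ∑ v with π v = y, r v
        = (((powersetCard k (univ : Finset (Fin n))).filter (fun S => sel S = some y)).card : ℝ) := by
      intro y
      rw [card_filter, Nat.cast_sum, hr, sum_comm]
      refine sum_congr rfl fun S _ => ?_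
      simp only [hsel]
      rcases hw : w S with v | b
      · simp only [Sum.inl.injEq, Option.some.injEq]
        rw [sum_ite_eq (univ.filter fun v => π v = y) v (fun _ => (1 : ℝ))]
        simp only [mem_filter, mem_univ, true_and]
        split_ifs <;> simp
      · simp
    have h2 : ∑ v, r v ^ 2 = ∑ y : Fin n, ∑ v with π v = y, r v ^ 2 :=
      (sum_fiberwise univ π fun v => r v ^ 2).symm
    rw [h2]
    refine sum_le_sum fun y _ => ?_
    rw [← h1 y]
    have hF : 0 ≤ ∑ v with π v = y, r v := sum_nonneg fun v _ => hr0 v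
    rw [sq (∑ v with π v = y, r v), sum_mul]
    refine sum_le_sum fun v hv => ?_
    rw [sq]
    exact mul_le_mul_of_nonneg_left (single_le_sum (f := r) (fun v _ => hr0 v) hv) (hr0 v)
  · rw [powersetCard_eq_empty.2 (by simpa using hkn)]
    simp only [sum_empty]
    norm_num
    exact sum_nonneg fun i _ => by positivity

theorem pair_bound (n k : ℕ) (hk : 1 ≤ k) (w1 w2 : Finset (Fin n) → Pt n)
    (h1 : ∀ S ∈ powersetCard k (univ : Finset (Fin n)), ∀ v, w1 S = Sum.inl v → v.1 ∈ S)
    (h1' : ∀ S ∈ powersetCard k (univ : Finset (Fin n)), w1 S ≠ Sum.inr false)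
    (h2 : ∀ S ∈ powersetCard k (univ : Finset (Fin n)), ∀ v, w2 S = Sum.inl v → v.2 ∈ S)
    (h2' : ∀ S ∈ powersetCard k (univ : Finset (Fin n)), w2 S ≠ Sum.inr true) :
    ∑ S ∈ powersetCard k (univ : Finset (Fin n)), ∑ T ∈ powersetCard k (univ : Finset (Fin n)),
      (if w1 S = w2 T then (1 : ℝ) else 0)
      ≤ ∑ i ∈ range n, (((n - 1 - i).choose (k - 1) : ℕ) : ℝ) ^ 2 := by
  classical
  set PP := powersetCard k (univ : Finset (Fin n)) with hPP
  set r1 : Pt n → ℝ := fun v => ∑ S ∈ PP, if w1 S = v then (1 : ℝ) else 0 with hr1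
  set r2 : Pt n → ℝ := fun v => ∑ S ∈ PP, if w2 S = v then (1 : ℝ) else 0 with hr2
  have e1 : ∑ S ∈ PP, ∑ T ∈ PP, (if w1 S = w2 T then (1 : ℝ) else 0) = ∑ v, r1 v * r2 v := by
    symm
    have e0 : ∀ v, r1 v * r2 v = ∑ S ∈ PP, ∑ T ∈ PP,
        (if w1 S = v then (1 : ℝ) else 0) * (if w2 T = v then 1 else 0) := fun v => by
      rw [hr1, hr2, sum_mul_sum]
    rw [sum_congr rfl fun v _ => e0 v, sum_comm]
    refine sum_congr rfl fun S _ => ?_
    rw [sum_comm]
    refine sum_congr rfl fun T _ => ?_
    have : ∀ v, (if w1 S = v then (1 : ℝ) else 0) * (if w2 T = v then 1 else 0)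
        = if w1 S = v then (if w2 T = w1 S then (1 : ℝ) else 0) else 0 := by
      intro v
      by_cases h : w1 S = v
      · subst h; simp
      · simp [h]
    rw [sum_congr rfl fun v _ => this v, sum_ite_eq]
    simp [eq_comm]
  rw [e1, Fintype.sum_sum_type]
  have e2 : ∑ b : Bool, r1 (Sum.inr b) * r2 (Sum.inr b) = 0 := by
    rw [Fintype.sum_bool]
    have a1 : r1 (Sum.inr false) = 0 := sum_eq_zero fun S hS => if_neg (h1' S hS)
    have a2 : r2 (Sum.inr true) = 0 := sum_eq_zero fun S hS => if_neg (h2' S hS)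
    rw [a1, a2]; simp
  rw [e2, add_zero]
  have b1 := half n k hk w1 Prod.fst h1
  have b2 := half n k hk w2 Prod.snd h2
  have e3 : ∑ v : Fin n × Fin n, r1 (Sum.inl v) * r2 (Sum.inl v)
      ≤ ∑ v : Fin n × Fin n, (1 / 2 * r1 (Sum.inl v) ^ 2 + 1 / 2 * r2 (Sum.inl v) ^ 2) := by
    refine sum_le_sum fun v _ => ?_
    nlinarith [sq_nonneg (r1 (Sum.inl v) - r2 (Sum.inl v))]
  refine e3.trans ?_
  rw [sum_add_distrib, ← mul_sum, ← mul_sum]
  simp only [hr1, hr2]
  linarith

/-! ### The coupling argument -/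

/-- weights of the laws: `b = true` conditions the first coordinate on `S`, `b = false` the second;
the remaining mass `1 - t` sits at a private point. -/
noncomputable def wt (n k : ℕ) (t : ℝ) (b : Bool) (S : Finset (Fin n)) : Pt n → ℝ
  | Sum.inl v => if (if b then v.1 else v.2) ∈ S then t / (k * n) else 0
  | Sum.inr c => if c = b then 1 - t else 0

theorem wt_nonneg (n k : ℕ) (t : ℝ) (ht : 0 ≤ t) (ht1 : t ≤ 1) (b : Bool) (S : Finset (Fin n))
    (w : Pt n) : 0 ≤ wt n k t b S w := by
  rcases w with v | c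
  · simp only [wt]; split_ifs <;> positivity
  · simp only [wt]; split_ifs <;> linarith

theorem sum_pt (n : ℕ) (S : Finset (Fin n)) (a : ℝ) (b : Bool) :
    ∑ v : Fin n × Fin n, (if (if b then v.1 else v.2) ∈ S then a else 0) = S.card * n * a := by
  rw [Fintype.sum_prod_type]
  cases b
  · simp [sum_ite_mem, mul_comm, mul_left_comm]
  · simp; ring

theorem wt_sum (n k : ℕ) (hk : 1 ≤ k) (hkn : k ≤ n) (t : ℝ) (b : Bool) (S : Finset (Fin n))
    (hS : S.card = k) : ∑ w, wt n k t b S w = 1 := by
  rw [Fintype.sum_sum_type]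
  simp only [wt]
  rw [sum_pt, hS, Fintype.sum_bool]
  have h1 : (k : ℝ) ≠ 0 := by positivity
  have h2 : (n : ℝ) ≠ 0 := by
    have : 0 < n := by omega
    positivity
  cases b
  · simp; field_simp; ring
  · simp; field_simp; ring

theorem wt_min (n k : ℕ) (hk : 1 ≤ k) (hkn : k ≤ n) (t : ℝ) (ht : 0 ≤ t) (ht1 : t ≤ 1)
    (S T : Finset (Fin n)) (hS : S.card = k) (hT : T.card = k) :
    ∑ w, min (wt n k t true S w) (wt n k t false T w) = t * k / n := by
  rw [Fintype.sum_sum_type]
  have h1 : (k : ℝ) ≠ 0 := by positivity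
  have h2 : (n : ℝ) ≠ 0 := by
    have : 0 < n := by omega
    positivity
  have e : ∀ v : Fin n × Fin n, min (wt n k t true S (Sum.inl v)) (wt n k t false T (Sum.inl v))
      = (if v.1 ∈ S then (if v.2 ∈ T then t / (k * n) else 0) else 0) := by
    intro v
    show min (if v.1 ∈ S then t / (k * n) else 0) (if v.2 ∈ T then t / (k * n) else 0) = _
    have : 0 ≤ t / (k * n) := by positivity
    by_cases h : v.1 ∈ S <;> by_cases h' : v.2 ∈ T <;> simp [h, h', this]
  have e' : ∀ c : Bool, min (wt n k t true S (Sum.inr c)) (wt n k t false T (Sum.inr c))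
      = (0 : ℝ) := by
    intro c
    show min (if c = true then 1 - t else 0) (if c = false then 1 - t else 0) = _
    have : 0 ≤ 1 - t := by linarith
    cases c <;> simp [this]
  rw [sum_congr rfl fun v _ => e v, sum_congr rfl fun c _ => e' c, Fintype.sum_prod_type]
  simp only [sum_const_zero, add_zero]
  have e2 : ∀ y : Fin n, ∑ z : Fin n, (if y ∈ S then (if z ∈ T then t / (k * n) else 0) else 0)
      = if y ∈ S then (k : ℝ) * (t / (k * n)) else 0 := by
    intro y
    by_cases h : y ∈ S
    · simp [h, hT]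
    · simp [h]
  rw [sum_congr rfl fun y _ => e2 y]
  rw [sum_ite_mem, univ_inter, sum_const, hS, nsmul_eq_mul]
  field_simp

/-- the embedding of the points into the line -/
noncomputable def emb (n : ℕ) (w : Pt n) : ℝ := ((Fintype.equivFin (Pt n) w : ℕ) : ℝ)

theorem emb_inj (n : ℕ) : Function.Injective (emb n) := by
  intro a b h
  unfold emb at h
  exact (Fintype.equivFin (Pt n)).injective (Fin.ext (Nat.cast_injective h))

theorem main_ineq (f : ℝ → ℝ) (hf : DisagreementBound f) (x : ℝ) (hx : x ∈ Set.Icc (0 : ℝ) 1)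
    (n k : ℕ) (hk : 2 ≤ k) (hkn : k ≤ n) (hkx : 1 - x ≤ (k : ℝ) / n) :
    1 - f x ≤ ((k : ℝ) / n) ^ 2 / (1 - (((n : ℝ) - k) / ((n : ℝ) - 1)) ^ 2) := by
  classical
  have hk0 : (0 : ℝ) < k := by
    have : 0 < k := by omega
    exact_mod_cast this
  have hn0 : (0 : ℝ) < n := by
    have : 0 < n := by omega
    exact_mod_cast this
  set t : ℝ := (1 - x) * n / k with ht
  have ht0 : 0 ≤ t := by
    have := hx.2
    have : 0 ≤ 1 - x := by linarith
    positivity
  have ht1 : t ≤ 1 := by
    rw [ht, div_le_one hk0]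
    rwa [le_div_iff₀ hn0] at hkx
  set ι : Type := Bool × {S : Finset (Fin n) // S.card = k} with hι
  set μ : ι → Measure ℝ := fun i => fm (emb n) (wt n k t i.1 i.2.1) with hμ
  have hμp : ∀ i, IsProbabilityMeasure (μ i) := fun i =>
    fm_prob _ _ (wt_nonneg n k t ht0 ht1 _ _) (wt_sum n k (by omega) hkn t _ _ i.2.2)
  obtain ⟨Ω, _, P, X, hP, hX, hlaw, hdis⟩ := hf.2 ι μ hμp
  have htv : ∀ S T : {S : Finset (Fin n) // S.card = k}, tv (μ (true, S)) (μ (false, T)) = x := by
    intro S T
    simp only [hμ]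
    rw [tv_fm _ (emb_inj n) _ _ (wt_nonneg n k t ht0 ht1 _ _) (wt_nonneg n k t ht0 ht1 _ _)
      (wt_sum n k (by omega) hkn t _ _ S.2) (wt_sum n k (by omega) hkn t _ _ T.2),
      wt_min n k (by omega) hkn t ht0 ht1 _ _ S.2 T.2, ht]
    field_simp; ring
  have hmeas : ∀ i j, MeasurableSet {ω | X i ω = X j ω} := fun i j =>
    measurableSet_eq_fun (hX i) (hX j)
  have heq : ∀ S T : {S : Finset (Fin n) // S.card = k},
      1 - f x ≤ P.real {ω | X (true, S) ω = X (false, T) ω} := by
    intro S T
    have h1 := hdis (true, S) (false, T) (fun h => Bool.noConfusion (congrArg Prod.fst h))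
    rw [htv] at h1
    have h2 : {ω | X (true, S) ω ≠ X (false, T) ω} = {ω | X (true, S) ω = X (false, T) ω}ᶜ := rfl
    rw [h2, probReal_compl_eq_one_sub (hmeas _ _)] at h1
    linarith
  -- almost sure support
  have hsupp : ∀ᵐ ω ∂P, ∀ i, X i ω ∈ emb n '' {w | 0 < wt n k t i.1 i.2.1 w} := by
    rw [ae_all_iff]
    intro i
    have hfin : (emb n '' {w | 0 < wt n k t i.1 i.2.1 w}).Finite :=
      Set.Finite.image _ (Set.toFinite _)
    have h1 := fm_supp (emb n) (wt n k t i.1 i.2.1)
    have h2 : μ i (emb n '' {w | 0 < wt n k t i.1 i.2.1 w})ᶜ = 0 := h1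
    rw [← hlaw i, Measure.map_apply (hX i) hfin.measurableSet.compl] at h2
    exact h2
  set G : ℝ := ∑ i ∈ range n, (((n - 1 - i).choose (k - 1) : ℕ) : ℝ) ^ 2 with hG
  have hpt : ∀ᵐ ω ∂P, ∑ S : {S : Finset (Fin n) // S.card = k}, ∑ T : {S : Finset (Fin n) // S.card = k},
      Set.indicator {ω | X (true, S) ω = X (false, T) ω} (fun _ => (1 : ℝ)) ω ≤ G := by
    filter_upwards [hsupp] with ω hω
    choose w hw hw' using hω
    have hb := pair_bound n k (by omega)
      (fun S => if h : S.card = k then w (true, ⟨S, h⟩) else Sum.inr true)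
      (fun S => if h : S.card = k then w (false, ⟨S, h⟩) else Sum.inr false)
      (by
        intro S hS v hv
        have hc : S.card = k := (mem_powersetCard.1 hS).2
        simp only [hc, dif_pos] at hv
        have := hw (true, ⟨S, hc⟩)
        rw [Set.mem_ofPred_eq, hv] at this
        simp only [wt] at this
        by_contra hcon
        simp [hcon] at this)
      (by
        intro S hS hv
        have hc : S.card = k := (mem_powersetCard.1 hS).2
        simp only [hc, dif_pos] at hv
        have := hw (true, ⟨S, hc⟩)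
        rw [Set.mem_ofPred_eq, hv] at this
        simp [wt] at this)
      (by
        intro S hS v hv
        have hc : S.card = k := (mem_powersetCard.1 hS).2
        simp only [hc, dif_pos] at hv
        have := hw (false, ⟨S, hc⟩)
        rw [Set.mem_ofPred_eq, hv] at this
        simp only [wt] at this
        by_contra hcon
        simp [hcon] at this)
      (by
        intro S hS hv
        have hc : S.card = k := (mem_powersetCard.1 hS).2
        simp only [hc, dif_pos] at hv
        have := hw (false, ⟨S, hc⟩)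
        rw [Set.mem_ofPred_eq, hv] at this
        simp [wt] at this)
    refine le_trans (le_of_eq ?_) hb
    have hPP : ∀ g : Finset (Fin n) → ℝ, ∑ S ∈ powersetCard k (univ : Finset (Fin n)), g S
        = ∑ S : {S : Finset (Fin n) // S.card = k}, g S.1 := by
      intro g
      refine (sum_subtype _ (fun S => ?_) g)
      simp [mem_powersetCard]
    rw [hPP]
    refine sum_congr rfl fun S _ => ?_
    rw [hPP]
    refine sum_congr rfl fun T _ => ?_
    simp only [S.2, T.2, dif_pos]
    have h1 : (X (true, S) ω = X (false, T) ω) ↔ w (true, S) = w (false, T) := by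
      rw [← hw' (true, S), ← hw' (false, T)]
      exact (emb_inj n).eq_iff
    by_cases h : w (true, S) = w (false, T)
    · rw [if_pos h, Set.indicator_of_mem (show ω ∈ {ω | X (true, S) ω = X (false, T) ω} from h1.2 h)]
    · rw [if_neg h, Set.indicator_of_notMem (show ω ∉ {ω | X (true, S) ω = X (false, T) ω}
        from fun h' => h (h1.1 h'))]
  have hint : ∀ S T : {S : Finset (Fin n) // S.card = k}, Integrable
      (Set.indicator {ω | X (true, S) ω = X (false, T) ω} (fun _ => (1 : ℝ))) P := fun S T =>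
    (integrable_const 1).indicator (hmeas _ _)
  have hIle : ∫ ω, ∑ S : {S : Finset (Fin n) // S.card = k}, ∑ T : {S : Finset (Fin n) // S.card = k},
      Set.indicator {ω | X (true, S) ω = X (false, T) ω} (fun _ => (1 : ℝ)) ω ∂P ≤ G := by
    have := integral_mono_ae (integrable_finsetSum _ fun S _ => integrable_finsetSum _
      fun T _ => hint S T) (integrable_const G) hpt
    simpa using this
  rw [integral_finsetSum _ fun S _ => integrable_finsetSum _ fun T _ => hint S T] at hIle
  have hcard : (Fintype.card {S : Finset (Fin n) // S.card = k}) = n.choose k := by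
    simp
  have hsum : ((n.choose k : ℕ) : ℝ) ^ 2 * (1 - f x) ≤ G := by
    refine le_trans ?_ hIle
    have h3 : ∀ S : {S : Finset (Fin n) // S.card = k}, ((n.choose k : ℕ) : ℝ) * (1 - f x) ≤
        ∫ ω, ∑ T : {S : Finset (Fin n) // S.card = k},
          Set.indicator {ω | X (true, S) ω = X (false, T) ω} (fun _ => (1 : ℝ)) ω ∂P := by
      intro S
      rw [integral_finsetSum _ fun T _ => hint S T]
      have h4 : ∀ T ∈ (univ : Finset {S : Finset (Fin n) // S.card = k}), (1 - f x) ≤
          ∫ ω, Set.indicator {ω | X (true, S) ω = X (false, T) ω} (fun _ => (1 : ℝ)) ω ∂P := by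
        intro T _
        rw [integral_indicator_const _ (hmeas _ _)]
        simpa using heq S T
      have h5 := card_nsmul_le_sum _ _ _ h4
      rw [card_univ, hcard, nsmul_eq_mul] at h5
      exact h5
    have h6 := card_nsmul_le_sum univ _ _ fun S _ => h3 S
    rw [card_univ, hcard, nsmul_eq_mul] at h6
    refine le_trans (le_of_eq ?_) h6
    ring
  have hgs := g_sum n k hk hkn
  have hNpos : (0 : ℝ) < ((n.choose k : ℕ) : ℝ) ^ 2 := by
    have : 0 < n.choose k := Nat.choose_pos hkn
    positivity
  have := hsum.trans hgs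
  exact le_of_mul_le_mul_left this hNpos

end Pool.Agent.V11327.DB
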