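import Mathlib

set_option autoImplicit false
open Filter Topology
open Finset.HasAntidiagonal (antidiagonal mem_antidiagonal)

namespace Pool.Agent.V11327.DR

/-- convolution coefficient -/
noncomputable def conv (a : ℕ → ℝ) (j : ℕ) : ℝ :=
  ∑ x ∈ antidiagonal j, a x.1 * a x.2

/-- The step of the recursion (case m = 2). -/
noncomputable def stp (a : ℕ → ℝ) (k : ℕ) : ℝ := conv a (k + 1) + (if k = 0 then a 0 ^ 2 else 0)

theorem conv_nonneg {a : ℕ → ℝ} (h : ∀ k, 0 ≤ a k) (j : ℕ) : 0 ≤ conv a j :=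
  Finset.sum_nonneg fun x _ => mul_nonneg (h _) (h _)

theorem conv_zero (a : ℕ → ℝ) : conv a 0 = a 0 ^ 2 := by
  simp [conv, sq]

theorem conv_hasSum {a : ℕ → ℝ} (h : ∀ k, 0 ≤ a k) (hs : Summable a) :
    HasSum (conv a) ((∑' k, a k) ^ 2) := by
  have hn : Summable (fun k => ‖a k‖) := by
    simpa [Real.norm_of_nonneg (h _)] using hs
  have h1 := tsum_mul_tsum_eq_tsum_sum_antidiagonal_of_summable_norm hn hn
  have h2 := summable_norm_sum_mul_antidiagonal_of_summable_norm hn hn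
  have h3 : Summable (conv a) := by
    refine h2.congr fun n => ?_
    rw [Real.norm_of_nonneg]
    · rfl
    · exact conv_nonneg h n
  have : (∑' k, conv a k) = (∑' k, a k) ^ 2 := by
    rw [sq, h1]; rfl
  rw [← this]
  exact h3.hasSum

/-- scaled convolution -/
theorem conv_scale (a : ℕ → ℝ) (s : ℝ) (j : ℕ) :
    conv (fun k : ℕ => s ^ k * a k) j = s ^ j * conv a j := by
  unfold conv
  rw [Finset.mul_sum]
  refine Finset.sum_congr rfl fun x hx => ?_
  rw [mem_antidiagonal] at hx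
  rw [← hx, pow_add]; ring

/-- `∑ j * conv a j = 2 (∑ a) (∑ k a_k)` -/
theorem conv_deriv_hasSum {a : ℕ → ℝ} (h : ∀ k, 0 ≤ a k) (hs : Summable a)
    (hs' : Summable (fun k : ℕ => (k : ℝ) * a k)) :
    HasSum (fun j : ℕ => (j : ℝ) * conv a j) (2 * (∑' k, a k) * (∑' k : ℕ, (k : ℝ) * a k)) := by
  have hn : Summable (fun k => ‖a k‖) := by
    simpa [Real.norm_of_nonneg (h _)] using hs
  have hb : ∀ k : ℕ, 0 ≤ (k : ℝ) * a k := fun k => mul_nonneg (Nat.cast_nonneg _) (h _)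
  have hn' : Summable (fun k : ℕ => ‖(k : ℝ) * a k‖) := by
    refine hs'.congr fun k => ?_
    rw [Real.norm_of_nonneg (hb k)]
  have h1 := tsum_mul_tsum_eq_tsum_sum_antidiagonal_of_summable_norm hn' hn
  have h2 := summable_norm_sum_mul_antidiagonal_of_summable_norm hn' hn
  have key : ∀ j : ℕ, (j : ℝ) * conv a j
      = 2 * ∑ x ∈ antidiagonal j, ((x.1 : ℝ) * a x.1) * a x.2 := by
    intro j
    have e1 : (j : ℝ) * conv a j
        = ∑ x ∈ antidiagonal j, ((x.1 : ℝ) * a x.1) * a x.2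
          + ∑ x ∈ antidiagonal j, ((x.2 : ℝ) * a x.2) * a x.1 := by
      unfold conv
      rw [Finset.mul_sum, ← Finset.sum_add_distrib]
      refine Finset.sum_congr rfl fun x hx => ?_
      rw [mem_antidiagonal] at hx
      rw [← hx]; push_cast; ring
    have e2 : ∑ x ∈ antidiagonal j, ((x.2 : ℝ) * a x.2) * a x.1
        = ∑ x ∈ antidiagonal j, ((x.1 : ℝ) * a x.1) * a x.2 := by
      rw [← Finset.Nat.sum_antidiagonal_swap]
      rfl
    rw [e1, e2]; ring
  have h3 : Summable (fun j : ℕ => (j : ℝ) * conv a j) := by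
    have : Summable (fun j : ℕ => ∑ x ∈ antidiagonal j, ((x.1 : ℝ) * a x.1) * a x.2) := by
      refine h2.congr fun n => ?_
      rw [Real.norm_of_nonneg]
      exact Finset.sum_nonneg fun x _ => mul_nonneg (hb _) (h _)
    refine (this.mul_left 2).congr fun j => ?_
    rw [key j]
  have h4 : (∑' j : ℕ, (j : ℝ) * conv a j) = 2 * (∑' k, a k) * (∑' k : ℕ, (k : ℝ) * a k) := by
    rw [tsum_congr key, tsum_mul_left, ← h1]; ring
  rw [← h4]
  exact h3.hasSum

/-- partial sums of the convolution are bounded by the square of the partial sum. -/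
theorem conv_partial_le {a : ℕ → ℝ} (h : ∀ k, 0 ≤ a k) (K : ℕ) :
    ∑ j ∈ Finset.range K, conv a j ≤ (∑ i ∈ Finset.range K, a i) ^ 2 := by
  classical
  unfold conv
  rw [sq, Finset.sum_mul_sum, ← Finset.sum_product', Finset.sum_sigma']
  have hinj : Set.InjOn (fun x : (_ : ℕ) × ℕ × ℕ => x.2)
      (((Finset.range K).sigma fun j => antidiagonal j : Finset _) : Set ((_ : ℕ) × ℕ × ℕ)) := by
    rintro ⟨i, x⟩ hx ⟨j, y⟩ hy hxy
    simp only [Finset.coe_sigma, Set.mem_sigma_iff, Finset.mem_coe, mem_antidiagonal] at hx hy hxy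
    subst hxy
    have : i = j := by rw [← hx.2, ← hy.2]
    subst this
    rfl
  rw [← Finset.sum_image (g := fun x : (_ : ℕ) × ℕ × ℕ => x.2)
    (f := fun y : ℕ × ℕ => a y.1 * a y.2) hinj]
  refine Finset.sum_le_sum_of_subset_of_nonneg ?_ fun y _ _ => mul_nonneg (h _) (h _)
  intro y hy
  simp only [Finset.mem_image, Finset.mem_sigma, Finset.mem_range, mem_antidiagonal] at hy
  obtain ⟨x, ⟨hx1, hx2⟩, rfl⟩ := hy
  simp only [Finset.mem_product, Finset.mem_range]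
  omega

/-! ### One step with weights -/

/-- A law `a` on `ℕ` in the critical regime with weights `2^k a k`. -/
structure Crit (a : ℕ → ℝ) : Prop where
  nn : ∀ k, 0 ≤ a k
  one : HasSum a 1
  sA : Summable (fun k : ℕ => 2 ^ k * a k)
  sB : Summable (fun k : ℕ => (k : ℝ) * (2 ^ k * a k))
  eqAB : (∑' k : ℕ, (k : ℝ) * (2 ^ k * a k)) = ∑' k : ℕ, 2 ^ k * a k

/-- the weighted mass -/
noncomputable def wt (a : ℕ → ℝ) : ℝ := ∑' k : ℕ, 2 ^ k * a k

theorem Crit.A_ge_one {a : ℕ → ℝ} (h : Crit a) : 1 ≤ wt a := by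
  rw [wt, ← h.one.tsum_eq]
  refine h.one.summable.tsum_le_tsum (fun k => ?_) h.sA
  have : (1 : ℝ) ≤ 2 ^ k := one_le_pow₀ (by norm_num)
  nlinarith [h.nn k]

theorem Crit.nnq {a : ℕ → ℝ} (h : Crit a) (k : ℕ) : 0 ≤ 2 ^ k * a k :=
  mul_nonneg (by positivity) (h.nn k)

theorem Crit.A_le_two {a : ℕ → ℝ} (h : Crit a) : wt a ≤ 2 := by
  -- `∑ (k - 1) q_k = 0`
  have h1 : HasSum (fun k : ℕ => ((k : ℝ) - 1) * (2 ^ k * a k)) 0 := by
    have := h.sB.hasSum.sub h.sA.hasSum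
    rw [h.eqAB, sub_self] at this
    have e : (fun k : ℕ => ((k : ℝ) - 1) * (2 ^ k * a k))
        = fun k : ℕ => (k : ℝ) * (2 ^ k * a k) - 2 ^ k * a k := by
      funext k; ring
    rw [e]; exact this
  have h2 : HasSum (fun k : ℕ => (((k + 2 : ℕ) : ℝ) - 1) * (2 ^ (k + 2) * a (k + 2))) (a 0) := by
    rw [hasSum_nat_add_iff' 2 |>.symm] at h1
    simpa [Finset.sum_range_succ] using h1
  have h3 : HasSum (fun k : ℕ => (2 ^ (k + 2) * a (k + 2))) (wt a - (a 0 + 2 * a 1)) := by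
    have h1 := h.sA.hasSum
    rw [hasSum_nat_add_iff' 2 |>.symm] at h1
    simpa [Finset.sum_range_succ, wt] using h1
  have h4 : wt a - (a 0 + 2 * a 1) ≤ a 0 := by
    refine hasSum_le (fun k => ?_) h3 h2
    have := h.nnq (k + 2)
    have hk : (1 : ℝ) ≤ ((k + 2 : ℕ) : ℝ) - 1 := by
      push_cast
      have : (0 : ℝ) ≤ (k : ℝ) := Nat.cast_nonneg _
      linarith
    nlinarith
  have h5 : a 0 + a 1 ≤ 1 := by
    have := sum_le_hasSum (Finset.range 2) (fun i _ => h.nn i) h.one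
    simpa [Finset.sum_range_succ] using this
  linarith

theorem step_q (a : ℕ → ℝ) (k : ℕ) :
    2 ^ k * stp a k = (1 / 2) * conv (fun i : ℕ => 2 ^ i * a i) (k + 1)
      + (if k = 0 then a 0 ^ 2 else 0) := by
  rw [conv_scale, stp]
  by_cases hk : k = 0
  · subst hk; simp
  · simp only [hk, if_false]; ring

theorem step_one {a : ℕ → ℝ} (h : Crit a) : HasSum (stp a) 1 := by
  have h1 := conv_hasSum h.nn h.one.summable
  rw [h.one.tsum_eq] at h1
  have h2 : HasSum (fun k => conv a (k + 1)) (1 - a 0 ^ 2) := by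
    rw [hasSum_nat_add_iff' 1 |>.symm] at h1
    simpa [conv_zero] using h1
  have h3 : HasSum (fun k : ℕ => if k = 0 then a 0 ^ 2 else 0) (a 0 ^ 2) := hasSum_ite_eq 0 _
  have h4 := h2.add h3
  rw [sub_add_cancel] at h4
  exact h4

/-- the weighted sum after one step. -/
theorem step_A {a : ℕ → ℝ} (h : Crit a) :
    HasSum (fun k : ℕ => 2 ^ k * stp a k) ((wt a ^ 2 + a 0 ^ 2) / 2) := by
  have h1 := conv_hasSum h.nnq h.sA
  have h2 : HasSum (fun k => conv (fun i : ℕ => 2 ^ i * a i) (k + 1))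
      (wt a ^ 2 - a 0 ^ 2) := by
    rw [hasSum_nat_add_iff' 1 |>.symm] at h1
    simpa [conv_zero, wt] using h1
  have h3 : HasSum (fun k : ℕ => if k = 0 then a 0 ^ 2 else 0) (a 0 ^ 2) := hasSum_ite_eq 0 _
  have h4 := (h2.mul_left (1 / 2)).add h3
  have e : (wt a ^ 2 + a 0 ^ 2) / 2
      = 1 / 2 * (wt a ^ 2 - a 0 ^ 2) + a 0 ^ 2 := by ring
  rw [e]
  have e2 : (fun k : ℕ => 2 ^ k * stp a k) = fun k : ℕ => (1 / 2) * conv (fun i : ℕ => 2 ^ i * a i) (k + 1)
      + (if k = 0 then a 0 ^ 2 else 0) := funext (step_q a)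
  rw [e2]
  exact h4

/-- the weighted first moment after one step. -/
theorem step_B {a : ℕ → ℝ} (h : Crit a) :
    HasSum (fun k : ℕ => (k : ℝ) * (2 ^ k * stp a k)) ((wt a ^ 2 + a 0 ^ 2) / 2) := by
  have h1 := conv_hasSum h.nnq h.sA
  have h1' := conv_deriv_hasSum h.nnq h.sA h.sB
  rw [h.eqAB] at h1'
  have h2 : HasSum (fun k => conv (fun i : ℕ => 2 ^ i * a i) (k + 1))
      (wt a ^ 2 - a 0 ^ 2) := by
    rw [hasSum_nat_add_iff' 1 |>.symm] at h1
    simpa [conv_zero, wt] using h1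
  have h2' : HasSum (fun k : ℕ => ((k : ℝ) + 1) * conv (fun i : ℕ => 2 ^ i * a i) (k + 1))
      (2 * wt a * wt a) := by
    rw [hasSum_nat_add_iff' 1 |>.symm] at h1'
    simpa [wt] using h1'
  have h4 := (h2'.sub h2).mul_left (1 / 2)
  have e : (wt a ^ 2 + a 0 ^ 2) / 2 = 1 / 2 * (2 * wt a * wt a - (wt a ^ 2 - a 0 ^ 2)) := by ring
  rw [e]
  have e2 : (fun k : ℕ => (k : ℝ) * (2 ^ k * stp a k)) = fun k : ℕ =>
      1 / 2 * (((k : ℝ) + 1) * conv (fun i : ℕ => 2 ^ i * a i) (k + 1)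
        - conv (fun i : ℕ => 2 ^ i * a i) (k + 1)) := by
    funext k
    rw [step_q]
    by_cases hk : k = 0
    · subst hk; simp
    · simp only [hk, if_false]; ring
  rw [e2]
  exact h4

theorem Crit.step {a : ℕ → ℝ} (h : Crit a) : Crit (stp a) where
  nn := by
    intro k
    unfold stp
    have := conv_nonneg h.nn (k + 1)
    split_ifs <;> positivity
  one := step_one h
  sA := (step_A h).summable
  sB := (step_B h).summable
  eqAB := by rw [(step_B h).tsum_eq, (step_A h).tsum_eq]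

theorem Crit.step_wt {a : ℕ → ℝ} (h : Crit a) : wt (stp a) = (wt a ^ 2 + a 0 ^ 2) / 2 :=
  (step_A h).tsum_eq

/-- weighted tail -/
noncomputable def tl (a : ℕ → ℝ) (K : ℕ) : ℝ := wt a - ∑ i ∈ Finset.range K, 2 ^ i * a i

theorem Crit.tl_hasSum {a : ℕ → ℝ} (h : Crit a) (K : ℕ) :
    HasSum (fun k : ℕ => 2 ^ (k + K) * a (k + K)) (tl a K) := by
  have h1 := h.sA.hasSum
  rw [hasSum_nat_add_iff' K |>.symm] at h1
  exact h1

theorem Crit.tl_nonneg {a : ℕ → ℝ} (h : Crit a) (K : ℕ) : 0 ≤ tl a K :=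
  (h.tl_hasSum K).nonneg fun k => h.nnq _

/-- Markov inequality for the weighted tail. -/
theorem Crit.markov {a : ℕ → ℝ} (h : Crit a) (K : ℕ) : (K : ℝ) * tl a K ≤ wt a := by
  have h1 := (h.tl_hasSum K).mul_left (K : ℝ)
  have h2 : HasSum (fun k : ℕ => (k : ℝ) * (2 ^ k * a k)) (wt a) := by
    have := h.sB.hasSum
    rw [h.eqAB] at this
    exact this
  rw [hasSum_nat_add_iff' K |>.symm] at h2
  have h3 := hasSum_le (fun k : ℕ => ?_) h1 h2
  · have h4 : 0 ≤ ∑ i ∈ Finset.range K, (i : ℝ) * (2 ^ i * a i) :=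
      Finset.sum_nonneg fun i _ => mul_nonneg (Nat.cast_nonneg _) (h.nnq i)
    linarith
  · have := h.nnq (k + K)
    refine mul_le_mul_of_nonneg_right ?_ this
    push_cast
    have : (0 : ℝ) ≤ (k : ℝ) := Nat.cast_nonneg _
    linarith

/-- The tail inequality. -/
theorem Crit.tl_step {a : ℕ → ℝ} (h : Crit a) (K : ℕ) (hK : 1 ≤ K) :
    wt a * ((K : ℝ) / (K + 1)) * tl a (K + 1) ≤ tl (stp a) K := by
  set S := ∑ i ∈ Finset.range (K + 1), 2 ^ i * a i with hS
  have hSA : tl a (K + 1) = wt a - S := rfl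
  have hS0 : 0 ≤ S := Finset.sum_nonneg fun i _ => h.nnq i
  have h1 : tl (stp a) K = 1 / 2 * (wt a ^ 2 -
      ∑ j ∈ Finset.range (K + 1), conv (fun i : ℕ => 2 ^ i * a i) j) := by
    have e : ∑ i ∈ Finset.range K, 2 ^ i * stp a i = 1 / 2 *
        (∑ j ∈ Finset.range (K + 1), conv (fun i : ℕ => 2 ^ i * a i) j - a 0 ^ 2) + a 0 ^ 2 := by
      rw [Finset.sum_range_succ']
      rw [Finset.sum_congr rfl fun i _ => step_q a i, Finset.sum_add_distrib, ← Finset.mul_sum]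
      rw [Finset.sum_ite_eq' (Finset.range K) 0 (fun _ => a 0 ^ 2)]
      rw [if_pos (Finset.mem_range.mpr hK)]
      rw [conv_zero]
      ring
    rw [tl, h.step_wt, e]; ring
  have h2 : ∑ j ∈ Finset.range (K + 1), conv (fun i : ℕ => 2 ^ i * a i) j ≤ S ^ 2 :=
    conv_partial_le h.nnq (K + 1)
  have h3 : tl a (K + 1) * S ≤ tl (stp a) K := by
    rw [h1, hSA]
    have := h.tl_nonneg (K + 1)
    rw [hSA] at this
    nlinarith
  have h4 := h.markov (K + 1)
  have h5 : wt a * ((K : ℝ) / (K + 1)) ≤ S := by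
    have hp : (0 : ℝ) < (K : ℝ) + 1 := by positivity
    have : tl a (K + 1) ≤ wt a / (K + 1) := by
      rw [le_div_iff₀ hp]; push_cast at h4; linarith
    rw [hSA] at this
    have e : wt a * ((K : ℝ) / (K + 1)) = wt a - wt a / (K + 1) := by
      field_simp; ring
    rw [e]; linarith
  calc wt a * ((K : ℝ) / (K + 1)) * tl a (K + 1) ≤ S * tl a (K + 1) :=
        mul_le_mul_of_nonneg_right h5 (h.tl_nonneg _)
    _ = tl a (K + 1) * S := mul_comm _ _
    _ ≤ _ := h3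

/-! ### Iteration -/

theorem crit_iter {p : ℕ → ℕ → ℝ} (h0 : Crit (p 0)) (hs : ∀ n, p (n + 1) = stp (p n)) :
    ∀ n, Crit (p n)
  | 0 => h0
  | n + 1 => by rw [hs n]; exact (crit_iter h0 hs n).step

/-- product of the weights -/
noncomputable def Pr (p : ℕ → ℕ → ℝ) (n : ℕ) : ℝ := ∏ i ∈ Finset.range n, wt (p i)

theorem Pr_pos {p : ℕ → ℕ → ℝ} (h0 : Crit (p 0)) (hs : ∀ n, p (n + 1) = stp (p n)) (n : ℕ) :
    0 < Pr p n :=
  Finset.prod_pos fun i _ => lt_of_lt_of_le one_pos (crit_iter h0 hs i).A_ge_one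

theorem tl_iter {p : ℕ → ℕ → ℝ} (h0 : Crit (p 0)) (hs : ∀ n, p (n + 1) = stp (p n)) (n : ℕ) :
    ∀ K : ℕ, 1 ≤ K → Pr p n * ((K : ℝ) / (K + n)) * tl (p 0) (K + n) ≤ tl (p n) K := by
  induction n with
  | zero =>
    intro K hK
    have : (K : ℝ) ≠ 0 := by positivity
    simp [Pr, this]
  | succ n ih =>
    intro K hK
    have h1 := (crit_iter h0 hs n).tl_step K hK
    rw [← hs n] at h1
    refine le_trans ?_ h1
    have h2 := ih (K + 1) (by omega)
    have h3 : 0 ≤ wt (p n) * ((K : ℝ) / (K + 1)) := by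
      have := (crit_iter h0 hs n).A_ge_one
      positivity
    have h4 := mul_le_mul_of_nonneg_left h2 h3
    refine le_trans (le_of_eq ?_) h4
    rw [Pr, Finset.prod_range_succ, ← Pr]
    have e : K + 1 + n = K + (n + 1) := by ring
    rw [e]
    push_cast
    have e3 : (K : ℝ) + 1 + n = K + (n + 1) := by ring
    have : (K : ℝ) + 1 ≠ 0 := by positivity
    have : (K : ℝ) + (n + 1) ≠ 0 := by positivity
    rw [e3]
    field_simp

/-- main upper bound on the product. -/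
theorem Pr_le {p : ℕ → ℕ → ℝ} (h0 : Crit (p 0)) (hs : ∀ n, p (n + 1) = stp (p n)) (n : ℕ)
    (hn : 1 ≤ n) : (n : ℝ) * Pr p n * tl (p 0) (2 * n) ≤ 4 := by
  have h1 := tl_iter h0 hs n n hn
  have h2 := (crit_iter h0 hs n).markov n
  have h3 := (crit_iter h0 hs n).A_le_two
  have e : n + n = 2 * n := by ring
  rw [e] at h1
  have hn' : (n : ℝ) ≠ 0 := by positivity
  have e2 : (n : ℝ) / (n + n) = 1 / 2 := by field_simp; ring
  rw [e2] at h1
  have h4 := mul_le_mul_of_nonneg_left h1 (Nat.cast_nonneg (α := ℝ) n)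
  nlinarith

end Pool.Agent.V11327.DR
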