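import Pool.Agent.V11327.DR

set_option autoImplicit false
open Filter Topology
open Finset.HasAntidiagonal (antidiagonal mem_antidiagonal)

namespace Pool.Agent.V11327.DR

/-! ### Sequence lemma -/

/-- If `ε ≥ 0` satisfies the recursion with `δ ≥ 3.92/n²`, then eventually `ε n > 1.5 / n`. -/
theorem eps_lower {e d : ℕ → ℝ} (he : ∀ n, 0 ≤ e n) (n0 : ℕ) (hn0 : 5 ≤ n0)
    (hd : ∀ n, n0 ≤ n → 3.92 / (n : ℝ) ^ 2 ≤ d n) (hd1 : ∀ n, d n ≤ 1)
    (hrec : ∀ n, e (n + 1) = e n + e n ^ 2 / 2 - d n + d n ^ 2 / 2) :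
    ∀ n, n0 ≤ n → 1.5 / (n : ℝ) < e n := by
  intro n hn
  by_contra hcon
  push Not at hcon
  have hstep : ∀ k : ℕ, n ≤ k → e k ≤ 1.5 / (k : ℝ) →
      e (k + 1) ≤ e k - 2.4 / ((k : ℝ) * (k + 1)) := by
    intro k hk hek
    have hk4 : (5 : ℝ) ≤ k := by exact_mod_cast hn0.trans (hn.trans hk)
    have hkpos : (0 : ℝ) < k := by linarith
    have h1 := hd k (hn.trans hk)
    set y := (1 : ℝ) / (k : ℝ) ^ 2 with hy
    have hy0 : 0 < y := by positivity
    have hy1 : y ≤ 1 / 25 := by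
      rw [hy]
      apply one_div_le_one_div_of_le (by norm_num)
      nlinarith
    have h2 : 3.92 * y ≤ d k := by
      rw [hy]; rw [show 3.92 * (1 / (k : ℝ) ^ 2) = 3.92 / (k : ℝ) ^ 2 by ring]; exact h1
    have h3 : e k ^ 2 ≤ 2.25 * y := by
      have : e k ^ 2 ≤ (1.5 / (k : ℝ)) ^ 2 := pow_le_pow_left₀ (he k) hek 2
      calc e k ^ 2 ≤ (1.5 / (k : ℝ)) ^ 2 := this
        _ = 2.25 * y := by rw [hy]; ring
    have h4 : - d k + d k ^ 2 / 2 ≤ - (3.92 * y) + (3.92 * y) ^ 2 / 2 := by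
      nlinarith [hd1 k]
    have h5 : 1 / ((k : ℝ) * (k + 1)) ≤ y := by
      rw [hy]
      apply one_div_le_one_div_of_le (by positivity)
      nlinarith
    rw [hrec k]
    have h6 : 2.4 / ((k : ℝ) * (k + 1)) = 2.4 * (1 / ((k : ℝ) * (k + 1))) := by ring
    rw [h6]
    nlinarith
  have hmain : ∀ j : ℕ, e (n + j) ≤ 1.5 / ((n + j : ℕ) : ℝ) ∧
      e (n + j) ≤ 1.5 / (n : ℝ) - 2.4 * (1 / (n : ℝ) - 1 / ((n + j : ℕ) : ℝ)) := by
    intro j
    induction j with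
    | zero => simp only [add_zero]; constructor <;> linarith
    | succ j ih =>
      have hnpos : (0 : ℝ) < ((n + j : ℕ) : ℝ) := by
        have : 0 < n + j := by omega
        exact_mod_cast this
      have h1 := hstep (n + j) (by omega) ih.1
      have e1 : 1 / (((n + j : ℕ) : ℝ) * (((n + j : ℕ) : ℝ) + 1))
          = 1 / ((n + j : ℕ) : ℝ) - 1 / (((n + j : ℕ) : ℝ) + 1) := by
        field_simp; ring
      have e2 : ((n + (j + 1) : ℕ) : ℝ) = ((n + j : ℕ) : ℝ) + 1 := by push_cast; ring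
      have e3 : 2.4 / (((n + j : ℕ) : ℝ) * (((n + j : ℕ) : ℝ) + 1))
          = 2.4 * (1 / ((n + j : ℕ) : ℝ) - 1 / (((n + j : ℕ) : ℝ) + 1)) := by
        rw [← e1]; ring
      rw [e3] at h1
      have e4 : n + (j + 1) = n + j + 1 := by ring
      rw [e2, e4]
      have h7 : 1 / (((n + j : ℕ) : ℝ) + 1) ≤ 1 / ((n + j : ℕ) : ℝ) :=
        one_div_le_one_div_of_le hnpos (by linarith)
      have e5 : 1.5 / (((n + j : ℕ) : ℝ) + 1) = 1.5 * (1 / (((n + j : ℕ) : ℝ) + 1)) := by ring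
      have e6 : 1.5 / ((n + j : ℕ) : ℝ) = 1.5 * (1 / ((n + j : ℕ) : ℝ)) := by ring
      constructor
      · rw [e5]; rw [e6] at ih; linarith [ih.1]
      · linarith [ih.2]
  -- contradiction for large j
  have hnpos : (0 : ℝ) < (n : ℝ) := by
    have : 0 < n := by omega
    exact_mod_cast this
  have h := (hmain (9 * n)).2
  have e7 : ((n + 9 * n : ℕ) : ℝ) = 10 * n := by push_cast; ring
  rw [e7] at h
  have e8 : 1.5 / (n : ℝ) - 2.4 * (1 / (n : ℝ) - 1 / (10 * n)) = - (0.66 / n) := by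
    field_simp; norm_num
  rw [e8] at h
  have h9 : (0 : ℝ) < 0.66 / n := by positivity
  linarith [he (n + 9 * n)]

/-- If `u (n+1) ≥ u n (1 + 0.25/(n+1))` eventually and `u > 0` then `u` is unbounded. -/
theorem unbounded_of_growth {u : ℕ → ℝ} (n0 : ℕ) (hu : ∀ n, 0 < u n)
    (hg : ∀ n, n0 ≤ n → u n * (1 + 0.25 / ((n : ℝ) + 1)) ≤ u (n + 1)) (C : ℝ) :
    ∃ n, n0 ≤ n ∧ C < u n := by
  by_contra hcon
  push Not at hcon
  -- u (n0 + j) ≥ u n0 (1 + 0.25 (H_{n0+j} - H_{n0}))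
  have h1 : ∀ j : ℕ, u n0 * (1 + 0.25 * ∑ i ∈ Finset.range j, 1 / (((n0 + i : ℕ) : ℝ) + 1))
      ≤ u (n0 + j) := by
    intro j
    induction j with
    | zero => simp
    | succ j ih =>
      have h2 := hg (n0 + j) (by omega)
      have hmono : u n0 ≤ u (n0 + j) := by
        refine le_trans ?_ ih
        have : 0 ≤ ∑ i ∈ Finset.range j, 1 / (((n0 + i : ℕ) : ℝ) + 1) :=
          Finset.sum_nonneg fun i _ => by positivity
        nlinarith [hu n0]
      rw [Finset.sum_range_succ]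
      have e4 : n0 + (j + 1) = n0 + j + 1 := by ring
      rw [e4]
      refine le_trans ?_ h2
      have h5 : 0 ≤ 1 / (((n0 + j : ℕ) : ℝ) + 1) := by positivity
      have e5 : 0.25 / (((n0 + j : ℕ) : ℝ) + 1) = 0.25 * (1 / (((n0 + j : ℕ) : ℝ) + 1)) := by ring
      rw [e5]
      nlinarith
  have h2 : ¬ Summable (fun i : ℕ => 1 / (((n0 + i : ℕ) : ℝ) + 1)) := by
    intro hs
    have : Summable (fun i : ℕ => 1 / ((i : ℝ) + 1)) := by
      refine (summable_nat_add_iff n0).1 (hs.congr fun i => ?_)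
      push_cast; ring_nf
    exact Real.not_summable_one_div_natCast ((summable_nat_add_iff 1).1 (this.congr fun i => by
      push_cast; ring_nf))
  have h3 := not_summable_iff_tendsto_nat_atTop_of_nonneg
    (f := fun i : ℕ => 1 / (((n0 + i : ℕ) : ℝ) + 1)) (fun i => by positivity) |>.1 h2
  obtain ⟨j, hj⟩ := (h3.eventually_gt_atTop (4 * (C / u n0))).exists
  have h4 := h1 j
  have h5 := hcon (n0 + j) (by omega)
  have h6 := hu n0
  have h7 : C < u n0 * (1 + 0.25 * ∑ i ∈ Finset.range j, 1 / (((n0 + i : ℕ) : ℝ) + 1)) := by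
    have : C = u n0 * (0.25 * (4 * (C / u n0))) := by field_simp; norm_num; ring
    rw [this]
    refine mul_lt_mul_of_pos_left ?_ h6
    linarith
  linarith

/-! ### The contradiction, in abstract form -/

theorem no_rate {p : ℕ → ℕ → ℝ} (h0 : Crit (p 0)) (hs : ∀ n, p (n + 1) = stp (p n))
    (c : ℝ) (hc : 0 < c) (htail : ∀ M : ℕ, 1 ≤ M → c / (M : ℝ) ^ 2 ≤ tl (p 0) M)
    (n0 : ℕ) (hn0 : 5 ≤ n0) (hd : ∀ n, n0 ≤ n → 3.92 / (n : ℝ) ^ 2 ≤ 1 - p n 0) : False := by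
  have hcr := crit_iter h0 hs
  have h1 : ∀ n, n0 ≤ n → 1.5 / (n : ℝ) < wt (p n) - 1 := by
    refine eps_lower (e := fun n => wt (p n) - 1) (d := fun n => 1 - p n 0) ?_ n0 hn0 hd ?_ ?_
    · intro n; have := (hcr n).A_ge_one; linarith
    · intro n; have := (hcr n).nn 0; linarith
    · intro n
      rw [hs n, (hcr n).step_wt]; ring
  -- `u n = Pr n / n`, shifted
  obtain ⟨n, hn, hCn⟩ := unbounded_of_growth (u := fun n => Pr p (n + 1) / ((n : ℝ) + 1)) n0
    (fun n => by have := Pr_pos h0 hs (n + 1); positivity) (fun n hn => by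
      have hp := Pr_pos h0 hs (n + 1)
      have h2 := h1 (n + 1) (by omega)
      have e1 : Pr p (n + 1 + 1) = Pr p (n + 1) * wt (p (n + 1)) := by
        rw [Pr, Finset.prod_range_succ, ← Pr]
      rw [e1]
      push_cast at h2 ⊢
      have hn1 : (0 : ℝ) < (n : ℝ) + 1 := by positivity
      have hn2 : (0 : ℝ) < (n : ℝ) + 1 + 1 := by positivity
      rw [div_mul_eq_mul_div, div_le_div_iff₀ hn1 hn2]
      have h3 : 1 + 1.5 / ((n : ℝ) + 1) ≤ wt (p (n + 1)) := by linarith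
      have h4 : Pr p (n + 1) * (1 + 1.5 / ((n : ℝ) + 1)) ≤ Pr p (n + 1) * wt (p (n + 1)) :=
        mul_le_mul_of_nonneg_left h3 hp.le
      have h5 : Pr p (n + 1) * (1 + 0.25 / ((n : ℝ) + 1)) * ((n : ℝ) + 1 + 1)
          ≤ Pr p (n + 1) * (1 + 1.5 / ((n : ℝ) + 1)) * ((n : ℝ) + 1) := by
        rw [mul_assoc, mul_assoc]
        refine mul_le_mul_of_nonneg_left ?_ hp.le
        have e2 : (1 + 0.25 / ((n : ℝ) + 1)) * ((n : ℝ) + 1 + 1)
            = (n : ℝ) + 1 + 1 + 0.25 + 0.25 / ((n : ℝ) + 1) := by field_simp; ring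
        have e3 : (1 + 1.5 / ((n : ℝ) + 1)) * ((n : ℝ) + 1) = (n : ℝ) + 1 + 1.5 := by
          field_simp
        rw [e2, e3]
        have : 0.25 / ((n : ℝ) + 1) ≤ 0.25 := by
          rw [div_le_iff₀ hn1]; nlinarith [Nat.cast_nonneg (α := ℝ) n]
        linarith
      nlinarith) (16 / c)
  have h6 := Pr_le h0 hs (n + 1) (by omega)
  have h7 := htail (2 * (n + 1)) (by omega)
  have hn1 : (0 : ℝ) < (n : ℝ) + 1 := by positivity
  have hp := Pr_pos h0 hs (n + 1)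
  have h8 : ((n : ℝ) + 1) * Pr p (n + 1) * (c / (2 * ((n : ℝ) + 1)) ^ 2) ≤ 4 := by
    refine le_trans ?_ h6
    push_cast at h7 ⊢
    exact mul_le_mul_of_nonneg_left h7 (by positivity)
  have h9 : ((n : ℝ) + 1) * Pr p (n + 1) * (c / (2 * ((n : ℝ) + 1)) ^ 2)
      = (Pr p (n + 1) / ((n : ℝ) + 1)) * c / 4 := by
    field_simp; ring
  rw [h9] at h8
  have h10 : 16 / c < Pr p (n + 1) / ((n : ℝ) + 1) := hCn
  rw [div_lt_iff₀ hc] at h10
  linarith

end Pool.Agent.V11327.DR
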