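import Mathlib

/-! The random friend tree: definitions. -/

set_option autoImplicit false

namespace Pool.Agent.V11327.FT

open MeasureTheory Filter

/-- The vertex to which vertex `i ≥ 1` is attached: vertex `1` is attached to vertex `0`, and vertex
`i ≥ 2` to vertex `w i`. (Vertex `i` here is the vertex labelled `i + 1` in the problem.) -/
def par (w : ℕ → ℕ) (i : ℕ) : ℕ := if i ≤ 1 then 0 else w i

/-- Adjacency of `v` and `k` in the tree `T_n` on the vertices `0, …, n - 1`, whose edges are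
`{i, par w i}` for `1 ≤ i < n`, i.e. `{0, 1}` and `{i, w i}` for `2 ≤ i < n`. -/
def Adj (w : ℕ → ℕ) (n v k : ℕ) : Prop :=
  (1 ≤ v ∧ v < n ∧ k = par w v) ∨ (1 ≤ k ∧ k < n ∧ v = par w k)

instance (w : ℕ → ℕ) (n v k : ℕ) : Decidable (Adj w n v k) := by unfold Adj; infer_instance

/-- the degree of `v` in `T_n` -/
def deg (w : ℕ → ℕ) (n v : ℕ) : ℕ := ((Finset.range n).filter fun k => Adj w n v k).card

/-- `W` (with auxiliary choices `V`) generates the random friend tree with respect to the filtration `ℱ`: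
for `n ≥ 2`, given `ℱ n` (to which the tree `T_n` is measurable) the vertex `V n` is uniform on the `n`
vertices of `T_n` and `W n` is a uniform neighbour of `V n` in `T_n`. Vertex `n` is then attached to
`W n`. -/
structure IsFriendTree {Ω : Type} [mΩ : MeasurableSpace Ω] (P : Measure Ω) (ℱ : Filtration ℕ mΩ)
    (V W : ℕ → Ω → ℕ) : Prop where
  V_lt : ∀ n, 2 ≤ n → ∀ ω, V n ω < n
  W_lt : ∀ n, 2 ≤ n → ∀ ω, W n ω < n
  V_meas : ∀ n, 2 ≤ n → Measurable[ℱ (n + 1)] (V n)
  W_meas : ∀ n, 2 ≤ n → Measurable[ℱ (n + 1)] (W n)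
  step : ∀ n, 2 ≤ n → ∀ v < n, ∀ k < n,
    P[({ω | V n ω = v ∧ W n ω = k}.indicator fun _ => (1 : ℝ)) | ℱ n] =ᵐ[P]
      fun ω => if Adj (fun i => W i ω) n v k then 1 / ((n : ℝ) * deg (fun i => W i ω) n v) else 0

/-- `Z_v = liminf D_n(v) / n` -/
noncomputable def Z {Ω : Type} (W : ℕ → Ω → ℕ) (v : ℕ) (ω : Ω) : ℝ :=
  liminf (fun n : ℕ => (deg (fun i => W i ω) n v : ℝ) / n) atTop

end Pool.Agent.V11327.FT
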