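import Pool.Agent.V11327.FTdefs

/-! Deterministic facts on the trees. -/

set_option autoImplicit false

namespace Pool.Agent.V11327.FT

open Finset

theorem adj_symm (w : ℕ → ℕ) (n v k : ℕ) : Adj w n v k ↔ Adj w n k v := by
  unfold Adj; tauto

/-- validity -/
def Valid (w : ℕ → ℕ) : Prop := ∀ i, 2 ≤ i → w i < i

theorem par_lt {w : ℕ → ℕ} (hw : Valid w) {i : ℕ} (hi : 1 ≤ i) : par w i < i := by
  unfold par
  split_ifs with h
  · omega
  · exact hw i (by omega)

theorem adj_lt {w : ℕ → ℕ} (hw : Valid w) {n v k : ℕ} (h : Adj w n v k) : v < n ∧ k < n := by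
  rcases h with ⟨h1, h2, h3⟩ | ⟨h1, h2, h3⟩
  · have := par_lt hw h1; omega
  · have := par_lt hw h1; omega

theorem adj_ne {w : ℕ → ℕ} (hw : Valid w) {n v k : ℕ} (h : Adj w n v k) : v ≠ k := by
  rcases h with ⟨h1, h2, h3⟩ | ⟨h1, h2, h3⟩
  · have := par_lt hw h1; omega
  · have := par_lt hw h1; omega

theorem adj_succ {w : ℕ → ℕ} {n v k : ℕ} (hn : 2 ≤ n) :
    Adj w (n + 1) v k ↔ Adj w n v k ∨ (v = n ∧ k = w n) ∨ (k = n ∧ v = w n) := by
  have hp : par w n = w n := by unfold par; rw [if_neg (by omega)]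
  unfold Adj
  constructor
  · rintro (⟨h1, h2, h3⟩ | ⟨h1, h2, h3⟩)
    · rcases Nat.lt_succ_iff_lt_or_eq.1 h2 with h | h
      · exact Or.inl (Or.inl ⟨h1, h, h3⟩)
      · subst h; rw [hp] at h3; exact Or.inr (Or.inl ⟨rfl, h3⟩)
    · rcases Nat.lt_succ_iff_lt_or_eq.1 h2 with h | h
      · exact Or.inl (Or.inr ⟨h1, h, h3⟩)
      · subst h; rw [hp] at h3; exact Or.inr (Or.inr ⟨rfl, h3⟩)
  · rintro ((⟨h1, h2, h3⟩ | ⟨h1, h2, h3⟩) | ⟨h1, h2⟩ | ⟨h1, h2⟩)
    · exact Or.inl ⟨h1, by omega, h3⟩
    · exact Or.inr ⟨h1, by omega, h3⟩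
    · subst h1; left; exact ⟨by omega, by omega, by rw [hp]; exact h2⟩
    · subst h1; right; exact ⟨by omega, by omega, by rw [hp]; exact h2⟩

theorem deg_succ {w : ℕ → ℕ} (hw : Valid w) {n v : ℕ} (hn : 2 ≤ n) (hv : v < n) :
    deg w (n + 1) v = deg w n v + if w n = v then 1 else 0 := by
  unfold deg
  rw [Finset.range_add_one, Finset.filter_insert]
  have h1 : ((range n).filter fun k => Adj w (n + 1) v k) = (range n).filter fun k => Adj w n v k := by
    refine filter_congr fun k hk => ?_
    rw [mem_range] at hk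
    rw [adj_succ hn]
    constructor
    · rintro (h | h | h)
      · exact h
      · omega
      · omega
    · exact Or.inl
  rw [h1]
  have h2 : Adj w (n + 1) v n ↔ w n = v := by
    rw [adj_succ hn]
    constructor
    · rintro (h | h | h)
      · have := (adj_lt hw h).2; omega
      · omega
      · exact h.2.symm
    · intro h; exact Or.inr (Or.inr ⟨rfl, h.symm⟩)
  by_cases h : w n = v
  · rw [if_pos (h2.2 h), if_pos h, card_insert_of_notMem]
    simp
  · rw [if_neg (fun h' => h (h2.1 h')), if_neg h, add_zero]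

theorem deg_new {w : ℕ → ℕ} (hw : Valid w) {n : ℕ} (hn : 2 ≤ n) : deg w (n + 1) n = 1 := by
  unfold deg
  rw [card_eq_one]
  refine ⟨w n, ?_⟩
  ext k
  rw [mem_filter, mem_singleton, mem_range, adj_succ hn]
  constructor
  · rintro ⟨hk, h | h | h⟩
    · have := (adj_lt hw h).1; omega
    · exact h.2
    · have := hw n hn; omega
  · rintro rfl
    exact ⟨by have := hw n hn; omega, Or.inr (Or.inl ⟨rfl, rfl⟩)⟩

theorem deg_two (w : ℕ → ℕ) (v : ℕ) (hv : v < 2) : deg w 2 v = 1 := by
  unfold deg
  rw [card_eq_one]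
  refine ⟨1 - v, ?_⟩
  ext k
  rw [mem_filter, mem_singleton, mem_range]
  unfold Adj par
  constructor
  · rintro ⟨hk, ⟨h1, h2, h3⟩ | ⟨h1, h2, h3⟩⟩
    · rw [if_pos (by omega)] at h3; omega
    · rw [if_pos (by omega)] at h3; omega
  · intro h
    refine ⟨by omega, ?_⟩
    rcases Nat.lt_succ_iff_lt_or_eq.1 hv with h0 | h0
    · right
      have hk : k = 1 := by omega
      subst hk
      refine ⟨le_rfl, by norm_num, ?_⟩
      rw [if_pos le_rfl]; omega
    · left
      subst h0
      refine ⟨le_rfl, by norm_num, ?_⟩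
      rw [if_pos le_rfl]; omega

theorem one_le_deg {w : ℕ → ℕ} (hw : Valid w) {n : ℕ} (hn : 2 ≤ n) : ∀ v, v < n → 1 ≤ deg w n v := by
  induction n, hn using Nat.le_induction with
  | base => intro v hv; rw [deg_two w v hv]
  | succ n hn ih =>
    intro v hv
    rcases Nat.lt_succ_iff_lt_or_eq.1 hv with h | h
    · rw [deg_succ hw hn h]
      have := ih v h
      omega
    · subst h; rw [deg_new hw hn]

theorem sum_deg {w : ℕ → ℕ} (hw : Valid w) {n : ℕ} (hn : 2 ≤ n) :
    ∑ v ∈ range n, deg w n v = 2 * (n - 1) := by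
  induction n, hn using Nat.le_induction with
  | base =>
    rw [sum_congr rfl fun v hv => deg_two w v (mem_range.1 hv)]; simp
  | succ n hn ih =>
    rw [sum_range_succ, deg_new hw hn, sum_congr rfl fun v hv => deg_succ hw hn (mem_range.1 hv),
      sum_add_distrib, ih]
    rw [sum_ite_eq, if_pos (mem_range.2 (hw n hn))]
    omega

/-- no two adjacent leaves when `n ≥ 3` -/
theorem no_adj_leaves {w : ℕ → ℕ} (hw : Valid w) {n u v : ℕ} (hn : 3 ≤ n) (h : Adj w n u v)
    (hu : deg w n u = 1) (hv : deg w n v = 1) : False := by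
  -- a vertex of degree one has a unique neighbour
  have uniq : ∀ a, deg w n a = 1 → ∀ b c, Adj w n a b → Adj w n a c → b = c := by
    intro a ha b c hb hc
    unfold deg at ha
    obtain ⟨x, hx⟩ := card_eq_one.1 ha
    have h1 : b ∈ ((range n).filter fun k => Adj w n a k) :=
      mem_filter.2 ⟨mem_range.2 (adj_lt hw hb).2, hb⟩
    have h2 : c ∈ ((range n).filter fun k => Adj w n a k) :=
      mem_filter.2 ⟨mem_range.2 (adj_lt hw hc).2, hc⟩
    rw [hx, mem_singleton] at h1 h2
    rw [h1, h2]
  have main : ∀ u v, 1 ≤ v → v < n → u = par w v → deg w n u = 1 → deg w n v = 1 → False := by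
    intro u v h1 h2 h3 hu hv
    have huv : Adj w n u v := Or.inr ⟨h1, h2, h3⟩
    have hlt : u < v := by rw [h3]; exact par_lt hw h1
    -- u = 0
    have hu0 : u = 0 := by
      by_contra hne
      have h4 : Adj w n u (par w u) := Or.inl ⟨by omega, by omega, rfl⟩
      have := uniq u hu _ _ huv h4
      have := par_lt hw (show 1 ≤ u by omega)
      omega
    subst hu0
    have h01 : Adj w n 0 1 := Or.inr ⟨le_rfl, by omega, by unfold par; simp⟩
    have hv1 : v = 1 := uniq 0 hu _ _ huv h01
    subst hv1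
    -- vertex 2
    have h2' : par w 2 < 2 := par_lt hw (by norm_num)
    rcases Nat.lt_succ_iff_lt_or_eq.1 h2' with h | h
    · have h5 : Adj w n 0 2 := Or.inr ⟨by norm_num, by omega, by omega⟩
      have := uniq 0 hu _ _ h01 h5
      omega
    · have h5 : Adj w n 1 2 := Or.inr ⟨by norm_num, by omega, by omega⟩
      have h6 : Adj w n 1 0 := (adj_symm w n 0 1).1 h01
      have := uniq 1 hv _ _ h6 h5
      omega
  rcases h with ⟨h1, h2, h3⟩ | ⟨h1, h2, h3⟩
  · exact main v u h1 h2 h3 hv hu
  · exact main u v h1 h2 h3 hu hv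

/-- when `n ≥ 4` a vertex of degree two has at most one leaf neighbour -/
theorem one_leaf {w : ℕ → ℕ} (hw : Valid w) {n u b c : ℕ} (hn : 4 ≤ n) (hu : deg w n u = 2)
    (hb : Adj w n u b) (hc : Adj w n u c) (hbc : b ≠ c)
    (hb1 : deg w n b = 1) (hc1 : deg w n c = 1) : False := by
  have uniq : ∀ a, deg w n a = 1 → ∀ b c, Adj w n a b → Adj w n a c → b = c := by
    intro a ha b c hb hc
    unfold deg at ha
    obtain ⟨x, hx⟩ := card_eq_one.1 ha
    have h1 : b ∈ ((range n).filter fun k => Adj w n a k) :=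
      mem_filter.2 ⟨mem_range.2 (adj_lt hw hb).2, hb⟩
    have h2 : c ∈ ((range n).filter fun k => Adj w n a k) :=
      mem_filter.2 ⟨mem_range.2 (adj_lt hw hc).2, hc⟩
    rw [hx, mem_singleton] at h1 h2
    rw [h1, h2]
  -- all neighbours of u are b or c
  have hnb : ∀ d, Adj w n u d → d = b ∨ d = c := by
    intro d hd
    by_contra hcon
    push Not at hcon
    have h3 : ({b, c, d} : Finset ℕ) ⊆ ((range n).filter fun k => Adj w n u k) := by
      intro x hx
      simp only [mem_insert, mem_singleton] at hx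
      rcases hx with rfl | rfl | rfl
      · exact mem_filter.2 ⟨mem_range.2 (adj_lt hw hb).2, hb⟩
      · exact mem_filter.2 ⟨mem_range.2 (adj_lt hw hc).2, hc⟩
      · exact mem_filter.2 ⟨mem_range.2 (adj_lt hw hd).2, hd⟩
    have h4 := card_le_card h3
    have h5 : ({b, c, d} : Finset ℕ).card = 3 := by
      rw [card_insert_of_notMem, card_pair (Ne.symm hcon.2)]
      simp only [mem_insert, mem_singleton, not_or]
      exact ⟨hbc, Ne.symm hcon.1⟩
    unfold deg at hu
    omega
  have hub : ∀ d, Adj w n b d → d = u := fun d hd => uniq b hb1 _ _ hd ((adj_symm w n u b).1 hb)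
  have huc : ∀ d, Adj w n c d → d = u := fun d hd => uniq c hc1 _ _ hd ((adj_symm w n u c).1 hc)
  -- every vertex is u, b or c
  have key : ∀ x, x < n → x = u ∨ x = b ∨ x = c := by
    -- closure under adjacency, and 0 is connected to everything below
    have closed : ∀ x y, Adj w n x y → (x = u ∨ x = b ∨ x = c) → (y = u ∨ y = b ∨ y = c) := by
      rintro x y hxy (rfl | rfl | rfl)
      · rcases hnb y hxy with h | h
        · exact Or.inr (Or.inl h)
        · exact Or.inr (Or.inr h)
      · exact Or.inl (hub y hxy)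
      · exact Or.inl (huc y hxy)
    -- 0 is in the set
    have down : ∀ x, x < n → (x = u ∨ x = b ∨ x = c) → (0 = u ∨ 0 = b ∨ 0 = c) := by
      intro x
      induction x using Nat.strong_induction_on with
      | _ x ih =>
        intro hx hmem
        rcases Nat.eq_zero_or_pos x with h0 | h0
        · subst h0; exact hmem
        · have h1 : Adj w n x (par w x) := Or.inl ⟨h0, hx, rfl⟩
          have hlt := par_lt hw h0
          exact ih (par w x) hlt (by omega) (closed x _ h1 hmem)
    have h0 := down u (adj_lt hw hb).1 (Or.inl rfl)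
    intro x
    induction x using Nat.strong_induction_on with
    | _ x ih =>
      intro hx
      rcases Nat.eq_zero_or_pos x with h0' | h0'
      · subst h0'; exact h0
      · have h1 : Adj w n (par w x) x := Or.inr ⟨h0', hx, rfl⟩
        have hlt := par_lt hw h0'
        exact closed _ _ h1 (ih (par w x) hlt (by omega))
  have h4 : range n ⊆ {u, b, c} := by
    intro x hx
    rw [mem_range] at hx
    simp only [mem_insert, mem_singleton]
    exact key x hx
  have h5 := card_le_card h4
  rw [card_range] at h5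
  have h6 : ({u, b, c} : Finset ℕ).card ≤ 3 := card_le_three
  omega

end Pool.Agent.V11327.FT
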