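import Pool.Agent.V11327.FTdet

/-! Drift inequalities. -/

set_option autoImplicit false

namespace Pool.Agent.V11327.FT

open Finset

/-- `n` times the probability that the new vertex is attached to `k` -/
noncomputable def S (w : ℕ → ℕ) (n k : ℕ) : ℝ :=
  ∑ u ∈ range n, if Adj w n u k then 1 / (deg w n u : ℝ) else 0

noncomputable def phi (d : ℕ) : ℝ := if d ≤ 1 then 0 else if d = 2 then 5 / 6 else 1

noncomputable def dphi (d : ℕ) : ℝ := phi (d + 1) - phi d

theorem phi_nonneg (d : ℕ) : 0 ≤ phi d := by unfold phi; split_ifs <;> norm_num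

theorem dphi_one : dphi 1 = 5 / 6 := by unfold dphi phi; norm_num
theorem dphi_two : dphi 2 = 1 / 6 := by unfold dphi phi; norm_num
theorem dphi_ge (d : ℕ) (hd : 3 ≤ d) : dphi d = 0 := by
  unfold dphi phi
  rw [if_neg (by omega), if_neg (by omega), if_neg (by omega), if_neg (by omega)]; norm_num

theorem dphi_nonneg (d : ℕ) : 0 ≤ dphi d := by
  rcases Nat.lt_or_ge d 3 with h | h
  · interval_cases d
    · unfold dphi phi; norm_num
    · rw [dphi_one]; norm_num
    · rw [dphi_two]; norm_num
  · rw [dphi_ge d h]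

theorem dphi_le (d : ℕ) (hd : 2 ≤ d) : dphi d ≤ 1 / 6 := by
  rcases Nat.lt_or_ge d 3 with h | h
  · have : d = 2 := by omega
    subst this; rw [dphi_two]
  · rw [dphi_ge d h]; norm_num

theorem dphi_le' (d : ℕ) (hd : 1 ≤ d) : dphi d ≤ 5 / 6 := by
  rcases Nat.lt_or_ge d 2 with h | h
  · have : d = 1 := by omega
    subst this; rw [dphi_one]
  · have := dphi_le d h; linarith

/-- pair function -/
noncomputable def tt (a b : ℕ) : ℝ := dphi b / a

/-- recharged pair function -/
noncomputable def hh (a b : ℕ) : ℝ :=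
  if a = 1 then (if b = 1 then tt 1 1 else 0) else if b = 1 then tt a 1 + tt 1 a else tt a b

theorem tt_hh (a b : ℕ) : (tt a b - hh a b) + (tt b a - hh b a) = 0 := by
  unfold hh
  by_cases ha : a = 1
  · subst ha
    by_cases hb : b = 1
    · subst hb; simp
    · simp [hb]
  · by_cases hb : b = 1
    · subst hb; simp [ha]
    · simp [ha, hb]

theorem S_eq_sum (w : ℕ → ℕ) (n : ℕ) (g : ℕ → ℝ) :
    ∑ k ∈ range n, S w n k * g k
      = ∑ u ∈ range n, ∑ k ∈ range n, if Adj w n u k then g k / (deg w n u : ℝ) else 0 := by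
  unfold S
  rw [sum_comm' (s := range n) (t := fun _ => range n) (t' := range n) (s' := fun _ => range n)
    (by simp)]
  refine sum_congr rfl fun k _ => ?_
  rw [sum_mul]
  refine sum_congr rfl fun u _ => ?_
  split_ifs
  · ring
  · ring

theorem swap_zero (w : ℕ → ℕ) (n : ℕ) (f : ℕ → ℕ → ℝ) (hf : ∀ a b, f a b + f b a = 0) :
    ∑ u ∈ range n, ∑ k ∈ range n, (if Adj w n u k then f (deg w n u) (deg w n k) else 0) = 0 := by
  have h1 : ∑ u ∈ range n, ∑ k ∈ range n, (if Adj w n u k then f (deg w n u) (deg w n k) else 0)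
      = ∑ u ∈ range n, ∑ k ∈ range n, (if Adj w n u k then f (deg w n k) (deg w n u) else 0) := by
    rw [sum_comm]
    refine sum_congr rfl fun u _ => sum_congr rfl fun k _ => ?_
    by_cases h : Adj w n u k
    · rw [if_pos h, if_pos ((adj_symm w n u k).1 h)]
    · rw [if_neg h, if_neg (fun h' => h ((adj_symm w n k u).1 h'))]
  have h2 : ∑ u ∈ range n, ∑ k ∈ range n, (if Adj w n u k then f (deg w n u) (deg w n k) else 0)
      + ∑ u ∈ range n, ∑ k ∈ range n, (if Adj w n u k then f (deg w n k) (deg w n u) else 0) = 0 := by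
    rw [← sum_add_distrib]
    refine sum_eq_zero fun u _ => ?_
    rw [← sum_add_distrib]
    refine sum_eq_zero fun k _ => ?_
    split_ifs
    · exact hf _ _
    · ring
  linarith

theorem vertex_bound {w : ℕ → ℕ} (hw : Valid w) {n : ℕ} (hn : 4 ≤ n) (u : ℕ) (hu : u < n) :
    ∑ k ∈ range n, (if Adj w n u k then hh (deg w n u) (deg w n k) else 0)
      ≤ 5 / 6 * phi (deg w n u) := by
  rw [← sum_filter]
  set N := (range n).filter fun k => Adj w n u k with hN
  have hcard : N.card = deg w n u := rfl
  have hdk : ∀ k ∈ N, 1 ≤ deg w n k := fun k hk =>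
    one_le_deg hw (by omega) k (mem_range.1 (mem_filter.1 hk).1)
  have hd1 := one_le_deg hw (show 2 ≤ n by omega) u hu
  rcases Nat.lt_or_ge (deg w n u) 2 with h | h
  · have h1 : deg w n u = 1 := by omega
    rw [h1]
    have : ∀ k ∈ N, hh 1 (deg w n k) = 0 := by
      intro k hk
      have hk1 : deg w n k ≠ 1 := fun hk1 =>
        no_adj_leaves hw (by omega) (mem_filter.1 hk).2 h1 hk1
      unfold hh; simp [hk1]
    rw [sum_congr rfl this]
    unfold phi; simp
  · rcases Nat.lt_or_ge (deg w n u) 3 with h3 | h3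
    · have h2 : deg w n u = 2 := by omega
      rw [h2]
      rw [h2] at hcard
      obtain ⟨b, c, hbc, hNbc⟩ := card_eq_two.1 hcard
      have hb : b ∈ N := by rw [hNbc]; simp
      have hc : c ∈ N := by rw [hNbc]; simp
      rw [hNbc, sum_pair hbc]
      have hv1 : ∀ k ∈ N, hh 2 (deg w n k) ≤ 7 / 12 := by
        intro k hk
        unfold hh
        rw [if_neg (by norm_num)]
        split_ifs with h5
        · unfold tt; rw [dphi_one, dphi_two]; norm_num
        · unfold tt
          have := dphi_le (deg w n k) (by have := hdk k hk; omega)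
          push_cast; linarith
      have hv2 : ∀ k ∈ N, deg w n k ≠ 1 → hh 2 (deg w n k) ≤ 1 / 12 := by
        intro k hk h5
        unfold hh
        rw [if_neg (by norm_num), if_neg h5]
        unfold tt
        have := dphi_le (deg w n k) (by have := hdk k hk; omega)
        push_cast; linarith
      have hp : phi 2 = 5 / 6 := by unfold phi; norm_num
      rw [hp]
      by_cases hb1 : deg w n b = 1
      · have hc1 : deg w n c ≠ 1 := fun hc1 =>
          one_leaf hw hn h2 (mem_filter.1 hb).2 (mem_filter.1 hc).2 hbc hb1 hc1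
        have a1 := hv1 b hb
        have a2 := hv2 c hc hc1
        linarith
      · have a1 := hv2 b hb hb1
        have a2 := hv1 c hc
        linarith
    · have hp : phi (deg w n u) = 1 := by
        unfold phi; rw [if_neg (by omega), if_neg (by omega)]
      rw [hp]
      have hpos : (0 : ℝ) < deg w n u := by
        have : 0 < deg w n u := by omega
        exact_mod_cast this
      have hv : ∀ k ∈ N, hh (deg w n u) (deg w n k) ≤ 5 / 6 / (deg w n u : ℝ) := by
        intro k hk
        unfold hh
        rw [if_neg (by omega)]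
        split_ifs with h5
        · unfold tt; rw [dphi_one, dphi_ge _ h3]; simp
        · unfold tt
          exact div_le_div_of_nonneg_right (dphi_le' _ (hdk k hk)) hpos.le
      refine (sum_le_card_nsmul N _ _ hv).trans ?_
      rw [hcard, nsmul_eq_mul]
      rw [mul_div_cancel₀ _ hpos.ne']
      norm_num

/-- the main drift inequality -/
theorem drift_phi {w : ℕ → ℕ} (hw : Valid w) {n : ℕ} (hn : 4 ≤ n) :
    ∑ k ∈ range n, S w n k * dphi (deg w n k) ≤ 5 / 6 * ∑ u ∈ range n, phi (deg w n u) := by
  rw [S_eq_sum]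
  have h1 := swap_zero w n (fun a b => tt a b - hh a b) tt_hh
  have h2 : ∑ u ∈ range n, ∑ k ∈ range n, (if Adj w n u k then dphi (deg w n k) / (deg w n u : ℝ) else 0)
      = ∑ u ∈ range n, ∑ k ∈ range n, (if Adj w n u k then tt (deg w n u) (deg w n k)
          - hh (deg w n u) (deg w n k) else 0)
        + ∑ u ∈ range n, ∑ k ∈ range n, (if Adj w n u k then hh (deg w n u) (deg w n k) else 0) := by
    rw [← sum_add_distrib]
    refine sum_congr rfl fun u _ => ?_
    rw [← sum_add_distrib]
    refine sum_congr rfl fun k _ => ?_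
    split_ifs
    · unfold tt; ring
    · ring
  rw [h2, h1, zero_add, mul_sum]
  exact sum_le_sum fun u hu => vertex_bound hw hn u (mem_range.1 hu)

theorem S_nonneg (w : ℕ → ℕ) (n k : ℕ) : 0 ≤ S w n k :=
  sum_nonneg fun u _ => by split_ifs <;> positivity

theorem S_le_deg {w : ℕ → ℕ} (hw : Valid w) {n : ℕ} (hn : 2 ≤ n) (k : ℕ) :
    S w n k ≤ deg w n k := by
  unfold S deg
  rw [card_filter, Nat.cast_sum]
  refine sum_le_sum fun u hu => ?_
  by_cases h : Adj w n u k
  · rw [if_pos h, if_pos ((adj_symm w n u k).1 h)]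
    have h1 : (1 : ℝ) ≤ (((range n).filter fun k => Adj w n u k).card : ℝ) := by
      have := one_le_deg hw hn u (mem_range.1 hu)
      exact_mod_cast this
    rw [Nat.cast_one]
    exact div_le_one_of_le₀ h1 (by linarith)
  · rw [if_neg h]
    positivity

/-- number of vertices of degree at least two -/
noncomputable def X (w : ℕ → ℕ) (n : ℕ) : ℝ := ∑ u ∈ range n, if 2 ≤ deg w n u then (1 : ℝ) else 0

/-- excess degree of the vertices `m, …, n - 1` -/
noncomputable def R (w : ℕ → ℕ) (m n : ℕ) : ℝ := ∑ k ∈ Ico m n, ((deg w n k : ℝ) - 1)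

theorem X_le_phi (w : ℕ → ℕ) (n : ℕ) : X w n ≤ 6 / 5 * ∑ u ∈ range n, phi (deg w n u) := by
  unfold X
  rw [mul_sum]
  refine sum_le_sum fun u _ => ?_
  unfold phi
  split_ifs <;> first | omega | norm_num

theorem drift_R {w : ℕ → ℕ} (hw : Valid w) {n : ℕ} (m : ℕ) (hn : 3 ≤ n) :
    ∑ k ∈ Ico m n, S w n k ≤ R w m n + 2 * X w n := by
  have hsub : Ico m n ⊆ range n := fun x hx => mem_range.2 (mem_Ico.1 hx).2
  have h1 : ∑ k ∈ Ico m n, (if deg w n k = 1 then S w n k else 0) ≤ X w n := by
    have h2 : ∑ k ∈ Ico m n, (if deg w n k = 1 then S w n k else 0)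
        ≤ ∑ k ∈ range n, S w n k * (if deg w n k = 1 then 1 else 0) := by
      refine (sum_le_sum_of_subset_of_nonneg hsub fun k _ _ => ?_).trans (sum_le_sum fun k _ => ?_)
      · split_ifs
        · exact S_nonneg _ _ _
        · exact le_rfl
      · split_ifs <;> simp
    refine h2.trans ?_
    rw [S_eq_sum]
    unfold X
    refine sum_le_sum fun u hu => ?_
    rw [mem_range] at hu
    have hd1 := one_le_deg hw (show 2 ≤ n by omega) u hu
    rw [← sum_filter]
    set N := (range n).filter fun k => Adj w n u k with hN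
    have hcard : N.card = deg w n u := rfl
    by_cases h2' : 2 ≤ deg w n u
    · rw [if_pos h2']
      have hpos : (0 : ℝ) < deg w n u := by
        have : 0 < deg w n u := by omega
        exact_mod_cast this
      have hv : ∀ k ∈ N, (if deg w n k = 1 then (1 : ℝ) else 0) / (deg w n u : ℝ)
          ≤ 1 / (deg w n u : ℝ) := by
        intro k _
        refine div_le_div_of_nonneg_right ?_ hpos.le
        split_ifs <;> norm_num
      refine (sum_le_card_nsmul N _ _ hv).trans ?_
      rw [hcard, nsmul_eq_mul, mul_one_div_cancel hpos.ne']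
    · rw [if_neg h2']
      have h1 : deg w n u = 1 := by omega
      refine le_of_eq (sum_eq_zero fun k hk => ?_)
      have hk1 : deg w n k ≠ 1 := fun hk1 =>
        no_adj_leaves hw (by omega) (mem_filter.1 hk).2 h1 hk1
      rw [if_neg hk1, zero_div]
  have h3 : ∑ k ∈ Ico m n, (if deg w n k = 1 then 0 else S w n k)
      ≤ R w m n + X w n := by
    unfold R X
    have h4 : ∑ k ∈ Ico m n, (if 2 ≤ deg w n k then (1 : ℝ) else 0)
        ≤ ∑ u ∈ range n, if 2 ≤ deg w n u then (1 : ℝ) else 0 :=
      sum_le_sum_of_subset_of_nonneg hsub fun k _ _ => by split_ifs <;> norm_num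
    refine le_trans ?_ (add_le_add_right h4 _)
    rw [← sum_add_distrib]
    refine sum_le_sum fun k hk => ?_
    have hkn : k < n := (mem_Ico.1 hk).2
    have hd1 := one_le_deg hw (show 2 ≤ n by omega) k hkn
    have hd1' : (1 : ℝ) ≤ deg w n k := by exact_mod_cast hd1
    have := S_le_deg hw (show 2 ≤ n by omega) k
    split_ifs with a b b
    · omega
    · linarith
    · linarith
    · omega
  have h5 : ∑ k ∈ Ico m n, S w n k = ∑ k ∈ Ico m n, (if deg w n k = 1 then S w n k else 0)
      + ∑ k ∈ Ico m n, (if deg w n k = 1 then 0 else S w n k) := by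
    rw [← sum_add_distrib]
    refine sum_congr rfl fun k _ => ?_
    split_ifs <;> simp
  rw [h5]; linarith

end Pool.Agent.V11327.FT
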