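import Pool.Agent.V11327.FTprob

/-! Expectations and the final argument. -/

set_option autoImplicit false

namespace Pool.Agent.V11327.FT

open MeasureTheory Filter Topology

noncomputable def PhiS (w : ℕ → ℕ) (n : ℕ) : ℝ := ∑ u ∈ Finset.range n, phi (deg w n u)

theorem phi_le_one (d : ℕ) : phi d ≤ 1 := by unfold phi; split_ifs <;> norm_num

theorem PhiS_nonneg (w : ℕ → ℕ) (n : ℕ) : 0 ≤ PhiS w n := Finset.sum_nonneg fun _ _ => phi_nonneg _

theorem PhiS_le (w : ℕ → ℕ) (n : ℕ) : PhiS w n ≤ n := by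
  unfold PhiS
  refine (Finset.sum_le_card_nsmul _ _ 1 fun u _ => phi_le_one _).trans ?_
  simp

theorem PhiS_succ {w : ℕ → ℕ} (hw : Valid w) {n : ℕ} (hn : 2 ≤ n) :
    PhiS w (n + 1) = PhiS w n + ∑ k ∈ Finset.range n, (if w n = k then 1 else 0) * dphi (deg w n k) := by
  unfold PhiS
  rw [Finset.sum_range_succ, deg_new hw hn]
  have h1 : phi 1 = 0 := by unfold phi; simp
  rw [h1, add_zero, ← Finset.sum_add_distrib]
  refine Finset.sum_congr rfl fun u hu => ?_
  rw [deg_succ hw hn (Finset.mem_range.1 hu)]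
  split_ifs
  · unfold dphi; ring
  · simp

theorem R_succ {w : ℕ → ℕ} (hw : Valid w) {m n : ℕ} (hn : 2 ≤ n) (hm : m ≤ n) :
    R w m (n + 1) = R w m n + ∑ k ∈ Finset.Ico m n, (if w n = k then 1 else 0) := by
  unfold R
  rw [Finset.sum_Ico_succ_top hm, deg_new hw hn]
  simp only [Nat.cast_one, sub_self, add_zero]
  rw [← Finset.sum_add_distrib]
  refine Finset.sum_congr rfl fun u hu => ?_
  rw [deg_succ hw hn (Finset.mem_Ico.1 hu).2]
  push_cast
  ring

theorem R_nonneg {w : ℕ → ℕ} (hw : Valid w) {m n : ℕ} (hn : 2 ≤ n) : 0 ≤ R w m n :=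
  Finset.sum_nonneg fun k hk => by
    have := one_le_deg hw hn k (Finset.mem_Ico.1 hk).2
    have h1 : (1 : ℝ) ≤ deg w n k := by exact_mod_cast this
    linarith

/-- the degree identity -/
theorem R_eq {w : ℕ → ℕ} (hw : Valid w) {m n : ℕ} (hn : 2 ≤ n) (hm : m ≤ n) :
    R w m n = (n : ℝ) - 2 + m - ∑ v ∈ Finset.range m, (deg w n v : ℝ) := by
  have h1 := sum_deg hw hn
  have h2 : ∑ v ∈ Finset.range n, (deg w n v : ℝ) = 2 * ((n : ℝ) - 1) := by
    have h3 : ((∑ v ∈ Finset.range n, deg w n v : ℕ) : ℝ) = ((2 * (n - 1) : ℕ) : ℝ) := by rw [h1]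
    push_cast [Nat.cast_sub (show 1 ≤ n by omega)] at h3
    exact h3
  have h3 : ∑ v ∈ Finset.range m, (deg w n v : ℝ) + ∑ v ∈ Finset.Ico m n, (deg w n v : ℝ)
      = ∑ v ∈ Finset.range n, (deg w n v : ℝ) := Finset.sum_range_add_sum_Ico _ hm
  unfold R
  rw [Finset.sum_sub_distrib, Finset.sum_const, Nat.card_Ico, nsmul_eq_mul, mul_one,
    Nat.cast_sub hm]
  linarith

theorem R_le {w : ℕ → ℕ} (hw : Valid w) {m n : ℕ} (hn : 2 ≤ n) (hm : m ≤ n) : R w m n ≤ 2 * n := by
  rw [R_eq hw hn hm]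
  have h1 : 0 ≤ ∑ v ∈ Finset.range m, (deg w n v : ℝ) := Finset.sum_nonneg fun _ _ => Nat.cast_nonneg _
  have h2 : (m : ℝ) ≤ n := by exact_mod_cast hm
  linarith

theorem X_nonneg (w : ℕ → ℕ) (n : ℕ) : 0 ≤ X w n :=
  Finset.sum_nonneg fun _ _ => by split_ifs <;> norm_num

theorem X_le (w : ℕ → ℕ) (n : ℕ) : X w n ≤ n := by
  unfold X
  refine (Finset.sum_le_card_nsmul _ _ 1 fun u _ => by split_ifs <;> norm_num).trans ?_
  simp

section
variable {Ω : Type} [mΩ : MeasurableSpace Ω] {P : Measure Ω} [IsProbabilityMeasure P]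
  {ℱ : Filtration ℕ mΩ} {V W : ℕ → Ω → ℕ} (h : IsFriendTree P ℱ V W)

include h in
theorem int_Phi (n : ℕ) : Integrable (fun ω => PhiS (fun i => W i ω) n) P := by
  refine Integrable.of_bound ((local_meas h n (fun w => PhiS w n) fun a b hab => by
    unfold PhiS
    exact Finset.sum_congr rfl fun u _ => by rw [deg_congr n a b hab u]).mono
      (ℱ.le n) le_rfl).aestronglyMeasurable n (ae_of_all _ fun ω => ?_)
  rw [Real.norm_of_nonneg (PhiS_nonneg _ _)]
  exact PhiS_le _ _

include h in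
theorem int_X (n : ℕ) : Integrable (fun ω => X (fun i => W i ω) n) P := by
  refine Integrable.of_bound ((local_meas h n (fun w => X w n) fun a b hab => by
    unfold X
    exact Finset.sum_congr rfl fun u _ => by rw [deg_congr n a b hab u]).mono
      (ℱ.le n) le_rfl).aestronglyMeasurable n (ae_of_all _ fun ω => ?_)
  rw [Real.norm_of_nonneg (X_nonneg _ _)]
  exact X_le _ _

include h in
theorem meas_R (m n : ℕ) : Measurable[ℱ n] (fun ω => R (fun i => W i ω) m n) :=
  local_meas h n (fun w => R w m n) fun a b hab => by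
    unfold R
    exact Finset.sum_congr rfl fun u _ => by rw [deg_congr n a b hab u]

include h in
theorem int_R (m n : ℕ) (hn : 2 ≤ n) (hm : m ≤ n) : Integrable (fun ω => R (fun i => W i ω) m n) P := by
  refine Integrable.of_bound ((meas_R h m n).mono (ℱ.le n) le_rfl).aestronglyMeasurable (2 * n)
    (ae_of_all _ fun ω => ?_)
  rw [Real.norm_of_nonneg (R_nonneg (valid h ω) hn)]
  exact R_le (valid h ω) hn hm

theorem ind_eq (n k : ℕ) (ω : Ω) :
    ({ω | W n ω = k}.indicator fun _ => (1 : ℝ)) ω = if W n ω = k then 1 else 0 := by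
  by_cases hω : W n ω = k
  · rw [if_pos hω, Set.indicator_of_mem (show ω ∈ {ω | W n ω = k} from hω)]
  · rw [if_neg hω, Set.indicator_of_notMem (show ω ∉ {ω | W n ω = k} from hω)]

include h in
theorem Phi_step (n : ℕ) (hn : 4 ≤ n) :
    ∫ ω, PhiS (fun i => W i ω) (n + 1) ∂P ≤ (1 + 5 / 6 / (n : ℝ)) * ∫ ω, PhiS (fun i => W i ω) n ∂P := by
  have hgm : ∀ k, Measurable[ℱ n] (fun ω => dphi (deg (fun i => W i ω) n k)) := fun k =>
    local_meas h n (fun w => dphi (deg w n k)) fun a b hab => by rw [deg_congr n a b hab k]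
  have hgb : ∀ (k : ℕ) (ω : Ω), |dphi (deg (fun i => W i ω) n k)| ≤ 1 := by
    intro k ω
    rw [abs_of_nonneg (dphi_nonneg _)]
    unfold dphi
    have := phi_le_one (deg (fun i => W i ω) n k + 1)
    have := phi_nonneg (deg (fun i => W i ω) n k)
    linarith
  have h1 := step_int h n (by omega) (fun k ω => dphi (deg (fun i => W i ω) n k)) hgm 1 hgb
    (Finset.range n) le_rfl Set.univ MeasurableSet.univ
  simp only [setIntegral_univ, ind_eq] at h1
  have hI : Integrable (fun ω => ∑ k ∈ Finset.range n,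
      (if W n ω = k then (1 : ℝ) else 0) * dphi (deg (fun i => W i ω) n k)) P := by
    have : (fun ω => ∑ k ∈ Finset.range n,
      (if W n ω = k then (1 : ℝ) else 0) * dphi (deg (fun i => W i ω) n k))
      = fun ω => PhiS (fun i => W i ω) (n + 1) - PhiS (fun i => W i ω) n := by
      funext ω; rw [PhiS_succ (valid h ω) (show 2 ≤ n by omega)]; ring
    rw [this]
    exact (int_Phi h (n + 1)).sub (int_Phi h n)
  have e : ∀ ω, PhiS (fun i => W i ω) (n + 1) = PhiS (fun i => W i ω) n
      + ∑ k ∈ Finset.range n, (if W n ω = k then (1 : ℝ) else 0) * dphi (deg (fun i => W i ω) n k) :=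
    fun ω => PhiS_succ (valid h ω) (show 2 ≤ n by omega)
  simp only [e]
  rw [integral_add (int_Phi h n) hI, h1, add_mul, one_mul]
  refine add_le_add_right ?_ _
  rw [← integral_const_mul]
  refine integral_mono_of_nonneg (ae_of_all _ fun ω => ?_) ((int_Phi h n).const_mul _)
    (ae_of_all _ fun ω => ?_)
  · exact mul_nonneg (by positivity) (Finset.sum_nonneg fun k _ =>
      mul_nonneg (S_nonneg _ _ _) (dphi_nonneg _))
  · have := drift_phi (valid h ω) hn
    have h2 := mul_le_mul_of_nonneg_left this (show (0 : ℝ) ≤ 1 / n by positivity)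
    refine h2.trans (le_of_eq ?_)
    unfold PhiS; ring

include h in
theorem R_step (m n : ℕ) (hn : 3 ≤ n) (hm : m ≤ n) :
    ∫ ω, R (fun i => W i ω) m (n + 1) ∂P ≤ (1 + 1 / (n : ℝ)) * ∫ ω, R (fun i => W i ω) m n ∂P
      + 2 / (n : ℝ) * ∫ ω, X (fun i => W i ω) n ∂P := by
  have h1 := step_int h n (by omega) (fun _ _ => 1) (fun _ => measurable_const) 1 (by simp)
    (Finset.Ico m n) (fun x hx => Finset.mem_range.2 (Finset.mem_Ico.1 hx).2) Set.univ
    MeasurableSet.univ
  simp only [setIntegral_univ, ind_eq, mul_one] at h1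
  have hI : Integrable (fun ω => ∑ k ∈ Finset.Ico m n, (if W n ω = k then (1 : ℝ) else 0)) P := by
    have : (fun ω => ∑ k ∈ Finset.Ico m n, (if W n ω = k then (1 : ℝ) else 0))
      = fun ω => R (fun i => W i ω) m (n + 1) - R (fun i => W i ω) m n := by
      funext ω; rw [R_succ (valid h ω) (show 2 ≤ n by omega) hm]; ring
    rw [this]
    exact (int_R h m (n + 1) (by omega) (by omega)).sub (int_R h m n (by omega) hm)
  have e : ∀ ω, R (fun i => W i ω) m (n + 1) = R (fun i => W i ω) m n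
      + ∑ k ∈ Finset.Ico m n, (if W n ω = k then (1 : ℝ) else 0) :=
    fun ω => R_succ (valid h ω) (show 2 ≤ n by omega) hm
  simp only [e]
  rw [integral_add (int_R h m n (by omega) hm) hI, h1, add_mul, one_mul, add_assoc]
  refine add_le_add_right ?_ _
  rw [← integral_const_mul, ← integral_const_mul, ← integral_add
    ((int_R h m n (by omega) hm).const_mul _) ((int_X h n).const_mul _)]
  refine integral_mono_of_nonneg (ae_of_all _ fun ω => ?_)
    (((int_R h m n (by omega) hm).const_mul _).add ((int_X h n).const_mul _))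
    (ae_of_all _ fun ω => ?_)
  · exact mul_nonneg (by positivity) (Finset.sum_nonneg fun k _ => S_nonneg _ _ _)
  · have := drift_R (valid h ω) m hn
    have h2 := mul_le_mul_of_nonneg_left this (show (0 : ℝ) ≤ 1 / n by positivity)
    refine h2.trans (le_of_eq ?_)
    ring

/-- `c n = E Φ_n / n` -/
noncomputable def c (P : Measure Ω) (W : ℕ → Ω → ℕ) (n : ℕ) : ℝ :=
  (∫ ω, PhiS (fun i => W i ω) n ∂P) / n

theorem c_nonneg (n : ℕ) : 0 ≤ c P W n :=
  div_nonneg (integral_nonneg fun _ => PhiS_nonneg _ _) (Nat.cast_nonneg _)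

include h in
theorem c_step (n : ℕ) (hn : 4 ≤ n) : c P W (n + 1) ≤ c P W n - c P W n / (6 * ((n : ℝ) + 1)) := by
  have h1 := Phi_step h n hn
  unfold c
  set a := ∫ ω, PhiS (fun i => W i ω) n ∂P
  have hn0 : (0 : ℝ) < n := by
    have : 0 < n := by omega
    exact_mod_cast this
  push_cast
  rw [div_le_iff₀ (by positivity)]
  refine h1.trans (le_of_eq ?_)
  field_simp
  ring

include h in
theorem c_anti (m n : ℕ) (hm : 4 ≤ m) (hmn : m ≤ n) : c P W n ≤ c P W m := by
  induction n, hmn using Nat.le_induction with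
  | base => exact le_rfl
  | succ n hn ih =>
    have h1 := c_step h n (by omega)
    have h2 : 0 ≤ c P W n / (6 * ((n : ℝ) + 1)) := div_nonneg (c_nonneg n) (by positivity)
    linarith

include h in
theorem c_small (ε : ℝ) (hε : 0 < ε) : ∃ m, 4 ≤ m ∧ c P W m < ε := by
  by_contra hcon
  push Not at hcon
  have key : ∀ j : ℕ, c P W (4 + j) ≤ c P W 4 - ε / 6 * ∑ i ∈ Finset.range j, 1 / ((4 + i : ℕ) + 1 : ℝ) := by
    intro j
    induction j with
    | zero => simp
    | succ j ih =>
      have h1 := c_step h (4 + j) (by omega)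
      have h2 := hcon (4 + j) (by omega)
      rw [Finset.sum_range_succ, mul_add]
      have h3 : ε / 6 * (1 / (((4 + j : ℕ) : ℝ) + 1)) ≤ c P W (4 + j) / (6 * (((4 + j : ℕ) : ℝ) + 1)) := by
        rw [div_mul_div_comm, mul_one]
        exact div_le_div_of_nonneg_right h2 (by positivity)
      have e : 4 + (j + 1) = 4 + j + 1 := by omega
      rw [e]
      linarith
  have hdiv : ¬ Summable (fun i : ℕ => 1 / (((4 + i : ℕ) : ℝ) + 1)) := by
    intro hs
    have h5 : Summable (fun i : ℕ => 1 / ((i : ℝ))) := by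
      refine (summable_nat_add_iff 5).1 (hs.congr fun i => ?_)
      push_cast; ring_nf
    exact Real.not_summable_one_div_natCast h5
  have h3 := not_summable_iff_tendsto_nat_atTop_of_nonneg
    (f := fun i : ℕ => 1 / (((4 + i : ℕ) : ℝ) + 1)) (fun i => by positivity) |>.1 hdiv
  obtain ⟨j, hj⟩ := (h3.eventually_gt_atTop (c P W 4 * 6 / ε)).exists
  have h4 := key j
  have h5 := c_nonneg (P := P) (W := W) (4 + j)
  rw [div_lt_iff₀ hε] at hj
  nlinarith

include h in
theorem rho_bound (m n : ℕ) (hm : 4 ≤ m) (hmn : m ≤ n) :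
    (∫ ω, R (fun i => W i ω) m n ∂P) / n + 72 / 5 * c P W n ≤ 72 / 5 * c P W m := by
  induction n, hmn using Nat.le_induction with
  | base =>
    have : ∀ ω, R (fun i => W i ω) m m = 0 := fun ω => by unfold R; simp
    simp [this]
  | succ n hn ih =>
    refine le_trans ?_ ih
    have h1 := R_step h m n (by omega) hn
    have h2 := c_step h n (by omega)
    set r := ∫ ω, R (fun i => W i ω) m n ∂P
    set r' := ∫ ω, R (fun i => W i ω) m (n + 1) ∂P
    have hn0 : (0 : ℝ) < n := by
      have : 0 < n := by omega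
      exact_mod_cast this
    have hX : ∫ ω, X (fun i => W i ω) n ∂P ≤ 6 / 5 * (n * c P W n) := by
      unfold c
      rw [mul_div_cancel₀ _ hn0.ne', ← integral_const_mul]
      exact integral_mono (int_X h n) ((int_Phi h n).const_mul _) fun ω => X_le_phi _ _
    have h3 : r' / ((n + 1 : ℕ) : ℝ) ≤ r / n + 12 / 5 * c P W n / ((n : ℝ) + 1) := by
      push_cast
      rw [div_le_iff₀ (by positivity)]
      have h4 : 2 / (n : ℝ) * ∫ ω, X (fun i => W i ω) n ∂P ≤ 12 / 5 * c P W n := by
        have h5 := mul_le_mul_of_nonneg_left hX (show (0 : ℝ) ≤ 2 / n by positivity)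
        refine h5.trans (le_of_eq ?_)
        field_simp; ring
      have h5 : (r / n + 12 / 5 * c P W n / ((n : ℝ) + 1)) * ((n : ℝ) + 1)
          = (1 + 1 / (n : ℝ)) * r + 12 / 5 * c P W n := by
        field_simp
      rw [h5]; linarith
    have h6 : 72 / 5 * (c P W n / (6 * ((n : ℝ) + 1))) = 12 / 5 * c P W n / ((n : ℝ) + 1) := by
      field_simp; ring
    linarith

include h in
/-- Almost surely the hub masses sum to one. -/
theorem main : ∀ᵐ ω ∂P, HasSum (fun v => Z W v ω) 1 := by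
  have hconv : ∀ᵐ ω ∂P, ∀ v, Tendsto (fun n : ℕ => (deg (fun i => W i ω) n v : ℝ) / n) atTop
      (𝓝 (Z W v ω)) := by
    rw [ae_all_iff]
    intro v
    filter_upwards [deg_conv h v] with ω ⟨c, hc⟩
    have : Z W v ω = c := hc.liminf_eq
    rw [this]; exact hc
  -- the limit of R_n / n
  have hRlim : ∀ m : ℕ, ∀ᵐ ω ∂P, Tendsto (fun n : ℕ => R (fun i => W i ω) m n / n) atTop
      (𝓝 (1 - ∑ v ∈ Finset.range m, Z W v ω)) := by
    intro m
    filter_upwards [hconv] with ω hω
    have h1 : Tendsto (fun n : ℕ => 1 + ((m : ℝ) - 2) / n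
        - ∑ v ∈ Finset.range m, (deg (fun i => W i ω) n v : ℝ) / n) atTop
        (𝓝 (1 + 0 - ∑ v ∈ Finset.range m, Z W v ω)) :=
      (tendsto_const_nhds.add (tendsto_const_div_atTop_nhds_zero_nat _)).sub
        (tendsto_finsetSum _ fun v _ => hω v)
    rw [add_zero] at h1
    refine h1.congr' ?_
    filter_upwards [eventually_ge_atTop (max m 2)] with n hn
    have hn2 : 2 ≤ n := le_trans (le_max_right _ _) hn
    have hn0 : (n : ℝ) ≠ 0 := by
      have : 0 < n := by omega
      positivity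
    rw [R_eq (valid h ω) hn2 (le_trans (le_max_left _ _) hn), ← Finset.sum_div]
    field_simp
    ring
  have hZ0 : ∀ᵐ ω ∂P, ∀ v, 0 ≤ Z W v ω := by
    filter_upwards [hconv] with ω hω v
    exact ge_of_tendsto' (hω v) fun n => by positivity
  have hpart : ∀ᵐ ω ∂P, ∀ m : ℕ, 0 ≤ 1 - ∑ v ∈ Finset.range m, Z W v ω := by
    rw [ae_all_iff]
    intro m
    filter_upwards [hRlim m] with ω hω
    refine ge_of_tendsto hω ?_
    filter_upwards [eventually_ge_atTop 2] with n hn
    exact div_nonneg (R_nonneg (valid h ω) hn) (Nat.cast_nonneg _)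
  -- expectations
  have hmeasU : ∀ m : ℕ, AEStronglyMeasurable (fun ω => 1 - ∑ v ∈ Finset.range m, Z W v ω) P := by
    intro m
    refine aestronglyMeasurable_of_tendsto_ae atTop (f := fun n ω => R (fun i => W i ω) m n / n)
      (fun n => ?_) (hRlim m)
    exact (((meas_R h m n).mono (ℱ.le n) le_rfl).div_const _).aestronglyMeasurable
  have hintU : ∀ m : ℕ, Integrable (fun ω => 1 - ∑ v ∈ Finset.range m, Z W v ω) P := by
    intro m
    refine Integrable.of_bound (hmeasU m) 1 ?_
    filter_upwards [hpart, hZ0] with ω h1 h2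
    rw [Real.norm_of_nonneg (h1 m)]
    have : 0 ≤ ∑ v ∈ Finset.range m, Z W v ω := Finset.sum_nonneg fun v _ => h2 v
    linarith
  have hexp : ∀ m : ℕ, 4 ≤ m → ∫ ω, (1 - ∑ v ∈ Finset.range m, Z W v ω) ∂P ≤ 72 / 5 * c P W m := by
    intro m hm
    have h1 : Tendsto (fun n : ℕ => ∫ ω, R (fun i => W i ω) m (n + m) / ((n + m : ℕ) : ℝ) ∂P) atTop
        (𝓝 (∫ ω, (1 - ∑ v ∈ Finset.range m, Z W v ω) ∂P)) := by
      refine tendsto_integral_of_dominated_convergence (fun _ => 2) (fun n => ?_)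
        (integrable_const _) (fun n => ae_of_all _ fun ω => ?_) ?_
      · exact (((meas_R h m (n + m)).mono (ℱ.le _) le_rfl).div_const _).aestronglyMeasurable
      · rw [Real.norm_of_nonneg (div_nonneg (R_nonneg (valid h ω) (by omega)) (Nat.cast_nonneg _))]
        have hpos : (0 : ℝ) < ((n + m : ℕ) : ℝ) := by
          have : 0 < n + m := by omega
          exact_mod_cast this
        rw [div_le_iff₀ hpos]
        exact R_le (valid h ω) (by omega) (by omega)
      · filter_upwards [hRlim m] with ω hω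
        exact (tendsto_add_atTop_iff_nat (f := fun n : ℕ => R (fun i => W i ω) m n / n) m).2 hω
    refine le_of_tendsto' h1 fun n => ?_
    rw [integral_div]
    have h2 := rho_bound h m (n + m) hm (by omega)
    have h3 := c_nonneg (P := P) (W := W) (n + m)
    linarith
  -- Markov
  have hinf : ∀ᵐ ω ∂P, ∀ j : ℕ, ∃ m, 1 - ∑ v ∈ Finset.range m, Z W v ω < 1 / ((j : ℝ) + 1) := by
    rw [ae_all_iff]
    intro j
    set ε : ℝ := 1 / ((j : ℝ) + 1) with hε
    have hε0 : 0 < ε := by positivity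
    have hle : ∀ m : ℕ, 4 ≤ m → P.real {ω | ∀ m : ℕ, ε ≤ 1 - ∑ v ∈ Finset.range m, Z W v ω}
        ≤ 72 / 5 * c P W m / ε := by
      intro m hm
      have h1 := mul_meas_ge_le_integral_of_nonneg (μ := P)
        (f := fun ω => 1 - ∑ v ∈ Finset.range m, Z W v ω)
        (by filter_upwards [hpart] with ω hω; exact hω m) (hintU m) ε
      rw [le_div_iff₀ hε0, mul_comm]
      refine le_trans ?_ (h1.trans (hexp m hm))
      refine mul_le_mul_of_nonneg_left (measureReal_mono fun ω hω => hω m) hε0.le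
    have h0 : P.real {ω | ∀ m : ℕ, ε ≤ 1 - ∑ v ∈ Finset.range m, Z W v ω} = 0 := by
      refine le_antisymm ?_ measureReal_nonneg
      refine le_of_forall_pos_lt_add fun δ hδ => ?_
      obtain ⟨m, hm, hcm⟩ := c_small h (δ * ε * (5 / 72)) (by positivity)
      rw [zero_add]
      refine (hle m hm).trans_lt ?_
      rw [div_lt_iff₀ hε0]
      linarith
    have h1 : P {ω | ∀ m : ℕ, ε ≤ 1 - ∑ v ∈ Finset.range m, Z W v ω} = 0 :=
      (measureReal_eq_zero_iff (measure_ne_top _ _)).1 h0
    have h2 : ∀ᵐ ω ∂P, ω ∉ {ω | ∀ m : ℕ, ε ≤ 1 - ∑ v ∈ Finset.range m, Z W v ω} :=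
      measure_eq_zero_iff_ae_notMem.1 h1
    filter_upwards [h2] with ω hω
    by_contra hcon
    push Not at hcon
    exact hω hcon
  filter_upwards [hZ0, hpart, hinf] with ω h1 h2 h3
  have hmono : Monotone (fun m : ℕ => ∑ v ∈ Finset.range m, Z W v ω) :=
    monotone_nat_of_le_succ fun m => by
      rw [Finset.sum_range_succ]; linarith [h1 m]
  have hsummable : Summable (fun v => Z W v ω) :=
    summable_of_sum_range_le h1 (c := 1) fun m => by linarith [h2 m]
  rw [hsummable.hasSum_iff_tendsto_nat]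
  refine tendsto_atTop_isLUB hmono ?_
  constructor
  · rintro _ ⟨m, rfl⟩
    have := h2 m
    simp only; linarith
  · intro b hb
    by_contra hcon
    push Not at hcon
    obtain ⟨j, hj⟩ := exists_nat_one_div_lt (show 0 < 1 - b by linarith)
    obtain ⟨m, hm⟩ := h3 j
    have : ∑ v ∈ Finset.range m, Z W v ω ≤ b := hb ⟨m, rfl⟩
    linarith

end

end Pool.Agent.V11327.FT
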