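import Pool.Agent.V11327.FTdrift

/-! Probabilistic part. -/

set_option autoImplicit false

namespace Pool.Agent.V11327.FT

open MeasureTheory Filter Topology

section
variable {Ω : Type} [mΩ : MeasurableSpace Ω] {P : Measure Ω} [IsProbabilityMeasure P]
  {ℱ : Filtration ℕ mΩ} {V W : ℕ → Ω → ℕ} (h : IsFriendTree P ℱ V W)

include h in
theorem valid (ω : Ω) : Valid (fun i => W i ω) := fun i hi => h.W_lt i hi ω

include h in
theorem local_meas (n : ℕ) {β : Type} [MeasurableSpace β] (F : (ℕ → ℕ) → β)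
    (hF : ∀ a b : ℕ → ℕ, (∀ i, 2 ≤ i → i < n → a i = b i) → F a = F b) :
    Measurable[ℱ n] (fun ω => F (fun i => W i ω)) := by
  classical
  set e : (Fin n → ℕ) → (ℕ → ℕ) := fun x i => if hi : i < n then x ⟨i, hi⟩ else 0 with he
  set rest : Ω → (Fin n → ℕ) := fun ω i => if 2 ≤ (i : ℕ) then W i ω else 0 with hrest
  have h1 : (fun ω => F (fun i => W i ω)) = fun ω => (F ∘ e) (rest ω) := by
    funext ω
    refine hF _ _ fun i hi hin => ?_
    simp [he, hrest, hi, hin]
  have h2 : Measurable[ℱ n] rest := by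
    refine @measurable_pi_lambda Ω (Fin n) (fun _ => ℕ) (ℱ n) _ rest fun i => ?_
    by_cases hi : 2 ≤ (i : ℕ)
    · have e : (fun ω => rest ω i) = W i := by funext ω; simp [hrest, hi]
      rw [e]
      exact (h.W_meas i hi).mono (ℱ.mono (Nat.succ_le_of_lt i.2)) le_rfl
    · have e : (fun ω => rest ω i) = fun _ => 0 := by funext ω; simp [hrest, hi]
      rw [e]
      exact measurable_const
  rw [h1]
  exact (Measurable.of_discrete (f := F ∘ e)).comp h2

theorem adj_congr (n : ℕ) (a b : ℕ → ℕ) (hab : ∀ i, 2 ≤ i → i < n → a i = b i) (v k : ℕ) :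
    Adj a n v k ↔ Adj b n v k := by
  have hp : ∀ i, 1 ≤ i → i < n → par a i = par b i := by
    intro i hi hin
    unfold par
    split_ifs with h
    · rfl
    · exact hab i (by omega) hin
  unfold Adj
  constructor
  · rintro (⟨h1, h2, h3⟩ | ⟨h1, h2, h3⟩)
    · exact Or.inl ⟨h1, h2, by rw [← hp v h1 h2]; exact h3⟩
    · exact Or.inr ⟨h1, h2, by rw [← hp k h1 h2]; exact h3⟩
  · rintro (⟨h1, h2, h3⟩ | ⟨h1, h2, h3⟩)
    · exact Or.inl ⟨h1, h2, by rw [hp v h1 h2]; exact h3⟩
    · exact Or.inr ⟨h1, h2, by rw [hp k h1 h2]; exact h3⟩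

theorem deg_congr (n : ℕ) (a b : ℕ → ℕ) (hab : ∀ i, 2 ≤ i → i < n → a i = b i) (v : ℕ) :
    deg a n v = deg b n v := by
  unfold deg
  congr 1
  ext k
  simp only [Finset.mem_filter]
  rw [adj_congr n a b hab v k]

theorem S_congr (n : ℕ) (a b : ℕ → ℕ) (hab : ∀ i, 2 ≤ i → i < n → a i = b i) (k : ℕ) :
    S a n k = S b n k := by
  unfold S
  refine Finset.sum_congr rfl fun u _ => ?_
  rw [deg_congr n a b hab u]
  by_cases hA : Adj a n u k
  · rw [if_pos hA, if_pos ((adj_congr n a b hab u k).1 hA)]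
  · rw [if_neg hA, if_neg (fun h' => hA ((adj_congr n a b hab u k).2 h'))]

include h in
/-- conditional law of `W n` -/
theorem step_W (n : ℕ) (hn : 2 ≤ n) (k : ℕ) (hk : k < n) :
    P[({ω | W n ω = k}.indicator fun _ => (1 : ℝ)) | ℱ n] =ᵐ[P]
      fun ω => (1 / (n : ℝ)) * S (fun i => W i ω) n k := by
  have hm : ∀ v, MeasurableSet {ω | V n ω = v ∧ W n ω = k} := by
    intro v
    have h1 : MeasurableSet[ℱ (n + 1)] {ω | V n ω = v} := h.V_meas n hn (MeasurableSet.singleton v)
    have h2 : MeasurableSet[ℱ (n + 1)] {ω | W n ω = k} := h.W_meas n hn (MeasurableSet.singleton k)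
    exact (ℱ.le (n + 1) _ h1).inter (ℱ.le (n + 1) _ h2)
  have h1 : ({ω | W n ω = k}.indicator fun _ => (1 : ℝ))
      = ∑ v ∈ Finset.range n, ({ω | V n ω = v ∧ W n ω = k}.indicator fun _ => (1 : ℝ)) := by
    funext ω
    rw [Finset.sum_apply]
    by_cases hω : W n ω = k
    · rw [Set.indicator_of_mem (show ω ∈ {ω | W n ω = k} from hω)]
      rw [Finset.sum_eq_single (V n ω)]
      · rw [Set.indicator_of_mem (show ω ∈ {ω' | V n ω' = V n ω ∧ W n ω' = k} from ⟨rfl, hω⟩)]
      · intro b _ hb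
        exact Set.indicator_of_notMem (fun h' => hb h'.1.symm) _
      · intro hV
        exact (hV (Finset.mem_range.2 (h.V_lt n hn ω))).elim
    · rw [Set.indicator_of_notMem (show ω ∉ {ω | W n ω = k} from hω)]
      symm
      exact Finset.sum_eq_zero fun v _ => Set.indicator_of_notMem (fun h' => hω h'.2) _
  have h2 : P[∑ v ∈ Finset.range n, ({ω | V n ω = v ∧ W n ω = k}.indicator fun _ => (1 : ℝ)) | ℱ n]
      =ᵐ[P] ∑ v ∈ Finset.range n, P[({ω | V n ω = v ∧ W n ω = k}.indicator fun _ => (1 : ℝ)) | ℱ n] :=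
    condExp_finsetSum (fun v _ => (integrable_const _).indicator (hm v)) _
  rw [h1]
  refine h2.trans ?_
  have h3 : ∀ᵐ ω ∂P, ∀ v ∈ Finset.range n,
      (P[({ω | V n ω = v ∧ W n ω = k}.indicator fun _ => (1 : ℝ)) | ℱ n]) ω
        = if Adj (fun i => W i ω) n v k then 1 / ((n : ℝ) * deg (fun i => W i ω) n v) else 0 := by
    rw [ae_all_iff]
    intro v
    by_cases hv : v ∈ Finset.range n
    · filter_upwards [h.step n hn v (Finset.mem_range.1 hv) k hk] with ω hω _
      exact hω
    · exact ae_of_all _ fun ω h' => (hv h').elim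
  filter_upwards [h3] with ω hω
  rw [Finset.sum_apply, Finset.sum_congr rfl hω]
  unfold S
  rw [Finset.mul_sum]
  refine Finset.sum_congr rfl fun v _ => ?_
  split_ifs
  · rw [one_div_mul_one_div]
  · ring

include h in
/-- the basic step identity -/
theorem step_int (n : ℕ) (hn : 2 ≤ n) (g : ℕ → Ω → ℝ) (hg : ∀ k, Measurable[ℱ n] (g k))
    (C : ℝ) (hC : ∀ k ω, |g k ω| ≤ C) (s : Finset ℕ) (hs : s ⊆ Finset.range n)
    (A : Set Ω) (hA : MeasurableSet[ℱ n] A) :
    ∫ ω in A, ∑ k ∈ s, (({ω | W n ω = k}.indicator fun _ => (1 : ℝ)) ω * g k ω) ∂P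
      = ∫ ω in A, (1 / (n : ℝ)) * ∑ k ∈ s, S (fun i => W i ω) n k * g k ω ∂P := by
  have hWm : ∀ k, MeasurableSet {ω | W n ω = k} := fun k =>
    ℱ.le (n + 1) _ (h.W_meas n hn (MeasurableSet.singleton k))
  have hI : ∀ k, Integrable ({ω | W n ω = k}.indicator fun _ => (1 : ℝ)) P := fun k =>
    (integrable_const _).indicator (hWm k)
  have hgm : ∀ k, Measurable (g k) := fun k => (hg k).mono (ℱ.le n) le_rfl
  have hIg : ∀ k, Integrable (fun ω => ({ω | W n ω = k}.indicator fun _ => (1 : ℝ)) ω * g k ω) P := by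
    intro k
    refine Integrable.of_bound ((hI k).aestronglyMeasurable.mul (hgm k).aestronglyMeasurable) C
      (ae_of_all _ fun ω => ?_)
    rw [norm_mul, Real.norm_eq_abs (g k ω)]
    have h1 : ‖({ω | W n ω = k}.indicator fun _ => (1 : ℝ)) ω‖ ≤ 1 := by
      by_cases hω : W n ω = k
      · rw [Set.indicator_of_mem (show ω ∈ {ω | W n ω = k} from hω)]; simp
      · rw [Set.indicator_of_notMem (show ω ∉ {ω | W n ω = k} from hω)]; simp
    calc ‖({ω | W n ω = k}.indicator fun _ => (1 : ℝ)) ω‖ * |g k ω| ≤ 1 * |g k ω| :=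
          mul_le_mul_of_nonneg_right h1 (abs_nonneg _)
      _ ≤ C := by rw [one_mul]; exact hC k ω
  have hSm : ∀ k, Measurable[ℱ n] (fun ω => S (fun i => W i ω) n k) := fun k =>
    local_meas h n (fun w => S w n k) fun a b hab => S_congr n a b hab k
  have hSb : ∀ k ω, |S (fun i => W i ω) n k| ≤ n := by
    intro k ω
    rw [abs_of_nonneg (S_nonneg _ _ _)]
    refine (S_le_deg (valid h ω) hn k).trans ?_
    have : deg (fun i => W i ω) n k ≤ n := by
      unfold deg
      exact (Finset.card_filter_le _ _).trans (by simp)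
    exact_mod_cast this
  have hSg : ∀ k, Integrable (fun ω => (1 / (n : ℝ)) * (S (fun i => W i ω) n k * g k ω)) P := by
    intro k
    refine Integrable.of_bound ((((hSm k).mono (ℱ.le n) le_rfl).mul (hgm k)).const_mul
      _).aestronglyMeasurable ((1 / (n : ℝ)) * (n * C)) (ae_of_all _ fun ω => ?_)
    rw [norm_mul, norm_mul, Real.norm_eq_abs (g k ω), Real.norm_eq_abs (S _ _ _),
      Real.norm_of_nonneg (by positivity)]
    refine mul_le_mul_of_nonneg_left ?_ (by positivity)
    exact mul_le_mul (hSb k ω) (hC k ω) (abs_nonneg _) (Nat.cast_nonneg _)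
  have hA' : MeasurableSet A := ℱ.le n _ hA
  rw [integral_finsetSum _ fun k _ => (hIg k).integrableOn]
  have e1 : ∀ ω, (1 / (n : ℝ)) * ∑ k ∈ s, S (fun i => W i ω) n k * g k ω
      = ∑ k ∈ s, (1 / (n : ℝ)) * (S (fun i => W i ω) n k * g k ω) := fun ω => Finset.mul_sum _ _ _
  simp only [e1]
  rw [integral_finsetSum _ fun k _ => (hSg k).integrableOn]
  refine Finset.sum_congr rfl fun k hk => ?_
  rw [← setIntegral_condExp (ℱ.le n) (hIg k) hA]
  refine setIntegral_congr_ae hA' ?_
  have h1 : P[(fun ω => ({ω | W n ω = k}.indicator fun _ => (1 : ℝ)) ω * g k ω) | ℱ n]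
      =ᵐ[P] P[({ω | W n ω = k}.indicator fun _ => (1 : ℝ)) | ℱ n] * g k :=
    condExp_mul_of_stronglyMeasurable_right (hg k).stronglyMeasurable (hIg k) (hI k)
  filter_upwards [h1, step_W h n hn k (Finset.mem_range.1 (hs hk))] with ω h2 h3 _
  rw [h2, Pi.mul_apply, h3]; ring

/-! ### The three quantities -/

include h in
theorem meas_deg (n v : ℕ) : Measurable[ℱ n] (fun ω => (deg (fun i => W i ω) n v : ℝ)) :=
  local_meas h n (fun w => (deg w n v : ℝ)) fun a b hab => by rw [deg_congr n a b hab v]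

theorem deg_le (w : ℕ → ℕ) (n v : ℕ) : (deg w n v : ℝ) ≤ n := by
  have : deg w n v ≤ n := by
    unfold deg
    exact (Finset.card_filter_le _ _).trans (by simp)
  exact_mod_cast this

include h in
theorem int_deg (n v : ℕ) : Integrable (fun ω => (deg (fun i => W i ω) n v : ℝ)) P := by
  refine Integrable.of_bound ((meas_deg h n v).mono (ℱ.le n) le_rfl).aestronglyMeasurable n
    (ae_of_all _ fun ω => ?_)
  rw [Real.norm_of_nonneg (Nat.cast_nonneg _)]
  exact deg_le _ _ _

include h in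
theorem deg_step (n v : ℕ) (hn : 2 ≤ n) (hv : v < n) (A : Set Ω) (hA : MeasurableSet[ℱ n] A) :
    ∫ ω in A, (deg (fun i => W i ω) (n + 1) v : ℝ) ∂P
      ≤ (1 + 1 / (n : ℝ)) * ∫ ω in A, (deg (fun i => W i ω) n v : ℝ) ∂P := by
  have h1 := step_int h n hn (fun _ _ => 1) (fun _ => measurable_const) 1 (by simp) {v}
    (Finset.singleton_subset_iff.2 (Finset.mem_range.2 hv)) A hA
  simp only [Finset.sum_singleton, mul_one] at h1
  have hWm : MeasurableSet {ω | W n ω = v} :=
    ℱ.le (n + 1) _ (h.W_meas n hn (MeasurableSet.singleton v))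
  have e : ∀ ω, (deg (fun i => W i ω) (n + 1) v : ℝ)
      = (deg (fun i => W i ω) n v : ℝ) + ({ω | W n ω = v}.indicator fun _ => (1 : ℝ)) ω := by
    intro ω
    rw [deg_succ (valid h ω) hn hv]
    push_cast
    congr 1
    by_cases hω : W n ω = v
    · rw [if_pos hω, Set.indicator_of_mem (show ω ∈ {ω | W n ω = v} from hω)]
    · rw [if_neg hω, Set.indicator_of_notMem (show ω ∉ {ω | W n ω = v} from hω)]
  simp only [e]
  rw [integral_add (int_deg h n v).integrableOn ((integrable_const _).indicator hWm).integrableOn,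
    h1, add_mul, one_mul]
  refine add_le_add_right ?_ _
  rw [← integral_const_mul]
  refine setIntegral_mono_on ?_ ((int_deg h n v).const_mul _).integrableOn (ℱ.le n _ hA) fun ω _ => ?_
  · refine (Integrable.of_bound (C := (1 / (n : ℝ)) * n) ?_ (ae_of_all _ fun ω => ?_)).integrableOn
    · exact (((local_meas h n (fun w => S w n v) fun a b hab => S_congr n a b hab v).mono
        (ℱ.le n) le_rfl).const_mul _).aestronglyMeasurable
    · rw [norm_mul, Real.norm_of_nonneg (by positivity), Real.norm_of_nonneg (S_nonneg _ _ _)]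
      exact mul_le_mul_of_nonneg_left ((S_le_deg (valid h ω) hn v).trans (deg_le _ _ _)) (by positivity)
  · exact mul_le_mul_of_nonneg_left (S_le_deg (valid h ω) hn v) (by positivity)

include h in
/-- almost sure convergence of `D_n (v) / n` -/
theorem deg_conv (v : ℕ) : ∀ᵐ ω ∂P, ∃ c : ℝ,
    Tendsto (fun n : ℕ => (deg (fun i => W i ω) n v : ℝ) / n) atTop (𝓝 c) := by
  -- shifted filtration
  set m := v + 2 with hm
  set 𝒢 : Filtration ℕ mΩ :=
    { seq := fun n => ℱ (n + m), mono' := fun a b hab => ℱ.mono (by omega), le' := fun n => ℱ.le _ }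
    with h𝒢
  set f : ℕ → Ω → ℝ := fun n ω => - ((deg (fun i => W i ω) (n + m) v : ℝ) / ((n + m : ℕ) : ℝ)) with hf
  have hbd : ∀ n ω, |f n ω| ≤ 1 := by
    intro n ω
    simp only [hf, abs_neg]
    rw [abs_of_nonneg (by positivity)]
    exact div_le_one_of_le₀ (deg_le _ _ _) (by positivity)
  have hmeas : ∀ n, Measurable[ℱ (n + m)] (f n) := fun n =>
    ((meas_deg h (n + m) v).div_const _).neg
  have hint : ∀ n, Integrable (f n) P := fun n =>
    Integrable.of_bound ((hmeas n).mono (ℱ.le _) le_rfl).aestronglyMeasurable 1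
      (ae_of_all _ fun ω => hbd n ω)
  have hsub : Submartingale f 𝒢 P := by
    refine submartingale_of_setIntegral_le_succ (fun n => (hmeas n).stronglyMeasurable) hint ?_
    intro n A hA
    have h1 := deg_step h (n + m) v (by omega) (by omega) A hA
    simp only [hf]
    rw [integral_neg, integral_neg, neg_le_neg_iff, integral_div, integral_div]
    have e : n + 1 + m = n + m + 1 := by omega
    rw [e]
    have hpos : (0 : ℝ) < ((n + m : ℕ) : ℝ) := by
      have : 0 < n + m := by omega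
      exact_mod_cast this
    have hpos' : (0 : ℝ) < ((n + m + 1 : ℕ) : ℝ) := by positivity
    rw [div_le_div_iff₀ hpos' hpos]
    refine (mul_le_mul_of_nonneg_right h1 hpos.le).trans (le_of_eq ?_)
    push_cast
    push_cast at hpos
    field_simp
  have hlim := hsub.exists_ae_tendsto_of_bdd (R := 1) (fun n => by
    refine (eLpNorm_le_of_ae_bound (C := 1) (ae_of_all _ fun ω => hbd n ω)).trans ?_
    simp)
  filter_upwards [hlim] with ω hω
  obtain ⟨c, hc⟩ := hω
  refine ⟨-c, ?_⟩
  have h2 := hc.neg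
  simp only [hf, neg_neg] at h2
  exact (tendsto_add_atTop_iff_nat (f := fun n : ℕ => (deg (fun i => W i ω) n v : ℝ) / n) m).1 h2

end

end Pool.Agent.V11327.FT
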