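import Mathlib

/-! Multitype Galton-Watson trees as random labellings of addresses. -/

set_option autoImplicit false

namespace Pool.Agent.V11327.GWtree

open MeasureTheory ProbabilityTheory

instance instMeasWord (K : ℕ) : MeasurableSpace (List (Fin K)) := ⊤
instance (K : ℕ) : DiscreteMeasurableSpace (List (Fin K)) := ⟨fun _ => trivial⟩
instance instMeasOpt (K : ℕ) : MeasurableSpace (Option (Fin K)) := ⊤
instance (K : ℕ) : DiscreteMeasurableSpace (Option (Fin K)) := ⟨fun _ => trivial⟩

/-- A plane tree with types: addresses are lists of naturals (`c :: u` is the `c`-th child of `u`,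
counted from `0`, and `[]` is the root); `T u = some k` means that `u` is a vertex of type `k`, and
`T u = none` that `u` is not a vertex. -/
abbrev Tree (K : ℕ) := List ℕ → Option (Fin K)

/-- The tree with root type `i` in which the children of a vertex `u` of type `k` have types given by
the word `ω (u, k)`. -/
def tree {K : ℕ} (i : Fin K) (ω : List ℕ × Fin K → List (Fin K)) : Tree K
  | [] => some i
  | c :: u => (tree i ω u).bind fun k => (ω (u, k))[c]?

/-- independent words `ω (u, k)` with law `ζ k` -/
noncomputable def words {K : ℕ} (ζ : Fin K → PMF (List (Fin K))) :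
    Measure (List ℕ × Fin K → List (Fin K)) :=
  Measure.infinitePi fun p => (ζ p.2).toMeasure

/-- law of the `ζ`-BGW tree with root type `i` -/
noncomputable def treeLaw {K : ℕ} (ζ : Fin K → PMF (List (Fin K))) (i : Fin K) : Measure (Tree K) :=
  (words ζ).map (tree i)

/-- number of vertices of type `k` -/
noncomputable def count {K : ℕ} (k : Fin K) (T : Tree K) : ℕ∞ := Set.encard {u | T u = some k}

/-- the event `Γ (N_1, …, N_K) = g` -/
def event {K : ℕ} (Γ : Fin K → ℕ) (g : ℕ) : Set (Tree K) := {T | ∑ k, (Γ k : ℕ∞) * count k T = g}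

/-- condition (i): equal supports -/
def SameSupport {K : ℕ} (ζ ζ' : Fin K → PMF (List (Fin K))) : Prop := ∀ i x, ζ i x = 0 ↔ ζ' i x = 0

/-- condition (ii) for a single row `Γ` with entries in `ℕ`: for every root type `i` and every `g` for
which the conditioning event has positive probability under `ζ`, the conditioned trees have the same
law. -/
def SameConditioned {K : ℕ} (Γ : Fin K → ℕ) (ζ ζ' : Fin K → PMF (List (Fin K))) : Prop :=
  ∀ (i : Fin K) (g : ℕ), treeLaw ζ i (event Γ g) ≠ 0 →
    cond (treeLaw ζ i) (event Γ g) = cond (treeLaw ζ' i) (event Γ g)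

/-! ### Measurability -/

theorem measurable_tree {K : ℕ} (i : Fin K) : Measurable (tree i) := by
  refine measurable_pi_lambda _ fun u => ?_
  induction u with
  | nil => exact measurable_const
  | cons c u ih =>
    have h : Measurable (fun ω : List ℕ × Fin K → List (Fin K) =>
        (tree i ω u, fun k : Fin K => ω (u, k))) :=
      ih.prodMk (measurable_pi_lambda _ fun k => measurable_pi_apply _)
    have h2 : Measurable (fun q : Option (Fin K) × (Fin K → List (Fin K)) =>
        q.1.bind fun k => (q.2 k)[c]?) := Measurable.of_discrete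
    exact h2.comp h

theorem measurable_size {K : ℕ} (g : ℕ) :
    MeasurableSet {T : Tree K | Set.encard {u | T u ≠ none} = g} := by
  classical
  have e : {T : Tree K | Set.encard {u | T u ≠ none} = g}
      = ⋃ F : Finset (List ℕ), ⋃ _ : F.card = g, ⋂ u : List ℕ, {T : Tree K | T u ≠ none ↔ u ∈ F} := by
    ext T
    simp only [Set.mem_ofPred_eq, Set.mem_iUnion, Set.mem_iInter, exists_prop]
    constructor
    · intro h
      have hfin : {u | T u ≠ none}.Finite := Set.finite_of_encard_eq_coe h
      refine ⟨hfin.toFinset, ?_, fun u => ?_⟩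
      · have := hfin.encard_eq_coe_toFinset_card
        rw [h] at this
        exact_mod_cast this.symm
      · rw [Set.Finite.mem_toFinset]; rfl
    · rintro ⟨F, hF, h⟩
      have : {u | T u ≠ none} = (F : Set (List ℕ)) := by
        ext u; exact h u
      rw [this, Set.encard_coe_eq_coe_finsetCard, hF]
  rw [e]
  refine MeasurableSet.iUnion fun F => MeasurableSet.iUnion fun _ => MeasurableSet.iInter fun u => ?_
  have h1 : MeasurableSet {T : Tree K | T u ≠ none} := by
    have hm : Measurable (fun T : Tree K => T u) := measurable_pi_apply u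
    exact hm (MeasurableSet.of_discrete (s := {x : Option (Fin K) | x ≠ none}))
  by_cases hu : u ∈ F
  · simpa [hu] using h1
  · have : {T : Tree K | T u ≠ none ↔ u ∈ F} = {T : Tree K | T u ≠ none}ᶜ := by
      ext T; simp [hu]
    rw [this]; exact h1.compl

theorem event_two (g : ℕ) : event (K := 2) (fun _ => 1) g
    = {T : Tree 2 | Set.encard {u | T u ≠ none} = g} := by
  unfold event count
  ext T
  simp only [Set.mem_ofPred_eq, Nat.cast_one, one_mul]
  rw [Fin.sum_univ_two, ← Set.encard_union_eq]
  · have : {u | T u = some 0} ∪ {u | T u = some 1} = {u | T u ≠ none} := by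
      ext u
      simp only [Set.mem_union, Set.mem_ofPred_eq]
      rcases h : T u with _ | k
      · simp
      · fin_cases k <;> simp
    rw [this]
  · rw [Set.disjoint_left]
    intro u h1 h2
    simp only [Set.mem_ofPred_eq] at h1 h2
    rw [h1] at h2
    exact absurd (Option.some.inj h2) (by decide)

/-! ### Parity -/

theorem parity {K : ℕ} (i : Fin K) (ω : List ℕ × Fin K → List (Fin K)) (w : List (Fin K))
    (h0 : ω ([], i) = w)
    (h1 : ∀ u k, u ≠ [] → tree i ω u = some k → Even (ω (u, k)).length) (g : ℕ)
    (hg : Set.encard {u | tree i ω u ≠ none} = g) : Even (g + 1 + w.length) := by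
  classical
  have hfin : {u | tree i ω u ≠ none}.Finite := Set.finite_of_encard_eq_coe hg
  set F := hfin.toFinset with hF
  have hmem : ∀ u, u ∈ F ↔ tree i ω u ≠ none := fun u => by
    rw [hF, Set.Finite.mem_toFinset]; rfl
  have hcard : F.card = g := by
    have := hfin.encard_eq_coe_toFinset_card
    rw [hg] at this
    exact_mod_cast this.symm
  set L : List ℕ → ℕ := fun v => match tree i ω v with
    | none => 0
    | some k => (ω (v, k)).length with hL
  have hchild : ∀ c v, c :: v ∈ F ↔ c < L v := by
    intro c v
    rw [hmem]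
    simp only [tree, hL]
    rcases h : tree i ω v with _ | k
    · simp
    · simp
  have hLmem : ∀ v c, c < L v → v ∈ F := by
    intro v c hc
    rw [hmem]
    intro hcon
    simp only [hL, hcon] at hc
    exact absurd hc (by simp)
  have hroot : [] ∈ F := by rw [hmem]; simp [tree]
  have hcount : (F.erase []).card = ∑ v ∈ F, L v := by
    have : (F.sigma fun v => Finset.range (L v)).card = ∑ v ∈ F, L v := by
      rw [Finset.card_sigma]; simp
    rw [← this]
    symm
    refine Finset.card_bij (fun x _ => x.2 :: x.1) ?_ ?_ ?_
    · rintro ⟨v, c⟩ hx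
      simp only [Finset.mem_sigma, Finset.mem_range] at hx
      rw [Finset.mem_erase]
      exact ⟨by simp, (hchild c v).2 hx.2⟩
    · rintro ⟨v, c⟩ _ ⟨v', c'⟩ _ h
      simp only [List.cons.injEq] at h
      obtain ⟨h1, h2⟩ := h
      subst h1; subst h2; rfl
    · intro u hu
      rw [Finset.mem_erase] at hu
      rcases u with _ | ⟨c, v⟩
      · exact (hu.1 rfl).elim
      · refine ⟨⟨v, c⟩, ?_, rfl⟩
        simp only [Finset.mem_sigma, Finset.mem_range]
        have := (hchild c v).1 hu.2
        exact ⟨hLmem v c this, this⟩
  rw [← Finset.add_sum_erase F L hroot] at hcount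
  have hL0 : L [] = w.length := by simp only [hL, tree, h0]
  have heven : Even (∑ v ∈ F.erase [], L v) := by
    refine Finset.even_sum _ fun v hv => ?_
    rw [Finset.mem_erase] at hv
    simp only [hL]
    rcases h : tree i ω v with _ | k
    · simp
    · exact h1 v k hv.1 h
  rw [Finset.card_erase_of_mem hroot, hcard, hL0] at hcount
  have hg1 : 1 ≤ g := by rw [← hcard]; exact Finset.card_pos.2 ⟨_, hroot⟩
  obtain ⟨a, ha⟩ := heven
  refine ⟨a + w.length + 1, ?_⟩
  omega

end Pool.Agent.V11327.GWtree
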