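import Mathlib

/-! Definitions for `MP_1c2560_pr`: perimeter of the convex hull of a planar walk.
The plane `ℝ²` is `ℂ`, with its Euclidean norm. -/

open MeasureTheory ProbabilityTheory

namespace V11327.Hull

/-- Euclidean inner product on the plane. -/
def dot (a b : ℂ) : ℝ := a.re * b.re + a.im * b.im

/-- The unit vector in direction `θ`. -/
noncomputable def dir (θ : ℝ) : ℂ := ⟨Real.cos θ, Real.sin θ⟩

/-- Perimeter length of a bounded convex set, by Cauchy's formula: the integral over the
directions `θ ∈ [0, 2π]` of the support function. (A segment has perimeter twice its length.) -/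
noncomputable def perimeter (K : Set ℂ) : ℝ :=
  ∫ θ in (0 : ℝ)..(2 * Real.pi), sSup ((fun x => dot x (dir θ)) '' K)

variable {Ω : Type*}

/-- The walk `S_n = Z_1 + ⋯ + Z_n` (the increments are indexed from `0`). -/
noncomputable def walk (Z : ℕ → Ω → ℂ) (n : ℕ) (ω : Ω) : ℂ := ∑ i ∈ Finset.range n, Z i ω

/-- `L_n`, the perimeter length of the convex hull of `{S_0, …, S_n}`. -/
noncomputable def L (Z : ℕ → Ω → ℂ) (n : ℕ) (ω : Ω) : ℝ :=
  perimeter (convexHull ℝ {x | ∃ k ≤ n, x = walk Z k ω})

/-- `Z_0, Z_1, …` are independent with common law `ν`. -/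
structure IsSample [MeasurableSpace Ω] (P : Measure Ω) (ν : Measure ℂ) (Z : ℕ → Ω → ℂ) :
    Prop where
  meas : ∀ i, Measurable (Z i)
  indep : iIndepFun Z P
  law : ∀ i, P.map (Z i) = ν

end V11327.Hull
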