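import Mathlib
import Pool.Agent.V11327.HWdefs

open MeasureTheory ProbabilityTheory Finset

namespace V11327.Hull

lemma dot_add (a b c : ℂ) : dot (a + b) c = dot a c + dot b c := by
  simp [dot]; ring

lemma dot_smul (r : ℝ) (a c : ℂ) : dot (r • a) c = r * dot a c := by
  simp [dot]; ring

lemma dot_sub (a b c : ℂ) : dot (a - b) c = dot a c - dot b c := by
  simp [dot]; ring

lemma dot_sum {ι : Type*} (s : Finset ι) (f : ι → ℂ) (c : ℂ) :
    dot (∑ i ∈ s, f i) c = ∑ i ∈ s, dot (f i) c := by
  simp [dot, Finset.sum_mul, Finset.sum_add_distrib]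

lemma dot_zero (c : ℂ) : dot 0 c = 0 := by simp [dot]

lemma abs_dot_dir_le (a : ℂ) (θ : ℝ) : |dot a (dir θ)| ≤ ‖a‖ := by
  have h1 : (dot a (dir θ))^2 ≤ ‖a‖^2 := by
    have h2 : ‖a‖^2 = a.re^2 + a.im^2 := by
      rw [← Complex.normSq_eq_norm_sq, Complex.normSq_apply]; ring
    have h3 := Real.sin_sq_add_cos_sq θ
    rw [h2]
    simp only [dot, dir]
    nlinarith [sq_nonneg (a.re * Real.sin θ - a.im * Real.cos θ)]
  exact abs_le_of_sq_le_sq h1 (norm_nonneg _) |> fun h => by simpa [abs_le] using h

/-- the support function of the hull of finitely many points -/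
lemma sSup_hull (n : ℕ) (S : ℕ → ℂ) (θ : ℝ) :
    sSup ((fun x => dot x (dir θ)) '' (convexHull ℝ {x | ∃ k ≤ n, x = S k})) =
      (range (n+1)).sup' (by simp) (fun k => dot (S k) (dir θ)) := by
  set M := (range (n+1)).sup' (by simp) (fun k => dot (S k) (dir θ)) with hM
  obtain ⟨k, hk, hkM⟩ := Finset.exists_mem_eq_sup' (s := range (n+1)) (by simp)
    (fun k => dot (S k) (dir θ))
  have hgr : IsGreatest ((fun x => dot x (dir θ)) '' (convexHull ℝ {x | ∃ k ≤ n, x = S k})) M := by
    constructor
    · refine ⟨S k, subset_convexHull ℝ _ ⟨k, by simpa [Nat.lt_succ_iff] using hk, rfl⟩, ?_⟩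
      rw [hM, hkM]
    · rintro _ ⟨x, hx, rfl⟩
      have hconv : Convex ℝ {x : ℂ | dot x (dir θ) ≤ M} := by
        intro x hx y hy a b ha hb hab
        simp only [Set.mem_ofPred_eq] at hx hy ⊢
        rw [dot_add, dot_smul, dot_smul]
        calc a * dot x (dir θ) + b * dot y (dir θ) ≤ a * M + b * M :=
              add_le_add (mul_le_mul_of_nonneg_left hx ha) (mul_le_mul_of_nonneg_left hy hb)
          _ = M := by rw [← add_mul, hab, one_mul]
      have hsub : {x | ∃ k ≤ n, x = S k} ⊆ {x : ℂ | dot x (dir θ) ≤ M} := by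
        rintro _ ⟨k, hk, rfl⟩
        exact Finset.le_sup' (fun k => dot (S k) (dir θ)) (by simp; omega)
      exact convexHull_min hsub hconv hx
  exact hgr.csSup_eq

lemma continuous_dot_dir (a : ℂ) : Continuous (fun θ => dot a (dir θ)) := by
  unfold dot dir
  simp only
  fun_prop

lemma continuous_sup (n : ℕ) (S : ℕ → ℂ) :
    Continuous (fun θ => (range (n+1)).sup' (by simp) (fun k => dot (S k) (dir θ))) :=
  Continuous.finset_sup'_apply _ fun k _ => continuous_dot_dir (S k)

lemma integral_dot (a : ℂ) : ∫ θ in (0:ℝ)..(2 * Real.pi), dot a (dir θ) = 0 := by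
  simp only [dot, dir]
  rw [intervalIntegral.integral_add, intervalIntegral.integral_const_mul,
    intervalIntegral.integral_const_mul, integral_cos, integral_sin]
  · simp
  · exact (Continuous.mul continuous_const Real.continuous_cos).intervalIntegrable _ _
  · exact (Continuous.mul continuous_const Real.continuous_sin).intervalIntegrable _ _

lemma integral_abs_dot (a : ℂ) : 4 * |a.im| ≤ ∫ θ in (0:ℝ)..(2 * Real.pi), |dot a (dir θ)| := by
  have key : ∀ b : ℂ, 4 * b.im ≤ ∫ θ in (0:ℝ)..(2 * Real.pi), |dot b (dir θ)| := by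
    intro b
    have hc : Continuous (fun θ => |dot b (dir θ)|) := (continuous_dot_dir b).abs
    have hpi := Real.pi_pos
    rw [← intervalIntegral.integral_add_adjacent_intervals (b := Real.pi)
      (hc.intervalIntegrable _ _) (hc.intervalIntegrable _ _)]
    have h1 : ∫ θ in (0:ℝ)..Real.pi, dot b (dir θ) ≤ ∫ θ in (0:ℝ)..Real.pi, |dot b (dir θ)| :=
      intervalIntegral.integral_mono_on hpi.le ((continuous_dot_dir b).intervalIntegrable _ _)
        (hc.intervalIntegrable _ _) (fun θ _ => le_abs_self _)
    have h2 : ∫ θ in Real.pi..(2*Real.pi), -dot b (dir θ) ≤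
        ∫ θ in Real.pi..(2*Real.pi), |dot b (dir θ)| :=
      intervalIntegral.integral_mono_on (by linarith)
        ((continuous_dot_dir b).neg.intervalIntegrable _ _)
        (hc.intervalIntegrable _ _) (fun θ _ => neg_le_abs _)
    have h3 : ∫ θ in (0:ℝ)..Real.pi, dot b (dir θ) = 2 * b.im := by
      simp only [dot, dir]
      rw [intervalIntegral.integral_add, intervalIntegral.integral_const_mul,
        intervalIntegral.integral_const_mul, integral_cos, integral_sin]
      · simp; ring
      · exact (Continuous.mul continuous_const Real.continuous_cos).intervalIntegrable _ _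
      · exact (Continuous.mul continuous_const Real.continuous_sin).intervalIntegrable _ _
    have h4 : ∫ θ in Real.pi..(2*Real.pi), -dot b (dir θ) = 2 * b.im := by
      rw [intervalIntegral.integral_neg]
      simp only [dot, dir]
      rw [intervalIntegral.integral_add, intervalIntegral.integral_const_mul,
        intervalIntegral.integral_const_mul, integral_cos, integral_sin]
      · simp; ring
      · exact (Continuous.mul continuous_const Real.continuous_cos).intervalIntegrable _ _
      · exact (Continuous.mul continuous_const Real.continuous_sin).intervalIntegrable _ _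
    linarith
  rcases le_total 0 a.im with h | h
  · rw [abs_of_nonneg h]; exact key a
  · rw [abs_of_nonpos h]
    have h1 := key (-a)
    have h2 : ∀ θ, |dot (-a) (dir θ)| = |dot a (dir θ)| := by
      intro θ
      have : dot (-a) (dir θ) = -dot a (dir θ) := by simp [dot]; ring
      rw [this, abs_neg]
    simp only [h2, Complex.neg_im] at h1
    exact h1

/-- Sanity: Cauchy perimeter of a hull of points dominates twice the vertical gap of two points. -/
lemma perimeter_ge (n : ℕ) (S : ℕ → ℂ) {i j : ℕ} (hi : i ≤ n) (hj : j ≤ n) :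
    2 * |(S i - S j).im| ≤ perimeter (convexHull ℝ {x | ∃ k ≤ n, x = S k}) := by
  unfold perimeter
  simp only [sSup_hull]
  have hpi := Real.pi_pos
  have h1 : ∫ θ in (0:ℝ)..(2 * Real.pi),
      (dot (S i) (dir θ) + dot (S j) (dir θ)) / 2 + |dot (S i - S j) (dir θ)| / 2 ≤
      ∫ θ in (0:ℝ)..(2 * Real.pi), (range (n+1)).sup' (by simp) (fun k => dot (S k) (dir θ)) := by
    refine intervalIntegral.integral_mono_on (by linarith) ?_
      ((continuous_sup n S).intervalIntegrable _ _) (fun θ _ => ?_)
    · refine Continuous.intervalIntegrable ?_ _ _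
      exact (((continuous_dot_dir _).add (continuous_dot_dir _)).div_const _).add
        ((continuous_dot_dir _).abs.div_const _)
    · have g1 := Finset.le_sup' (s := range (n+1)) (fun k => dot (S k) (dir θ))
        (show i ∈ range (n+1) by simp; omega)
      have g2 := Finset.le_sup' (s := range (n+1)) (fun k => dot (S k) (dir θ))
        (show j ∈ range (n+1) by simp; omega)
      rw [dot_sub]
      rcases abs_cases (dot (S i) (dir θ) - dot (S j) (dir θ)) with ⟨h, _⟩ | ⟨h, _⟩ <;>
        rw [h] <;> linarith
  refine le_trans ?_ h1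
  rw [intervalIntegral.integral_add]
  · have h2 : ∫ θ in (0:ℝ)..(2 * Real.pi), (dot (S i) (dir θ) + dot (S j) (dir θ)) / 2 = 0 := by
      rw [intervalIntegral.integral_div, intervalIntegral.integral_add, integral_dot, integral_dot]
      · simp
      · exact (continuous_dot_dir _).intervalIntegrable _ _
      · exact (continuous_dot_dir _).intervalIntegrable _ _
    rw [h2, zero_add, intervalIntegral.integral_div]
    have := integral_abs_dot (S i - S j)
    linarith
  · refine Continuous.intervalIntegrable ?_ _ _
    exact ((continuous_dot_dir _).add (continuous_dot_dir _)).div_const _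
  · exact (Continuous.intervalIntegrable ((continuous_dot_dir _).abs.div_const _) _ _)

lemma sup_bounds (n : ℕ) (S : ℕ → ℂ) (hS : S 0 = 0) (B : ℝ) (hB : ∀ k ≤ n, ‖S k‖ ≤ B) (θ : ℝ) :
    0 ≤ (range (n+1)).sup' (by simp) (fun k => dot (S k) (dir θ)) ∧
    (range (n+1)).sup' (by simp) (fun k => dot (S k) (dir θ)) ≤ B := by
  constructor
  · have := Finset.le_sup' (s := range (n+1)) (fun k => dot (S k) (dir θ))
        (show 0 ∈ range (n+1) by simp)
    simp only [hS, dot_zero] at this
    exact this
  · refine Finset.sup'_le _ _ fun k hk => ?_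
    rw [Finset.mem_range] at hk
    exact (le_abs_self _).trans ((abs_dot_dir_le _ _).trans (hB k (by omega)))

lemma perimeter_bounds (n : ℕ) (S : ℕ → ℂ) (hS : S 0 = 0) (B : ℝ) (hB : ∀ k ≤ n, ‖S k‖ ≤ B) :
    0 ≤ perimeter (convexHull ℝ {x | ∃ k ≤ n, x = S k}) ∧
    perimeter (convexHull ℝ {x | ∃ k ≤ n, x = S k}) ≤ 2 * Real.pi * B := by
  unfold perimeter
  simp only [sSup_hull]
  have hpi := Real.pi_pos
  constructor
  · exact intervalIntegral.integral_nonneg (by linarith) fun θ _ => (sup_bounds n S hS B hB θ).1
  · have : ∫ θ in (0:ℝ)..(2 * Real.pi), (range (n+1)).sup' (by simp) (fun k => dot (S k) (dir θ)) ≤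
        ∫ θ in (0:ℝ)..(2 * Real.pi), B :=
      intervalIntegral.integral_mono_on (by linarith) ((continuous_sup n S).intervalIntegrable _ _)
        (intervalIntegrable_const) (fun θ _ => (sup_bounds n S hS B hB θ).2)
    rw [intervalIntegral.integral_const] at this
    simpa using this

end V11327.Hull
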