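import Mathlib
import Pool.Agent.V11327.HWhull

open MeasureTheory ProbabilityTheory Finset Filter Topology

namespace V11327.Hull

variable {Ω : Type*} [MeasurableSpace Ω] {P : Measure Ω} [IsProbabilityMeasure P] {ν : Measure ℂ}
  {Z : ℕ → Ω → ℂ}

lemma measurable_dot_dir : Measurable (fun p : ℂ × ℝ => dot p.1 (dir p.2)) := by
  unfold dot dir
  simp only
  fun_prop

lemma IsSample.meas_walk (h : IsSample P ν Z) (k : ℕ) : Measurable (walk Z k) := by
  unfold walk
  exact Finset.measurable_sum _ fun i _ => h.meas i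

lemma IsSample.meas_L (h : IsSample P ν Z) (n : ℕ) : StronglyMeasurable (L Z n) := by
  have h1 : L Z n = fun ω => ∫ θ in Set.Ioc (0:ℝ) (2 * Real.pi),
      (range (n+1)).sup' (by simp) (fun k => dot (walk Z k ω) (dir θ)) := by
    ext ω
    unfold L perimeter
    have hpi := Real.pi_pos
    rw [intervalIntegral.integral_of_le (by linarith)]
    refine setIntegral_congr_fun measurableSet_Ioc fun θ _ => ?_
    exact sSup_hull n (fun k => walk Z k ω) θ
  rw [h1]
  have h2 : Measurable (fun p : Ω × ℝ =>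
      (range (n+1)).sup' (by simp) (fun k => dot (walk Z k p.1) (dir p.2))) := by
    have h3 : (fun p : Ω × ℝ =>
      (range (n+1)).sup' (by simp) (fun k => dot (walk Z k p.1) (dir p.2))) =
      (range (n+1)).sup' (by simp) (fun k => fun p : Ω × ℝ => dot (walk Z k p.1) (dir p.2)) := by
      ext p
      rw [Finset.sup'_apply]
    rw [h3]
    refine Finset.measurable_sup' _ fun k _ => ?_
    exact measurable_dot_dir.comp (((h.meas_walk k).comp measurable_fst).prodMk measurable_snd)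
  exact h2.stronglyMeasurable.integral_prod_right'

lemma norm_walk_le (n k : ℕ) (hk : k ≤ n) (ω : Ω) : ‖walk Z k ω‖ ≤ ∑ i ∈ range n, ‖Z i ω‖ := by
  unfold walk
  refine (norm_sum_le _ _).trans ?_
  exact Finset.sum_le_sum_of_subset_of_nonneg (Finset.range_mono hk) fun _ _ _ => norm_nonneg _

lemma L_bounds (n : ℕ) (ω : Ω) : 0 ≤ L Z n ω ∧
    L Z n ω ≤ 2 * Real.pi * ∑ i ∈ range n, ‖Z i ω‖ :=
  perimeter_bounds n (fun k => walk Z k ω) (by simp [walk]) _
    (fun k hk => norm_walk_le n k hk ω)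

lemma L_ge (n i : ℕ) (hi : i < n) (ω : Ω) : 2 * |(Z i ω).im| ≤ L Z n ω := by
  have h := perimeter_ge n (fun k => walk Z k ω) (i := i+1) (j := i) (by omega) (by omega)
  have h1 : walk Z (i+1) ω - walk Z i ω = Z i ω := by
    simp [walk, Finset.sum_range_succ]
  simp only [h1] at h
  exact h

lemma IsSample.memLp_norm (h : IsSample P ν Z) (h2 : Integrable (fun z => ‖z‖ ^ 2) ν) (i : ℕ) :
    MemLp (fun ω => ‖Z i ω‖) 2 P := by
  rw [memLp_two_iff_integrable_sq (h.meas i).norm.aestronglyMeasurable]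
  have h3 : Integrable (fun z => ‖z‖ ^ 2) (P.map (Z i)) := by rw [h.law i]; exact h2
  exact (integrable_map_measure (by fun_prop) (h.meas i).aemeasurable).1 h3

lemma IsSample.memLp_L (h : IsSample P ν Z) (h2 : Integrable (fun z => ‖z‖ ^ 2) ν) (n : ℕ) :
    MemLp (L Z n) 2 P := by
  have h1 : MemLp (fun ω => 2 * Real.pi * ∑ i ∈ range n, ‖Z i ω‖) 2 P :=
    (memLp_finsetSum _ fun i _ => h.memLp_norm h2 i).const_mul _
  refine h1.mono (h.meas_L n).aestronglyMeasurable (Eventually.of_forall fun ω => ?_)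
  have := L_bounds (Z := Z) n ω
  rw [Real.norm_of_nonneg this.1, Real.norm_of_nonneg (this.1.trans this.2)]
  exact this.2

lemma IsSample.mean_L (h : IsSample P ν Z) (h2 : Integrable (fun z => ‖z‖ ^ 2) ν) (n : ℕ) :
    ∫ ω, L Z n ω ∂P ≤ (2 * Real.pi * ∫ z, ‖z‖ ∂ν) * n := by
  have hi : ∀ i, Integrable (fun ω => ‖Z i ω‖) P := fun i =>
    (h.memLp_norm h2 i).integrable (by norm_num)
  have h1 : ∫ ω, L Z n ω ∂P ≤ ∫ ω, 2 * Real.pi * ∑ i ∈ range n, ‖Z i ω‖ ∂P := by
    refine integral_mono ((h.memLp_L h2 n).integrable (by norm_num)) ?_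
      (fun ω => (L_bounds (Z := Z) n ω).2)
    exact (integrable_finsetSum _ fun i _ => hi i).const_mul _
  refine h1.trans (le_of_eq ?_)
  rw [integral_const_mul, integral_finsetSum _ (fun i _ => hi i)]
  have h3 : ∀ i, ∫ ω, ‖Z i ω‖ ∂P = ∫ z, ‖z‖ ∂ν := by
    intro i
    rw [← h.law i, integral_map (h.meas i).aemeasurable (by fun_prop)]
  simp only [h3, Finset.sum_const, Finset.card_range, nsmul_eq_mul]
  ring

lemma IsSample.prob_big (h : IsSample P ν Z) (T : ℝ) (q : ℝ) (hq0 : 0 ≤ q)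
    (hq : q ≤ ν.real {z | T ≤ |z.im|}) (n : ℕ) :
    1 - (1 - q)^n ≤ P.real {ω | ∃ i < n, T ≤ |(Z i ω).im|} := by
  have hSm : MeasurableSet {z : ℂ | T ≤ |z.im|} :=
    measurableSet_le measurable_const (Complex.measurable_im.abs)
  have hνp : IsProbabilityMeasure ν := by
    rw [← h.law 0]; exact Measure.isProbabilityMeasure_map (h.meas 0).aemeasurable
  have hpi : ∀ i, P.real (Z i ⁻¹' {z : ℂ | T ≤ |z.im|}ᶜ) = 1 - ν.real {z | T ≤ |z.im|} := by
    intro i
    rw [← probReal_compl_eq_one_sub hSm, ← h.law i, map_measureReal_apply (h.meas i) hSm.compl]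
  have hcompl : {ω | ∃ i < n, T ≤ |(Z i ω).im|}ᶜ = ⋂ i ∈ range n, Z i ⁻¹' {z : ℂ | T ≤ |z.im|}ᶜ := by
    ext ω
    simp
  have hm : MeasurableSet {ω | ∃ i < n, T ≤ |(Z i ω).im|} := by
    have : MeasurableSet ({ω | ∃ i < n, T ≤ |(Z i ω).im|}ᶜ) := by
      rw [hcompl]
      exact Finset.measurableSet_biInter _ fun i _ => h.meas i hSm.compl
    simpa using this.compl
  have h1 : P.real ({ω | ∃ i < n, T ≤ |(Z i ω).im|}ᶜ) = (1 - ν.real {z | T ≤ |z.im|})^n := by
    rw [hcompl, measureReal_def]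
    rw [h.indep.measure_inter_preimage_eq_mul (range n) (fun i _ => hSm.compl),
      ENNReal.toReal_prod]
    have : ∀ i ∈ range n, (P (Z i ⁻¹' {z : ℂ | T ≤ |z.im|}ᶜ)).toReal =
        1 - ν.real {z | T ≤ |z.im|} := fun i _ => hpi i
    rw [Finset.prod_congr rfl this, Finset.prod_const, Finset.card_range]
  rw [probReal_compl_eq_one_sub hm] at h1
  have h2 : (1 - ν.real {z | T ≤ |z.im|})^n ≤ (1 - q)^n := by
    refine pow_le_pow_left₀ ?_ (by linarith) n
    have : ν.real {z : ℂ | T ≤ |z.im|} ≤ 1 := measureReal_le_one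
    linarith
  linarith

lemma one_sub_pow_ge {q : ℝ} (hq0 : 0 ≤ q) (hq1 : q ≤ 1) (n : ℕ) (hn : n * q ≤ 1) :
    n * q / 2 ≤ 1 - (1 - q)^n := by
  have h1 : 1 + n * q ≤ (1 + q)^n := one_add_mul_le_pow (by linarith) n
  have h2 : (1 - q)^n * (1 + q)^n ≤ 1 := by
    rw [← mul_pow]
    exact pow_le_one₀ (by nlinarith) (by nlinarith)
  have h3 : 0 ≤ (1 - q)^n := pow_nonneg (by linarith) n
  have h4 : (1 - q)^n * (1 + n * q) ≤ 1 := (mul_le_mul_of_nonneg_left h1 h3).trans h2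
  have h5 : 0 ≤ (n:ℝ) * q := by positivity
  nlinarith

/-- Main lower bound. -/
theorem IsSample.var_ge (h : IsSample P ν Z) (h2 : Integrable (fun z => ‖z‖ ^ 2) ν)
    (htail : ∀ k : ℕ, (1/2 : ℝ) * (1/32)^k ≤ ν.real {z | (4:ℝ)^k ≤ |z.im|}) :
    ∃ c : ℝ, 0 < c ∧ ∀ n : ℕ, 1 ≤ n → c * Real.sqrt n ≤ variance (L Z n) P := by
  set A : ℝ := max (2 * Real.pi * ∫ z, ‖z‖ ∂ν) 1 with hA
  have hA1 : 1 ≤ A := le_max_right _ _
  refine ⟨1 / (8 * Real.sqrt A), by positivity, fun n hn => ?_⟩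
  have hn' : (1:ℝ) ≤ n := by exact_mod_cast hn
  have hAn : 1 ≤ A * n := by nlinarith
  obtain ⟨m, hm1, hm2⟩ := exists_nat_pow_near hAn (show (1:ℝ) < 4 by norm_num)
  set k := m + 1 with hk
  have hk1 : A * n ≤ 4^k := hm2.le
  have hk2 : (4:ℝ)^k ≤ 4 * (A * n) := by rw [hk, pow_succ]; linarith
  have hmean := h.mean_L h2 n
  have hmean' : ∫ ω, L Z n ω ∂P ≤ A * n :=
    hmean.trans (mul_le_mul_of_nonneg_right (le_max_left _ _) (by positivity))
  have hc : (0:ℝ) < 4^k := by positivity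
  have hcheb := meas_ge_le_variance_div_sq (h.memLp_L h2 n) hc
  have hsub : {ω | ∃ i < n, (4:ℝ)^k ≤ |(Z i ω).im|} ⊆
      {ω | (4:ℝ)^k ≤ |L Z n ω - ∫ ω, L Z n ω ∂P|} := by
    rintro ω ⟨i, hi, hω⟩
    have := L_ge (Z := Z) n i hi ω
    show (4:ℝ)^k ≤ |L Z n ω - ∫ ω, L Z n ω ∂P|
    refine le_trans ?_ (le_abs_self _)
    linarith
  have hvar0 : 0 ≤ variance (L Z n) P := variance_nonneg _ _
  have h3 : P.real {ω | ∃ i < n, (4:ℝ)^k ≤ |(Z i ω).im|} ≤ variance (L Z n) P / (4^k)^2 := by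
    have h4 := (measure_mono (μ := P) hsub).trans hcheb
    rw [measureReal_def]
    exact ENNReal.toReal_le_of_le_ofReal (by positivity) h4
  have h32 : (n:ℝ) ≤ 32^k := by
    calc (n:ℝ) ≤ A * n := by nlinarith
      _ ≤ 4^k := hk1
      _ ≤ 32^k := pow_le_pow_left₀ (by norm_num) (by norm_num) k
  have hq : (n:ℝ) * (1/32)^k ≤ 1 := by
    rw [one_div, inv_pow, ← div_eq_mul_inv, div_le_one (by positivity)]
    exact h32
  have h5 := h.prob_big (4^k) (1/2 * (1/32)^k) (by positivity) (htail k) n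
  have hq1 : ((1:ℝ)/32)^k ≤ 1 := pow_le_one₀ (by norm_num) (by norm_num)
  have h6 := one_sub_pow_ge (q := 1/2 * (1/32)^k) (by positivity)
    (by linarith) n (by
      have : (0:ℝ) ≤ n * (1/32)^k := by positivity
      nlinarith)
  have h7 : (n:ℝ) * (1/2 * (1/32)^k) / 2 ≤ variance (L Z n) P / (4^k)^2 := h6.trans (h5.trans h3)
  rw [le_div_iff₀ (by positivity)] at h7
  have h8 : (n:ℝ) * (1/2 * (1/32)^k) / 2 * (4^k)^2 = n / (4 * 2^k) := by
    have e1 : ((4:ℝ)^k)^2 = 16^k := by rw [← pow_mul, mul_comm, pow_mul]; norm_num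
    have e2 : (32:ℝ)^k = 16^k * 2^k := by rw [← mul_pow]; norm_num
    rw [e1, one_div (32:ℝ), inv_pow, e2]
    field_simp
    norm_num
  rw [h8] at h7
  refine le_trans ?_ h7
  have h9 : (2:ℝ)^k ≤ 2 * Real.sqrt (A * n) := by
    have e3 : (2:ℝ)^k = Real.sqrt (4^k) := by
      rw [show (4:ℝ)^k = (2^k)^2 by rw [← pow_mul, mul_comm, pow_mul]; norm_num,
        Real.sqrt_sq (by positivity)]
    rw [e3]
    have e4 : Real.sqrt (4 * (A * n)) = 2 * Real.sqrt (A * n) := by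
      rw [Real.sqrt_mul (by norm_num), show (4:ℝ) = 2^2 by norm_num, Real.sqrt_sq (by norm_num)]
    rw [← e4]
    exact Real.sqrt_le_sqrt hk2
  have hsA : 0 < Real.sqrt A := Real.sqrt_pos.2 (by linarith)
  have hsn : 0 < Real.sqrt n := Real.sqrt_pos.2 (by linarith)
  have e5 : Real.sqrt (A * n) = Real.sqrt A * Real.sqrt n := Real.sqrt_mul (by linarith) _
  have e6 : (n:ℝ) = Real.sqrt n * Real.sqrt n := (Real.mul_self_sqrt (by linarith)).symm
  rw [e5] at h9
  calc 1 / (8 * Real.sqrt A) * Real.sqrt n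
      = (Real.sqrt n * Real.sqrt n) / (4 * (2 * (Real.sqrt A * Real.sqrt n))) := by
        field_simp; norm_num
    _ ≤ n / (4 * 2^k) := by
        rw [← e6]
        exact div_le_div_of_nonneg_left (by linarith) (by positivity) (by linarith)

end V11327.Hull
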