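import Mathlib
import Pool.Agent.V11327.HWprob

open MeasureTheory ProbabilityTheory Finset Filter Topology

namespace V11327.Hull

noncomputable def wt (k : ℕ) : ℝ := (31/64) * (1/32)^k

noncomputable def pt (i : ℕ × Bool) : ℂ := ⟨1, if i.2 then 4^i.1 else -(4^i.1)⟩

/-- the law of `Z = (1, ±4^k)`, each sign with probability `(31/64) 32^{-k}` -/
noncomputable def nu : Measure ℂ :=
  Measure.sum (fun i : ℕ × Bool => ENNReal.ofReal (wt i.1) • Measure.dirac (pt i))

lemma wt_pos (k : ℕ) : 0 < wt k := by unfold wt; positivity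

lemma toReal_wt (k : ℕ) : (ENNReal.ofReal (wt k)).toReal = wt k :=
  ENNReal.toReal_ofReal (wt_pos k).le

lemma hasSum_wt : HasSum wt (1/2) := by
  unfold wt
  have h := (hasSum_geometric_of_lt_one (r := (1:ℝ)/32) (by norm_num) (by norm_num)).mul_left (31/64)
  norm_num at h ⊢
  exact h

lemma hasSum_wt16 : HasSum (fun k => wt k * 16^k) (31/32) := by
  have h := (hasSum_geometric_of_lt_one (r := (1:ℝ)/2) (by norm_num) (by norm_num)).mul_left (31/64)
  have e : (fun k => wt k * 16^k) = fun k : ℕ => (31/64 : ℝ) * (1/2)^k := by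
    ext k
    unfold wt
    rw [mul_assoc, ← mul_pow]; norm_num
  rw [e]
  norm_num at h ⊢
  exact h

lemma summable_nb {f : ℕ → ℝ} (hf : Summable f) (h0 : ∀ k, 0 ≤ f k) :
    Summable (fun i : ℕ × Bool => f i.1) := by
  have h := hf.mul_of_nonneg (g := fun _ : Bool => (1:ℝ)) (hasSum_fintype _).summable h0
    (fun _ => by norm_num)
  simpa using h

lemma tsum_nb {E : Type*} [NormedAddCommGroup E] [CompleteSpace E] {f : ℕ × Bool → E}
    (hs : Summable f) : ∑' i, f i = ∑' k, (f (k, true) + f (k, false)) := by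
  rw [hs.tsum_prod]
  congr 1; ext k
  rw [tsum_fintype]
  simp

lemma tsum_wt_nb : ∑' i : ℕ × Bool, wt i.1 = 1 := by
  have hs : Summable (fun i : ℕ × Bool => wt i.1) :=
    summable_nb hasSum_wt.summable fun k => (wt_pos k).le
  have h := tsum_nb hs
  have h2 : ∑' k, (wt k + wt k) = 1 := by
    have := (hasSum_wt.add hasSum_wt).tsum_eq
    rw [this]; norm_num
  exact h.trans h2

lemma nu_univ : nu Set.univ = 1 := by
  unfold nu
  rw [Measure.sum_apply _ MeasurableSet.univ]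
  have h1 : ∀ i : ℕ × Bool, (ENNReal.ofReal (wt i.1) • Measure.dirac (pt i)) Set.univ =
      ENNReal.ofReal (wt i.1) := by
    intro i
    rw [Measure.smul_apply, measure_univ, smul_eq_mul, mul_one]
  have h2 : (∑' i : ℕ × Bool, (ENNReal.ofReal (wt i.1) • Measure.dirac (pt i)) Set.univ) =
      ∑' i : ℕ × Bool, ENNReal.ofReal (wt i.1) := tsum_congr h1
  refine h2.trans ?_
  rw [← ENNReal.ofReal_tsum_of_nonneg (fun i : ℕ × Bool => (wt_pos i.1).le)
    (summable_nb hasSum_wt.summable fun k => (wt_pos k).le), tsum_wt_nb, ENNReal.ofReal_one]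

instance : IsProbabilityMeasure nu := ⟨nu_univ⟩

lemma pt_re (i : ℕ × Bool) : (pt i).re = 1 := rfl

lemma pt_im_sq (i : ℕ × Bool) : (pt i).im ^ 2 = 16^i.1 := by
  unfold pt
  simp only
  split_ifs
  · rw [← pow_mul, mul_comm, pow_mul]; norm_num
  · rw [neg_sq, ← pow_mul, mul_comm, pow_mul]; norm_num

lemma pt_norm_sq (i : ℕ × Bool) : ‖pt i‖ ^ 2 = 1 + 16^i.1 := by
  rw [← Complex.normSq_eq_norm_sq, Complex.normSq_apply, pt_re]
  have := pt_im_sq i
  nlinarith

lemma summable_sq : Summable (fun i : ℕ × Bool => wt i.1 * (1 + 16^i.1)) := by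
  have h := summable_nb (f := fun k => wt k * (1 + 16^k)) ?_ ?_
  · exact h
  · have := (hasSum_wt.add hasSum_wt16).summable
    refine this.congr fun k => ?_
    ring
  · intro k
    have := wt_pos k
    positivity

lemma int_sq : Integrable (fun z : ℂ => ‖z‖ ^ 2) nu := by
  unfold nu
  refine integrable_sum_dirac (fun i => ENNReal.ofReal_ne_top) ?_
  refine summable_sq.congr fun i => ?_
  rw [toReal_wt, Real.norm_of_nonneg (by positivity), pt_norm_sq]

lemma mean_nu : ∫ z, z ∂nu = 1 := by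
  unfold nu
  rw [integral_sum_dirac (fun i => ENNReal.ofReal_ne_top)]
  simp only [toReal_wt]
  have hs : Summable (fun i : ℕ × Bool => wt i.1 • pt i) := by
    refine Summable.of_norm_bounded summable_sq fun i => ?_
    rw [norm_smul, Real.norm_of_nonneg (wt_pos _).le]
    refine mul_le_mul_of_nonneg_left ?_ (wt_pos _).le
    have h1 := pt_norm_sq i
    have h2 : (0:ℝ) ≤ 16^i.1 := by positivity
    nlinarith [norm_nonneg (pt i), sq_nonneg (‖pt i‖ - 1)]
  rw [tsum_nb hs]
  have h1 : ∀ k : ℕ, wt k • pt (k, true) + wt k • pt (k, false) = ((wt k + wt k : ℝ) : ℂ) := by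
    intro k
    apply Complex.ext
    · simp [pt]
    · simp [pt]
  simp only [h1]
  have h2 := (hasSum_wt.add hasSum_wt)
  have h3 := (Complex.hasSum_ofReal.2 h2).tsum_eq
  rw [h3]; norm_num

lemma par_nu : ∫ z, (dot (z - 1) 1) ^ 2 ∂nu = 0 := by
  unfold nu
  rw [integral_sum_dirac (fun i => ENNReal.ofReal_ne_top)]
  have : ∀ i : ℕ × Bool, (ENNReal.ofReal (wt i.1)).toReal • (dot (pt i - 1) 1) ^ 2 = 0 := by
    intro i
    simp [dot, pt_re]
  simp only [this, tsum_zero]

lemma perp_nu : ∫ z, z.im ^ 2 ∂nu = 31/16 := by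
  unfold nu
  rw [integral_sum_dirac (fun i => ENNReal.ofReal_ne_top)]
  simp only [toReal_wt, pt_im_sq, smul_eq_mul]
  rw [tsum_nb (summable_nb (f := fun k => wt k * 16^k) hasSum_wt16.summable
    (fun k => mul_nonneg (wt_pos k).le (by positivity)))]
  have := (hasSum_wt16.add hasSum_wt16).tsum_eq
  rw [this]; norm_num

lemma tail_nu (k : ℕ) : (1/2 : ℝ) * (1/32)^k ≤ nu.real {z | (4:ℝ)^k ≤ |z.im|} := by
  have hm : MeasurableSet {z : ℂ | (4:ℝ)^k ≤ |z.im|} :=
    measurableSet_le measurable_const (Complex.measurable_im.abs)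
  have h1 : ENNReal.ofReal (wt k) + ENNReal.ofReal (wt k) ≤ nu {z | (4:ℝ)^k ≤ |z.im|} := by
    unfold nu
    rw [Measure.sum_apply _ hm]
    have h2 := ENNReal.sum_le_tsum (f := fun i : ℕ × Bool =>
      (ENNReal.ofReal (wt i.1) • Measure.dirac (pt i)) {z : ℂ | (4:ℝ)^k ≤ |z.im|})
      ({(k, true), (k, false)} : Finset (ℕ × Bool))
    refine le_trans (le_of_eq ?_) h2
    rw [Finset.sum_pair (by simp)]
    have h3 : ∀ b, (ENNReal.ofReal (wt k) • Measure.dirac (pt (k, b))) {z : ℂ | (4:ℝ)^k ≤ |z.im|} =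
        ENNReal.ofReal (wt k) := by
      intro b
      rw [Measure.smul_apply, Measure.dirac_apply' _ hm, Set.indicator_of_mem]
      · simp
      · show (4:ℝ)^k ≤ |(pt (k, b)).im|
        unfold pt
        simp only
        split_ifs
        · exact le_abs_self _
        · rw [abs_neg]; exact le_abs_self _
    rw [h3, h3]
  have h2 : wt k + wt k ≤ nu.real {z | (4:ℝ)^k ≤ |z.im|} := by
    rw [measureReal_def, ← ENNReal.ofReal_le_iff_le_toReal (measure_ne_top _ _),
      ENNReal.ofReal_add (wt_pos k).le (wt_pos k).le]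
    exact h1
  refine le_trans ?_ h2
  unfold wt
  have : (0:ℝ) ≤ (1/32)^k := by positivity
  linarith

lemma tendsto_of_sqrt {v : ℕ → ℝ} {c : ℝ} (hc : 0 < c) (h : ∀ n : ℕ, 1 ≤ n → c * Real.sqrt n ≤ v n) :
    Tendsto (fun n : ℕ => v n / Real.log n) atTop atTop := by
  have h1 : Tendsto (fun x : ℝ => Real.log x / x ^ (1/2 : ℝ)) atTop (𝓝 0) :=
    (isLittleO_log_rpow_atTop (by norm_num : (0:ℝ) < 1/2)).tendsto_div_nhds_zero
  have h2 : Tendsto (fun n : ℕ => Real.log n / Real.sqrt n) atTop (𝓝 0) := by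
    have := h1.comp tendsto_natCast_atTop_atTop
    refine this.congr fun n => ?_
    simp [Real.sqrt_eq_rpow]
  have h3 : Tendsto (fun n : ℕ => Real.log n / Real.sqrt n) atTop (𝓝[>] 0) := by
    refine tendsto_nhdsWithin_iff.2 ⟨h2, ?_⟩
    filter_upwards [eventually_ge_atTop 2] with n hn
    have hn' : (1:ℝ) < n := by exact_mod_cast hn
    exact div_pos (Real.log_pos hn') (Real.sqrt_pos.2 (by linarith))
  have h4 : Tendsto (fun n : ℕ => (Real.log n / Real.sqrt n)⁻¹) atTop atTop :=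
    tendsto_inv_nhdsGT_zero.comp h3
  refine tendsto_atTop_mono' atTop ?_ (h4.const_mul_atTop hc)
  filter_upwards [eventually_ge_atTop 2] with n hn
  have hn' : (1:ℝ) < n := by exact_mod_cast hn
  rw [inv_div, ← mul_div_assoc]
  exact div_le_div_of_nonneg_right (h n (by omega)) (Real.log_pos hn').le

/-- every law has an i.i.d. sample -/
lemma exists_sample (ν : Measure ℂ) [IsProbabilityMeasure ν] :
    ∃ (Ω : Type) (_ : MeasurableSpace Ω) (P : Measure Ω) (_ : IsProbabilityMeasure P)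
      (Z : ℕ → Ω → ℂ), IsSample P ν Z := by
  refine ⟨ℕ → ℂ, inferInstance, Measure.infinitePi (fun _ : ℕ => ν), inferInstance,
    fun i ω => ω i, ?_, ?_, ?_⟩
  · intro i; exact measurable_pi_apply i
  · exact iIndepFun_infinitePi (X := fun _ x => x) (fun _ => measurable_id)
  · intro i
    exact Measure.infinitePi_map_eval _ i

theorem main : ∃ ν : Measure ℂ, IsProbabilityMeasure ν ∧
    Integrable (fun z => ‖z‖ ^ 2) ν ∧ (∫ z, z ∂ν) ≠ 0 ∧
    (∫ z, (dot (z - ∫ z, z ∂ν) ((∫ z, z ∂ν) / ‖∫ z, z ∂ν‖)) ^ 2 ∂ν) = 0 ∧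
    (∀ u : ℂ, ‖u‖ = 1 → dot u (∫ z, z ∂ν) = 0 →
      0 < ∫ z, (dot (z - ∫ z, z ∂ν) u) ^ 2 ∂ν) ∧
    (∃ (Ω : Type) (_ : MeasurableSpace Ω) (P : Measure Ω) (_ : IsProbabilityMeasure P)
      (Z : ℕ → Ω → ℂ), IsSample P ν Z) ∧
    ∀ (Ω : Type) (_ : MeasurableSpace Ω) (P : Measure Ω) (_ : IsProbabilityMeasure P)
      (Z : ℕ → Ω → ℂ), IsSample P ν Z →
      (∃ c : ℝ, 0 < c ∧ ∀ n : ℕ, 1 ≤ n → c * Real.sqrt n ≤ variance (L Z n) P) ∧
      Tendsto (fun n : ℕ => variance (L Z n) P / Real.log n) atTop atTop := by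
  refine ⟨nu, inferInstance, int_sq, ?_, ?_, ?_, exists_sample nu, ?_⟩
  · rw [mean_nu]; exact one_ne_zero
  · rw [mean_nu]
    simpa using par_nu
  · intro u hu hperp
    rw [mean_nu] at hperp ⊢
    have hre : u.re = 0 := by simpa [dot] using hperp
    have him : u.im ^ 2 = 1 := by
      have := Complex.normSq_eq_norm_sq u
      rw [hu, Complex.normSq_apply, hre] at this
      nlinarith
    have h1 : ∀ z : ℂ, (dot (z - 1) u) ^ 2 = z.im ^ 2 := by
      intro z
      simp only [dot, hre, Complex.sub_im, Complex.one_im]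
      nlinarith
    simp only [h1, perp_nu]
    norm_num
  · intro Ω _ P _ Z hZ
    obtain ⟨c, hc, h⟩ := hZ.var_ge int_sq tail_nu
    exact ⟨⟨c, hc, h⟩, tendsto_of_sqrt hc h⟩

end V11327.Hull
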