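import Pool.Agent.V11327.KOdefs

/-!
Writing oracle programs.
-/

set_option autoImplicit false

namespace Pool.Agent.V11327.KO

open Relation

theorem OC.num_inj : ∀ c d : OC, c.num = d.num → c = d := by
  intro c
  induction c with
  | zero => intro d h; cases d <;> simp only [OC.num] at h <;> first | rfl | omega
  | succ => intro d h; cases d <;> simp only [OC.num] at h <;> first | rfl | omega
  | left => intro d h; cases d <;> simp only [OC.num] at h <;> first | rfl | omega
  | right => intro d h; cases d <;> simp only [OC.num] at h <;> first | rfl | omega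
  | oracle => intro d h; cases d <;> simp only [OC.num] at h <;> first | rfl | omega
  | pair a b iha ihb =>
    intro d h
    cases d with
    | pair a' b' =>
      simp only [OC.num] at h
      have h1 : Nat.pair a.num b.num = Nat.pair a'.num b'.num := by omega
      obtain ⟨h2, h3⟩ := Nat.pair_eq_pair.1 h1
      rw [iha _ h2, ihb _ h3]
    | _ => simp only [OC.num] at h; omega
  | comp a b iha ihb =>
    intro d h
    cases d with
    | comp a' b' =>
      simp only [OC.num] at h
      have h1 : Nat.pair a.num b.num = Nat.pair a'.num b'.num := by omega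
      obtain ⟨h2, h3⟩ := Nat.pair_eq_pair.1 h1
      rw [iha _ h2, ihb _ h3]
    | _ => simp only [OC.num] at h; omega
  | prec a b iha ihb =>
    intro d h
    cases d with
    | prec a' b' =>
      simp only [OC.num] at h
      have h1 : Nat.pair a.num b.num = Nat.pair a'.num b'.num := by omega
      obtain ⟨h2, h3⟩ := Nat.pair_eq_pair.1 h1
      rw [iha _ h2, ihb _ h3]
    | _ => simp only [OC.num] at h; omega
  | rfind a iha =>
    intro d h
    cases d with
    | rfind a' =>
      simp only [OC.num] at h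
      rw [iha a' (by omega)]
    | _ => simp only [OC.num] at h; omega

theorem Phi.unique {x : R2} {e n m m' : ℕ} (h : Phi x e n m) (h' : Phi x e n m') : m = m' := by
  obtain ⟨c, hc, h1⟩ := h
  obtain ⟨c', hc', h2⟩ := h'
  rw [OC.num_inj c' c (hc'.trans hc.symm)] at h2
  exact Part.mem_unique h1 h2

theorem phi_num {x : R2} {c : OC} {n m : ℕ} : Phi x c.num n m ↔ m ∈ c.eval x n := by
  constructor
  · rintro ⟨c', hc', h⟩
    rwa [OC.num_inj c' c hc'] at h
  · intro h; exact ⟨c, rfl, h⟩

/-- The family of partial functions is given by one program. -/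
def Unif (f : R2 → ℕ →. ℕ) : Prop := ∃ c : OC, ∀ x, c.eval x = f x

theorem Unif.of_partrec {g : ℕ →. ℕ} (h : Nat.Partrec g) : Unif (fun _ => g) := by
  induction h with
  | zero => exact ⟨.zero, fun x => rfl⟩
  | succ => exact ⟨.succ, fun x => rfl⟩
  | left => exact ⟨.left, fun x => rfl⟩
  | right => exact ⟨.right, fun x => rfl⟩
  | pair _ _ ih1 ih2 =>
    obtain ⟨c, hc⟩ := ih1
    obtain ⟨d, hd⟩ := ih2
    exact ⟨.pair c d, fun x => by simp only [OC.eval, hc, hd] <;> rfl⟩
  | comp _ _ ih1 ih2 =>
    obtain ⟨c, hc⟩ := ih1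
    obtain ⟨d, hd⟩ := ih2
    exact ⟨.comp c d, fun x => by simp only [OC.eval, hc, hd] <;> rfl⟩
  | prec _ _ ih1 ih2 =>
    obtain ⟨c, hc⟩ := ih1
    obtain ⟨d, hd⟩ := ih2
    refine ⟨.prec c d, fun x => ?_⟩
    simp only [OC.eval, hc, hd] <;> rfl
  | rfind _ ih1 =>
    obtain ⟨c, hc⟩ := ih1
    refine ⟨.rfind c, fun x => ?_⟩
    simp only [OC.eval, hc] <;> rfl

theorem Unif.of_computable {g : ℕ → ℕ} (h : Computable g) :
    Unif (fun _ n => Part.some (g n)) := Unif.of_partrec (Partrec.nat_iff.1 h)

theorem Unif.comp {f g : R2 → ℕ →. ℕ} (hf : Unif f) (hg : Unif g) :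
    Unif (fun x n => g x n >>= f x) := by
  obtain ⟨c, hc⟩ := hf
  obtain ⟨d, hd⟩ := hg
  exact ⟨.comp c d, fun x => by simp only [OC.eval, hc, hd] <;> rfl⟩

theorem Unif.pair {f g : R2 → ℕ →. ℕ} (hf : Unif f) (hg : Unif g) :
    Unif (fun x n => Nat.pair <$> f x n <*> g x n) := by
  obtain ⟨c, hc⟩ := hf
  obtain ⟨d, hd⟩ := hg
  exact ⟨.pair c d, fun x => by simp only [OC.eval, hc, hd] <;> rfl⟩

theorem Unif.rfind {f : R2 → ℕ →. ℕ} (hf : Unif f) :
    Unif (fun x a => Nat.rfind fun n => (fun m => m = 0) <$> f x (Nat.pair a n)) := by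
  obtain ⟨c, hc⟩ := hf
  exact ⟨.rfind c, fun x => by simp only [OC.eval, hc] <;> rfl⟩

theorem Unif.oracle : Unif (fun x n => Part.some (x n).toNat) := ⟨.oracle, fun _ => rfl⟩

/-- Search for an index where the oracle answers yes. -/
def srch (x : R2) (g : ℕ → ℕ) (a : ℕ) : Part ℕ :=
  Nat.rfind fun n => (fun m => m = 0) <$>
    (Part.some (1 - (x (g (Nat.pair a n))).toNat) : Part ℕ)

theorem Unif.srch {g : ℕ → ℕ} (hg : Computable g) : Unif (fun x a => srch x g a) := by
  have h1 : Unif (fun x n => Part.some (1 - (x (g n)).toNat)) := by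
    have h2 : Unif (fun _ n => Part.some (1 - n)) := Unif.of_computable
      ((Primrec.nat_sub.comp (Primrec.const 1) Primrec.id).to_comp)
    have h3 := h2.comp (Unif.oracle.comp (Unif.of_computable hg))
    obtain ⟨c, hc⟩ := h3
    exact ⟨c, fun x => by rw [hc]; funext n; simp⟩
  exact h1.rfind

theorem mem_srch {x : R2} {g : ℕ → ℕ} {a v : ℕ} : v ∈ srch x g a ↔
    x (g (Nat.pair a v)) = true ∧ ∀ m < v, x (g (Nat.pair a m)) = false := by
  refine (Nat.mem_rfind (p := fun n => (fun m => decide (m = 0)) <$>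
    (Part.some (1 - (x (g (Nat.pair a n))).toNat) : Part ℕ)) (n := v)).trans ?_
  have key : ∀ m, (true ∈ ((fun m => decide (m = 0)) <$>
      (Part.some (1 - (x (g (Nat.pair a m))).toNat) : Part ℕ) : Part Bool)) ↔
      x (g (Nat.pair a m)) = true := by
    intro m
    cases h : x (g (Nat.pair a m)) <;> simp
  have key2 : ∀ m, (false ∈ ((fun m => decide (m = 0)) <$>
      (Part.some (1 - (x (g (Nat.pair a m))).toNat) : Part ℕ) : Part Bool)) ↔
      x (g (Nat.pair a m)) = false := by
    intro m
    cases h : x (g (Nat.pair a m)) <;> simp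
  rw [key]
  simp only [key2]

end Pool.Agent.V11327.KO
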