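import Mathlib

/-!
Oracle programs, Kleene's `O` relative to a real, well-orderings with domain `ω`, functionals that
clarify them, and reducibility of functionals.
-/

set_option autoImplicit false

namespace Pool.Agent.V11327.KO

/-- Reals: elements of Cantor space. -/
abbrev R2 := ℕ → Bool

/-- Programs with an oracle. -/
inductive OC
  | zero : OC
  | succ : OC
  | left : OC
  | right : OC
  | oracle : OC
  | pair : OC → OC → OC
  | comp : OC → OC → OC
  | prec : OC → OC → OC
  | rfind : OC → OC

/-- The partial function computed by a program from the oracle `x`. -/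
def OC.eval (x : R2) : OC → ℕ →. ℕ
  | .zero => fun _ => Part.some 0
  | .succ => fun n => Part.some (n + 1)
  | .left => fun n => Part.some n.unpair.1
  | .right => fun n => Part.some n.unpair.2
  | .oracle => fun n => Part.some (x n).toNat
  | .pair f h => fun n => Nat.pair <$> f.eval x n <*> h.eval x n
  | .comp f h => fun n => h.eval x n >>= f.eval x
  | .prec f h => fun p =>
      let (a, n) := Nat.unpair p
      n.rec (f.eval x a) fun y IH => do
        let i ← IH
        h.eval x (Nat.pair a (Nat.pair y i))
  | .rfind f => fun a => Nat.rfind fun n => (fun m => m = 0) <$> f.eval x (Nat.pair a n)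

/-- The number of a program. -/
def OC.num : OC → ℕ
  | .zero => 0
  | .succ => 1
  | .left => 2
  | .right => 3
  | .oracle => 4
  | .pair f h => 4 * Nat.pair f.num h.num + 5
  | .comp f h => 4 * Nat.pair f.num h.num + 6
  | .prec f h => 4 * Nat.pair f.num h.num + 7
  | .rfind f => 4 * f.num + 8

/-- `Phi x e n m`: the `e`-th partial function computable from `x` has the value `m` at `n`. -/
def Phi (x : R2) (e n m : ℕ) : Prop := ∃ c : OC, c.num = e ∧ m ∈ c.eval x n

/-- `b` is an immediate predecessor of `a` in the system of notations. -/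
def Pre (x : R2) (b a : ℕ) : Prop := (b ≠ 0 ∧ a = 2 ^ b) ∨ ∃ e n, a = 3 * 5 ^ e ∧ Phi x e n b

/-- The relation `b <_O a` (used for notations `a`). -/
def LtO (x : R2) : ℕ → ℕ → Prop := Relation.TransGen (Pre x)

/-- Kleene's `O` relative to `x`, as a set of natural numbers. -/
inductive InO (x : R2) : ℕ → Prop
  | one : InO x 1
  | suc (a : ℕ) : InO x a → InO x (2 ^ a)
  | lim (e : ℕ) (f : ℕ → ℕ) : (∀ n, Phi x e n (f n)) → (∀ n, InO x (f n)) →
      (∀ n, LtO x (f n) (f (n + 1))) → InO x (3 * 5 ^ e)

open Classical in
/-- The functional `x ↦ O^x`. -/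
noncomputable def kleeneO (x : R2) : R2 := fun a => decide (InO x a)

/-- The binary relation on `ω` coded by `A`. -/
def less (A : R2) (m n : ℕ) : Prop := A (Nat.pair m n) = true

/-- `A` codes a well-ordering with domain `ω`. -/
def IsWO (A : R2) : Prop := IsWellOrder ℕ (less A)

/-- `i` is an isomorphism from `A` to `B`. -/
def IsIso (A B : R2) (i : ℕ ≃ ℕ) : Prop := ∀ m n, less A m n ↔ less B (i m) (i n)

/-- The join of two reals. -/
def join (x y : R2) : R2 := fun n => if n % 2 = 0 then x (n / 2) else y (n / 2)

/-- `f` is Turing computable from `x`. -/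
def TComp (x : R2) (f : ℕ → ℕ) : Prop :=
  Nat.RecursiveIn {fun n => Part.some (x n).toNat} (fun n => Part.some (f n))

/-- `F` clarifies the class of countable well-orderings. -/
def Clarifies (F : R2 → R2) : Prop := ∀ A B, IsWO A → IsWO B → (∃ i, IsIso A B i) →
  ∃ i : ℕ ≃ ℕ, IsIso A B i ∧ TComp (join (F A) (F B)) i

/-- `J` is continuously reducible to `F`. -/
def ContRed (J F : R2 → R2) : Prop := ∃ R0 R1 : R2 → R2, Continuous R0 ∧ Continuous R1 ∧
  ∀ x, R1 (F (R0 x)) = J x

/-- `J` is reducible to `F` by Borel maps. -/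
def BorelRed (J F : R2 → R2) : Prop := ∃ R0 R1 : R2 → R2, Measurable R0 ∧ Measurable R1 ∧
  ∀ x, R1 (F (R0 x)) = J x

end Pool.Agent.V11327.KO
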