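import Pool.Agent.V11327.KOmeas

/-!
The functional `x ↦ O^x` is not reducible, even by Borel maps, to the functional that gives
isomorphisms of countable well-orderings to canonical copies.
-/

set_option autoImplicit false

namespace Pool.Agent.V11327.KO

open Relation Set MeasureTheory Pool.Agent.V11327.WB

instance instPolishR2 : PolishSpace R2 where

theorem no_descent {α : Type} {r : α → α → Prop} {a : α} (h : Acc r a) :
    ∀ b : ℕ → α, r (b 0) a → (∀ n, r (b (n + 1)) (b n)) → False := by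
  induction h with
  | intro a _ ih =>
    intro b h0 h1
    exact ih (b 0) h0 (fun n => b (n + 1)) (h1 0) (fun n => h1 (n + 1))

theorem named_empty_wf {p : B} (h : named p = ∅) (s : List ℕ) : WFt (Tn p []) s := by
  intro y hy
  have h1 := (brAt_Tn.1 (brAt_app (isTr_Tn p []) hy)).1
  rw [h] at h1
  exact h1

theorem named_nonempty_branch {p : B} (h : named p ≠ ∅) : ∃ y : B, ∀ n, Tn p [] (rs y n) := by
  obtain ⟨y, hy⟩ := nonempty_iff_ne_empty.2 h
  refine ⟨y, fun n => ?_⟩
  have := (brAt_Tn (u := [])).2 ⟨hy, rfl⟩ n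
  rwa [List.append_nil] at this

theorem rk_le_root {p : B} (h : named p = ∅) : ∀ s : List ℕ, Tn p [] s →
    rk (Tn p []) s ≤ rk (Tn p []) [] := by
  intro s
  induction s with
  | nil => intro _; exact le_rfl
  | cons a s ih =>
    intro hs
    have h1 := rk_lt (chd_wf (isTr_Tn p []) (named_empty_wf h s)) hs
    exact h1.le.trans (ih (isTr_Tn p [] _ _ hs))

theorem rk_attained {R : List ℕ → Prop} {s : List ℕ} (h : Acc (Chd R) s) :
    ∀ o : Ordinal.{0}, o < rk R s → o ∈ range (rk R) := by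
  induction h with
  | intro s hs ih =>
    intro o ho
    have hacc : Acc (Chd R) s := ⟨s, hs⟩
    by_contra hno
    have h1 : rk R s ≤ o := by
      refine rk_le hacc fun a ha => ?_
      by_contra h2
      rw [not_lt] at h2
      rcases eq_or_lt_of_le h2 with h3 | h3
      · exact hno ⟨_, h3.symm⟩
      · exact hno (ih _ ⟨ha, a, rfl⟩ o h3)
    exact absurd ho (not_lt.2 h1)

/-- Analyticity of a set of names from analyticity of one set of notations. -/
theorem analytic_transfer {Pe : Set R2} (hPe : AnalyticSet Pe)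
    {G : B → R2 → (List ℕ → ℕ) → Prop}
    (hG : MeasurableSet {w : B × (R2 × (List ℕ → ℕ)) | G w.1 w.2.1 w.2.2}) :
    AnalyticSet {p : B | ∃ x ∈ Pe, ∃ f, G p x f} := by
  have h : {p : B | ∃ x ∈ Pe, ∃ f, G p x f} = Prod.fst '' (⋂ b : Bool,
      cond b ((fun w : B × (R2 × (List ℕ → ℕ)) => w.2.1) ⁻¹' Pe)
        {w : B × (R2 × (List ℕ → ℕ)) | G w.1 w.2.1 w.2.2}) := by
    ext p
    constructor
    · rintro ⟨x, hx, f, hf⟩
      refine ⟨(p, (x, f)), ?_, rfl⟩
      rw [mem_iInter]
      intro b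
      cases b
      · exact hf
      · exact hx
    · rintro ⟨⟨p', x, f⟩, hw, rfl⟩
      rw [mem_iInter] at hw
      exact ⟨x, hw true, f, hw false⟩
  rw [h]
  refine AnalyticSet.image_of_continuous (AnalyticSet.iInter fun b => ?_) continuous_fst
  cases b
  · exact hG.analyticSet
  · exact hPe.preimage (continuous_fst.comp continuous_snd)

/-- The number of the notation used in the argument. -/
noncomputable def topN : ℕ := 3 * 5 ^ look 0

theorem not_analytic_top : ¬ AnalyticSet {x : R2 | InO x topN} := by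
  classical
  intro hPe
  have hG : MeasurableSet {w : B × (R2 × (List ℕ → ℕ)) |
      (∀ s, Tn w.1 [] s → LtO w.2.1 (w.2.2 s) topN) ∧
      ∀ a s, Tn w.1 [] (a :: s) → LtO w.2.1 (w.2.2 (a :: s)) (w.2.2 s)} := by
    have e : {w : B × (R2 × (List ℕ → ℕ)) |
      (∀ s, Tn w.1 [] s → LtO w.2.1 (w.2.2 s) topN) ∧
      ∀ a s, Tn w.1 [] (a :: s) → LtO w.2.1 (w.2.2 (a :: s)) (w.2.2 s)} =
      (⋂ s : List ℕ, ({w : B × (R2 × (List ℕ → ℕ)) | Tn w.1 [] s}ᶜ ∪
        ⋃ v : ℕ, {w | w.2.2 s = v} ∩ {w | LtO w.2.1 v topN})) ∩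
      ⋂ a : ℕ, ⋂ s : List ℕ, ({w : B × (R2 × (List ℕ → ℕ)) | Tn w.1 [] (a :: s)}ᶜ ∪
        ⋃ u : ℕ, ⋃ v : ℕ, {w | w.2.2 (a :: s) = u} ∩ ({w | w.2.2 s = v} ∩
          {w | LtO w.2.1 u v})) := by
      ext w
      simp only [mem_inter_iff, mem_iInter, mem_union, mem_compl_iff, mem_iUnion, mem_ofPred_eq,
        exists_eq_left', imp_iff_not_or]
      refine and_congr Iff.rfl (forall_congr' fun a => forall_congr' fun s => or_congr Iff.rfl ?_)
      constructor
      · intro h; exact ⟨_, _, rfl, rfl, h⟩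
      · rintro ⟨u, v, h1, h2, h3⟩; rw [h1, h2]; exact h3
    rw [e]
    have hT : ∀ s, MeasurableSet {w : B × (R2 × (List ℕ → ℕ)) | Tn w.1 [] s} := fun s =>
      measurable_fst (meas_Tn [] s)
    have hv : ∀ s (v : ℕ), MeasurableSet {w : B × (R2 × (List ℕ → ℕ)) | w.2.2 s = v} := by
      intro s v
      have h1 : Measurable (fun w : B × (R2 × (List ℕ → ℕ)) => w.2.2 s) :=
        (measurable_pi_apply s).comp (measurable_snd.comp measurable_snd)
      exact h1 (measurableSet_singleton v)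
    have hL : ∀ u v, MeasurableSet {w : B × (R2 × (List ℕ → ℕ)) | LtO w.2.1 u v} := fun u v =>
      (measurable_fst.comp measurable_snd) (meas_LtO u v)
    refine MeasurableSet.inter (MeasurableSet.iInter fun s => (hT s).compl.union
      (MeasurableSet.iUnion fun v => (hv s v).inter (hL v _))) ?_
    exact MeasurableSet.iInter fun a => MeasurableSet.iInter fun s => (hT _).compl.union
      (MeasurableSet.iUnion fun u => MeasurableSet.iUnion fun v =>
        (hv _ u).inter ((hv s v).inter (hL u v)))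
  have h := analytic_transfer hPe (G := fun p x f => (∀ s, Tn p [] s → LtO x (f s) topN) ∧
      ∀ a s, Tn p [] (a :: s) → LtO x (f (a :: s)) (f s)) hG
  apply not_analytic_empty
  convert h using 1
  ext p
  constructor
  · intro hp
    have hp' : named p = ∅ := hp
    set T := Tn p [] with hT
    set τ : Ordinal.{0} := Order.succ (rk T []) with hτ
    have hW : (insert τ (range (rk T))).Countable := (countable_range _).insert _
    obtain ⟨g, hg⟩ := countable_iff_exists_injOn.1 hW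
    let lab : Ordinal.{0} → ℕ := fun w => if w = τ then 0 else g w + 1
    have hlab : InjOn lab (insert τ (range (rk T))) := by
      intro u hu v hv huv
      by_cases h1 : u = τ
      · by_cases h2 : v = τ
        · rw [h1, h2]
        · simp [lab, h1, h2] at huv
      · by_cases h2 : v = τ
        · simp [lab, h1, h2] at huv
        · simp only [lab, h1, h2, if_false, Nat.add_right_cancel_iff] at huv
          exact hg hu hv huv
    obtain ⟨x, hx1, hx2⟩ := exists_real _ hW lab hlab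
    have htop : base (insert τ (range (rk T))) lab τ = topN := by
      have h1 : ∃ u ∈ insert τ (range (rk T)), u < τ :=
        ⟨rk T [], mem_insert_of_mem _ ⟨_, rfl⟩, Order.lt_succ _⟩
      rw [base, if_pos h1]
      simp [lab, topN]
    refine ⟨x, ?_, fun s => base (insert τ (range (rk T))) lab (rk T s), fun s hs => ?_,
      fun a s hs => ?_⟩
    · show InO x topN
      rw [← htop]
      exact hx1 τ (mem_insert _ _)
    · rw [← htop]
      exact hx2 τ (mem_insert _ _) _ (mem_insert_of_mem _ ⟨s, rfl⟩)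
        (Order.lt_succ_iff.2 (rk_le_root hp' s hs))
    · exact hx2 _ (mem_insert_of_mem _ ⟨s, rfl⟩) _ (mem_insert_of_mem _ ⟨_, rfl⟩)
        (rk_lt (chd_wf (isTr_Tn p []) (named_empty_wf hp' s)) hs)
  · rintro ⟨x, hx, f, h1, h2⟩
    by_contra hne
    obtain ⟨y, hy⟩ := named_nonempty_branch hne
    have hacc : Acc (LtO x) topN := (InO.acc hx).transGen
    exact no_descent hacc (fun n => f (rs y n)) (h1 _ (hy 0))
      (fun n => h2 (y n) (rs y n) (hy (n + 1)))

theorem continuous_gr : Continuous gr := by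
  refine continuous_pi fun t => ?_
  have h : (fun i : ℕ → ℕ => gr i t) = (fun m => decide (m = t.unpair.2)) ∘
      (fun i : ℕ → ℕ => i t.unpair.1) := rfl
  rw [h]
  exact continuous_of_discreteTopology.comp (continuous_apply _)

theorem not_borelRed : ¬ BorelRed kleeneO Fc := by
  classical
  rintro ⟨R0, R1, hm0, hm1, hred⟩
  set K : Set R2 := {x | IsWO (R0 x)} with hK
  have hsub : Kᶜ.Subsingleton := by
    intro x hx y hy
    apply kleeneO_injective
    have h1 : Fc (R0 x) = fun _ => false := by rw [Fc, dif_neg (show ¬ IsWO (R0 x) from hx)]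
    have h2 : Fc (R0 y) = fun _ => false := by rw [Fc, dif_neg (show ¬ IsWO (R0 y) from hy)]
    rw [← hred x, ← hred y, h1, h2]
  have hKm : MeasurableSet K := by
    have := hsub.measurableSet.compl
    rwa [compl_compl] at this
  have hless : ∀ (m n : ℕ), MeasurableSet {x : R2 | less (R0 x) m n} := by
    intro m n
    have h1 : MeasurableSet {A : R2 | less A m n} := by
      have h2 : {A : R2 | less A m n} = (fun A : R2 => A (Nat.pair m n)) ⁻¹' {true} := by
        ext A; rfl
      rw [h2]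
      exact (measurable_pi_apply _) (MeasurableSet.of_discrete)
    exact hm0 h1
  -- the orders `R0 x`, `x ∈ K`, are bounded
  have hbdd : ∃ p0 : B, named p0 = ∅ ∧ ∀ x ∈ K, ¬ ∃ f : List ℕ → ℕ,
      ∀ a s, Tn p0 [] (a :: s) → less (R0 x) (f (a :: s)) (f s) := by
    by_contra hcon
    push Not at hcon
    have hG : MeasurableSet {w : B × (R2 × (List ℕ → ℕ)) |
        ∀ a s, Tn w.1 [] (a :: s) → less (R0 w.2.1) (w.2.2 (a :: s)) (w.2.2 s)} := by
      have e : {w : B × (R2 × (List ℕ → ℕ)) |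
        ∀ a s, Tn w.1 [] (a :: s) → less (R0 w.2.1) (w.2.2 (a :: s)) (w.2.2 s)} =
        ⋂ a : ℕ, ⋂ s : List ℕ, ({w : B × (R2 × (List ℕ → ℕ)) | Tn w.1 [] (a :: s)}ᶜ ∪
          ⋃ u : ℕ, ⋃ v : ℕ, {w | w.2.2 (a :: s) = u} ∩ ({w | w.2.2 s = v} ∩
            {w | less (R0 w.2.1) u v})) := by
        ext w
        simp only [mem_inter_iff, mem_iInter, mem_union, mem_compl_iff, mem_iUnion, mem_ofPred_eq,
          imp_iff_not_or]
        refine forall_congr' fun a => forall_congr' fun s => or_congr Iff.rfl ?_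
        constructor
        · intro h; exact ⟨_, _, rfl, rfl, h⟩
        · rintro ⟨u, v, h1, h2, h3⟩; rw [h1, h2]; exact h3
      rw [e]
      have hT : ∀ s, MeasurableSet {w : B × (R2 × (List ℕ → ℕ)) | Tn w.1 [] s} := fun s =>
        measurable_fst (meas_Tn [] s)
      have hv : ∀ s (v : ℕ), MeasurableSet {w : B × (R2 × (List ℕ → ℕ)) | w.2.2 s = v} := by
        intro s v
        have h1 : Measurable (fun w : B × (R2 × (List ℕ → ℕ)) => w.2.2 s) :=
          (measurable_pi_apply s).comp (measurable_snd.comp measurable_snd)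
        exact h1 (measurableSet_singleton v)
      have hL : ∀ u v, MeasurableSet {w : B × (R2 × (List ℕ → ℕ)) | less (R0 w.2.1) u v} :=
        fun u v => (measurable_fst.comp measurable_snd) (hless u v)
      exact MeasurableSet.iInter fun a => MeasurableSet.iInter fun s => (hT _).compl.union
        (MeasurableSet.iUnion fun u => MeasurableSet.iUnion fun v =>
          (hv _ u).inter ((hv s v).inter (hL u v)))
    have h := analytic_transfer hKm.analyticSet (G := fun p x f =>
      ∀ a s, Tn p [] (a :: s) → less (R0 x) (f (a :: s)) (f s)) hG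
    apply not_analytic_empty
    convert h using 1
    ext p
    constructor
    · intro hp
      obtain ⟨x, hx, f, hf⟩ := hcon p hp
      exact ⟨x, hx, f, hf⟩
    · rintro ⟨x, hx, f, hf⟩
      by_contra hne
      obtain ⟨y, hy⟩ := named_nonempty_branch hne
      have hwo : IsWellOrder ℕ (less (R0 x)) := hx
      have hwf : WellFounded (less (R0 x)) := hwo.wf
      exact no_descent (hwf.apply (f (rs y 0))) (fun n => f (rs y (n + 1)))
        (hf (y 0) (rs y 0) (hy 1)) (fun n => hf (y (n + 1)) (rs y (n + 1)) (hy (n + 2)))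
  obtain ⟨p0, hp0, hno⟩ := hbdd
  set T := Tn p0 [] with hT
  set ρ : Ordinal.{0} := rk T [] with hρ
  have htype : ∀ A : WOc, (∃ x ∈ K, R0 x = A.1) →
      haveI : IsWellOrder ℕ (less A.1) := A.2
      Ordinal.type (less A.1) ≤ ρ := by
    rintro ⟨A, hA⟩ ⟨x, hx, hxA⟩
    haveI hwo : IsWellOrder ℕ (less A) := hA
    by_contra hlt
    rw [not_le] at hlt
    apply hno x hx
    let f : List ℕ → ℕ := fun s => if h : rk T s < Ordinal.type (less A) then
      Ordinal.enum (less A) ⟨rk T s, h⟩ else 0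
    refine ⟨f, fun a s hs => ?_⟩
    have hTr : Tn p0 [] s := isTr_Tn p0 [] _ _ hs
    have h1 : rk T s < Ordinal.type (less A) := (rk_le_root hp0 s hTr).trans_lt hlt
    have h2 : rk T (a :: s) < Ordinal.type (less A) := (rk_le_root hp0 _ hs).trans_lt hlt
    have h3 : rk T (a :: s) < rk T s := rk_lt (chd_wf (isTr_Tn p0 []) (named_empty_wf hp0 s)) hs
    rw [hxA]
    simp only [f, dif_pos h1, dif_pos h2]
    exact (Ordinal.enum_lt_enum (r := less A)).2 h3
  -- the canonical copies that occur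
  let ty : WOc → Ordinal.{0} := fun A =>
    haveI : IsWellOrder ℕ (less A.1) := A.2
    Ordinal.type (less A.1)
  have hty : ∀ A C : WOc, ty A = ty C ↔ ∃ i, IsIso A.1 C.1 i := by
    intro A C
    haveI hA : IsWellOrder ℕ (less A.1) := A.2
    haveI hC : IsWellOrder ℕ (less C.1) := C.2
    show Ordinal.type (less A.1) = Ordinal.type (less C.1) ↔ _
    rw [Ordinal.type_eq]
    constructor
    · rintro ⟨e⟩
      exact ⟨e.toEquiv, fun m n => (e.map_rel_iff).symm⟩
    · rintro ⟨i, hi⟩
      exact ⟨⟨i, fun {a b} => (hi a b).symm⟩⟩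
  let Q : Set WOc := {c | (∃ A, c = can A) ∧ ty c ≤ ρ}
  have hQ : Q.Countable := by
    have h1 : (Iic ρ).Countable := by
      refine (countable_range (rk T)).mono ?_
      intro o ho
      rcases eq_or_lt_of_le (show o ≤ ρ from ho) with h | h
      · exact ⟨[], h.symm⟩
      · exact rk_attained (chd_wf (isTr_Tn p0 []) (named_empty_wf hp0 [])) o h
    refine Set.MapsTo.countable_of_injOn (f := ty) (t := Iic ρ) ?_ ?_ h1
    · rintro c ⟨-, hc⟩; exact hc
    · rintro c ⟨⟨A, rfl⟩, -⟩ d ⟨⟨C, rfl⟩, -⟩ h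
      have h2 := can_eq ((hty _ _).1 h)
      rwa [can_can, can_can] at h2
  have key : ∀ x, x ∈ K → (InO x topN ↔ ∃ c : Q, ∃ w : (ℕ → ℕ) × (ℕ → ℕ),
      ((∀ n, w.1 (w.2 n) = n ∧ w.2 (w.1 n) = n) ∧
      (∀ m n, less (R0 x) m n ↔ less c.1.1 (w.1 m) (w.1 n))) ∧ R1 (gr w.1) topN = true) := by
    intro x hx
    have hO : InO x topN ↔ R1 (Fc (R0 x)) topN = true := by
      rw [hred x]; simp [kleeneO]
    have hF : Fc (R0 x) = gr (kap ⟨R0 x, hx⟩) := Fc_eq ⟨R0 x, hx⟩
    have hcq : can ⟨R0 x, hx⟩ ∈ Q := by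
      refine ⟨⟨_, rfl⟩, ?_⟩
      have h1 : ty (can ⟨R0 x, hx⟩) = ty ⟨R0 x, hx⟩ := by
        rw [eq_comm, hty]
        exact can_iso _
      rw [h1]
      exact htype ⟨R0 x, hx⟩ ⟨x, hx, rfl⟩
    rw [hO, hF]
    constructor
    · intro h
      refine ⟨⟨_, hcq⟩, (kap ⟨R0 x, hx⟩, (kap ⟨R0 x, hx⟩).symm), ⟨fun n => by simp, ?_⟩, h⟩
      exact kap_spec ⟨R0 x, hx⟩
    · rintro ⟨⟨c, ⟨A, rfl⟩, hc⟩, ⟨i, j⟩, ⟨h1, h2⟩, h3⟩
      let I : ℕ ≃ ℕ := ⟨i, j, fun n => (h1 n).2, fun n => (h1 n).1⟩
      have hI : IsIso (R0 x) (can A).1 I := h2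
      have h4 : can ⟨R0 x, hx⟩ = can A := by
        have := can_eq (A := ⟨R0 x, hx⟩) (C := can A) ⟨I, hI⟩
        rwa [can_can] at this
      have h5 := kap_spec ⟨R0 x, hx⟩
      rw [h4] at h5
      have h6 := iso_unique (can A).2 h5 hI
      have h7 : gr (kap ⟨R0 x, hx⟩) = gr i := by rw [h6]; rfl
      rw [h7]
      exact h3
  have hQc : Countable Q := hQ.to_subtype
  have hana : AnalyticSet (⋃ c : Q, {x : R2 | ∃ w : (ℕ → ℕ) × (ℕ → ℕ), x ∈ K ∧
      ((∀ n, w.1 (w.2 n) = n ∧ w.2 (w.1 n) = n) ∧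
      (∀ m n, less (R0 x) m n ↔ less c.1.1 (w.1 m) (w.1 n))) ∧ R1 (gr w.1) topN = true}) := by
    refine AnalyticSet.iUnion fun c => ?_
    have hm : MeasurableSet {v : R2 × ((ℕ → ℕ) × (ℕ → ℕ)) | v.1 ∈ K ∧
      ((∀ n, v.2.1 (v.2.2 n) = n ∧ v.2.2 (v.2.1 n) = n) ∧
      (∀ m n, less (R0 v.1) m n ↔ less c.1.1 (v.2.1 m) (v.2.1 n))) ∧
        R1 (gr v.2.1) topN = true} := by
      have c1 : ∀ (k : ℕ), Measurable (fun v : R2 × ((ℕ → ℕ) × (ℕ → ℕ)) => v.2.1 k) := fun k =>
        (measurable_pi_apply k).comp (measurable_fst.comp measurable_snd)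
      have c2 : ∀ (k : ℕ), Measurable (fun v : R2 × ((ℕ → ℕ) × (ℕ → ℕ)) => v.2.2 k) := fun k =>
        (measurable_pi_apply k).comp (measurable_snd.comp measurable_snd)
      have e1 : ∀ n, MeasurableSet {v : R2 × ((ℕ → ℕ) × (ℕ → ℕ)) | v.2.1 (v.2.2 n) = n} := by
        intro n
        have : {v : R2 × ((ℕ → ℕ) × (ℕ → ℕ)) | v.2.1 (v.2.2 n) = n} =
            ⋃ k : ℕ, {v | v.2.2 n = k} ∩ {v | v.2.1 k = n} := by
          ext v; simp
        rw [this]
        exact MeasurableSet.iUnion fun k => (c2 n (measurableSet_singleton k)).inter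
          (c1 k (measurableSet_singleton n))
      have e2 : ∀ n, MeasurableSet {v : R2 × ((ℕ → ℕ) × (ℕ → ℕ)) | v.2.2 (v.2.1 n) = n} := by
        intro n
        have : {v : R2 × ((ℕ → ℕ) × (ℕ → ℕ)) | v.2.2 (v.2.1 n) = n} =
            ⋃ k : ℕ, {v | v.2.1 n = k} ∩ {v | v.2.2 k = n} := by
          ext v; simp
        rw [this]
        exact MeasurableSet.iUnion fun k => (c1 n (measurableSet_singleton k)).inter
          (c2 k (measurableSet_singleton n))
      have e3 : ∀ m n, MeasurableSet {v : R2 × ((ℕ → ℕ) × (ℕ → ℕ)) |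
          less (R0 v.1) m n ↔ less c.1.1 (v.2.1 m) (v.2.1 n)} := by
        intro m n
        have h1 : MeasurableSet {v : R2 × ((ℕ → ℕ) × (ℕ → ℕ)) | less (R0 v.1) m n} :=
          measurable_fst (hless m n)
        have h2 : MeasurableSet {v : R2 × ((ℕ → ℕ) × (ℕ → ℕ)) |
            less c.1.1 (v.2.1 m) (v.2.1 n)} := by
          have h3 : {v : R2 × ((ℕ → ℕ) × (ℕ → ℕ)) | less c.1.1 (v.2.1 m) (v.2.1 n)} =
              (fun v : R2 × ((ℕ → ℕ) × (ℕ → ℕ)) => (v.2.1 m, v.2.1 n)) ⁻¹'
                {u | less c.1.1 u.1 u.2} := rfl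
          rw [h3]
          exact ((c1 m).prodMk (c1 n)) (MeasurableSet.of_discrete)
        exact h1.iff h2
      have e4 : MeasurableSet {v : R2 × ((ℕ → ℕ) × (ℕ → ℕ)) | R1 (gr v.2.1) topN = true} := by
        have h1 : Measurable (fun v : R2 × ((ℕ → ℕ) × (ℕ → ℕ)) => R1 (gr v.2.1) topN) :=
          (measurable_pi_apply topN).comp (hm1.comp (continuous_gr.measurable.comp
            (measurable_fst.comp measurable_snd)))
        exact h1 (measurableSet_singleton true)
      refine (measurable_fst hKm).inter (MeasurableSet.inter (MeasurableSet.inter ?_ ?_) e4)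
      · have h1 : {v : R2 × ((ℕ → ℕ) × (ℕ → ℕ)) | ∀ n, v.2.1 (v.2.2 n) = n ∧
            v.2.2 (v.2.1 n) = n} = ⋂ n : ℕ, ({v | v.2.1 (v.2.2 n) = n} ∩
              {v | v.2.2 (v.2.1 n) = n}) := by
          ext v; simp
        have h2 := MeasurableSet.iInter fun n => (e1 n).inter (e2 n)
        rw [← h1] at h2
        exact h2
      · have h1 : {v : R2 × ((ℕ → ℕ) × (ℕ → ℕ)) | ∀ m n, less (R0 v.1) m n ↔
            less c.1.1 (v.2.1 m) (v.2.1 n)} = ⋂ m : ℕ, ⋂ n : ℕ,
              {v | less (R0 v.1) m n ↔ less c.1.1 (v.2.1 m) (v.2.1 n)} := by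
          ext v; simp
        have h2 := MeasurableSet.iInter fun m => MeasurableSet.iInter fun n => e3 m n
        rw [← h1] at h2
        exact h2
    exact analytic_proj hm
  have hfin : AnalyticSet {x : R2 | InO x topN} := by
    have h1 : {x : R2 | InO x topN} = ⋃ b : Bool, cond b ({x : R2 | InO x topN} ∩ Kᶜ)
        (⋃ c : Q, {x : R2 | ∃ w : (ℕ → ℕ) × (ℕ → ℕ), x ∈ K ∧
      ((∀ n, w.1 (w.2 n) = n ∧ w.2 (w.1 n) = n) ∧
      (∀ m n, less (R0 x) m n ↔ less c.1.1 (w.1 m) (w.1 n))) ∧ R1 (gr w.1) topN = true}) := by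
      ext x
      rw [mem_iUnion]
      constructor
      · intro hx
        by_cases hxK : x ∈ K
        · obtain ⟨c, w, h2⟩ := (key x hxK).1 hx
          refine ⟨false, ?_⟩
          exact mem_iUnion.2 ⟨c, w, hxK, h2⟩
        · exact ⟨true, hx, hxK⟩
      · rintro ⟨b, hb⟩
        cases b
        · obtain ⟨c, w, hxK, h2⟩ := mem_iUnion.1 hb
          exact (key x hxK).2 ⟨c, w, h2⟩
        · exact hb.1
    rw [h1]
    refine AnalyticSet.iUnion fun b => ?_
    cases b
    · exact hana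
    · have : ({x : R2 | InO x topN} ∩ Kᶜ).Subsingleton := hsub.anti inter_subset_right
      exact this.measurableSet.analyticSet
  exact not_analytic_top hfin

end Pool.Agent.V11327.KO
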