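import Pool.Agent.V11327.WBext

/-!
Choice on Baire space is not continuously reducible to the Cantor-Bendixson problem.
-/

set_option autoImplicit false

namespace Pool.Agent.V11327.WB

open Set Topology MeasureTheory

/-! ### The names of the empty set do not form an analytic set -/

/-- The next entry in the diagonal construction. -/
noncomputable def dval (f : B → B) (n : ℕ) (L : List ℕ) : ℕ :=
  open Classical in if ∃ w : B, rs w (Denumerable.ofNat (List ℕ) n).length =
    Denumerable.ofNat (List ℕ) n ∧ rs (f w) (Denumerable.ofNat (List ℕ) n).length =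
      L.drop (n - (Denumerable.ofNat (List ℕ) n).length) then 0 else n + 1

/-- The diagonal construction. -/
noncomputable def dlist (f : B → B) : ℕ → List ℕ
  | 0 => []
  | n + 1 => dval f n (dlist f n) :: dlist f n

/-- The diagonal name. -/
noncomputable def diag (f : B → B) : B := fun n => dval f n (dlist f n)

theorem rs_diag (f : B → B) (n : ℕ) : rs (diag f) n = dlist f n := by
  induction n with
  | zero => rfl
  | succ n ih =>
    show diag f n :: rs (diag f) n = dval f n (dlist f n) :: dlist f n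
    rw [ih]; rfl

theorem rs_drop (y : B) {m n : ℕ} (h : m ≤ n) : (rs y n).drop (n - m) = rs y m := by
  have h1 : (rs y n).drop (n - m) <:+ rs y n := List.drop_suffix _ _
  have h2 := suffix_rs h1
  rw [List.length_drop, rs_length] at h2
  have h3 : n - (n - m) = m := by omega
  rw [h3] at h2
  exact h2.symm

theorem not_analytic_empty : ¬ AnalyticSet {p : B | named p = ∅} := by
  classical
  intro h
  rw [AnalyticSet] at h
  rcases h with h | ⟨f, hf, hr⟩
  · have h1 : (fun _ => Encodable.encode ([] : List ℕ) + 1 : B) ∈ {p : B | named p = ∅} := by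
      show named _ = ∅
      ext x
      constructor
      · intro hx
        have := hx 0
        rw [bas_code] at this
        exact this rfl
      · intro hx; exact absurd hx (notMem_empty _)
    rw [h] at h1
    exact h1
  · have hval : ∀ n, diag f n = if ∃ w : B, rs w (Denumerable.ofNat (List ℕ) n).length =
        Denumerable.ofNat (List ℕ) n ∧ rs (f w) (Denumerable.ofNat (List ℕ) n).length =
          rs (diag f) (Denumerable.ofNat (List ℕ) n).length then 0 else n + 1 := by
      intro n
      have h1 : (Denumerable.ofNat (List ℕ) n).length ≤ n := by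
        have := Encodable.length_le_encode (Denumerable.ofNat (List ℕ) n)
        rwa [Denumerable.encode_ofNat] at this
      rw [← rs_drop (diag f) h1, rs_diag]
      show dval f n (dlist f n) = _
      rw [dval]
    have hdec : ∀ n, (Encodable.decode n : Option (List ℕ)) =
        some (Denumerable.ofNat (List ℕ) n) := fun n => Denumerable.decode_eq_ofNat _ n
    have key : (named (diag f)).Nonempty ↔ diag f ∈ range f := by
      constructor
      · rintro ⟨x, hx⟩
        refine ⟨x, ?_⟩
        have h1 : ∀ m, ∃ w : B, rs w m = rs x m ∧ rs (f w) m = rs (diag f) m := by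
          intro m
          set n := Encodable.encode (rs x m) with hn
          have hofn : Denumerable.ofNat (List ℕ) n = rs x m := Denumerable.ofNat_encode _
          by_contra hno
          have h2 := hval n
          rw [hofn, rs_length, if_neg hno] at h2
          apply hx n
          rw [h2, hn, bas_code, rs_length]
          rfl
        funext i
        have hcont : {z : B | f z i = f x i} ∈ 𝓝 x := by
          have : IsOpen ((fun z : B => f z i) ⁻¹' {f x i}) :=
            (isOpen_discrete _).preimage ((continuous_apply i).comp hf)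
          exact this.mem_nhds rfl
        obtain ⟨n, hn⟩ := nhds_rs hcont
        obtain ⟨w, hw1, hw2⟩ := h1 (max n (i + 1))
        have h6 : rs w n = rs x n := rs_eq_iff.2 fun k hk => rs_eq_iff.1 hw1 k (by omega)
        have h7 : f w i = f x i := hn h6
        have h8 : f w i = diag f i := rs_eq_iff.1 hw2 i (by omega)
        exact h7.symm.trans h8
      · rintro ⟨x, hx⟩
        refine ⟨x, fun i hi => ?_⟩
        have h1 := hval i
        by_cases h2 : ∃ w : B, rs w (Denumerable.ofNat (List ℕ) i).length =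
          Denumerable.ofNat (List ℕ) i ∧ rs (f w) (Denumerable.ofNat (List ℕ) i).length =
          rs (diag f) (Denumerable.ofNat (List ℕ) i).length
        · rw [if_pos h2] at h1
          rw [h1] at hi
          exact hi
        · rw [if_neg h2] at h1
          rw [h1] at hi
          obtain ⟨s, hs1, hs2⟩ := hi
          rw [hdec, Option.some.injEq] at hs1
          apply h2
          rw [hs1]
          exact ⟨x, hs2, by rw [hx]⟩
    rw [hr] at key
    have h2 : diag f ∈ {p : B | named p = ∅} ↔ ¬ (named (diag f)).Nonempty := by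
      rw [not_nonempty_iff_eq_empty]; rfl
    rw [h2] at key
    exact iff_not_self key

/-! ### Measurable extensions -/

theorem exists_measurable_ext {I : Set B} {Φ : B → B} (h : ContinuousOn Φ I) :
    ∃ Φ' : B → B, Measurable Φ' ∧ ∀ p ∈ I, Φ' p = Φ p := by
  classical
  have h1 : ∀ n m : ℕ, ∃ O : Set B, IsOpen O ∧ Φ ⁻¹' {x | x n = m} ∩ I = O ∩ I := by
    intro n m
    have hop : IsOpen {x : B | x n = m} :=
      (isOpen_discrete ({m} : Set ℕ)).preimage (continuous_apply (A := fun _ : ℕ => ℕ) n)
    exact (continuousOn_iff'.1 h) _ hop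
  choose O hO hO2 using h1
  have hex : ∀ n, ∀ p, ∃ m, p ∈ O n m ∨ ∀ m', p ∉ O n m' := by
    intro n p
    by_cases h2 : ∃ m, p ∈ O n m
    · obtain ⟨m, hm⟩ := h2
      exact ⟨m, Or.inl hm⟩
    · push Not at h2
      exact ⟨0, Or.inr h2⟩
  refine ⟨fun p n => Nat.find (hex n p), ?_, fun p hp => ?_⟩
  · rw [measurable_pi_iff]
    intro n
    refine measurable_find (hex n) fun k => ?_
    have h3 : {x : B | ∀ m', x ∉ O n m'} = ⋂ m', (O n m')ᶜ := by ext x; simp
    have h4 : MeasurableSet {x : B | ∀ m', x ∉ O n m'} := by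
      rw [h3]
      exact MeasurableSet.iInter fun m => (hO n m).measurableSet.compl
    exact MeasurableSet.union (hO n k).measurableSet h4
  · funext n
    have h2 : p ∈ O n (Φ p n) := by
      have : p ∈ Φ ⁻¹' {x | x n = Φ p n} ∩ I := ⟨rfl, hp⟩
      rw [hO2] at this
      exact this.1
    have h3 := Nat.find_spec (hex n p)
    rcases h3 with h3 | h3
    · have h4 : p ∈ O n (Nat.find (hex n p)) ∩ I := ⟨h3, hp⟩
      rw [← hO2] at h4
      exact h4.1.symm
    · exact absurd h2 (h3 _)

theorem ent_suffix {s t : List ℕ} (h : s <:+ t) {i : ℕ} (hi : i < s.length) :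
    ent t i = ent s i := by
  have h1 : s <:+ rs (ent t) t.length := by rw [rs_ent]; exact h
  exact (ent_eq (suffix_rs h1) hi).symm

/-- The limit of a chain of finite sequences. -/
theorem chain_limit (v : ℕ → List ℕ) (h1 : ∀ k, v k <:+ v (k + 1))
    (h2 : ∀ k, (v k).length < (v (k + 1)).length) : ∃ y : B, ∀ k, rs y (v k).length = v k := by
  have hlen : ∀ k, k ≤ (v k).length := by
    intro k
    induction k with
    | zero => exact Nat.zero_le _
    | succ k ih => have := h2 k; omega
  have hmono : ∀ k l, k ≤ l → v k <:+ v l := by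
    intro k l hkl
    induction hkl with
    | refl => exact List.suffix_refl _
    | step hkl ih => exact ih.trans (h1 _)
  refine ⟨fun n => ent (v (n + 1)) n, fun k => ?_⟩
  have h3 : rs (fun n => ent (v (n + 1)) n) (v k).length = rs (ent (v k)) (v k).length := by
    refine rs_eq_iff.2 fun i hi => ?_
    have h4 : i < (v (i + 1)).length := by have := hlen (i + 1); omega
    rcases le_total (i + 1) k with h | h
    · exact (ent_suffix (hmono _ _ h) h4).symm
    · exact ent_suffix (hmono _ _ h) hi
  rw [h3, rs_ent]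

section main

variable (Φ : B → B) (Ψ : B × B → B)

/-- States of the search: an initial segment of a name and an initial segment of a point. -/
abbrev State := List ℕ × List ℕ

/-- The initial segments determine the values. -/
def Det (p : B) (st : State) : Prop := ∃ k, ∀ p' ∈ choiceBaire.inst, rs p' k = rs p k →
  ∀ q ∈ cbProb.sol (Φ p'), rs q st.1.length = st.1 → rs (Ψ (p', q)) st.2.length = st.2

/-- Candidates for the next state. -/
def Cand (p : B) (st st' : State) : Prop :=
  (st.1 <:+ st'.1 ∧ st.2 <:+ st'.2 ∧ st.2.length < st'.2.length) ∧ Det Φ Ψ p st' ∧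
    Tn p [] st'.2

theorem meas_Det (st : State) : MeasurableSet {p : B | Det Φ Ψ p st} := by
  have h : {p : B | Det Φ Ψ p st} = ⋃ k : ℕ, (fun p => rs p k) ⁻¹'
      {u | ∀ p' ∈ choiceBaire.inst, rs p' k = u → ∀ q ∈ cbProb.sol (Φ p'),
        rs q st.1.length = st.1 → rs (Ψ (p', q)) st.2.length = st.2} := by
    ext p
    simp only [Det, mem_ofPred_eq, mem_iUnion, mem_preimage]
  rw [h]
  exact MeasurableSet.iUnion fun k =>
    ((isOpen_discrete _).preimage (continuous_rs k)).measurableSet

theorem meas_Cand (st st' : State) : MeasurableSet {p : B | Cand Φ Ψ p st st'} :=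
  (MeasurableSet.const _).inter ((meas_Det Φ Ψ st').inter (meas_Tn [] st'.2))

variable (R : ℕ → List ℕ → B → List ℕ → Prop)

/-- The next state. -/
def Nxt (c : ℕ) (p : B) (st st' : State) : Prop :=
  Best (Encodable.encode : State → ℕ) (Cand Φ Ψ p st) (fun t => R c t.1 p) st'

/-- The state reached after `k` steps. -/
def Reach (c : ℕ) (p : B) : ℕ → State → Prop
  | 0 => fun st => st = ([], [])
  | k + 1 => fun st' => ∃ st, Reach c p k st ∧ Nxt Φ Ψ R c p st st'

variable {R}

theorem coA_Nxt (hm : ∀ c s t, MeasurableSet {p | R c s p t}) (c : ℕ) (st st' : State) :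
    CoA {p : B | Nxt Φ Ψ R c p st st'} := by
  refine CoA.and (CoA.of_meas (meas_Cand Φ Ψ st st')) (CoA.forall' fun t =>
    CoA.imp (meas_Cand Φ Ψ st t) (CoA.and (CoA.imp (MeasurableSet.const _)
      (coA_not_Mn (hm c t.1) (hm c st'.1) [] [])) (CoA.imp (MeasurableSet.const _) ?_)))
  have h : {p : B | ¬ Ms (R c t.1 p) (R c st'.1 p)} =
      {p | ∀ b : ℕ, ¬ Mn (R c t.1 p) [] (R c st'.1 p) [b]} := by
    ext p; simp [Ms]
  rw [h]
  exact CoA.forall' fun b => coA_not_Mn (hm c t.1) (hm c st'.1) [] [b]

theorem coA_Reach (hm : ∀ c s t, MeasurableSet {p | R c s p t}) (c : ℕ) (k : ℕ) :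
    ∀ st : State, CoA {p : B | Reach Φ Ψ R c p k st} := by
  induction k with
  | zero => intro st; exact CoA.const _
  | succ k ih =>
    intro st
    exact CoA.exists' fun st' => CoA.and (ih st') (coA_Nxt Φ Ψ hm c st' st)

theorem Reach.unique (hR : ∀ c s p, IsTr (R c s p)) (h0 : ∀ c s p, R c s p []) {c : ℕ} {p : B} :
    ∀ {k : ℕ} {st st' : State}, Reach Φ Ψ R c p k st → Reach Φ Ψ R c p k st' → st = st' := by
  intro k
  induction k with
  | zero => intro st st' h h'; exact (h : st = ([], [])).trans (h' : st' = ([], [])).symm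
  | succ k ih =>
    rintro st st' ⟨s1, h1, h2⟩ ⟨s2, h3, h4⟩
    have h5 := ih h1 h3
    subst h5
    exact Best.unique (e := (Encodable.encode : State → ℕ)) Encodable.encode_injective
      (C := Cand Φ Ψ p s1) (R := fun t : State => R c t.1 p) (fun t => hR c t.1 p)
      (fun t => h0 c t.1 p) h2 h4

theorem sound (hR : ∀ c s p, IsTr (R c s p)) (h0 : ∀ c s p, R c s p []) {c : ℕ} {p : B}
    (h : ∀ k, ∃ st, Reach Φ Ψ R c p k st) : (named p).Nonempty := by
  choose S hS using h
  have hn : ∀ k, Nxt Φ Ψ R c p (S k) (S (k + 1)) := by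
    intro k
    obtain ⟨s, h1, h2⟩ := hS (k + 1)
    rwa [Reach.unique Φ Ψ hR h0 h1 (hS k)] at h2
  have hc : ∀ k, Cand Φ Ψ p (S k) (S (k + 1)) := fun k => (hn k).1
  obtain ⟨y, hy⟩ := chain_limit (fun k => (S k).2) (fun k => (hc k).1.2.1) (fun k => (hc k).1.2.2)
  have hlen : ∀ k, k ≤ (S k).2.length := by
    intro k
    induction k with
    | zero => exact Nat.zero_le _
    | succ k ih => have := (hc k).1.2.2; omega
  refine ⟨y, (brAt_Tn (u := [])).1 (fun n => ?_) |>.1⟩
  rw [List.append_nil]
  have h1 : Tn p [] (S (n + 1)).2 := (hc n).2.2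
  have h2 : rs y (S (n + 1)).2.length = (S (n + 1)).2 := hy (n + 1)
  rw [← h2] at h1
  exact (isTr_Tn p []).suffix h1 (rs_suffix y (by have := hlen (n + 1); omega))

theorem complete (hΨ : ContinuousOn Ψ (dom2 Φ choiceBaire cbProb))
    (hred : Reduces Φ Ψ choiceBaire cbProb)
    {Φ' : B → B} (hΦ' : ∀ p ∈ choiceBaire.inst, Φ' p = Φ p)
    (hR : ∀ c s p, IsTr (R c s p)) (h0 : ∀ c s p, R c s p [])
    (hw : ∀ c s p, Ext c s (Φ' p) ↔ WFt (R c s p) []) {p : B} (hp : p ∈ choiceBaire.inst) :
    ∃ c, ∀ k, ∃ st, Reach Φ Ψ R c p k st := by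
  obtain ⟨V, D, hV, hD, hVD⟩ := exists_countable_union_perfect_of_isClosed
    (isClosed_named (Φ p))
  have hK : IsKernel (named (Φ p)) D := by
    refine ⟨hD, by rw [hVD]; exact subset_union_right, ?_⟩
    refine hV.mono ?_
    rintro x ⟨h1, h2⟩
    rw [hVD] at h1
    exact h1.resolve_right h2
  obtain ⟨c, hc⟩ : ∃ c, Counts c (named (Φ p) \ D) := by
    by_cases h : (named (Φ p) \ D).Infinite
    · exact ⟨0, Or.inl ⟨h, rfl⟩⟩
    · exact ⟨_, Or.inr ⟨not_infinite.1 h, rfl⟩⟩
  refine ⟨c, ?_⟩
  suffices h : ∀ k, ∃ st, Reach Φ Ψ R c p k st ∧ Ext c st.1 (Φ p) ∧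
      (st = ([], []) ∨ Det Φ Ψ p st) from fun k => (h k).imp fun st h => h.1
  intro k
  induction k with
  | zero =>
    refine ⟨([], []), rfl, ⟨fun h => absurd h (by simp), fun i h => absurd h (by simp),
      fun i h => absurd h (by simp)⟩, Or.inl rfl⟩
  | succ k ih =>
    obtain ⟨st, h1, h2, h3⟩ := ih
    obtain ⟨q, hq, hq0, hqs⟩ := name_of_ext hK hc h2
    have hdom : (p, q) ∈ dom2 Φ choiceBaire cbProb := ⟨hp, hq⟩
    set y := Ψ (p, q) with hy
    have hyn : y ∈ named p := (hred p hp).2 q hq
    have hyv : rs y st.2.length = st.2 := by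
      rcases h3 with h3 | ⟨k', h3⟩
      · rw [h3]; rfl
      · exact h3 p hp rfl q hq hqs
    have hcont := hΨ (p, q) hdom
    have hnb : {w : B | rs w (st.2.length + 1) = rs y (st.2.length + 1)} ∈ 𝓝 (Ψ (p, q)) :=
      (isOpen_rs _ _).mem_nhds rfl
    have h4 := hcont hnb
    rw [Filter.mem_map, mem_nhdsWithin_iff_exists_mem_nhds_inter] at h4
    obtain ⟨W, hW, hWs⟩ := h4
    rw [nhds_prod_eq, Filter.mem_prod_iff] at hW
    obtain ⟨U, hU, V', hV', hUV⟩ := hW
    obtain ⟨k', hk'⟩ := nhds_rs hU
    obtain ⟨j, hj⟩ := nhds_rs hV'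
    let st' : State := (rs q (max j st.1.length), rs y (st.2.length + 1))
    have hcand : Cand Φ Ψ p st st' := by
      refine ⟨⟨?_, ?_, ?_⟩, ⟨k', ?_⟩, ?_⟩
      · have := rs_suffix q (le_max_right j st.1.length)
        rwa [hqs] at this
      · have := rs_suffix y (Nat.le_succ st.2.length)
        rwa [hyv] at this
      · show st.2.length < (rs y (st.2.length + 1)).length
        rw [rs_length]; omega
      · intro p' hp' hpk q' hq' hqq
        have hqq' : rs q' (max j st.1.length) = rs q (max j st.1.length) := by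
          have h5 : rs q' (rs q (max j st.1.length)).length = rs q (max j st.1.length) := hqq
          rwa [rs_length] at h5
        have h5 : rs q' j = rs q j := rs_eq_iff.2 fun i hi =>
          rs_eq_iff.1 hqq' i (lt_of_lt_of_le hi (le_max_left _ _))
        have h6 : (p', q') ∈ W := hUV ⟨hk' hpk, hj h5⟩
        have h7 := hWs ⟨h6, ⟨hp', hq'⟩⟩
        show rs (Ψ (p', q')) (rs y (st.2.length + 1)).length = rs y (st.2.length + 1)
        rw [rs_length]
        exact h7
      · have h5 := (brAt_Tn (u := [])).2 ⟨hyn, rfl⟩ (st.2.length + 1)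
        rwa [List.append_nil] at h5
    have hwf : WFt (R c st'.1 p) [] := by
      rw [← hw, hΦ' p hp, ← hq0]
      exact ext_of_name hq
    obtain ⟨st'', hbest⟩ := Best.exists (Encodable.encode : State → ℕ)
      (R := fun t : State => R c t.1 p) (fun t => hR c t.1 p) (fun t => h0 c t.1 p) hcand hwf
    refine ⟨st'', ⟨st, h1, hbest⟩, ?_, Or.inr hbest.1.2.1⟩
    have h5 := hbest.wf
    rw [← hw, hΦ' p hp] at h5
    exact h5

end main

theorem not_contReducible : ¬ ContReducible choiceBaire cbProb := by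
  rintro ⟨Φ, Ψ, hΦ, hΨ, hred⟩
  obtain ⟨Φ', hm, hΦ'⟩ := exists_measurable_ext hΦ
  have htree : ∀ (c : ℕ) (s : List ℕ), ∃ R : B → List ℕ → Prop,
      (∀ t, MeasurableSet {x | R x t}) ∧ (∀ x, IsTr (R x)) ∧ (∀ x, R x []) ∧
      ∀ x, x ∈ Φ' ⁻¹' {r | Ext c s r} ↔ WFt (R x) [] :=
    fun c s => coan_tree ((coA_Ext c s).preimage hm)
  choose R hR1 hR2 hR3 hR4 using htree
  have hco : CoA {p : B | ∃ c, ∀ k, ∃ st, Reach Φ Ψ R c p k st} :=
    CoA.exists' fun c => CoA.forall' fun k => CoA.exists' fun st => coA_Reach Φ Ψ hR1 c k st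
  have hset : {p : B | ∃ c, ∀ k, ∃ st, Reach Φ Ψ R c p k st}ᶜ = {p : B | named p = ∅} := by
    ext p
    constructor
    · intro h
      by_contra hne
      apply h
      exact complete Φ Ψ hΨ hred hΦ' hR2 hR3 hR4 (nonempty_iff_ne_empty.2 hne)
    · rintro h ⟨c, hc⟩
      have h1 := sound Φ Ψ hR2 hR3 hc
      rw [(h : named p = ∅)] at h1
      exact absurd h1 (by simp)
  rw [CoA, hset] at hco
  exact not_analytic_empty hco

theorem contReducible_of_scList (h : ContReducible choiceBaire scList) :
    ContReducible choiceBaire cbProb := by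
  obtain ⟨Φ, Ψ, hΦ, hΨ, hred⟩ := h
  have hmap : ∀ {p q : B}, (p, q) ∈ dom2 Φ choiceBaire cbProb →
      (p, (fun i => q (2 * i) : B)) ∈ dom2 Φ choiceBaire scList := fun h => ⟨h.1, h.2.2⟩
  refine ⟨Φ, fun w => Ψ (w.1, fun i => w.2 (2 * i)), hΦ, ?_, fun p hp => ⟨mem_univ _,
    fun q hq => (hred p hp).2 _ hq.2⟩⟩
  have hc : Continuous (fun w : B × B => ((w.1, fun i => w.2 (2 * i)) : B × B)) := by
    refine continuous_fst.prodMk (continuous_pi fun i => ?_)
    exact (continuous_apply (2 * i)).comp continuous_snd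
  exact hΨ.comp hc.continuousOn fun w hw => hmap hw

theorem Comp1.continuousOn {F : B → B} {D : Set B} (h : Comp1 F D) : ContinuousOn F D := by
  obtain ⟨g, -, hg⟩ := h
  intro x hx
  rw [ContinuousWithinAt, tendsto_pi_nhds]
  intro n
  obtain ⟨⟨k, hk⟩, -⟩ := hg x hx n
  have h1 : ∀ᶠ y in 𝓝[D] x, F y n = F x n := by
    have h2 : {y : B | rs y k = rs x k} ∈ 𝓝 x := (isOpen_rs k _).mem_nhds rfl
    filter_upwards [mem_nhdsWithin_of_mem_nhds h2, self_mem_nhdsWithin] with y hy hyD
    have hy' : rs y k = rs x k := hy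
    exact ((hg y hyD n).2 k _ (by rw [hy']; exact hk)).symm
  exact tendsto_const_nhds.congr' (h1.mono fun y hy => hy.symm)

theorem Comp2.continuousOn {F : B × B → B} {D : Set (B × B)} (h : Comp2 F D) :
    ContinuousOn F D := by
  obtain ⟨g, -, hg⟩ := h
  intro x hx
  rw [ContinuousWithinAt, tendsto_pi_nhds]
  intro n
  obtain ⟨⟨k, hk⟩, -⟩ := hg x hx n
  have h1 : ∀ᶠ y in 𝓝[D] x, F y n = F x n := by
    have h2 : {y : B × B | rs y.1 k = rs x.1 k ∧ rs y.2 k = rs x.2 k} ∈ 𝓝 x := by
      refine (IsOpen.inter ?_ ?_).mem_nhds ⟨rfl, rfl⟩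
      · exact (isOpen_rs k _).preimage continuous_fst
      · exact (isOpen_rs k _).preimage continuous_snd
    filter_upwards [mem_nhdsWithin_of_mem_nhds h2, self_mem_nhdsWithin] with y hy hyD
    exact ((hg y hyD n).2 k _ (by rw [hy.1, hy.2]; exact hk)).symm
  exact tendsto_const_nhds.congr' (h1.mono fun y hy => hy.symm)

theorem WReducible.cont {f g : Prob} (h : WReducible f g) : ContReducible f g := by
  obtain ⟨Φ, Ψ, h1, h2, h3⟩ := h
  exact ⟨Φ, Ψ, h1.continuousOn, h2.continuousOn, h3⟩

end Pool.Agent.V11327.WB
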