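import Pool.Agent.V11327.KOnot
import Pool.Agent.V11327.WBmain

/-!
Measurability of oracle computations, and the functional giving isomorphisms to canonical copies.
-/

set_option autoImplicit false

namespace Pool.Agent.V11327.KO

open Relation Set MeasureTheory

theorem mem_pair_seq {p q : Part ℕ} {m : ℕ} :
    m ∈ (Nat.pair <$> p <*> q) ↔ ∃ a b, a ∈ p ∧ b ∈ q ∧ m = Nat.pair a b := by
  simp only [Seq.seq, Part.map_eq_map, Part.bind_map, Part.mem_bind_iff, Part.mem_map_iff]
  constructor
  · rintro ⟨a, ha, b, hb, rfl⟩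
    exact ⟨a, b, ha, hb, rfl⟩
  · rintro ⟨a, b, ha, hb, rfl⟩
    exact ⟨a, ha, b, hb, rfl⟩

theorem meas_eval (c : OC) : ∀ n m : ℕ, MeasurableSet {x : R2 | m ∈ c.eval x n} := by
  induction c with
  | zero => intro n m; exact MeasurableSet.const (m ∈ (Part.some 0 : Part ℕ))
  | succ => intro n m; exact MeasurableSet.const (m ∈ (Part.some (n + 1) : Part ℕ))
  | left => intro n m; exact MeasurableSet.const (m ∈ (Part.some n.unpair.1 : Part ℕ))
  | right => intro n m; exact MeasurableSet.const (m ∈ (Part.some n.unpair.2 : Part ℕ))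
  | oracle =>
    intro n m
    have h : {x : R2 | m ∈ OC.oracle.eval x n} = (fun x : R2 => x n) ⁻¹'
        {b | m ∈ (Part.some b.toNat : Part ℕ)} := rfl
    rw [h]
    exact (measurable_pi_apply n) (MeasurableSet.of_discrete)
  | pair f g ihf ihg =>
    intro n m
    have h : {x : R2 | m ∈ (OC.pair f g).eval x n} = ⋃ a : ℕ, ⋃ b : ℕ,
        {x | a ∈ f.eval x n} ∩ ({x | b ∈ g.eval x n} ∩ {_x | m = Nat.pair a b}) := by
      ext x
      simp only [mem_iUnion]
      exact mem_pair_seq
    rw [h]
    exact MeasurableSet.iUnion fun a => MeasurableSet.iUnion fun b =>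
      (ihf n a).inter ((ihg n b).inter (MeasurableSet.const _))
  | comp f g ihf ihg =>
    intro n m
    have h : {x : R2 | m ∈ (OC.comp f g).eval x n} = ⋃ a : ℕ,
        {x | a ∈ g.eval x n} ∩ {x | m ∈ f.eval x a} := by
      ext x
      simp only [mem_iUnion]
      exact Part.mem_bind_iff.trans (by simp)
    rw [h]
    exact MeasurableSet.iUnion fun a => (ihg n a).inter (ihf a m)
  | prec f g ihf ihg =>
    have key : ∀ (a n m : ℕ), MeasurableSet {x : R2 | m ∈ (n.rec (f.eval x a) fun y IH => do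
        let i ← IH
        g.eval x (Nat.pair a (Nat.pair y i)) : Part ℕ)} := by
      intro a n
      induction n with
      | zero => intro m; exact ihf a m
      | succ n ih =>
        intro m
        have h : {x : R2 | m ∈ ((n + 1).rec (f.eval x a) fun y IH => do
            let i ← IH
            g.eval x (Nat.pair a (Nat.pair y i)) : Part ℕ)} = ⋃ i : ℕ,
            {x : R2 | i ∈ (n.rec (f.eval x a) fun y IH => do
              let i ← IH
              g.eval x (Nat.pair a (Nat.pair y i)) : Part ℕ)} ∩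
            {x | m ∈ g.eval x (Nat.pair a (Nat.pair n i))} := by
          ext x
          simp only [mem_iUnion]
          exact Part.mem_bind_iff.trans (by simp)
        rw [h]
        exact MeasurableSet.iUnion fun i => (ih i).inter (ihg _ m)
    intro n m
    exact key n.unpair.1 n.unpair.2 m
  | rfind f ihf =>
    intro n m
    have h : {x : R2 | m ∈ (OC.rfind f).eval x n} = {x | 0 ∈ f.eval x (Nat.pair n m)} ∩
        ⋂ k : ℕ, ({_x : R2 | k < m}ᶜ ∪ ⋃ v : ℕ, {x | v ∈ f.eval x (Nat.pair n k)} ∩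
          {_x | v ≠ 0}) := by
      ext x
      refine (Nat.mem_rfind (p := fun k => (fun m => decide (m = 0)) <$>
        f.eval x (Nat.pair n k)) (n := m)).trans ?_
      simp only [mem_inter_iff, mem_iInter, mem_union, mem_compl_iff, mem_iUnion, mem_ofPred_eq]
      refine and_congr ?_ (forall_congr' fun k => ?_)
      · simp
      · rw [← imp_iff_not_or]
        refine imp_congr Iff.rfl ?_
        simp
    rw [h]
    exact (ihf _ 0).inter (MeasurableSet.iInter fun k => (MeasurableSet.const _).compl.union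
      (MeasurableSet.iUnion fun v => (ihf _ v).inter (MeasurableSet.const _)))

theorem countable_OC : Countable OC :=
  Function.Injective.countable (f := OC.num) fun c d h => OC.num_inj c d h

theorem meas_Pre (b a : ℕ) : MeasurableSet {x : R2 | Pre x b a} := by
  have := countable_OC
  have h : {x : R2 | Pre x b a} = {_x | b ≠ 0 ∧ a = 2 ^ b} ∪ ⋃ e : ℕ, ⋃ n : ℕ,
      ({_x | a = 3 * 5 ^ e} ∩ ⋃ c : OC, {_x | c.num = e} ∩ {x | b ∈ c.eval x n}) := by
    ext x
    simp only [Pre, Phi, mem_union, mem_iUnion, mem_inter_iff, mem_ofPred_eq]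
  rw [h]
  exact (MeasurableSet.const _).union (MeasurableSet.iUnion fun e => MeasurableSet.iUnion fun n =>
    (MeasurableSet.const _).inter (MeasurableSet.iUnion fun c =>
      (MeasurableSet.const _).inter (meas_eval c n b)))

/-- Chains of `n + 1` steps. -/
def Chn (r : ℕ → ℕ → Prop) : ℕ → ℕ → ℕ → Prop
  | 0 => r
  | n + 1 => fun a c => ∃ b, Chn r n a b ∧ r b c

theorem transGen_iff (r : ℕ → ℕ → Prop) (a b : ℕ) : TransGen r a b ↔ ∃ n, Chn r n a b := by
  constructor
  · intro h
    induction h with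
    | single h => exact ⟨0, h⟩
    | tail _ h ih =>
      obtain ⟨n, hn⟩ := ih
      exact ⟨n + 1, _, hn, h⟩
  · rintro ⟨n, hn⟩
    induction n generalizing b with
    | zero => exact TransGen.single hn
    | succ n ih =>
      obtain ⟨c, h1, h2⟩ := hn
      exact (ih c h1).tail h2

theorem meas_Chn (b n : ℕ) : ∀ a : ℕ, MeasurableSet {x : R2 | Chn (Pre x) n b a} := by
  induction n with
  | zero => intro a; exact meas_Pre b a
  | succ n ih =>
    intro a
    have h1 : {x : R2 | Chn (Pre x) (n + 1) b a} = ⋃ c : ℕ, {x | Chn (Pre x) n b c} ∩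
        {x | Pre x c a} := by
      ext x; simp only [Chn, mem_iUnion, mem_inter_iff, mem_ofPred_eq]
    rw [h1]
    exact MeasurableSet.iUnion fun c => (ih c).inter (meas_Pre c a)

theorem meas_LtO (b a : ℕ) : MeasurableSet {x : R2 | LtO x b a} := by
  have h : {x : R2 | LtO x b a} = ⋃ n : ℕ, {x | Chn (Pre x) n b a} := by
    ext x
    simp only [mem_iUnion]
    exact transGen_iff _ _ _
  rw [h]
  exact MeasurableSet.iUnion fun n => meas_Chn b n a

/-! ### The clarifying functional -/

theorem recursiveIn_eval (x : R2) (c : OC) :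
    Nat.RecursiveIn {fun n => Part.some (x n).toNat} (c.eval x) := by
  induction c with
  | zero => exact .zero
  | succ => exact .succ
  | left => exact .left
  | right => exact .right
  | oracle => exact .oracle _ rfl
  | pair _ _ ih1 ih2 => exact .pair ih1 ih2
  | comp _ _ ih1 ih2 => exact .comp ih1 ih2
  | prec _ _ ih1 ih2 => exact .prec ih1 ih2
  | rfind _ ih => exact .rfind ih

/-- Codes of well-orderings. -/
abbrev WOc := {A : R2 // IsWO A}

theorem IsIso.symm {A C : R2} {i : ℕ ≃ ℕ} (h : IsIso A C i) : IsIso C A i.symm := by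
  intro m n
  have := h (i.symm m) (i.symm n)
  simpa using this.symm

theorem IsIso.trans {A C D : R2} {i j : ℕ ≃ ℕ} (h : IsIso A C i) (h' : IsIso C D j) :
    IsIso A D (i.trans j) := fun m n => (h m n).trans (h' _ _)

/-- Isomorphism of well-orderings. -/
def isoSetoid : Setoid WOc where
  r A C := ∃ i, IsIso A.1 C.1 i
  iseqv := ⟨fun A => ⟨Equiv.refl ℕ, fun m n => Iff.rfl⟩, fun ⟨i, hi⟩ => ⟨i.symm, hi.symm⟩,
    fun ⟨i, hi⟩ ⟨j, hj⟩ => ⟨i.trans j, hi.trans hj⟩⟩

/-- The canonical copy. -/
noncomputable def can (A : WOc) : WOc := (Quotient.mk isoSetoid A).out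

theorem can_iso (A : WOc) : ∃ i, IsIso A.1 (can A).1 i := by
  have h : isoSetoid.r (can A) A := Quotient.exact (s := isoSetoid) (Quotient.out_eq _)
  obtain ⟨i, hi⟩ := h
  exact ⟨i.symm, hi.symm⟩

theorem can_eq {A C : WOc} (h : ∃ i, IsIso A.1 C.1 i) : can A = can C := by
  have : Quotient.mk isoSetoid A = Quotient.mk isoSetoid C := Quotient.sound (s := isoSetoid) h
  rw [can, can, this]

theorem can_can (A : WOc) : can (can A) = can A := by
  obtain ⟨i, hi⟩ := can_iso A
  exact (can_eq ⟨i, hi⟩).symm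

/-- The isomorphism to the canonical copy. -/
noncomputable def kap (A : WOc) : ℕ ≃ ℕ := (can_iso A).choose

theorem kap_spec (A : WOc) : IsIso A.1 (can A).1 (kap A) := (can_iso A).choose_spec

/-- The graph of a function, as a real. -/
def gr (i : ℕ → ℕ) : R2 := fun t => decide (i t.unpair.1 = t.unpair.2)

open Classical in
/-- The isomorphism to the canonical copy, as a functional. -/
noncomputable def Fc (A : R2) : R2 := if h : IsWO A then gr (kap ⟨A, h⟩) else fun _ => false

theorem Fc_eq (A : WOc) : Fc A.1 = gr (kap A) := by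
  rw [Fc, dif_pos A.2]

theorem clarifies_Fc : Clarifies Fc := by
  intro A C hA hC hiso
  have hcan : can ⟨A, hA⟩ = can ⟨C, hC⟩ := can_eq hiso
  have h1 := kap_spec ⟨A, hA⟩
  have h2 := kap_spec ⟨C, hC⟩
  rw [← hcan] at h2
  refine ⟨(kap ⟨A, hA⟩).trans (kap ⟨C, hC⟩).symm, h1.trans h2.symm, ?_⟩
  have hg1 : Computable (fun w : ℕ => 2 * w) :=
    (Primrec.nat_mul.comp (Primrec.const 2) Primrec.id).to_comp
  have hg2 : Computable (fun w : ℕ => 2 * Nat.pair w.unpair.2 w.unpair.1 + 1) :=
    (Primrec.succ.comp (Primrec.nat_mul.comp (Primrec.const 2)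
      (Primrec₂.natPair.comp (Primrec.snd.comp Primrec.unpair)
        (Primrec.fst.comp Primrec.unpair)))).to_comp
  obtain ⟨c, hc⟩ := (Unif.srch hg2).comp (Unif.srch hg1)
  set x := join (Fc A) (Fc C) with hx
  have e1 : ∀ t, x (2 * t) = Fc A t := by
    intro t
    have h3 : (2 * t) % 2 = 0 := by omega
    have h4 : 2 * t / 2 = t := by omega
    rw [hx, join, if_pos h3, h4]
  have e2 : ∀ t, x (2 * t + 1) = Fc C t := by
    intro t
    have h3 : ¬ (2 * t + 1) % 2 = 0 := by omega
    have h4 : (2 * t + 1) / 2 = t := by omega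
    rw [hx, join, if_neg h3, h4]
  have s1 : ∀ a, srch x (fun w : ℕ => 2 * w) a = Part.some (kap ⟨A, hA⟩ a) := by
    intro a
    refine Part.eq_some_iff.2 (mem_srch.2 ⟨?_, fun m hm => ?_⟩)
    · rw [e1, Fc_eq ⟨A, hA⟩]; simp [gr]
    · rw [e1, Fc_eq ⟨A, hA⟩]
      simp only [gr, Nat.unpair_pair, decide_eq_false_iff_not]
      omega
  have s2 : ∀ v, srch x (fun w : ℕ => 2 * Nat.pair w.unpair.2 w.unpair.1 + 1) v =
      Part.some ((kap ⟨C, hC⟩).symm v) := by
    intro v
    refine Part.eq_some_iff.2 (mem_srch.2 ⟨?_, fun m hm => ?_⟩)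
    · beta_reduce
      rw [e2, Fc_eq ⟨C, hC⟩]; simp [gr]
    · beta_reduce
      rw [e2, Fc_eq ⟨C, hC⟩]
      simp only [gr, Nat.unpair_pair, decide_eq_false_iff_not]
      intro h
      have : m = (kap ⟨C, hC⟩).symm v := by rw [← h]; simp
      omega
  have h3 := recursiveIn_eval x c
  rw [hc] at h3
  refine h3.of_eq fun n => ?_
  beta_reduce
  rw [s1]
  show (Part.some _ >>= _) = _
  rw [Part.bind_eq_bind, Part.bind_some, s2]
  rfl

/-- Isomorphisms of well-orderings are unique. -/
theorem iso_unique {A C : R2} (hC : IsWO C) {i j : ℕ ≃ ℕ} (hi : IsIso A C i)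
    (hj : IsIso A C j) : i = j := by
  have : IsWellOrder ℕ (less C) := hC
  let I : less A ≃r less C := ⟨i, fun {a b} => (hi a b).symm⟩
  let J : less A ≃r less C := ⟨j, fun {a b} => (hj a b).symm⟩
  have h : I.toInitialSeg = J.toInitialSeg := Subsingleton.elim _ _
  ext n
  have h2 : I.toInitialSeg n = J.toInitialSeg n := by rw [h]
  exact h2

end Pool.Agent.V11327.KO
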