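import Pool.Agent.V11327.KOcode

/-!
Notations: well-foundedness, long notations, and recovering the real from its `O`.
-/

set_option autoImplicit false

namespace Pool.Agent.V11327.KO

open Relation Set

theorem lookup_aux (l : ℕ) : ∃ e, ∀ (x : R2) (n v : ℕ), Phi x e n v ↔
    x (Nat.pair l (Nat.pair n v)) = true ∧ ∀ m < v, x (Nat.pair l (Nat.pair n m)) = false := by
  have hc : Computable (fun w => Nat.pair l w) :=
    (Primrec₂.natPair.comp (Primrec.const l) Primrec.id).to_comp
  obtain ⟨c, hc'⟩ := Unif.srch hc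
  exact ⟨c.num, fun x n v => by rw [phi_num, hc', mem_srch]⟩

/-- The number of the program that looks up row `l` of the oracle. -/
noncomputable def look (l : ℕ) : ℕ := (lookup_aux l).choose

theorem look_spec (l : ℕ) (x : R2) (n v : ℕ) : Phi x (look l) n v ↔
    x (Nat.pair l (Nat.pair n v)) = true ∧ ∀ m < v, x (Nat.pair l (Nat.pair n m)) = false :=
  (lookup_aux l).choose_spec x n v

theorem two_pow_ne (a e : ℕ) : 2 ^ a ≠ 3 * 5 ^ e := by
  intro h
  have hodd : Odd (3 * 5 ^ e) := Odd.mul (by decide) (Odd.pow (by decide))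
  rw [← h] at hodd
  cases a with
  | zero =>
    have : 1 ≤ 5 ^ e := Nat.one_le_pow _ _ (by norm_num)
    rw [pow_zero] at h
    omega
  | succ a =>
    rw [pow_succ] at hodd
    exact absurd hodd (by simp)

theorem lim_inj {e e' : ℕ} (h : 3 * 5 ^ e = 3 * 5 ^ e') : e = e' :=
  Nat.pow_right_injective (le_refl 2 |>.trans (by norm_num)) (Nat.eq_of_mul_eq_mul_left (by norm_num) h)

theorem InO.acc {x : R2} {a : ℕ} (h : InO x a) : Acc (Pre x) a := by
  induction h with
  | one =>
    constructor
    rintro b (⟨hb, h1⟩ | ⟨e, n, h1, -⟩)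
    · cases b with
      | zero => exact absurd rfl hb
      | succ b => rw [pow_succ] at h1; omega
    · exact absurd h1 (two_pow_ne 0 e)
  | suc a _ ih =>
    constructor
    rintro b (⟨hb, h1⟩ | ⟨e, n, h1, -⟩)
    · rw [← Nat.pow_right_injective le_rfl h1]; exact ih
    · exact absurd h1 (two_pow_ne a e)
  | lim e f h1 h2 h3 ih =>
    constructor
    rintro b (⟨hb, h4⟩ | ⟨e', n, h4, h5⟩)
    · exact absurd h4.symm (two_pow_ne b e)
    · rw [← lim_inj h4] at h5
      rw [h5.unique (h1 n)]
      exact ih n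

theorem InO.lim_inv {x : R2} {e : ℕ} (h : InO x (3 * 5 ^ e)) :
    ∃ f : ℕ → ℕ, ∀ n, Phi x e n (f n) := by
  generalize ha : 3 * 5 ^ e = a at h
  cases h with
  | one => exact absurd ha.symm (two_pow_ne 0 e)
  | suc a h => exact absurd ha.symm (two_pow_ne a e)
  | lim e' f h1 h2 h3 => rw [lim_inj ha]; exact ⟨f, h1⟩

/-! ### Long notations -/

/-- The notations of the finite successors of a starting notation. -/
def tow (b : ℕ) : ℕ → ℕ
  | 0 => b
  | n + 1 => 2 ^ tow b n

theorem tow_ne {b : ℕ} (hb : b ≠ 0) (n : ℕ) : tow b n ≠ 0 := by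
  cases n with
  | zero => exact hb
  | succ n => simp [tow]

theorem tow_lt (x : R2) {b : ℕ} (hb : b ≠ 0) {m n : ℕ} (h : m < n) :
    LtO x (tow b m) (tow b n) := by
  induction n with
  | zero => exact absurd h (Nat.not_lt_zero m)
  | succ n ih =>
    have h1 : Pre x (tow b n) (tow b (n + 1)) := Or.inl ⟨tow_ne hb n, rfl⟩
    rcases Nat.lt_succ_iff_lt_or_eq.1 h with h2 | rfl
    · exact (ih h2).tail h1
    · exact TransGen.single h1

theorem InO.tow {x : R2} {b : ℕ} (h : InO x b) (n : ℕ) : InO x (tow b n) := by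
  induction n with
  | zero => exact h
  | succ n ih => exact InO.suc _ ih

/-- Running maxima. -/
noncomputable def run (c : ℕ → Ordinal.{0}) : ℕ → Ordinal.{0}
  | 0 => c 0
  | n + 1 => max (run c n) (c (n + 1))

theorem run_mono (c : ℕ → Ordinal.{0}) (n : ℕ) : run c n ≤ run c (n + 1) := le_max_left _ _

theorem le_run (c : ℕ → Ordinal.{0}) {i n : ℕ} (h : i ≤ n) : c i ≤ run c n := by
  induction n with
  | zero => rw [Nat.le_zero.1 h]; exact le_rfl
  | succ n ih =>
    rcases Nat.le_succ_iff.1 h with h1 | rfl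
    · exact (ih h1).trans (run_mono c n)
    · exact le_max_right _ _

theorem run_mem (c : ℕ → Ordinal.{0}) (n : ℕ) : run c n ∈ range c := by
  induction n with
  | zero => exact ⟨0, rfl⟩
  | succ n ih =>
    rcases max_choice (run c n) (c (n + 1)) with h | h
    · show max (run c n) (c (n + 1)) ∈ _
      rw [h]; exact ih
    · show max (run c n) (c (n + 1)) ∈ _
      rw [h]; exact ⟨_, rfl⟩

open Classical in
/-- The starting notation of the ordinal `w`. -/
noncomputable def base (W : Set Ordinal.{0}) (lab : Ordinal.{0} → ℕ) (w : Ordinal.{0}) : ℕ :=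
  if ∃ u ∈ W, u < w then 3 * 5 ^ look (lab w) else 1

theorem base_ne (W : Set Ordinal.{0}) (lab : Ordinal.{0} → ℕ) (w : Ordinal.{0}) :
    base W lab w ≠ 0 := by
  unfold base
  split_ifs <;> simp

theorem exists_real (W : Set Ordinal.{0}) (hW : W.Countable) (lab : Ordinal.{0} → ℕ)
    (hlab : InjOn lab W) : ∃ x : R2, (∀ w ∈ W, InO x (base W lab w)) ∧
      ∀ w ∈ W, ∀ u ∈ W, u < w → LtO x (base W lab u) (base W lab w) := by
  classical
  set ν : Ordinal.{0} → ℕ → ℕ := fun w => tow (base W lab w) with hν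
  have hc : ∀ w, ∃ c : ℕ → Ordinal.{0}, (∃ u ∈ W, u < w) → {u | u ∈ W ∧ u < w} = range c := by
    intro w
    by_cases h : ∃ u ∈ W, u < w
    · obtain ⟨u, hu1, hu2⟩ := h
      have h1 : ({u | u ∈ W ∧ u < w}).Countable := hW.mono fun u hu => hu.1
      obtain ⟨c, hc⟩ := h1.exists_eq_range ⟨u, hu1, hu2⟩
      exact ⟨c, fun _ => hc⟩
    · exact ⟨fun _ => 0, fun h' => absurd h' h⟩
  choose c hc using hc
  set f : Ordinal.{0} → ℕ → ℕ := fun w k => ν (run (c w) k) k with hf
  set x : R2 := fun t => decide (∃ w ∈ W, (∃ u ∈ W, u < w) ∧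
    ∃ k, t = Nat.pair (lab w) (Nat.pair k (f w k))) with hx
  have hxt : ∀ w ∈ W, (∃ u ∈ W, u < w) → ∀ k v,
      x (Nat.pair (lab w) (Nat.pair k v)) = true ↔ v = f w k := by
    intro w hw hu k v
    rw [hx]
    simp only [decide_eq_true_eq]
    constructor
    · rintro ⟨w', hw', -, k', h⟩
      obtain ⟨h1, h2⟩ := Nat.pair_eq_pair.1 h
      obtain ⟨h3, h4⟩ := Nat.pair_eq_pair.1 h2
      have h5 := hlab hw hw' h1
      subst h5; subst h3
      exact h4
    · rintro rfl
      exact ⟨w, hw, hu, k, rfl⟩
  have hphi : ∀ w ∈ W, (∃ u ∈ W, u < w) → ∀ k, Phi x (look (lab w)) k (f w k) := by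
    intro w hw hu k
    rw [look_spec]
    refine ⟨(hxt w hw hu k _).2 rfl, fun m hm => ?_⟩
    by_contra h
    rw [Bool.not_eq_false, hxt w hw hu k] at h
    omega
  have main : ∀ w : Ordinal.{0}, w ∈ W → InO x (base W lab w) ∧
      ∀ u ∈ W, u < w → ∀ m, LtO x (ν u m) (base W lab w) := by
    intro w
    induction w using WellFoundedLT.induction with
    | ind w ih =>
      intro hw
      by_cases hu : ∃ u ∈ W, u < w
      · have hb : base W lab w = 3 * 5 ^ look (lab w) := by rw [base, if_pos hu]
        have hmem : ∀ k, run (c w) k ∈ W ∧ run (c w) k < w := by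
          intro k
          have := run_mem (c w) k
          rw [← hc w hu] at this
          exact this
        have hin : ∀ k, InO x (f w k) := fun k =>
          (ih _ (hmem k).2 (hmem k).1).1.tow k
        have hinc : ∀ k, LtO x (f w k) (f w (k + 1)) := by
          intro k
          rcases eq_or_lt_of_le (run_mono (c w) k) with h | h
          · show LtO x (ν (run (c w) k) k) (ν (run (c w) (k + 1)) (k + 1))
            rw [← h]
            exact tow_lt x (base_ne _ _ _) (Nat.lt_succ_self k)
          · have h1 := (ih _ (hmem (k + 1)).2 (hmem (k + 1)).1).2 _ (hmem k).1 h k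
            exact h1.trans (tow_lt x (base_ne _ _ _) (Nat.succ_pos k))
        refine ⟨by rw [hb]; exact InO.lim _ (f w) (hphi w hw hu) hin hinc, ?_⟩
        intro u huW huw m
        have hmemr : u ∈ range (c w) := by rw [← hc w hu]; exact ⟨huW, huw⟩
        obtain ⟨i, hi⟩ := hmemr
        have hstep : Pre x (f w (max i (m + 1))) (base W lab w) := by
          rw [hb]
          exact Or.inr ⟨_, _, rfl, hphi w hw hu _⟩
        refine TransGen.tail ?_ hstep
        have hle : u ≤ run (c w) (max i (m + 1)) := by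
          rw [← hi]; exact le_run _ (le_max_left _ _)
        have hk : m < max i (m + 1) := lt_of_lt_of_le (Nat.lt_succ_self m) (le_max_right _ _)
        rcases eq_or_lt_of_le hle with h | h
        · show LtO x (ν u m) (ν (run (c w) (max i (m + 1))) (max i (m + 1)))
          rw [← h]
          exact tow_lt x (base_ne _ _ _) hk
        · have h1 := (ih _ (hmem _).2 (hmem _).1).2 u huW h m
          have h2 : LtO x (tow (base W lab (run (c w) (max i (m + 1)))) 0)
              (tow (base W lab (run (c w) (max i (m + 1)))) (max i (m + 1))) :=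
            tow_lt x (base_ne _ _ _) (by omega)
          exact h1.trans h2
      · have hb : base W lab w = 1 := by rw [base, if_neg hu]
        refine ⟨by rw [hb]; exact InO.one, fun u h1 h2 => absurd ⟨u, h1, h2⟩ hu⟩
  exact ⟨x, fun w hw => (main w hw).1, fun w hw u hu huw => (main w hw).2 u hu huw 0⟩

/-! ### The real is determined by its `O` -/

theorem primrec_tow : Primrec (tow 1) := by
  have h : tow 1 = Nat.rec 1 (fun _ b => 2 ^ b) := by
    funext n
    induction n with
    | zero => rfl
    | succ n ih => simp only [tow, ih]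
  rw [h]
  refine Primrec.nat_rec₁ 1 ?_
  have hp : Primrec (fun b : ℕ => 2 ^ b) := by
    have h2 : (fun b : ℕ => 2 ^ b) = Nat.rec 1 (fun _ b => b * 2) := by
      funext n
      induction n with
      | zero => rfl
      | succ n ih => simp only [pow_succ, ih]
    rw [h2]
    exact Primrec.nat_rec₁ 1 (Primrec.nat_mul.comp Primrec.snd (Primrec.const 2))
  exact hp.comp Primrec.snd

theorem exists_test (m : ℕ) : ∃ e, ∀ (x : R2) (n v : ℕ), Phi x e n v ↔
    x m = true ∧ v = tow 1 n := by
  have h1 : Unif (fun _ n => Part.some (tow 1 n.unpair.2)) := Unif.of_computable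
    (primrec_tow.comp (Primrec.snd.comp Primrec.unpair)).to_comp
  have h2 := h1.comp ((Unif.srch (g := fun _ => m) (Computable.const m)).pair
    (Unif.of_computable Computable.id))
  obtain ⟨c, hc⟩ := h2
  refine ⟨c.num, fun x n v => ?_⟩
  rw [phi_num, hc]
  beta_reduce
  by_cases hx : x m = true
  · have h3 : srch x (fun _ => m) n = Part.some 0 :=
      Part.eq_some_iff.2 (mem_srch.2 ⟨hx, fun k hk => absurd hk (Nat.not_lt_zero k)⟩)
    rw [h3]
    simp [hx, Seq.seq, eq_comm]
  · have h3 : srch x (fun _ => m) n = Part.none := by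
      refine Part.eq_none_iff.2 fun k hk => ?_
      exact hx (mem_srch.1 hk).1
    rw [h3]
    simp [hx, Seq.seq]

theorem kleeneO_injective : Function.Injective kleeneO := by
  classical
  have key : ∀ m, ∃ a, ∀ x : R2, InO x a ↔ x m = true := by
    intro m
    obtain ⟨e, he⟩ := exists_test m
    refine ⟨3 * 5 ^ e, fun x => ⟨fun h => ?_, fun h => ?_⟩⟩
    · obtain ⟨f, hf⟩ := h.lim_inv
      exact ((he x 0 _).1 (hf 0)).1
    · exact InO.lim e (tow 1) (fun n => (he x n _).2 ⟨h, rfl⟩) (fun n => InO.one.tow n)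
        fun n => tow_lt x one_ne_zero (Nat.lt_succ_self n)
  intro x y hxy
  funext m
  obtain ⟨a, ha⟩ := key m
  have h1 : InO x a ↔ InO y a := by
    have h2 : decide (InO x a) = decide (InO y a) := congrFun hxy a
    simpa using h2
  rw [ha, ha] at h1
  exact Bool.eq_iff_iff.2 h1

end Pool.Agent.V11327.KO
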