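import Mathlib

/-! Definitions: `k`-ary chains and the `k`-width of a finite poset; intervals. -/

set_option autoImplicit false

namespace Pool.Agent.V11327.KW

/-- In the rooted tree on the vertex set `A` with root `ρ` in which every vertex `y ≠ ρ` has parent
`π y`, the vertex `y` is a child of `x`. -/
def Child {U : Type} (A : Finset U) (ρ : U) (π : U → U) (x y : U) : Prop :=
  y ∈ A ∧ y ≠ ρ ∧ π y = x

/-- `A` is a `k`-ary chain for the strict order `r`: there is a rooted tree with vertex set `A` (root `ρ`,
parent map `π`, every vertex other than the root a descendant of the root), every vertex has at most `k`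
children, and `r x y` whenever `y` is a descendant of `x`. -/
def IsKaryChain {U : Type} [DecidableEq U] (k : ℕ) (r : U → U → Prop) (A : Finset U) : Prop :=
  ∃ (ρ : U) (π : U → U), ρ ∈ A ∧ (∀ y ∈ A, y ≠ ρ → π y ∈ A) ∧
    (∀ y ∈ A, y ≠ ρ → Relation.TransGen (Child A ρ π) ρ y) ∧
    (∀ x ∈ A, (A.filter fun y => y ≠ ρ ∧ π y = x).card ≤ k) ∧
    (∀ x y, Relation.TransGen (Child A ρ π) x y → r x y)

/-- The `k`-width: the least number of classes in a partition into `k`-ary chains. -/
noncomputable def kwd {U : Type} [Fintype U] [DecidableEq U] (k : ℕ) (r : U → U → Prop) : ℕ :=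
  sInf {c | ∃ P : Finpartition (Finset.univ : Finset U),
    (∀ A ∈ P.parts, IsKaryChain k r A) ∧ P.parts.card = c}

/-- left endpoint of the interval with endpoints `p.1`, `p.2` -/
noncomputable def lo (p : ℝ × ℝ) : ℝ := min p.1 p.2

/-- right endpoint of the interval with endpoints `p.1`, `p.2` -/
noncomputable def hi (p : ℝ × ℝ) : ℝ := max p.1 p.2

/-- The order of the set of intervals `x 0, …, x (n - 1)`: `i` is below `j` iff interval `i` lies wholly
to the left of interval `j`. -/
def setRel (n : ℕ) (x : ℕ → ℝ × ℝ) (i j : Fin n) : Prop := hi (x i) ≤ lo (x j)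

/-- The order of the sequence of intervals `x 0, …, x (n - 1)`: `i` is below `j` iff `i < j` and
interval `i` lies wholly to the left of interval `j`. -/
def seqRel (n : ℕ) (x : ℕ → ℝ × ℝ) (i j : Fin n) : Prop := i < j ∧ hi (x i) ≤ lo (x j)

end Pool.Agent.V11327.KW
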