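import Pool.Agent.V11327.KWdefs

/-! Deterministic facts on the `k`-width. -/

set_option autoImplicit false

namespace Pool.Agent.V11327.KW

open Finset

variable {U : Type} [Fintype U] [DecidableEq U]

theorem kwd_mem (k : ℕ) (r : U → U → Prop) :
    kwd k r ∈ {c | ∃ P : Finpartition (Finset.univ : Finset U),
      (∀ A ∈ P.parts, IsKaryChain k r A) ∧ P.parts.card = c} := by
  unfold kwd
  refine Nat.sInf_mem ⟨_, ⊥, ?_, rfl⟩
  intro A hA
  obtain ⟨a, -, rfl⟩ := Finpartition.mem_bot_iff.1 hA
  have hno : ∀ x y, ¬ Child {a} a (id : U → U) x y := fun x y h => h.2.1 (mem_singleton.1 h.1)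
  have hno' : ∀ x y, ¬ Relation.TransGen (Child {a} a (id : U → U)) x y := by
    intro x y h
    obtain ⟨z, -, h2⟩ := Relation.TransGen.tail'_iff.1 h
    exact hno _ _ h2
  refine ⟨a, id, mem_singleton_self a, fun y hy _ => hy, fun y hy hne => ?_, fun x _ => ?_,
    fun x y h => (hno' x y h).elim⟩
  · exact (hne (mem_singleton.1 hy)).elim
  · rw [card_eq_zero.2]
    · exact Nat.zero_le _
    · rw [filter_eq_empty_iff]
      intro y hy h
      exact h.1 (mem_singleton.1 hy)

theorem kwd_le_of_chain (k : ℕ) (r r' : U → U → Prop)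
    (h : ∀ A, IsKaryChain k r A → IsKaryChain k r' A) : kwd k r' ≤ kwd k r := by
  obtain ⟨P, h1, h2⟩ := kwd_mem k r
  rw [← h2]
  exact Nat.sInf_le ⟨P, fun A hA => h A (h1 A hA), rfl⟩

theorem kwd_mono (k : ℕ) (r r' : U → U → Prop) (h : ∀ x y, r x y → r' x y) :
    kwd k r' ≤ kwd k r := by
  refine kwd_le_of_chain k r r' ?_
  rintro A ⟨ρ, π, h1, h2, h3, h4, h5⟩
  exact ⟨ρ, π, h1, h2, h3, h4, fun x y hxy => h x y (h5 x y hxy)⟩

/-- Lower bound. -/
theorem card_le_kwd (k : ℕ) (r : U → U → Prop) (S T : Finset U)
    (h : ∀ x y, r x y → y ∈ S → x ∈ T) : S.card ≤ kwd k r + k * T.card := by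
  obtain ⟨P, h1, h2⟩ := kwd_mem k r
  rw [← h2]
  have hS : S.card = ∑ A ∈ P.parts, (S.filter fun y => P.part y = A).card :=
    card_eq_sum_card_fiberwise fun y _ => P.part_mem.2 (mem_univ y)
  have hT : T.card = ∑ A ∈ P.parts, (T.filter fun y => P.part y = A).card :=
    card_eq_sum_card_fiberwise fun y _ => P.part_mem.2 (mem_univ y)
  have key : ∀ A ∈ P.parts, (S.filter fun y => P.part y = A).card
      ≤ 1 + k * (T.filter fun y => P.part y = A).card := by
    intro A hA
    obtain ⟨ρ, π, g1, g2, g3, g4, g5⟩ := h1 A hA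
    have hsub : (S.filter fun y => P.part y = A) ⊆ {ρ} ∪ (T.filter fun y => P.part y = A).biUnion
        (fun x => A.filter fun y => y ≠ ρ ∧ π y = x) := by
      intro y hy
      rw [mem_filter] at hy
      have hyA : y ∈ A := by rw [← hy.2]; exact P.mem_part_self.2 (mem_univ y)
      by_cases hyρ : y = ρ
      · rw [mem_union]; left; exact mem_singleton.2 hyρ
      · rw [mem_union]; right
        rw [mem_biUnion]
        refine ⟨π y, ?_, ?_⟩
        · rw [mem_filter]
          refine ⟨h (π y) y (g5 _ _ (Relation.TransGen.single ⟨hyA, hyρ, rfl⟩)) hy.1, ?_⟩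
          exact P.part_eq_of_mem hA (g2 y hyA hyρ)
        · rw [mem_filter]; exact ⟨hyA, hyρ, rfl⟩
    refine (card_le_card hsub).trans ((card_union_le _ _).trans ?_)
    rw [card_singleton]
    refine Nat.add_le_add_left ?_ 1
    refine (card_biUnion_le).trans ?_
    rw [mul_comm]
    refine sum_le_card_nsmul _ _ _ fun x hx => ?_
    have hxA : x ∈ A := by
      rw [mem_filter] at hx
      rw [← hx.2]; exact P.mem_part_self.2 (mem_univ x)
    exact g4 x hxA
  rw [hS, hT, mul_sum]
  refine (sum_le_sum key).trans ?_
  rw [sum_add_distrib]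
  simp

/-- Upper bound from an assignment of parents. -/
theorem kwd_le_of_parents (k : ℕ) (r : U → U → Prop) (htr : ∀ x y z, r x y → r y z → r x z)
    (hirr : ∀ x, ¬ r x x) (g : U → Option U) (hg : ∀ x y, g y = some x → r x y)
    (hk : ∀ x, (univ.filter fun y => g y = some x).card ≤ k) :
    kwd k r ≤ (univ.filter fun y => g y = none).card := by
  classical
  have : IsTrans U r := ⟨htr⟩
  have : Std.Irrefl r := ⟨hirr⟩
  have hwf : WellFounded r := Finite.wellFounded_of_trans_of_irrefl r
  -- the root function
  obtain ⟨root, hroot⟩ : ∃ root : U → U, ∀ y, root y = match g y with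
      | none => y
      | some x => root x := by
    let F : ∀ y : U, (∀ x, r x y → U) → U := fun y rec =>
      match h : g y with
      | none => y
      | some x => rec x (hg x y h)
    refine ⟨hwf.fix F, fun y => ?_⟩
    rw [hwf.fix_eq]
    simp only [F]
    split
    · next h => simp [h]
    · next x h => simp [h]
  have hr0 : ∀ y, g y = none → root y = y := fun y hy => by rw [hroot y, hy]
  have hr1 : ∀ x y, g y = some x → root y = root x := fun x y hy => by rw [hroot y, hy]
  have hrn : ∀ y, g (root y) = none := by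
    intro y
    induction y using hwf.induction with
    | _ y ih =>
      rcases hy : g y with _ | x
      · rw [hr0 y hy]; exact hy
      · rw [hr1 x y hy]; exact ih x (hg x y hy)
  set parts : Finset (Finset U) := (univ.filter fun y => g y = none).image
    (fun ρ => univ.filter fun y => root y = ρ) with hparts
  have hP1 : ∀ p ∈ parts, p ⊆ (univ : Finset U) := fun p _ => subset_univ p
  have hP2 : ∀ a ∈ (univ : Finset U), ∃! t, t ∈ parts ∧ a ∈ t := by
    intro a _
    refine ⟨univ.filter fun y => root y = root a, ⟨?_, ?_⟩, ?_⟩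
    · exact mem_image.2 ⟨root a, mem_filter.2 ⟨mem_univ _, hrn a⟩, rfl⟩
    · exact mem_filter.2 ⟨mem_univ _, rfl⟩
    · rintro t ⟨ht, hat⟩
      obtain ⟨ρ, -, rfl⟩ := mem_image.1 ht
      rw [(mem_filter.1 hat).2]
  have hP3 : ∅ ∉ parts := by
    intro h
    obtain ⟨ρ, hρ, he⟩ := mem_image.1 h
    have : ρ ∈ (univ.filter fun y => root y = ρ) :=
      mem_filter.2 ⟨mem_univ _, hr0 ρ (mem_filter.1 hρ).2⟩
    rw [he] at this
    exact notMem_empty _ this
  set P : Finpartition (univ : Finset U) := Finpartition.ofExistsUnique parts hP1 hP2 hP3 with hP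
  have hPp : P.parts = parts := rfl
  refine le_trans (Nat.sInf_le ⟨P, ?_, rfl⟩) ?_
  · intro A hA
    rw [hPp] at hA
    obtain ⟨ρ, hρ, rfl⟩ := mem_image.1 hA
    have hρ' : g ρ = none := (mem_filter.1 hρ).2
    set π : U → U := fun y => (g y).getD y with hπ
    set A : Finset U := univ.filter fun y => root y = ρ with hA'
    have hmemA : ∀ y, y ∈ A ↔ root y = ρ := fun y => by simp [hA']
    have hnn : ∀ y ∈ A, y ≠ ρ → ∃ x, g y = some x := by
      intro y hy hne
      rcases h : g y with _ | x
      · exact (hne ((hr0 y h).symm.trans ((hmemA y).1 hy))).elim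
      · exact ⟨x, rfl⟩
    have hch : ∀ x y, Child A ρ π x y → g y = some x := by
      rintro x y ⟨h1, h2, h3⟩
      obtain ⟨z, hz⟩ := hnn y h1 h2
      have : π y = z := by simp [hπ, hz]
      rw [hz, ← this, h3]
    refine ⟨ρ, π, (hmemA ρ).2 (hr0 ρ hρ'), ?_, ?_, ?_, ?_⟩
    · intro y hy hne
      obtain ⟨x, hx⟩ := hnn y hy hne
      have : π y = x := by simp [hπ, hx]
      rw [this, hmemA, ← hr1 x y hx]
      exact (hmemA y).1 hy
    · intro y
      induction y using hwf.induction with
      | _ y ih =>
        intro hy hne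
        obtain ⟨x, hx⟩ := hnn y hy hne
        have h3 : π y = x := by simp [hπ, hx]
        have hxA : x ∈ A := by
          rw [hmemA, ← hr1 x y hx]; exact (hmemA y).1 hy
        have hc : Child A ρ π x y := ⟨hy, hne, h3⟩
        by_cases hxρ : x = ρ
        · rw [← hxρ] at hc ⊢
          exact Relation.TransGen.single hc
        · exact (ih x (hg x y hx) hxA hxρ).tail hc
    · intro x _
      refine le_trans (card_le_card ?_) (hk x)
      intro y hy
      rw [mem_filter] at hy ⊢
      exact ⟨mem_univ _, hch x y ⟨hy.1, hy.2.1, hy.2.2⟩⟩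
    · intro x y h
      induction h with
      | single h => exact hg _ _ (hch _ _ h)
      | tail _ h ih => exact htr _ _ _ ih (hg _ _ (hch _ _ h))
  · rw [hPp]; exact card_image_le

/-- Deficiency version of Hall's theorem. -/
theorem exists_parents (k D : ℕ) (r : U → U → Prop)
    (h : ∀ Y : Finset U, Y.Nonempty →
      Y.card ≤ k * {x | ∃ y ∈ Y, r x y}.ncard + D) :
    ∃ g : U → Option U, (∀ x y, g y = some x → r x y) ∧
      (∀ x, (univ.filter fun y => g y = some x).card ≤ k) ∧
      (univ.filter fun y => g y = none).card ≤ D := by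
  classical
  set t : U → Finset ((U × Fin k) ⊕ Fin D) := fun y =>
    ((univ.filter fun x => r x y) ×ˢ univ).disjSum univ with ht
  have hall : ∀ s : Finset U, s.card ≤ (s.biUnion t).card := by
    intro s
    rcases s.eq_empty_or_nonempty with rfl | hs
    · simp
    · refine (h s hs).trans ?_
      have e : s.biUnion t = ((univ.filter fun x => ∃ y ∈ s, r x y) ×ˢ univ).disjSum univ := by
        ext v
        rcases v with ⟨x, i⟩ | j
        · simp [ht]
        · simp only [mem_biUnion, ht, inr_mem_disjSum, mem_univ, and_true, iff_true]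
          exact hs
      rw [e, card_disjSum, card_product, card_univ, Fintype.card_fin, card_univ, Fintype.card_fin]
      have e2 : {x | ∃ y ∈ s, r x y}.ncard = (univ.filter fun x => ∃ y ∈ s, r x y).card := by
        rw [← Set.ncard_coe_finset]; congr 1; ext x; simp
      rw [e2, mul_comm]
  obtain ⟨f, hf, hft⟩ := (all_card_le_biUnion_card_iff_exists_injective t).1 hall
  refine ⟨fun y => Sum.elim (fun v => some v.1) (fun _ => none) (f y), ?_, ?_, ?_⟩
  · intro x y hy
    have h1 := hft y
    rcases hfy : f y with v | j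
    · rw [hfy] at h1
      simp only [hfy, Sum.elim_inl, Option.some.injEq] at hy
      simp only [ht, inl_mem_disjSum, mem_product, mem_filter, mem_univ, true_and, and_true] at h1
      rw [← hy]; exact h1
    · simp only [hfy, Sum.elim_inr] at hy
      exact absurd hy (by simp)
  · intro x
    have : (univ.filter fun y => Sum.elim (fun v => some v.1) (fun _ => none) (f y) = some x).card
        ≤ ((univ : Finset (Fin k)).image fun i => (Sum.inl (x, i) : (U × Fin k) ⊕ Fin D)).card := by
      refine card_le_card_of_injOn f ?_ hf.injOn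
      intro y hy
      simp only [coe_filter, Set.mem_ofPred_eq, mem_univ, true_and] at hy
      rcases hfy : f y with v | j
      · simp only [hfy, Sum.elim_inl, Option.some.injEq] at hy
        rw [mem_coe, mem_image]
        exact ⟨v.2, mem_univ _, by rw [← hy]⟩
      · simp only [hfy, Sum.elim_inr] at hy
        exact absurd hy (by simp)
    refine this.trans (card_image_le.trans ?_)
    simp
  · have : (univ.filter fun y => Sum.elim (fun v => some v.1) (fun _ => none) (f y) = (none : Option U)).card
        ≤ ((univ : Finset (Fin D)).image fun i => (Sum.inr i : (U × Fin k) ⊕ Fin D)).card := by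
      refine card_le_card_of_injOn f ?_ hf.injOn
      intro y hy
      simp only [coe_filter, Set.mem_ofPred_eq, mem_univ, true_and] at hy
      rcases hfy : f y with v | j
      · simp only [hfy, Sum.elim_inl] at hy
        exact absurd hy (by simp)
      · rw [mem_coe, mem_image]
        exact ⟨j, mem_univ _, rfl⟩
    refine this.trans (card_image_le.trans ?_)
    simp

end Pool.Agent.V11327.KW
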