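import Pool.Agent.V11327.KWseq

/-! Probabilistic part for the `k`-width of random intervals. -/

set_option autoImplicit false

namespace Pool.Agent.V11327.KW

open Finset MeasureTheory ProbabilityTheory Filter Topology

/-- the uniform law on the open unit square -/
noncomputable def unif2 : Measure (ℝ × ℝ) :=
  (volume.restrict (Set.Ioo (0 : ℝ) 1)).prod (volume.restrict (Set.Ioo (0 : ℝ) 1))

instance instProbIoo : IsProbabilityMeasure (volume.restrict (Set.Ioo (0 : ℝ) 1)) := by
  constructor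
  rw [Measure.restrict_apply MeasurableSet.univ]; simp

instance : IsProbabilityMeasure unif2 := by unfold unif2; infer_instance

theorem vol_Ioi (u : ℝ) (h0 : 0 ≤ u) (h1 : u ≤ 1) :
    (volume.restrict (Set.Ioo (0 : ℝ) 1)).real (Set.Ioi u) = 1 - u := by
  rw [Measure.real, Measure.restrict_apply measurableSet_Ioi]
  have : Set.Ioi u ∩ Set.Ioo (0 : ℝ) 1 = Set.Ioo u 1 := by
    ext v; simp only [Set.mem_inter_iff, Set.mem_Ioi, Set.mem_Ioo]
    constructor
    · rintro ⟨a, b, c⟩; exact ⟨a, c⟩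
    · rintro ⟨a, b⟩; exact ⟨a, by linarith, b⟩
  rw [this, Real.volume_Ioo, ENNReal.toReal_ofReal (by linarith)]

theorem unif2_hi (u : ℝ) (h0 : 0 ≤ u) (h1 : u ≤ 1) : unif2.real {p | hi p ≤ u} = u ^ 2 := by
  have e : {p : ℝ × ℝ | hi p ≤ u} = (Set.Ioi u)ᶜ ×ˢ (Set.Ioi u)ᶜ := by
    ext p; simp only [hi, Set.mem_ofPred_eq, max_le_iff, Set.mem_prod, Set.mem_compl_iff,
      Set.mem_Ioi, not_lt]
  rw [e, unif2, measureReal_prod_prod, probReal_compl_eq_one_sub measurableSet_Ioi, vol_Ioi u h0 h1]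
  ring

theorem unif2_lo (u : ℝ) (h0 : 0 ≤ u) (h1 : u ≤ 1) :
    unif2.real {p | lo p ≤ u} = 2 * u - u ^ 2 := by
  have e : {p : ℝ × ℝ | lo p ≤ u} = (Set.Ioi u ×ˢ Set.Ioi u)ᶜ := by
    ext p
    simp only [lo, Set.mem_ofPred_eq, Set.mem_compl_iff, Set.mem_prod, Set.mem_Ioi, min_le_iff,
      not_and_or, not_lt]
  rw [e, probReal_compl_eq_one_sub (measurableSet_Ioi.prod measurableSet_Ioi), unif2,
    measureReal_prod_prod, vol_Ioi u h0 h1]
  ring

theorem meas_lo : Measurable lo := measurable_fst.min measurable_snd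

theorem meas_hi : Measurable hi := measurable_fst.max measurable_snd

theorem unif2_ae : ∀ᵐ p ∂unif2, 0 ≤ lo p ∧ lo p < 1 := by
  have h : unif2 ({p | p.1 ∈ Set.Ioo (0 : ℝ) 1 ∧ p.2 ∈ Set.Ioo (0 : ℝ) 1})ᶜ = 0 := by
    have e : {p : ℝ × ℝ | p.1 ∈ Set.Ioo (0 : ℝ) 1 ∧ p.2 ∈ Set.Ioo (0 : ℝ) 1}
        = Set.Ioo (0 : ℝ) 1 ×ˢ Set.Ioo (0 : ℝ) 1 := rfl
    rw [e, prob_compl_eq_zero_iff (measurableSet_Ioo.prod measurableSet_Ioo), unif2,
      Measure.prod_prod, Measure.restrict_apply measurableSet_Ioo]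
    simp
  filter_upwards [show ∀ᵐ p ∂unif2, p ∈ {p : ℝ × ℝ | p.1 ∈ Set.Ioo (0 : ℝ) 1 ∧
    p.2 ∈ Set.Ioo (0 : ℝ) 1} from h] with p hp
  exact ⟨le_min hp.1.1.le hp.2.1.le, min_lt_of_left_lt hp.1.2⟩

section
variable {Ω : Type} [MeasurableSpace Ω] (P : Measure Ω) [IsProbabilityMeasure P]
  (X : ℕ → Ω → ℝ × ℝ) (hX : ∀ i, Measurable (X i)) (hind : iIndepFun X P)
  (hlaw : ∀ i, P.map (X i) = unif2)

include hX hind hlaw in
theorem count_dev (E : Set (ℝ × ℝ)) (hE : MeasurableSet E) (I : Finset ℕ) (p : ℝ)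
    (hp : unif2.real E = p) :
    Integrable (fun ω => |(∑ i ∈ I, E.indicator (fun _ => (1 : ℝ)) (X i ω)) - I.card * p|) P ∧
    ∫ ω, |(∑ i ∈ I, E.indicator (fun _ => (1 : ℝ)) (X i ω)) - I.card * p| ∂P ≤ √I.card := by
  classical
  set φ : ℝ × ℝ → ℝ := E.indicator (fun _ => (1 : ℝ)) with hφ
  have hφm : Measurable φ := measurable_const.indicator hE
  have hφ0 : ∀ q, 0 ≤ φ q := fun q => Set.indicator_nonneg (fun _ _ => zero_le_one) q
  have hφ1 : ∀ q, φ q ≤ 1 := fun q => by
    rw [hφ]; by_cases h : q ∈ E <;> simp [h]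
  have hYm : ∀ i, Measurable (fun ω => φ (X i ω)) := fun i => hφm.comp (hX i)
  have hYb : ∀ i, MemLp (fun ω => φ (X i ω)) 2 P := fun i =>
    MemLp.of_bound (hYm i).aestronglyMeasurable 1 (ae_of_all _ fun ω => by
      rw [Real.norm_of_nonneg (hφ0 _)]; exact hφ1 _)
  have hYi : ∀ i, Integrable (fun ω => φ (X i ω)) P := fun i => (hYb i).integrable (by norm_num)
  have hYmean : ∀ i, ∫ ω, φ (X i ω) ∂P = p := by
    intro i
    have : ∫ ω, φ (X i ω) ∂P = ∫ q, φ q ∂(P.map (X i)) :=
      (integral_map (hX i).aemeasurable hφm.aestronglyMeasurable).symm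
    rw [this, hlaw i, hφ, integral_indicator_const _ hE, hp]
    simp
  set Z : Ω → ℝ := ∑ i ∈ I, fun ω => φ (X i ω) with hZ
  have hZe : ∀ ω, Z ω = ∑ i ∈ I, φ (X i ω) := fun ω => by rw [hZ, Finset.sum_apply]
  have hZmean : ∫ ω, Z ω ∂P = I.card * p := by
    simp only [hZe]
    rw [integral_finsetSum _ fun i _ => hYi i, sum_congr rfl fun i _ => hYmean i]
    simp
  have hvar : Var[Z; P] ≤ I.card := by
    rw [hZ, IndepFun.variance_sum (fun i _ => hYb i)]
    · have : ∀ i ∈ I, Var[fun ω => φ (X i ω); P] ≤ 1 := by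
        intro i _
        refine (variance_le_expectation_sq (hYm i).aestronglyMeasurable).trans ?_
        have h1 : ∫ ω, (1 : ℝ) ∂P = 1 := by simp
        rw [← h1]
        refine integral_mono_of_nonneg (ae_of_all _ fun ω => sq_nonneg _) (integrable_const _)
          (ae_of_all _ fun ω => ?_)
        have a := hφ0 (X i ω)
        have b := hφ1 (X i ω)
        simp only [Pi.pow_apply]
        nlinarith
      refine (sum_le_sum this).trans ?_
      simp
    · intro i _ j _ hij
      exact (hind.indepFun hij).comp hφm hφm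
  have hZm : Measurable Z := by
    have : Z = fun ω => ∑ i ∈ I, φ (X i ω) := funext hZe
    rw [this]; exact Finset.measurable_sum _ fun i _ => hYm i
  rw [variance_eq_integral hZm.aemeasurable, hZmean] at hvar
  have hZL : MemLp (fun ω => Z ω - I.card * p) 2 P := by
    have : MemLp Z 2 P := by
      rw [hZ]; exact memLp_finsetSum' _ fun i _ => hYb i
    exact this.sub (memLp_const _)
  have hint2 : Integrable (fun ω => (Z ω - I.card * p) ^ 2) P := hZL.integrable_sq
  have hint1 : Integrable (fun ω => |Z ω - I.card * p|) P := (hZL.integrable (by norm_num)).abs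
  have e : (fun ω => |(∑ i ∈ I, φ (X i ω)) - I.card * p|) = fun ω => |Z ω - I.card * p| := by
    funext ω; rw [hZe]
  rw [e]
  refine ⟨hint1, ?_⟩
  rcases Nat.eq_zero_or_pos I.card with h0 | h0
  · have hI : I = ∅ := card_eq_zero.1 h0
    have : ∀ ω, Z ω = 0 := fun ω => by rw [hZe, hI]; simp
    simp [this, h0]
  · have hc : (0 : ℝ) < √I.card := Real.sqrt_pos.2 (by exact_mod_cast h0)
    have hle : ∀ ω, |Z ω - I.card * p| ≤ ((Z ω - I.card * p) ^ 2 / √I.card + √I.card) / 2 := by
      intro ω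
      rw [le_div_iff₀ two_pos, ← sub_nonneg]
      have : (Z ω - I.card * p) ^ 2 / √I.card + √I.card - |Z ω - I.card * p| * 2
          = (|Z ω - I.card * p| - √I.card) ^ 2 / √I.card := by
        rw [← sq_abs (Z ω - I.card * p)]
        field_simp; ring
      rw [this]; positivity
    have h2 := integral_mono hint1 (((hint2.div_const (√I.card)).add (integrable_const _)).div_const 2) hle
    refine h2.trans ?_
    have h3 : ∫ ω, ((Z ω - I.card * p) ^ 2 / √I.card + √I.card) / 2 ∂P
        = ((∫ ω, (Z ω - I.card * p) ^ 2 ∂P) / √I.card + √I.card) / 2 := by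
      rw [integral_div, integral_add (hint2.div_const _) (integrable_const _), integral_div]
      simp
    refine (le_of_eq h3).trans ?_
    have h4 : (∫ ω, (Z ω - I.card * p) ^ 2 ∂P) / √I.card ≤ √I.card := by
      rw [div_le_iff₀ hc, Real.mul_self_sqrt (Nat.cast_nonneg _)]
      exact hvar
    linarith

theorem cA_eq (x : ℕ → ℝ × ℝ) (s l : ℕ) (u : ℝ) :
    cA x s l u = ∑ i ∈ Ico (l * s) ((l + 1) * s), {p | lo p ≤ u}.indicator (fun _ => (1 : ℝ)) (x i) := by
  classical
  unfold cA
  rw [card_filter, Nat.cast_sum]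
  refine sum_congr rfl fun i _ => ?_
  by_cases h : lo (x i) ≤ u
  · rw [if_pos h, Set.indicator_of_mem (show x i ∈ {p | lo p ≤ u} from h)]; simp
  · rw [if_neg h, Set.indicator_of_notMem (show x i ∉ {p | lo p ≤ u} from h)]; simp

theorem cB_eq (x : ℕ → ℝ × ℝ) (s l : ℕ) (u : ℝ) :
    cB x s l u = ∑ i ∈ Ico (l * s) ((l + 1) * s), {p | hi p ≤ u}.indicator (fun _ => (1 : ℝ)) (x i) := by
  classical
  unfold cB
  rw [card_filter, Nat.cast_sum]
  refine sum_congr rfl fun i _ => ?_
  by_cases h : hi (x i) ≤ u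
  · rw [if_pos h, Set.indicator_of_mem (show x i ∈ {p | hi p ≤ u} from h)]; simp
  · rw [if_neg h, Set.indicator_of_notMem (show x i ∉ {p | hi p ≤ u} from h)]; simp

include hX hind hlaw in
theorem err_int (k s m l : ℕ) (hm : 0 < m) :
    Integrable (fun ω => err k (fun i => X i ω) s m l) P ∧
    ∫ ω, err k (fun i => X i ω) s m l ∂P ≤ (m + 1) * ((1 + k) * √s) := by
  have hmR : (0 : ℝ) < m := by exact_mod_cast hm
  have hcard : ∀ l : ℕ, (Ico (l * s) ((l + 1) * s)).card = s := by
    intro l; rw [Nat.card_Ico]; have : (l + 1) * s = l * s + s := by ring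
    omega
  have hu : ∀ j ∈ range (m + 1), 0 ≤ (j : ℝ) / m ∧ (j : ℝ) / m ≤ 1 := by
    intro j hj
    refine ⟨by positivity, ?_⟩
    rw [div_le_one hmR]
    exact_mod_cast Nat.lt_succ_iff.1 (mem_range.1 hj)
  have hA : ∀ j ∈ range (m + 1), Integrable (fun ω => |cA (fun i => X i ω) s (l + 1) (j / m)
        - s * (2 * (j / m : ℝ) - (j / m : ℝ) ^ 2)|) P ∧
      ∫ ω, |cA (fun i => X i ω) s (l + 1) (j / m)
        - s * (2 * (j / m : ℝ) - (j / m : ℝ) ^ 2)| ∂P ≤ √s := by
    intro j hj
    have := count_dev P X hX hind hlaw {p | lo p ≤ (j : ℝ) / m}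
      (measurableSet_le meas_lo measurable_const) (Ico ((l + 1) * s) ((l + 1 + 1) * s)) _
      (unif2_lo _ (hu j hj).1 (hu j hj).2)
    rw [hcard] at this
    simp only [cA_eq]
    exact this
  have hB : ∀ j ∈ range (m + 1), Integrable (fun ω => |cB (fun i => X i ω) s l (j / m)
        - s * (j / m : ℝ) ^ 2|) P ∧
      ∫ ω, |cB (fun i => X i ω) s l (j / m) - s * (j / m : ℝ) ^ 2| ∂P ≤ √s := by
    intro j hj
    have := count_dev P X hX hind hlaw {p | hi p ≤ (j : ℝ) / m}
      (measurableSet_le meas_hi measurable_const) (Ico (l * s) ((l + 1) * s)) _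
      (unif2_hi _ (hu j hj).1 (hu j hj).2)
    rw [hcard] at this
    simp only [cB_eq]
    exact this
  have hI : ∀ j ∈ range (m + 1), Integrable (fun ω =>
      |cA (fun i => X i ω) s (l + 1) (j / m) - s * (2 * (j / m : ℝ) - (j / m : ℝ) ^ 2)|
      + k * |cB (fun i => X i ω) s l (j / m) - s * (j / m : ℝ) ^ 2|) P := fun j hj =>
    (hA j hj).1.add ((hB j hj).1.const_mul _)
  unfold err
  refine ⟨integrable_finsetSum _ hI, ?_⟩
  rw [integral_finsetSum _ hI]
  have hle : ∀ j ∈ range (m + 1), ∫ ω,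
      (|cA (fun i => X i ω) s (l + 1) (j / m) - s * (2 * (j / m : ℝ) - (j / m : ℝ) ^ 2)|
      + k * |cB (fun i => X i ω) s l (j / m) - s * (j / m : ℝ) ^ 2|) ∂P ≤ (1 + k) * √s := by
    intro j hj
    rw [integral_add (hA j hj).1 ((hB j hj).1.const_mul _), integral_const_mul]
    have h1 := (hA j hj).2
    have h2 := mul_le_mul_of_nonneg_left (hB j hj).2 (Nat.cast_nonneg (α := ℝ) k)
    linarith
  refine (sum_le_sum hle).trans ?_
  rw [sum_const, card_range, nsmul_eq_mul]
  push_cast
  exact le_rfl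

include hX in
theorem kwd_meas (k n : ℕ) (rel : (ℕ → ℝ × ℝ) → Fin n → Fin n → Prop)
    (hrel : ∀ i j, MeasurableSet {x : ℕ → ℝ × ℝ | rel x i j}) :
    Measurable (fun ω => (kwd k (rel (fun i => X i ω)) : ℝ)) := by
  have h1 : Measurable (fun ω => rel (fun i => X i ω)) := by
    refine measurable_pi_lambda _ fun i => measurable_pi_lambda _ fun j => ?_
    have hx : Measurable (fun ω => (fun i => X i ω)) := measurable_pi_lambda _ hX
    exact measurable_to_prop (by
      have := hx (hrel i j)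
      convert this using 1
      ext ω; simp)
  have h2 : Measurable (fun r : Fin n → Fin n → Prop => (kwd k r : ℝ)) := Measurable.of_discrete
  exact h2.comp h1

theorem rel_meas_set (n : ℕ) (i j : Fin n) : MeasurableSet {x : ℕ → ℝ × ℝ | setRel n x i j} :=
  measurableSet_le (meas_hi.comp (measurable_pi_apply _)) (meas_lo.comp (measurable_pi_apply _))

theorem rel_meas_seq (n : ℕ) (i j : Fin n) : MeasurableSet {x : ℕ → ℝ × ℝ | seqRel n x i j} := by
  by_cases h : i < j
  · have e : {x : ℕ → ℝ × ℝ | seqRel n x i j} = {x | hi (x i) ≤ lo (x j)} := by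
      ext x; simp [seqRel, h]
    rw [e]
    exact measurableSet_le (meas_hi.comp (measurable_pi_apply _)) (meas_lo.comp (measurable_pi_apply _))
  · have e : {x : ℕ → ℝ × ℝ | seqRel n x i j} = ∅ := by
      ext x; simp [seqRel, h]
    rw [e]; exact MeasurableSet.empty

theorem kwd_le_card {U : Type} [Fintype U] [DecidableEq U] (k : ℕ) (r : U → U → Prop) :
    kwd k r ≤ Fintype.card U := by
  obtain ⟨P, h1, h2⟩ := kwd_mem k r
  rw [← h2]
  exact P.card_parts_le_card

include hX in
theorem kwd_integrable (k n : ℕ) (rel : (ℕ → ℝ × ℝ) → Fin n → Fin n → Prop)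
    (hrel : ∀ i j, MeasurableSet {x : ℕ → ℝ × ℝ | rel x i j}) :
    Integrable (fun ω => (kwd k (rel (fun i => X i ω)) : ℝ)) P := by
  refine Integrable.of_bound (kwd_meas X hX k n rel hrel).aestronglyMeasurable n
    (ae_of_all _ fun ω => ?_)
  rw [Real.norm_of_nonneg (Nat.cast_nonneg _)]
  have := kwd_le_card k (rel (fun i => X i ω))
  rw [Fintype.card_fin] at this
  exact_mod_cast this

include hX hind hlaw in
/-- lower bound -/
theorem set_lower (k n : ℕ) :
    (n : ℝ) * (1 / (k + 1)) ≤ ∫ ω, (kwd k (setRel n (fun i => X i ω)) : ℝ) ∂P := by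
  classical
  have hk1 : (0 : ℝ) < (k : ℝ) + 1 := by positivity
  set u : ℝ := 1 / (k + 1) with hu
  have hu0 : 0 ≤ u := by positivity
  have hu1 : u ≤ 1 := by
    rw [hu, div_le_one hk1]; have : (0 : ℝ) ≤ k := Nat.cast_nonneg k
    linarith
  have hpt : ∀ ω, (∑ i ∈ range n, {p | lo p ≤ u}.indicator (fun _ => (1 : ℝ)) (X i ω))
      - k * (∑ i ∈ range n, {p | hi p ≤ u}.indicator (fun _ => (1 : ℝ)) (X i ω))
      ≤ (kwd k (setRel n (fun i => X i ω)) : ℝ) := by
    intro ω
    have h1 := card_le_kwd k (setRel n (fun i => X i ω))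
      (univ.filter fun i : Fin n => lo (X i ω) ≤ u) (univ.filter fun i : Fin n => hi (X i ω) ≤ u)
      (by
        intro a b hab hb
        rw [mem_filter] at hb ⊢
        exact ⟨mem_univ _, hab.trans hb.2⟩)
    have e1 : ((univ.filter fun i : Fin n => lo (X i ω) ≤ u).card : ℝ)
        = ∑ i ∈ range n, {p | lo p ≤ u}.indicator (fun _ => (1 : ℝ)) (X i ω) := by
      rw [card_filter, Nat.cast_sum, Finset.sum_range]
      refine sum_congr rfl fun i _ => ?_
      by_cases h : lo (X i ω) ≤ u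
      · rw [if_pos h, Set.indicator_of_mem (show X i ω ∈ {p | lo p ≤ u} from h)]; simp
      · rw [if_neg h, Set.indicator_of_notMem (show X i ω ∉ {p | lo p ≤ u} from h)]; simp
    have e2 : ((univ.filter fun i : Fin n => hi (X i ω) ≤ u).card : ℝ)
        = ∑ i ∈ range n, {p | hi p ≤ u}.indicator (fun _ => (1 : ℝ)) (X i ω) := by
      rw [card_filter, Nat.cast_sum, Finset.sum_range]
      refine sum_congr rfl fun i _ => ?_
      by_cases h : hi (X i ω) ≤ u
      · rw [if_pos h, Set.indicator_of_mem (show X i ω ∈ {p | hi p ≤ u} from h)]; simp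
      · rw [if_neg h, Set.indicator_of_notMem (show X i ω ∉ {p | hi p ≤ u} from h)]; simp
    rw [← e1, ← e2]
    have h2 : ((univ.filter fun i : Fin n => lo (X i ω) ≤ u).card : ℝ)
        ≤ (kwd k (setRel n (fun i => X i ω)) : ℝ)
          + k * (univ.filter fun i : Fin n => hi (X i ω) ≤ u).card := by exact_mod_cast h1
    linarith
  have hind1 : ∀ (E : Set (ℝ × ℝ)), MeasurableSet E → ∀ i, Integrable
      (fun ω => E.indicator (fun _ => (1 : ℝ)) (X i ω)) P ∧
      ∫ ω, E.indicator (fun _ => (1 : ℝ)) (X i ω) ∂P = unif2.real E := by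
    intro E hE i
    have hm : Measurable (E.indicator (fun _ => (1 : ℝ))) := measurable_const.indicator hE
    constructor
    · refine Integrable.of_bound (hm.comp (hX i)).aestronglyMeasurable 1 (ae_of_all _ fun ω => ?_)
      by_cases h : X i ω ∈ E <;> simp [h]
    · have : ∫ ω, E.indicator (fun _ => (1 : ℝ)) (X i ω) ∂P
          = ∫ q, E.indicator (fun _ => (1 : ℝ)) q ∂(P.map (X i)) :=
        (integral_map (hX i).aemeasurable hm.aestronglyMeasurable).symm
      rw [this, hlaw i, integral_indicator_const _ hE]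
      simp
  have hlo := hind1 {p | lo p ≤ u} (measurableSet_le meas_lo measurable_const)
  have hhi := hind1 {p | hi p ≤ u} (measurableSet_le meas_hi measurable_const)
  have hIA : Integrable (fun ω => ∑ i ∈ range n, {p | lo p ≤ u}.indicator (fun _ => (1 : ℝ)) (X i ω)) P :=
    integrable_finsetSum _ fun i (_ : i ∈ range n) => (hlo i).1
  have hIB : Integrable (fun ω => (k : ℝ) *
      ∑ i ∈ range n, {p | hi p ≤ u}.indicator (fun _ => (1 : ℝ)) (X i ω)) P :=
    (integrable_finsetSum _ fun i (_ : i ∈ range n) => (hhi i).1).const_mul (k : ℝ)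
  have h3 := integral_mono (hIA.sub hIB) (kwd_integrable P X hX k n (setRel n) (rel_meas_set n)) hpt
  have h4 : ∫ ω, ((∑ i ∈ range n, {p | lo p ≤ u}.indicator (fun _ => (1 : ℝ)) (X i ω))
      - k * (∑ i ∈ range n, {p | hi p ≤ u}.indicator (fun _ => (1 : ℝ)) (X i ω))) ∂P = n * u := by
    rw [integral_sub hIA hIB, integral_const_mul, integral_finsetSum _ fun i _ => (hlo i).1,
      integral_finsetSum _ fun i _ => (hhi i).1, sum_congr rfl fun i _ => (hlo i).2,
      sum_congr rfl fun i _ => (hhi i).2, unif2_lo u hu0 hu1, unif2_hi u hu0 hu1]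
    rw [sum_const, sum_const, card_range, nsmul_eq_mul, nsmul_eq_mul, hu]
    field_simp
    ring
  exact le_trans (le_of_eq h4.symm) h3

include hX hind hlaw in
/-- upper bound -/
theorem seq_upper (k n L s m : ℕ) (hm : 0 < m) (hs : 0 < s) (hn : (L + 1) * s ≤ n) :
    ∫ ω, (kwd k (seqRel n (fun i => X i ω)) : ℝ) ∂P ≤ ((n : ℝ) - (L + 1) * s) + s
      + L * (s * (1 / (k + 1) + 2 / m) + (m + 1) * ((1 + k) * √s)) := by
  have hae : ∀ᵐ ω ∂P, ∀ i, 0 ≤ lo (X i ω) ∧ lo (X i ω) < 1 := by
    rw [ae_all_iff]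
    intro i
    have h1 := unif2_ae
    rw [← hlaw i] at h1
    exact ae_of_ae_map (hX i).aemeasurable h1
  have herr := fun l => err_int P X hX hind hlaw k s m l hm
  have hint : Integrable (fun ω => ((n : ℝ) - (L + 1) * s) + s
      + ∑ l ∈ range L, (s * (1 / (k + 1) + 2 / m) + err k (fun i => X i ω) s m l)) P :=
    (integrable_const _).add (integrable_finsetSum _ fun l _ =>
      (integrable_const _).add (herr l).1)
  have h1 := integral_mono_ae (kwd_integrable P X hX k n (seqRel n) (rel_meas_seq n)) hint (by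
    filter_upwards [hae] with ω hω
    exact kwd_seq_le k n L s m hm hs hn _ fun i _ => hω i)
  refine h1.trans ?_
  have hI1 : ∀ l, Integrable (fun ω => (s * (1 / (k + 1) + 2 / m) : ℝ)
      + err k (fun i => X i ω) s m l) P := fun l => (integrable_const _).add (herr l).1
  have hI2 : Integrable (fun ω => ∑ l ∈ range L, ((s * (1 / (k + 1) + 2 / m) : ℝ)
      + err k (fun i => X i ω) s m l)) P := integrable_finsetSum _ fun l _ => hI1 l
  rw [integral_add (integrable_const _) hI2, integral_finsetSum _ fun l _ => hI1 l]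
  have h2 : ∀ l ∈ range L, ∫ ω, (s * (1 / (k + 1) + 2 / m) + err k (fun i => X i ω) s m l) ∂P
      ≤ s * (1 / (k + 1) + 2 / m) + (m + 1) * ((1 + k) * √s) := by
    intro l _
    rw [integral_add (integrable_const _) (herr l).1]
    simp only [integral_const, probReal_univ, smul_eq_mul, one_mul]
    linarith [(herr l).2]
  have h3 := sum_le_sum h2
  rw [sum_const, card_range, nsmul_eq_mul] at h3
  simp only [integral_const, probReal_univ, smul_eq_mul, one_mul]
  linarith

include hX hind hlaw in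
/-- the limit for any order between the sequence order and the set order -/
theorem lim_between (k : ℕ) (rel : ∀ n : ℕ, (ℕ → ℝ × ℝ) → Fin n → Fin n → Prop)
    (hlow : ∀ n : ℕ, (n : ℝ) * (1 / (k + 1)) ≤ ∫ ω, (kwd k (rel n (fun i => X i ω)) : ℝ) ∂P)
    (hup : ∀ n : ℕ, ∫ ω, (kwd k (rel n (fun i => X i ω)) : ℝ) ∂P
      ≤ ∫ ω, (kwd k (seqRel n (fun i => X i ω)) : ℝ) ∂P) :
    Tendsto (fun n : ℕ => (∫ ω, (kwd k (rel n (fun i => X i ω)) : ℝ) ∂P) / n) atTop
      (𝓝 (1 / (k + 1))) := by
  set c : ℝ := 1 / (k + 1) with hc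
  have hc0 : 0 ≤ c := by positivity
  rw [tendsto_order]
  constructor
  · intro a ha
    filter_upwards [eventually_gt_atTop 0] with n hn
    have hn' : (0 : ℝ) < n := by exact_mod_cast hn
    refine ha.trans_le ?_
    rw [le_div_iff₀ hn', mul_comm]
    exact hlow n
  · intro a ha
    set ε := a - c with hε
    have hε0 : 0 < ε := by rw [hε]; linarith
    obtain ⟨M', hM'⟩ := exists_nat_gt (8 / ε)
    set M := M' + 1 with hM
    have hMR : 8 / ε < (M : ℝ) := by rw [hM]; push_cast; linarith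
    have hM0 : (0 : ℝ) < M := by rw [hM]; positivity
    have hMε : 1 / (M : ℝ) < ε / 8 := by
      rw [div_lt_iff₀ hM0]
      rw [div_lt_iff₀ hε0] at hMR
      linarith
    set K : ℝ := (M + 1) * (1 + k) with hK
    have hK0 : 0 ≤ K := by rw [hK]; positivity
    have hg : Tendsto (fun n : ℕ => (M : ℝ) / n + 1 / M + (c + 2 / M) + (M * K) * (√n / n)) atTop
        (𝓝 (0 + 1 / M + (c + 2 / M) + (M * K) * 0)) := by
      refine ((Tendsto.add ?_ tendsto_const_nhds).add tendsto_const_nhds).add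
        (Tendsto.const_mul _ ?_)
      · exact tendsto_const_div_atTop_nhds_zero_nat _
      · have h1 : Tendsto (fun n : ℕ => 1 / √(n : ℝ)) atTop (𝓝 0) := by
          refine Tendsto.div_atTop tendsto_const_nhds ?_
          exact Real.tendsto_sqrt_atTop.comp tendsto_natCast_atTop_atTop
        refine h1.congr fun n => ?_
        rw [Real.sqrt_div_self']
    have hlt : 0 + 1 / (M : ℝ) + (c + 2 / M) + (M * K) * 0 < a := by
      have h2 : 2 / (M : ℝ) = 2 * (1 / M) := by ring
      rw [h2]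
      have : a = c + ε := by rw [hε]; ring
      rw [this]
      linarith
    filter_upwards [hg.eventually (gt_mem_nhds hlt), eventually_ge_atTop M,
      eventually_gt_atTop 0] with n h1 h2 h3
    refine lt_of_le_of_lt ?_ h1
    have hn' : (0 : ℝ) < n := by exact_mod_cast h3
    rw [div_le_iff₀ hn']
    have hMpos : 0 < M := by omega
    set s := n / M with hs
    have hs0 : 0 < s := Nat.div_pos h2 hMpos
    have hsle : M * s ≤ n := Nat.mul_div_le n M
    have hslt : n < M * s + M := by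
      have := Nat.lt_mul_div_succ n hMpos
      rw [mul_add, mul_one] at this
      exact this
    have h4 := seq_upper P X hX hind hlaw k n M' s M hMpos hs0 (by rw [← hM]; exact hsle)
    refine (hup n).trans (h4.trans ?_)
    have hsR : (M : ℝ) * s ≤ n := by exact_mod_cast hsle
    have hsR' : (n : ℝ) < M * s + M := by exact_mod_cast hslt
    have hMM : (M' : ℝ) + 1 = M := by rw [hM]; push_cast; ring
    have hM'0 : (0 : ℝ) ≤ M' := Nat.cast_nonneg _
    rw [hMM]
    have hs00 : (0 : ℝ) ≤ s := Nat.cast_nonneg _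
    have h5 : (s : ℝ) ≤ n * (1 / M) := by
      rw [mul_one_div, le_div_iff₀ hM0]; linarith
    have hM1 : (1 : ℝ) ≤ M := by rw [← hMM]; linarith
    have h6 : √(s : ℝ) ≤ √(n : ℝ) := Real.sqrt_le_sqrt (by nlinarith)
    have h7 : (M' : ℝ) * s ≤ n := by nlinarith
    have h8 : (M' : ℝ) * (s * (1 / (k + 1) + 2 / M)) ≤ n * (c + 2 / M) := by
      rw [← mul_assoc]
      refine mul_le_mul_of_nonneg_right h7 ?_
      positivity
    have h9 : (M' : ℝ) * ((M + 1) * ((1 + k) * √s)) ≤ M * K * √n := by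
      rw [hK]
      have : (M' : ℝ) * ((M + 1) * ((1 + k) * √s)) = M' * (((M + 1) * (1 + k)) * √s) := by ring
      rw [this]
      have h10 : ((M : ℝ) + 1) * (1 + k) * √s ≤ (M + 1) * (1 + k) * √n :=
        mul_le_mul_of_nonneg_left h6 (by positivity)
      have h11 : (M' : ℝ) * (((M + 1) * (1 + k)) * √s) ≤ M * ((M + 1) * (1 + k) * √n) := by
        refine mul_le_mul (by linarith) h10 (by positivity) hM0.le
      linarith
    have h12 : ((M : ℝ) / n + 1 / M + (c + 2 / M) + (M * K) * (√n / n)) * n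
        = M + n * (1 / M) + n * (c + 2 / M) + M * K * √n := by
      field_simp
    rw [h12]
    nlinarith

end

end Pool.Agent.V11327.KW
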