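import Pool.Agent.V11327.KWdet

/-! Deterministic upper bound for the `k`-width of a sequence of intervals. -/

set_option autoImplicit false

namespace Pool.Agent.V11327.KW

open Finset

/-- number of intervals of block `l` (length `s`) with left endpoint at most `u` -/
noncomputable def cA (x : ℕ → ℝ × ℝ) (s l : ℕ) (u : ℝ) : ℝ :=
  (((Ico (l * s) ((l + 1) * s)).filter fun i => lo (x i) ≤ u).card : ℝ)

/-- number of intervals of block `l` (length `s`) with right endpoint at most `u` -/
noncomputable def cB (x : ℕ → ℝ × ℝ) (s l : ℕ) (u : ℝ) : ℝ :=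
  (((Ico (l * s) ((l + 1) * s)).filter fun i => hi (x i) ≤ u).card : ℝ)

/-- error term of one block -/
noncomputable def err (k : ℕ) (x : ℕ → ℝ × ℝ) (s m l : ℕ) : ℝ :=
  ∑ j ∈ range (m + 1), (|cA x s (l + 1) (j / m) - s * (2 * (j / m : ℝ) - (j / m : ℝ) ^ 2)|
    + k * |cB x s l (j / m) - s * (j / m : ℝ) ^ 2|)

theorem err_nonneg (k : ℕ) (x : ℕ → ℝ × ℝ) (s m l : ℕ) : 0 ≤ err k x s m l :=
  sum_nonneg fun _ _ => by positivity

theorem lo_le_hi (p : ℝ × ℝ) : lo p ≤ hi p := min_le_max

theorem block_bound (k n s m l : ℕ) (hm : 0 < m) (hn : (l + 2) * s ≤ n)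
    (x : ℕ → ℝ × ℝ) (hx : ∀ i, i < n → 0 ≤ lo (x i) ∧ lo (x i) < 1)
    (Y : Finset (Fin n)) (hY : ∀ j ∈ Y, (j : ℕ) ∈ Ico ((l + 1) * s) ((l + 2) * s))
    (N : Finset (Fin n)) (hN : ∀ i : Fin n, (i : ℕ) ∈ Ico (l * s) ((l + 1) * s) →
      (∃ j ∈ Y, hi (x i) ≤ lo (x j)) → i ∈ N) :
    (Y.card : ℝ) ≤ k * N.card + (s * (1 / (k + 1) + 2 / m) + err k x s m l) := by
  have hmR : (0 : ℝ) < m := by exact_mod_cast hm
  rcases Y.eq_empty_or_nonempty with rfl | hne
  · have := err_nonneg k x s m l
    simp only [card_empty, Nat.cast_zero]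
    positivity
  obtain ⟨j0, hj0, hmax⟩ := exists_max_image Y (fun j => lo (x j)) hne
  set t := lo (x j0) with ht
  obtain ⟨ht0, ht1⟩ := hx j0 j0.2
  set c := ⌊t * m⌋₊ with hc
  have hc1 : (c : ℝ) ≤ t * m := Nat.floor_le (by positivity)
  have hc2 : t * m < c + 1 := Nat.lt_floor_add_one _
  have hcm : c < m := by
    have : (c : ℝ) < m := lt_of_le_of_lt hc1 (by nlinarith)
    exact_mod_cast this
  -- upper bound on Y
  have h1 : (Y.card : ℝ) ≤ cA x s (l + 1) (((c + 1 : ℕ) : ℝ) / m) := by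
    unfold cA
    have : Y.card ≤ ((Ico ((l + 1) * s) ((l + 1 + 1) * s)).filter
        fun i => lo (x i) ≤ ((c + 1 : ℕ) : ℝ) / m).card := by
      refine card_le_card_of_injOn (fun j : Fin n => (j : ℕ)) ?_ (fun a _ b _ h => Fin.ext h)
      intro j hj
      rw [mem_coe] at hj
      rw [mem_coe, mem_filter]
      refine ⟨hY j hj, ?_⟩
      refine (hmax j hj).trans ?_
      rw [le_div_iff₀ hmR]
      push_cast
      exact hc2.le
    exact_mod_cast this
  have h2 : cB x s l ((c : ℝ) / m) ≤ N.card := by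
    unfold cB
    have : ((Ico (l * s) ((l + 1) * s)).filter fun i => hi (x i) ≤ (c : ℝ) / m).card ≤ N.card := by
      refine le_trans (card_le_card ?_) (card_image_le (s := N) (f := fun j : Fin n => (j : ℕ)))
      intro i hi'
      rw [mem_filter] at hi'
      have hin : i < n := by
        have := (mem_Ico.1 hi'.1).2
        have h3 : (l + 1) * s ≤ (l + 2) * s := Nat.mul_le_mul_right s (by omega)
        omega
      rw [mem_image]
      refine ⟨⟨i, hin⟩, hN ⟨i, hin⟩ hi'.1 ⟨j0, hj0, ?_⟩, rfl⟩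
      refine hi'.2.trans ?_
      rw [div_le_iff₀ hmR]
      exact hc1
    exact_mod_cast this
  -- the error terms
  have hA : |cA x s (l + 1) (((c + 1 : ℕ) : ℝ) / m)
      - s * (2 * (((c + 1 : ℕ) : ℝ) / m) - (((c + 1 : ℕ) : ℝ) / m) ^ 2)|
      ≤ ∑ j ∈ range (m + 1), |cA x s (l + 1) (j / m) - s * (2 * (j / m : ℝ) - (j / m : ℝ) ^ 2)| :=
    single_le_sum (f := fun j : ℕ => |cA x s (l + 1) (j / m)
      - s * (2 * (j / m : ℝ) - (j / m : ℝ) ^ 2)|) (fun _ _ => abs_nonneg _)
      (mem_range.2 (by omega))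
  have hB : k * |cB x s l ((c : ℝ) / m) - s * ((c : ℝ) / m) ^ 2|
      ≤ ∑ j ∈ range (m + 1), k * |cB x s l (j / m) - s * (j / m : ℝ) ^ 2| :=
    single_le_sum (f := fun j : ℕ => (k : ℝ) * |cB x s l (j / m) - s * (j / m : ℝ) ^ 2|)
      (fun _ _ => by positivity) (mem_range.2 (by omega))
  have herr : err k x s m l = ∑ j ∈ range (m + 1),
      |cA x s (l + 1) (j / m) - s * (2 * (j / m : ℝ) - (j / m : ℝ) ^ 2)|
      + ∑ j ∈ range (m + 1), k * |cB x s l (j / m) - s * (j / m : ℝ) ^ 2| := by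
    unfold err; rw [sum_add_distrib]
  set a := |cA x s (l + 1) (((c + 1 : ℕ) : ℝ) / m)
      - s * (2 * (((c + 1 : ℕ) : ℝ) / m) - (((c + 1 : ℕ) : ℝ) / m) ^ 2)| with ha
  set b := |cB x s l ((c : ℝ) / m) - s * ((c : ℝ) / m) ^ 2| with hb
  have h3 : cA x s (l + 1) (((c + 1 : ℕ) : ℝ) / m)
      ≤ s * (2 * (((c + 1 : ℕ) : ℝ) / m) - (((c + 1 : ℕ) : ℝ) / m) ^ 2) + a := by
    have := le_abs_self (cA x s (l + 1) (((c + 1 : ℕ) : ℝ) / m)
      - s * (2 * (((c + 1 : ℕ) : ℝ) / m) - (((c + 1 : ℕ) : ℝ) / m) ^ 2))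
    linarith
  have h4 : s * ((c : ℝ) / m) ^ 2 - b ≤ cB x s l ((c : ℝ) / m) := by
    have := neg_abs_le (cB x s l ((c : ℝ) / m) - s * ((c : ℝ) / m) ^ 2)
    linarith
  set u : ℝ := (c : ℝ) / m with hu
  have hu0 : 0 ≤ u := by positivity
  have hcu : ((c + 1 : ℕ) : ℝ) / m = u + 1 / m := by rw [hu]; push_cast; ring
  have hk1 : (0 : ℝ) < (k : ℝ) + 1 := by positivity
  have hopt : 2 * u - u ^ 2 - k * u ^ 2 ≤ 1 / (k + 1) := by
    rw [le_div_iff₀ hk1]
    nlinarith [sq_nonneg ((k + 1) * u - 1)]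
  have h5 : 2 * (u + 1 / m) - (u + 1 / m) ^ 2 - k * u ^ 2 ≤ 1 / (k + 1) + 2 / m := by
    have h6 : (0 : ℝ) < 1 / m := by positivity
    have h7 : (2 : ℝ) / m = 2 * (1 / m) := by ring
    rw [h7]
    nlinarith
  have hkN : (k : ℝ) * (s * u ^ 2 - b) ≤ k * N.card :=
    mul_le_mul_of_nonneg_left (h4.trans h2) (Nat.cast_nonneg k)
  rw [hcu] at h3 h1
  have hs0 : (0 : ℝ) ≤ s := Nat.cast_nonneg s
  have h8 := mul_le_mul_of_nonneg_left h5 hs0
  rw [herr]
  nlinarith

/-- The deterministic upper bound. -/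
theorem kwd_seq_le (k n L s m : ℕ) (hm : 0 < m) (hs : 0 < s) (hn : (L + 1) * s ≤ n)
    (x : ℕ → ℝ × ℝ) (hx : ∀ i, i < n → 0 ≤ lo (x i) ∧ lo (x i) < 1) :
    (kwd k (seqRel n x) : ℝ) ≤ ((n : ℝ) - (L + 1) * s) + s
      + ∑ l ∈ range L, (s * (1 / (k + 1) + 2 / m) + err k x s m l) := by
  classical
  set R : ℝ := ((n : ℝ) - (L + 1) * s) + s
      + ∑ l ∈ range L, (s * (1 / (k + 1) + 2 / m) + err k x s m l) with hR
  have hnR : ((L : ℝ) + 1) * s ≤ n := by exact_mod_cast hn
  have hR0 : 0 ≤ R := by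
    have : 0 ≤ ∑ l ∈ range L, (s * (1 / (k + 1) + 2 / m) + err k x s m l) :=
      sum_nonneg fun l _ => by
        have := err_nonneg k x s m l
        positivity
    have : (0 : ℝ) ≤ s := Nat.cast_nonneg s
    rw [hR]; linarith
  -- the restricted relation
  set r : Fin n → Fin n → Prop := fun i j => (j : ℕ) < (L + 1) * s ∧
    (j : ℕ) / s = (i : ℕ) / s + 1 ∧ hi (x i) ≤ lo (x j) with hr
  have hrs : ∀ i j, r i j → seqRel n x i j := by
    rintro i j ⟨-, h1, h2⟩
    refine ⟨?_, h2⟩
    by_contra hcon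
    have : (j : ℕ) ≤ i := by
      rw [not_lt] at hcon; exact hcon
    have := Nat.div_le_div_right (c := s) this
    omega
  obtain ⟨g, hg1, hg2, hg3⟩ := exists_parents k ⌊R⌋₊ r (by
    intro Y _
    have key : (Y.card : ℝ) ≤ k * {i | ∃ j ∈ Y, r i j}.ncard + R := by
      set N : Finset (Fin n) := univ.filter fun i => ∃ j ∈ Y, r i j with hN
      have hNc : {i | ∃ j ∈ Y, r i j}.ncard = N.card := by
        rw [← Set.ncard_coe_finset]; congr 1; ext i; simp [hN]
      rw [hNc]
      -- decompose Y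
      have hYdec : Y ⊆ (Y.filter fun j : Fin n => (L + 1) * s ≤ (j : ℕ)) ∪
          ((Y.filter fun j : Fin n => (j : ℕ) < s) ∪
          (range L).biUnion fun l => Y.filter fun j : Fin n =>
            (j : ℕ) ∈ Ico ((l + 1) * s) ((l + 2) * s)) := by
        intro j hj
        simp only [mem_union, mem_filter, mem_biUnion, mem_range, mem_Ico]
        by_cases h1 : (L + 1) * s ≤ (j : ℕ)
        · left; exact ⟨hj, h1⟩
        · right
          by_cases h2 : (j : ℕ) < s
          · left; exact ⟨hj, h2⟩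
          · right
            have h3 : (j : ℕ) / s < L + 1 := by
              rw [Nat.div_lt_iff_lt_mul hs]; omega
            have h4 : 1 ≤ (j : ℕ) / s := by
              rw [Nat.le_div_iff_mul_le hs]; omega
            refine ⟨(j : ℕ) / s - 1, by omega, hj, ?_, ?_⟩
            · have h5 : (j : ℕ) / s - 1 + 1 = (j : ℕ) / s := by omega
              rw [h5]; exact Nat.div_mul_le_self _ _
            · have h5 : (j : ℕ) / s - 1 + 2 = (j : ℕ) / s + 1 := by omega
              rw [h5, mul_comm]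
              exact Nat.lt_mul_div_succ _ hs
      have hc1 : ((Y.filter fun j : Fin n => (L + 1) * s ≤ (j : ℕ)).card : ℝ)
          ≤ (n : ℝ) - (L + 1) * s := by
        have : (Y.filter fun j : Fin n => (L + 1) * s ≤ (j : ℕ)).card
            ≤ (Ico ((L + 1) * s) n).card := by
          refine card_le_card_of_injOn (fun j : Fin n => (j : ℕ)) ?_ (fun a _ b _ h => Fin.ext h)
          intro j hj
          rw [mem_coe, mem_filter] at hj
          rw [mem_coe, mem_Ico]
          exact ⟨hj.2, j.2⟩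
        rw [Nat.card_Ico] at this
        have h2 : ((n - (L + 1) * s : ℕ) : ℝ) = (n : ℝ) - (L + 1) * s := by
          rw [Nat.cast_sub hn]; push_cast; ring
        rw [← h2]
        exact_mod_cast this
      have hc2 : ((Y.filter fun j : Fin n => (j : ℕ) < s).card : ℝ) ≤ s := by
        have : (Y.filter fun j : Fin n => (j : ℕ) < s).card ≤ (range s).card := by
          refine card_le_card_of_injOn (fun j : Fin n => (j : ℕ)) ?_ (fun a _ b _ h => Fin.ext h)
          intro j hj
          rw [mem_coe, mem_filter] at hj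
          rw [mem_coe, mem_range]
          exact hj.2
        rw [card_range] at this
        exact_mod_cast this
      have hc3 : ∀ l ∈ range L, ((Y.filter fun j : Fin n =>
          (j : ℕ) ∈ Ico ((l + 1) * s) ((l + 2) * s)).card : ℝ)
          ≤ k * (N.filter fun i : Fin n => (i : ℕ) / s = l).card
            + (s * (1 / (k + 1) + 2 / m) + err k x s m l) := by
        intro l hl
        rw [mem_range] at hl
        have hle : (l + 2) * s ≤ (L + 1) * s := Nat.mul_le_mul_right s (by omega)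
        refine block_bound k n s m l hm (hle.trans hn) x hx _ ?_ _ ?_
        · intro j hj; exact (mem_filter.1 hj).2
        · rintro i hi' ⟨j, hj, hij⟩
          rw [mem_filter] at hj
          rw [mem_Ico] at hi'
          have hjI := mem_Ico.1 hj.2
          have e1 : (i : ℕ) / s = l := by
            rw [Nat.div_eq_iff hs]
            have : (l + 1) * s = l * s + s := by ring
            constructor <;> omega
          have e2 : (j : ℕ) / s = l + 1 := by
            rw [Nat.div_eq_iff hs]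
            have : (l + 2) * s = (l + 1) * s + s := by ring
            constructor <;> omega
          rw [mem_filter, hN, mem_filter]
          refine ⟨⟨mem_univ _, j, hj.1, ?_, ?_, hij⟩, e1⟩
          · omega
          · rw [e1, e2]
      have hcard := card_le_card hYdec
      have h5 : (Y.card : ℝ) ≤ ((Y.filter fun j : Fin n => (L + 1) * s ≤ (j : ℕ)).card : ℝ)
          + (((Y.filter fun j : Fin n => (j : ℕ) < s).card : ℝ)
          + ∑ l ∈ range L, ((Y.filter fun j : Fin n =>
            (j : ℕ) ∈ Ico ((l + 1) * s) ((l + 2) * s)).card : ℝ)) := by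
        have h6 := hcard.trans (card_union_le _ _)
        have h7 := card_union_le (Y.filter fun j : Fin n => (j : ℕ) < s)
          ((range L).biUnion fun l => Y.filter fun j : Fin n =>
            (j : ℕ) ∈ Ico ((l + 1) * s) ((l + 2) * s))
        have h8 := card_biUnion_le (s := range L) (t := fun l => Y.filter fun j : Fin n =>
            (j : ℕ) ∈ Ico ((l + 1) * s) ((l + 2) * s))
        have h9 := h6.trans (Nat.add_le_add_left (h7.trans (Nat.add_le_add_left h8 _)) _)
        exact_mod_cast h9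
      have h6 := sum_le_sum hc3
      rw [sum_add_distrib, ← mul_sum] at h6
      have h7 : ∑ l ∈ range L, ((N.filter fun i : Fin n => (i : ℕ) / s = l).card : ℝ) ≤ N.card := by
        have : ∑ l ∈ range L, (N.filter fun i : Fin n => (i : ℕ) / s = l).card ≤ N.card := by
          rw [← card_biUnion]
          · refine card_le_card ?_
            intro i hi'
            rw [mem_biUnion] at hi'
            obtain ⟨l, -, hl⟩ := hi'
            exact (mem_filter.1 hl).1
          · intro a _ b _ hab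
            rw [Function.onFun, disjoint_left]
            intro i h1 h2
            exact hab ((mem_filter.1 h1).2.symm.trans (mem_filter.1 h2).2)
        exact_mod_cast this
      have h8 := mul_le_mul_of_nonneg_left h7 (Nat.cast_nonneg (α := ℝ) k)
      rw [hR]
      linarith
    have h1 : Y.card - k * {i | ∃ j ∈ Y, r i j}.ncard ≤ ⌊R⌋₊ := by
      apply Nat.le_floor
      rcases le_or_gt (k * {i | ∃ j ∈ Y, r i j}.ncard) Y.card with h | h
      · rw [Nat.cast_sub h]; push_cast; linarith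
      · rw [Nat.sub_eq_zero_of_le h.le]; simpa using hR0
    omega)
  have hle := kwd_le_of_parents k (seqRel n x)
    (fun a b c h1 h2 => ⟨h1.1.trans h2.1, (h1.2.trans (lo_le_hi _)).trans h2.2⟩)
    (fun a h => lt_irrefl _ h.1) g (fun a b h => hrs a b (hg1 a b h)) hg2
  have h2 : kwd k (seqRel n x) ≤ ⌊R⌋₊ := hle.trans hg3
  calc (kwd k (seqRel n x) : ℝ) ≤ (⌊R⌋₊ : ℝ) := by exact_mod_cast h2
    _ ≤ R := Nat.floor_le hR0

end Pool.Agent.V11327.KW
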