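import Pool.Agent.V11327.MMseq

/-! The game on the binary tree. -/

set_option autoImplicit false

namespace Pool.Agent.V11327.MM

open MeasureTheory ProbabilityTheory Filter Topology

/-- The value of the position `v` when `r` moves remain; vertices of the binary tree are lists of
booleans, the children of `v` are `false :: v` and `true :: v`, and `x u` is the cookie on the edge
from `u` to its parent. The maximiser moves when an even number of moves remains. -/
def val (x : List Bool → ℤ) : ℕ → List Bool → ℤ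
  | 0, _ => 0
  | r + 1, v =>
    if Even (r + 1) then
      max (x (false :: v) + val x r (false :: v)) (x (true :: v) + val x r (true :: v))
    else
      min (x (false :: v) + val x r (false :: v)) (x (true :: v) + val x r (true :: v))

/-- independent cookies, uniform on `{-1, 1}` -/
structure IsCookies {Ω : Type} [MeasurableSpace Ω] (P : Measure Ω) (X : List Bool → Ω → ℤ) :
    Prop where
  meas : ∀ v, Measurable (X v)
  indep : iIndepFun X P
  plus : ∀ v, P.real {ω | X v ω = 1} = 1 / 2
  minus : ∀ v, P.real {ω | X v ω = -1} = 1 / 2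

/-- the distribution functions -/
noncomputable def Fr : ℕ → ℤ → ℝ
  | 0, t => if 0 ≤ t then 1 else 0
  | r + 1, t =>
    if Even (r + 1) then ((Fr r (t - 1) + Fr r (t + 1)) / 2) ^ 2
    else 1 - (1 - (Fr r (t - 1) + Fr r (t + 1)) / 2) ^ 2

variable {Ω : Type} [mΩ : MeasurableSpace Ω] {P : Measure Ω} {X : List Bool → Ω → ℤ}

/-- sigma algebra of a set of cookies -/
def sg (X : List Bool → Ω → ℤ) (D : Set (List Bool)) : MeasurableSpace Ω :=
  ⨆ u ∈ D, MeasurableSpace.comap (X u) ⊤

omit mΩ in
theorem sg_mono {D D' : Set (List Bool)} (h : D ⊆ D') : sg X D ≤ sg X D' := biSup_mono h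

omit mΩ in
theorem meas_sg {D : Set (List Bool)} {u : List Bool} (hu : u ∈ D) : Measurable[sg X D] (X u) := by
  have h1 : MeasurableSpace.comap (X u) ⊤ ≤ sg X D :=
    le_iSup₂_of_le (f := fun i (_ : i ∈ D) => MeasurableSpace.comap (X i) ⊤) u hu le_rfl
  exact (comap_measurable (X u)).mono h1 le_rfl

theorem sg_le (h : IsCookies P X) (D : Set (List Bool)) : sg X D ≤ mΩ :=
  iSup₂_le fun i _ => (h.meas i).comap_le

theorem sg_indep (h : IsCookies P X) {D D' : Set (List Bool)} (hd : Disjoint D D') :
    Indep (sg X D) (sg X D') P :=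
  indep_iSup_of_disjoint (m := fun i => MeasurableSpace.comap (X i) ⊤) (μ := P)
    (fun i => (h.meas i).comap_le) h.indep.iIndep hd

/-- the strict descendants -/
def Ds (w : List Bool) : Set (List Bool) := {u | w <:+ u ∧ w.length < u.length}
/-- the descendants -/
def Dw (w : List Bool) : Set (List Bool) := {u | w <:+ u}

theorem Dw_sub (b : Bool) (w : List Bool) : Dw (b :: w) ⊆ Ds w := by
  intro u hu
  have hu' : (b :: w) <:+ u := hu
  refine ⟨(List.suffix_cons b w).trans hu', ?_⟩
  have := hu'.length_le
  simp only [List.length_cons] at this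
  omega

theorem Ds_sub (w : List Bool) : Ds w ⊆ Dw w := fun _ hu => hu.1

theorem Dw_disjoint (w : List Bool) : Disjoint (Dw (false :: w)) (Dw (true :: w)) := by
  rw [Set.disjoint_left]
  intro u h1 h2
  have h1' : (false :: w) <:+ u := h1
  have h2' : (true :: w) <:+ u := h2
  have h3 := List.suffix_of_suffix_length_le h1' h2' (by simp)
  have h4 := h3.eq_of_length (by simp)
  simp at h4

theorem single_disjoint (w : List Bool) : Disjoint ({w} : Set (List Bool)) (Ds w) := by
  rw [Set.disjoint_left]
  intro u h1 h2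
  rw [Set.mem_singleton_iff] at h1
  subst h1
  exact absurd h2.2 (lt_irrefl _)

omit mΩ in
theorem meas_val (r : ℕ) : ∀ w : List Bool, Measurable[sg X (Ds w)] (fun ω => val (fun v => X v ω) r w) := by
  induction r with
  | zero => intro w; simp only [val]; exact measurable_const
  | succ r ih =>
    intro w
    have hc : ∀ b : Bool, Measurable[sg X (Ds w)]
        (fun ω => X (b :: w) ω + val (fun v => X v ω) r (b :: w)) := by
      intro b
      have m1 : Measurable[sg X (Ds w)] (X (b :: w)) := meas_sg (Dw_sub b w (List.suffix_refl _))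
      have m2 : Measurable[sg X (Ds w)] (fun ω => val (fun v => X v ω) r (b :: w)) :=
        (ih (b :: w)).mono (sg_mono ((Ds_sub _).trans (Dw_sub b w))) le_rfl
      exact m1.add m2
    simp only [val]
    split_ifs
    · exact (hc false).max (hc true)
    · exact (hc false).min (hc true)

omit mΩ in
theorem meas_child (r : ℕ) (w : List Bool) :
    Measurable[sg X (Dw w)] (fun ω => X w ω + val (fun v => X v ω) r w) := by
  have m1 : Measurable[sg X (Dw w)] (X w) := meas_sg (List.suffix_refl _)
  have m2 : Measurable[sg X (Dw w)] (fun ω => val (fun v => X v ω) r w) :=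
    (meas_val r w).mono (sg_mono (Ds_sub w)) le_rfl
  exact m1.add m2

theorem real_inter_of_indep {m1 m2 : MeasurableSpace Ω} (hind : Indep m1 m2 P) {A B : Set Ω}
    (hA : MeasurableSet[m1] A) (hB : MeasurableSet[m2] B) : P.real (A ∩ B) = P.real A * P.real B := by
  have := (Indep_iff m1 m2 P).1 hind A B hA hB
  rw [measureReal_def, this, ENNReal.toReal_mul]
  rfl

theorem child_law [IsProbabilityMeasure P] (h : IsCookies P X) (r : ℕ) (w : List Bool) (F : ℤ → ℝ)
    (hF : ∀ t, P.real {ω | val (fun v => X v ω) r w ≤ t} = F t) (t : ℤ) :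
    P.real {ω | X w ω + val (fun v => X v ω) r w ≤ t} = (F (t - 1) + F (t + 1)) / 2 := by
  have hXs : ∀ c : ℤ, MeasurableSet[sg X {w}] {ω | X w ω = c} := fun c =>
    (meas_sg (Set.mem_singleton w)) (measurableSet_singleton c)
  have hVs : ∀ c : ℤ, MeasurableSet[sg X (Ds w)] {ω | val (fun v => X v ω) r w ≤ c} := fun c =>
    (meas_val r w) measurableSet_Iic
  have hind := sg_indep h (single_disjoint w)
  have hX : ∀ c : ℤ, MeasurableSet {ω | X w ω = c} := fun c => sg_le h _ _ (hXs c)
  have hV : ∀ c : ℤ, MeasurableSet {ω | val (fun v => X v ω) r w ≤ c} := fun c => sg_le h _ _ (hVs c)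
  -- the exceptional set is null
  have hnull : P ({ω | X w ω = 1} ∪ {ω | X w ω = -1})ᶜ = 0 := by
    have h1 : P.real ({ω | X w ω = 1} ∪ {ω | X w ω = -1}) = 1 := by
      rw [measureReal_union ?_ (hX _), h.plus, h.minus]
      · norm_num
      · rw [Set.disjoint_left]
        intro ω h1 h2
        have h1' : X w ω = 1 := h1
        have h2' : X w ω = -1 := h2
        omega
    have h2 := prob_compl_eq_zero_iff (μ := P) ((hX 1).union (hX (-1)))
    rw [h2]
    have h3 := h1
    rw [measureReal_def] at h3
    rw [← ENNReal.toReal_eq_one_iff]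
    exact h3
  have hae : {ω | X w ω + val (fun v => X v ω) r w ≤ t} =ᵐ[P]
      (({ω | X w ω = 1} ∩ {ω | val (fun v => X v ω) r w ≤ t - 1}) ∪
        ({ω | X w ω = -1} ∩ {ω | val (fun v => X v ω) r w ≤ t + 1}) : Set Ω) := by
    have h3 : ∀ᵐ ω ∂P, ω ∈ ({ω | X w ω = 1} ∪ {ω | X w ω = -1} : Set Ω) := by
      rw [ae_iff]
      exact hnull
    filter_upwards [h3] with ω hω
    apply propext
    show X w ω + val (fun v => X v ω) r w ≤ t ↔
      (X w ω = 1 ∧ val (fun v => X v ω) r w ≤ t - 1) ∨ (X w ω = -1 ∧ val (fun v => X v ω) r w ≤ t + 1)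
    have hω' : X w ω = 1 ∨ X w ω = -1 := hω
    omega
  rw [measureReal_congr hae, measureReal_union ?_ ((hX _).inter (hV _)),
    real_inter_of_indep hind (hXs _) (hVs _), real_inter_of_indep hind (hXs _) (hVs _), h.plus,
    h.minus, hF, hF]
  · ring
  · rw [Set.disjoint_left]
    rintro ω ⟨h1, _⟩ ⟨h2, _⟩
    have h1' : X w ω = 1 := h1
    have h2' : X w ω = -1 := h2
    omega

theorem val_law [IsProbabilityMeasure P] (h : IsCookies P X) (r : ℕ) :
    ∀ (w : List Bool) (t : ℤ), P.real {ω | val (fun v => X v ω) r w ≤ t} = Fr r t := by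
  induction r with
  | zero =>
    intro w t
    simp only [val, Fr]
    split_ifs with ht
    · have : {_ω : Ω | (0 : ℤ) ≤ t} = Set.univ := by
        ext ω; simp [ht]
      rw [this]; simp
    · have : {_ω : Ω | (0 : ℤ) ≤ t} = ∅ := by
        ext ω; simp [ht]
      rw [this]; simp
  | succ r ih =>
    intro w t
    have hc : ∀ b : Bool, P.real {ω | X (b :: w) ω + val (fun v => X v ω) r (b :: w) ≤ t}
        = (Fr r (t - 1) + Fr r (t + 1)) / 2 := fun b =>
      child_law h r (b :: w) (Fr r) (ih (b :: w)) t
    have hs : ∀ b : Bool, MeasurableSet[sg X (Dw (b :: w))]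
        {ω | X (b :: w) ω + val (fun v => X v ω) r (b :: w) ≤ t} := fun b =>
      (meas_child r (b :: w)) measurableSet_Iic
    have hs' : ∀ b : Bool, MeasurableSet {ω | X (b :: w) ω + val (fun v => X v ω) r (b :: w) ≤ t} :=
      fun b => sg_le h _ _ (hs b)
    have hind := sg_indep h (Dw_disjoint w)
    simp only [val, Fr]
    split_ifs with he
    · have e : {ω | max (X (false :: w) ω + val (fun v => X v ω) r (false :: w))
          (X (true :: w) ω + val (fun v => X v ω) r (true :: w)) ≤ t}
          = {ω | X (false :: w) ω + val (fun v => X v ω) r (false :: w) ≤ t} ∩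
            {ω | X (true :: w) ω + val (fun v => X v ω) r (true :: w) ≤ t} := by
        ext ω
        simp only [Set.mem_ofPred_eq, Set.mem_inter_iff]
        exact max_le_iff
      rw [e, real_inter_of_indep hind (hs false) (hs true), hc, hc]
      ring
    · have e : {ω | min (X (false :: w) ω + val (fun v => X v ω) r (false :: w))
          (X (true :: w) ω + val (fun v => X v ω) r (true :: w)) ≤ t}
          = ({ω | X (false :: w) ω + val (fun v => X v ω) r (false :: w) ≤ t}ᶜ ∩
            {ω | X (true :: w) ω + val (fun v => X v ω) r (true :: w) ≤ t}ᶜ)ᶜ := by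
        ext ω
        simp only [Set.mem_ofPred_eq, Set.mem_compl_iff, Set.mem_inter_iff]
        rw [min_le_iff]
        tauto
      rw [e, probReal_compl_eq_one_sub ((hs' false).compl.inter (hs' true).compl),
        real_inter_of_indep hind (hs false).compl (hs true).compl,
        probReal_compl_eq_one_sub (hs' false), probReal_compl_eq_one_sub (hs' true), hc, hc]
      ring

theorem Fr_even (n : ℕ) : ∀ t : ℤ, Fr (2 * n) t = xs n (t / 2) := by
  induction n with
  | zero =>
    intro t
    simp only [Fr, xs]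
    by_cases h : 0 ≤ t
    · rw [if_pos h, if_pos (by omega)]
    · rw [if_neg h, if_neg (by omega)]
  | succ n ih =>
    intro t
    have e1 : Even (2 * n + 1 + 1) := by rw [Nat.even_iff]; omega
    have e2 : ¬ Even (2 * n + 1) := by rw [Nat.even_iff]; omega
    show Fr (2 * n + 1 + 1) t = opB (opA (xs n)) (t / 2)
    simp only [Fr, if_pos e1, if_neg e2, ih]
    unfold opB opA
    have a1 : (t - 1 - 1) / 2 = t / 2 - 1 := by omega
    have a2 : (t - 1 + 1) / 2 = t / 2 := by omega
    have a3 : (t + 1 - 1) / 2 = t / 2 := by omega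
    have a4 : (t + 1 + 1) / 2 = t / 2 + 1 := by omega
    have a5 : t / 2 + 1 - 1 = t / 2 := by omega
    rw [a1, a2, a3, a4, a5]

/-- the point masses of the value -/
theorem mass [IsProbabilityMeasure P] (h : IsCookies P X) (n : ℕ) (i : ℤ) :
    P {ω | val (fun v => X v ω) (2 * n) [] = 2 * i} = ENNReal.ofReal (xs n i - xs n (i - 1)) := by
  have hm : Measurable (fun ω => val (fun v => X v ω) (2 * n) []) :=
    (meas_val (2 * n) []).mono (sg_le h _) le_rfl
  have h1 : P.real {ω | val (fun v => X v ω) (2 * n) [] = 2 * i} = xs n i - xs n (i - 1) := by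
    have e : {ω | val (fun v => X v ω) (2 * n) [] = 2 * i}
        = {ω | val (fun v => X v ω) (2 * n) [] ≤ 2 * i} \ {ω | val (fun v => X v ω) (2 * n) [] ≤ 2 * i - 1} := by
      ext ω
      simp only [Set.mem_ofPred_eq, Set.mem_sdiff]
      omega
    have hsub : {ω | val (fun v => X v ω) (2 * n) [] ≤ 2 * i - 1}
        ⊆ {ω | val (fun v => X v ω) (2 * n) [] ≤ 2 * i} := by
      intro ω hω
      have hω' : val (fun v => X v ω) (2 * n) [] ≤ 2 * i - 1 := hω
      show val (fun v => X v ω) (2 * n) [] ≤ 2 * i
      omega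
    have hmeas : MeasurableSet {ω | val (fun v => X v ω) (2 * n) [] ≤ 2 * i - 1} :=
      hm measurableSet_Iic
    rw [e, measureReal_sdiff hsub hmeas (measure_ne_top _ _), val_law h, val_law h, Fr_even, Fr_even]
    congr 2 <;> omega
  rw [← h1, measureReal_def, ENNReal.ofReal_toReal (measure_ne_top _ _)]

/-- the limit law -/
noncomputable def nu : Measure ℤ :=
  Measure.sum fun i : ℤ => ENNReal.ofReal (ff i - ff (i - 1)) • Measure.dirac (2 * i)

theorem diff_nonneg (i : ℤ) : 0 ≤ ff i - ff (i - 1) := by
  have := ff_mono (i - 1)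
  rw [sub_add_cancel] at this
  linarith

theorem hasSum_diff : HasSum (fun i : ℤ => ff i - ff (i - 1)) 1 := by
  have h1 : HasSum (fun n : ℕ => ff (n : ℤ) - ff ((n : ℤ) - 1)) (1 - ff (-1)) := by
    rw [hasSum_iff_tendsto_nat_of_nonneg (fun n => diff_nonneg _)]
    have e : ∀ n : ℕ, ∑ i ∈ Finset.range n, (ff (i : ℤ) - ff ((i : ℤ) - 1)) = ff ((n : ℤ) - 1) - ff (-1) := by
      intro n
      induction n with
      | zero => simp
      | succ n ih =>
        rw [Finset.sum_range_succ, ih]
        push_cast
        rw [add_sub_cancel_right]; ring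
    simp only [e]
    refine Tendsto.sub_const ?_ _
    have h2 := ff_top
    rw [← tendsto_add_atTop_iff_nat 1]
    refine h2.congr fun n => ?_
    push_cast
    rw [add_sub_cancel_right]
  have h2 : HasSum (fun n : ℕ => ff (-((n : ℤ) + 1)) - ff (-((n : ℤ) + 1) - 1)) (ff (-1)) := by
    rw [hasSum_iff_tendsto_nat_of_nonneg (fun n => diff_nonneg _)]
    have e : ∀ n : ℕ, ∑ i ∈ Finset.range n, (ff (-((i : ℤ) + 1)) - ff (-((i : ℤ) + 1) - 1))
        = ff (-1) - ff (-((n : ℤ) + 1)) := by
      intro n
      induction n with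
      | zero => simp
      | succ n ih =>
        rw [Finset.sum_range_succ, ih]
        push_cast
        have : -((n : ℤ) + 1) - 1 = -((n : ℤ) + 1 + 1) := by ring
        rw [this]; ring
    simp only [e]
    have h3 : Tendsto (fun n : ℕ => ff (-((n : ℤ) + 1))) atTop (𝓝 0) := by
      have := (tendsto_add_atTop_iff_nat 1).2 ff_bot
      refine this.congr fun n => ?_
      push_cast
      rfl
    simpa using h3.const_sub (ff (-1))
  have := HasSum.of_nat_of_neg_add_one (f := fun i : ℤ => ff i - ff (i - 1)) h1 h2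
  simpa using this

theorem nu_apply (G : Set ℤ) : nu G = ∑' i : ℤ, ENNReal.ofReal (ff i - ff (i - 1)) *
    (Measure.dirac (2 * i) : Measure ℤ) G := by
  unfold nu
  rw [Measure.sum_apply _ (MeasurableSet.of_discrete)]
  rfl

instance : IsProbabilityMeasure nu := ⟨by
  rw [nu_apply]
  simp only [measure_univ, mul_one]
  rw [← ENNReal.ofReal_tsum_of_nonneg diff_nonneg hasSum_diff.summable, hasSum_diff.tsum_eq]
  simp⟩

theorem main [IsProbabilityMeasure P] (h : IsCookies P X) :
    TendstoInDistribution (fun (n : ℕ) ω => val (fun v => X v ω) (2 * n) []) atTop (id : ℤ → ℤ)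
      (fun _ => P) nu := by
  have hm : ∀ n : ℕ, Measurable (fun ω => val (fun v => X v ω) (2 * n) []) := fun n =>
    (meas_val (2 * n) []).mono (sg_le h _) le_rfl
  refine ⟨fun n => (hm n).aemeasurable, aemeasurable_id, ?_⟩
  refine tendsto_of_forall_isOpen_le_liminf_nat' fun G _ => ?_
  show (nu.map id) G ≤ liminf (fun n => (P.map (fun ω => val (fun v => X v ω) (2 * n) [])) G) atTop
  rw [Measure.map_id, nu_apply, ENNReal.tsum_eq_iSup_sum]
  refine iSup_le fun s => ?_
  have h1 : Tendsto (fun n : ℕ => ∑ i ∈ s, ENNReal.ofReal (xs n i - xs n (i - 1)) *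
      (Measure.dirac (2 * i) : Measure ℤ) G) atTop
      (𝓝 (∑ i ∈ s, ENNReal.ofReal (ff i - ff (i - 1)) * (Measure.dirac (2 * i) : Measure ℤ) G)) := by
    refine tendsto_finsetSum _ fun i _ => ?_
    refine ENNReal.Tendsto.mul_const ?_ (Or.inr (measure_ne_top _ _))
    exact ENNReal.tendsto_ofReal ((xs_tendsto i).sub (xs_tendsto (i - 1)))
  rw [← h1.liminf_eq]
  refine liminf_le_liminf (Eventually.of_forall fun n => ?_)
  rw [Measure.map_apply (hm n) MeasurableSet.of_discrete]
  have h2 : ∑ i ∈ s, ENNReal.ofReal (xs n i - xs n (i - 1)) * (Measure.dirac (2 * i) : Measure ℤ) G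
      = ∑ i ∈ s, P ({ω | val (fun v => X v ω) (2 * n) [] = 2 * i} ∩
        (fun ω => val (fun v => X v ω) (2 * n) []) ⁻¹' G) := by
    refine Finset.sum_congr rfl fun i _ => ?_
    rw [Measure.dirac_apply' _ MeasurableSet.of_discrete]
    by_cases hi : 2 * i ∈ G
    · have e : {ω | val (fun v => X v ω) (2 * n) [] = 2 * i} ∩
          (fun ω => val (fun v => X v ω) (2 * n) []) ⁻¹' G = {ω | val (fun v => X v ω) (2 * n) [] = 2 * i} := by
        rw [Set.inter_eq_left]
        intro ω hω
        have hω' : val (fun v => X v ω) (2 * n) [] = 2 * i := hω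
        rw [Set.mem_preimage, hω']
        exact hi
      rw [e, mass h, Set.indicator_of_mem hi]
      simp
    · have e : {ω | val (fun v => X v ω) (2 * n) [] = 2 * i} ∩
          (fun ω => val (fun v => X v ω) (2 * n) []) ⁻¹' G = ∅ := by
        rw [Set.eq_empty_iff_forall_notMem]
        rintro ω ⟨h3, h4⟩
        have hω' : val (fun v => X v ω) (2 * n) [] = 2 * i := h3
        rw [Set.mem_preimage, hω'] at h4
        exact hi h4
      rw [e, Set.indicator_of_notMem hi]
      simp
  rw [h2, ← measure_biUnion_finset]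
  · refine measure_mono ?_
    intro ω hω
    simp only [Set.mem_iUnion] at hω
    obtain ⟨i, _, hω⟩ := hω
    exact hω.2
  · intro i _ j _ hij
    rw [Function.onFun, Set.disjoint_left]
    rintro ω ⟨h3, _⟩ ⟨h4, _⟩
    have h3' : val (fun v => X v ω) (2 * n) [] = 2 * i := h3
    have h4' : val (fun v => X v ω) (2 * n) [] = 2 * j := h4
    exact hij (by omega)
  · intro i _
    exact ((hm n) (measurableSet_singleton _)).inter ((hm n) MeasurableSet.of_discrete)

end Pool.Agent.V11327.MM
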