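import Mathlib

/-! The binary min-max recursion: convergence of the distribution functions. -/

set_option autoImplicit false

namespace Pool.Agent.V11327.MM

open Filter Topology

/-- the min step on the even lattice -/
noncomputable def opA (x : ℤ → ℝ) (i : ℤ) : ℝ := 1 - (1 - (x (i - 1) + x i) / 2) ^ 2

/-- the max step on the even lattice -/
noncomputable def opB (x : ℤ → ℝ) (i : ℤ) : ℝ := ((x i + x (i + 1)) / 2) ^ 2

/-- the distribution functions -/
noncomputable def xs : ℕ → ℤ → ℝ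
  | 0 => fun i => if 0 ≤ i then 1 else 0
  | n + 1 => opB (opA (xs n))

/-- values in `[0, 1]` -/
def In (x : ℤ → ℝ) : Prop := ∀ i, 0 ≤ x i ∧ x i ≤ 1

/-- `x (i + 1) ≥ h (x i)` -/
def Cond (x : ℤ → ℝ) : Prop := ∀ i, 2 * √(x i) ≤ x i + x (i + 1)

theorem opA_mem {x : ℤ → ℝ} (hx : In x) : In (opA x) := by
  intro i
  unfold opA
  obtain ⟨a, b⟩ := hx (i - 1)
  obtain ⟨c, d⟩ := hx i
  constructor
  · nlinarith
  · nlinarith [sq_nonneg (1 - (x (i - 1) + x i) / 2)]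

theorem opB_mem {x : ℤ → ℝ} (hx : In x) : In (opB x) := by
  intro i
  unfold opB
  obtain ⟨a, b⟩ := hx i
  obtain ⟨c, d⟩ := hx (i + 1)
  exact ⟨sq_nonneg _, by nlinarith⟩

theorem opA_mono {x y : ℤ → ℝ} (hy : In y) (hxy : ∀ i, x i ≤ y i) (i : ℤ) :
    opA x i ≤ opA y i := by
  unfold opA
  obtain ⟨a, b⟩ := hy (i - 1)
  obtain ⟨c, d⟩ := hy i
  have h1 := hxy (i - 1)
  have h2 := hxy i
  nlinarith

theorem opB_mono {x y : ℤ → ℝ} (hx : In x) (hxy : ∀ i, x i ≤ y i) (i : ℤ) :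
    opB x i ≤ opB y i := by
  unfold opB
  obtain ⟨a, b⟩ := hx i
  obtain ⟨c, d⟩ := hx (i + 1)
  have h1 := hxy i
  have h2 := hxy (i + 1)
  exact pow_le_pow_left₀ (by linarith) (by linarith) 2

theorem opA_le {x : ℤ → ℝ} (hx : In x) (hc : Cond x) (i : ℤ) : opA x i ≤ x i := by
  obtain ⟨a, b⟩ := hx (i - 1)
  obtain ⟨c, d⟩ := hx i
  have h1 := hc (i - 1)
  rw [sub_add_cancel] at h1
  set r := √(x (i - 1)) with hr
  have hr2 : r ^ 2 = x (i - 1) := Real.sq_sqrt a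
  have hr0 : 0 ≤ r := Real.sqrt_nonneg _
  set t := √(1 - x i) with ht
  have ht2 : t ^ 2 = 1 - x i := Real.sq_sqrt (by linarith)
  have ht0 : 0 ≤ t := Real.sqrt_nonneg _
  have hr1 : r ≤ 1 := Real.sqrt_le_one.2 b
  have htr : t ≤ 1 - r := by
    apply le_of_sq_le_sq _ (by linarith)
    nlinarith
  have h2 : (x (i - 1) + x i) / 2 ≤ 1 - t := by
    rw [← hr2]
    have : x i = 1 - t ^ 2 := by linarith
    rw [this]
    nlinarith
  unfold opA
  nlinarith

theorem sqrt_shape {p q : ℝ} (hp : 0 ≤ p) (hpq : p ≤ q) (hq : q ≤ 1) :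
    2 * √p - p ≤ 2 * √q - q := by
  have h1 : √p ≤ √q := Real.sqrt_le_sqrt hpq
  have h2 : √p ^ 2 = p := Real.sq_sqrt hp
  have h3 : √q ^ 2 = q := Real.sq_sqrt (hp.trans hpq)
  have h4 : √q ≤ 1 := Real.sqrt_le_one.2 hq
  have h5 : 0 ≤ √p := Real.sqrt_nonneg _
  nlinarith

theorem cond_A {x : ℤ → ℝ} (hx : In x) (hc : Cond x) : Cond (opA x) := by
  intro i
  obtain ⟨c, d⟩ := hx i
  obtain ⟨e, f⟩ := hx (i + 1)
  have h1 := opA_le hx hc i
  have h2 := sqrt_shape (opA_mem hx i).1 h1 d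
  have h3 : 2 * √(x i) - x i ≤ opA x (i + 1) := by
    have h4 := hc i
    have h5 : √(x i) ^ 2 = x i := Real.sq_sqrt c
    have h6 : √(x i) ≤ 1 := Real.sqrt_le_one.2 d
    have h7 : 0 ≤ √(x i) := Real.sqrt_nonneg _
    unfold opA
    rw [add_sub_cancel_right]
    nlinarith
  linarith

theorem cond_B {y : ℤ → ℝ} (hy : In y) (hc : Cond y) : Cond (opB y) := by
  have hz : ∀ i, y i ≤ opB y i := by
    intro i
    have h1 := hc i
    have h2 : √(y i) ^ 2 = y i := Real.sq_sqrt (hy i).1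
    have h3 : 0 ≤ √(y i) := Real.sqrt_nonneg _
    unfold opB
    nlinarith
  intro i
  obtain ⟨a, b⟩ := hy i
  obtain ⟨c, d⟩ := hy (i + 1)
  have h1 : √(opB y i) = (y i + y (i + 1)) / 2 := by
    unfold opB
    exact Real.sqrt_sq (by linarith)
  rw [h1]
  have h2 := hz i
  have h3 := hz (i + 1)
  linarith

theorem xs_mem (n : ℕ) : In (xs n) := by
  induction n with
  | zero => intro i; simp only [xs]; split_ifs <;> norm_num
  | succ n ih => exact opB_mem (opA_mem ih)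

theorem xs_cond (n : ℕ) : Cond (xs n) := by
  induction n with
  | zero =>
    intro i
    simp only [xs]
    by_cases h : 0 ≤ i
    · rw [if_pos h, if_pos (by omega)]; norm_num
    · rw [if_neg h]; simp; split_ifs <;> norm_num
  | succ n ih => exact cond_B (opA_mem (xs_mem n)) (cond_A (xs_mem n) ih)

theorem xs_sqrt_le (n : ℕ) (i : ℤ) : xs n i ≤ xs n (i + 1) ^ 2 := by
  have h1 := xs_cond n i
  obtain ⟨a, b⟩ := xs_mem n i
  have h2 : √(xs n i) ^ 2 = xs n i := Real.sq_sqrt a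
  have h3 : 0 ≤ √(xs n i) := Real.sqrt_nonneg _
  have h4 : √(xs n i) ≤ 1 := Real.sqrt_le_one.2 b
  have h5 : √(xs n i) ≤ xs n (i + 1) := by nlinarith
  nlinarith

theorem xs_transport (n : ℕ) (i : ℤ) : 9 / 64 * xs n (i + 1) ^ 2 ≤ xs (n + 1) i := by
  show _ ≤ opB (opA (xs n)) i
  have h1 := opA_mem (xs_mem n) i
  obtain ⟨a, b⟩ := xs_mem n i
  obtain ⟨c, d⟩ := xs_mem n (i + 1)
  have h2 : 3 / 4 * xs n (i + 1) ≤ opA (xs n) (i + 1) := by
    unfold opA
    rw [add_sub_cancel_right]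
    nlinarith
  unfold opB
  nlinarith

/-- iterating a square-transport inequality to the left -/
theorem iter_lower {z : ℕ → ℤ → ℝ} (hz : ∀ n i, 0 ≤ z n i)
    (h : ∀ n i, z n (i + 1) ^ 2 ≤ z (n + 1) i) (j : ℕ) : ∀ n i, z n i ^ (2 ^ j) ≤ z (n + j) (i - j) := by
  induction j with
  | zero => intro n i; simp
  | succ j ih =>
    intro n i
    have h1 := ih n i
    have h2 := h (n + j) (i - j - 1)
    rw [sub_add_cancel] at h2
    have e : i - ((j + 1 : ℕ) : ℤ) = i - j - 1 := by push_cast; ring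
    rw [e, pow_succ, pow_mul]
    calc (z n i ^ 2 ^ j) ^ 2 ≤ z (n + j) (i - j) ^ 2 := pow_le_pow_left₀ (by have := hz n i; positivity) h1 2
      _ ≤ _ := h2

theorem iter_upper {w : ℤ → ℝ} (hw : ∀ i, 0 ≤ w i) (h : ∀ i, w i ≤ w (i + 1) ^ 2) (j : ℕ) :
    ∀ i, w (i - j) ≤ w i ^ (2 ^ j) := by
  induction j with
  | zero => intro i; simp
  | succ j ih =>
    intro i
    have h1 := ih i
    have h2 := h (i - j - 1)
    rw [sub_add_cancel] at h2
    have e : i - ((j + 1 : ℕ) : ℤ) = i - j - 1 := by push_cast; ring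
    rw [e, pow_succ, pow_mul]
    exact h2.trans (pow_le_pow_left₀ (hw _) h1 2)

theorem xs_persist (n j : ℕ) (i : ℤ) : 9 / 64 * xs n i ≤ xs (n + j) i := by
  have h1 := iter_lower (z := fun n i => 9 / 64 * xs n i) (fun n i => by
      have := (xs_mem n i).1; positivity) (fun n i => by
      have := xs_transport n i
      have h0 := (xs_mem n (i + 1)).1
      nlinarith) j n i
  have h2 := iter_upper (w := xs (n + j)) (fun i => (xs_mem _ i).1) (xs_sqrt_le _) j i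
  have h3 : (9 / 64 * xs n i) ^ (2 ^ j) ≤ xs (n + j) i ^ (2 ^ j) := by
    refine h1.trans (le_trans ?_ h2)
    have := (xs_mem (n + j) (i - j)).1
    linarith
  exact le_of_pow_le_pow_left₀ (by positivity) (xs_mem _ _).1 h3

theorem xs_pos (n : ℕ) : ∀ i : ℤ, -(n : ℤ) ≤ i → 0 < xs n i := by
  induction n with
  | zero => intro i hi; simp only [xs]; rw [if_pos (by simpa using hi)]; norm_num
  | succ n ih =>
    intro i hi
    have h1 := ih (i + 1) (by push_cast at hi; omega)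
    have h2 := xs_transport n i
    have : 0 < 9 / 64 * xs n (i + 1) ^ 2 := by positivity
    linarith

/-! ### the upper tail by symmetry -/

/-- the reflection `x ↦ 1 - x (- i - 1)` -/
noncomputable def refl (x : ℤ → ℝ) (i : ℤ) : ℝ := 1 - x (-i - 1)

theorem refl_mem {x : ℤ → ℝ} (hx : In x) : In (refl x) := fun i => by
  unfold refl; obtain ⟨a, b⟩ := hx (-i - 1); constructor <;> linarith

theorem refl_A (x : ℤ → ℝ) : refl (opA x) = opB (refl x) := by
  funext i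
  unfold refl opA opB
  have e : -(i + 1) - 1 = -i - 1 - 1 := by ring
  simp only [e]; ring

theorem refl_B (x : ℤ → ℝ) : refl (opB x) = opA (refl x) := by
  funext i
  unfold refl opA opB
  have e : -(i - 1) - 1 = -i - 1 + 1 := by ring
  simp only [e]; ring

theorem refl_zero : refl (xs 0) = xs 0 := by
  funext i
  unfold refl
  simp only [xs]
  by_cases h : 0 ≤ i
  · rw [if_pos h, if_neg (by omega)]; norm_num
  · rw [if_neg h, if_pos (by omega)]; norm_num

theorem le_opB_refl (n : ℕ) : ∀ i, xs n i ≤ opB (refl (xs n)) i := by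
  induction n with
  | zero =>
    rw [refl_zero]
    intro i
    unfold opB
    simp only [xs]
    by_cases h : 0 ≤ i
    · rw [if_pos h, if_pos (by omega)]; norm_num
    · rw [if_neg h]; positivity
  | succ n ih =>
    intro i
    have e : refl (xs (n + 1)) = opA (opB (refl (xs n))) := by
      show refl (opB (opA (xs n))) = _
      rw [refl_B, refl_A]
    rw [e]
    have hm := opB_mem (refl_mem (xs_mem n))
    exact opB_mono (opA_mem (xs_mem n)) (opA_mono hm ih) i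

theorem xs_upper (n : ℕ) (i : ℤ) : xs (n + 1) (-i - 1) ≤ 1 - 3 / 4 * xs n i := by
  have h1 : opA (xs n) i ≤ refl (xs (n + 1)) i := by
    have e : refl (xs (n + 1)) = opA (opB (refl (xs n))) := by
      show refl (opB (opA (xs n))) = _
      rw [refl_B, refl_A]
    rw [e]
    exact opA_mono (opB_mem (refl_mem (xs_mem n))) (le_opB_refl n) i
  have h2 : 3 / 4 * xs n i ≤ opA (xs n) i := by
    obtain ⟨a, b⟩ := xs_mem n (i - 1)
    obtain ⟨c, d⟩ := xs_mem n i
    unfold opA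
    nlinarith
  unfold refl at h1
  linarith

/-! ### lower and upper limits -/

/-- lower limits -/
noncomputable def Lo (i : ℤ) : ℝ := liminf (fun n => xs n i) atTop
/-- upper limits -/
noncomputable def Hi (i : ℤ) : ℝ := limsup (fun n => xs n i) atTop

theorem bdd_above (i : ℤ) : IsBoundedUnder (· ≤ ·) atTop (fun n => xs n i) :=
  ⟨1, by simp only [eventually_map]; exact Eventually.of_forall fun n => (xs_mem n i).2⟩
theorem bdd_below (i : ℤ) : IsBoundedUnder (· ≥ ·) atTop (fun n => xs n i) :=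
  ⟨0, by simp only [eventually_map]; exact Eventually.of_forall fun n => (xs_mem n i).1⟩

theorem Lo_ge {i : ℤ} {c : ℝ} (h : ∀ᶠ n in atTop, c ≤ xs n i) : c ≤ Lo i :=
  le_liminf_of_le (bdd_above i).isCoboundedUnder_ge h
theorem Hi_le {i : ℤ} {c : ℝ} (h : ∀ᶠ n in atTop, xs n i ≤ c) : Hi i ≤ c :=
  limsup_le_of_le (bdd_below i).isCoboundedUnder_le h
theorem ev_Lo {i : ℤ} {c : ℝ} (h : c < Lo i) : ∀ᶠ n in atTop, c < xs n i :=
  eventually_lt_of_lt_liminf h (bdd_below i)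
theorem ev_Hi {i : ℤ} {c : ℝ} (h : Hi i < c) : ∀ᶠ n in atTop, xs n i < c :=
  eventually_lt_of_limsup_lt h (bdd_above i)
theorem fr_Hi {i : ℤ} {c : ℝ} (h : c < Hi i) : ∃ᶠ n in atTop, c < xs n i :=
  frequently_lt_of_lt_limsup (bdd_below i).isCoboundedUnder_le h
theorem Hi_ge {i : ℤ} {c : ℝ} (h : ∃ᶠ n in atTop, c ≤ xs n i) : c ≤ Hi i :=
  le_limsup_of_frequently_le h (bdd_above i)

theorem Lo_nonneg (i : ℤ) : 0 ≤ Lo i := Lo_ge (Eventually.of_forall fun n => (xs_mem n i).1)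
theorem Hi_le_one (i : ℤ) : Hi i ≤ 1 := Hi_le (Eventually.of_forall fun n => (xs_mem n i).2)
theorem Lo_le_Hi (i : ℤ) : Lo i ≤ Hi i := liminf_le_limsup (bdd_above i) (bdd_below i)

theorem Hi_le_Lo (i : ℤ) : 9 / 64 * Hi i ≤ Lo i := by
  by_contra hcon
  push Not at hcon
  have h1 : 64 / 9 * Lo i < Hi i := by linarith
  obtain ⟨n, hn⟩ := (fr_Hi h1).exists
  obtain ⟨c, hc1, hc2⟩ := _root_.exists_between hn
  have h2 : 9 / 64 * c ≤ Lo i := by
    refine Lo_ge ?_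
    filter_upwards [eventually_ge_atTop n] with m hm
    obtain ⟨j, rfl⟩ := Nat.exists_eq_add_of_le hm
    have := xs_persist n j i
    linarith
  linarith

theorem Lo_pos (i : ℤ) : 0 < Lo i := by
  have h1 : 0 < xs i.natAbs i := xs_pos _ i (by omega)
  have h2 : 9 / 64 * xs i.natAbs i ≤ Lo i := by
    refine Lo_ge ?_
    filter_upwards [eventually_ge_atTop i.natAbs] with m hm
    obtain ⟨j, rfl⟩ := Nat.exists_eq_add_of_le hm
    exact xs_persist _ j i
  linarith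

theorem Hi_lt_one (i : ℤ) : Hi i < 1 := by
  have h0 := Lo_pos (-i - 1)
  have h1 : Hi i ≤ 1 - 3 / 4 * (Lo (-i - 1) / 2) := by
    refine Hi_le ?_
    have h2 := ev_Lo (i := -i - 1) (c := Lo (-i - 1) / 2) (by linarith)
    obtain ⟨N, hN⟩ := eventually_atTop.1 h2
    filter_upwards [eventually_ge_atTop (N + 1)] with m hm
    obtain ⟨n, rfl⟩ : ∃ n, m = n + 1 := ⟨m - 1, by omega⟩
    have h3 := xs_upper n (-i - 1)
    have e : -(-i - 1) - 1 = i := by ring
    rw [e] at h3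
    have h4 := hN n (by omega)
    linarith
  linarith

/-- a continuity lemma -/
theorem le_of_left {g : ℝ → ℝ} {a b : ℝ} (hg : Continuous g) (h : ∀ᶠ c in 𝓝[<] a, g c ≤ b) : g a ≤ b :=
  le_of_tendsto ((hg.tendsto a).mono_left nhdsWithin_le_nhds) h

/-- the map `h p = 2 √p - p` -/
noncomputable def hh (p : ℝ) : ℝ := 2 * √p - p

theorem hh_cont : Continuous hh := by unfold hh; fun_prop

theorem hh_mem {p : ℝ} (h0 : 0 ≤ p) (h1 : p ≤ 1) : 0 ≤ hh p ∧ hh p ≤ 1 := by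
  have h2 : √p ^ 2 = p := Real.sq_sqrt h0
  have h3 : 0 ≤ √p := Real.sqrt_nonneg _
  have h4 : √p ≤ 1 := Real.sqrt_le_one.2 h1
  unfold hh
  constructor <;> nlinarith [sq_nonneg (1 - √p)]

theorem sqrt_le_hh {p : ℝ} (h0 : 0 ≤ p) (h1 : p ≤ 1) : √p ≤ hh p := by
  have h2 : √p ^ 2 = p := Real.sq_sqrt h0
  have h3 : 0 ≤ √p := Real.sqrt_nonneg _
  have h4 : √p ≤ 1 := Real.sqrt_le_one.2 h1
  unfold hh
  nlinarith

theorem le_hh_sq {p : ℝ} (h0 : 0 ≤ p) (h1 : p ≤ 1) : p ≤ hh p ^ 2 := by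
  have h2 : √p ^ 2 = p := Real.sq_sqrt h0
  have h3 : 0 ≤ √p := Real.sqrt_nonneg _
  have := sqrt_le_hh h0 h1
  nlinarith

theorem hh_mono {p q : ℝ} (h0 : 0 ≤ p) (hpq : p ≤ q) (h1 : q ≤ 1) : hh p ≤ hh q :=
  sqrt_shape h0 hpq h1

theorem Lo_cond (i : ℤ) : hh (Lo i) ≤ Lo (i + 1) := by
  have h0 := Lo_pos i
  refine le_of_left hh_cont ?_
  have h1 : ∀ᶠ c in 𝓝[<] (Lo i), 0 < c := nhdsWithin_le_nhds (lt_mem_nhds h0)
  filter_upwards [h1, self_mem_nhdsWithin] with c hc0 hc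
  refine Lo_ge ?_
  filter_upwards [ev_Lo hc] with n hn
  have h2 := xs_cond n i
  have h3 := hh_mono hc0.le hn.le (xs_mem n i).2
  unfold hh at h3 ⊢
  linarith

theorem Lo_transport (i : ℤ) : 9 / 64 * Lo (i + 1) ^ 2 ≤ Lo i := by
  have h0 := Lo_pos (i + 1)
  refine le_of_left (g := fun c => 9 / 64 * c ^ 2) (by fun_prop) ?_
  have h1 : ∀ᶠ c in 𝓝[<] (Lo (i + 1)), 0 < c := nhdsWithin_le_nhds (lt_mem_nhds h0)
  filter_upwards [h1, self_mem_nhdsWithin] with c hc0 hc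
  refine Lo_ge ?_
  obtain ⟨N, hN⟩ := eventually_atTop.1 (ev_Lo hc)
  filter_upwards [eventually_ge_atTop (N + 1)] with m hm
  obtain ⟨n, rfl⟩ : ∃ n, m = n + 1 := ⟨m - 1, by omega⟩
  have h3 := xs_transport n i
  have h4 := hN n (by omega)
  nlinarith

theorem hhit_mem (j : ℕ) {p : ℝ} (h0 : 0 ≤ p) (h1 : p ≤ 1) : 0 ≤ hh^[j] p ∧ hh^[j] p ≤ 1 := by
  induction j with
  | zero => exact ⟨h0, h1⟩
  | succ j ih => rw [Function.iterate_succ_apply']; exact hh_mem ih.1 ih.2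

theorem hhit_mono (j : ℕ) {p q : ℝ} (h0 : 0 ≤ p) (hpq : p ≤ q) (h1 : q ≤ 1) : hh^[j] p ≤ hh^[j] q := by
  induction j with
  | zero => exact hpq
  | succ j ih =>
    rw [Function.iterate_succ_apply', Function.iterate_succ_apply']
    exact hh_mono (hhit_mem j h0 (hpq.trans h1)).1 ih (hhit_mem j (h0.trans hpq) h1).2

theorem hhit_pow (j : ℕ) {p : ℝ} (h0 : 0 ≤ p) (h1 : p ≤ 1) : p ≤ hh^[j] p ^ (2 ^ j) := by
  induction j with
  | zero => simp
  | succ j ih =>
    rw [Function.iterate_succ_apply', pow_succ, mul_comm, pow_mul]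
    obtain ⟨a, b⟩ := hhit_mem j h0 h1
    exact ih.trans (pow_le_pow_left₀ a (le_hh_sq a b) _)

/-- the approximants of the limit -/
noncomputable def uu (i : ℤ) (j : ℕ) : ℝ := hh^[j] (Lo (i - j))

theorem uu_anti (i : ℤ) : Antitone (uu i) := by
  refine antitone_nat_of_succ_le fun j => ?_
  unfold uu
  rw [Function.iterate_succ_apply]
  have h1 := Lo_cond (i - j - 1)
  rw [sub_add_cancel] at h1
  have e : i - ((j + 1 : ℕ) : ℤ) = i - j - 1 := by push_cast; ring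
  rw [e]
  have hb : Lo (i - j) ≤ 1 := (Lo_le_Hi _).trans (Hi_le_one _)
  have hb' : Lo (i - j - 1) ≤ 1 := (Lo_le_Hi _).trans (Hi_le_one _)
  exact hhit_mono j (hh_mem (Lo_nonneg _) hb').1 h1 hb

theorem uu_lower (i : ℤ) (j : ℕ) : 9 / 64 * Lo i ≤ uu i j := by
  have hb : ∀ i, Lo i ≤ 1 := fun i => (Lo_le_Hi _).trans (Hi_le_one _)
  have h1 := iter_lower (z := fun _ i => 9 / 64 * Lo i) (fun _ i => by
      have := Lo_nonneg i; positivity) (fun _ i => by
      have := Lo_transport i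
      nlinarith) j 0 i
  have h2 := hhit_pow j (Lo_nonneg (i - j)) (hb _)
  have h3 : (9 / 64 * Lo i) ^ (2 ^ j) ≤ (hh^[j] (Lo (i - j))) ^ (2 ^ j) := by
    refine h1.trans (le_trans ?_ h2)
    have := Lo_nonneg (i - j)
    linarith
  exact le_of_pow_le_pow_left₀ (by positivity) (hhit_mem j (Lo_nonneg _) (hb _)).1 h3

/-- the limit -/
noncomputable def ff (i : ℤ) : ℝ := ⨅ j, uu i j

theorem ff_tendsto (i : ℤ) : Tendsto (uu i) atTop (𝓝 (ff i)) :=
  tendsto_atTop_ciInf (uu_anti i) ⟨9 / 64 * Lo i, by rintro _ ⟨j, rfl⟩; exact uu_lower i j⟩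

theorem ff_lower (i : ℤ) : 9 / 64 * Lo i ≤ ff i :=
  ge_of_tendsto (ff_tendsto i) (Eventually.of_forall (uu_lower i))

theorem ff_le_Lo (i : ℤ) : ff i ≤ Lo i := by
  have h1 := (uu_anti i).le_of_tendsto (ff_tendsto i) 0
  simpa [uu] using h1

theorem ff_pos (i : ℤ) : 0 < ff i := by have := Lo_pos i; have := ff_lower i; linarith

theorem ff_lt_one (i : ℤ) : ff i < 1 := (ff_le_Lo i).trans_lt ((Lo_le_Hi i).trans_lt (Hi_lt_one i))

theorem ff_succ (i : ℤ) : ff (i + 1) = hh (ff i) := by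
  have h1 := (hh_cont.tendsto (ff i)).comp (ff_tendsto i)
  have h2 := (ff_tendsto (i + 1)).comp (tendsto_add_atTop_nat 1)
  refine tendsto_nhds_unique h2 (h1.congr fun j => ?_)
  simp only [Function.comp_apply, uu]
  rw [← Function.iterate_succ_apply' hh j]
  congr 2
  push_cast; ring

theorem ff_fix_A (i : ℤ) : 1 - (1 - (ff i + ff (i + 1)) / 2) ^ 2 = ff (i + 1) := by
  have h1 := ff_succ i
  unfold hh at h1
  have h2 : √(ff i) ^ 2 = ff i := Real.sq_sqrt (ff_pos i).le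
  have h3 : (ff i + ff (i + 1)) / 2 = √(ff i) := by linarith
  rw [h3]
  nlinarith

theorem ff_fix_B (i : ℤ) : (ff i + ff (i + 1)) / 2 = √(ff i) := by
  have h1 := ff_succ i
  unfold hh at h1
  linarith

/-- the two-step map at one site -/
noncomputable def GG (a b c : ℝ) : ℝ :=
  (((1 - (1 - (a + b) / 2) ^ 2) + (1 - (1 - (b + c) / 2) ^ 2)) / 2) ^ 2

theorem xs_GG (n : ℕ) (i : ℤ) : xs (n + 1) i = GG (xs n (i - 1)) (xs n i) (xs n (i + 1)) := by
  show opB (opA (xs n)) i = _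
  unfold opB opA GG
  rw [add_sub_cancel_right]

theorem GG_mono {a b c a' b' c' : ℝ} (ha : 0 ≤ a) (hb : 0 ≤ b) (hc : 0 ≤ c) (haa : a ≤ a')
    (hbb : b ≤ b') (hcc : c ≤ c') (ha' : a' ≤ 1) (hb' : b' ≤ 1) (hc' : c' ≤ 1) :
    GG a b c ≤ GG a' b' c' := by
  unfold GG
  have h1 : 0 ≤ 1 - (1 - (a + b) / 2) ^ 2 := by nlinarith
  have h2 : 0 ≤ 1 - (1 - (b + c) / 2) ^ 2 := by nlinarith
  have h3 : 1 - (1 - (a + b) / 2) ^ 2 ≤ 1 - (1 - (a' + b') / 2) ^ 2 := by nlinarith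
  have h4 : 1 - (1 - (b + c) / 2) ^ 2 ≤ 1 - (1 - (b' + c') / 2) ^ 2 := by nlinarith
  exact pow_le_pow_left₀ (by linarith) (by linarith) 2

theorem Hi_GG (i : ℤ) : GG (ff (i - 1)) (ff i) (Hi (i + 1)) ≤ Hi i := by
  have hcont : Continuous fun e : ℝ => GG (ff (i - 1) + e) (ff i + e) (Hi (i + 1) + e) := by
    unfold GG; fun_prop
  have h0 : GG (ff (i - 1) + 0) (ff i + 0) (Hi (i + 1) + 0) ≤ Hi i := by
    refine le_of_left (g := fun e : ℝ => GG (ff (i - 1) + e) (ff i + e) (Hi (i + 1) + e)) (a := 0) hcont ?_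
    have p1 : ∀ᶠ e : ℝ in 𝓝[<] 0, 0 < ff (i - 1) + e := by
      refine nhdsWithin_le_nhds ?_
      have : Tendsto (fun e : ℝ => ff (i - 1) + e) (𝓝 0) (𝓝 (ff (i - 1) + 0)) := by
        exact (continuous_const.add continuous_id).tendsto 0
      exact this.eventually (lt_mem_nhds (by rw [add_zero]; exact ff_pos _))
    have p2 : ∀ᶠ e : ℝ in 𝓝[<] 0, 0 < ff i + e := by
      refine nhdsWithin_le_nhds ?_
      have : Tendsto (fun e : ℝ => ff i + e) (𝓝 0) (𝓝 (ff i + 0)) := by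
        exact (continuous_const.add continuous_id).tendsto 0
      exact this.eventually (lt_mem_nhds (by rw [add_zero]; exact ff_pos _))
    have p3 : ∀ᶠ e : ℝ in 𝓝[<] 0, 0 < Hi (i + 1) + e := by
      refine nhdsWithin_le_nhds ?_
      have : Tendsto (fun e : ℝ => Hi (i + 1) + e) (𝓝 0) (𝓝 (Hi (i + 1) + 0)) := by
        exact (continuous_const.add continuous_id).tendsto 0
      exact this.eventually (lt_mem_nhds (by
        rw [add_zero]; exact lt_of_lt_of_le (Lo_pos _) (Lo_le_Hi _)))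
    filter_upwards [p1, p2, p3, self_mem_nhdsWithin] with e h1 h2 h3 he
    have he' : e < 0 := he
    have e1 := ev_Lo (i := i - 1) (c := ff (i - 1) + e) (by have := ff_le_Lo (i - 1); linarith)
    have e2 := ev_Lo (i := i) (c := ff i + e) (by have := ff_le_Lo i; linarith)
    have e3 := fr_Hi (i := i + 1) (c := Hi (i + 1) + e) (by linarith)
    have h4 : ∃ᶠ n in atTop, GG (ff (i - 1) + e) (ff i + e) (Hi (i + 1) + e) ≤ xs (n + 1) i := by
      refine (e3.and_eventually (e1.and e2)).mono ?_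
      rintro n ⟨g3, g1, g2⟩
      rw [xs_GG]
      exact GG_mono h1.le h2.le h3.le g1.le g2.le g3.le (xs_mem _ _).2 (xs_mem _ _).2 (xs_mem _ _).2
    refine Hi_ge ?_
    rw [frequently_atTop] at h4 ⊢
    intro N
    obtain ⟨n, hn, hn'⟩ := h4 N
    exact ⟨n + 1, by omega, hn'⟩
  simpa using h0

/-- the excess grows to the left -/
theorem excess (i : ℤ) : (Hi (i + 1) / ff (i + 1) - 1) * ((2 - √(ff i)) * (1 - Hi (i + 1)))
    ≤ Hi i / ff i - 1 := by
  have h1 := Hi_GG i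
  have hf := ff_pos i
  have hf1 := ff_pos (i + 1)
  have hX : ff (i + 1) ≤ Hi (i + 1) := (ff_le_Lo _).trans (Lo_le_Hi _)
  have hX1 := Hi_lt_one (i + 1)
  set X := Hi (i + 1) with hXd
  have hfi : ff i ≤ X := by
    have h2 : ff i ≤ ff (i + 1) := by
      rw [ff_succ]
      have h3 := sqrt_le_hh hf.le (ff_lt_one i).le
      have h4 : √(ff i) ^ 2 = ff i := Real.sq_sqrt hf.le
      have h5 : √(ff i) ≤ 1 := Real.sqrt_le_one.2 (ff_lt_one i).le
      have h6 : 0 ≤ √(ff i) := Real.sqrt_nonneg _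
      nlinarith
    exact h2.trans hX
  have hA1 : 1 - (1 - (ff (i - 1) + ff i) / 2) ^ 2 = ff i := by
    have := ff_fix_A (i - 1)
    rwa [sub_add_cancel] at this
  have hA2 : ff (i + 1) + (X - ff (i + 1)) * (1 - X) ≤ 1 - (1 - (ff i + X) / 2) ^ 2 := by
    have h3 := ff_fix_A i
    have h4 : (1 - (ff i + ff (i + 1)) / 2) ^ 2 - (1 - (ff i + X) / 2) ^ 2
        = (X - ff (i + 1)) / 2 * (2 - ff i - (ff (i + 1) + X) / 2) := by ring
    have h5 : (X - ff (i + 1)) / 2 * (2 - 2 * X) ≤ (X - ff (i + 1)) / 2 * (2 - ff i - (ff (i + 1) + X) / 2) :=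
      mul_le_mul_of_nonneg_left (by linarith) (by linarith)
    linarith
  set s := √(ff i) with hs
  have hs2 : s ^ 2 = ff i := Real.sq_sqrt hf.le
  have hs0 : 0 < s := Real.sqrt_pos.2 hf
  have hB := ff_fix_B i
  have h2 : ff i + s * ((X - ff (i + 1)) * (1 - X)) ≤ Hi i := by
    refine le_trans ?_ h1
    unfold GG
    rw [hA1]
    have h3 : 0 ≤ (X - ff (i + 1)) * (1 - X) := mul_nonneg (by linarith) (by linarith)
    have h4 : s + (X - ff (i + 1)) * (1 - X) / 2 ≤ (ff i + (1 - (1 - (ff i + X) / 2) ^ 2)) / 2 := by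
      linarith
    have h5 : (s + (X - ff (i + 1)) * (1 - X) / 2) ^ 2 ≤ ((ff i + (1 - (1 - (ff i + X) / 2) ^ 2)) / 2) ^ 2 :=
      pow_le_pow_left₀ (by linarith) h4 2
    refine le_trans ?_ h5
    nlinarith [sq_nonneg ((X - ff (i + 1)) * (1 - X) / 2)]
  have hfs : ff (i + 1) = s * (2 - s) := by
    have := ff_succ i
    unfold hh at this
    rw [this, ← hs, ← hs2]; ring
  have e1 : (X / ff (i + 1) - 1) * ((2 - s) * (1 - X)) = (X - ff (i + 1)) * (1 - X) / s := by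
    have h2s : 2 - s ≠ 0 := by
      intro h0
      rw [hfs, h0] at hf1
      simp at hf1
    have hXf : X / ff (i + 1) - 1 = (X - ff (i + 1)) / ff (i + 1) := by
      field_simp
    rw [hXf]
    nth_rewrite 2 [hfs]
    field_simp
  have e2 : Hi i / ff i - 1 = (Hi i - ff i) / ff i := by field_simp
  rw [e1, e2, div_le_div_iff₀ hs0 hf]
  calc (X - ff (i + 1)) * (1 - X) * ff i = s * ((X - ff (i + 1)) * (1 - X)) * s := by rw [← hs2]; ring
    _ ≤ (Hi i - ff i) * s := mul_le_mul_of_nonneg_right (by linarith) hs0.le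

theorem Hi_sq (i : ℤ) : Hi i ≤ Hi (i + 1) ^ 2 := by
  have h0 : 0 ≤ Hi (i + 1) := (Lo_nonneg _).trans (Lo_le_Hi _)
  have hcont : Continuous fun e : ℝ => -(Hi (i + 1) - e) ^ 2 := by fun_prop
  have key : -(Hi (i + 1) - 0) ^ 2 ≤ - Hi i := by
    refine le_of_left (g := fun e : ℝ => -(Hi (i + 1) - e) ^ 2) (a := 0) hcont ?_
    filter_upwards [self_mem_nhdsWithin] with e he
    have he' : e < 0 := he
    rw [neg_le_neg_iff]
    refine Hi_le ?_
    filter_upwards [ev_Hi (i := i + 1) (c := Hi (i + 1) - e) (by linarith)] with n hn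
    have h1 := xs_sqrt_le n i
    have h2 := (xs_mem n (i + 1)).1
    nlinarith
  simpa using key

theorem Hi_tendsto_bot : Tendsto (fun k : ℕ => Hi (-(k : ℤ))) atTop (𝓝 0) := by
  have h1 : ∀ k : ℕ, Hi (-(k : ℤ)) ≤ Hi 0 ^ (2 ^ k) := by
    intro k
    have := iter_upper (w := Hi) (fun i => (Lo_nonneg _).trans (Lo_le_Hi _)) Hi_sq k 0
    simpa using this
  have h2 : Tendsto (fun k : ℕ => Hi 0 ^ (2 ^ k)) atTop (𝓝 0) :=
    (tendsto_pow_atTop_nhds_zero_of_lt_one ((Lo_nonneg _).trans (Lo_le_Hi _)) (Hi_lt_one 0)).comp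
      (tendsto_pow_atTop_atTop_of_one_lt (by norm_num))
  exact squeeze_zero (fun k => (Lo_nonneg _).trans (Lo_le_Hi _)) h1 h2

theorem excess_zero_left : ∃ K : ℕ, ∀ k : ℕ, K ≤ k → Hi (-(k : ℤ)) = ff (-(k : ℤ)) := by
  have h1 : ∀ᶠ k : ℕ in atTop, Hi (-(k : ℤ)) < 1 / 16 :=
    Hi_tendsto_bot.eventually (gt_mem_nhds (by norm_num))
  obtain ⟨K, hK⟩ := eventually_atTop.1 h1
  refine ⟨K, fun k hk => ?_⟩
  have hnn : ∀ i, 0 ≤ Hi i / ff i - 1 := fun i => by
    rw [sub_nonneg, one_le_div (ff_pos i)]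
    exact (ff_le_Lo _).trans (Lo_le_Hi _)
  have hgrow : ∀ k : ℕ, K ≤ k → 3 / 2 * (Hi (-(k : ℤ)) / ff (-(k : ℤ)) - 1)
      ≤ Hi (-((k + 1 : ℕ) : ℤ)) / ff (-((k + 1 : ℕ) : ℤ)) - 1 := by
    intro k hk
    have h2 := excess (-((k + 1 : ℕ) : ℤ))
    have e : -((k + 1 : ℕ) : ℤ) + 1 = -(k : ℤ) := by push_cast; ring
    rw [e] at h2
    refine le_trans ?_ h2
    have h3 := hK k hk
    have h4 := hK (k + 1) (by omega)
    have h5 : ff (-((k + 1 : ℕ) : ℤ)) < 1 / 16 := lt_of_le_of_lt ((ff_le_Lo _).trans (Lo_le_Hi _)) h4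
    have h6 : √(ff (-((k + 1 : ℕ) : ℤ))) ≤ 1 / 4 := by
      rw [Real.sqrt_le_left (by norm_num)]
      linarith
    have h7 : 3 / 2 ≤ (2 - √(ff (-((k + 1 : ℕ) : ℤ)))) * (1 - Hi (-(k : ℤ))) := by nlinarith
    have h8 := hnn (-(k : ℤ))
    rw [mul_comm]
    exact mul_le_mul_of_nonneg_left h7 h8
  by_contra hne
  have hpos : 0 < Hi (-(k : ℤ)) / ff (-(k : ℤ)) - 1 := by
    refine lt_of_le_of_ne (hnn _) fun h0 => hne ?_
    have h2 : Hi (-(k : ℤ)) / ff (-(k : ℤ)) = 1 := by linarith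
    exact (div_eq_one_iff_eq (ff_pos _).ne').1 h2
  have hiter : ∀ j : ℕ, (3 / 2) ^ j * (Hi (-(k : ℤ)) / ff (-(k : ℤ)) - 1)
      ≤ Hi (-((k + j : ℕ) : ℤ)) / ff (-((k + j : ℕ) : ℤ)) - 1 := by
    intro j
    induction j with
    | zero => simp
    | succ j ih =>
      have h2 := hgrow (k + j) (by omega)
      rw [← add_assoc]
      refine le_trans ?_ h2
      rw [pow_succ]
      linarith
  obtain ⟨j, hj⟩ := pow_unbounded_of_one_lt (60 / (Hi (-(k : ℤ)) / ff (-(k : ℤ)) - 1))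
    (show (1 : ℝ) < 3 / 2 by norm_num)
  rw [div_lt_iff₀ hpos] at hj
  have h2 := hiter j
  have h3 : Hi (-((k + j : ℕ) : ℤ)) / ff (-((k + j : ℕ) : ℤ)) ≤ 60 := by
    rw [div_le_iff₀ (ff_pos _)]
    have a := ff_lower (-((k + j : ℕ) : ℤ))
    have b := Hi_le_Lo (-((k + j : ℕ) : ℤ))
    have c := ff_pos (-((k + j : ℕ) : ℤ))
    nlinarith
  linarith

theorem Hi_eq (i : ℤ) : Hi i = ff i := by
  obtain ⟨K, hK⟩ := excess_zero_left
  have hstep : ∀ i, Hi i = ff i → Hi (i + 1) = ff (i + 1) := by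
    intro i hi
    have h1 := excess i
    rw [hi, div_self (ff_pos i).ne', sub_self] at h1
    have h2 : 0 ≤ Hi (i + 1) / ff (i + 1) - 1 := by
      rw [sub_nonneg, one_le_div (ff_pos _)]
      exact (ff_le_Lo _).trans (Lo_le_Hi _)
    have h3 : √(ff i) ≤ 1 := Real.sqrt_le_one.2 (ff_lt_one i).le
    have h4 := Hi_lt_one (i + 1)
    have h5 : 0 < (2 - √(ff i)) * (1 - Hi (i + 1)) := mul_pos (by linarith) (by linarith)
    have h6 : Hi (i + 1) / ff (i + 1) - 1 = 0 := by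
      by_contra hne
      have h7 : 0 < Hi (i + 1) / ff (i + 1) - 1 := lt_of_le_of_ne h2 (Ne.symm hne)
      have := mul_pos h7 h5
      linarith
    have h7 : Hi (i + 1) / ff (i + 1) = 1 := by linarith
    exact (div_eq_one_iff_eq (ff_pos _).ne').1 h7
  have hall : ∀ n : ℕ, Hi (-(K : ℤ) + n) = ff (-(K : ℤ) + n) := by
    intro n
    induction n with
    | zero => simpa using hK K le_rfl
    | succ n ih =>
      have := hstep _ ih
      push_cast
      rw [← add_assoc]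
      exact this
  rcases le_or_gt i (-(K : ℤ)) with h | h
  · have := hK i.natAbs (by omega)
    have e : -((i.natAbs : ℕ) : ℤ) = i := by omega
    rwa [e] at this
  · have := hall (i + K).toNat
    rw [Int.toNat_of_nonneg (by omega)] at this
    have e : -(K : ℤ) + (i + K) = i := by ring
    rwa [e] at this

theorem xs_tendsto (i : ℤ) : Tendsto (fun n => xs n i) atTop (𝓝 (ff i)) := by
  refine tendsto_of_liminf_eq_limsup (le_antisymm ?_ ?_) (Hi_eq i) (bdd_above i) (bdd_below i)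
  · exact (Lo_le_Hi i).trans (Hi_eq i).le
  · exact ff_le_Lo i

theorem ff_mono (i : ℤ) : ff i ≤ ff (i + 1) := by
  rw [ff_succ]
  have hf := ff_pos i
  have h3 := sqrt_le_hh hf.le (ff_lt_one i).le
  have h4 : √(ff i) ^ 2 = ff i := Real.sq_sqrt hf.le
  have h5 : √(ff i) ≤ 1 := Real.sqrt_le_one.2 (ff_lt_one i).le
  have h6 : 0 ≤ √(ff i) := Real.sqrt_nonneg _
  nlinarith

theorem ff_bot : Tendsto (fun k : ℕ => ff (-(k : ℤ))) atTop (𝓝 0) := by
  refine squeeze_zero (fun k => (ff_pos _).le) (fun k => ?_) Hi_tendsto_bot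
  exact (Hi_eq _).ge

theorem ff_top : Tendsto (fun k : ℕ => ff (k : ℤ)) atTop (𝓝 1) := by
  have hmono : Monotone (fun k : ℕ => ff (k : ℤ)) := monotone_nat_of_le_succ fun k => by
    push_cast; exact ff_mono k
  have hb : BddAbove (Set.range fun k : ℕ => ff (k : ℤ)) :=
    ⟨1, by rintro _ ⟨k, rfl⟩; exact (ff_lt_one _).le⟩
  have h1 := tendsto_atTop_ciSup hmono hb
  set L := ⨆ k : ℕ, ff (k : ℤ) with hL
  have h2 : Tendsto (fun k : ℕ => ff ((k : ℤ) + 1)) atTop (𝓝 (hh L)) := by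
    refine ((hh_cont.tendsto L).comp h1).congr fun k => ?_
    simp only [Function.comp_apply]
    rw [ff_succ]
  have h3 : Tendsto (fun k : ℕ => ff ((k : ℤ) + 1)) atTop (𝓝 L) := by
    refine (h1.comp (tendsto_add_atTop_nat 1)).congr fun k => ?_
    simp
  have h4 := tendsto_nhds_unique h2 h3
  have hL0 : 0 < L := lt_of_lt_of_le (ff_pos 0) (le_ciSup hb 0)
  have hL1 : L ≤ 1 := ciSup_le fun k => (ff_lt_one _).le
  unfold hh at h4
  have h5 : √L = L := by linarith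
  have h6 : √L ^ 2 = L := Real.sq_sqrt hL0.le
  have h7 : L = 1 := by
    rw [h5] at h6
    have : L * (L - 1) = 0 := by linarith [sq L]
    rcases mul_eq_zero.1 this with h | h
    · linarith
    · linarith
  rw [h7] at h1
  exact h1

end Pool.Agent.V11327.MM
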