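import Pool.Agent.V11327.NTdefs

/-! Counting permutations. -/

set_option autoImplicit false

namespace Pool.Agent.V11327.NT

open Finset
open scoped Classical

/-- number of permutations satisfying a condition -/
noncomputable def cnt {Q : Type} (τ0 : Q → ℕ) (Φ : (Q → ℕ) → Prop) : ℕ :=
  Nat.card {π : Equiv.Perm Q // Φ (τ0 ∘ π)}

/-- `c` is the first element of `W` -/
def Fst {Q : Type} (W : Finset Q) (c : Q) (τ : Q → ℕ) : Prop := ∀ z ∈ W, z ≠ c → τ c < τ z

/-- `c` is the first element of all -/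
def Fst0 {Q : Type} (c : Q) (τ : Q → ℕ) : Prop := ∀ z, z ≠ c → τ c < τ z

/-- `a`, `b`, `c` are the first three elements of `W` -/
def Tri {Q : Type} (W : Finset Q) (a b c : Q) (τ : Q → ℕ) : Prop :=
  (∀ z ∈ W, z ≠ a → τ a < τ z) ∧ (∀ z ∈ W, z ≠ a → z ≠ b → τ b < τ z) ∧
    (∀ z ∈ W, z ≠ a → z ≠ b → z ≠ c → τ c < τ z)

section first

variable {Q : Type}

theorem fst_unique {W : Finset Q} {c c' : Q} {τ : Q → ℕ} (hc : c ∈ W) (hc' : c' ∈ W)
    (h : Fst W c τ) (h' : Fst W c' τ) : c = c' := by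
  by_contra hne
  have h1 := h c' hc' (Ne.symm hne)
  have h2 := h' c hc hne
  omega

theorem fst_exists {W : Finset Q} (hW : W.Nonempty) {τ : Q → ℕ} (hτ : Function.Injective τ) :
    ∃ c ∈ W, Fst W c τ := by
  obtain ⟨c, hc, hmin⟩ := W.exists_min_image τ hW
  refine ⟨c, hc, fun z hz hne => lt_of_le_of_ne (hmin z hz) fun h => hne (hτ h).symm⟩

theorem fst_swap {W : Finset Q} {c c' : Q} (hc : c ∈ W) (hc' : c' ∈ W) (τ : Q → ℕ) :
    Fst W c (τ ∘ Equiv.swap c c') ↔ Fst W c' τ := by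
  unfold Fst
  simp only [Function.comp_apply, Equiv.swap_apply_left]
  constructor
  · intro h z hz hne
    by_cases hzc : z = c
    · subst hzc
      have := h c' hc' (Ne.symm hne)
      rwa [Equiv.swap_apply_right] at this
    · have := h z hz hzc
      rwa [Equiv.swap_apply_of_ne_of_ne hzc hne] at this
  · intro h z hz hne
    by_cases hzc : z = c'
    · subst hzc
      rw [Equiv.swap_apply_right]
      exact h c hc (Ne.symm hne)
    · rw [Equiv.swap_apply_of_ne_of_ne hne hzc]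
      exact h z hz hzc

theorem fst_swap_of {W W' : Finset Q} {a : Q} (τ : Q → ℕ) {c c' : Q} (hc : c ∈ W') (hc' : c' ∈ W')
    (hW : W' ⊆ W) (ha : a ∉ W') : Fst W a (τ ∘ Equiv.swap c c') ↔ Fst W a τ := by
  have key : ∀ τ : Q → ℕ, Fst W a τ → Fst W a (τ ∘ Equiv.swap c c') := by
    intro τ h z hz hne
    have hac : a ≠ c := fun h => ha (h ▸ hc)
    have hac' : a ≠ c' := fun h => ha (h ▸ hc')
    simp only [Function.comp_apply, Equiv.swap_apply_of_ne_of_ne hac hac']
    by_cases h1 : z = c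
    · subst h1
      rw [Equiv.swap_apply_left]
      exact h c' (hW hc') (Ne.symm hac')
    · by_cases h2 : z = c'
      · subst h2
        rw [Equiv.swap_apply_right]
        exact h c (hW hc) (Ne.symm hac)
      · rw [Equiv.swap_apply_of_ne_of_ne h1 h2]
        exact h z hz hne
  constructor
  · intro h
    have := key _ h
    have e : (τ ∘ ⇑(Equiv.swap c c')) ∘ ⇑(Equiv.swap c c') = τ := by
      funext x; simp
    rwa [e] at this
  · exact key τ

variable [Fintype Q]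

theorem cnt_eq (τ0 : Q → ℕ) (Φ : (Q → ℕ) → Prop) :
    cnt τ0 Φ = (univ.filter fun π : Equiv.Perm Q => Φ (τ0 ∘ π)).card := by
  unfold cnt
  rw [Nat.card_eq_fintype_card, Fintype.card_subtype]

theorem count_first (τ0 : Q → ℕ) (hτ0 : Function.Injective τ0) (W : Finset Q)
    (Φ : (Q → ℕ) → Prop)
    (hΦ : ∀ (τ : Q → ℕ) (c c' : Q), c ∈ W → c' ∈ W → (Φ (τ ∘ Equiv.swap c c') ↔ Φ τ))
    (c : Q) (hc : c ∈ W) :
    W.card * cnt τ0 (fun τ => Φ τ ∧ Fst W c τ) = cnt τ0 Φ := by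
  rw [cnt_eq, cnt_eq]
  have hinj : ∀ π : Equiv.Perm Q, Function.Injective (τ0 ∘ π) := fun π => hτ0.comp π.injective
  have heq : ∀ c' ∈ W, (univ.filter fun π : Equiv.Perm Q => Φ (τ0 ∘ π) ∧ Fst W c' (τ0 ∘ π)).card
      = (univ.filter fun π : Equiv.Perm Q => Φ (τ0 ∘ π) ∧ Fst W c (τ0 ∘ π)).card := by
    intro c' hc'
    refine card_bij (fun π _ => π * Equiv.swap c c') ?_ ?_ ?_
    · intro π hπ
      rw [mem_filter] at hπ ⊢
      refine ⟨mem_univ _, ?_⟩
      have e : (τ0 ∘ ⇑(π * Equiv.swap c c')) = (τ0 ∘ ⇑π) ∘ Equiv.swap c c' := by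
        funext x; simp
      rw [e, hΦ _ c c' hc hc', fst_swap hc hc']
      exact hπ.2
    · intro π _ π' _ h
      exact mul_right_cancel h
    · intro π hπ
      refine ⟨π * Equiv.swap c c', ?_, ?_⟩
      · rw [mem_filter] at hπ ⊢
        refine ⟨mem_univ _, ?_⟩
        have e : (τ0 ∘ ⇑(π * Equiv.swap c c')) = (τ0 ∘ ⇑π) ∘ Equiv.swap c' c := by
          funext x; rw [Equiv.swap_comm]; simp
        rw [e, hΦ _ c' c hc' hc, fst_swap hc' hc]
        exact hπ.2
      · rw [mul_assoc, Equiv.swap_mul_self, mul_one]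
  have hsum : (univ.filter fun π : Equiv.Perm Q => Φ (τ0 ∘ π)).card
      = ∑ c' ∈ W, (univ.filter fun π : Equiv.Perm Q => Φ (τ0 ∘ π) ∧ Fst W c' (τ0 ∘ π)).card := by
    rw [← card_biUnion]
    · congr 1
      ext π
      simp only [mem_filter, mem_univ, true_and, mem_biUnion]
      constructor
      · intro h
        obtain ⟨c', hc', h'⟩ := fst_exists ⟨c, hc⟩ (hinj π)
        exact ⟨c', hc', h, h'⟩
      · rintro ⟨c', _, h, _⟩
        exact h
    · intro a ha b hb hab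
      rw [Function.onFun, disjoint_left]
      intro π h1 h2
      rw [mem_filter] at h1 h2
      exact hab (fst_unique ha hb h1.2.2 h2.2.2)
  rw [hsum, sum_congr rfl heq, sum_const, smul_eq_mul]
  congr 1
  refine congrArg card ?_
  ext π
  simp only [mem_filter, mem_univ, true_and]

theorem cnt_congr (τ0 : Q → ℕ) {Φ Ψ : (Q → ℕ) → Prop} (h : ∀ τ, Φ τ ↔ Ψ τ) : cnt τ0 Φ = cnt τ0 Ψ := by
  have : Φ = Ψ := funext fun τ => propext (h τ)
  rw [this]

theorem cnt_true (τ0 : Q → ℕ) : cnt τ0 (fun _ => True) = (Nat.card Q).factorial := by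
  rw [Nat.card_eq_fintype_card, ← Fintype.card_perm, ← card_univ, cnt_eq]
  congr 1
  ext π
  simp only [mem_filter, mem_univ, true_and]

/-- the number of permutations with a prescribed first element -/
theorem count_fst0 (τ0 : Q → ℕ) (hτ0 : Function.Injective τ0) (c : Q) :
    Nat.card Q * cnt τ0 (Fst0 c) = (Nat.card Q).factorial := by
  have h1 := count_first τ0 hτ0 univ (fun _ => True) (fun _ _ _ _ _ => Iff.rfl) c (mem_univ _)
  rw [cnt_true, card_univ, ← Nat.card_eq_fintype_card] at h1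
  rw [← h1]
  congr 1
  refine cnt_congr τ0 fun τ => ?_
  unfold Fst0 Fst
  simp

/-- the number of permutations with prescribed first three elements of `W` -/
theorem count_three (τ0 : Q → ℕ) (hτ0 : Function.Injective τ0) (W : Finset Q) (a b c : Q)
    (ha : a ∈ W) (hb : b ∈ W) (hc : c ∈ W) (hab : a ≠ b) (hac : a ≠ c) (hbc : b ≠ c) :
    W.card * ((W.card - 1) * ((W.card - 2) * cnt τ0 (Tri W a b c))) = (Nat.card Q).factorial := by
  have hb' : b ∈ W.erase a := mem_erase.2 ⟨Ne.symm hab, hb⟩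
  have hc' : c ∈ (W.erase a).erase b := mem_erase.2 ⟨Ne.symm hbc, mem_erase.2 ⟨Ne.symm hac, hc⟩⟩
  have h3 := count_first τ0 hτ0 ((W.erase a).erase b)
    (fun τ => Fst W a τ ∧ Fst (W.erase a) b τ) (fun τ x x' hx hx' => by
      have h1 : (W.erase a).erase b ⊆ W.erase a := erase_subset _ _
      have h2 : (W.erase a).erase b ⊆ W := h1.trans (erase_subset _ _)
      have h4 : a ∉ (W.erase a).erase b := fun h => by
        rw [mem_erase, mem_erase] at h; exact h.2.1 rfl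
      have h5 : b ∉ (W.erase a).erase b := notMem_erase _ _
      rw [fst_swap_of τ hx hx' h2 h4, fst_swap_of τ hx hx' h1 h5]) c hc'
  have h2 := count_first τ0 hτ0 (W.erase a) (fun τ => Fst W a τ) (fun τ x x' hx hx' => by
      rw [fst_swap_of τ hx hx' (erase_subset _ _) (notMem_erase _ _)]) b hb'
  have h1 := count_first τ0 hτ0 W (fun _ => True) (fun _ _ _ _ _ => Iff.rfl) a ha
  have e2 : ((W.erase a).erase b).card = W.card - 2 := by
    rw [card_erase_of_mem hb', card_erase_of_mem ha]; omega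
  have e1 : (W.erase a).card = W.card - 1 := card_erase_of_mem ha
  have e3 : cnt τ0 (Tri W a b c) = cnt τ0 (fun τ => (Fst W a τ ∧ Fst (W.erase a) b τ) ∧
      Fst ((W.erase a).erase b) c τ) := by
    refine cnt_congr τ0 fun τ => ?_
    unfold Tri Fst
    simp only [mem_erase]
    constructor
    · rintro ⟨x1, x2, x3⟩
      exact ⟨⟨x1, fun z hz hzb => x2 z hz.2 hz.1 hzb⟩, fun z hz hzc => x3 z hz.2.2 hz.2.1 hz.1 hzc⟩
    · rintro ⟨⟨x1, x2⟩, x3⟩
      exact ⟨x1, fun z hz hza hzb => x2 z ⟨hza, hz⟩ hzb,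
        fun z hz hza hzb hzc => x3 z ⟨hzb, hza, hz⟩ hzc⟩
  rw [e2] at h3
  rw [e1] at h2
  rw [e3, h3, h2]
  have e0 : cnt τ0 (fun τ => True ∧ Fst W a τ) = cnt τ0 (fun τ => Fst W a τ) :=
    cnt_congr τ0 fun τ => by simp
  rw [e0, cnt_true] at h1
  exact h1

/-- summing a pointwise inequality -/
theorem cnt_sum_le {I J : Type} (τ0 : Q → ℕ) (S : Finset I) (T : Finset J)
    (Φ : I → (Q → ℕ) → Prop) (Ψ : J → (Q → ℕ) → Prop) (Θ Θ' : (Q → ℕ) → Prop)
    (h : ∀ π : Equiv.Perm Q, (S.filter fun i => Φ i (τ0 ∘ π)).card + (T.filter fun t => Ψ t (τ0 ∘ π)).card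
      ≤ (if Θ (τ0 ∘ π) then 1 else 0) + (if Θ' (τ0 ∘ π) then 1 else 0)) :
    ∑ i ∈ S, cnt τ0 (Φ i) + ∑ t ∈ T, cnt τ0 (Ψ t) ≤ cnt τ0 Θ + cnt τ0 Θ' := by
  have h1 : ∀ Φ : (Q → ℕ) → Prop, cnt τ0 Φ = ∑ π : Equiv.Perm Q, if Φ (τ0 ∘ π) then 1 else 0 := by
    intro Φ
    rw [cnt_eq, card_filter]
  simp only [h1]
  rw [sum_comm, sum_comm (s := T), ← sum_add_distrib, ← sum_add_distrib]
  refine sum_le_sum fun π _ => ?_
  rw [← card_filter, ← card_filter]
  exact h π

/-- the recursion for the sum over permutations -/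
theorem sum_step {B : Type} [Fintype B] (A : (Q → ℕ) → Prop) (e : B → Q) (he : Function.Injective e)
    (act : Equiv.Perm B → Equiv.Perm Q) (hA : ∀ ρ τ, A (τ ∘ act ρ) ↔ A τ)
    (hact : ∀ ρ x, act ρ (e x) = e (ρ x)) (F : (B → ℕ) → ℕ) (K : ℝ)
    (hF : ∀ τ0 : B → ℕ, Function.Injective τ0 →
      K * ((Fintype.card B).factorial : ℝ) ≤ ∑ ρ : Equiv.Perm B, (F (τ0 ∘ ρ) : ℝ))
    (τ0 : Q → ℕ) (hτ0 : Function.Injective τ0) :
    K * (cnt τ0 A : ℝ) ≤ ∑ π : Equiv.Perm Q,
      (((if A (τ0 ∘ π) then F (fun x => τ0 (π (e x))) else 0 : ℕ)) : ℝ) := by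
  set G : Equiv.Perm Q → ℝ := fun π =>
    (((if A (τ0 ∘ π) then F (fun x => τ0 (π (e x))) else 0 : ℕ)) : ℝ) with hG
  have h1 : ∀ ρ : Equiv.Perm B, ∑ π, G (π * act ρ) = ∑ π, G π := fun ρ =>
    Fintype.sum_equiv (Equiv.mulRight (act ρ)) _ _ fun π => rfl
  have h2 : ((Fintype.card B).factorial : ℝ) * ∑ π, G π = ∑ π, ∑ ρ : Equiv.Perm B, G (π * act ρ) := by
    rw [sum_comm, sum_congr rfl fun ρ _ => h1 ρ, sum_const, card_univ, Fintype.card_perm, nsmul_eq_mul]
  have h3 : ∀ π : Equiv.Perm Q,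
      (if A (τ0 ∘ π) then K * ((Fintype.card B).factorial : ℝ) else 0) ≤ ∑ ρ : Equiv.Perm B, G (π * act ρ) := by
    intro π
    have e0 : ∀ ρ : Equiv.Perm B, G (π * act ρ)
        = (if A (τ0 ∘ π) then (F ((fun x => τ0 (π (e x))) ∘ ρ) : ℝ) else 0) := by
      intro ρ
      rw [hG]
      simp only
      have e1 : (τ0 ∘ ⇑(π * act ρ)) = (τ0 ∘ ⇑π) ∘ act ρ := by
        funext x; simp
      have e2 : (fun x => τ0 ((π * act ρ) (e x))) = (fun x => τ0 (π (e x))) ∘ ρ := by
        funext x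
        simp [Equiv.Perm.mul_apply, hact]
      rw [e1, e2]
      by_cases h : A (τ0 ∘ π)
      · rw [if_pos ((hA ρ _).2 h), if_pos h]
      · rw [if_neg (fun h' => h ((hA ρ _).1 h')), if_neg h]; simp
    rw [sum_congr rfl fun ρ _ => e0 ρ]
    split_ifs with h
    · refine hF _ ?_
      intro x x' hxx
      exact he (π.injective (hτ0 hxx))
    · simp
  have h4 := sum_le_sum fun (π : Equiv.Perm Q) (_ : π ∈ univ) => h3 π
  rw [← h2] at h4
  have h5 : ∑ π : Equiv.Perm Q,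
      (if A (τ0 ∘ π) then K * ((Fintype.card B).factorial : ℝ) else 0)
      = (cnt τ0 A : ℝ) * (K * ((Fintype.card B).factorial : ℝ)) := by
    rw [← sum_filter, sum_const, nsmul_eq_mul, cnt_eq]
  rw [h5] at h4
  have hfac : (0 : ℝ) < ((Fintype.card B).factorial : ℝ) := by positivity
  refine le_of_mul_le_mul_left ?_ hfac
  calc ((Fintype.card B).factorial : ℝ) * (K * (cnt τ0 A : ℝ))
      = (cnt τ0 A : ℝ) * (K * ((Fintype.card B).factorial : ℝ)) := by ring
    _ ≤ _ := h4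

end first

section step

variable {B : Type} [Fintype B]

/-- the top hub points together with the arms -/
noncomputable def WW (B : Type) [Fintype B] (M b : ℕ) : Finset (Fin M ⊕ (Bool × B)) :=
  ((univ.filter fun j : Fin M => M ≤ (j : ℕ) + b).map Function.Embedding.inl).disjUnion
    ((univ : Finset (Bool × B)).map Function.Embedding.inr) (by
      rw [disjoint_left]
      intro q h1 h2
      rw [mem_map] at h1 h2
      obtain ⟨j, _, rfl⟩ := h1
      obtain ⟨x, _, h⟩ := h2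
      cases h)

theorem mem_WW_inl {M b : ℕ} {j : Fin M} : (Sum.inl j : Fin M ⊕ (Bool × B)) ∈ WW B M b ↔ M ≤ (j : ℕ) + b := by
  unfold WW
  rw [mem_disjUnion, mem_map, mem_map]
  constructor
  · rintro (⟨j', h, h'⟩ | ⟨x, _, h⟩)
    · cases h'; exact (mem_filter.1 h).2
    · cases h
  · intro h; exact Or.inl ⟨j, mem_filter.2 ⟨mem_univ _, h⟩, rfl⟩

theorem mem_WW_inr {M b : ℕ} {x : Bool × B} : (Sum.inr x : Fin M ⊕ (Bool × B)) ∈ WW B M b := by
  unfold WW
  rw [mem_disjUnion, mem_map, mem_map]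
  exact Or.inr ⟨x, mem_univ _, rfl⟩

theorem card_top (M b : ℕ) (hb : b ≤ M) : (univ.filter fun j : Fin M => M ≤ (j : ℕ) + b).card = b := by
  have h1 : (univ.filter fun j : Fin M => M ≤ (j : ℕ) + b).card = (Finset.Ico (M - b) M).card := by
    refine card_bij (fun j _ => (j : ℕ)) ?_ ?_ ?_
    · intro j hj
      rw [mem_filter] at hj
      rw [mem_Ico]
      have := j.2
      omega
    · intro i _ j _ h
      exact Fin.ext h
    · intro x hx
      rw [mem_Ico] at hx
      refine ⟨⟨x, hx.2⟩, ?_, rfl⟩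
      rw [mem_filter]
      refine ⟨mem_univ _, ?_⟩
      simp only
      omega
  rw [h1, Nat.card_Ico]; omega

theorem card_WW (M b : ℕ) (hb : b ≤ M) (hB : Fintype.card B = b) : (WW B M b).card = 3 * b := by
  unfold WW
  rw [card_disjUnion, card_map, card_map, card_top _ _ hb, card_univ, Fintype.card_prod,
    Fintype.card_bool, hB]
  ring

/-- the triple event -/
def EE (M b : ℕ) (t : Bool × Fin M × B × B) (τ : Fin M ⊕ (Bool × B) → ℕ) : Prop :=
  Tri (WW B M b) (Sum.inl t.2.1) (Sum.inr (t.1, t.2.2.1)) (Sum.inr (!t.1, t.2.2.2)) τ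

theorem inr_ne (l : Bool) (x x' : B) {M : ℕ} :
    (Sum.inr (l, x) : Fin M ⊕ (Bool × B)) ≠ Sum.inr (!l, x') := by
  intro h
  have := (Prod.mk.inj (Sum.inr_injective h)).1
  cases l <;> simp at this

theorem AA_of_EE {M b : ℕ} {t : Bool × Fin M × B × B} {τ : Fin M ⊕ (Bool × B) → ℕ}
    (hj : M ≤ (t.2.1 : ℕ) + b) (h : EE M b t τ) (l' : Bool) : AA l' τ := by
  obtain ⟨l, j, x, x'⟩ := t
  obtain ⟨h1, h2, h3⟩ := h
  simp only at h1 h2 h3 hj
  refine ⟨j, fun l'' y => h1 _ mem_WW_inr Sum.inr_ne_inl, fun j' hj' => ?_⟩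
  have hj'W : (Sum.inl j' : Fin M ⊕ (Bool × B)) ∈ WW B M b := by
    rw [mem_WW_inl]
    have : (j : ℕ) < j' := hj'
    omega
  have hne : (Sum.inl j' : Fin M ⊕ (Bool × B)) ≠ Sum.inl j := by
    intro h; exact hj'.ne' (Sum.inl_injective h)
  by_cases hl : l' = l
  · subst hl
    exact ⟨x, h2 _ hj'W hne Sum.inl_ne_inr⟩
  · have hl' : l' = !l := by cases l <;> cases l' <;> simp_all
    subst hl'
    exact ⟨x', h3 _ hj'W hne Sum.inl_ne_inr Sum.inl_ne_inr⟩

theorem AA_of_first {M : ℕ} [Nonempty B] {j : Fin M} {τ : Fin M ⊕ (Bool × B) → ℕ}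
    (hτ : Function.Injective τ) (h : Fst0 (Sum.inl j) τ) : ∃ l, AA l τ := by
  -- the first arm point
  obtain ⟨⟨l, x⟩, hx⟩ := Finite.exists_min (fun p : Bool × B => τ (Sum.inr p))
  -- hub points before it
  set T : Finset (Fin M) := univ.filter fun j' => τ (Sum.inl j') < τ (Sum.inr (l, x)) with hT
  have hjT : j ∈ T := by
    rw [hT, mem_filter]
    exact ⟨mem_univ _, h _ Sum.inr_ne_inl⟩
  obtain ⟨k, hk, hmax⟩ := T.exists_max_image id ⟨j, hjT⟩
  rw [hT, mem_filter] at hk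
  refine ⟨l, k, fun l' b => lt_of_lt_of_le hk.2 (hx (l', b)), fun j' hj' => ?_⟩
  have hne : j' ∉ T := fun h' => absurd (hmax j' h') (not_le.2 hj')
  rw [hT, mem_filter] at hne
  have h1 : τ (Sum.inr (l, x)) ≤ τ (Sum.inl j') := by
    by_contra hcon
    exact hne ⟨mem_univ _, not_le.1 hcon⟩
  exact ⟨x, lt_of_le_of_ne h1 fun h2 => by
    have := hτ h2
    cases this⟩

theorem pointwise {b : ℕ} [Nonempty B] (τ : Fin (34 * b) ⊕ (Bool × B) → ℕ) (hτ : Function.Injective τ)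
    (top : Finset (Fin (34 * b))) (htop : ∀ j ∈ top, 34 * b ≤ (j : ℕ) + b) :
    ((univ : Finset (Fin (34 * b))).filter fun j => Fst0 (Sum.inl j) τ).card
      + ((univ ×ˢ (top ×ˢ (univ ×ˢ univ)) : Finset (Bool × Fin (34 * b) × B × B)).filter
        fun t => EE (34 * b) b t τ).card
      ≤ (if AA true τ then 1 else 0) + (if AA false τ then 1 else 0) := by
  have h1 : ((univ : Finset (Fin (34 * b))).filter fun j => Fst0 (Sum.inl j) τ).card ≤ 1 := by
    rw [card_le_one]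
    intro i hi j hj
    rw [mem_filter] at hi hj
    by_contra hne
    have a := hi.2 (Sum.inl j) (fun h => hne (Sum.inl_injective h).symm)
    have c := hj.2 (Sum.inl i) (fun h => hne (Sum.inl_injective h))
    omega
  have h2 : ((univ ×ˢ (top ×ˢ (univ ×ˢ univ)) : Finset (Bool × Fin (34 * b) × B × B)).filter
        fun t => EE (34 * b) b t τ).card ≤ 1 := by
    rw [card_le_one]
    rintro ⟨l, j, x, x'⟩ ht ⟨l2, j2, x2, x2'⟩ ht2
    rw [mem_filter, mem_product, mem_product, mem_product] at ht ht2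
    obtain ⟨⟨_, hj, _⟩, a1, a2, a3⟩ := ht
    obtain ⟨⟨_, hj2, _⟩, c1, c2, c3⟩ := ht2
    simp only at hj hj2 a1 a2 a3 c1 c2 c3
    have e1 : j = j2 := by
      by_contra hne
      have a := a1 (Sum.inl j2) (mem_WW_inl.2 (htop _ hj2)) (fun h => hne (Sum.inl_injective h).symm)
      have c := c1 (Sum.inl j) (mem_WW_inl.2 (htop _ hj)) (fun h => hne (Sum.inl_injective h))
      omega
    subst e1
    have e2 : (Sum.inr (l, x) : Fin (34 * b) ⊕ (Bool × B)) = Sum.inr (l2, x2) := by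
      by_contra hne
      have a := a2 (Sum.inr (l2, x2)) mem_WW_inr Sum.inr_ne_inl (Ne.symm hne)
      have c := c2 (Sum.inr (l, x)) mem_WW_inr Sum.inr_ne_inl hne
      omega
    obtain ⟨rfl, rfl⟩ := Prod.mk.inj (Sum.inr_injective e2)
    have e3 : (Sum.inr (!l, x') : Fin (34 * b) ⊕ (Bool × B)) = Sum.inr (!l, x2') := by
      by_contra hne
      have a := a3 (Sum.inr (!l, x2')) mem_WW_inr Sum.inr_ne_inl (inr_ne l x x2').symm (Ne.symm hne)
      have c := c3 (Sum.inr (!l, x')) mem_WW_inr Sum.inr_ne_inl (inr_ne l x x').symm hne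
      omega
    rw [(Prod.mk.inj (Sum.inr_injective e3)).2]
  by_cases hE : ∃ t ∈ (univ ×ˢ (top ×ˢ (univ ×ˢ univ)) : Finset (Bool × Fin (34 * b) × B × B)),
      EE (34 * b) b t τ
  · obtain ⟨t, ht, hEt⟩ := hE
    rw [mem_product, mem_product] at ht
    have hj := htop _ ht.2.1
    rw [if_pos (AA_of_EE hj hEt true), if_pos (AA_of_EE hj hEt false)]
    omega
  · have h3 : ((univ ×ˢ (top ×ˢ (univ ×ˢ univ)) : Finset (Bool × Fin (34 * b) × B × B)).filter
        fun t => EE (34 * b) b t τ).card = 0 := by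
      rw [card_eq_zero, filter_eq_empty_iff]
      intro t ht h
      exact hE ⟨t, ht, h⟩
    rw [h3, add_zero]
    by_cases hF : ∃ j : Fin (34 * b), Fst0 (Sum.inl j) τ
    · obtain ⟨j, hj⟩ := hF
      obtain ⟨l, hl⟩ := AA_of_first hτ hj
      refine h1.trans ?_
      cases l
      · rw [if_pos hl]; omega
      · rw [if_pos hl]; omega
    · have h4 : ((univ : Finset (Fin (34 * b))).filter fun j => Fst0 (Sum.inl j) τ).card = 0 := by
        rw [card_eq_zero, filter_eq_empty_iff]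
        intro j _ h
        exact hF ⟨j, h⟩
      rw [h4]; exact Nat.zero_le _

/-- the number of permutations for which the arms are good -/
theorem count_AA {b : ℕ} (hb : 1 ≤ b) (hB : Fintype.card B = b)
    (τ0 : Fin (34 * b) ⊕ (Bool × B) → ℕ) (hτ0 : Function.Injective τ0) :
    (55 / 54 : ℝ) * ((36 * b).factorial : ℝ) ≤ (cnt τ0 (AA true) : ℝ) + cnt τ0 (AA false) := by
  have : Nonempty B := by rw [← Fintype.card_pos_iff, hB]; exact hb
  have hcardQ : Nat.card (Fin (34 * b) ⊕ (Bool × B)) = 36 * b := by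
    rw [Nat.card_eq_fintype_card, Fintype.card_sum, Fintype.card_fin, Fintype.card_prod,
      Fintype.card_bool, hB]; ring
  have hfirst : ∀ j : Fin (34 * b), (36 * b) * cnt τ0 (Fst0 (Sum.inl j)) = (36 * b).factorial := by
    intro j
    have h1 := count_fst0 τ0 hτ0 (Sum.inl j)
    rw [hcardQ] at h1
    exact h1
  set top : Finset (Fin (34 * b)) := univ.filter fun j : Fin (34 * b) => 34 * b ≤ (j : ℕ) + b with htop
  set T : Finset (Bool × Fin (34 * b) × B × B) := univ ×ˢ (top ×ˢ (univ ×ˢ univ)) with hT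
  have hEE : ∀ t : Bool × Fin (34 * b) × B × B, 34 * b ≤ (t.2.1 : ℕ) + b →
      (3 * b) * ((3 * b - 1) * ((3 * b - 2) * cnt τ0 (EE (34 * b) b t))) = (36 * b).factorial := by
    intro t hj
    have h1 := count_three τ0 hτ0 (WW B (34 * b) b) (Sum.inl t.2.1) (Sum.inr (t.1, t.2.2.1))
      (Sum.inr (!t.1, t.2.2.2)) (mem_WW_inl.2 hj) mem_WW_inr mem_WW_inr
      Sum.inl_ne_inr Sum.inl_ne_inr (inr_ne _ _ _)
    rw [card_WW _ _ (by omega) hB, hcardQ] at h1
    exact h1
  have hsum := cnt_sum_le τ0 (univ : Finset (Fin (34 * b))) T (fun j => Fst0 (Sum.inl j))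
    (fun t => EE (34 * b) b t) (AA true) (AA false) (fun π => by
      have := pointwise (B := B) (b := b) (τ0 ∘ π) (hτ0.comp π.injective) top
        (fun j hj => (mem_filter.1 hj).2)
      exact this)
  have hR : (∑ j : Fin (34 * b), (cnt τ0 (Fst0 (Sum.inl j)) : ℝ))
      + ∑ t ∈ T, (cnt τ0 (EE (34 * b) b t) : ℝ)
      ≤ (cnt τ0 (AA (B := B) true) : ℝ) + cnt τ0 (AA (B := B) false) := by exact_mod_cast hsum
  refine le_trans ?_ hR
  have hbR : (1 : ℝ) ≤ b := by exact_mod_cast hb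
  have c1 : ∀ j : Fin (34 * b), (cnt τ0 (Fst0 (Sum.inl j)) : ℝ) = ((36 * b).factorial : ℝ) / (36 * b) := by
    intro j
    rw [eq_div_iff (by positivity)]
    have := hfirst j
    have h2 : (((36 * b) * cnt τ0 (Fst0 (Sum.inl j)) : ℕ) : ℝ) = ((36 * b).factorial : ℝ) := by rw [this]
    push_cast at h2
    linarith
  have c2 : ∀ t ∈ T, ((36 * b).factorial : ℝ) / (27 * (b : ℝ) ^ 3) ≤ (cnt τ0 (EE (34 * b) b t) : ℝ) := by
    intro t ht
    rw [hT, mem_product, mem_product, htop, mem_filter] at ht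
    have h1 := hEE t ht.2.1.2
    rw [div_le_iff₀ (by positivity)]
    have h2 : (36 * b).factorial ≤ cnt τ0 (EE (34 * b) b t) * (27 * b ^ 3) := by
      rw [← h1]
      calc (3 * b) * ((3 * b - 1) * ((3 * b - 2) * cnt τ0 (EE (34 * b) b t)))
          ≤ (3 * b) * ((3 * b) * ((3 * b) * cnt τ0 (EE (34 * b) b t))) := by
            refine Nat.mul_le_mul_left _ (Nat.mul_le_mul (by omega) (Nat.mul_le_mul_right _ (by omega)))
        _ = cnt τ0 (EE (34 * b) b t) * (27 * b ^ 3) := by ring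
    exact_mod_cast h2
  have hTcard : (T.card : ℝ) = 2 * (b : ℝ) ^ 3 := by
    rw [hT, card_product, card_product, card_product, card_top _ _ (by omega), card_univ, card_univ,
      Fintype.card_bool, hB]
    push_cast; ring
  have s2 := card_nsmul_le_sum T _ _ c2
  rw [nsmul_eq_mul, hTcard] at s2
  rw [sum_congr rfl fun j _ => c1 j, sum_const, card_univ, Fintype.card_fin, nsmul_eq_mul]
  have hb0 : (b : ℝ) ≠ 0 := by positivity
  have e1 : ((34 * b : ℕ) : ℝ) * (((36 * b).factorial : ℝ) / (36 * b)) = 17 / 18 * ((36 * b).factorial : ℝ) := by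
    push_cast
    field_simp
    ring
  have e2 : 2 * (b : ℝ) ^ 3 * (((36 * b).factorial : ℝ) / (27 * (b : ℝ) ^ 3)) = 2 / 27 * ((36 * b).factorial : ℝ) := by
    field_simp
  rw [e2] at s2
  rw [e1]
  linarith

/-- acting on one arm -/
noncomputable def act (M : ℕ) (l : Bool) (ρ : Equiv.Perm B) : Equiv.Perm (Fin M ⊕ (Bool × B)) :=
  Equiv.sumCongr (Equiv.refl _)
    ((Equiv.refl Bool).prodShear fun l' => if l' = l then ρ else Equiv.refl B)

theorem act_inl (M : ℕ) (l : Bool) (ρ : Equiv.Perm B) (j : Fin M) :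
    act M l ρ (Sum.inl j) = Sum.inl j := rfl

theorem act_inr (M : ℕ) (l : Bool) (ρ : Equiv.Perm B) (l' : Bool) (x : B) :
    act M l ρ (Sum.inr (l', x)) = Sum.inr (l', (if l' = l then ρ else Equiv.refl B) x) := rfl

theorem AA_act (M : ℕ) (l : Bool) (ρ : Equiv.Perm B) (τ : Fin M ⊕ (Bool × B) → ℕ) :
    AA l (τ ∘ act M l ρ) ↔ AA l τ := by
  unfold AA
  simp only [Function.comp_apply, act_inl, act_inr]
  constructor
  · rintro ⟨j, h1, h2⟩
    refine ⟨j, fun l' y => ?_, fun j' hj' => ?_⟩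
    · have := h1 l' ((if l' = l then ρ else Equiv.refl B).symm y)
      rwa [Equiv.apply_symm_apply] at this
    · obtain ⟨y, hy⟩ := h2 j' hj'
      exact ⟨_, hy⟩
  · rintro ⟨j, h1, h2⟩
    refine ⟨j, fun l' y => h1 _ _, fun j' hj' => ?_⟩
    obtain ⟨y, hy⟩ := h2 j' hj'
    refine ⟨ρ.symm y, ?_⟩
    simp only [if_true]
    rwa [Equiv.apply_symm_apply]

end step

theorem sum_NN (m : ℕ) : ∀ τ0 : PP m → ℕ, Function.Injective τ0 →
    (55 / 54 : ℝ) ^ m * ((Fintype.card (PP m)).factorial : ℝ) ≤ ∑ ρ : Equiv.Perm (PP m), (NN m (τ0 ∘ ρ) : ℝ) := by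
  induction m with
  | zero =>
    intro τ0 _
    simp only [NN, Nat.cast_one, pow_zero, one_mul, sum_const, card_univ, Fintype.card_perm,
      nsmul_eq_mul, mul_one]
    exact le_rfl
  | succ m ih =>
    intro τ0 hτ0
    have h1 := fun l : Bool => sum_step (Q := PP (m + 1)) (B := PP m) (AA (B := PP m) l)
      (fun x => (Sum.inr (l, x) : Fin (34 * 36 ^ m) ⊕ (Bool × PP m)))
      (fun x x' h => (Prod.mk.inj (Sum.inr_injective h)).2)
      (act (B := PP m) (34 * 36 ^ m) l) (fun ρ τ => AA_act _ l ρ τ)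
      (fun ρ x => (act_inr (B := PP m) (34 * 36 ^ m) l ρ l x).trans (by rw [if_pos rfl])) (NN m) ((55 / 54 : ℝ) ^ m) ih τ0 hτ0
    have h2 := count_AA (B := PP m) (b := 36 ^ m) (Nat.one_le_pow _ _ (by norm_num)) (card_PP m) τ0 hτ0
    have h3 : ∑ ρ : Equiv.Perm (PP (m + 1)), (NN (m + 1) (τ0 ∘ ρ) : ℝ)
        = ∑ π : Equiv.Perm (PP (m + 1)),
          (((if AA (B := PP m) true (τ0 ∘ π) then NN m (fun x => τ0 (π (Sum.inr (true, x)))) else 0 : ℕ)) : ℝ)
        + ∑ π : Equiv.Perm (PP (m + 1)),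
          (((if AA (B := PP m) false (τ0 ∘ π) then NN m (fun x => τ0 (π (Sum.inr (false, x)))) else 0 : ℕ)) : ℝ) := by
      rw [← sum_add_distrib]
      refine sum_congr rfl fun π _ => ?_
      simp only [NN, Fintype.sum_bool]
      push_cast
      rfl
    rw [h3]
    refine le_trans ?_ (add_le_add (h1 true) (h1 false))
    rw [← mul_add]
    have h4 := mul_le_mul_of_nonneg_left h2 (show (0 : ℝ) ≤ (55 / 54 : ℝ) ^ m by positivity)
    refine le_trans (le_of_eq ?_) h4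
    rw [card_PP, pow_succ (36 : ℕ), mul_comm (36 ^ m) 36, pow_succ]
    ring

end Pool.Agent.V11327.NT
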