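import Mathlib

/-! Nearest neighbour trees and covered vertices. -/

set_option autoImplicit false

namespace Pool.Agent.V11327.NT

variable {X : Type} [PseudoMetricSpace X] {n : ℕ}

/-- `j` is the parent of `i` in the nearest neighbour tree of the sequence `y`: the smallest of the
indices `j < i` that minimise `dist (y i) (y j)`. -/
def IsParent (y : Fin n → X) (i j : Fin n) : Prop :=
  j < i ∧ (∀ k, k < i → dist (y i) (y j) ≤ dist (y i) (y k)) ∧
    ∀ k, k < j → dist (y i) (y j) < dist (y i) (y k)

/-- adjacency in the tree -/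
def Adj (y : Fin n → X) (p q : Fin n) : Prop := IsParent y p q ∨ IsParent y q p

/-- `x` is directly covered: its parent `p` has a neighbour `q ≠ x` with
`dist (y x) (y p) < dist (y p) (y q)` and `dist (y x) (y q) < dist (y p) (y q)`. -/
def DirCov (y : Fin n → X) (x : Fin n) : Prop :=
  ∃ p, IsParent y x p ∧ ∃ q, q ≠ x ∧ Adj y p q ∧
    dist (y x) (y p) < dist (y p) (y q) ∧ dist (y x) (y q) < dist (y p) (y q)

/-- covered: directly covered, or descending from a directly covered vertex -/
inductive Cov (y : Fin n → X) : Fin n → Prop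
  | direct (x : Fin n) : DirCov y x → Cov y x
  | desc (x p : Fin n) : IsParent y x p → Cov y p → Cov y x

/-- number of uncovered vertices -/
noncomputable def numUnc (y : Fin n → X) : ℕ := Set.ncard {x | ¬ Cov y x}

section scaling
variable {X' : Type} [PseudoMetricSpace X'] {y : Fin n → X} {y' : Fin n → X'} {s : ℝ}

theorem isParent_scale (hs : 0 < s) (h : ∀ i j, dist (y' i) (y' j) = s * dist (y i) (y j))
    (i j : Fin n) : IsParent y' i j ↔ IsParent y i j := by
  unfold IsParent
  simp only [h, mul_le_mul_iff_right₀ hs, mul_lt_mul_iff_right₀ hs]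

theorem dirCov_scale (hs : 0 < s) (h : ∀ i j, dist (y' i) (y' j) = s * dist (y i) (y j))
    (x : Fin n) : DirCov y' x ↔ DirCov y x := by
  unfold DirCov Adj
  simp only [isParent_scale hs h, h, mul_lt_mul_iff_right₀ hs]

theorem cov_scale (hs : 0 < s) (h : ∀ i j, dist (y' i) (y' j) = s * dist (y i) (y j))
    (x : Fin n) : Cov y' x ↔ Cov y x := by
  constructor
  · intro hc
    induction hc with
    | direct x hx => exact Cov.direct x ((dirCov_scale hs h x).1 hx)
    | desc x p hp _ ih => exact Cov.desc x p ((isParent_scale hs h x p).1 hp) ih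
  · intro hc
    induction hc with
    | direct x hx => exact Cov.direct x ((dirCov_scale hs h x).2 hx)
    | desc x p hp _ ih => exact Cov.desc x p ((isParent_scale hs h x p).2 hp) ih

theorem numUnc_scale (hs : 0 < s) (h : ∀ i j, dist (y' i) (y' j) = s * dist (y i) (y j)) :
    numUnc y' = numUnc y := by
  unfold numUnc
  simp only [cov_scale hs h]

end scaling

/-! ### The point sets -/

/-- index type of the point sets: a hub and two arms -/
def PP : ℕ → Type
  | 0 => Unit
  | m + 1 => Fin (34 * 36 ^ m) ⊕ (Bool × PP m)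

instance instFintypePP : ∀ m, Fintype (PP m)
  | 0 => inferInstanceAs (Fintype Unit)
  | m + 1 => by
    haveI := instFintypePP m
    exact inferInstanceAs (Fintype (Fin (34 * 36 ^ m) ⊕ (Bool × PP m)))

theorem card_PP (m : ℕ) : Fintype.card (PP m) = 36 ^ m := by
  induction m with
  | zero => exact Fintype.card_unit
  | succ m ih =>
    have : Fintype.card (PP (m + 1)) = Fintype.card (Fin (34 * 36 ^ m) ⊕ (Bool × PP m)) := rfl
    rw [this, Fintype.card_sum, Fintype.card_prod, Fintype.card_fin, Fintype.card_bool, ih, pow_succ]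
    ring

/-- arm directions -/
noncomputable def uu (l : Bool) : ℂ := if l then ⟨3 / 5, 4 / 5⟩ else ⟨3 / 5, -(4 / 5)⟩

/-- positions -/
noncomputable def pos : (m : ℕ) → PP m → ℂ
  | 0, _ => 0
  | m + 1, Sum.inl j => (((j : ℕ) : ℝ) / (100 * (34 * 36 ^ m)) : ℝ)
  | m + 1, Sum.inr (l, p) => uu l * (1 + (1 / 100 : ℝ) * pos m p)

/-- `T l τ`: some hub point precedes all arm points, and every higher hub point comes after some
point of the arm `l` -/
def AA {M : ℕ} {B : Type} (l : Bool) (τ : Fin M ⊕ (Bool × B) → ℕ) : Prop :=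
  ∃ j : Fin M, (∀ l' b, τ (Sum.inl j) < τ (Sum.inr (l', b))) ∧
    ∀ j' : Fin M, j < j' → ∃ b, τ (Sum.inr (l, b)) < τ (Sum.inl j')

open Classical in
/-- the recursive lower bound for the number of uncovered points -/
noncomputable def NN : (m : ℕ) → (PP m → ℕ) → ℕ
  | 0, _ => 1
  | m + 1, τ => ∑ l : Bool, if AA (B := PP m) l τ then NN m (fun p => τ (Sum.inr (l, p))) else 0

end Pool.Agent.V11327.NT
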