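import Pool.Agent.V11327.NTgeo
import Pool.Agent.V11327.NTcomb

/-! Superpolylogarithmic growth of the number of uncovered vertices on the 2-torus. -/

set_option autoImplicit false

namespace Pool.Agent.V11327.NT

open Filter Topology

/-- the torus `ℝ^d / ℤ^d` with the metric induced by the Euclidean norm -/
abbrev Torus (d : ℕ) : Type := PiLp 2 (fun _ : Fin d => UnitAddCircle)

/-- embedding a piece of the plane -/
noncomputable def emb (z : ℂ) : Torus 2 :=
  WithLp.toLp 2 ![((z.re / 8 : ℝ) : UnitAddCircle), ((z.im / 8 : ℝ) : UnitAddCircle)]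

theorem dist_circle {a b : ℝ} (h : |a - b| ≤ 4) :
    dist ((a / 8 : ℝ) : UnitAddCircle) ((b / 8 : ℝ) : UnitAddCircle) = |a - b| / 8 := by
  rw [dist_eq_norm]
  have e : ((a / 8 : ℝ) : UnitAddCircle) - ((b / 8 : ℝ) : UnitAddCircle) = (((a - b) / 8 : ℝ) : UnitAddCircle) := by
    rw [← AddCircle.coe_sub]; congr 1; ring
  rw [e]
  have h1 : |(a - b) / 8| = |a - b| / 8 := by rw [abs_div]; norm_num
  rw [← h1]
  apply (AddCircle.norm_coe_eq_abs_iff (p := (1 : ℝ)) one_ne_zero).2
  rw [h1, abs_one]
  linarith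

theorem dist_emb {z w : ℂ} (hz : ‖z‖ ≤ 2) (hw : ‖w‖ ≤ 2) : dist (emb z) (emb w) = 1 / 8 * dist z w := by
  have h1 := abs_le.1 ((Complex.abs_re_le_norm z).trans hz)
  have h2 := abs_le.1 ((Complex.abs_im_le_norm z).trans hz)
  have h3 := abs_le.1 ((Complex.abs_re_le_norm w).trans hw)
  have h4 := abs_le.1 ((Complex.abs_im_le_norm w).trans hw)
  have e1 : |z.re - w.re| ≤ 4 := by rw [abs_le]; constructor <;> linarith [h1.1, h1.2, h3.1, h3.2]
  have e2 : |z.im - w.im| ≤ 4 := by rw [abs_le]; constructor <;> linarith [h2.1, h2.2, h4.1, h4.2]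
  rw [PiLp.dist_eq_of_L2, Fin.sum_univ_two]
  unfold emb
  simp only [Matrix.cons_val_zero, Matrix.cons_val_one]
  rw [dist_circle e1, dist_circle e2]
  have h5 : (|z.re - w.re| / 8) ^ 2 + (|z.im - w.im| / 8) ^ 2 = (1 / 8 * dist z w) ^ 2 := by
    rw [mul_pow, sq_dist, div_pow, div_pow, sq_abs, sq_abs]; ring
  rw [h5, Real.sqrt_sq (by positivity)]

theorem pos_injective (m : ℕ) : Function.Injective (pos m) := by
  induction m with
  | zero => intro p q _; exact Subsingleton.elim (α := Unit) p q
  | succ m ih =>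
    intro p q h
    rcases p with i | ⟨l, p⟩ <;> rcases q with j | ⟨l', q⟩
    · rw [pos_hub, pos_hub] at h
      have h1 : hx m i = hx m j := by exact_mod_cast h
      rcases lt_trichotomy i j with h2 | h2 | h2
      · have := hx_mono h2; linarith
      · rw [h2]
      · have := hx_mono h2; linarith
    · have h1 := armPt_pos m l' q
      rw [← h, pos_hub] at h1
      have h2 := h1.1
      have h3 := hx_lt m i
      rw [Complex.ofReal_re] at h2
      linarith
    · have h1 := armPt_pos m l p
      rw [h, pos_hub] at h1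
      have h2 := h1.1
      have h3 := hx_lt m j
      rw [Complex.ofReal_re] at h2
      linarith
    · by_cases hl : l = l'
      · subst hl
        simp only [pos] at h
        have h1 := mul_left_cancel₀ (uu_ne l) h
        have h2 := add_left_cancel h1
        have h3 : pos m p = pos m q := by
          refine mul_left_cancel₀ ?_ h2
          norm_num
        rw [ih h3]
      · have h1 := arm_arm hl (armPt_pos m l p) (armPt_pos m l' q)
        rw [h, dist_self] at h1
        norm_num at h1

/-- the average number of uncovered vertices over a random insertion order -/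
noncomputable def avgUnc {X : Type} [PseudoMetricSpace X] {n : ℕ} (x : Fin n → X) : ℝ :=
  (∑ σ : Equiv.Perm (Fin n), (numUnc (fun i => x (σ i)) : ℝ)) / (n.factorial : ℝ)

theorem lower (m : ℕ) : ∃ x : Fin (36 ^ m) → Torus 2, Function.Injective x ∧
    (55 / 54 : ℝ) ^ m ≤ avgUnc x := by
  classical
  set e : PP m ≃ Fin (36 ^ m) := Fintype.equivFinOfCardEq (card_PP m) with he
  refine ⟨fun i => emb (pos m (e.symm i)), ?_, ?_⟩
  · intro i j h
    have h1 := dist_emb (norm_pos_le m (e.symm i)) (norm_pos_le m (e.symm j))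
    have h2 : dist (emb (pos m (e.symm i))) (emb (pos m (e.symm j))) = 0 := by
      have h' : emb (pos m (e.symm i)) = emb (pos m (e.symm j)) := h
      rw [h', dist_self]
    rw [h2] at h1
    have h3 : dist (pos m (e.symm i)) (pos m (e.symm j)) = 0 := by linarith
    exact e.symm.injective (pos_injective m (dist_eq_zero.1 h3))
  · unfold avgUnc
    rw [le_div_iff₀ (by positivity)]
    have h1 := sum_NN m (fun p => ((e p : Fin (36 ^ m)) : ℕ)) (by
      intro p q h
      exact e.injective (Fin.ext h))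
    rw [card_PP] at h1
    refine h1.trans ?_
    have hre : ∑ ρ : Equiv.Perm (PP m), (NN m ((fun p => ((e p : Fin (36 ^ m)) : ℕ)) ∘ ρ) : ℝ)
        = ∑ σ : Equiv.Perm (Fin (36 ^ m)), (NN m (fun p => ((σ.symm (e p) : Fin (36 ^ m)) : ℕ)) : ℝ) := by
      symm
      refine Fintype.sum_equiv ((Equiv.inv (Equiv.Perm (Fin (36 ^ m)))).trans (Equiv.permCongr e.symm)) _ _ ?_
      intro σ
      congr 2
      funext p
      simp [Equiv.permCongr_apply, Equiv.Perm.inv_def]
    rw [hre]
    refine Finset.sum_le_sum fun σ _ => ?_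
    have hscale : numUnc (fun i => emb (pos m (e.symm (σ i)))) = numUnc (fun i => pos m (e.symm (σ i))) :=
      numUnc_scale (s := 1 / 8) (by norm_num) fun i j => dist_emb (norm_pos_le m _) (norm_pos_le m _)
    rw [hscale]
    have hpos : 0 < 36 ^ m := by positivity
    have hsurj : ∀ z : Fin (36 ^ m), ∃ p, σ.symm (e p) = z := fun z => ⟨e.symm (σ z), by simp⟩
    obtain ⟨c, hc⟩ := hsurj ⟨0, hpos⟩
    have hnopar : ∀ q, ¬ IsParent (fun i => pos m (e.symm (σ i))) (σ.symm (e c)) q := by
      intro q hq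
      have h2 : q < σ.symm (e c) := hq.1
      rw [hc] at h2
      have h3 : (q : ℕ) < 0 := h2
      omega
    have h2 := geo m (36 ^ m) (fun i => pos m (e.symm (σ i))) (fun p => σ.symm (e p))
      (σ.symm.injective.comp e.injective) (fun p => by simp) (fun z hz => absurd (hsurj z) (by
        rintro ⟨p, hp⟩; exact hz ⟨p, hp⟩)) (fun z _ hz => absurd (hsurj z) (by
        rintro ⟨p, hp⟩; exact absurd ⟨p, hp⟩ hz)) c (fun p => by
          rw [hc, Fin.le_def]; exact Nat.zero_le _) (fun hcov => by
          cases hcov with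
          | direct _ h => obtain ⟨p, hp, _⟩ := h; exact hnopar p hp
          | desc _ p hp _ => exact hnopar p hp) (fun q hq => absurd hq (hnopar q))
    have h3 : Set.ncard {x | x ∈ Set.range (fun p => σ.symm (e p)) ∧ ¬ Cov (fun i => pos m (e.symm (σ i))) x}
        = numUnc (fun i => pos m (e.symm (σ i))) := by
      unfold numUnc
      congr 1
      ext x
      constructor
      · rintro ⟨_, h⟩; exact h
      · intro h; exact ⟨hsurj x, h⟩
    rw [h3] at h2
    exact_mod_cast h2

/-- For `d = 2` the expected number of uncovered vertices under a random insertion order is not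
bounded by any power of the logarithm, uniformly over point sets. -/
theorem main (C k : ℝ) : ∃ (n : ℕ) (x : Fin n → Torus 2), 2 ≤ n ∧ Function.Injective x ∧
    C * Real.log n ^ k < avgUnc x := by
  set K : ℕ := ⌈k⌉₊ with hK
  have hkK : k ≤ K := Nat.le_ceil k
  have h1 : Tendsto (fun m : ℕ => (m : ℝ) ^ K / (55 / 54 : ℝ) ^ m) atTop (𝓝 0) :=
    tendsto_pow_const_div_const_pow_of_one_lt K (by norm_num)
  have h2 : Tendsto (fun m : ℕ => |C| * Real.log 36 ^ K * ((m : ℝ) ^ K / (55 / 54 : ℝ) ^ m)) atTop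
      (𝓝 (|C| * Real.log 36 ^ K * 0)) := tendsto_const_nhds.mul h1
  rw [mul_zero] at h2
  obtain ⟨m, hm, hm1⟩ := ((h2.eventually_lt_const (show (0 : ℝ) < 1 by norm_num)).and
    (eventually_ge_atTop 1)).exists
  obtain ⟨x, hx, hlow⟩ := lower m
  refine ⟨36 ^ m, x, ?_, hx, lt_of_lt_of_le ?_ hlow⟩
  · calc 2 ≤ 36 ^ 1 := by norm_num
      _ ≤ 36 ^ m := Nat.pow_le_pow_right (by norm_num) hm1
  · have hm1R : (1 : ℝ) ≤ m := by exact_mod_cast hm1
    have hlog36 : 1 ≤ Real.log 36 := by
      rw [Real.le_log_iff_exp_le (by norm_num)]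
      have := Real.exp_one_lt_d9
      linarith
    have hlog : Real.log ((36 ^ m : ℕ) : ℝ) = m * Real.log 36 := by
      push_cast; rw [Real.log_pow]
    rw [hlog]
    have hge : 1 ≤ (m : ℝ) * Real.log 36 := by nlinarith
    have h3 : ((m : ℝ) * Real.log 36) ^ k ≤ ((m : ℝ) * Real.log 36) ^ K := by
      rw [← Real.rpow_natCast]
      exact Real.rpow_le_rpow_of_exponent_le hge hkK
    have h4 : (0 : ℝ) ≤ ((m : ℝ) * Real.log 36) ^ k := Real.rpow_nonneg (by linarith) _
    have h5 : C * ((m : ℝ) * Real.log 36) ^ k ≤ |C| * ((m : ℝ) * Real.log 36) ^ K :=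
      (mul_le_mul_of_nonneg_right (le_abs_self C) h4).trans
        (mul_le_mul_of_nonneg_left h3 (abs_nonneg C))
    refine lt_of_le_of_lt h5 ?_
    have h6 : (0 : ℝ) < (55 / 54 : ℝ) ^ m := by positivity
    have h7 : |C| * Real.log 36 ^ K * ((m : ℝ) ^ K / (55 / 54 : ℝ) ^ m)
        = |C| * ((m : ℝ) * Real.log 36) ^ K / (55 / 54 : ℝ) ^ m := by
      rw [mul_pow]; ring
    rw [h7, div_lt_one h6] at hm
    exact hm

end Pool.Agent.V11327.NT
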