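import Pool.Agent.V11327.NTdefs

/-! The geometric induction. -/

set_option autoImplicit false

namespace Pool.Agent.V11327.NT

/-- real coordinate of a hub point -/
noncomputable def hx (m : ℕ) (j : Fin (34 * 36 ^ m)) : ℝ := ((j : ℕ) : ℝ) / (100 * (34 * 36 ^ m))

theorem hx_nonneg (m : ℕ) (j : Fin (34 * 36 ^ m)) : 0 ≤ hx m j := by unfold hx; positivity

theorem hx_lt (m : ℕ) (j : Fin (34 * 36 ^ m)) : hx m j < 1 / 100 := by
  unfold hx
  rw [div_lt_div_iff₀ (by positivity) (by norm_num)]
  have : ((j : ℕ) : ℝ) < 34 * 36 ^ m := by exact_mod_cast j.2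
  linarith

theorem hx_mono {m : ℕ} {i j : Fin (34 * 36 ^ m)} (h : i < j) : hx m i < hx m j := by
  unfold hx
  apply div_lt_div_of_pos_right _ (by positivity)
  exact_mod_cast h

theorem pos_hub (m : ℕ) (j : Fin (34 * 36 ^ m)) : pos (m + 1) (Sum.inl j) = (hx m j : ℂ) := by
  simp only [pos, hx]

/-- sign of an arm -/
noncomputable def sg (l : Bool) : ℝ := if l then 1 else -1

/-- the region of an arm -/
def ArmPt (l : Bool) (x : ℂ) : Prop :=
  57 / 100 ≤ x.re ∧ x.re ≤ 63 / 100 ∧ 77 / 100 ≤ sg l * x.im ∧ sg l * x.im ≤ 83 / 100

theorem armPt_of {l : Bool} {w : ℂ} (hw : ‖w‖ ≤ 2) : ArmPt l (uu l * (1 + (1 / 100 : ℝ) * w)) := by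
  have h1 := abs_le.1 ((Complex.abs_re_le_norm w).trans hw)
  have h2 := abs_le.1 ((Complex.abs_im_le_norm w).trans hw)
  obtain ⟨a, b⟩ := h1
  obtain ⟨c, d⟩ := h2
  unfold ArmPt sg uu
  cases l
  · simp only [Bool.false_eq_true, if_false, Complex.mul_re, Complex.mul_im, Complex.add_re,
      Complex.add_im, Complex.one_re, Complex.one_im, Complex.ofReal_re, Complex.ofReal_im]
    refine ⟨?_, ?_, ?_, ?_⟩ <;> linarith
  · simp only [if_true, Complex.mul_re, Complex.mul_im, Complex.add_re,
      Complex.add_im, Complex.one_re, Complex.one_im, Complex.ofReal_re, Complex.ofReal_im]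
    refine ⟨?_, ?_, ?_, ?_⟩ <;> linarith

theorem norm_uu (l : Bool) : ‖uu l‖ = 1 := by
  have h : ‖uu l‖ ^ 2 = 1 := by
    rw [Complex.sq_norm, Complex.normSq_apply]
    unfold uu
    cases l <;> norm_num
  have h0 := norm_nonneg (uu l)
  nlinarith

theorem uu_ne (l : Bool) : uu l ≠ 0 := by
  intro h
  have := norm_uu l
  rw [h, norm_zero] at this
  norm_num at this

theorem norm_pos_le (m : ℕ) (p : PP m) : ‖pos m p‖ ≤ 2 := by
  induction m with
  | zero => simp [pos]
  | succ m ih =>
    rcases p with j | ⟨l, p⟩
    · rw [pos_hub, Complex.norm_real, Real.norm_of_nonneg (hx_nonneg m j)]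
      have := hx_lt m j
      linarith
    · simp only [pos]
      rw [norm_mul, norm_uu, one_mul]
      refine (norm_add_le _ _).trans ?_
      rw [norm_one, norm_mul, Complex.norm_real, Real.norm_of_nonneg (by norm_num)]
      have := ih p
      linarith

theorem armPt_pos (m : ℕ) (l : Bool) (p : PP m) : ArmPt l (pos (m + 1) (Sum.inr (l, p))) := by
  simp only [pos]
  exact armPt_of (norm_pos_le m p)

theorem sq_dist (z w : ℂ) : dist z w ^ 2 = (z.re - w.re) ^ 2 + (z.im - w.im) ^ 2 := by
  rw [Complex.dist_eq, Complex.sq_norm, Complex.normSq_apply, Complex.sub_re, Complex.sub_im]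
  ring

theorem dist_lt_of_sq {z w z' w' : ℂ}
    (h : (z.re - w.re) ^ 2 + (z.im - w.im) ^ 2 < (z'.re - w'.re) ^ 2 + (z'.im - w'.im) ^ 2) :
    dist z w < dist z' w' := by
  rw [← sq_dist, ← sq_dist] at h
  exact lt_of_pow_lt_pow_left₀ 2 dist_nonneg h

theorem dist_hub (a b : ℝ) : dist (a : ℂ) (b : ℂ) = |a - b| := by
  rw [Complex.dist_eq, ← Complex.ofReal_sub, Complex.norm_real, Real.norm_eq_abs]

theorem sg_sq (l : Bool) : sg l * sg l = 1 := by unfold sg; cases l <;> norm_num
theorem sg_neg {l l' : Bool} (h : l ≠ l') : sg l' = - sg l := by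
  unfold sg; cases l <;> cases l' <;> simp_all

/-- hub point versus arm point -/
theorem arm_hub_bounds {l : Bool} {x : ℂ} {h : ℝ} (hx : ArmPt l x) (h0 : 0 ≤ h) (h1 : h < 1 / 100) :
    dist x (h : ℂ) < 105 / 100 ∧ 95 / 100 < dist x (h : ℂ) := by
  obtain ⟨a, b, c, d⟩ := hx
  have hs := sq_dist x (h : ℂ)
  rw [Complex.ofReal_re, Complex.ofReal_im, sub_zero] at hs
  have him : x.im ^ 2 = (sg l * x.im) ^ 2 := by rw [mul_pow, sq (sg l), sg_sq, one_mul]
  rw [him] at hs
  have hd := dist_nonneg (x := x) (y := (h : ℂ))
  have e1 : (x.re - h) ^ 2 ≤ (63 / 100) ^ 2 := pow_le_pow_left₀ (by linarith) (by linarith) 2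
  have e2 : (56 / 100) ^ 2 ≤ (x.re - h) ^ 2 := pow_le_pow_left₀ (by norm_num) (by linarith) 2
  have e3 : (sg l * x.im) ^ 2 ≤ (83 / 100) ^ 2 := pow_le_pow_left₀ (by linarith) d 2
  have e4 : (77 / 100) ^ 2 ≤ (sg l * x.im) ^ 2 := pow_le_pow_left₀ (by norm_num) c 2
  constructor
  · refine lt_of_pow_lt_pow_left₀ 2 (by norm_num) ?_
    rw [hs]; norm_num at e1 e3 ⊢; linarith
  · refine lt_of_pow_lt_pow_left₀ 2 hd ?_
    rw [hs]; norm_num at e2 e4 ⊢; linarith

/-- points of different arms -/
theorem arm_arm {l l' : Bool} (hl : l ≠ l') {x x' : ℂ} (hx : ArmPt l x) (hx' : ArmPt l' x') :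
    154 / 100 ≤ dist x x' := by
  obtain ⟨_, _, c, _⟩ := hx
  obtain ⟨_, _, c', _⟩ := hx'
  rw [sg_neg hl] at c'
  have h1 : |x.im - x'.im| ≤ dist x x' := by
    rw [Complex.dist_eq, ← Complex.sub_im]; exact Complex.abs_im_le_norm _
  have h2 : 154 / 100 ≤ sg l * (x.im - x'.im) := by linarith
  have h3 : sg l * (x.im - x'.im) ≤ |x.im - x'.im| := by
    unfold sg
    cases l
    · simp only [Bool.false_eq_true, if_false]; have := neg_abs_le (x.im - x'.im); linarith
    · simp only [if_true]; have := le_abs_self (x.im - x'.im); linarith
  linarith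

/-- higher hub points are closer to the arms -/
theorem arm_hub_mono {l : Bool} {x : ℂ} {h h' : ℝ} (hx : ArmPt l x) (h1 : h' < 1 / 100) (hh : h < h') :
    dist x (h' : ℂ) < dist x (h : ℂ) := by
  obtain ⟨a, _, _, _⟩ := hx
  apply dist_lt_of_sq
  simp only [Complex.ofReal_re, Complex.ofReal_im]
  nlinarith

/-- far to the left -/
def Far (q : ℂ) : Prop := q.re ≤ -50 ∧ |q.im| ≤ 2

theorem far_hub {q : ℂ} (hq : Far q) {h h' : ℝ} (h0 : 0 ≤ h) (hh : h < h') :
    dist (h : ℂ) q < dist (h' : ℂ) q := by
  apply dist_lt_of_sq
  simp only [Complex.ofReal_re, Complex.ofReal_im]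
  have := hq.1
  nlinarith

theorem far_arm {q : ℂ} (hq : Far q) {h : ℝ} (h0 : 0 ≤ h) (h1 : h < 1 / 100) {l : Bool} {x : ℂ}
    (hx : ArmPt l x) : dist (h : ℂ) q < dist x q := by
  obtain ⟨a, b, c, d⟩ := hx
  obtain ⟨e, f⟩ := hq
  apply dist_lt_of_sq
  simp only [Complex.ofReal_re, Complex.ofReal_im]
  have him : |x.im| ≤ 83 / 100 := by
    have h3 : |x.im| = |sg l * x.im| := by
      rw [abs_mul]; unfold sg; cases l <;> simp
    rw [h3, abs_le]; constructor <;> linarith
  have hxq : |x.im * q.im| ≤ 83 / 100 * 2 := by
    rw [abs_mul]; exact mul_le_mul him f (abs_nonneg _) (by norm_num)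
  have hxq' := abs_le.1 hxq
  nlinarith [sq_nonneg x.im]

theorem geo (m : ℕ) : ∀ (n : ℕ) (y : Fin n → ℂ) (ι : PP m → Fin n), Function.Injective ι →
    (∀ p, y (ι p) = pos m p) → (∀ z, z ∉ Set.range ι → 50 ≤ ‖y z‖) →
    (∀ z p, z ∉ Set.range ι → ¬ IsParent y z (ι p)) →
    ∀ c : PP m, (∀ p, ι c ≤ ι p) → ¬ Cov y (ι c) → (∀ q, IsParent y (ι c) q → Far (y q)) →
    NN m (fun p => ((ι p : Fin n) : ℕ)) ≤ Set.ncard {x | x ∈ Set.range ι ∧ ¬ Cov y x} := by
  induction m with
  | zero =>
    intro n y ι hι hy sep iso c hc unc far
    simp only [NN]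
    exact (Set.ncard_pos (Set.toFinite _)).2 ⟨ι c, ⟨c, rfl⟩, unc⟩
  | succ m ihm =>
    intro n y ι hι hy sep iso c hc unc far
    set H : Fin (34 * 36 ^ m) → Fin n := fun j => ι (Sum.inl j) with hH
    set A : Bool → PP m → Fin n := fun l p => ι (Sum.inr (l, p)) with hA
    have yH : ∀ j, y (H j) = (hx m j : ℂ) := fun j => by
      rw [hH]; simp only; rw [hy, pos_hub]
    have yA : ∀ l p, ArmPt l (y (A l p)) := fun l p => by
      rw [hA]; simp only; rw [hy]; exact armPt_pos m l p
    have Hinj : ∀ i j, H i = H j → i = j := fun i j h => Sum.inl_injective (hι h)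
    have HA : ∀ j l p, H j ≠ A l p := fun j l p h => by
      have := hι h
      simp at this
    have hrange : ∀ z, z ∈ Set.range ι → (∃ j, z = H j) ∨ ∃ l p, z = A l p := by
      rintro z ⟨p, rfl⟩
      rcases p with j | ⟨l, p⟩
      · exact Or.inl ⟨j, rfl⟩
      · exact Or.inr ⟨l, p, rfl⟩
    have dH : ∀ i j, dist (y (H i)) (y (H j)) < 1 / 100 := fun i j => by
      rw [yH, yH, dist_hub, abs_lt]
      have a := hx_nonneg m i; have b := hx_lt m i
      have c := hx_nonneg m j; have d := hx_lt m j
      constructor <;> linarith
    have dHA : ∀ j l p, dist (y (A l p)) (y (H j)) < 105 / 100 ∧ 95 / 100 < dist (y (A l p)) (y (H j)) := by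
      intro j l p
      rw [yH]
      exact arm_hub_bounds (yA l p) (hx_nonneg m j) (hx_lt m j)
    -- points outside the cluster are far away
    have dout : ∀ z, z ∉ Set.range ι → ∀ p, 48 ≤ dist (y (ι p)) (y z) := by
      intro z hz p
      have h1 := sep z hz
      have h2 := norm_pos_le (m + 1) p
      rw [hy, dist_eq_norm]
      have h3 : ‖y z‖ ≤ ‖pos (m + 1) p - y z‖ + ‖pos (m + 1) p‖ := by
        have := norm_sub_norm_le (y z) (pos (m + 1) p)
        rw [norm_sub_rev (y z)] at this
        linarith
      linarith
    -- parents of hub points that are records before the arms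
    have hubpar' : ∀ j, (∀ j', j < j' → H j < H j') → (∀ l p, H j < A l p) → H j ≠ ι c →
        ∀ q, IsParent y (H j) q → ∃ j', j' < j ∧ q = H j' ∧ (∀ j'', j' < j'' → H j' < H j'') ∧
          (∀ l p, H j' < A l p) := by
      intro j r1 r2 hne q hq
      obtain ⟨hq1, hq2, -⟩ := hq
      have hclt : ι c < H j := lt_of_le_of_ne (hc _) (Ne.symm hne)
      obtain ⟨j0, hj0⟩ : ∃ j0, ι c = H j0 := by
        rcases hrange (ι c) ⟨c, rfl⟩ with h | ⟨l, p, h⟩
        · exact h
        · exact absurd (h ▸ hclt) (not_lt.2 (r2 l p).le)
      rw [hj0] at hclt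
      have hmin : dist (y (H j)) (y q) < 1 / 100 := lt_of_le_of_lt (hq2 _ hclt) (dH _ _)
      by_cases hqr : q ∈ Set.range ι
      · rcases hrange q hqr with ⟨j', rfl⟩ | ⟨l, p, rfl⟩
        · have hj'j : j' < j := by
            rcases lt_trichotomy j' j with h | h | h
            · exact h
            · subst h; exact absurd hq1 (lt_irrefl _)
            · exact absurd (r1 j' h) (not_lt.2 hq1.le)
          refine ⟨j', hj'j, rfl, ?_, fun l p => hq1.trans (r2 l p)⟩
          intro j'' hj''
          by_contra hcon
          have h1 : H j'' < H j' := lt_of_le_of_ne (not_lt.1 hcon) fun h => hj''.ne' (Hinj _ _ h)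
          have h2 : H j'' < H j := h1.trans hq1
          have h3 : j'' < j := by
            rcases lt_trichotomy j'' j with h | h | h
            · exact h
            · subst h; exact absurd h2 (lt_irrefl _)
            · exact absurd (r1 j'' h) (not_lt.2 h2.le)
          have h4 := hq2 _ h2
          rw [yH, yH, yH, dist_hub, dist_hub] at h4
          have e1 := hx_mono hj''
          have e2 := hx_mono h3
          rw [abs_of_pos (by linarith), abs_of_pos (by linarith)] at h4
          linarith
        · exact absurd (r2 l p) (not_lt.2 hq1.le)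
      · have := dout q hqr (Sum.inl j)
        have h5 : dist (y (H j)) (y q) = dist (y (ι (Sum.inl j))) (y q) := rfl
        linarith
    have hubpar : ∀ j, (∀ j', j < j' → H j < H j') → (∀ l p, H j < A l p) →
        ∀ q, IsParent y (H j) q → Far (y q) ∨ ∃ j', j' < j ∧ q = H j' := by
      intro j r1 r2 q hq
      by_cases h : H j = ι c
      · left; rw [h] at hq; exact far q hq
      · right
        obtain ⟨j', h1, h2, _⟩ := hubpar' j r1 r2 h q hq
        exact ⟨j', h1, h2⟩
    -- such hub points are uncovered
    have hubunc : ∀ N : ℕ, ∀ j, ((H j : Fin n) : ℕ) ≤ N → (∀ j', j < j' → H j < H j') →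
        (∀ l p, H j < A l p) → ¬ Cov y (H j) := by
      intro N
      induction N with
      | zero =>
        intro j hj _ _ hcov
        have hz : ∀ q, ¬ IsParent y (H j) q := by
          intro q hq
          have : (q : ℕ) < (H j : ℕ) := hq.1
          omega
        cases hcov with
        | direct _ h => obtain ⟨p, hp, _⟩ := h; exact hz p hp
        | desc _ p hp _ => exact hz p hp
      | succ N ihN =>
        intro j hj r1 r2 hcov
        by_cases hjc : H j = ι c
        · rw [hjc] at hcov; exact unc hcov
        cases hcov with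
        | direct _ h =>
          obtain ⟨p, hp, q, hqne, hadj, d1, d2⟩ := h
          obtain ⟨j', hj', rfl, r1', r2'⟩ := hubpar' j r1 r2 hjc p hp
          have e1 := hx_mono hj'
          rcases hadj with hpq | hqp
          · rcases hubpar j' r1' r2' q hpq with hf | ⟨j'', hj'', rfl⟩
            · rw [yH] at d2
              rw [yH j'] at d2
              have := far_hub hf (hx_nonneg m j') e1
              linarith
            · have e2 := hx_mono hj''
              rw [yH, yH, yH, dist_hub, dist_hub, abs_of_pos (by linarith),
                abs_of_pos (by linarith)] at d2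
              linarith
          · have hqr : q ∈ Set.range ι := by
              by_contra hqr
              exact iso q (Sum.inl j') hqr hqp
            rcases lt_or_gt_of_ne hqne with hlt | hgt
            · rcases hrange q hqr with ⟨j'', rfl⟩ | ⟨l, b, rfl⟩
              · have h3 : j'' < j := by
                  rcases lt_trichotomy j'' j with h | h | h
                  · exact h
                  · subst h; exact absurd hlt (lt_irrefl _)
                  · exact absurd (r1 j'' h) (not_lt.2 hlt.le)
                rcases lt_trichotomy j'' j' with h | h | h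
                · have e2 := hx_mono h
                  rw [yH, yH, yH, dist_hub, dist_hub, abs_of_pos (by linarith),
                    abs_of_pos (by linarith)] at d2
                  linarith
                · subst h; exact absurd hqp.1 (lt_irrefl _)
                · have h4 := hp.2.1 _ hlt
                  have e2 := hx_mono h
                  have e3 := hx_mono h3
                  rw [yH, yH, yH, dist_hub, dist_hub, abs_of_pos (by linarith),
                    abs_of_pos (by linarith)] at h4
                  linarith
              · exact absurd (r2 l b) (not_lt.2 hlt.le)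
            · have h4 := hqp.2.1 _ hgt
              rw [dist_comm (y q), dist_comm (y q)] at h4
              linarith
        | desc _ p hp hcp =>
          obtain ⟨j', hj', rfl, r1', r2'⟩ := hubpar' j r1 r2 hjc p hp
          have : ((H j' : Fin n) : ℕ) < (H j : ℕ) := hp.1
          exact ihN j' (by omega) r1' r2' hcp
    -- the arms
    have harm : ∀ l, AA (B := PP m) l (fun p => ((ι p : Fin n) : ℕ)) →
        NN m (fun p => ((A l p : Fin n) : ℕ)) ≤ Set.ncard {x | x ∈ Set.range (A l) ∧ ¬ Cov y x} := by
      intro l hAA
      obtain ⟨j, a1, a2⟩ := hAA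
      have a1' : ∀ l' b, H j < A l' b := fun l' b => a1 l' b
      have : Nonempty (PP m) := by
        rw [← Fintype.card_pos_iff, card_PP]; positivity
      obtain ⟨b0, hb0⟩ := Finite.exists_min (fun p : PP m => A l p)
      have a2' : ∀ j', j < j' → A l b0 < H j' := by
        intro j' hj'
        obtain ⟨b, hb⟩ := a2 j' hj'
        exact lt_of_le_of_lt (hb0 b) hb
      have r1 : ∀ j', j < j' → H j < H j' := fun j' hj' => (a1' l b0).trans (a2' j' hj')
      have hjunc : ¬ Cov y (H j) := hubunc _ j le_rfl r1 a1'
      have hparx : ∀ q, IsParent y (A l b0) q → q = H j := by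
        rintro q ⟨hq1, hq2, -⟩
        have h1 := hq2 _ (a1' l b0)
        have h2 := (dHA j l b0).1
        by_cases hqr : q ∈ Set.range ι
        · rcases hrange q hqr with ⟨j', rfl⟩ | ⟨l', b, rfl⟩
          · rcases lt_trichotomy j' j with h | h | h
            · have h3 := arm_hub_mono (yA l b0) (hx_lt m j) (hx_mono h)
              rw [← yH, ← yH] at h3
              linarith
            · rw [h]
            · exact absurd (a2' j' h) (not_lt.2 hq1.le)
          · by_cases hl : l = l'
            · subst hl; exact absurd hq1 (not_lt.2 (hb0 b))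
            · have := arm_arm hl (yA l b0) (yA l' b)
              linarith
        · have := dout q hqr (Sum.inr (l, b0))
          have h5 : dist (y (A l b0)) (y q) = dist (y (ι (Sum.inr (l, b0)))) (y q) := rfl
          linarith
      have hxunc : ¬ Cov y (A l b0) := by
        intro hcov
        cases hcov with
        | direct _ h =>
          obtain ⟨p, hp, q, hqne, hadj, d1, d2⟩ := h
          obtain rfl := hparx p hp
          have hd := (dHA j l b0).2
          rcases hadj with hpq | hqp
          · rcases hubpar j r1 a1' q hpq with hf | ⟨j', _, rfl⟩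
            · have := far_arm hf (hx_nonneg m j) (hx_lt m j) (yA l b0)
              rw [← yH] at this
              linarith
            · have := dH j j'
              linarith
          · have hqr : q ∈ Set.range ι := by
              by_contra hqr
              exact iso q (Sum.inl j) hqr hqp
            rcases lt_or_gt_of_ne hqne with hlt | hgt
            · rcases hrange q hqr with ⟨j', rfl⟩ | ⟨l', b, rfl⟩
              · have := dH j j'
                linarith
              · by_cases hl : l = l'
                · subst hl; exact absurd hlt (not_lt.2 (hb0 b))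
                · have h3 := arm_arm hl (yA l b0) (yA l' b)
                  have h4 := (dHA j l' b).1
                  rw [dist_comm] at h4
                  linarith
            · have h4 := hqp.2.1 _ hgt
              rw [dist_comm (y q), dist_comm (y q)] at h4
              linarith
        | desc _ p hp hcp =>
          obtain rfl := hparx p hp
          exact hjunc hcp
      -- rescale
      set y' : Fin n → ℂ := fun i => 100 * (y i / uu l - 1) with hy'
      have hscale : ∀ i k, dist (y' i) (y' k) = 100 * dist (y i) (y k) := by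
        intro i k
        rw [hy']
        simp only
        rw [dist_eq_norm, dist_eq_norm]
        have e : 100 * (y i / uu l - 1) - 100 * (y k / uu l - 1) = 100 * ((y i - y k) / uu l) := by
          ring
        rw [e, norm_mul, norm_div, norm_uu, div_one]
        norm_num
      have hn : ∀ i, ‖y' i‖ = 100 * dist (y i) (uu l) := by
        intro i
        rw [hy']
        simp only
        have e : 100 * (y i / uu l - 1) = 100 * ((y i - uu l) / uu l) := by
          rw [sub_div, div_self (uu_ne l)]
        rw [e, norm_mul, norm_div, norm_uu, div_one, dist_eq_norm]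
        norm_num
      have huuArm : ArmPt l (uu l) := by
        have := armPt_of (l := l) (w := 0) (by simp)
        simpa using this
      have hinj : Function.Injective (A l) := by
        intro p q h
        have h1 : (Sum.inr (l, p) : Fin (34 * 36 ^ m) ⊕ (Bool × PP m)) = Sum.inr (l, q) := hι h
        exact (Prod.mk.inj (Sum.inr_injective h1)).2
      have hpos : (100 : ℝ) > 0 := by norm_num
      have key := ihm n y' (A l) hinj (by
          intro p
          rw [hy']
          simp only
          have e : y (A l p) = uu l * (1 + (1 / 100 : ℝ) * pos m p) := by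
            rw [hA]; simp only; rw [hy]; simp only [pos]
          rw [e, mul_div_cancel_left₀ _ (uu_ne l)]
          push_cast
          ring) (by
          intro z hz
          rw [hn]
          by_cases hzr : z ∈ Set.range ι
          · rcases hrange z hzr with ⟨j', rfl⟩ | ⟨l', b, rfl⟩
            · have h3 := (arm_hub_bounds huuArm (hx_nonneg m j') (hx_lt m j')).2
              rw [yH, dist_comm]
              linarith
            · have hl : l' ≠ l := by
                rintro rfl
                exact hz ⟨b, rfl⟩
              have h3 := arm_arm hl (yA l' b) huuArm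
              linarith
          · have h1 := sep z hzr
            have h2 : ‖y z‖ ≤ dist (y z) (uu l) + ‖uu l‖ := by
              rw [dist_eq_norm]
              have := norm_sub_norm_le (y z) (uu l)
              linarith
            rw [norm_uu] at h2
            linarith) (by
          intro z p hz hpar
          rw [isParent_scale hpos hscale] at hpar
          by_cases hzr : z ∈ Set.range ι
          · by_cases hzc : z = ι c
            · have h1 : A l p < z := hpar.1
              rw [hzc] at h1
              exact absurd h1 (not_lt.2 (hc _))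
            · have hclt : ι c < z := by
                obtain ⟨w, rfl⟩ := hzr
                exact lt_of_le_of_ne (hc w) (Ne.symm hzc)
              obtain ⟨j0, hj0⟩ : ∃ j0, ι c = H j0 := by
                rcases hrange (ι c) ⟨c, rfl⟩ with h | ⟨l', b, h⟩
                · exact h
                · have h1 := a1' l' b
                  rw [← h] at h1
                  exact absurd h1 (not_lt.2 (hc _))
              have h1 := hpar.2.1 _ hclt
              rw [hj0] at h1
              rcases hrange z hzr with ⟨j', rfl⟩ | ⟨l', b, rfl⟩
              · have h2 := (dHA j' l p).2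
                rw [dist_comm] at h2
                have h3 := dH j' j0
                linarith
              · have hl : l' ≠ l := by
                  rintro rfl
                  exact hz ⟨b, rfl⟩
                have h2 := (dHA j0 l' b).1
                have h3 := arm_arm hl (yA l' b) (yA l p)
                linarith
          · exact iso z (Sum.inr (l, p)) hzr hpar) b0 hb0 (by
          rw [cov_scale hpos hscale]; exact hxunc) (by
          intro q hq
          rw [isParent_scale hpos hscale] at hq
          obtain rfl := hparx q hq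
          have e : y' (H j) = 100 * ((hx m j : ℂ) / uu l - 1) := by
            rw [hy']; simp only; rw [yH]
          have einv : (uu l)⁻¹ = ⟨3 / 5, -(sg l * (4 / 5))⟩ := by
            rw [inv_eq_iff_eq_inv, eq_comm, inv_eq_iff_eq_inv]
            rw [eq_comm]
            apply inv_eq_of_mul_eq_one_right
            apply Complex.ext
            · unfold uu sg; cases l <;> norm_num [Complex.mul_re]
            · unfold uu sg; cases l <;> norm_num [Complex.mul_im]
          rw [e, div_eq_mul_inv, einv]
          have hb := hx_nonneg m j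
          have hb' := hx_lt m j
          have e100 : (100 : ℂ) = ((100 : ℝ) : ℂ) := by norm_num
          rw [e100]
          constructor
          · simp only [Complex.mul_re, Complex.mul_im, Complex.sub_re, Complex.sub_im,
              Complex.ofReal_re, Complex.ofReal_im, Complex.one_re, Complex.one_im]
            linarith
          · simp only [Complex.mul_re, Complex.mul_im, Complex.sub_re, Complex.sub_im,
              Complex.ofReal_re, Complex.ofReal_im, Complex.one_re, Complex.one_im]
            rw [abs_le]
            unfold sg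
            cases l <;> simp <;> constructor <;> linarith)
      refine key.trans (le_of_eq ?_)
      congr 1
      ext x
      simp only [Set.mem_ofPred_eq, cov_scale hpos hscale]
    -- assembly
    classical
    simp only [NN]
    have hsum : ∀ l, (if AA (B := PP m) l (fun p => ((ι p : Fin n) : ℕ)) then
        NN m (fun p => ((ι (Sum.inr (l, p)) : Fin n) : ℕ)) else 0)
        ≤ Set.ncard {x | x ∈ Set.range (A l) ∧ ¬ Cov y x} := by
      intro l
      split_ifs with h
      · exact harm l h
      · exact Nat.zero_le _
    refine (Finset.sum_le_sum fun l _ => hsum l).trans ?_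
    rw [Fintype.sum_bool, ← Set.ncard_union_eq]
    · refine Set.ncard_le_ncard ?_ (Set.toFinite _)
      rintro x (⟨⟨p, rfl⟩, h⟩ | ⟨⟨p, rfl⟩, h⟩)
      · exact ⟨⟨_, rfl⟩, h⟩
      · exact ⟨⟨_, rfl⟩, h⟩
    · rw [Set.disjoint_left]
      rintro x ⟨⟨p, rfl⟩, _⟩ ⟨⟨q, hq⟩, _⟩
      have h1 : (Sum.inr (false, q) : Fin (34 * 36 ^ m) ⊕ (Bool × PP m)) = Sum.inr (true, p) := hι hq
      have h2 := (Prod.mk.inj (Sum.inr_injective h1)).1
      exact Bool.false_ne_true h2

end Pool.Agent.V11327.NT
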