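import Mathlib

set_option autoImplicit false

namespace Pool.Agent.V11327.PR

open MeasureTheory Set Real
open scoped ENNReal

/-- The inner product of `(x, y)` with the direction of angle `2 π θ`. -/
noncomputable def F (x y θ : ℝ) : ℝ := x * Real.cos (2 * π * θ) + y * Real.sin (2 * π * θ)

lemma piece {R φ : ℝ} (hR : 0 < R) (k : ℤ) {η : ℝ} (hη : 0 < η) (hη4 : η < 1 / 4) {G : Set ℝ}
    (hG : MeasurableSet G) :
    volume {θ : ℝ | θ ∈ Icc ((φ + k * π) / (2 * π)) ((φ + k * π) / (2 * π) + 1 / 2) ∧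
        R * Real.cos (2 * π * θ - φ) ∈ G} ≤
      ENNReal.ofReal (2 * η) + volume (G ∩ Icc (-R) R) / ENNReal.ofReal (8 * π * R * η) := by
  set t : ℝ := (φ + k * π) / (2 * π) with ht
  have hpi := Real.pi_pos
  have htt : 2 * π * t = φ + k * π := by rw [ht]; field_simp
  set ε : ℝ := (-1) ^ k with hε
  have hε2 : |ε| = 1 := by rw [hε]; simp [abs_zpow]
  have hε0 : ε ≠ 0 := by
    intro h; rw [h] at hε2; simp at hε2
  have hcos : ∀ θ : ℝ, Real.cos (2 * π * θ - φ) = ε * Real.cos (2 * π * (θ - t)) := by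
    intro θ
    have : 2 * π * θ - φ = 2 * π * (θ - t) + k * π := by
      rw [mul_sub, htt]; ring
    rw [this, Real.cos_add_int_mul_pi]
  set S : Set ℝ := {θ | θ ∈ Ioo (t + η) (t + 1 / 2 - η) ∧ R * Real.cos (2 * π * θ - φ) ∈ G} with hS
  have hSm : MeasurableSet S := by
    have h1 : Measurable fun θ : ℝ => R * Real.cos (2 * π * θ - φ) := by fun_prop
    exact measurableSet_Ioo.inter (h1 hG)
  have hsub : {θ : ℝ | θ ∈ Icc t (t + 1 / 2) ∧ R * Real.cos (2 * π * θ - φ) ∈ G} ⊆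
      (Icc t (t + η) ∪ Icc (t + 1 / 2 - η) (t + 1 / 2)) ∪ S := by
    rintro θ ⟨⟨h1, h2⟩, h3⟩
    by_cases h4 : θ ≤ t + η
    · exact Or.inl (Or.inl ⟨h1, h4⟩)
    by_cases h5 : t + 1 / 2 - η ≤ θ
    · exact Or.inl (Or.inr ⟨h5, h2⟩)
    push Not at h4 h5
    exact Or.inr ⟨⟨h4, h5⟩, h3⟩
  have hder : ∀ θ ∈ S, HasDerivWithinAt (fun θ : ℝ => R * Real.cos (2 * π * θ - φ))
      (R * (-Real.sin (2 * π * θ - φ) * (2 * π))) S θ := by
    intro θ _
    have h1 : HasDerivAt (fun θ : ℝ => 2 * π * θ - φ) (2 * π) θ := by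
      simpa using ((hasDerivAt_id θ).const_mul (2 * π)).sub_const φ
    exact ((h1.cos).const_mul R).hasDerivWithinAt
  have hinj : InjOn (fun θ : ℝ => R * Real.cos (2 * π * θ - φ)) S := by
    intro a ha b hb hab
    simp only [hcos] at hab
    have h1 : Real.cos (2 * π * (a - t)) = Real.cos (2 * π * (b - t)) := by
      have := mul_left_cancel₀ hR.ne' hab
      exact mul_left_cancel₀ hε0 this
    have ha1 := ha.1.1; have ha2 := ha.1.2; have hb1 := hb.1.1; have hb2 := hb.1.2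
    have h2 := Real.injOn_cos (x₁ := 2 * π * (a - t)) (x₂ := 2 * π * (b - t))
      ⟨by nlinarith, by nlinarith⟩ ⟨by nlinarith, by nlinarith⟩ h1
    have h3 := mul_left_cancel₀ (by positivity : (2 * π : ℝ) ≠ 0) h2
    linarith
  have himg := lintegral_image_eq_lintegral_abs_deriv_mul hSm hder hinj (fun _ => 1)
  simp only [mul_one, lintegral_one, Measure.restrict_apply MeasurableSet.univ, univ_inter] at himg
  have hbd : ∀ θ ∈ S, ENNReal.ofReal (8 * π * R * η) ≤
      ENNReal.ofReal |R * (-Real.sin (2 * π * θ - φ) * (2 * π))| := by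
    intro θ hθ
    apply ENNReal.ofReal_le_ofReal
    have h1 : |Real.sin (2 * π * θ - φ)| = |Real.sin (2 * π * (θ - t))| := by
      have : 2 * π * θ - φ = 2 * π * (θ - t) + k * π := by
        rw [mul_sub, htt]; ring
      rw [this, Real.sin_add_int_mul_pi, abs_mul, ← hε, hε2, one_mul]
    rw [abs_mul, abs_mul, abs_neg, h1, abs_of_pos hR, abs_of_pos (by positivity : (0 : ℝ) < 2 * π)]
    have ha1 := hθ.1.1; have ha2 := hθ.1.2
    have hs : 4 * η ≤ Real.sin (2 * π * (θ - t)) := by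
      by_cases hc : θ - t ≤ 1 / 4
      · have := Real.mul_le_sin (x := 2 * π * (θ - t)) (by nlinarith) (by nlinarith)
        have e : 2 / π * (2 * π * (θ - t)) = 4 * (θ - t) := by field_simp; ring
        rw [e] at this
        linarith
      · push Not at hc
        have e0 : Real.sin (2 * π * (θ - t)) = Real.sin (2 * π * (1 / 2 - (θ - t))) := by
          rw [← Real.sin_pi_sub]; congr 1; ring
        have := Real.mul_le_sin (x := 2 * π * (1 / 2 - (θ - t))) (by nlinarith) (by nlinarith)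
        have e : 2 / π * (2 * π * (1 / 2 - (θ - t))) = 4 * (1 / 2 - (θ - t)) := by field_simp; ring
        rw [e] at this
        rw [e0]
        linarith
    have hs2 : 4 * η ≤ |Real.sin (2 * π * (θ - t))| := hs.trans (le_abs_self _)
    have : R * (4 * η * (2 * π)) ≤ R * (|Real.sin (2 * π * (θ - t))| * (2 * π)) := by gcongr
    linarith [this, show R * (4 * η * (2 * π)) = 8 * π * R * η by ring]
  have hS2 : ENNReal.ofReal (8 * π * R * η) * volume S ≤ volume (G ∩ Icc (-R) R) := by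
    calc ENNReal.ofReal (8 * π * R * η) * volume S
        = ∫⁻ _ in S, ENNReal.ofReal (8 * π * R * η) := by simp
      _ ≤ ∫⁻ θ in S, ENNReal.ofReal |R * (-Real.sin (2 * π * θ - φ) * (2 * π))| :=
          setLIntegral_mono' hSm hbd
      _ = volume ((fun θ : ℝ => R * Real.cos (2 * π * θ - φ)) '' S) := himg.symm
      _ ≤ volume (G ∩ Icc (-R) R) := by
          apply measure_mono
          rintro _ ⟨θ, hθ, rfl⟩
          refine ⟨hθ.2, ?_, ?_⟩
          · have := Real.neg_one_le_cos (2 * π * θ - φ)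
            show -R ≤ R * _
            nlinarith
          · have := Real.cos_le_one (2 * π * θ - φ)
            show R * _ ≤ R
            nlinarith
  have hc0 : ENNReal.ofReal (8 * π * R * η) ≠ 0 := by
    rw [ne_eq, ENNReal.ofReal_eq_zero, not_le]; positivity
  have hS3 : volume S ≤ volume (G ∩ Icc (-R) R) / ENNReal.ofReal (8 * π * R * η) := by
    rw [ENNReal.le_div_iff_mul_le (Or.inl hc0) (Or.inl ENNReal.ofReal_ne_top), mul_comm]
    exact hS2
  calc volume {θ : ℝ | θ ∈ Icc t (t + 1 / 2) ∧ R * Real.cos (2 * π * θ - φ) ∈ G}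
      ≤ volume ((Icc t (t + η) ∪ Icc (t + 1 / 2 - η) (t + 1 / 2)) ∪ S) := measure_mono hsub
    _ ≤ (volume (Icc t (t + η)) + volume (Icc (t + 1 / 2 - η) (t + 1 / 2))) + volume S :=
        (measure_union_le _ _).trans (by gcongr; exact measure_union_le _ _)
    _ ≤ ENNReal.ofReal (2 * η) + volume (G ∩ Icc (-R) R) / ENNReal.ofReal (8 * π * R * η) := by
        gcongr
        rw [Real.volume_Icc, Real.volume_Icc, ← ENNReal.ofReal_add (by linarith) (by linarith)]
        apply ENNReal.ofReal_le_ofReal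
        linarith

/-- The set of angles in `[0, 1)` whose projection is in `G` is small if `G` is small. -/
theorem volume_F_le {x y : ℝ} (h : ¬ (x = 0 ∧ y = 0)) :
    ∃ R : ℝ, 0 < R ∧ ∀ (η : ℝ), 0 < η → η < 1 / 4 → ∀ G : Set ℝ, MeasurableSet G →
      volume {θ : ℝ | θ ∈ Ico (0 : ℝ) 1 ∧ F x y θ ∈ G} ≤
        4 * (ENNReal.ofReal (2 * η) + volume (G ∩ Icc (-R) R) / ENNReal.ofReal (8 * π * R * η)) := by
  set z : ℂ := ⟨x, y⟩ with hz
  have hz0 : z ≠ 0 := by
    intro h0
    apply h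
    rw [hz] at h0
    exact ⟨congrArg Complex.re h0, congrArg Complex.im h0⟩
  have hR : 0 < ‖z‖ := norm_pos_iff.2 hz0
  have hpi := Real.pi_pos
  refine ⟨‖z‖, hR, fun η h1 h2 G hG => ?_⟩
  have hx : ‖z‖ * Real.cos z.arg = x := Complex.norm_mul_cos_arg z
  have hy : ‖z‖ * Real.sin z.arg = y := Complex.norm_mul_sin_arg z
  have hF : ∀ θ, F x y θ = ‖z‖ * Real.cos (2 * π * θ - z.arg) := by
    intro θ
    rw [F, Real.cos_sub, ← hx, ← hy]
    ring
  have hsub : {θ : ℝ | θ ∈ Ico (0 : ℝ) 1 ∧ F x y θ ∈ G} ⊆ ⋃ k ∈ ({-1, 0, 1, 2} : Finset ℤ),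
      {θ : ℝ | θ ∈ Icc ((z.arg + k * π) / (2 * π)) ((z.arg + k * π) / (2 * π) + 1 / 2) ∧
        ‖z‖ * Real.cos (2 * π * θ - z.arg) ∈ G} := by
    rintro θ ⟨⟨h3, h4⟩, h5⟩
    rw [hF] at h5
    have h6 := Complex.neg_pi_lt_arg z
    have h7 := Complex.arg_le_pi z
    set k : ℤ := ⌊(2 * π * θ - z.arg) / π⌋ with hk
    have hk1 : (k : ℝ) ≤ (2 * π * θ - z.arg) / π := Int.floor_le _
    have hk2 : (2 * π * θ - z.arg) / π < k + 1 := Int.lt_floor_add_one _
    rw [le_div_iff₀ hpi] at hk1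
    rw [div_lt_iff₀ hpi] at hk2
    have hk3 : -1 ≤ k := by
      rw [hk, Int.le_floor, le_div_iff₀ hpi]
      push_cast
      nlinarith
    have hk4 : k < 3 := by
      rw [hk, Int.floor_lt, div_lt_iff₀ hpi]
      push_cast
      nlinarith
    simp only [mem_iUnion, exists_prop]
    refine ⟨k, ?_, ⟨?_, ?_⟩, h5⟩
    · simp only [Finset.mem_insert, Finset.mem_singleton]
      omega
    · rw [div_le_iff₀ (by positivity)]
      linarith
    · have : θ - 1 / 2 ≤ (z.arg + k * π) / (2 * π) := by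
        rw [le_div_iff₀ (by positivity)]
        nlinarith
      linarith
  refine (measure_mono hsub).trans ((measure_biUnion_finset_le _ _).trans ?_)
  refine (Finset.sum_le_card_nsmul _ _ _ (fun k _ => piece hR k h1 h2 hG)).trans ?_
  rw [nsmul_eq_mul]
  gcongr
  norm_num

end Pool.Agent.V11327.PR
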