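import Pool.Agent.Helper227.Maps

set_option autoImplicit false

namespace Pool.Agent.V11327.PR

open MeasureTheory Set Pool.Agent.Helper227
open scoped ENNReal

/-- The binary expansion of the fractional part of `t`. -/
noncomputable def bits (t : ℝ) : ℕ → Bool := fun n => decide (⌊2 ^ (n + 1) * Int.fract t⌋ % 2 = 1)

/-- The integer with binary expansion `σ` (first bit most significant). -/
def nv : List Bool → ℕ := fun σ => σ.foldl (fun a b => 2 * a + b.toNat) 0

lemma nv_append (σ : List Bool) (b : Bool) : nv (σ ++ [b]) = 2 * nv σ + b.toNat := by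
  simp [nv, List.foldl_append]

lemma floor_succ (u : ℝ) (n : ℕ) : ⌊2 ^ (n + 1) * u⌋ =
    2 * ⌊2 ^ n * u⌋ + (decide (⌊2 ^ (n + 1) * u⌋ % 2 = 1)).toNat := by
  have h1 : ⌊2 ^ (n + 1) * u⌋ / 2 = ⌊2 ^ n * u⌋ := by
    have := Int.floor_div_natCast (2 ^ (n + 1) * u) 2
    have h2 : (2 : ℝ) ^ (n + 1) * u / (2 : ℕ) = 2 ^ n * u := by
      push_cast; rw [pow_succ]; ring
    rw [h2] at this
    rw [this]; rfl
  rw [← h1]
  by_cases h : ⌊2 ^ (n + 1) * u⌋ % 2 = 1
  · simp only [h, decide_true, Bool.toNat_true]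
    omega
  · simp only [h, decide_false, Bool.toNat_false]
    omega

lemma nv_pre_bits (t : ℝ) (n : ℕ) : (nv (pre (bits t) n) : ℤ) = ⌊2 ^ n * Int.fract t⌋ := by
  induction n with
  | zero => simp [pre, nv]
  | succ n ih =>
    rw [pre_succ, nv_append, floor_succ]
    push_cast
    rw [ih]
    rfl

lemma nv_inj : ∀ (n : ℕ) (σ τ : List Bool), σ.length = n → τ.length = n → nv σ = nv τ → σ = τ := by
  intro n
  induction n with
  | zero =>
    intro σ τ h1 h2 _
    rw [List.length_eq_zero_iff.1 h1, List.length_eq_zero_iff.1 h2]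
  | succ n ih =>
    intro σ τ h1 h2 h3
    rcases List.eq_nil_or_concat σ with rfl | ⟨σ', a, rfl⟩
    · simp at h1
    rcases List.eq_nil_or_concat τ with rfl | ⟨τ', b, rfl⟩
    · simp at h2
    simp only [List.concat_eq_append] at *
    rw [nv_append, nv_append] at h3
    have ha : a.toNat ≤ 1 := Bool.toNat_le a
    have hb : b.toNat ≤ 1 := Bool.toNat_le b
    have h4 : nv σ' = nv τ' := by omega
    have h5 : a.toNat = b.toNat := by omega
    rw [ih σ' τ' (by simpa using h1) (by simpa using h2) h4]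
    have : a = b := by cases a <;> cases b <;> simp_all
    rw [this]

lemma nv_lt (σ : List Bool) : nv σ < 2 ^ σ.length := by
  induction σ using List.reverseRecOn with
  | nil => simp [nv]
  | append_singleton σ b ih =>
    rw [nv_append, List.length_append, List.length_singleton, pow_succ]
    have : b.toNat ≤ 1 := Bool.toNat_le b
    omega

/-- The bits of `t` extend `σ` iff the fractional part is in the dyadic interval. -/
lemma bits_mem_cyl (t : ℝ) (σ : List Bool) : bits t ∈ cyl σ ↔
    (nv σ : ℝ) / 2 ^ σ.length ≤ Int.fract t ∧ Int.fract t < (nv σ + 1) / 2 ^ σ.length := by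
  rw [mem_cyl_iff]
  have hpos : (0 : ℝ) < 2 ^ σ.length := by positivity
  have h1 : pre (bits t) σ.length = σ ↔ ⌊2 ^ σ.length * Int.fract t⌋ = (nv σ : ℤ) := by
    rw [← nv_pre_bits]
    constructor
    · intro h; rw [h]
    · intro h
      exact nv_inj σ.length _ _ (by simp) rfl (by exact_mod_cast h)
  rw [h1, Int.floor_eq_iff, div_le_iff₀ hpos, lt_div_iff₀ hpos]
  push_cast
  constructor
  · rintro ⟨a, b⟩; constructor <;> linarith
  · rintro ⟨a, b⟩; constructor <;> linarith

lemma measurable_bits : Measurable bits := by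
  refine measurable_pi_lambda _ fun n => ?_
  have h1 : Measurable fun t : ℝ => ⌊2 ^ (n + 1) * Int.fract t⌋ :=
    Int.measurable_floor.comp (measurable_const.mul measurable_fract)
  have h2 : Measurable fun z : ℤ => decide (z % 2 = 1) := measurable_from_top
  exact h2.comp h1

lemma volume_bits_cyl (k : ℤ) (σ : List Bool) :
    volume (Ico (k : ℝ) (k + 1) ∩ bits ⁻¹' cyl σ) = (1 / 2) ^ σ.length := by
  have hpos : (0 : ℝ) < 2 ^ σ.length := by positivity
  have h : Ico (k : ℝ) (k + 1) ∩ bits ⁻¹' cyl σ =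
      Ico (k + (nv σ : ℝ) / 2 ^ σ.length) (k + (nv σ + 1) / 2 ^ σ.length) := by
    ext t
    simp only [mem_inter_iff, mem_Ico, mem_preimage, bits_mem_cyl]
    have h0 : (0 : ℝ) ≤ (nv σ : ℝ) / 2 ^ σ.length := by positivity
    have h1 : ((nv σ : ℝ) + 1) / 2 ^ σ.length ≤ 1 := by
      rw [div_le_one hpos]
      have := nv_lt σ
      exact_mod_cast this
    constructor
    · rintro ⟨⟨h2, h3⟩, h4, h5⟩
      have hf : ⌊t⌋ = k := by
        rw [Int.floor_eq_iff]; exact ⟨h2, h3⟩
      rw [Int.fract, hf] at h4 h5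
      constructor <;> linarith
    · rintro ⟨h4, h5⟩
      have h2 : (k : ℝ) ≤ t := by linarith
      have h3 : t < k + 1 := by linarith
      have hf : ⌊t⌋ = k := by
        rw [Int.floor_eq_iff]; exact ⟨h2, h3⟩
      rw [Int.fract, hf]
      exact ⟨⟨h2, h3⟩, by linarith, by linarith⟩
  rw [h, Real.volume_Ico]
  have : (k : ℝ) + (nv σ + 1) / 2 ^ σ.length - (k + nv σ / 2 ^ σ.length) = (1 / 2) ^ σ.length := by
    rw [add_div, one_div_pow]; ring
  rw [this, ENNReal.ofReal_pow (by norm_num)]
  congr 1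
  rw [ENNReal.ofReal_div_of_pos (by norm_num)]
  simp

theorem map_bits (k : ℤ) : Measure.map bits (volume.restrict (Ico (k : ℝ) (k + 1))) = lam := by
  haveI : IsProbabilityMeasure (volume.restrict (Ico (k : ℝ) (k + 1))) := ⟨by simp⟩
  haveI : IsProbabilityMeasure (Measure.map bits (volume.restrict (Ico (k : ℝ) (k + 1)))) :=
    Measure.isProbabilityMeasure_map measurable_bits.aemeasurable
  apply lam_ext
  intro σ
  rw [Measure.map_apply measurable_bits (measurableSet_cyl σ),
    Measure.restrict_apply (measurable_bits (measurableSet_cyl σ)), inter_comm, volume_bits_cyl]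

lemma volume_bits (k : ℤ) {U : Set (ℕ → Bool)} (hU : MeasurableSet U) :
    volume (Ico (k : ℝ) (k + 1) ∩ bits ⁻¹' U) = lam U := by
  rw [← map_bits k, Measure.map_apply measurable_bits hU,
    Measure.restrict_apply (measurable_bits hU), inter_comm]

/-- Real numbers in `[-M, M]` whose fractional part is in `U`. -/
lemma volume_bits_Icc (M : ℕ) {U : Set (ℕ → Bool)} (hU : MeasurableSet U) :
    volume (bits ⁻¹' U ∩ Icc (-(M : ℝ)) M) ≤ (2 * M + 1 : ℕ) * lam U := by
  have hsub : bits ⁻¹' U ∩ Icc (-(M : ℝ)) M ⊆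
      ⋃ k ∈ Finset.Icc (-(M : ℤ)) M, (Ico (k : ℝ) (k + 1) ∩ bits ⁻¹' U) := by
    rintro t ⟨h1, h2, h3⟩
    simp only [mem_iUnion, exists_prop]
    refine ⟨⌊t⌋, ?_, ⟨Int.floor_le t, Int.lt_floor_add_one t⟩, h1⟩
    rw [Finset.mem_Icc]
    constructor
    · rw [Int.le_floor]; push_cast; exact h2
    · have : (⌊t⌋ : ℝ) ≤ M := (Int.floor_le t).trans h3
      exact_mod_cast this
  refine (measure_mono hsub).trans ((measure_biUnion_finset_le _ _).trans ?_)
  rw [Finset.sum_congr rfl fun k _ => volume_bits k hU, Finset.sum_const, nsmul_eq_mul]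
  have : (Finset.Icc (-(M : ℤ)) M).card = 2 * M + 1 := by
    rw [Int.card_Icc]; omega
  rw [this]

end Pool.Agent.V11327.PR
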