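import Mathlib

set_option autoImplicit false

namespace Pool.Agent.V11327.PR

open Real

/-- numerators and denominators of Wallis' products -/
def wn : ℕ → ℕ
  | 0 => 1
  | k + 1 => wn k * ((2 * k + 2) * (2 * k + 2))

def wd : ℕ → ℕ
  | 0 => 1
  | k + 1 => wd k * ((2 * k + 1) * (2 * k + 3))

lemma wn_pos (k : ℕ) : 0 < wn k := by
  induction k with
  | zero => simp [wn]
  | succ k ih => rw [wn]; positivity

lemma wd_pos (k : ℕ) : 0 < wd k := by
  induction k with
  | zero => simp [wd]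
  | succ k ih => rw [wd]; positivity

lemma W_eq (k : ℕ) : Real.Wallis.W k = (wn k : ℝ) / wd k := by
  induction k with
  | zero => simp [Real.Wallis.W, wn, wd]
  | succ k ih =>
    rw [Real.Wallis.W_succ, ih, wn, wd]
    have := wd_pos k
    push_cast
    field_simp

/-- powers of a Gaussian integer -/
def G (M T : ℤ) : ℕ → ℤ × ℤ
  | 0 => (1, 0)
  | k + 1 => ((G M T k).1 * M - (G M T k).2 * T, (G M T k).1 * T + (G M T k).2 * M)

lemma G_spec (M T : ℤ) (k : ℕ) :
    (((G M T k).1 : ℂ) + (G M T k).2 * Complex.I) = ((M : ℂ) + T * Complex.I) ^ k := by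
  induction k with
  | zero => simp [G]
  | succ k ih =>
    rw [pow_succ, ← ih, G]
    push_cast
    ring_nf
    rw [Complex.I_sq]
    ring

lemma pow_sub_le {u v : ℂ} (hu : ‖u‖ = 1) {E : ℝ} (N : ℕ) (hE : ∀ j < N, ‖v‖ ^ j ≤ E) :
    ∀ k ≤ N, ‖u ^ k - v ^ k‖ ≤ k * (‖u - v‖ * E) := by
  intro k
  induction k with
  | zero => simp
  | succ k ih =>
    intro hk
    have h1 := ih (by omega)
    have e : u ^ (k + 1) - v ^ (k + 1) = u * (u ^ k - v ^ k) + (u - v) * v ^ k := by ring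
    rw [e]
    calc ‖u * (u ^ k - v ^ k) + (u - v) * v ^ k‖ ≤ ‖u‖ * ‖u ^ k - v ^ k‖ + ‖u - v‖ * ‖v‖ ^ k := by
          refine (norm_add_le _ _).trans ?_
          rw [norm_mul, norm_mul, norm_pow]
      _ ≤ 1 * (k * (‖u - v‖ * E)) + ‖u - v‖ * E := by
          rw [hu]
          gcongr
          exact hE k (by omega)
      _ = (k + 1 : ℕ) * (‖u - v‖ * E) := by push_cast; ring

/-- `e^{iy}` and `(1 + i y / N) ^ N` -/
lemma exp_approx {y : ℝ} (hy0 : 0 ≤ y) (hy : y ≤ 7) {N : ℕ} (hN : 7 ≤ N) :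
    ‖Complex.exp (Complex.I * y) - (1 + Complex.I * (y / N : ℝ)) ^ N‖ ≤ 107163 / N := by
  have hNpos : (0 : ℝ) < N := by
    have : (7 : ℝ) ≤ N := by exact_mod_cast hN
    linarith
  have hN7 : (7 : ℝ) ≤ N := by exact_mod_cast hN
  set w : ℝ := y / N with hw
  have hw0 : 0 ≤ w := by positivity
  have hw1 : w ≤ 7 / N := by rw [hw]; gcongr
  have hw2 : w ≤ 1 := hw1.trans (by rw [div_le_one hNpos]; exact hN7)
  set u : ℂ := Complex.exp (Complex.I * w) with hu
  set v : ℂ := 1 + Complex.I * w with hv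
  have hun : ‖u‖ = 1 := by
    rw [hu, mul_comm]; exact Complex.norm_exp_ofReal_mul_I w
  have hup : Complex.exp (Complex.I * y) = u ^ N := by
    rw [hu, ← Complex.exp_nat_mul]
    congr 1
    rw [hw]
    push_cast
    have : (N : ℂ) ≠ 0 := by
      have : (N : ℝ) ≠ 0 := hNpos.ne'
      exact_mod_cast this
    field_simp
  have hz : ‖Complex.I * (w : ℂ)‖ = w := by
    rw [norm_mul, Complex.norm_I, one_mul, Complex.norm_real, Real.norm_of_nonneg hw0]
  have huv : ‖u - v‖ ≤ w ^ 2 := by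
    have := Complex.norm_exp_sub_one_sub_id_le (x := Complex.I * w) (by rw [hz]; exact hw2)
    rw [hz] at this
    rw [hu, hv]
    calc ‖Complex.exp (Complex.I * w) - (1 + Complex.I * w)‖
        = ‖Complex.exp (Complex.I * w) - 1 - Complex.I * w‖ := by congr 1; ring
      _ ≤ w ^ 2 := this
  have hvn : ‖v‖ ≤ Real.exp w := by
    calc ‖v‖ ≤ ‖(1 : ℂ)‖ + ‖Complex.I * (w : ℂ)‖ := norm_add_le _ _
      _ = w + 1 := by rw [hz, norm_one]; ring
      _ ≤ Real.exp w := Real.add_one_le_exp w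
  have hE : ∀ j < N, ‖v‖ ^ j ≤ 2187 := by
    intro j hj
    calc ‖v‖ ^ j ≤ Real.exp w ^ j := by gcongr
      _ = Real.exp (j * w) := by rw [← Real.exp_nat_mul]
      _ ≤ Real.exp 7 := by
          apply Real.exp_le_exp.2
          have : (j : ℝ) ≤ N := by exact_mod_cast hj.le
          calc (j : ℝ) * w ≤ N * w := by gcongr
            _ = y := by rw [hw]; field_simp
            _ ≤ 7 := hy
      _ = Real.exp 1 ^ 7 := by rw [← Real.exp_nat_mul]; norm_num
      _ ≤ 3 ^ 7 := by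
          have := Real.exp_one_lt_d9
          gcongr
          linarith
      _ = 2187 := by norm_num
  rw [hup]
  calc ‖u ^ N - v ^ N‖ ≤ N * (‖u - v‖ * 2187) := pow_sub_le hun N hE N le_rfl
    _ ≤ N * ((7 / N) ^ 2 * 2187) := by
        gcongr
        exact huv.trans (by gcongr)
    _ = 107163 / N := by field_simp; norm_num

lemma norm_ge (a b c d : ℝ) :
    |a - c| ≤ ‖((a : ℂ) + (b : ℂ) * Complex.I) - ((c : ℂ) + (d : ℂ) * Complex.I)‖ ∧
    |b - d| ≤ ‖((a : ℂ) + (b : ℂ) * Complex.I) - ((c : ℂ) + (d : ℂ) * Complex.I)‖ := by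
  constructor
  · refine le_trans ?_ (Complex.abs_re_le_norm _)
    simp
  · refine le_trans ?_ (Complex.abs_im_le_norm _)
    simp

/-- the real and imaginary parts -/
lemma approx (a n N : ℕ) (ha : a < 2 ^ n) (hN : 7 ≤ N) :
    |Real.cos (2 * π * (a / 2 ^ n)) -
      ((G ((wd N * 2 ^ n * N : ℕ) : ℤ) ((4 * wn N * a : ℕ) : ℤ) N).1 : ℝ) /
        ((wd N * 2 ^ n * N : ℕ) : ℝ) ^ N| ≤ 110000 / N ∧
    |Real.sin (2 * π * (a / 2 ^ n)) -
      ((G ((wd N * 2 ^ n * N : ℕ) : ℤ) ((4 * wn N * a : ℕ) : ℤ) N).2 : ℝ) /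
        ((wd N * 2 ^ n * N : ℕ) : ℝ) ^ N| ≤ 110000 / N := by
  have hN7 : (7 : ℝ) ≤ N := by exact_mod_cast hN
  have hNpos : (0 : ℝ) < N := by linarith
  have hpi := Real.pi_pos
  have hpi2 := Real.pi_lt_d2
  set r : ℝ := (a : ℝ) / 2 ^ n with hr
  have hr0 : 0 ≤ r := by positivity
  have hr1 : r ≤ 1 := by
    rw [hr, div_le_one (by positivity)]
    exact_mod_cast ha.le
  set M : ℕ := wd N * 2 ^ n * N with hM
  set T : ℕ := 4 * wn N * a with hT
  have hwd := wd_pos N
  have hMpos : 0 < M := by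
    have : 0 < N := by omega
    rw [hM]; positivity
  have hMr : (0 : ℝ) < M := by exact_mod_cast hMpos
  set y : ℝ := 4 * Real.Wallis.W N * r with hy
  have hW1 := Real.Wallis.W_le N
  have hW2 := Real.Wallis.le_W N
  have hW0 := Real.Wallis.W_pos N
  have hy0 : 0 ≤ y := by positivity
  have hy7 : y ≤ 7 := by
    calc y ≤ 4 * (π / 2) * 1 := by rw [hy]; gcongr
      _ ≤ 7 := by linarith
  have hTM : (T : ℝ) / M = y / N := by
    rw [hy, W_eq, hr, hT, hM]
    have : (0 : ℝ) < wd N := by exact_mod_cast hwd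
    push_cast
    field_simp
  have hd : |2 * π * r - y| ≤ 4 / N := by
    have e : 2 * π * r - y = 4 * r * (π / 2 - Real.Wallis.W N) := by rw [hy]; ring
    rw [e, abs_of_nonneg (mul_nonneg (by positivity) (by linarith))]
    have h2 : π / 2 - Real.Wallis.W N ≤ 1 / N := by
      have e2 : ((2 : ℝ) * N + 1) / (2 * N + 2) * (π / 2) = π / 2 - (π / 2) / (2 * N + 2) := by
        field_simp; ring
      rw [e2] at hW2
      have h3 : (π / 2) / (2 * N + 2) ≤ 1 / N := by
        rw [div_le_div_iff₀ (by positivity) hNpos]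
        nlinarith
      linarith
    calc 4 * r * (π / 2 - Real.Wallis.W N) ≤ 4 * 1 * (1 / N) := by
          gcongr
      _ = 4 / N := by ring
  have h1 := exp_approx hy0 hy7 hN
  have h2 : ‖Complex.exp (Complex.I * (2 * π * r : ℝ)) - Complex.exp (Complex.I * y)‖ ≤ 4 / N := by
    have e : Complex.exp (Complex.I * (2 * π * r : ℝ)) - Complex.exp (Complex.I * y) =
        Complex.exp (Complex.I * y) * (Complex.exp (Complex.I * ((2 * π * r - y : ℝ) : ℂ)) - 1) := by
      rw [mul_sub, ← Complex.exp_add, mul_one]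
      congr 2
      push_cast
      ring
    rw [e, norm_mul, mul_comm Complex.I (y : ℂ), Complex.norm_exp_ofReal_mul_I, one_mul]
    refine (Real.norm_exp_I_mul_ofReal_sub_one_le).trans ?_
    rw [Real.norm_eq_abs]
    exact hd
  have h3 : (1 + Complex.I * (y / N : ℝ)) ^ N =
      ((((G (M : ℤ) (T : ℤ) N).1 : ℝ) / (M : ℝ) ^ N : ℝ) : ℂ) +
        ((((G (M : ℤ) (T : ℤ) N).2 : ℝ) / (M : ℝ) ^ N : ℝ) : ℂ) * Complex.I := by
    have hMc : (M : ℂ) ≠ 0 := by
      have : M ≠ 0 := by omega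
      exact_mod_cast this
    have h4 := G_spec (M : ℤ) (T : ℤ) N
    push_cast at h4 ⊢
    rw [div_mul_eq_mul_div, ← add_div, h4, ← div_pow]
    congr 1
    have h5 : ((T : ℂ)) / M = (y : ℂ) / N := by
      have := congrArg (fun t : ℝ => (t : ℂ)) hTM
      simpa only [Complex.ofReal_div, Complex.ofReal_natCast] using this
    rw [add_div, div_self hMc, mul_div_right_comm, h5]
    ring
  have h4 : ‖Complex.exp (Complex.I * (2 * π * r : ℝ)) - (1 + Complex.I * (y / N : ℝ)) ^ N‖ ≤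
      110000 / N := by
    calc _ ≤ ‖Complex.exp (Complex.I * (2 * π * r : ℝ)) - Complex.exp (Complex.I * y)‖ +
          ‖Complex.exp (Complex.I * y) - (1 + Complex.I * (y / N : ℝ)) ^ N‖ :=
          norm_sub_le_norm_sub_add_norm_sub _ _ _
      _ ≤ 4 / N + 107163 / N := by gcongr
      _ = 107167 / N := by rw [← add_div]; norm_num
      _ ≤ 110000 / N := by gcongr; norm_num
  have h5 : Complex.exp (Complex.I * (2 * π * r : ℝ)) =
      ((Real.cos (2 * π * r) : ℝ) : ℂ) + ((Real.sin (2 * π * r) : ℝ) : ℂ) * Complex.I := by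
    rw [mul_comm, Complex.exp_mul_I, Complex.ofReal_cos, Complex.ofReal_sin]
  rw [h3, h5] at h4
  have h6 := norm_ge (Real.cos (2 * π * r)) (Real.sin (2 * π * r))
    (((G (M : ℤ) (T : ℤ) N).1 : ℝ) / (M : ℝ) ^ N) (((G (M : ℤ) (T : ℤ) N).2 : ℝ) / (M : ℝ) ^ N)
  exact ⟨h6.1.trans h4, h6.2.trans h4⟩

end Pool.Agent.V11327.PR
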