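import Pool.Agent.V11327.PRC
import Pool.Agent.V11327.PRB
import Pool.Agent.V11327.PRA

set_option autoImplicit false

namespace Pool.Agent.V11327.PR

open Pool.Agent.Helper227 Real

/-- `c / 2 ^ k`, `s / 2 ^ k` approximate the cosine and sine of `2 π (0.ζ)`; `N` is a witness. -/
def CS (ζ : List Bool) (c s : ℤ) (k N : ℕ) : Prop :=
  7 ≤ N ∧
  (c * ((wd N * 2 ^ ζ.length * N) ^ N : ℕ) -
      2 ^ k * (G ((wd N * 2 ^ ζ.length * N : ℕ) : ℤ) ((4 * wn N * nv ζ : ℕ) : ℤ) N).1).natAbs * N +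
    110000 * 2 ^ k * (wd N * 2 ^ ζ.length * N) ^ N ≤ N * (wd N * 2 ^ ζ.length * N) ^ N ∧
  (s * ((wd N * 2 ^ ζ.length * N) ^ N : ℕ) -
      2 ^ k * (G ((wd N * 2 ^ ζ.length * N : ℕ) : ℤ) ((4 * wn N * nv ζ : ℕ) : ℤ) N).2).natAbs * N +
    110000 * 2 ^ k * (wd N * 2 ^ ζ.length * N) ^ N ≤ N * (wd N * 2 ^ ζ.length * N) ^ N

lemma cs_aux {M N k : ℕ} {c P : ℤ} {r : ℝ} (hM : 0 < M) (hN : 0 < N)
    (h : (c * (M ^ N : ℕ) - 2 ^ k * P).natAbs * N + 110000 * 2 ^ k * M ^ N ≤ N * M ^ N)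
    (hr : |r - (P : ℝ) / (M : ℝ) ^ N| ≤ 110000 / N) : |r - c / 2 ^ k| ≤ 1 / 2 ^ k := by
  have hMr : (0 : ℝ) < (M : ℝ) ^ N := by positivity
  have hNr : (0 : ℝ) < N := by exact_mod_cast hN
  have h1 : |(c : ℝ) * (M : ℝ) ^ N - 2 ^ k * P| * N + 110000 * 2 ^ k * (M : ℝ) ^ N ≤
      N * (M : ℝ) ^ N := by
    have h2 : (((c * (M ^ N : ℕ) - 2 ^ k * P).natAbs : ℕ) : ℝ) =
        |(c : ℝ) * (M : ℝ) ^ N - 2 ^ k * P| := by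
      rw [Nat.cast_natAbs]
      push_cast
      rfl
    rw [← h2]
    exact_mod_cast h
  have h3 : |(P : ℝ) / (M : ℝ) ^ N - c / 2 ^ k| =
      |(c : ℝ) * (M : ℝ) ^ N - 2 ^ k * P| / ((M : ℝ) ^ N * 2 ^ k) := by
    rw [← abs_of_pos (show (0 : ℝ) < (M : ℝ) ^ N * 2 ^ k by positivity), ← abs_div, abs_sub_comm]
    congr 1
    field_simp
  have h4 : |(P : ℝ) / (M : ℝ) ^ N - c / 2 ^ k| ≤ 1 / 2 ^ k - 110000 / N := by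
    rw [h3, div_le_iff₀ (by positivity)]
    have e : (1 / 2 ^ k - 110000 / (N : ℝ)) * ((M : ℝ) ^ N * 2 ^ k) =
        ((N : ℝ) * (M : ℝ) ^ N - 110000 * 2 ^ k * (M : ℝ) ^ N) / N := by
      field_simp
    rw [e, le_div_iff₀ hNr]
    linarith
  calc |r - c / 2 ^ k| ≤ |r - (P : ℝ) / (M : ℝ) ^ N| + |(P : ℝ) / (M : ℝ) ^ N - c / 2 ^ k| :=
        abs_sub_le _ _ _
    _ ≤ 1 / 2 ^ k := by linarith

lemma CS.sound {ζ : List Bool} {c s : ℤ} {k N : ℕ} (h : CS ζ c s k N) :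
    |Real.cos (2 * π * (nv ζ / 2 ^ ζ.length)) - c / 2 ^ k| ≤ 1 / 2 ^ k ∧
    |Real.sin (2 * π * (nv ζ / 2 ^ ζ.length)) - s / 2 ^ k| ≤ 1 / 2 ^ k := by
  obtain ⟨h7, h1, h2⟩ := h
  have hN : 0 < N := by omega
  have hM : 0 < wd N * 2 ^ ζ.length * N := by
    have := wd_pos N
    positivity
  have ha := approx (nv ζ) ζ.length N (nv_lt ζ) h7
  exact ⟨cs_aux hM hN h1 ha.1, cs_aux hM hN h2 ha.2⟩

lemma exists_round {M N k : ℕ} (P : ℤ) (hM : 0 < M) (hN : 220000 * 2 ^ k ≤ N) :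
    ∃ c : ℤ, (c * (M ^ N : ℕ) - 2 ^ k * P).natAbs * N + 110000 * 2 ^ k * M ^ N ≤ N * M ^ N := by
  have hMr : (0 : ℝ) < (M : ℝ) ^ N := by positivity
  refine ⟨round (2 ^ k * (P : ℝ) / (M : ℝ) ^ N), ?_⟩
  set c : ℤ := round (2 ^ k * (P : ℝ) / (M : ℝ) ^ N) with hc
  have h1 : |2 ^ k * (P : ℝ) / (M : ℝ) ^ N - c| ≤ 1 / 2 := abs_sub_round _
  have h2 : |(c : ℝ) * (M : ℝ) ^ N - 2 ^ k * P| ≤ 1 / 2 * (M : ℝ) ^ N := by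
    have e : (c : ℝ) * (M : ℝ) ^ N - 2 ^ k * P =
        -((2 ^ k * (P : ℝ) / (M : ℝ) ^ N - c) * (M : ℝ) ^ N) := by
      field_simp
      ring
    rw [e, abs_neg, abs_mul, abs_of_pos hMr]
    gcongr
  have h3 : (((c * (M ^ N : ℕ) - 2 ^ k * P).natAbs : ℕ) : ℝ) =
      |(c : ℝ) * (M : ℝ) ^ N - 2 ^ k * P| := by
    rw [Nat.cast_natAbs]
    push_cast
    rfl
  have hNr : (220000 : ℝ) * 2 ^ k ≤ N := by exact_mod_cast hN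
  have h4 : (((c * (M ^ N : ℕ) - 2 ^ k * P).natAbs : ℕ) : ℝ) * N + 110000 * 2 ^ k * (M : ℝ) ^ N ≤
      N * (M : ℝ) ^ N := by
    rw [h3]
    have h5 : |(c : ℝ) * (M : ℝ) ^ N - 2 ^ k * P| * N ≤ 1 / 2 * (M : ℝ) ^ N * N := by gcongr
    have h6 : (220000 : ℝ) * 2 ^ k * (M : ℝ) ^ N ≤ N * (M : ℝ) ^ N := by gcongr
    linarith
  exact_mod_cast h4

lemma CS.complete (ζ : List Bool) (k : ℕ) : ∃ c s N, CS ζ c s k N := by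
  set N := 220000 * 2 ^ k with hN
  have h1 : 0 < 2 ^ k := by positivity
  have hM : 0 < wd N * 2 ^ ζ.length * N := by
    have := wd_pos N
    positivity
  obtain ⟨c, hc⟩ := exists_round (k := k) (N := N)
    (G ((wd N * 2 ^ ζ.length * N : ℕ) : ℤ) ((4 * wn N * nv ζ : ℕ) : ℤ) N).1 hM le_rfl
  obtain ⟨s, hs⟩ := exists_round (k := k) (N := N)
    (G ((wd N * 2 ^ ζ.length * N : ℕ) : ℤ) ((4 * wn N * nv ζ : ℕ) : ℤ) N).2 hM le_rfl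
  exact ⟨c, s, N, by omega, hc, hs⟩

/-- `w / 2 ^ r` approximates `(X c + Y s) / 4 ^ k`, with room for the errors. -/
def Q (X Y c s : ℤ) (k : ℕ) (w : ℤ) (r : ℕ) : Prop :=
  (w * 4 ^ k - 2 ^ r * (X * c + Y * s)).natAbs +
    2 ^ r * (X.natAbs + Y.natAbs + c.natAbs + s.natAbs + 2) ≤ 4 ^ k

lemma mul_err {x c' : ℝ} {X c : ℤ} {k : ℕ} (hx : |x - X / 2 ^ k| ≤ 1 / 2 ^ k)
    (hc : |c' - c / 2 ^ k| ≤ 1 / 2 ^ k) :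
    |x * c' - X * c / 4 ^ k| ≤ (|(X : ℝ)| + |(c : ℝ)| + 1) / 4 ^ k := by
  have e4 : (4 : ℝ) ^ k = 2 ^ k * 2 ^ k := by rw [← mul_pow]; norm_num
  have e : x * c' - X * c / 4 ^ k = (X / 2 ^ k) * (c' - c / 2 ^ k) + (c / 2 ^ k) * (x - X / 2 ^ k) +
      (x - X / 2 ^ k) * (c' - c / 2 ^ k) := by
    rw [e4]; field_simp; ring
  rw [e]
  calc _ ≤ |(X : ℝ) / 2 ^ k| * |c' - c / 2 ^ k| + |(c : ℝ) / 2 ^ k| * |x - X / 2 ^ k| +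
        |x - X / 2 ^ k| * |c' - c / 2 ^ k| := by
        refine (abs_add_le _ _).trans ?_
        rw [← abs_mul, ← abs_mul, ← abs_mul]
        gcongr
        exact abs_add_le _ _
    _ ≤ |(X : ℝ) / 2 ^ k| * (1 / 2 ^ k) + |(c : ℝ) / 2 ^ k| * (1 / 2 ^ k) +
        (1 / 2 ^ k) * (1 / 2 ^ k) := by gcongr
    _ = (|(X : ℝ)| + |(c : ℝ)| + 1) / 4 ^ k := by
        rw [abs_div, abs_div, abs_of_pos (show (0 : ℝ) < 2 ^ k by positivity), e4]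
        field_simp

lemma Q.sound {x y c' s' : ℝ} {X Y c s w : ℤ} {k r : ℕ} (h : Q X Y c s k w r)
    (hx : |x - X / 2 ^ k| ≤ 1 / 2 ^ k) (hy : |y - Y / 2 ^ k| ≤ 1 / 2 ^ k)
    (hc : |c' - c / 2 ^ k| ≤ 1 / 2 ^ k) (hs : |s' - s / 2 ^ k| ≤ 1 / 2 ^ k) :
    |x * c' + y * s' - w / 2 ^ r| ≤ 1 / 2 ^ r := by
  have h1 := mul_err hx hc
  have h2 := mul_err hy hs
  have h3 : |(w : ℝ) * 4 ^ k - 2 ^ r * (X * c + Y * s)| +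
      2 ^ r * (|(X : ℝ)| + |(Y : ℝ)| + |(c : ℝ)| + |(s : ℝ)| + 2) ≤ 4 ^ k := by
    have h4 : (((w * 4 ^ k - 2 ^ r * (X * c + Y * s)).natAbs : ℕ) : ℝ) =
        |(w : ℝ) * 4 ^ k - 2 ^ r * (X * c + Y * s)| := by
      rw [Nat.cast_natAbs]; push_cast; rfl
    have h5 : ∀ z : ℤ, ((z.natAbs : ℕ) : ℝ) = |(z : ℝ)| := fun z => by
      rw [Nat.cast_natAbs]; push_cast; rfl
    rw [← h4, ← h5, ← h5, ← h5, ← h5]
    unfold Q at h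
    exact_mod_cast h
  have h6 : |(X * c + Y * s) / (4 : ℝ) ^ k - w / 2 ^ r| =
      |(w : ℝ) * 4 ^ k - 2 ^ r * (X * c + Y * s)| / (4 ^ k * 2 ^ r) := by
    rw [← abs_of_pos (show (0 : ℝ) < (4 : ℝ) ^ k * 2 ^ r by positivity), ← abs_div, abs_sub_comm]
    congr 1
    field_simp
  calc |x * c' + y * s' - w / 2 ^ r|
      = |(x * c' - X * c / 4 ^ k) + (y * s' - Y * s / 4 ^ k) +
          ((X * c + Y * s) / (4 : ℝ) ^ k - w / 2 ^ r)| := by congr 1; ring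
    _ ≤ |x * c' - X * c / 4 ^ k| + |y * s' - Y * s / 4 ^ k| +
          |(X * c + Y * s) / (4 : ℝ) ^ k - w / 2 ^ r| := abs_add_three _ _ _
    _ ≤ (|(X : ℝ)| + |(c : ℝ)| + 1) / 4 ^ k + (|(Y : ℝ)| + |(s : ℝ)| + 1) / 4 ^ k +
          |(w : ℝ) * 4 ^ k - 2 ^ r * (X * c + Y * s)| / (4 ^ k * 2 ^ r) := by
        rw [h6]; gcongr
    _ = (|(w : ℝ) * 4 ^ k - 2 ^ r * (X * c + Y * s)| +
          2 ^ r * (|(X : ℝ)| + |(Y : ℝ)| + |(c : ℝ)| + |(s : ℝ)| + 2)) / (4 ^ k * 2 ^ r) := by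
        field_simp; ring
    _ ≤ 4 ^ k / (4 ^ k * 2 ^ r) := by gcongr
    _ = 1 / 2 ^ r := by field_simp

lemma Q.complete (x y : ℝ) (r : ℕ) : ∃ k : ℕ, ∀ X Y c s : ℤ, |x - X / 2 ^ k| ≤ 1 / 2 ^ k →
    |y - Y / 2 ^ k| ≤ 1 / 2 ^ k → |(c : ℝ) / 2 ^ k| ≤ 2 → |(s : ℝ) / 2 ^ k| ≤ 2 →
    ∃ w, Q X Y c s k w r := by
  obtain ⟨k, hk⟩ := pow_unbounded_of_one_lt (2 ^ (r + 1) * (|x| + |y| + 8)) (one_lt_two (α := ℝ))
  refine ⟨k, fun X Y c s hX hY hc hs => ?_⟩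
  have hk0 : (0 : ℝ) < 2 ^ k := by positivity
  have hk1 : (1 : ℝ) ≤ 2 ^ k := one_le_pow₀ (by norm_num)
  have e4 : (4 : ℝ) ^ k = 2 ^ k * 2 ^ k := by rw [← mul_pow]; norm_num
  refine ⟨round (2 ^ r * ((X : ℝ) * c + Y * s) / 4 ^ k), ?_⟩
  set w : ℤ := round (2 ^ r * ((X : ℝ) * c + Y * s) / 4 ^ k) with hw
  have h1 : |2 ^ r * ((X : ℝ) * c + Y * s) / 4 ^ k - w| ≤ 1 / 2 := abs_sub_round _
  have h2 : |(w : ℝ) * 4 ^ k - 2 ^ r * (X * c + Y * s)| ≤ 1 / 2 * 4 ^ k := by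
    have e : (w : ℝ) * 4 ^ k - 2 ^ r * (X * c + Y * s) =
        -((2 ^ r * ((X : ℝ) * c + Y * s) / 4 ^ k - w) * 4 ^ k) := by
      field_simp
      ring
    rw [e, abs_neg, abs_mul, abs_of_pos (show (0 : ℝ) < 4 ^ k by positivity)]
    gcongr
  have hb : ∀ (x : ℝ) (X : ℤ), |x - X / 2 ^ k| ≤ 1 / 2 ^ k → |(X : ℝ)| ≤ (|x| + 1) * 2 ^ k := by
    intro x X h
    have h3 : |(X : ℝ) / 2 ^ k| ≤ |x| + 1 := by
      have h4 : |(X : ℝ) / 2 ^ k| ≤ |x| + |x - X / 2 ^ k| := by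
        have := abs_sub_abs_le_abs_sub ((X : ℝ) / 2 ^ k) x
        rw [abs_sub_comm ((X : ℝ) / 2 ^ k) x] at this
        linarith
      have h5 : (1 : ℝ) / 2 ^ k ≤ 1 := by rw [div_le_one hk0]; exact hk1
      linarith
    rw [abs_div, abs_of_pos hk0, div_le_iff₀ hk0] at h3
    exact h3
  have hb2 : ∀ c : ℤ, |(c : ℝ) / 2 ^ k| ≤ 2 → |(c : ℝ)| ≤ 2 * 2 ^ k := by
    intro c h
    rwa [abs_div, abs_of_pos hk0, div_le_iff₀ hk0] at h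
  have b1 := hb x X hX
  have b2 := hb y Y hY
  have b3 := hb2 c hc
  have b4 := hb2 s hs
  have h5 : ∀ z : ℤ, ((z.natAbs : ℕ) : ℝ) = |(z : ℝ)| := fun z => by
    rw [Nat.cast_natAbs]; push_cast; rfl
  have h4 : (((w * 4 ^ k - 2 ^ r * (X * c + Y * s)).natAbs : ℕ) : ℝ) =
      |(w : ℝ) * 4 ^ k - 2 ^ r * (X * c + Y * s)| := by
    rw [Nat.cast_natAbs]; push_cast; rfl
  have h6 : (((w * 4 ^ k - 2 ^ r * (X * c + Y * s)).natAbs : ℕ) : ℝ) +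
      2 ^ r * ((X.natAbs : ℕ) + (Y.natAbs : ℕ) + (c.natAbs : ℕ) + (s.natAbs : ℕ) + 2) ≤
      (4 : ℝ) ^ k := by
    rw [h4, h5, h5, h5, h5]
    have h7 : |(X : ℝ)| + |(Y : ℝ)| + |(c : ℝ)| + |(s : ℝ)| + 2 ≤ (|x| + |y| + 8) * 2 ^ k := by
      nlinarith
    have h8 : (2 : ℝ) ^ r * (|(X : ℝ)| + |(Y : ℝ)| + |(c : ℝ)| + |(s : ℝ)| + 2) ≤
        2 ^ r * ((|x| + |y| + 8) * 2 ^ k) := by gcongr
    have h9 : (2 : ℝ) ^ r * ((|x| + |y| + 8) * 2 ^ k) ≤ 1 / 2 * 4 ^ k := by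
      have h10 : 2 ^ (r + 1) * (|x| + |y| + 8) * 2 ^ k ≤ 2 ^ k * 2 ^ k := by gcongr
      rw [e4]
      rw [pow_succ] at h10
      nlinarith
    linarith
  unfold Q
  exact_mod_cast h6

end Pool.Agent.V11327.PR
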