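import Pool.Agent.V11327.PRD
import Pool.Agent.V11268.ML.IntRec

set_option autoImplicit false

namespace Pool.Agent.V11327.PR

open Pool.Agent.Helper227 Pool.Agent.V11268.ML

section prim
variable {α : Type} [Primcodable α]

lemma p_pow {f g : α → ℕ} (hf : Primrec f) (hg : Primrec g) : Primrec fun a => f a ^ g a := by
  have h : Primrec fun a : α => (Nat.rec 1 (fun _ ih => ih * f a) (g a) : ℕ) :=
    Primrec.nat_rec' hg (Primrec.const 1)
      ((Primrec.nat_mul.comp (Primrec.snd.comp Primrec.snd) (hf.comp Primrec.fst)).to₂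
        (α := α) (β := ℕ × ℕ))
  refine h.of_eq fun a => ?_
  induction g a with
  | zero => simp
  | succ n ih => rw [pow_succ, ← ih]

lemma p_int {f : α → ℕ} (hf : Primrec f) : Primrec fun a => (f a : ℤ) := by
  have := primrec_sub.comp hf (Primrec.const 0)
  refine this.of_eq fun a => ?_
  simp

lemma p_add {f g : α → ℤ} (hf : Primrec f) (hg : Primrec g) : Primrec fun a => f a + g a :=
  primrec_add.comp hf hg

lemma p_mul {f g : α → ℤ} (hf : Primrec f) (hg : Primrec g) : Primrec fun a => f a * g a :=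
  primrec_mul.comp hf hg

lemma p_sub {f g : α → ℤ} (hf : Primrec f) (hg : Primrec g) : Primrec fun a => f a - g a := by
  have := p_add hf (p_mul (Primrec.const (-1)) hg)
  refine this.of_eq fun a => ?_
  ring

lemma p_lt {f g : α → ℤ} (hf : Primrec f) (hg : Primrec g) : PrimrecPred fun a => f a < g a := by
  have h : PrimrecPred fun a => 0 < (g a - f a).toNat :=
    Primrec.nat_lt.comp (Primrec.const 0) (primrec_toNat.comp (p_sub hg hf))
  refine h.of_eq fun a => ?_
  omega

lemma p_ipow {f : α → ℕ} {g : α → ℕ} (hf : Primrec f) (hg : Primrec g) :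
    Primrec fun a => (f a : ℤ) ^ g a := by
  refine (p_int (p_pow hf hg)).of_eq fun a => ?_
  push_cast; rfl

end prim

lemma p_wn : Primrec wn := by
  have h : Primrec (Nat.rec 1 (fun k ih => ih * ((2 * k + 2) * (2 * k + 2))) : ℕ → ℕ) := by
    refine Primrec.nat_rec₁ 1 ?_
    have e : Primrec fun p : ℕ × ℕ => 2 * p.1 + 2 :=
      Primrec.nat_add.comp (Primrec.nat_mul.comp (Primrec.const 2) Primrec.fst) (Primrec.const 2)
    exact (Primrec.nat_mul.comp Primrec.snd (Primrec.nat_mul.comp e e)).to₂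
  refine h.of_eq fun n => ?_
  induction n with
  | zero => rfl
  | succ n ih => rw [wn, ← ih]

lemma p_wd : Primrec wd := by
  have h : Primrec (Nat.rec 1 (fun k ih => ih * ((2 * k + 1) * (2 * k + 3))) : ℕ → ℕ) := by
    refine Primrec.nat_rec₁ 1 ?_
    have e : Primrec fun p : ℕ × ℕ => 2 * p.1 + 1 :=
      Primrec.nat_add.comp (Primrec.nat_mul.comp (Primrec.const 2) Primrec.fst) (Primrec.const 1)
    have e' : Primrec fun p : ℕ × ℕ => 2 * p.1 + 3 :=
      Primrec.nat_add.comp (Primrec.nat_mul.comp (Primrec.const 2) Primrec.fst) (Primrec.const 3)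
    exact (Primrec.nat_mul.comp Primrec.snd (Primrec.nat_mul.comp e e')).to₂
  refine h.of_eq fun n => ?_
  induction n with
  | zero => rfl
  | succ n ih => rw [wd, ← ih]

lemma p_nv : Primrec nv := by
  have ht : Primrec Bool.toNat := Primrec.dom_finite _
  have h := Primrec.list_foldl (f := fun σ : List Bool => σ) (g := fun _ => 0)
    (h := fun _ (p : ℕ × Bool) => 2 * p.1 + p.2.toNat) Primrec.id (Primrec.const 0)
    ((Primrec.nat_add.comp (Primrec.nat_mul.comp (Primrec.const 2) (Primrec.fst.comp Primrec.snd))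
      (ht.comp (Primrec.snd.comp Primrec.snd))).to₂ (α := List Bool) (β := ℕ × Bool))
  exact h.of_eq fun σ => rfl

lemma p_G {α : Type} [Primcodable α] {M T : α → ℤ} {N : α → ℕ} (hM : Primrec M) (hT : Primrec T)
    (hN : Primrec N) : Primrec fun a => G (M a) (T a) (N a) := by
  have h : Primrec fun a : α => (Nat.rec ((1 : ℤ), (0 : ℤ))
      (fun _ p => (p.1 * M a - p.2 * T a, p.1 * T a + p.2 * M a)) (N a) : ℤ × ℤ) := by
    refine Primrec.nat_rec' (h := fun a (q : ℕ × ℤ × ℤ) =>
      (q.2.1 * M a - q.2.2 * T a, q.2.1 * T a + q.2.2 * M a)) hN (Primrec.const (1, 0)) ?_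
    have q1 : Primrec fun x : α × ℕ × ℤ × ℤ => x.2.2.1 :=
      Primrec.fst.comp (Primrec.snd.comp Primrec.snd)
    have q2 : Primrec fun x : α × ℕ × ℤ × ℤ => x.2.2.2 :=
      Primrec.snd.comp (Primrec.snd.comp Primrec.snd)
    have m : Primrec fun x : α × ℕ × ℤ × ℤ => M x.1 := hM.comp Primrec.fst
    have t : Primrec fun x : α × ℕ × ℤ × ℤ => T x.1 := hT.comp Primrec.fst
    exact ((p_sub (p_mul q1 m) (p_mul q2 t)).pair (p_add (p_mul q1 t) (p_mul q2 m))).to₂
  refine h.of_eq fun a => ?_
  induction N a with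
  | zero => rfl
  | succ n ih => rw [G, ← ih]

lemma p_CS {α : Type} [Primcodable α] {ζ : α → List Bool} {c s : α → ℤ} {k N : α → ℕ}
    (hζ : Primrec ζ) (hc : Primrec c) (hs : Primrec s) (hk : Primrec k) (hN : Primrec N) :
    PrimrecPred fun a => CS (ζ a) (c a) (s a) (k a) (N a) := by
  have hM : Primrec fun a => wd (N a) * 2 ^ (ζ a).length * N a :=
    Primrec.nat_mul.comp (Primrec.nat_mul.comp (p_wd.comp hN)
      (p_pow (Primrec.const 2) (Primrec.list_length.comp hζ))) hN
  have hT : Primrec fun a => 4 * wn (N a) * nv (ζ a) :=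
    Primrec.nat_mul.comp (Primrec.nat_mul.comp (Primrec.const 4) (p_wn.comp hN)) (p_nv.comp hζ)
  have hG := p_G (p_int hM) (p_int hT) hN
  have hMN := p_pow hM hN
  have h2 : Primrec fun a => (2 : ℤ) ^ k a := by
    refine (p_ipow (Primrec.const 2) hk).of_eq fun a => ?_
    norm_num
  have hr : Primrec fun a => N a * (wd (N a) * 2 ^ (ζ a).length * N a) ^ N a :=
    Primrec.nat_mul.comp hN hMN
  have hm : Primrec fun a => 110000 * 2 ^ k a * (wd (N a) * 2 ^ (ζ a).length * N a) ^ N a :=
    Primrec.nat_mul.comp (Primrec.nat_mul.comp (Primrec.const 110000) (p_pow (Primrec.const 2) hk))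
      hMN
  refine PrimrecPred.and (Primrec.nat_le.comp (Primrec.const 7) hN) (PrimrecPred.and ?_ ?_)
  · exact Primrec.nat_le.comp (Primrec.nat_add.comp (Primrec.nat_mul.comp
      (primrec_natAbs.comp (p_sub (p_mul hc (p_int hMN)) (p_mul h2 (Primrec.fst.comp hG)))) hN) hm)
      hr
  · exact Primrec.nat_le.comp (Primrec.nat_add.comp (Primrec.nat_mul.comp
      (primrec_natAbs.comp (p_sub (p_mul hs (p_int hMN)) (p_mul h2 (Primrec.snd.comp hG)))) hN) hm)
      hr

lemma p_Q {α : Type} [Primcodable α] {X Y c s w : α → ℤ} {k r : α → ℕ}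
    (hX : Primrec X) (hY : Primrec Y) (hc : Primrec c) (hs : Primrec s) (hk : Primrec k)
    (hw : Primrec w) (hr : Primrec r) :
    PrimrecPred fun a => Q (X a) (Y a) (c a) (s a) (k a) (w a) (r a) := by
  have h2 : Primrec fun a => (2 : ℤ) ^ r a := by
    refine (p_ipow (Primrec.const 2) hr).of_eq fun a => ?_
    norm_num
  have h4 : Primrec fun a => (4 : ℤ) ^ k a := by
    refine (p_ipow (Primrec.const 4) hk).of_eq fun a => ?_
    norm_num
  refine Primrec.nat_le.comp (Primrec.nat_add.comp (primrec_natAbs.comp (p_sub (p_mul hw h4)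
    (p_mul h2 (p_add (p_mul hX hc) (p_mul hY hs))))) (Primrec.nat_mul.comp
      (p_pow (Primrec.const 2) hr) (Primrec.nat_add.comp (Primrec.nat_add.comp (Primrec.nat_add.comp
        (Primrec.nat_add.comp (primrec_natAbs.comp hX) (primrec_natAbs.comp hY))
          (primrec_natAbs.comp hc)) (primrec_natAbs.comp hs)) (Primrec.const 2)))) ?_
  exact p_pow (Primrec.const 4) hk

end Pool.Agent.V11327.PR
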