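import Pool.Agent.V11327.PRE

set_option autoImplicit false

namespace Pool.Agent.V11327.PR

open Pool.Agent.Helper227 Pool.Agent.V11268.ML Real

/-- The oracle `z` gives approximations of `x`. -/
def Apx (z : ℕ → Bool) (x : ℝ) : Prop := ∃ P : List Bool × ℤ × ℕ → Prop, S1 P ∧
  (∀ (α β : List Bool) (u : ℤ) (k : ℕ), α <+: β → P (α, u, k) → P (β, u, k)) ∧
  (∀ (s : ℕ) (u : ℤ) (k : ℕ), P (pre z s, u, k) → |x - u / 2 ^ k| ≤ 1 / 2 ^ k) ∧
  ∀ k, ∃ (s : ℕ) (u : ℤ), P (pre z s, u, k)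

lemma floor_err (t : ℝ) (k : ℕ) : |t - ((⌊t⌋ * 2 ^ k + (nv (pre (bits t) k) : ℤ) : ℤ) : ℝ) / 2 ^ k| ≤
    1 / 2 ^ k := by
  have h := nv_pre_bits t k
  have h1 : (((nv (pre (bits t) k) : ℕ) : ℤ) : ℝ) = (⌊2 ^ k * Int.fract t⌋ : ℝ) := by rw [h]
  have hk : (0 : ℝ) < 2 ^ k := by positivity
  have h2 := Int.floor_le (2 ^ k * Int.fract t)
  have h3 := Int.lt_floor_add_one (2 ^ k * Int.fract t)
  have h4 : t = ⌊t⌋ + Int.fract t := (Int.floor_add_fract t).symm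
  push_cast at h1 ⊢
  rw [h1]
  have e : t - ((⌊t⌋ : ℝ) * 2 ^ k + (⌊2 ^ k * Int.fract t⌋ : ℝ)) / 2 ^ k =
      (2 ^ k * Int.fract t - ⌊2 ^ k * Int.fract t⌋) / 2 ^ k := by
    rw [eq_div_iff hk.ne', sub_mul, div_mul_cancel₀ _ hk.ne']
    conv_lhs => rw [show t * 2 ^ k = (⌊t⌋ + Int.fract t) * 2 ^ k by rw [← h4]]
    ring
  rw [e, abs_div, abs_of_pos hk, abs_of_nonneg (by linarith)]
  gcongr
  linarith

lemma apx_of_TLe {z : ℕ → Bool} {x : ℝ} (h : TLe (bits x) z) : Apx z x := by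
  obtain ⟨E, hE, mE, eE⟩ := tLe_iff.1 h
  refine ⟨fun a => ∃ σ : List Bool, (σ.length = a.2.2 ∧ a.2.1 = ⌊x⌋ * 2 ^ a.2.2 + (nv σ : ℤ)) ∧
    ∀ i < a.2.2, E (a.1, i, σ.getD i false), ?_, ?_, ?_, ?_⟩
  · refine S1.ex (S1.and (S1.of_prim (PrimrecPred.and ?_ ?_)) (S1.all_lt ?_ ?_))
    · exact Primrec.eq.comp (Primrec.list_length.comp Primrec.snd)
        (Primrec.snd.comp (Primrec.snd.comp Primrec.fst))
    · refine Primrec.eq.comp (Primrec.fst.comp (Primrec.snd.comp Primrec.fst)) ?_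
      refine p_add (p_mul (Primrec.const _) ?_) (p_int (p_nv.comp Primrec.snd))
      refine (p_ipow (Primrec.const 2) (Primrec.snd.comp (Primrec.snd.comp Primrec.fst))).of_eq
        fun a => ?_
      norm_num
    · refine hE.comp (f := fun q : ((List Bool × ℤ × ℕ) × List Bool) × ℕ =>
        (q.1.1.1, q.2, q.1.2.getD q.2 false)) ?_
      exact (Primrec.fst.comp (Primrec.fst.comp Primrec.fst)).pair (Primrec.snd.pair
        ((Primrec.list_getD false).comp (Primrec.snd.comp Primrec.fst) Primrec.snd))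
    · exact Primrec.snd.comp (Primrec.snd.comp Primrec.fst)
  · rintro α β u k hαβ ⟨σ, h1, h2⟩
    exact ⟨σ, h1, fun i hi => mE _ _ _ _ hαβ (h2 i hi)⟩
  · rintro s u k ⟨σ, ⟨h1, h2⟩, h3⟩
    simp only at h1 h2 h3
    have h4 : σ = pre (bits x) k := by
      apply List.ext_getElem (by simpa using h1)
      intro i hi _
      have h5 := (eE i _).2 ⟨s, h3 i (by omega)⟩
      rw [getElem_pre, h5]
      simp [List.getD, hi]
    rw [h2, h4]
    exact floor_err x k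
  · intro k
    have h5 : ∀ i, ∃ s, E (pre z s, i, bits x i) := fun i => (eE i _).1 rfl
    choose S hS using h5
    refine ⟨(Finset.range k).sup S, ⌊x⌋ * 2 ^ k + (nv (pre (bits x) k) : ℤ), pre (bits x) k,
      ⟨by simp, rfl⟩, ?_⟩
    intro i hi
    simp only at hi ⊢
    rw [pre_getD _ _ _ _ hi]
    exact mE _ _ _ _ (pre_prefix z (Finset.le_sup (f := S) (Finset.mem_range.2 hi))) (hS i)

lemma apx_F {z : ℕ → Bool} {x y : ℝ} (hx : Apx z x) (hy : Apx z y) :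
    ∃ P : List Bool × List Bool × ℤ × ℕ → Prop, S1 P ∧
      (∀ (s : ℕ) (ζ : List Bool) (w : ℤ) (r : ℕ), P (pre z s, ζ, w, r) →
        |F x y (nv ζ / 2 ^ ζ.length) - w / 2 ^ r| ≤ 1 / 2 ^ r) ∧
      (∀ (α β : List Bool) (ζ : List Bool) (w : ℤ) (r : ℕ), α <+: β → P (α, ζ, w, r) →
        P (β, ζ, w, r)) ∧
      ∀ (ζ : List Bool) (r : ℕ), ∃ (s : ℕ) (w : ℤ), P (pre z s, ζ, w, r) := by
  obtain ⟨A, hA, mA, sA, cA⟩ := hx
  obtain ⟨B, hB, mB, sB, cB⟩ := hy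
  refine ⟨fun a => ∃ d : ℕ × ℤ × ℤ × ℤ × ℤ × ℕ,
    (CS a.2.1 d.2.2.2.1 d.2.2.2.2.1 d.1 d.2.2.2.2.2 ∧
      Q d.2.1 d.2.2.1 d.2.2.2.1 d.2.2.2.2.1 d.1 a.2.2.1 a.2.2.2) ∧
      (A (a.1, d.2.1, d.1) ∧ B (a.1, d.2.2.1, d.1)), ?_, ?_, ?_, ?_⟩
  · have v1 : Primrec fun q : (List Bool × List Bool × ℤ × ℕ) × (ℕ × ℤ × ℤ × ℤ × ℤ × ℕ) => q.2.1 :=
      Primrec.fst.comp Primrec.snd
    have v2 : Primrec fun q : (List Bool × List Bool × ℤ × ℕ) × (ℕ × ℤ × ℤ × ℤ × ℤ × ℕ) =>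
      q.2.2.1 := Primrec.fst.comp (Primrec.snd.comp Primrec.snd)
    have v3 : Primrec fun q : (List Bool × List Bool × ℤ × ℕ) × (ℕ × ℤ × ℤ × ℤ × ℤ × ℕ) =>
      q.2.2.2.1 := Primrec.fst.comp (Primrec.snd.comp (Primrec.snd.comp Primrec.snd))
    have v4 : Primrec fun q : (List Bool × List Bool × ℤ × ℕ) × (ℕ × ℤ × ℤ × ℤ × ℤ × ℕ) =>
      q.2.2.2.2.1 :=
      Primrec.fst.comp (Primrec.snd.comp (Primrec.snd.comp (Primrec.snd.comp Primrec.snd)))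
    have v5 : Primrec fun q : (List Bool × List Bool × ℤ × ℕ) × (ℕ × ℤ × ℤ × ℤ × ℤ × ℕ) =>
      q.2.2.2.2.2.1 := Primrec.fst.comp (Primrec.snd.comp (Primrec.snd.comp
        (Primrec.snd.comp (Primrec.snd.comp Primrec.snd))))
    have v6 : Primrec fun q : (List Bool × List Bool × ℤ × ℕ) × (ℕ × ℤ × ℤ × ℤ × ℤ × ℕ) =>
      q.2.2.2.2.2.2 := Primrec.snd.comp (Primrec.snd.comp (Primrec.snd.comp
        (Primrec.snd.comp (Primrec.snd.comp Primrec.snd))))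
    refine S1.ex (S1.and (S1.of_prim (PrimrecPred.and ?_ ?_)) (S1.and ?_ ?_))
    · exact p_CS (Primrec.fst.comp (Primrec.snd.comp Primrec.fst)) v4 v5 v1 v6
    · exact p_Q v2 v3 v4 v5 v1
        (Primrec.fst.comp (Primrec.snd.comp (Primrec.snd.comp Primrec.fst)))
        (Primrec.snd.comp (Primrec.snd.comp (Primrec.snd.comp Primrec.fst)))
    · exact hA.comp ((Primrec.fst.comp Primrec.fst).pair (v2.pair v1))
    · exact hB.comp ((Primrec.fst.comp Primrec.fst).pair (v3.pair v1))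
  · rintro s ζ w r ⟨d, ⟨h1, h2⟩, h3, h4⟩
    have h5 := h1.sound
    exact h2.sound (sA _ _ _ h3) (sB _ _ _ h4) h5.1 h5.2
  · rintro α β ζ w r h ⟨d, h1, h3, h4⟩
    exact ⟨d, h1, mA _ _ _ _ h h3, mB _ _ _ _ h h4⟩
  · intro ζ r
    obtain ⟨k, hk⟩ := Q.complete x y r
    obtain ⟨s1, X, h1⟩ := cA k
    obtain ⟨s2, Y, h2⟩ := cB k
    obtain ⟨c, s, N, h3⟩ := CS.complete ζ k
    have h4 := h3.sound
    have hk1 : (1 : ℝ) / 2 ^ k ≤ 1 := by
      rw [div_le_one (by positivity)]; exact one_le_pow₀ (by norm_num)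
    have hc : |(c : ℝ) / 2 ^ k| ≤ 2 := by
      have := abs_sub_abs_le_abs_sub ((c : ℝ) / 2 ^ k) (Real.cos (2 * π * (nv ζ / 2 ^ ζ.length)))
      rw [abs_sub_comm] at this
      have h5 := Real.abs_cos_le_one (2 * π * (nv ζ / 2 ^ ζ.length))
      linarith [h4.1]
    have hs : |(s : ℝ) / 2 ^ k| ≤ 2 := by
      have := abs_sub_abs_le_abs_sub ((s : ℝ) / 2 ^ k) (Real.sin (2 * π * (nv ζ / 2 ^ ζ.length)))
      rw [abs_sub_comm] at this
      have h5 := Real.abs_sin_le_one (2 * π * (nv ζ / 2 ^ ζ.length))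
      linarith [h4.2]
    obtain ⟨w, hw⟩ := hk X Y c s (sA _ _ _ h1) (sB _ _ _ h2) hc hs
    exact ⟨max s1 s2, w, (k, X, Y, c, s, N), ⟨h3, hw⟩,
      mA _ _ _ _ (pre_prefix z (le_max_left _ _)) h1, mB _ _ _ _ (pre_prefix z (le_max_right _ _)) h2⟩

/-- The interval condition. -/
def Cond (L : ℕ) (u v : ℤ) (p : ℕ) (w : ℤ) (r l : ℕ) : Prop :=
  u * (2 ^ r * 2 ^ l) < ((w - 1) * 2 ^ l - L * 2 ^ r) * 2 ^ p ∧
    ((w + 1) * 2 ^ l + L * 2 ^ r) * 2 ^ p < v * (2 ^ r * 2 ^ l)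

lemma cond_iff {L : ℕ} {u v : ℤ} {p : ℕ} {w : ℤ} {r l : ℕ} : Cond L u v p w r l ↔
    (u : ℝ) / 2 ^ p < (w - 1) / 2 ^ r - L / 2 ^ l ∧
      ((w : ℝ) + 1) / 2 ^ r + L / 2 ^ l < v / 2 ^ p := by
  have e1 : ((w : ℝ) - 1) / 2 ^ r - L / 2 ^ l = ((w - 1) * 2 ^ l - L * 2 ^ r) / (2 ^ r * 2 ^ l) := by
    field_simp
  have e2 : ((w : ℝ) + 1) / 2 ^ r + L / 2 ^ l = ((w + 1) * 2 ^ l + L * 2 ^ r) / (2 ^ r * 2 ^ l) := by
    field_simp
  rw [e1, e2, div_lt_div_iff₀ (by positivity) (by positivity),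
    div_lt_div_iff₀ (by positivity) (by positivity)]
  unfold Cond
  constructor
  · rintro ⟨h1, h2⟩
    exact ⟨by exact_mod_cast h1, by exact_mod_cast h2⟩
  · rintro ⟨h1, h2⟩
    exact ⟨by exact_mod_cast h1, by exact_mod_cast h2⟩

lemma p_cond {α : Type} [Primcodable α] (L : ℕ) {u v w : α → ℤ} {p r l : α → ℕ}
    (hu : Primrec u) (hv : Primrec v) (hp : Primrec p) (hw : Primrec w) (hr : Primrec r)
    (hl : Primrec l) : PrimrecPred fun a => Cond L (u a) (v a) (p a) (w a) (r a) (l a) := by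
  have two : ∀ {f : α → ℕ}, Primrec f → Primrec fun a => (2 : ℤ) ^ f a := fun {f} hf =>
    (p_ipow (Primrec.const 2) hf).of_eq fun a => by norm_num
  refine PrimrecPred.and ?_ ?_
  · exact p_lt (p_mul hu (p_mul (two hr) (two hl)))
      (p_mul (p_sub (p_mul (p_sub hw (Primrec.const 1)) (two hl))
        (p_mul (Primrec.const (L : ℤ)) (two hr))) (two hp))
  · exact p_lt (p_mul (p_add (p_mul (p_add hw (Primrec.const 1)) (two hl))
        (p_mul (Primrec.const (L : ℤ)) (two hr))) (two hp)) (p_mul hv (p_mul (two hr) (two hl)))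

lemma F_lip (x y : ℝ) : ∃ L : ℕ, ∀ a b : ℝ, |F x y a - F x y b| ≤ L * |a - b| := by
  obtain ⟨L, hL⟩ := exists_nat_ge (2 * π * (|x| + |y|))
  refine ⟨L, fun a b => ?_⟩
  have hpi := Real.pi_pos
  have h1 := Real.abs_cos_sub_cos_le (2 * π * a) (2 * π * b)
  have h2 := Real.abs_sin_sub_sin_le (2 * π * a) (2 * π * b)
  have e : |2 * π * a - 2 * π * b| = 2 * π * |a - b| := by
    rw [← mul_sub, abs_mul, abs_of_pos (by positivity)]
  rw [e] at h1 h2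
  have e2 : F x y a - F x y b = x * (Real.cos (2 * π * a) - Real.cos (2 * π * b)) +
      y * (Real.sin (2 * π * a) - Real.sin (2 * π * b)) := by unfold F; ring
  calc |F x y a - F x y b| ≤ |x| * (2 * π * |a - b|) + |y| * (2 * π * |a - b|) := by
        rw [e2]
        refine (abs_add_le _ _).trans ?_
        rw [abs_mul, abs_mul]
        gcongr
    _ = (2 * π * (|x| + |y|)) * |a - b| := by ring
    _ ≤ L * |a - b| := by gcongr

lemma dist_pre {θ : ℝ} (h : θ ∈ Set.Ico (0 : ℝ) 1) (t : ℕ) :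
    |θ - (nv (pre (bits θ) t) : ℝ) / 2 ^ t| ≤ 1 / 2 ^ t := by
  have h1 := floor_err θ t
  have h2 : ⌊θ⌋ = 0 := by
    rw [Int.floor_eq_iff]
    exact ⟨by simpa using h.1, by simpa using h.2⟩
  rw [h2] at h1
  simpa using h1

end Pool.Agent.V11327.PR
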