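import Pool.Agent.V11327.PRF

set_option autoImplicit false

namespace Pool.Agent.V11327.PR

open Pool.Agent.Helper227 Pool.Agent.V11268.ML Real MeasureTheory
open scoped ENNReal

/-- The open set of real numbers enumerated by `J` with the oracle `z` at the index `n`. -/
def WW (J : List Bool × ℕ × ℤ × ℤ × ℕ → Prop) (z : ℕ → Bool) (n : ℕ) : Set ℝ :=
  {t | ∃ (s : ℕ) (u v : ℤ) (p : ℕ), J (pre z s, n, u, v, p) ∧ (u : ℝ) / 2 ^ p < t ∧
    t < (v : ℝ) / 2 ^ p}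

lemma measurable_WW (J : List Bool × ℕ × ℤ × ℤ × ℕ → Prop) (z : ℕ → Bool) (n : ℕ) :
    MeasurableSet (WW J z n) := by
  have h : WW J z n = ⋃ (s : ℕ) (u : ℤ) (v : ℤ) (p : ℕ),
      {t : ℝ | J (pre z s, n, u, v, p) ∧ (u : ℝ) / 2 ^ p < t ∧ t < (v : ℝ) / 2 ^ p} := by
    ext t
    simp only [WW, Set.mem_ofPred_eq, Set.mem_iUnion]
  rw [h]
  refine MeasurableSet.iUnion fun s => MeasurableSet.iUnion fun u => MeasurableSet.iUnion fun v =>
    MeasurableSet.iUnion fun p => ?_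
  refine MeasurableSet.inter (MeasurableSet.const _) ?_
  exact measurableSet_Ioo

lemma ofReal_half_pow (n : ℕ) : ENNReal.ofReal ((1 / 2) ^ n) = (1 / 2) ^ n := by
  rw [ENNReal.ofReal_pow (by norm_num)]
  congr 1
  rw [ENNReal.ofReal_div_of_pos (by norm_num)]
  simp

/-- General form: a projection along a random direction avoids effectively null sets. -/
theorem avoid {z : ℕ → Bool} {x y : ℝ} (hx : Apx z x) (hy : Apx z y) (h0 : ¬ (x = 0 ∧ y = 0))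
    {J : List Bool × ℕ × ℤ × ℤ × ℕ → Prop} (hJ : S1 J)
    (mJ : ∀ (α β : List Bool) (n : ℕ) (u v : ℤ) (p : ℕ), α <+: β → J (α, n, u, v, p) →
      J (β, n, u, v, p))
    (hvol : ∀ R : ℝ, 0 < R → ∃ C : ℝ, 0 ≤ C ∧ ∀ n, volume (WW J z n ∩ Set.Icc (-R) R) ≤
      ENNReal.ofReal (C * (1 / 4) ^ n))
    {θ : ℝ} (hθ : θ ∈ Set.Ico (0 : ℝ) 1) (hr : MLR z (bits θ)) : ∃ n, F x y θ ∉ WW J z n := by
  by_contra hcon
  push Not at hcon
  obtain ⟨P, hP, sP, mP, cP⟩ := apx_F hx hy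
  obtain ⟨R, hR, hmeas⟩ := volume_F_le h0
  obtain ⟨C, hC, hv⟩ := hvol R hR
  obtain ⟨L, hL⟩ := F_lip x y
  have hpi := Real.pi_pos
  obtain ⟨n0, hn0⟩ := pow_unbounded_of_one_lt (1 + 4 * (C / (π * R))) (one_lt_two (α := ℝ))
  set E : List Bool × ℕ × List Bool → Prop := fun a => ∃ d : ℤ × ℤ × ℕ × ℤ × ℕ,
    Cond L d.1 d.2.1 d.2.2.1 d.2.2.2.1 d.2.2.2.2 a.2.2.length ∧
      (J (a.1, a.2.1 + n0, d.1, d.2.1, d.2.2.1) ∧ P (a.1, a.2.2, d.2.2.2.1, d.2.2.2.2)) with hE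
  have hES : S1 E := by
    have v1 : Primrec fun q : (List Bool × ℕ × List Bool) × (ℤ × ℤ × ℕ × ℤ × ℕ) => q.2.1 :=
      Primrec.fst.comp Primrec.snd
    have v2 : Primrec fun q : (List Bool × ℕ × List Bool) × (ℤ × ℤ × ℕ × ℤ × ℕ) => q.2.2.1 :=
      Primrec.fst.comp (Primrec.snd.comp Primrec.snd)
    have v3 : Primrec fun q : (List Bool × ℕ × List Bool) × (ℤ × ℤ × ℕ × ℤ × ℕ) => q.2.2.2.1 :=
      Primrec.fst.comp (Primrec.snd.comp (Primrec.snd.comp Primrec.snd))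
    have v4 : Primrec fun q : (List Bool × ℕ × List Bool) × (ℤ × ℤ × ℕ × ℤ × ℕ) => q.2.2.2.2.1 :=
      Primrec.fst.comp (Primrec.snd.comp (Primrec.snd.comp (Primrec.snd.comp Primrec.snd)))
    have v5 : Primrec fun q : (List Bool × ℕ × List Bool) × (ℤ × ℤ × ℕ × ℤ × ℕ) => q.2.2.2.2.2 :=
      Primrec.snd.comp (Primrec.snd.comp (Primrec.snd.comp (Primrec.snd.comp Primrec.snd)))
    have a1 : Primrec fun q : (List Bool × ℕ × List Bool) × (ℤ × ℤ × ℕ × ℤ × ℕ) => q.1.1 :=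
      Primrec.fst.comp Primrec.fst
    have a2 : Primrec fun q : (List Bool × ℕ × List Bool) × (ℤ × ℤ × ℕ × ℤ × ℕ) => q.1.2.1 :=
      Primrec.fst.comp (Primrec.snd.comp Primrec.fst)
    have a3 : Primrec fun q : (List Bool × ℕ × List Bool) × (ℤ × ℤ × ℕ × ℤ × ℕ) => q.1.2.2 :=
      Primrec.snd.comp (Primrec.snd.comp Primrec.fst)
    refine S1.ex (S1.and (S1.of_prim ?_) (S1.and ?_ ?_))
    · exact p_cond L v1 v2 v3 v4 v5 (Primrec.list_length.comp a3)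
    · exact hJ.comp (a1.pair ((Primrec.nat_add.comp a2 (Primrec.const n0)).pair
        (v1.pair (v2.pair v3))))
    · exact hP.comp (a1.pair (a3.pair (v4.pair v5)))
  -- measure bound
  have hsub : ∀ n, Set.Ico (0 : ℝ) 1 ∩ bits ⁻¹' (UE E z n) ⊆
      {θ : ℝ | θ ∈ Set.Ico (0 : ℝ) 1 ∧ F x y θ ∈ WW J z (n + n0)} := by
    rintro n θ' ⟨h1, s, t, ⟨u, v, p, w, r⟩, h2, h3, h4⟩
    refine ⟨h1, s, u, v, p, h3, ?_⟩
    simp only [length_pre] at h2 h4
    obtain ⟨h5, h6⟩ := cond_iff.1 h2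
    have h7 := sP _ _ _ _ h4
    rw [length_pre] at h7
    have h8 := hL θ' ((nv (pre (bits θ') t) : ℝ) / 2 ^ t)
    have h9 : (L : ℝ) * |θ' - (nv (pre (bits θ') t) : ℝ) / 2 ^ t| ≤ L * (1 / 2 ^ t) := by
      gcongr
      exact dist_pre h1 t
    rw [mul_one_div] at h9
    have h10 := abs_le.1 (h8.trans h9)
    have h11 := abs_le.1 h7
    rw [sub_div] at h5
    rw [add_div] at h6
    constructor
    · linarith [h10.1, h11.1]
    · linarith [h10.2, h11.2]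
  have hm : ∀ n, lam (UE E z n) ≤ (1 / 2) ^ n := by
    intro n
    have h1 := volume_bits 0 (measurableSet_UE E z n)
    simp only [Int.cast_zero, zero_add] at h1
    rw [← h1]
    refine (measure_mono (hsub n)).trans ?_
    set m := n + n0 with hmdef
    set η : ℝ := (1 / 2) ^ (m + 3) with hη
    have hη0 : 0 < η := by positivity
    have hη4 : η < 1 / 4 := by
      rw [hη, pow_add]
      have : ((1 : ℝ) / 2) ^ m ≤ 1 := pow_le_one₀ (by norm_num) (by norm_num)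
      nlinarith
    refine (hmeas η hη0 hη4 _ (measurable_WW J z m)).trans ?_
    have h2 : volume (WW J z m ∩ Set.Icc (-R) R) / ENNReal.ofReal (8 * π * R * η) ≤
        ENNReal.ofReal (C * (1 / 4) ^ m / (8 * π * R * η)) := by
      rw [ENNReal.ofReal_div_of_pos (by positivity)]
      gcongr
      exact hv m
    have h3 : (4 : ℝ≥0∞) * (ENNReal.ofReal (2 * η) +
        volume (WW J z m ∩ Set.Icc (-R) R) / ENNReal.ofReal (8 * π * R * η)) ≤
        ENNReal.ofReal (4 * (2 * η + C * (1 / 4) ^ m / (8 * π * R * η))) := by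
      rw [ENNReal.ofReal_mul (p := 4) (by norm_num),
        ENNReal.ofReal_add (p := 2 * η) (by positivity) (by positivity), ENNReal.ofReal_ofNat]
      gcongr
    refine h3.trans ?_
    rw [← ofReal_half_pow]
    apply ENNReal.ofReal_le_ofReal
    have e1 : (1 / 4 : ℝ) ^ m = (1 / 2) ^ m * (1 / 2) ^ m := by rw [← mul_pow]; norm_num
    have e2 : η = (1 / 2) ^ m * (1 / 8) := by rw [hη, pow_add]; norm_num
    have hp : (0 : ℝ) < (1 / 2) ^ m := by positivity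
    have e3 : 4 * (2 * η + C * (1 / 4) ^ m / (8 * π * R * η)) =
        (1 / 2) ^ m * (1 + 4 * (C / (π * R))) := by
      rw [e1, e2]
      field_simp
      ring
    rw [e3, hmdef, pow_add, mul_assoc]
    have h4 : (1 / 2 : ℝ) ^ n0 * (1 + 4 * (C / (π * R))) ≤ 1 := by
      rw [one_div_pow, one_div, inv_mul_le_iff₀ (by positivity)]
      linarith
    calc (1 / 2 : ℝ) ^ n * ((1 / 2 : ℝ) ^ n0 * (1 + 4 * (C / (π * R)))) ≤ (1 / 2 : ℝ) ^ n * 1 := by
          gcongr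
      _ = (1 / 2) ^ n := mul_one _
  refine hr _ (isMLTest_of_E hES hm) ?_
  rw [Set.mem_iInter]
  intro n
  obtain ⟨s1, u, v, p, h1, h2, h3⟩ := hcon (n + n0)
  set f := F x y θ with hf
  obtain ⟨δ, hδ0, hδ1, hδ2⟩ : ∃ δ : ℝ, 0 < δ ∧ (u : ℝ) / 2 ^ p + δ ≤ f ∧ f + δ ≤ (v : ℝ) / 2 ^ p :=
    ⟨min (f - (u : ℝ) / 2 ^ p) ((v : ℝ) / 2 ^ p - f), lt_min (by linarith) (by linarith),
      by linarith [min_le_left (f - (u : ℝ) / 2 ^ p) ((v : ℝ) / 2 ^ p - f)],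
      by linarith [min_le_right (f - (u : ℝ) / 2 ^ p) ((v : ℝ) / 2 ^ p - f)]⟩
  obtain ⟨t, ht⟩ := pow_unbounded_of_one_lt (4 * (L + 1) / δ) (one_lt_two (α := ℝ))
  have ht2 : ((L : ℝ) + 1) / 2 ^ t < δ / 4 := by
    rw [div_lt_iff₀ hδ0] at ht
    rw [div_lt_div_iff₀ (by positivity) (by norm_num)]
    linarith
  have ht3 : (L : ℝ) / 2 ^ t < δ / 4 := by
    refine lt_of_le_of_lt ?_ ht2
    gcongr
    linarith
  have ht4 : (1 : ℝ) / 2 ^ t < δ / 4 := by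
    refine lt_of_le_of_lt ?_ ht2
    gcongr
    have : (0 : ℝ) ≤ L := Nat.cast_nonneg _
    linarith
  obtain ⟨s2, w, hw⟩ := cP (pre (bits θ) t) t
  have h7 := sP _ _ _ _ hw
  rw [length_pre] at h7
  have h8 := hL θ ((nv (pre (bits θ) t) : ℝ) / 2 ^ t)
  have h9 : (L : ℝ) * |θ - (nv (pre (bits θ) t) : ℝ) / 2 ^ t| ≤ L * (1 / 2 ^ t) := by
    gcongr
    exact dist_pre hθ t
  rw [mul_one_div] at h9
  have h10 := abs_le.1 (h8.trans h9)
  have h11 := abs_le.1 h7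
  refine ⟨max s1 s2, t, (u, v, p, w, t), ?_, ?_, ?_⟩
  · simp only [length_pre]
    rw [cond_iff, sub_div, add_div]
    rw [← hf] at h10
    constructor
    · linarith [h10.1, h10.2, h11.1, h11.2]
    · linarith [h10.1, h10.2, h11.1, h11.2]
  · exact mJ _ _ _ _ _ _ (pre_prefix z (le_max_left _ _)) h1
  · exact mP _ _ _ _ _ (pre_prefix z (le_max_right _ _)) hw

end Pool.Agent.V11327.PR
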