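import Pool.Agent.V11327.PRG

set_option autoImplicit false

namespace Pool.Agent.V11327.PR

open Pool.Agent.Helper227 Pool.Agent.V11268.ML Real MeasureTheory
open scoped ENNReal

/-- The projection along a random direction is not a dyadic rational. -/
lemma not_dyadic {z : ℕ → Bool} {x y : ℝ} (hx : Apx z x) (hy : Apx z y) (h0 : ¬ (x = 0 ∧ y = 0))
    {θ : ℝ} (hθ : θ ∈ Set.Ico (0 : ℝ) 1) (hr : MLR z (bits θ)) (a : ℤ) (b : ℕ) :
    F x y θ ≠ a / 2 ^ b := by
  intro hf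
  obtain ⟨n, hn⟩ := avoid hx hy h0 (J := fun q => q.2.2.2.2 = b + 2 * q.2.1 ∧
      q.2.2.1 = a * 4 ^ q.2.1 - 2 ^ b ∧ q.2.2.2.1 = a * 4 ^ q.2.1 + 2 ^ b) (S1.of_prim (by
    have n1 : Primrec fun q : List Bool × ℕ × ℤ × ℤ × ℕ => q.2.1 := Primrec.fst.comp Primrec.snd
    have u1 : Primrec fun q : List Bool × ℕ × ℤ × ℤ × ℕ => q.2.2.1 :=
      Primrec.fst.comp (Primrec.snd.comp Primrec.snd)
    have v1 : Primrec fun q : List Bool × ℕ × ℤ × ℤ × ℕ => q.2.2.2.1 :=
      Primrec.fst.comp (Primrec.snd.comp (Primrec.snd.comp Primrec.snd))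
    have p1 : Primrec fun q : List Bool × ℕ × ℤ × ℤ × ℕ => q.2.2.2.2 :=
      Primrec.snd.comp (Primrec.snd.comp (Primrec.snd.comp Primrec.snd))
    have f1 : Primrec fun q : List Bool × ℕ × ℤ × ℤ × ℕ => (4 : ℤ) ^ q.2.1 :=
      (p_ipow (Primrec.const 4) n1).of_eq fun a => by norm_num
    refine PrimrecPred.and ?_ (PrimrecPred.and ?_ ?_)
    · exact Primrec.eq.comp p1 (Primrec.nat_add.comp (Primrec.const b)
        (Primrec.nat_mul.comp (Primrec.const 2) n1))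
    · exact Primrec.eq.comp u1 (p_sub (p_mul (Primrec.const a) f1) (Primrec.const _))
    · exact Primrec.eq.comp v1 (p_add (p_mul (Primrec.const a) f1) (Primrec.const _))))
    (fun _ _ _ _ _ _ _ h => h) (by
      intro R _
      refine ⟨2, by norm_num, fun n => ?_⟩
      have hsub : WW (fun q => q.2.2.2.2 = b + 2 * q.2.1 ∧
          q.2.2.1 = a * 4 ^ q.2.1 - 2 ^ b ∧ q.2.2.2.1 = a * 4 ^ q.2.1 + 2 ^ b) z n ∩
          Set.Icc (-R) R ⊆ Set.Icc ((a : ℝ) / 2 ^ b - (1 / 4) ^ n) (a / 2 ^ b + (1 / 4) ^ n) := by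
        rintro t ⟨⟨s, u, v, p, ⟨h1, h2, h3⟩, h4, h5⟩, -⟩
        simp only at h1 h2 h3
        subst h1 h2 h3
        have e : (2 : ℝ) ^ (b + 2 * n) = 2 ^ b * 4 ^ n := by
          rw [pow_add, pow_mul]; norm_num
        have e1 : (a : ℝ) / 2 ^ b - (1 / 4) ^ n = (a * 4 ^ n - 2 ^ b) / 2 ^ (b + 2 * n) := by
          rw [e, one_div_pow]; field_simp
        have e2 : (a : ℝ) / 2 ^ b + (1 / 4) ^ n = (a * 4 ^ n + 2 ^ b) / 2 ^ (b + 2 * n) := by
          rw [e, one_div_pow]; field_simp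
        push_cast at h4 h5
        exact ⟨by rw [e1]; exact h4.le, by rw [e2]; exact h5.le⟩
      refine (measure_mono hsub).trans ?_
      rw [Real.volume_Icc]
      apply ENNReal.ofReal_le_ofReal
      linarith) hθ hr
  apply hn
  have e : (2 : ℝ) ^ (b + 2 * n) = 2 ^ b * 4 ^ n := by
    rw [pow_add, pow_mul]; norm_num
  refine ⟨0, a * 4 ^ n - 2 ^ b, a * 4 ^ n + 2 ^ b, b + 2 * n, ⟨rfl, rfl, rfl⟩, ?_, ?_⟩
  · rw [hf, e, div_lt_div_iff₀ (by positivity) (by positivity)]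
    push_cast
    have : (0 : ℝ) < 2 ^ b * 2 ^ b := by positivity
    nlinarith
  · rw [hf, e, div_lt_div_iff₀ (by positivity) (by positivity)]
    push_cast
    have : (0 : ℝ) < 2 ^ b * 2 ^ b := by positivity
    nlinarith

/-- The projection of a point different from the origin along a direction that is random relative to
the point is random (relative to the point). -/
theorem random_F {z : ℕ → Bool} {x y : ℝ} (hx : TLe (bits x) z) (hy : TLe (bits y) z)
    (h0 : ¬ (x = 0 ∧ y = 0)) {θ : ℝ} (hθ : θ ∈ Set.Ico (0 : ℝ) 1) (hr : MLR z (bits θ)) :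
    MLR z (bits (F x y θ)) := by
  have ax := apx_of_TLe hx
  have ay := apx_of_TLe hy
  have hnd := not_dyadic ax ay h0 hθ hr
  intro U hU hmem
  rw [Set.mem_iInter] at hmem
  obtain ⟨E, hE, mE, eE⟩ := hU.exists_E
  set J : List Bool × ℕ × ℤ × ℤ × ℕ → Prop := fun q => ∃ d : List Bool × ℤ,
    (q.2.2.2.2 = d.1.length ∧ q.2.2.1 = d.2 * 2 ^ q.2.2.2.2 + (nv d.1 : ℤ) ∧
      q.2.2.2.1 = q.2.2.1 + 1) ∧ E (q.1, 2 * q.2.1, d.1) with hJ
  have hJS : S1 J := by
    have q0 : Primrec fun q : (List Bool × ℕ × ℤ × ℤ × ℕ) × (List Bool × ℤ) => q.1.1 :=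
      Primrec.fst.comp Primrec.fst
    have n1 : Primrec fun q : (List Bool × ℕ × ℤ × ℤ × ℕ) × (List Bool × ℤ) => q.1.2.1 :=
      Primrec.fst.comp (Primrec.snd.comp Primrec.fst)
    have u1 : Primrec fun q : (List Bool × ℕ × ℤ × ℤ × ℕ) × (List Bool × ℤ) => q.1.2.2.1 :=
      Primrec.fst.comp (Primrec.snd.comp (Primrec.snd.comp Primrec.fst))
    have v1 : Primrec fun q : (List Bool × ℕ × ℤ × ℤ × ℕ) × (List Bool × ℤ) => q.1.2.2.2.1 :=
      Primrec.fst.comp (Primrec.snd.comp (Primrec.snd.comp (Primrec.snd.comp Primrec.fst)))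
    have p1 : Primrec fun q : (List Bool × ℕ × ℤ × ℤ × ℕ) × (List Bool × ℤ) => q.1.2.2.2.2 :=
      Primrec.snd.comp (Primrec.snd.comp (Primrec.snd.comp (Primrec.snd.comp Primrec.fst)))
    have σ1 : Primrec fun q : (List Bool × ℕ × ℤ × ℤ × ℕ) × (List Bool × ℤ) => q.2.1 :=
      Primrec.fst.comp Primrec.snd
    have j1 : Primrec fun q : (List Bool × ℕ × ℤ × ℤ × ℕ) × (List Bool × ℤ) => q.2.2 :=
      Primrec.snd.comp Primrec.snd
    have f1 : Primrec fun q : (List Bool × ℕ × ℤ × ℤ × ℕ) × (List Bool × ℤ) =>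
        (2 : ℤ) ^ q.1.2.2.2.2 := (p_ipow (Primrec.const 2) p1).of_eq fun a => by norm_num
    refine S1.ex (S1.and (S1.of_prim (PrimrecPred.and ?_ (PrimrecPred.and ?_ ?_))) ?_)
    · exact Primrec.eq.comp p1 (Primrec.list_length.comp σ1)
    · exact Primrec.eq.comp u1 (p_add (p_mul j1 f1) (p_int (p_nv.comp σ1)))
    · exact Primrec.eq.comp v1 (p_add u1 (Primrec.const 1))
    · exact hE.comp (q0.pair ((Primrec.nat_mul.comp (Primrec.const 2) n1).pair σ1))
  have hsub : ∀ n, WW J z n ⊆ bits ⁻¹' U (2 * n) := by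
    rintro n t ⟨s, u, v, p, ⟨⟨σ, j⟩, ⟨h1, h2, h3⟩, h4⟩, h5, h6⟩
    simp only at h1 h2 h3 h4
    subst h1 h3 h2
    rw [Set.mem_preimage, eE]
    have hpos : (0 : ℝ) < 2 ^ σ.length := by positivity
    have hlt : (nv σ : ℝ) + 1 ≤ 2 ^ σ.length := by exact_mod_cast nv_lt σ
    rw [div_lt_iff₀ hpos] at h5
    rw [lt_div_iff₀ hpos] at h6
    push_cast at h5 h6
    have hnn : (0 : ℝ) ≤ nv σ := Nat.cast_nonneg _
    have hj : ⌊t⌋ = j := by
      rw [Int.floor_eq_iff]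
      constructor
      · by_contra hcon
        push Not at hcon
        have := mul_lt_mul_of_pos_right hcon hpos
        linarith
      · by_contra hcon
        push Not at hcon
        have := mul_le_mul_of_nonneg_right hcon hpos.le
        linarith
    have hcyl : bits t ∈ cyl σ := by
      rw [bits_mem_cyl, div_le_iff₀ hpos, lt_div_iff₀ hpos, Int.fract, hj]
      constructor
      · linarith
      · linarith
    rw [mem_cyl_iff] at hcyl
    exact ⟨s, σ.length, by rw [hcyl]; exact h4⟩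
  obtain ⟨n, hn⟩ := avoid ax ay h0 hJS (by
      rintro α β n u v p hαβ ⟨d, h1, h2⟩
      exact ⟨d, h1, mE _ _ _ _ _ hαβ (List.prefix_refl _) h2⟩) (by
    intro R _
    obtain ⟨M, hM⟩ := exists_nat_ge R
    refine ⟨2 * M + 1, by positivity, fun n => ?_⟩
    have h1 : WW J z n ∩ Set.Icc (-R) R ⊆ bits ⁻¹' U (2 * n) ∩ Set.Icc (-(M : ℝ)) M := by
      rintro t ⟨h2, h3, h4⟩
      exact ⟨hsub n h2, by linarith, by linarith⟩
    have hmeas : MeasurableSet (U (2 * n)) := by rw [eE]; exact measurableSet_UE _ _ _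
    refine (measure_mono h1).trans ((volume_bits_Icc M hmeas).trans ?_)
    have h2 := hU.2 (2 * n)
    calc ((2 * M + 1 : ℕ) : ℝ≥0∞) * lam (U (2 * n)) ≤ ((2 * M + 1 : ℕ) : ℝ≥0∞) * (1 / 2) ^ (2 * n) := by
          gcongr
      _ = ENNReal.ofReal ((2 * M + 1) * (1 / 4) ^ n) := by
          rw [ENNReal.ofReal_mul (by positivity), ← ofReal_half_pow]
          congr 1
          · rw [← ENNReal.ofReal_natCast]
            push_cast
            rfl
          · congr 1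
            rw [pow_mul]; norm_num) hθ hr
  apply hn
  have h1 := hmem (2 * n)
  rw [eE] at h1
  obtain ⟨s, t, h2⟩ := h1
  set f := F x y θ with hf
  have hpos : (0 : ℝ) < 2 ^ t := by positivity
  have h3 := (bits_mem_cyl f (pre (bits f) t)).1 (mem_cyl_pre _ _)
  rw [length_pre] at h3
  have hfl : (⌊f⌋ : ℝ) + Int.fract f = f := Int.floor_add_fract f
  refine ⟨s, ⌊f⌋ * 2 ^ t + (nv (pre (bits f) t) : ℤ), ⌊f⌋ * 2 ^ t + (nv (pre (bits f) t) : ℤ) + 1, t,
    ⟨(pre (bits f) t, ⌊f⌋), ⟨by simp, rfl, rfl⟩, h2⟩, ?_, ?_⟩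
  · have hne := hnd (⌊f⌋ * 2 ^ t + (nv (pre (bits f) t) : ℤ)) t
    refine lt_of_le_of_ne ?_ hne.symm
    push_cast
    rw [add_div, mul_div_cancel_right₀ _ hpos.ne']
    linarith [h3.1]
  · push_cast
    rw [add_assoc, add_div, mul_div_cancel_right₀ _ hpos.ne']
    linarith [h3.2]

end Pool.Agent.V11327.PR
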