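import Mathlib

/-! Sequence-level theory for the root matrix (periodic random-walk maxima). -/

open Finset Filter Topology

namespace V11327.RM

/-- averaging operator attached to a law `p` on `ℕ` -/
noncomputable def T (p : ℕ → ℝ) (b : ℕ → ℂ) (n : ℕ) : ℂ := ∑' k, (p k : ℂ) * b (n + k)

def Bdd (b : ℕ → ℂ) : Prop := ∃ C : ℝ, ∀ n, ‖b n‖ ≤ C

structure Law (p : ℕ → ℝ) : Prop where
  nn : ∀ k, 0 ≤ p k
  sum : HasSum p 1

variable {p q : ℕ → ℝ} {b b' : ℕ → ℂ}

lemma Law.summ (hp : Law p) (hb : Bdd b) (n : ℕ) : Summable (fun k => (p k : ℂ) * b (n + k)) := by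
  obtain ⟨C, hC⟩ := hb
  refine Summable.of_norm_bounded (g := fun k => p k * C) (hp.sum.summable.mul_right C) ?_
  intro k
  rw [norm_mul, Complex.norm_real, Real.norm_of_nonneg (hp.nn k)]
  exact mul_le_mul_of_nonneg_left (hC _) (hp.nn k)

lemma T_norm_le (hp : Law p) {C : ℝ} (hC : ∀ n, ‖b n‖ ≤ C) (n : ℕ) : ‖T p b n‖ ≤ C := by
  have h1 : HasSum (fun k => p k * C) (1 * C) := hp.sum.mul_right C
  rw [one_mul] at h1
  refine tsum_of_norm_bounded h1 ?_
  intro k
  rw [norm_mul, Complex.norm_real, Real.norm_of_nonneg (hp.nn k)]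
  exact mul_le_mul_of_nonneg_left (hC _) (hp.nn k)

lemma Bdd.T (hb : Bdd b) (hp : Law p) : Bdd (T p b) := by
  obtain ⟨C, hC⟩ := hb
  exact ⟨C, fun n => T_norm_le hp hC n⟩

lemma Bdd.add (hb : Bdd b) (hb' : Bdd b') : Bdd (b + b') := by
  obtain ⟨C, hC⟩ := hb
  obtain ⟨C', hC'⟩ := hb'
  exact ⟨C + C', fun n => (norm_add_le _ _).trans (add_le_add (hC n) (hC' n))⟩

lemma Bdd.smul (hb : Bdd b) (c : ℂ) : Bdd (c • b) := by
  obtain ⟨C, hC⟩ := hb
  refine ⟨‖c‖ * C, fun n => ?_⟩
  simp only [Pi.smul_apply, smul_eq_mul, norm_mul]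
  exact mul_le_mul_of_nonneg_left (hC n) (norm_nonneg _)

lemma Bdd.zero : Bdd 0 := ⟨0, fun n => by simp⟩

lemma T_add (hp : Law p) (hb : Bdd b) (hb' : Bdd b') (n : ℕ) :
    T p (b + b') n = T p b n + T p b' n := by
  unfold T
  rw [← (hp.summ hb n).tsum_add (hp.summ hb' n)]
  congr 1; ext k; simp [mul_add]

lemma T_smul (c : ℂ) (b : ℕ → ℂ) (n : ℕ) :
    T p (c • b) n = c * T p b n := by
  unfold T
  rw [← tsum_mul_left]
  congr 1; ext k; simp; ring

lemma T_zero (n : ℕ) : T p 0 n = 0 := by simp [T]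

/-- convolution -/
noncomputable def conv (p q : ℕ → ℝ) (m : ℕ) : ℝ := ∑ x ∈ HasAntidiagonal.antidiagonal m, p x.1 * q x.2

lemma hasSum_antidiag {E : Type*} [AddCommMonoid E] [TopologicalSpace E] [ContinuousAdd E]
    [RegularSpace E] {f : ℕ × ℕ → E} {s : E} (h : HasSum f s) :
    HasSum (fun m => ∑ x ∈ HasAntidiagonal.antidiagonal m, f x) s := by
  have h2 := (Finset.HasAntidiagonal.sigmaAntidiagonalEquivProd (A := ℕ)).hasSum_iff.2 h
  have h3 := h2.sigma (fun m => hasSum_fintype _)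
  convert h3 using 2 with m
  rw [← Finset.sum_coe_sort]
  rfl

lemma Law.conv (hp : Law p) (hq : Law q) : Law (conv p q) := by
  constructor
  · intro k
    exact Finset.sum_nonneg fun x _ => mul_nonneg (hp.nn _) (hq.nn _)
  · have h := (hp.sum.summable.mul_of_nonneg hq.sum.summable hp.nn hq.nn)
    have h1 : HasSum (fun x : ℕ × ℕ => p x.1 * q x.2) (1 * 1) :=
      hp.sum.mul hq.sum h
    rw [one_mul] at h1
    exact hasSum_antidiag h1

lemma T_conv (hp : Law p) (hq : Law q) (hb : Bdd b) (n : ℕ) :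
    T (V11327.RM.conv p q) b n = T q (T p b) n := by
  obtain ⟨C, hC⟩ := hb
  set f : ℕ × ℕ → ℂ := fun x => (p x.2 : ℂ) * (q x.1 : ℂ) * b (n + x.1 + x.2) with hf
  have hs : Summable f := by
    have h := (hq.sum.summable.mul_of_nonneg hp.sum.summable hq.nn hp.nn).mul_right C
    refine Summable.of_norm_bounded h ?_
    intro x
    rw [hf]
    simp only [norm_mul, Complex.norm_real, Real.norm_of_nonneg (hp.nn _),
      Real.norm_of_nonneg (hq.nn _)]
    rw [mul_comm (p x.2)]
    exact mul_le_mul_of_nonneg_left (hC _) (mul_nonneg (hq.nn _) (hp.nn _))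
  have h1 : ∑' x, f x = T q (T p b) n := by
    rw [hs.tsum_prod]
    unfold T
    congr 1; ext k
    rw [← tsum_mul_left]
    congr 1; ext l
    simp only [hf]; ring
  have h2 : ∑' x, f x = T (V11327.RM.conv p q) b n := by
    have hs' : HasSum (f ∘ Prod.swap) (∑' x, f x) := (Equiv.prodComm ℕ ℕ).hasSum_iff.2 hs.hasSum
    rw [← (hasSum_antidiag hs').tsum_eq]
    unfold T V11327.RM.conv
    congr 1; ext m
    push_cast
    rw [Finset.sum_mul]
    refine Finset.sum_congr rfl fun x hx => ?_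
    rw [HasAntidiagonal.mem_antidiagonal] at hx
    simp only [hf, Function.comp, Prod.fst_swap, Prod.snd_swap]
    rw [← hx]
    congr 2; omega
  rw [← h1, h2]

/-- the data: `N` laws `a j` on `ℕ` (the law of `X_j - m_j`), shifts `mu j = -m_j` -/
structure Dat where
  N : ℕ
  mu : ℕ → ℕ
  a : ℕ → ℕ → ℝ
  law : ∀ j, Law (a j)
  mom : ∀ j, Summable (fun k : ℕ => (k : ℝ) * a j k)
  pos0 : ∀ j, 0 < a j 0
  Mpos : 0 < ∑ j ∈ range N, mu j
  drift : ∑ j ∈ range N, ((∑' k : ℕ, (k : ℝ) * a j k) - (mu j : ℝ)) < 0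

namespace Dat

variable (D : Dat)

noncomputable def P : ℕ → ℕ → ℝ
  | 0 => fun m => if m = 0 then 1 else 0
  | (j+1) => V11327.RM.conv (P j) (D.a j)

lemma lawP (j : ℕ) : Law (D.P j) := by
  induction j with
  | zero =>
    constructor
    · intro k; simp only [P]; split_ifs <;> norm_num
    · simp only [P]
      exact hasSum_ite_eq 0 1
  | succ j ih => exact ih.conv (D.law j)

lemma P_zero_pos (j : ℕ) : 0 < D.P j 0 := by
  induction j with
  | zero => simp [P]
  | succ j ih =>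
    simp only [P, V11327.RM.conv]
    simpa using mul_pos ih (D.pos0 j)

def Ms (j : ℕ) : ℕ := ∑ i ∈ range j, D.mu i

lemma Ms_zero : D.Ms 0 = 0 := by simp [Ms]
lemma Ms_succ (j : ℕ) : D.Ms (j+1) = D.Ms j + D.mu j := by simp [Ms, Finset.sum_range_succ]
lemma Ms_mono : Monotone D.Ms := by
  intro i j h
  exact Finset.sum_le_sum_of_subset (Finset.range_mono h)

/-- total shift -/
def M : ℕ := D.Ms D.N

lemma M_pos : 0 < D.M := D.Mpos

lemma N_pos : 0 < D.N := by
  rcases Nat.eq_zero_or_pos D.N with h | h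
  · have := D.Mpos
    rw [h] at this; simp at this
  · exact h

lemma T_zero_P {b : ℕ → ℂ} (n : ℕ) : T (D.P 0) b n = b n := by
  unfold T P
  rw [tsum_eq_single 0]
  · simp
  · intro k hk; simp [hk]

lemma T_succ_P {b : ℕ → ℂ} (hb : Bdd b) (j n : ℕ) :
    T (D.P (j+1)) b n = T (D.a j) (T (D.P j) b) n := T_conv (D.lawP j) (D.law j) hb n

def V : Submodule ℂ (ℕ → ℂ) where
  carrier := {b | Bdd b ∧ ∀ n, T (D.P D.N) b n = b (n + D.M)}
  add_mem' := by
    rintro b b' ⟨h1, h2⟩ ⟨h3, h4⟩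
    refine ⟨h1.add h3, fun n => ?_⟩
    rw [T_add (D.lawP _) h1 h3, h2, h4]; rfl
  zero_mem' := ⟨Bdd.zero, fun n => by rw [T_zero]; rfl⟩
  smul_mem' := by
    rintro c b ⟨h1, h2⟩
    refine ⟨h1.smul c, fun n => ?_⟩
    rw [T_smul, h2]; rfl

/-- mean of `X_j` -/
noncomputable def E (j : ℕ) : ℝ := (∑' k : ℕ, (k : ℝ) * D.a j k) - (D.mu j : ℝ)

lemma drift' : ∑ j ∈ range D.N, D.E j < 0 := D.drift

/-- Maximum principle. -/
theorem max_principle (d : ℕ → ℕ → ℂ) (β : ℝ) (hβ : ∀ j n, ‖d j n‖ ≤ β)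
    (c : ℕ → ℕ → ℂ) (hcb : ∀ j, Bdd (c j))
    (hc1 : ∀ j < D.N, ∀ n, n < D.mu j → c j n = 0)
    (hc2 : ∀ j < D.N, ∀ n, c j (n + D.mu j) = d j n)
    (hd : ∀ j < D.N, ∀ n, d (j+1) n = T (D.a j) (c j) n)
    (hper : ∀ n, d D.N n = d 0 n) : ∀ n, d 0 n = 0 := by
  have hN := D.N_pos
  have hN' : (0:ℝ) < D.N := by exact_mod_cast hN
  set δ : ℝ := -(∑ j ∈ range D.N, D.E j) / D.N with hδ
  have hδ0 : 0 < δ := div_pos (neg_pos.2 D.drift') hN'
  set A0 : ℝ := ∑ j ∈ range D.N, (|D.E j| + δ + D.mu j) with hA0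
  set A : ℕ → ℝ := fun j => A0 + ∑ i ∈ range j, (D.E i + δ) with hA
  have hAN : A D.N = A 0 := by
    simp only [hA, Finset.sum_add_distrib, Finset.sum_const, Finset.card_range, nsmul_eq_mul,
      Finset.range_zero, Finset.sum_empty]
    rw [hδ]; field_simp; ring
  have hAmu : ∀ j < D.N, (D.mu j : ℝ) ≤ A j := by
    intro j hj
    have h1 : A j = ∑ i ∈ range D.N, (|D.E i| + δ + D.mu i) + ∑ i ∈ range j, (D.E i + δ) := rfl
    have h2 : ∑ i ∈ range j, (-(|D.E i| + δ + D.mu i) ) ≤ ∑ i ∈ range j, (D.E i + δ) := by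
      refine Finset.sum_le_sum fun i _ => ?_
      have := neg_abs_le (D.E i)
      have h3 : (0:ℝ) ≤ D.mu i := Nat.cast_nonneg _
      linarith
    have h3 : ∑ i ∈ range j, (|D.E i| + δ + D.mu i) + (|D.E j| + δ + D.mu j)
        ≤ ∑ i ∈ range D.N, (|D.E i| + δ + D.mu i) := by
      rw [← Finset.sum_range_succ]
      refine Finset.sum_le_sum_of_subset_of_nonneg (Finset.range_mono (by omega)) ?_
      intro i _ _
      have := abs_nonneg (D.E i)
      positivity
    rw [Finset.sum_neg_distrib] at h2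
    have h4 := abs_nonneg (D.E j)
    rw [h1]; linarith
  have key : ∀ ε : ℝ, 0 < ε → ∀ t : ℕ, ∀ j ≤ D.N, ∀ n,
      ‖d j n‖ ≤ max (β - t * (ε * δ)) 0 + ε * (n + A j) := by
    intro ε hε t
    induction t with
    | zero =>
      intro j hj n
      have h1 : 0 ≤ A j := by
        rcases Nat.lt_or_ge j D.N with h | h
        · exact (Nat.cast_nonneg _).trans (hAmu j h)
        · have : j = D.N := le_antisymm hj h
          rw [this, hAN]
          exact (Nat.cast_nonneg _).trans (hAmu 0 hN)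
      have h2 : ‖d j n‖ ≤ max (β - (0:ℕ) * (ε * δ)) 0 := by
        simp only [Nat.cast_zero, zero_mul, sub_zero]
        exact (hβ j n).trans (le_max_left _ _)
      have : 0 ≤ ε * (n + A j) := by positivity
      linarith
    | succ t ih =>
      have step : ∀ j < D.N, ∀ n, ‖d (j+1) n‖ ≤
          max (β - ((t+1 : ℕ):ℝ) * (ε * δ)) 0 + ε * (n + A (j+1)) := by
        intro j hj n
        set c' : ℝ := max (β - t * (ε * δ)) 0 with hc'
        have hc'0 : 0 ≤ c' := le_max_right _ _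
        have hb : ∀ m : ℕ, ‖c j m‖ ≤ c' + ε * ((m:ℝ) - D.mu j + A j) := by
          intro m
          rcases Nat.lt_or_ge m (D.mu j) with h | h
          · rw [hc1 j hj m h, norm_zero]
            have h1 := hAmu j hj
            have h2 : (0:ℝ) ≤ m := Nat.cast_nonneg _
            have : 0 ≤ ε * ((m:ℝ) - D.mu j + A j) := mul_nonneg hε.le (by linarith)
            linarith
          · obtain ⟨m', rfl⟩ := Nat.exists_eq_add_of_le' h
            rw [hc2 j hj m']
            refine (ih j hj.le m').trans (le_of_eq ?_)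
            push_cast; ring
        rw [hd j hj n]
        have hsum : HasSum (fun k : ℕ => D.a j k * (c' + ε * ((n:ℝ) - D.mu j + A j)) +
            ε * ((k:ℝ) * D.a j k)) (1 * (c' + ε * ((n:ℝ) - D.mu j + A j)) +
            ε * (∑' k : ℕ, (k:ℝ) * D.a j k)) :=
          ((D.law j).sum.mul_right _).add ((D.mom j).hasSum.mul_left ε)
        have h1 : ‖T (D.a j) (c j) n‖ ≤ 1 * (c' + ε * ((n:ℝ) - D.mu j + A j)) +
            ε * (∑' k : ℕ, (k:ℝ) * D.a j k) := by
          refine tsum_of_norm_bounded hsum ?_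
          intro k
          rw [norm_mul, Complex.norm_real, Real.norm_of_nonneg ((D.law j).nn k)]
          have := mul_le_mul_of_nonneg_left (hb (n + k)) ((D.law j).nn k)
          refine this.trans (le_of_eq ?_)
          push_cast; ring
        refine h1.trans ?_
        have h2 : A (j+1) = A j + (D.E j + δ) := by
          simp only [hA, Finset.sum_range_succ]; ring
        have h3 : c' - ε * δ ≤ max (β - ((t+1 : ℕ):ℝ) * (ε * δ)) 0 := by
          rw [hc']
          rcases le_total (β - t * (ε * δ)) 0 with h | h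
          · rw [max_eq_right h]
            have : 0 < ε * δ := mul_pos hε hδ0
            refine le_trans ?_ (le_max_right _ _)
            linarith
          · rw [max_eq_left h]
            refine le_trans (le_of_eq ?_) (le_max_left _ _)
            push_cast; ring
        rw [h2]
        have h4 : D.E j = (∑' k : ℕ, (k : ℝ) * D.a j k) - (D.mu j : ℝ) := rfl
        rw [h4]
        nlinarith
      intro j hj n
      rcases Nat.eq_zero_or_pos j with h | h
      · subst h
        rw [← hper n, ← hAN]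
        have := step (D.N - 1) (by omega) n
        rwa [Nat.sub_add_cancel hN] at this
      · have := step (j-1) (by omega) n
        rwa [Nat.sub_add_cancel h] at this
  intro n
  have key2 : ∀ ε : ℝ, 0 < ε → ‖d 0 n‖ ≤ ε * (n + A 0) := by
    intro ε hε
    obtain ⟨t, ht⟩ := exists_nat_gt (β / (ε * δ))
    have h1 := key ε hε t 0 (Nat.zero_le _) n
    have h2 : β - t * (ε * δ) ≤ 0 := by
      have : 0 < ε * δ := mul_pos hε hδ0
      rw [div_lt_iff₀ this] at ht
      linarith
    rw [max_eq_right h2] at h1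
    linarith
  have hA0' : 0 ≤ A 0 := (Nat.cast_nonneg _).trans (hAmu 0 hN)
  have h0 : ‖d 0 n‖ ≤ 0 := by
    refine le_of_forall_pos_le_add fun η hη => ?_
    have h1 := key2 (η / (n + A 0 + 1)) (by positivity)
    have h2 : η / (n + A 0 + 1) * (n + A 0) ≤ η := by
      rw [div_mul_eq_mul_div, div_le_iff₀ (by positivity)]
      nlinarith
    linarith
  exact norm_le_zero_iff.1 h0

end Dat

end V11327.RM
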