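import Mathlib
import Pool.Agent.V11327.RMcore

open Finset Filter Topology

namespace V11327.RM

namespace Dat

variable (D : Dat)

lemma V_eq_zero {b : ℕ → ℂ} (hb : b ∈ D.V)
    (h : ∀ j < D.N, ∀ n < D.mu j, T (D.P j) b (D.M - D.Ms (j+1) + n) = 0) : b = 0 := by
  obtain ⟨hB, hV⟩ := hb
  have hlarge : ∀ n, b (n + D.M) = 0 := by
    obtain ⟨β, hβ⟩ := hB
    have := D.max_principle (fun j n => T (D.P j) b (D.M - D.Ms j + n)) β
      (fun j n => T_norm_le (D.lawP j) hβ _)
      (fun j n => T (D.P j) b (D.M - D.Ms (j+1) + n))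
      (fun j => ⟨β, fun n => T_norm_le (D.lawP j) hβ _⟩)
      (fun j hj n hn => h j hj n hn)
      (fun j hj n => by
        have h1 : D.Ms (j+1) ≤ D.M := D.Ms_mono hj
        have h2 := D.Ms_succ j
        congr 1
        omega)
      (fun j hj n => by
        rw [D.T_succ_P ⟨β, hβ⟩]
        unfold T
        congr 1; ext k
        rw [add_assoc])
      (fun n => by
        rw [show D.M - D.Ms D.N = 0 from Nat.sub_self _, D.Ms_zero, Nat.sub_zero, zero_add, hV,
          D.T_zero_P, add_comm])
    intro n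
    have h1 := this n
    rw [D.Ms_zero, Nat.sub_zero, D.T_zero_P] at h1
    rw [add_comm]; exact h1
  have hdown : ∀ k, ∀ n, D.M ≤ n + k → b n = 0 := by
    intro k
    induction k with
    | zero =>
      intro n hn
      have := hlarge (n - D.M)
      rwa [Nat.sub_add_cancel (by omega)] at this
    | succ k ih =>
      intro n hn
      have h1 := hV n
      rw [hlarge n] at h1
      unfold T at h1
      rw [tsum_eq_single 0 (by
        intro m hm
        rw [ih (n+m) (by omega), mul_zero])] at h1
      rw [add_zero] at h1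
      rcases mul_eq_zero.1 h1 with h2 | h2
      · have := D.P_zero_pos D.N
        have h3 : D.P D.N 0 = 0 := by exact_mod_cast h2
        linarith
      · exact h2
  ext n
  exact hdown D.M n (by omega)

/-- distribution function of `a j` -/
noncomputable def F (j r : ℕ) : ℝ := ∑ i ∈ range (r+1), D.a j i

lemma F_zero_pos (j : ℕ) : 0 < D.F j 0 := by simpa [F] using D.pos0 j

abbrev C := Σ j : Fin D.N, Fin (D.mu j)

noncomputable def pair (b : ℕ → ℂ) (x : D.C) : ℂ :=
  ∑ r ∈ range (D.mu x.1 - x.2), (D.F x.1 r : ℂ) *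
    T (D.P x.1) b (D.M - D.Ms (x.1+1) + (r + x.2))

lemma pair_zero_imp {b : ℕ → ℂ} (h : ∀ x, D.pair b x = 0) :
    ∀ j < D.N, ∀ n < D.mu j, T (D.P j) b (D.M - D.Ms (j+1) + n) = 0 := by
  intro j hj
  have hdown : ∀ k, ∀ n, n < D.mu j → D.mu j ≤ n + k →
      T (D.P j) b (D.M - D.Ms (j+1) + n) = 0 := by
    intro k
    induction k with
    | zero => intro n h1 h2; omega
    | succ k ih =>
      intro n h1 h2
      have h3 := h ⟨⟨j, hj⟩, ⟨n, h1⟩⟩
      unfold pair at h3
      simp only at h3
      rw [Finset.sum_eq_single_of_mem 0 (by simp; omega) (by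
        intro r hr hr0
        rw [Finset.mem_range] at hr
        rw [ih (r + n) (by omega) (by omega), mul_zero])] at h3
      rw [zero_add] at h3
      rcases mul_eq_zero.1 h3 with h4 | h4
      · have := D.F_zero_pos j
        have h5 : D.F j 0 = 0 := by exact_mod_cast h4
        linarith
      · exact h4
  intro n hn
  exact hdown (D.mu j) n hn (by omega)

noncomputable def Psi : D.V →ₗ[ℂ] (D.C → ℂ) where
  toFun b := D.pair b
  map_add' := by
    rintro ⟨b, hb⟩ ⟨b', hb'⟩
    ext x
    simp only [pair, Submodule.coe_add, Pi.add_apply]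
    rw [← Finset.sum_add_distrib]
    refine Finset.sum_congr rfl fun r _ => ?_
    rw [T_add (D.lawP _) hb.1 hb'.1]; ring
  map_smul' := by
    rintro c ⟨b, hb⟩
    ext x
    simp only [pair, Submodule.coe_smul, Pi.smul_apply, RingHom.id_apply, smul_eq_mul]
    rw [Finset.mul_sum]
    refine Finset.sum_congr rfl fun r _ => ?_
    rw [T_smul]; ring

lemma Psi_inj : Function.Injective D.Psi := by
  rw [injective_iff_map_eq_zero]
  rintro ⟨b, hb⟩ h
  have h1 : ∀ x, D.pair b x = 0 := fun x => congrFun h x
  have := D.V_eq_zero hb (D.pair_zero_imp h1)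
  exact Subtype.ext this

lemma card_C : Fintype.card D.C = D.M := by
  rw [Fintype.card_sigma]
  simp only [Fintype.card_fin]
  rw [M, Ms, Fin.sum_univ_eq_sum_range (fun j => D.mu j)]

instance : FiniteDimensional ℂ D.V := FiniteDimensional.of_injective D.Psi D.Psi_inj

/-! existence of bounded solutions with prescribed boundary data -/

noncomputable def B (i : ℕ) : ℕ → ℕ → ℝ
  | 0 => fun n => if n < D.M then (if n = i then 1 else 0) else 0
  | (t+1) => fun n => if n < D.M then (if n = i then 1 else 0) else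
      ∑' k, D.P D.N k * B i t (n - D.M + k)

lemma B_nonneg (i t n : ℕ) : 0 ≤ D.B i t n := by
  induction t generalizing n with
  | zero => simp only [B]; split_ifs <;> norm_num
  | succ t ih =>
    simp only [B]
    split_ifs
    · norm_num
    · norm_num
    · exact tsum_nonneg fun k => mul_nonneg ((D.lawP _).nn k) (ih _)

lemma B_summ (i t : ℕ) (h : ∀ n, D.B i t n ≤ 1) (n : ℕ) :
    Summable (fun k => D.P D.N k * D.B i t (n + k)) := by
  refine Summable.of_nonneg_of_le (fun k => mul_nonneg ((D.lawP _).nn k) (D.B_nonneg _ _ _))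
    (fun k => ?_) (D.lawP D.N).sum.summable
  exact mul_le_of_le_one_right ((D.lawP _).nn k) (h _)

lemma B_le_one (i t n : ℕ) : D.B i t n ≤ 1 := by
  induction t generalizing n with
  | zero => simp only [B]; split_ifs <;> norm_num
  | succ t ih =>
    simp only [B]
    split_ifs
    · norm_num
    · norm_num
    · have h1 := (D.B_summ i t ih (n - D.M)).tsum_le_tsum (g := D.P D.N)
        (fun k => mul_le_of_le_one_right ((D.lawP _).nn k) (ih _)) (D.lawP D.N).sum.summable
      rwa [(D.lawP D.N).sum.tsum_eq] at h1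

lemma B_mono (i t n : ℕ) : D.B i t n ≤ D.B i (t+1) n := by
  induction t generalizing n with
  | zero =>
    simp only [B]
    split_ifs
    · exact le_rfl
    · exact le_rfl
    · refine tsum_nonneg fun k => mul_nonneg ((D.lawP _).nn k) ?_
      split_ifs <;> norm_num
  | succ t ih =>
    rw [B, B]
    by_cases h : n < D.M
    · simp only [h, if_true]; exact le_rfl
    · simp only [h, if_false]
      refine (D.B_summ i t (D.B_le_one i t) (n - D.M)).tsum_le_tsum (fun k => ?_)
        (D.B_summ i (t+1) (D.B_le_one i (t+1)) (n - D.M))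
      exact mul_le_mul_of_nonneg_left (ih _) ((D.lawP _).nn k)

lemma B_tendsto (i n : ℕ) : Tendsto (fun t => D.B i t n) atTop (𝓝 (⨆ t, D.B i t n)) := by
  refine tendsto_atTop_ciSup (monotone_nat_of_le_succ fun t => D.B_mono i t n) ?_
  exact ⟨1, by rintro _ ⟨t, rfl⟩; exact D.B_le_one i t n⟩

noncomputable def sol (i n : ℕ) : ℝ := ⨆ t, D.B i t n

lemma sol_lt {i n : ℕ} (h : n < D.M) : D.sol i n = if n = i then 1 else 0 := by
  have h1 : Tendsto (fun t => D.B i t n) atTop (𝓝 (D.sol i n)) := D.B_tendsto i n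
  have h2 : (fun t => D.B i t n) = fun _ => if n = i then (1:ℝ) else 0 := by
    ext t
    cases t with
    | zero => simp [B, h]
    | succ t => simp [B, h]
  rw [h2] at h1
  exact tendsto_nhds_unique h1 tendsto_const_nhds

lemma sol_rec (i n : ℕ) : D.sol i (n + D.M) = ∑' k, D.P D.N k * D.sol i (n + k) := by
  have h1 := (tendsto_add_atTop_iff_nat 1).2 (D.B_tendsto i (n + D.M))
  have h2 : Tendsto (fun t => D.B i (t+1) (n + D.M)) atTop
      (𝓝 (∑' k, D.P D.N k * D.sol i (n + k))) := by
    have h3 : (fun t => D.B i (t+1) (n + D.M)) =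
        fun t => ∑' k, D.P D.N k * D.B i t (n + k) := by
      ext t
      simp only [B]
      rw [if_neg (by omega), Nat.add_sub_cancel]
    rw [h3]
    refine tendsto_tsum_of_dominated_convergence (bound := D.P D.N)
      (D.lawP D.N).sum.summable (fun k => ?_) ?_
    · exact (D.B_tendsto i (n+k)).const_mul _
    · refine Eventually.of_forall fun t k => ?_
      rw [Real.norm_of_nonneg (mul_nonneg ((D.lawP _).nn k) (D.B_nonneg _ _ _))]
      exact mul_le_of_le_one_right ((D.lawP _).nn k) (D.B_le_one _ _ _)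
  exact tendsto_nhds_unique h1 h2

lemma sol_nonneg (i n : ℕ) : 0 ≤ D.sol i n := Real.iSup_nonneg fun t => D.B_nonneg i t n
lemma sol_le_one (i n : ℕ) : D.sol i n ≤ 1 := ciSup_le fun t => D.B_le_one i t n

lemma sol_mem (i : ℕ) : (fun n => (D.sol i n : ℂ)) ∈ D.V := by
  constructor
  · refine ⟨1, fun n => ?_⟩
    rw [Complex.norm_real, Real.norm_of_nonneg (D.sol_nonneg i n)]
    exact D.sol_le_one i n
  · intro n
    show T (D.P D.N) (fun n => (D.sol i n : ℂ)) n = ((D.sol i (n + D.M) : ℝ) : ℂ)
    rw [D.sol_rec i n]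
    unfold T
    push_cast
    rfl

lemma finrank_V_ge : D.M ≤ Module.finrank ℂ D.V := by
  have h : LinearIndependent ℂ (fun i : Fin D.M => (⟨_, D.sol_mem i⟩ : D.V)) := by
    rw [Fintype.linearIndependent_iff]
    intro g hg i
    have h1 := congrArg (fun b : D.V => (b : ℕ → ℂ) i) hg
    simp only [AddSubmonoidClass.coe_finsetSum, Submodule.coe_smul, Finset.sum_apply,
      Pi.smul_apply, smul_eq_mul, ZeroMemClass.coe_zero, Pi.zero_apply] at h1
    rw [Finset.sum_eq_single i] at h1
    · rw [D.sol_lt i.2, if_pos rfl] at h1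
      simpa using h1
    · intro j _ hj
      rw [D.sol_lt i.2, if_neg (fun h => hj (Fin.ext h.symm))]
      simp
    · simp
  have := h.fintype_card_le_finrank
  simpa using this

lemma finrank_V : Module.finrank ℂ D.V = D.M := by
  refine le_antisymm ?_ D.finrank_V_ge
  have h := LinearMap.finrank_le_finrank_of_injective D.Psi_inj
  rwa [Module.finrank_fintype_fun_eq_card, D.card_C] at h

lemma Psi_surj : Function.Surjective D.Psi := by
  have h : Module.finrank ℂ D.V = Module.finrank ℂ (D.C → ℂ) := by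
    rw [Module.finrank_fintype_fun_eq_card, D.card_C, D.finrank_V]
  exact (LinearMap.injective_iff_surjective_of_finrank_eq_finrank h).1 D.Psi_inj

/-- if `v` pairs to zero with all of `V`, then `v = 0` -/
lemma ker_trivial (v : D.C → ℂ) (h : ∀ b ∈ D.V, ∑ x, v x * D.pair b x = 0) : v = 0 := by
  classical
  ext x
  obtain ⟨b, hb⟩ := D.Psi_surj (Pi.single x 1)
  have h1 := h b b.2
  have h2 : ∀ y, D.pair b y = (Pi.single x (1:ℂ) : D.C → ℂ) y := fun y => congrFun hb y
  simp only [h2] at h1
  rw [Finset.sum_eq_single x] at h1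
  · simpa using h1
  · intro y _ hy; rw [Pi.single_eq_of_ne hy, mul_zero]
  · simp

end Dat

end V11327.RM
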