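import Mathlib
import Pool.Agent.V11327.RMspace

open Finset Filter Topology

namespace V11327.RM

/-- exponential-polynomial sequences -/
noncomputable def e (α : ℂ) (t n : ℕ) : ℂ := (n.choose t : ℂ) * α ^ (n - t)

/-- shift -/
def L : (ℕ → ℂ) →ₗ[ℂ] (ℕ → ℂ) where
  toFun b n := b (n + 1)
  map_add' _ _ := rfl
  map_smul' _ _ := rfl

@[simp] lemma L_apply (b : ℕ → ℂ) (n : ℕ) : L b n = b (n+1) := rfl

lemma e_shift_zero (α : ℂ) (n : ℕ) : e α 0 (n+1) = α * e α 0 n := by
  simp [e, pow_succ]; ring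

lemma e_shift_succ (α : ℂ) (t n : ℕ) : e α (t+1) (n+1) = α * e α (t+1) n + e α t n := by
  unfold e
  rw [Nat.choose_succ_succ, Nat.add_sub_add_right]
  rcases Nat.lt_or_ge n (t+1) with h | h
  · rw [Nat.choose_eq_zero_of_lt h]
    simp
  · obtain ⟨m, rfl⟩ := Nat.exists_eq_add_of_le h
    rw [show t + 1 + m - t = m + 1 by omega, show t + 1 + m - (t+1) = m by omega]
    push_cast
    ring

lemma Lsub_e_zero (α : ℂ) : (L - α • (1 : Module.End ℂ (ℕ → ℂ))) (e α 0) = 0 := by
  ext n
  simp [e_shift_zero]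

lemma Lsub_e_succ (α : ℂ) (t : ℕ) :
    (L - α • (1 : Module.End ℂ (ℕ → ℂ))) (e α (t+1)) = e α t := by
  ext n
  simp [e_shift_succ]

lemma L_e_zero (α : ℂ) : L (e α 0) = α • e α 0 := by
  ext n
  simp [e_shift_zero]

lemma Lsub_pow_e (α : ℂ) (t k : ℕ) :
    ((L - α • (1 : Module.End ℂ (ℕ → ℂ))) ^ k) (e α (t + k)) = e α t := by
  induction k with
  | zero => simp
  | succ k ih =>
    rw [pow_succ, Module.End.mul_apply, ← add_assoc]
    rw [show (L - α • (1 : Module.End ℂ (ℕ → ℂ))) (e α (t+k+1)) = e α (t+k) from Lsub_e_succ α (t+k)]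
    exact ih

lemma Lsub_pow_e_zero (α : ℂ) (t k : ℕ) (h : t < k) :
    ((L - α • (1 : Module.End ℂ (ℕ → ℂ))) ^ k) (e α t) = 0 := by
  obtain ⟨m, rfl⟩ := Nat.exists_eq_add_of_lt h
  rw [show t + m + 1 = m + 1 + t by ring, pow_add, Module.End.mul_apply]
  have h1 := Lsub_pow_e α 0 t
  rw [zero_add] at h1
  rw [h1, pow_succ, Module.End.mul_apply]
  rw [show (L - α • (1 : Module.End ℂ (ℕ → ℂ))) (e α 0) = 0 from Lsub_e_zero α, map_zero]

open Polynomial in
lemma e_linearIndependent : LinearIndependent ℂ (fun x : ℂ × ℕ => e x.1 x.2) := by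
  classical
  rw [linearIndependent_iff']
  intro s g hg
  by_contra hcon
  push Not at hcon
  obtain ⟨x1, hx1, hgx1⟩ := hcon
  set α0 := x1.1 with hα0
  -- maximal `t` with `(α0,t) ∈ s` and nonzero coefficient
  set S := s.filter (fun x => x.1 = α0 ∧ g x ≠ 0) with hS
  have hSne : S.Nonempty := ⟨x1, by simp [hS, hx1, hgx1, hα0]⟩
  obtain ⟨x0, hx0, hmax⟩ := S.exists_max_image (fun x => x.2) hSne
  rw [hS, Finset.mem_filter] at hx0
  obtain ⟨hx0s, hx0α, hgx0⟩ := hx0
  set A := (s.image Prod.fst).erase α0 with hA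
  set K := s.sup (fun x => x.2) + 1 with hK
  set q : ℂ[X] := ∏ α ∈ A, (X - C α) ^ K with hq
  set p : ℂ[X] := q * (X - C α0) ^ x0.2 with hp
  have hXC : ∀ α : ℂ, (aeval L) (X - C α) = L - α • (1 : Module.End ℂ (ℕ → ℂ)) := by
    intro α
    rw [map_sub, aeval_X, aeval_C]; rfl
  have h1 := congrArg ((aeval L) p) hg
  rw [map_zero, map_sum, Finset.sum_eq_single x0] at h1
  · rw [map_smul, hp, map_mul, Module.End.mul_apply, map_pow, hXC] at h1
    have h2 := Lsub_pow_e α0 0 x0.2
    rw [zero_add] at h2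
    rw [hx0α, h2] at h1
    have h3 : (aeval L q) (e α0 0) = q.eval α0 • e α0 0 := by
      have hv : Module.End.HasEigenvector L α0 (e α0 0) := by
        refine ⟨Module.End.mem_eigenspace_iff.2 (L_e_zero α0), ?_⟩
        intro h
        have := congrFun h 0
        simp [e] at this
      exact Module.End.aeval_apply_of_hasEigenvector hv
    rw [h3] at h1
    have h4 := congrFun h1 0
    simp only [Pi.smul_apply, smul_eq_mul, Pi.zero_apply] at h4
    have h5 : e α0 0 0 = 1 := by simp [e]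
    rw [h5, mul_one] at h4
    have h6 : q.eval α0 ≠ 0 := by
      rw [hq, eval_prod]
      refine Finset.prod_ne_zero_iff.2 fun α hα => ?_
      rw [hA, Finset.mem_erase] at hα
      simp only [eval_pow, eval_sub, eval_X, eval_C]
      exact pow_ne_zero _ (sub_ne_zero.2 (fun h => hα.1 h.symm))
    exact (mul_ne_zero hgx0 h6) h4
  · intro y hy hyx
    rw [map_smul]
    by_cases hgy : g y = 0
    · rw [hgy, zero_smul]
    · by_cases hyα : y.1 = α0
      · have h7 : y ∈ S := by simp [hS, hy, hyα, hgy]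
        have h8 := hmax y h7
        have h9 : y.2 < x0.2 := by
          rcases Nat.lt_or_ge y.2 x0.2 with h | h
          · exact h
          · exact absurd (Prod.ext (hyα.trans hx0α.symm) (le_antisymm h8 h)) hyx
        rw [hp, map_mul, Module.End.mul_apply, map_pow, hXC, hyα, Lsub_pow_e_zero _ _ _ h9,
          map_zero, smul_zero]
      · have h7 : y.1 ∈ A := by
          rw [hA, Finset.mem_erase]
          exact ⟨hyα, Finset.mem_image_of_mem _ hy⟩
        have h8 : y.2 < K := by
          rw [hK]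
          exact Nat.lt_succ_of_le (Finset.le_sup (f := fun x : ℂ × ℕ => x.2) hy)
        have h9 : (X - C y.1) ^ K ∣ p := by
          rw [hp, hq]
          exact Dvd.dvd.mul_right (Finset.dvd_prod_of_mem _ h7) _
        obtain ⟨r, hr⟩ := h9
        rw [hr, mul_comm, map_mul, Module.End.mul_apply, map_pow, hXC, Lsub_pow_e_zero _ _ _ h8,
          map_zero, smul_zero]
  · intro h; exact absurd hx0s h

lemma ker_pow_form (α : ℂ) (k : ℕ) (b : ℕ → ℂ)
    (h : ((L - α • (1 : Module.End ℂ (ℕ → ℂ))) ^ k) b = 0) :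
    ∃ c : ℕ → ℂ, b = ∑ t ∈ range k, c t • e α t := by
  induction k generalizing b with
  | zero =>
    refine ⟨0, ?_⟩
    simpa using h
  | succ k ih =>
    rw [pow_succ, Module.End.mul_apply] at h
    obtain ⟨c, hc⟩ := ih _ h
    set r : ℕ → ℂ := b - ∑ t ∈ range k, c t • e α (t+1) with hr
    have h1 : (L - α • (1 : Module.End ℂ (ℕ → ℂ))) r = 0 := by
      rw [hr, map_sub, hc, map_sum, sub_eq_zero]
      refine Finset.sum_congr rfl fun t _ => ?_
      rw [map_smul]
      rw [show (L - α • (1 : Module.End ℂ (ℕ → ℂ))) (e α (t+1)) = e α t from Lsub_e_succ α t]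
    have h2 : r = r 0 • e α 0 := by
      ext n
      induction n with
      | zero => simp [e]
      | succ n ihn =>
        have := congrFun h1 n
        simp only [LinearMap.sub_apply, LinearMap.smul_apply, Module.End.one_apply, Pi.sub_apply,
          Pi.smul_apply, smul_eq_mul, L_apply, Pi.zero_apply, sub_eq_zero] at this
        rw [this, ihn]
        simp only [Pi.smul_apply, smul_eq_mul, e_shift_zero]; ring
    refine ⟨fun t => if t = 0 then r 0 else c (t-1), ?_⟩
    rw [Finset.sum_range_succ']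
    simp only [Nat.succ_ne_zero, if_false, Nat.add_sub_cancel, if_true]
    rw [← h2, hr]; abel

namespace Dat

variable (D : Dat)

lemma T_shift (p : ℕ → ℝ) (b : ℕ → ℂ) (n : ℕ) : T p (L b) n = T p b (n+1) := by
  unfold T
  congr 1; ext k
  rw [L_apply]
  congr 2; ring

lemma Bdd_L {b : ℕ → ℂ} (h : Bdd b) : Bdd (L b) := by
  obtain ⟨C, hC⟩ := h
  exact ⟨C, fun n => hC _⟩

lemma L_mem {b : ℕ → ℂ} (h : b ∈ D.V) : L b ∈ D.V := by
  refine ⟨Bdd_L h.1, fun n => ?_⟩
  rw [T_shift, h.2, L_apply]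
  congr 1; ring

lemma Lsub_mem {b : ℕ → ℂ} (α : ℂ) (h : b ∈ D.V) :
    (L - α • (1 : Module.End ℂ (ℕ → ℂ))) b ∈ D.V := by
  have : (L - α • (1 : Module.End ℂ (ℕ → ℂ))) b = L b - α • b := rfl
  rw [this]
  exact D.V.sub_mem (D.L_mem h) (D.V.smul_mem α h)

lemma e_mem_of_succ {α : ℂ} {t : ℕ} (h : e α (t+1) ∈ D.V) : e α t ∈ D.V := by
  have := D.Lsub_mem α h
  rwa [show (L - α • (1 : Module.End ℂ (ℕ → ℂ))) (e α (t+1)) = e α t from Lsub_e_succ α t] at this

lemma e_mem_of_le {α : ℂ} {s t : ℕ} (hst : s ≤ t) (h : e α t ∈ D.V) : e α s ∈ D.V := by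
  obtain ⟨k, rfl⟩ := Nat.exists_eq_add_of_le hst
  clear hst
  induction k with
  | zero => exact h
  | succ k ih => exact ih (D.e_mem_of_succ h)

lemma comb_mem (α : ℂ) (k : ℕ) (c : ℕ → ℂ)
    (hb : (∑ t ∈ range k, c t • e α t) ∈ D.V) : ∀ t < k, c t ≠ 0 → e α t ∈ D.V := by
  induction k generalizing c with
  | zero => intro t ht; omega
  | succ k ih =>
    by_cases hck : c k = 0
    · rw [Finset.sum_range_succ, hck, zero_smul, add_zero] at hb
      intro t ht hct
      rcases Nat.lt_or_ge t k with h | h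
      · exact ih c hb t h hct
      · have : t = k := by omega
        rw [this] at hct
        exact absurd hck hct
    · have hlow : ∀ s < k, e α s ∈ D.V := by
        intro s hs
        have h1 := D.Lsub_mem α hb
        rw [map_sum] at h1
        simp only [map_smul] at h1
        rw [Finset.sum_range_succ',
          show (L - α • (1 : Module.End ℂ (ℕ → ℂ))) (e α 0) = 0 from Lsub_e_zero α,
          smul_zero, add_zero] at h1
        have h2 : ∀ t, (L - α • (1 : Module.End ℂ (ℕ → ℂ))) (e α (t+1)) = e α t :=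
          fun t => Lsub_e_succ α t
        simp only [h2] at h1
        have h3 := ih (fun t => c (t+1)) h1 (k-1) (by omega)
          (by rwa [Nat.sub_add_cancel (by omega)])
        exact D.e_mem_of_le (by omega) h3
      have hk : e α k ∈ D.V := by
        rw [Finset.sum_range_succ] at hb
        have h1 : (∑ t ∈ range k, c t • e α t) ∈ D.V :=
          D.V.sum_mem fun t ht => D.V.smul_mem _ (hlow t (Finset.mem_range.1 ht))
        have h2 : c k • e α k ∈ D.V := by
          have := D.V.sub_mem hb h1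
          rwa [add_sub_cancel_left] at this
        have h3 := D.V.smul_mem (c k)⁻¹ h2
        rwa [smul_smul, inv_mul_cancel₀ hck, one_smul] at h3
      intro t ht _
      exact D.e_mem_of_le (by omega) hk

/-- index set of exponential-polynomial elements of `V` -/
abbrev Idx := {x : ℂ × ℕ // e x.1 x.2 ∈ D.V}

noncomputable def ev (x : D.Idx) : D.V := ⟨e x.1.1 x.1.2, x.2⟩

lemma ev_li : LinearIndependent ℂ D.ev := by
  have h1 : LinearIndependent ℂ (fun x : D.Idx => e x.1.1 x.1.2) :=
    e_linearIndependent.comp (fun x : D.Idx => x.1) Subtype.val_injective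
  exact LinearIndependent.of_comp D.V.subtype h1

/-- restriction of the shift to `V` -/
noncomputable def LV : Module.End ℂ D.V := L.restrict (fun _ h => D.L_mem h)

lemma LV_coe (b : D.V) : ((D.LV b : D.V) : ℕ → ℂ) = L b := rfl

lemma LVsub_pow_coe (α : ℂ) (k : ℕ) (b : D.V) :
    ((((D.LV - α • (1 : Module.End ℂ D.V)) ^ k) b : D.V) : ℕ → ℂ) =
    ((L - α • (1 : Module.End ℂ (ℕ → ℂ))) ^ k) (b : ℕ → ℂ) := by
  induction k generalizing b with
  | zero => rfl
  | succ k ih =>
    rw [pow_succ, Module.End.mul_apply, ih, pow_succ, Module.End.mul_apply]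
    rfl

lemma ev_span : ⊤ ≤ Submodule.span ℂ (Set.range D.ev) := by
  rw [← Module.End.iSup_maxGenEigenspace_eq_top D.LV]
  refine iSup_le fun α => ?_
  intro b hb
  rw [Module.End.mem_maxGenEigenspace] at hb
  obtain ⟨k, hk⟩ := hb
  have h1 : ((L - α • (1 : Module.End ℂ (ℕ → ℂ))) ^ k) (b : ℕ → ℂ) = 0 := by
    rw [← D.LVsub_pow_coe, hk]; rfl
  obtain ⟨c, hc⟩ := ker_pow_form α k _ h1
  have h2 := D.comb_mem α k c (by rw [← hc]; exact b.2)
  classical
  have h3 : b = ∑ t ∈ (range k).attach, (if h : c t ≠ 0 then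
      c t • D.ev ⟨(α, (t:ℕ)), h2 t (Finset.mem_range.1 t.2) h⟩ else 0) := by
    apply Subtype.ext
    rw [hc, AddSubmonoidClass.coe_finsetSum, ← Finset.sum_attach]
    refine Finset.sum_congr rfl fun t _ => ?_
    by_cases h : c t ≠ 0
    · rw [dif_pos h]; rfl
    · rw [dif_neg h]
      push Not at h
      rw [h, zero_smul]; rfl
  rw [h3]
  refine Submodule.sum_mem _ fun t _ => ?_
  split_ifs with h
  · exact Submodule.smul_mem _ _ (Submodule.subset_span ⟨_, rfl⟩)
  · exact Submodule.zero_mem _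

noncomputable def evBasis : Module.Basis D.Idx ℂ D.V := Module.Basis.mk D.ev_li D.ev_span

instance : Finite D.Idx := D.ev_li.finite

lemma card_Idx : Nat.card D.Idx = D.M := by
  rw [← D.finrank_V, Module.finrank_eq_nat_card_basis D.evBasis]

end Dat

end V11327.RM
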