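import Mathlib
import Pool.Agent.V11327.RMexp

open Finset Filter Topology

namespace V11327.RM

variable {p : ℕ → ℝ}

lemma norm_e (α : ℂ) (t n : ℕ) : ‖e α t n‖ = (n.choose t : ℝ) * ‖α‖ ^ (n - t) := by
  simp [e]

/-- bound for `C(n,t) r^(n-t)` -/
lemma choose_bound {r : ℝ} (h0 : 0 ≤ r) (h1 : r < 1) (t : ℕ) :
    ∃ K : ℝ, 0 ≤ K ∧ ∀ n : ℕ, (n.choose t : ℝ) * r ^ (n - t) ≤ K := by
  have hs : Summable (fun n : ℕ => ((n + t).choose t : ℝ) * r ^ n) :=
    summable_choose_mul_geometric_of_norm_lt_one t (by rwa [Real.norm_of_nonneg h0])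
  have hnn : ∀ n : ℕ, 0 ≤ ((n + t).choose t : ℝ) * r ^ n := fun n => by positivity
  refine ⟨∑' n : ℕ, ((n + t).choose t : ℝ) * r ^ n, tsum_nonneg hnn, fun n => ?_⟩
  rcases Nat.lt_or_ge n t with h | h
  · rw [Nat.choose_eq_zero_of_lt h]
    simpa using tsum_nonneg hnn
  · obtain ⟨m, rfl⟩ := Nat.exists_eq_add_of_le' h
    rw [Nat.add_sub_cancel]
    exact hs.le_tsum m (fun j _ => hnn j)

lemma e_bdd {α : ℂ} (h : ‖α‖ < 1) (t : ℕ) : Bdd (e α t) := by
  obtain ⟨K, _, hK⟩ := choose_bound (norm_nonneg α) h t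
  exact ⟨K, fun n => by rw [norm_e]; exact hK n⟩

lemma e_bdd_zero {α : ℂ} (h : ‖α‖ ≤ 1) : Bdd (e α 0) :=
  ⟨1, fun n => by rw [norm_e]; simpa using pow_le_one₀ (norm_nonneg _) h⟩

lemma hasDerivAt_e (t n : ℕ) (z : ℂ) : HasDerivAt (fun z => e z t n) ((t + 1) * e z (t+1) n) z := by
  unfold e
  have h := (hasDerivAt_pow (n - t) z).const_mul (n.choose t : ℂ)
  refine h.congr_deriv ?_
  rw [show n - (t+1) = n - t - 1 by omega]
  have h2 : ((n.choose (t+1) : ℂ)) * ((t:ℂ) + 1) = (n.choose t : ℂ) * ((n - t : ℕ) : ℂ) := by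
    exact_mod_cast Nat.choose_succ_right_eq n t
  linear_combination -(z ^ (n - t - 1)) * h2

lemma hasDerivAt_T (hp : Law p) (n t : ℕ) {s : ℂ} (hs : ‖s‖ < 1) :
    HasDerivAt (fun z => T p (e z t) n) ((t + 1) * T p (e s (t+1)) n) s := by
  obtain ⟨ρ, hρ1, hρ2⟩ := _root_.exists_between hs
  have hρ0 : 0 ≤ ρ := (norm_nonneg _).trans hρ1.le
  obtain ⟨K, hK0, hK⟩ := choose_bound hρ0 hρ2 (t+1)
  have h := hasDerivAt_tsum_of_isPreconnected (𝕜 := ℂ) (F := ℂ)
    (u := fun k => p k * ((t + 1) * K)) (t := Metric.ball (0:ℂ) ρ)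
    (g := fun k z => (p k : ℂ) * e z t (n + k))
    (g' := fun k z => (p k : ℂ) * ((t + 1) * e z (t+1) (n + k))) (y₀ := s) (y := s)
    (hp.sum.summable.mul_right _) Metric.isOpen_ball (convex_ball _ _).isPreconnected
    (fun k y _ => (hasDerivAt_e t (n+k) y).const_mul _)
    (fun k y hy => by
      rw [Metric.mem_ball, dist_zero_right] at hy
      rw [norm_mul, norm_mul, Complex.norm_real, Real.norm_of_nonneg (hp.nn k), norm_e]
      have h1 : ‖((t:ℂ) + 1)‖ = (t:ℝ) + 1 := by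
        have : ((t:ℂ) + 1) = ((t + 1 : ℕ) : ℂ) := by push_cast; ring
        rw [this, Complex.norm_natCast]; push_cast; ring
      rw [h1]
      refine mul_le_mul_of_nonneg_left (mul_le_mul_of_nonneg_left ?_ (by positivity)) (hp.nn k)
      refine le_trans ?_ (hK (n+k))
      refine mul_le_mul_of_nonneg_left ?_ (by positivity)
      exact pow_le_pow_left₀ (norm_nonneg _) hy.le _)
    (by rw [Metric.mem_ball, dist_zero_right]; exact hρ1)
    (hp.summ (e_bdd hs t) n)
    (by rw [Metric.mem_ball, dist_zero_right]; exact hρ1)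
  have h2 : ∑' k, (p k : ℂ) * ((t + 1) * e s (t+1) (n + k)) = (t + 1) * T p (e s (t+1)) n := by
    unfold T
    rw [← tsum_mul_left]
    congr 1; ext k; ring
  rw [← h2]
  exact h

lemma iteratedDeriv_T (hp : Law p) (n : ℕ) : ∀ t : ℕ, ∀ α : ℂ, ‖α‖ < 1 →
    iteratedDeriv t (fun z => T p (e z 0) n) α = (t.factorial : ℂ) * T p (e α t) n := by
  intro t
  induction t with
  | zero => intro α _; simp
  | succ t ih =>
    intro α hα
    rw [iteratedDeriv_succ]
    have h1 : iteratedDeriv t (fun z => T p (e z 0) n) =ᶠ[𝓝 α]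
        fun z => (t.factorial : ℂ) * T p (e z t) n := by
      have : Metric.ball (0:ℂ) 1 ∈ 𝓝 α := Metric.isOpen_ball.mem_nhds (by
        rw [Metric.mem_ball, dist_zero_right]; exact hα)
      filter_upwards [this] with z hz
      rw [Metric.mem_ball, dist_zero_right] at hz
      exact ih z hz
    rw [h1.deriv_eq, ((hasDerivAt_T hp n t hα).const_mul _).deriv, Nat.factorial_succ]
    push_cast; ring

lemma analyticAt_T (hp : Law p) (n : ℕ) {α : ℂ} (hα : ‖α‖ < 1) :
    AnalyticAt ℂ (fun z => T p (e z 0) n) α := by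
  have h : DifferentiableOn ℂ (fun z => T p (e z 0) n) (Metric.ball 0 1) := by
    intro z hz
    rw [Metric.mem_ball, dist_zero_right] at hz
    exact (hasDerivAt_T hp n 0 hz).differentiableAt.differentiableWithinAt
  exact h.analyticAt (Metric.isOpen_ball.mem_nhds (by
        rw [Metric.mem_ball, dist_zero_right]; exact hα))

namespace Dat

variable (D : Dat)

/-- `H(s) = g(s) - s^M` -/
noncomputable def H (s : ℂ) : ℂ := T (D.P D.N) (e s 0) 0 - s ^ D.M

/-- defect of the recursion -/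
noncomputable def RR (b : ℕ → ℂ) (n : ℕ) : ℂ := T (D.P D.N) b n - b (n + D.M)

lemma H_eq (s : ℂ) : D.H s = D.RR (e s 0) 0 := by
  simp [H, RR, e]

lemma RR_shift (b : ℕ → ℂ) (n : ℕ) : D.RR (L b) n = D.RR b (n+1) := by
  unfold RR
  rw [T_shift, L_apply]
  congr 2; ring

lemma H_eq' (s : ℂ) : D.H s = T (D.P D.N) (e s 0) 0 - T (D.P 0) (e s 0) D.M := by
  rw [D.T_zero_P]; simp [H, e]

lemma analyticAt_H {α : ℂ} (hα : ‖α‖ < 1) : AnalyticAt ℂ D.H α := by
  have h : D.H = fun s => T (D.P D.N) (e s 0) 0 - T (D.P 0) (e s 0) D.M := by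
    ext s; exact D.H_eq' s
  rw [h]
  exact (analyticAt_T (D.lawP _) 0 hα).sub (analyticAt_T (D.lawP _) _ hα)

lemma iteratedDeriv_H (t : ℕ) {α : ℂ} (hα : ‖α‖ < 1) :
    iteratedDeriv t D.H α = (t.factorial : ℂ) * D.RR (e α t) 0 := by
  have h : D.H = fun s => T (D.P D.N) (e s 0) 0 - T (D.P 0) (e s 0) D.M := by
    ext s; exact D.H_eq' s
  rw [h, iteratedDeriv_fun_sub (analyticAt_T (D.lawP _) 0 hα).contDiffAt
    (analyticAt_T (D.lawP _) _ hα).contDiffAt, iteratedDeriv_T (D.lawP _) 0 t α hα,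
    iteratedDeriv_T (D.lawP _) D.M t α hα, D.T_zero_P]
  unfold RR
  rw [zero_add]; ring

lemma RR_e_zero {α : ℂ} (h : D.RR (e α 0) 0 = 0) (n : ℕ) : D.RR (e α 0) n = 0 := by
  induction n with
  | zero => exact h
  | succ n ih =>
    rw [← RR_shift, L_e_zero]
    unfold RR at ih ⊢
    rw [T_smul, Pi.smul_apply, smul_eq_mul, ← mul_sub, ih, mul_zero]

lemma RR_e_succ {α : ℂ} (hα : ‖α‖ < 1) (t : ℕ) (hprev : ∀ n, D.RR (e α t) n = 0)
    (h : D.RR (e α (t+1)) 0 = 0) (n : ℕ) : D.RR (e α (t+1)) n = 0 := by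
  induction n with
  | zero => exact h
  | succ n ih =>
    rw [← RR_shift]
    have h1 : L (e α (t+1)) = α • e α (t+1) + e α t := by
      ext m; simp [e_shift_succ]
    rw [h1]
    have h2 := hprev n
    unfold RR at ih h2 ⊢
    rw [T_add (D.lawP _) ((e_bdd hα _).smul α) (e_bdd hα t), T_smul, Pi.add_apply, Pi.smul_apply,
      smul_eq_mul]
    linear_combination α * ih + h2

lemma mem_iff_interior {α : ℂ} (hα : ‖α‖ < 1) (t : ℕ) :
    e α t ∈ D.V ↔ ((t + 1 : ℕ) : ℕ∞) ≤ analyticOrderAt D.H α := by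
  rw [natCast_le_analyticOrderAt_iff_iteratedDeriv_eq_zero (D.analyticAt_H hα)]
  constructor
  · intro h i hi
    rw [D.iteratedDeriv_H i hα]
    have h1 := D.e_mem_of_le (Nat.lt_succ_iff.1 hi) h
    unfold RR
    rw [h1.2 0, sub_self, mul_zero]
  · intro h
    have hall : ∀ i ≤ t, ∀ n, D.RR (e α i) n = 0 := by
      intro i
      induction i with
      | zero =>
        intro _
        refine D.RR_e_zero ?_
        have := h 0 (by omega)
        rw [D.iteratedDeriv_H 0 hα] at this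
        simpa using this
      | succ i ih =>
        intro hi
        refine D.RR_e_succ hα i (ih (by omega)) ?_
        have := h (i+1) (by omega)
        rw [D.iteratedDeriv_H _ hα] at this
        rcases mul_eq_zero.1 this with h2 | h2
        · exact absurd h2 (by exact_mod_cast Nat.factorial_ne_zero _)
        · exact h2
    exact ⟨e_bdd hα t, fun n => sub_eq_zero.1 (hall t le_rfl n)⟩

lemma order_ne_top {α : ℂ} (hα : ‖α‖ < 1) : analyticOrderAt D.H α ≠ ⊤ := by
  intro h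
  have h1 : ∀ t : ℕ, e α t ∈ D.V := by
    intro t
    rw [D.mem_iff_interior hα, h]
    exact le_top
  have h2 : Function.Injective (fun t : ℕ => (⟨(α, t), h1 t⟩ : D.Idx)) := by
    intro s t hst
    have := congrArg (fun x : D.Idx => x.1.2) hst
    simpa using this
  have := Finite.of_injective _ h2
  exact not_finite ℕ

lemma mem_iff_interior' {α : ℂ} (hα : ‖α‖ < 1) (t : ℕ) :
    e α t ∈ D.V ↔ t < analyticOrderNatAt D.H α := by
  rw [D.mem_iff_interior hα, ← Nat.cast_analyticOrderNatAt (D.order_ne_top hα)]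
  rw [ENat.natCast_le_natCast]
  exact Nat.succ_le_iff

lemma mem_imp_norm {α : ℂ} {t : ℕ} (h : e α t ∈ D.V) : ‖α‖ ≤ 1 := by
  have h0 := D.e_mem_of_le (Nat.zero_le t) h
  obtain ⟨C, hC⟩ := h0.1
  by_contra hcon
  push Not at hcon
  obtain ⟨n, hn⟩ := pow_unbounded_of_one_lt C hcon
  have h1 := hC n
  rw [norm_e] at h1
  simp at h1
  linarith

lemma mem_boundary_t {α : ℂ} (hα : ‖α‖ = 1) {t : ℕ} (h : e α t ∈ D.V) : t = 0 := by
  by_contra ht
  have h0 := D.e_mem_of_le (Nat.one_le_iff_ne_zero.2 ht) h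
  obtain ⟨C, hC⟩ := h0.1
  obtain ⟨n, hn⟩ := exists_nat_gt C
  have h1 := hC n
  rw [norm_e, hα] at h1
  simp at h1
  linarith

lemma mem_zero_iff {α : ℂ} (hα : ‖α‖ ≤ 1) : e α 0 ∈ D.V ↔ D.H α = 0 := by
  constructor
  · intro h
    rw [H_eq]
    unfold RR
    rw [h.2 0, sub_self]
  · intro h
    rw [H_eq] at h
    exact ⟨e_bdd_zero hα, fun n => sub_eq_zero.1 (D.RR_e_zero h n)⟩

lemma H_one : D.H 1 = 0 := by
  unfold H T
  have h : (fun k => (D.P D.N k : ℂ) * e 1 0 (0 + k)) = fun k => ((D.P D.N k : ℝ) : ℂ) := by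
    ext k; simp [e]
  rw [h, ← Complex.ofReal_tsum, (D.lawP _).sum.tsum_eq]
  simp

lemma H_zero : D.H 0 ≠ 0 := by
  unfold H T
  rw [tsum_eq_single 0]
  · rw [zero_pow (D.M_pos.ne')]
    simp [e]
    exact (D.P_zero_pos _).ne'
  · intro k hk
    simp [e, hk]

/-- multiplicity of a zero of `H` -/
noncomputable def mult (α : ℂ) : ℕ := if ‖α‖ < 1 then analyticOrderNatAt D.H α else 1

lemma mem_iff {α : ℂ} (hα : ‖α‖ ≤ 1) (hH : D.H α = 0) (t : ℕ) : e α t ∈ D.V ↔ t < D.mult α := by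
  unfold mult
  split_ifs with h
  · exact D.mem_iff_interior' h t
  · have h1 : ‖α‖ = 1 := le_antisymm hα (not_lt.1 h)
    constructor
    · intro h2
      rw [D.mem_boundary_t h1 h2]; norm_num
    · intro h2
      have : t = 0 := by omega
      rw [this, D.mem_zero_iff hα]; exact hH

/-- roots in the closed disc other than `1` -/
abbrev Root := {α : ℂ // ‖α‖ ≤ 1 ∧ α ≠ 1 ∧ D.H α = 0}

abbrev Row := (Σ α : D.Root, Fin (D.mult α.1)) ⊕ Unit

noncomputable def rowEquiv : D.Row ≃ D.Idx := by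
  classical
  exact Equiv.ofBijective
    (fun x => match x with
      | Sum.inl y => ⟨(y.1.1, (y.2 : ℕ)), (D.mem_iff y.1.2.1 y.1.2.2.2 _).2 y.2.2⟩
      | Sum.inr _ => ⟨(1, 0), (D.mem_zero_iff (by simp)).2 D.H_one⟩) (by
    constructor
    · rintro (⟨α, t⟩ | ⟨⟩) (⟨β, s⟩ | ⟨⟩) h
      · simp only [Subtype.mk.injEq, Prod.mk.injEq] at h
        obtain ⟨h1, h2⟩ := h
        have h3 : α = β := Subtype.ext h1
        subst h3
        have h4 : t = s := Fin.ext h2
        subst h4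
        rfl
      · simp only [Subtype.mk.injEq, Prod.mk.injEq] at h
        exact absurd h.1 α.2.2.1
      · simp only [Subtype.mk.injEq, Prod.mk.injEq] at h
        exact absurd h.1.symm β.2.2.1
      · rfl
    · rintro ⟨⟨α, t⟩, h⟩
      have h1 := D.mem_imp_norm h
      have h2 := (D.mem_zero_iff h1).1 (D.e_mem_of_le (Nat.zero_le t) h)
      by_cases h3 : α = 1
      · subst h3
        have h4 := D.mem_boundary_t (by simp) h
        simp only at h4
        subst h4
        exact ⟨Sum.inr (), rfl⟩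
      · refine ⟨Sum.inl ⟨⟨α, h1, h3, h2⟩, ⟨t, (D.mem_iff h1 h2 t).1 h⟩⟩, rfl⟩)

instance : Finite D.Row := Finite.of_equiv _ D.rowEquiv.symm

lemma card_Row : Nat.card D.Row = D.M := by
  rw [Nat.card_congr D.rowEquiv, D.card_Idx]

lemma nonempty_equiv : Nonempty (D.Row ≃ D.C) := by
  have h : Nat.card D.Row = Nat.card D.C := by
    rw [D.card_Row, Nat.card_eq_fintype_card, D.card_C]
  haveI := Fintype.ofFinite D.Row
  rw [Nat.card_eq_fintype_card, Nat.card_eq_fintype_card] at h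
  exact ⟨Fintype.equivOfCardEq h⟩

/-- Trivial kernel. -/
theorem core (v : D.C → ℂ)
    (h1 : ∑ x, v x * D.pair (e 1 0) x = 0)
    (h2 : ∀ α : ℂ, ‖α‖ = 1 → α ≠ 1 → D.H α = 0 → ∑ x, v x * D.pair (e α 0) x = 0)
    (h3 : ∀ α : ℂ, ‖α‖ < 1 → D.H α = 0 → ∀ t < analyticOrderNatAt D.H α,
      iteratedDeriv t (fun s => ∑ x, v x * D.pair (e s 0) x) α = 0) : v = 0 := by
  apply D.ker_trivial v
  have hpair : ∀ (t : ℕ) (α : ℂ), ‖α‖ < 1 →
      iteratedDeriv t (fun s => ∑ x, v x * D.pair (e s 0) x) α =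
        (t.factorial : ℂ) * ∑ x, v x * D.pair (e α t) x := by
    intro t α hα
    unfold pair
    have hcd : ∀ (x : D.C) (r : ℕ), ContDiffAt ℂ t (fun s => T (D.P x.1) (e s 0)
        (D.M - D.Ms (x.1+1) + (r + x.2))) α := fun x r =>
      (analyticAt_T (D.lawP _) _ hα).contDiffAt
    rw [iteratedDeriv_fun_sum]
    · rw [Finset.mul_sum]
      refine Finset.sum_congr rfl fun x _ => ?_
      rw [iteratedDeriv_const_mul_field, iteratedDeriv_fun_sum]
      · rw [Finset.mul_sum, Finset.mul_sum, Finset.mul_sum]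
        refine Finset.sum_congr rfl fun r _ => ?_
        rw [iteratedDeriv_const_mul_field, iteratedDeriv_T (D.lawP _) _ t α hα]
        ring
      · intro r _
        exact contDiffAt_const.mul (hcd x r)
    · intro x _
      refine contDiffAt_const.mul (ContDiffAt.sum fun r _ => contDiffAt_const.mul (hcd x r))
  -- functional
  set lam : D.V →ₗ[ℂ] ℂ := ∑ x, v x • ((LinearMap.proj x : (D.C → ℂ) →ₗ[ℂ] ℂ) ∘ₗ D.Psi) with hlam
  have hlam' : ∀ b : D.V, lam b = ∑ x, v x * D.pair b x := by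
    intro b
    rw [hlam]
    simp only [LinearMap.sum_apply, LinearMap.smul_apply, smul_eq_mul, LinearMap.comp_apply,
      LinearMap.proj_apply]
    rfl
  have hz : lam = 0 := by
    apply D.evBasis.ext
    intro y
    rw [show D.evBasis y = D.ev y from Module.Basis.mk_apply _ _ _, LinearMap.zero_apply, hlam']
    obtain ⟨⟨α, t⟩, hy⟩ := y
    show ∑ x, v x * D.pair (e α t) x = 0
    have g1 := D.mem_imp_norm hy
    have g2 := (D.mem_zero_iff g1).1 (D.e_mem_of_le (Nat.zero_le t) hy)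
    rcases lt_or_eq_of_le g1 with g | g
    · have g3 := h3 α g g2 t ((D.mem_iff_interior' g t).1 hy)
      rw [hpair t α g] at g3
      rcases mul_eq_zero.1 g3 with h4 | h4
      · exact absurd h4 (by exact_mod_cast Nat.factorial_ne_zero _)
      · exact h4
    · have g3 := D.mem_boundary_t g hy
      simp only at g3
      subst g3
      by_cases g4 : α = 1
      · subst g4; exact h1
      · exact h2 α g g4 g2
  intro b hb
  have := hlam' ⟨b, hb⟩
  rw [hz, LinearMap.zero_apply] at this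
  exact this.symm

end Dat

end V11327.RM
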