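import Mathlib

/-! Definitions for `MP_432bca_pr`: the root-evaluation matrix of a periodic random walk. -/

open MeasureTheory ProbabilityTheory

namespace V11327.RootMatrix

variable {Ω : Type*} [MeasurableSpace Ω] {n : ℕ}

/-- `G_Y(s) = ∑_k s^k P(Y = k)` for an integer-valued random variable `Y`. -/
noncomputable def genFun (P : Measure Ω) (Y : Ω → ℤ) (s : ℂ) : ℂ :=
  ∑' k : ℤ, s ^ k * ((P.real {ω | Y ω = k} : ℝ) : ℂ)

/-- `F_Y(k) = P(Y ≤ k)`. -/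
noncomputable def cdfZ (P : Measure Ω) (Y : Ω → ℤ) (k : ℤ) : ℝ := P.real {ω | Y ω ≤ k}

/-- The standing assumptions of the problem, with `N = n + 1` variables `X 0, …, X n`
(`X j` is the `X_{j+1}` of the problem). -/
structure Setting (P : Measure Ω) (X : Fin (n+1) → Ω → ℤ) (m : Fin (n+1) → ℤ) : Prop where
  prob : IsProbabilityMeasure P
  meas : ∀ j, Measurable (X j)
  indep : iIndepFun X P
  /-- `m j` is in the support of `X j` … -/
  atom : ∀ j, 0 < P.real {ω | X j ω = m j}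
  /-- … and it is the least point of the support -/
  least : ∀ j, ∀ k < m j, P.real {ω | X j ω = k} = 0
  m_nonpos : ∀ j, m j ≤ 0
  D_neg : ∑ j, m j < 0
  integrable : Integrable (fun ω => ((∑ j, X j ω : ℤ) : ℝ)) P
  mean_neg : ∫ ω, ((∑ j, X j ω : ℤ) : ℝ) ∂P < 0

/-- `S_N = X_1 + ⋯ + X_N`. -/
def total (X : Fin (n+1) → Ω → ℤ) (ω : Ω) : ℤ := ∑ j, X j ω

/-- The weights `w_j`: `w_N(s) = s^{m_N}`, and for `j < N`,
`w_j(s) = s^{m_j} G_{X_N + X_1 + ⋯ + X_{j-1}}(s)`. -/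
noncomputable def weight (P : Measure Ω) (X : Fin (n+1) → Ω → ℤ) (m : Fin (n+1) → ℤ)
    (j : Fin (n+1)) (s : ℂ) : ℂ :=
  if j = Fin.last n then s ^ (m j)
  else s ^ (m j) * genFun P (fun ω => X (Fin.last n) ω + ∑ i with i < j, X i ω) s

/-- Columns of the matrix: pairs `(j, c)` with `0 ≤ c ≤ -m_j - 1`. -/
abbrev Col (m : Fin (n+1) → ℤ) : Type := Σ j : Fin (n+1), Fin (-m j).toNat

/-- `φ_{j,c}(s) = w_j(s) ∑_{r=0}^{-m_j-1-c} s^{r+c} F_{X_j}(m_j+r)`. -/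
noncomputable def phi (P : Measure Ω) (X : Fin (n+1) → Ω → ℤ) (m : Fin (n+1) → ℤ)
    (x : Col m) (s : ℂ) : ℂ :=
  weight P X m x.1 s * ∑ r ∈ Finset.range ((-m x.1).toNat - x.2),
    s ^ (r + (x.2 : ℕ)) * ((cdfZ P (X x.1) (m x.1 + r) : ℝ) : ℂ)

/-- `ν_{j,c} = ∑_{r=0}^{-m_j-1-c} F_{X_j}(m_j+r)`. -/
noncomputable def nu (P : Measure Ω) (X : Fin (n+1) → Ω → ℤ) (m : Fin (n+1) → ℤ)
    (x : Col m) : ℝ :=
  ∑ r ∈ Finset.range ((-m x.1).toNat - x.2), cdfZ P (X x.1) (m x.1 + r)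

/-- The distinct zeros of `G_{S_N} - 1` in `{|s| ≤ 1} ∖ {0, 1}`. -/
abbrev Root (P : Measure Ω) (X : Fin (n+1) → Ω → ℤ) : Type :=
  {α : ℂ // ‖α‖ ≤ 1 ∧ α ≠ 0 ∧ α ≠ 1 ∧ genFun P (total X) α - 1 = 0}

/-- Multiplicity of a zero: the analytic order of vanishing for `|α| < 1`, and `1` for
`|α| = 1` (where `G_{S_N}` is only defined on the closed disc, and its derivative at the zero
is nonzero). -/
noncomputable def mult (P : Measure Ω) (X : Fin (n+1) → Ω → ℤ) (α : ℂ) : ℕ :=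
  open Classical in
  if ‖α‖ < 1 then analyticOrderNatAt (fun s => genFun P (total X) s - 1) α else 1

/-- Rows of the matrix: pairs (zero `α`, `t < ` multiplicity of `α`), and one last row. -/
abbrev Row (P : Measure Ω) (X : Fin (n+1) → Ω → ℤ) : Type :=
  (Σ α : Root P X, Fin (mult P X α.1)) ⊕ Unit

/-- The matrix `A`. -/
noncomputable def A (P : Measure Ω) (X : Fin (n+1) → Ω → ℤ) (m : Fin (n+1) → ℤ) :
    Matrix (Row P X) (Col m) ℂ
  | Sum.inl ⟨α, t⟩, x => iteratedDeriv (t : ℕ) (phi P X m x) α.1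
  | Sum.inr _, x => (nu P X m x : ℂ)

end V11327.RootMatrix
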