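import Mathlib
import Pool.Agent.V11327.RMan
import Pool.Agent.V11327.RMdefs

open MeasureTheory ProbabilityTheory Finset Filter Topology

namespace V11327.RootMatrix

open V11327.RM

variable {Ω : Type*} [MeasurableSpace Ω] {n : ℕ} {P : Measure Ω}

lemma hasSum_real [IsProbabilityMeasure P] {Y : Ω → ℕ} (hY : Measurable Y) (f : ℕ → ℝ)
    (hf : Integrable (fun ω => f (Y ω)) P) :
    HasSum (fun k => P.real {ω | Y ω = k} * f k) (∫ ω, f (Y ω) ∂P) := by
  have h1 : Integrable f (P.map Y) := by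
    rw [integrable_map_measure (measurable_of_countable f).aestronglyMeasurable hY.aemeasurable]
    exact hf
  have h2 : ∫ ω, f (Y ω) ∂P = ∫ k, f k ∂(P.map Y) := by
    rw [integral_map hY.aemeasurable (measurable_of_countable f).aestronglyMeasurable]
  rw [h2]
  have h3 := h1
  rw [← Measure.sum_smul_dirac (P.map Y)] at h3
  have h4 := hasSum_integral_measure h3
  rw [Measure.sum_smul_dirac] at h4
  have h5 : (fun k => P.real {ω | Y ω = k} * f k) =
      fun i => ∫ (x : ℕ), f x ∂(Measure.map Y P) {i} • Measure.dirac i := by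
    ext k
    rw [integral_smul_measure, integral_dirac, Measure.map_apply hY (measurableSet_singleton k)]
    rfl
  rw [h5]
  exact h4

lemma law_of [IsProbabilityMeasure P] {Y : Ω → ℕ} (hY : Measurable Y) :
    Law (fun k => P.real {ω | Y ω = k}) := by
  constructor
  · intro k; exact measureReal_nonneg
  · have := hasSum_real (P := P) hY (fun _ => 1) (integrable_const 1)
    simpa using this

lemma real_toNat {Y : Ω → ℤ} {m : ℤ} (h : ∀ᵐ ω ∂P, m ≤ Y ω) (k : ℕ) :
    P.real {ω | (Y ω - m).toNat = k} = P.real {ω | Y ω = m + k} := by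
  apply measureReal_congr
  filter_upwards [h] with ω hω
  apply propext
  show (Y ω - m).toNat = k ↔ Y ω = m + k
  omega

lemma ae_le_of_least [IsFiniteMeasure P] {Y : Ω → ℤ} {m : ℤ}
    (h : ∀ k < m, P.real {ω | Y ω = k} = 0) : ∀ᵐ ω ∂P, m ≤ Y ω := by
  rw [ae_iff]
  have hsub : {ω | ¬ m ≤ Y ω} ⊆ ⋃ k : {k : ℤ // k < m}, {ω | Y ω = k} := by
    intro ω hω
    rw [Set.mem_iUnion]
    exact ⟨⟨Y ω, not_le.1 hω⟩, rfl⟩
  refine measure_mono_null hsub (measure_iUnion_null fun k => ?_)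
  have := h k k.2
  rwa [measureReal_def, ENNReal.toReal_eq_zero_iff, or_iff_left (measure_ne_top _ _)] at this

lemma law_of_int [IsProbabilityMeasure P] {Y : Ω → ℤ} (hY : Measurable Y) {m : ℤ}
    (h : ∀ᵐ ω ∂P, m ≤ Y ω) : Law (fun k : ℕ => P.real {ω | Y ω = m + k}) := by
  have h1 : Measurable (fun ω => (Y ω - m).toNat) :=
    (measurable_of_countable (fun z : ℤ => (z - m).toNat)).comp hY
  have h2 := law_of (P := P) h1
  simpa only [real_toNat h] using h2

lemma hasSum_int [IsProbabilityMeasure P] {Y : Ω → ℤ} (hY : Measurable Y) {m : ℤ}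
    (h : ∀ᵐ ω ∂P, m ≤ Y ω) (hint : Integrable (fun ω => (Y ω : ℝ)) P) :
    HasSum (fun k : ℕ => (k : ℝ) * P.real {ω | Y ω = m + k}) (∫ ω, (Y ω : ℝ) ∂P - m) := by
  have h1 : Measurable (fun ω => (Y ω - m).toNat) :=
    (measurable_of_countable (fun z : ℤ => (z - m).toNat)).comp hY
  have h3 : (fun ω => (((Y ω - m).toNat : ℕ) : ℝ)) =ᵐ[P] fun ω => (Y ω : ℝ) - m := by
    filter_upwards [h] with ω hω
    have : (((Y ω - m).toNat : ℕ) : ℤ) = Y ω - m := Int.toNat_of_nonneg (by omega)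
    have h4 : (((Y ω - m).toNat : ℕ) : ℝ) = (((Y ω - m).toNat : ℤ) : ℝ) := by norm_cast
    rw [h4, this]; push_cast; ring
  have hint2 : Integrable (fun ω => (((Y ω - m).toNat : ℕ) : ℝ)) P :=
    (hint.sub (integrable_const (m:ℝ))).congr h3.symm
  have h2 := hasSum_real (P := P) h1 (fun k => (k:ℝ)) hint2
  rw [integral_congr_ae h3, integral_sub hint (integrable_const _), integral_const] at h2
  simp only [real_toNat h] at h2
  simp only [probReal_univ, smul_eq_mul, one_mul] at h2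
  have h5 : (fun k : ℕ => (k : ℝ) * P.real {ω | Y ω = m + k}) =
      fun k : ℕ => P.real {ω | Y ω = m + k} * (k:ℝ) := by
    ext k; ring
  rw [h5]
  exact h2

lemma conv_law [IsProbabilityMeasure P] {Y Z : Ω → ℤ} (hY : Measurable Y) (hZ : Measurable Z)
    (hind : IndepFun Y Z P) {a b : ℤ} (ha : ∀ᵐ ω ∂P, a ≤ Y ω) (hb : ∀ᵐ ω ∂P, b ≤ Z ω) (k : ℕ) :
    P.real {ω | Y ω + Z ω = a + b + k} =
      conv (fun l => P.real {ω | Y ω = a + l}) (fun l => P.real {ω | Z ω = b + l}) k := by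
  unfold conv
  have h1 : P.real {ω | Y ω + Z ω = a + b + k} =
      P.real (⋃ x ∈ HasAntidiagonal.antidiagonal k, ({ω | Y ω = a + (x.1:ℕ)} ∩ {ω | Z ω = b + (x.2:ℕ)})) := by
    apply measureReal_congr
    filter_upwards [ha, hb] with ω hωa hωb
    apply propext
    show (Y ω + Z ω = a + b + k) ↔ ω ∈ (⋃ x ∈ HasAntidiagonal.antidiagonal k,
      ({ω | Y ω = a + (x.1:ℕ)} ∩ {ω | Z ω = b + (x.2:ℕ)}) : Set Ω)
    simp only [Set.mem_iUnion, Set.mem_inter_iff, Set.mem_ofPred_eq, exists_prop]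
    constructor
    · intro h
      refine ⟨((Y ω - a).toNat, (Z ω - b).toNat), ?_, ?_, ?_⟩
      · rw [HasAntidiagonal.mem_antidiagonal]; omega
      · simp only; omega
      · simp only; omega
    · rintro ⟨x, hx, h2, h3⟩
      rw [HasAntidiagonal.mem_antidiagonal] at hx
      omega
  have mY : ∀ c : ℤ, MeasurableSet {ω | Y ω = c} := fun c => hY (measurableSet_singleton c)
  have mZ : ∀ c : ℤ, MeasurableSet {ω | Z ω = c} := fun c => hZ (measurableSet_singleton c)
  rw [h1, measureReal_biUnion_finset]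
  · refine Finset.sum_congr rfl fun x _ => ?_
    have := hind.measure_inter_preimage_eq_mul {a + (x.1:ℤ)} {b + (x.2:ℤ)}
      (measurableSet_singleton _) (measurableSet_singleton _)
    show (P ({ω | Y ω = a + (x.1:ℕ)} ∩ {ω | Z ω = b + (x.2:ℕ)})).toReal =
      (P {ω | Y ω = a + (x.1:ℕ)}).toReal * (P {ω | Z ω = b + (x.2:ℕ)}).toReal
    rw [← ENNReal.toReal_mul]
    congr 1
  · intro x hx y hy hxy
    rw [Function.onFun, Set.disjoint_left]
    rintro ω ⟨h2, h3⟩ ⟨h4, h5⟩
    apply hxy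
    simp only [Set.mem_ofPred_eq] at h2 h3 h4 h5
    ext
    · omega
    · omega
  · intro x _
    exact (mY _).inter (mZ _)

lemma genFun_eq {Y : Ω → ℤ} {w : ℤ} [IsFiniteMeasure P] (h : ∀ᵐ ω ∂P, w ≤ Y ω) (s : ℂ) :
    genFun P Y s = ∑' l : ℕ, s ^ (w + l) * ((P.real {ω | Y ω = w + l} : ℝ) : ℂ) := by
  unfold genFun
  have hinj : Function.Injective (fun l : ℕ => w + (l:ℤ)) := by
    intro a b hab; simp only at hab; omega
  rw [← hinj.tsum_eq]
  intro k hk
  by_contra hcon
  apply hk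
  have hk2 : k < w := by
    by_contra h3
    push Not at h3
    exact hcon ⟨(k - w).toNat, by simp only; omega⟩
  have h4 : P.real {ω | Y ω = k} = 0 := by
    rw [measureReal_def, ENNReal.toReal_eq_zero_iff]
    left
    rw [ae_iff] at h
    refine measure_mono_null ?_ h
    intro ω hω
    simp only [Set.mem_ofPred_eq] at hω ⊢
    omega
  simp only [h4]; simp

lemma genFun_T {Y : Ω → ℤ} {w : ℤ} [IsFiniteMeasure P] (h : ∀ᵐ ω ∂P, w ≤ Y ω) {s : ℂ}
    (hs : s ≠ 0) :
    genFun P Y s = s ^ w * T (fun l : ℕ => P.real {ω | Y ω = w + l}) (e s 0) 0 := by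
  rw [genFun_eq h]
  unfold T
  rw [← tsum_mul_left]
  congr 1; ext l
  rw [zpow_add₀ hs, zpow_natCast]
  simp [e]; ring

lemma T_e_zero (p : ℕ → ℝ) (s : ℂ) (k : ℕ) : T p (e s 0) k = s ^ k * T p (e s 0) 0 := by
  unfold T
  rw [← tsum_mul_left]
  congr 1; ext l
  simp [e, pow_add]; ring

lemma cdf_eq [IsProbabilityMeasure P] {Y : Ω → ℤ} (hY : Measurable Y) {m : ℤ}
    (h : ∀ᵐ ω ∂P, m ≤ Y ω) (r : ℕ) :
    cdfZ P Y (m + r) = ∑ i ∈ range (r+1), P.real {ω | Y ω = m + i} := by
  unfold cdfZ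
  have h1 : P.real {ω | Y ω ≤ m + r} = P.real (⋃ i ∈ range (r+1), {ω | Y ω = m + (i:ℕ)}) := by
    apply measureReal_congr
    filter_upwards [h] with ω hω
    apply propext
    show (Y ω ≤ m + r) ↔ ω ∈ (⋃ i ∈ range (r+1), {ω | Y ω = m + (i:ℕ)} : Set Ω)
    simp only [Set.mem_iUnion, Set.mem_ofPred_eq, exists_prop, Finset.mem_range]
    constructor
    · intro h2
      exact ⟨(Y ω - m).toNat, by omega, by omega⟩
    · rintro ⟨i, h2, h3⟩
      omega
  rw [h1, measureReal_biUnion_finset]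
  · intro x hx y hy hxy
    rw [Function.onFun, Set.disjoint_left]
    intro ω h2 h3
    apply hxy
    simp only [Set.mem_ofPred_eq] at h2 h3
    omega
  · intro x _
    exact hY (measurableSet_singleton _)

/-! reordering -/

def sig (n k : ℕ) : Fin (n+1) := if k = 0 then Fin.last n else ⟨min (k-1) n, by omega⟩

lemma sig_inj {i j : ℕ} (hi : i ≤ n) (hj : j ≤ n) (h : sig n i = sig n j) : i = j := by
  unfold sig at h
  split_ifs at h with h1 h2 h2
  · omega
  · have := congrArg Fin.val h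
    simp only [Fin.val_last] at this; omega
  · have := congrArg Fin.val h
    simp only [Fin.val_last] at this; omega
  · have := congrArg Fin.val h
    simp only at this; omega

noncomputable def rho (n : ℕ) : Fin (n+1) ≃ Fin (n+1) :=
  Equiv.ofBijective (fun i => sig n i) (Finite.injective_iff_bijective.1 (fun i j h =>
    Fin.ext (sig_inj (Nat.lt_succ_iff.1 i.2) (Nat.lt_succ_iff.1 j.2) h)))

lemma rho_apply (i : Fin (n+1)) : rho n i = sig n i := rfl

lemma sum_sig {E : Type*} [AddCommMonoid E] (f : Fin (n+1) → E) :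
    ∑ i ∈ range (n+1), f (sig n i) = ∑ j, f j := by
  rw [← Fin.sum_univ_eq_sum_range (fun i => f (sig n i))]
  exact (rho n).sum_comp f

/-- cyclic partial sums -/
def W (X : Fin (n+1) → Ω → ℤ) (k : ℕ) (ω : Ω) : ℤ := ∑ i ∈ range k, X (sig n i) ω

omit [MeasurableSpace Ω] in
lemma W_total (X : Fin (n+1) → Ω → ℤ) : W X (n+1) = total X := by
  ext ω
  exact sum_sig (fun j => X j ω)

end V11327.RootMatrix
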