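import Mathlib
import Pool.Agent.V11327.RMprob

open MeasureTheory ProbabilityTheory Finset Filter Topology

namespace V11327.RootMatrix

open V11327.RM

variable {Ω : Type*} [MeasurableSpace Ω] {n : ℕ} {P : Measure Ω}
  {X : Fin (n+1) → Ω → ℤ} {m : Fin (n+1) → ℤ}

lemma Setting.ae_ge (h : Setting P X m) (j : Fin (n+1)) : ∀ᵐ ω ∂P, m j ≤ X j ω := by
  have := h.prob
  exact ae_le_of_least (h.least j)

lemma Setting.ae_ge_all (h : Setting P X m) : ∀ᵐ ω ∂P, ∀ j, m j ≤ X j ω := by
  rw [ae_all_iff]; exact h.ae_ge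

lemma Setting.int_X (h : Setting P X m) (j : Fin (n+1)) :
    Integrable (fun ω => (X j ω : ℝ)) P := by
  have := h.prob
  have h1 : Integrable (fun ω => ((X j ω : ℤ) : ℝ) - m j) P := by
    refine Integrable.mono' (h.integrable.sub (integrable_const ((∑ j, m j : ℤ) : ℝ))) ?_ ?_
    · exact ((measurable_of_countable (fun z : ℤ => (z:ℝ) - m j)).comp (h.meas j)).aestronglyMeasurable
    · filter_upwards [h.ae_ge_all] with ω hω
      have h2 : (0:ℝ) ≤ (X j ω : ℝ) - m j := by
        have := hω j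
        have : (m j : ℝ) ≤ X j ω := by exact_mod_cast this
        linarith
      rw [Real.norm_of_nonneg h2]
      have h3 : X j ω - m j ≤ ∑ j, (X j ω - m j) :=
        Finset.single_le_sum (f := fun j => X j ω - m j) (fun i _ => sub_nonneg.2 (hω i))
          (Finset.mem_univ j)
      rw [Finset.sum_sub_distrib] at h3
      simp only [Pi.sub_apply]
      exact_mod_cast h3
  have h2 := h1.add (integrable_const (m j : ℝ))
  refine h2.congr (Eventually.of_forall fun ω => ?_)
  simp

lemma Setting.W_ge (h : Setting P X m) (k : ℕ) :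
    ∀ᵐ ω ∂P, ∑ i ∈ range k, m (sig n i) ≤ W X k ω := by
  filter_upwards [h.ae_ge_all] with ω hω
  exact Finset.sum_le_sum fun i _ => hω _

lemma Setting.meas_W (h : Setting P X m) (k : ℕ) : Measurable (W X k) :=
  Finset.measurable_sum _ fun i _ => h.meas _

/-- the sequence-level data attached to the setting -/
noncomputable def Setting.dat (h : Setting P X m) : Dat where
  N := n + 1
  mu := fun k => (-m (sig n k)).toNat
  a := fun k l => P.real {ω | X (sig n k) ω = m (sig n k) + l}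
  law := fun k => by
    have := h.prob
    exact law_of_int (h.meas _) (h.ae_ge _)
  mom := fun k => by
    have := h.prob
    exact (hasSum_int (h.meas _) (h.ae_ge _) (h.int_X _)).summable
  pos0 := fun k => by simpa using h.atom (sig n k)
  Mpos := by
    have h1 := h.D_neg
    have h2 := sum_sig (fun j => (-m j).toNat) (n := n)
    rw [h2]
    have h3 : ((∑ j, (-m j).toNat : ℕ) : ℤ) = ∑ j, (-m j) := by
      push_cast
      refine Finset.sum_congr rfl fun j _ => ?_
      have := h.m_nonpos j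
      omega
    rw [Finset.sum_neg_distrib] at h3
    omega
  drift := by
    have := h.prob
    have h1 : ∀ k : ℕ, (∑' l : ℕ, (l : ℝ) * P.real {ω | X (sig n k) ω = m (sig n k) + l}) -
        (((-m (sig n k)).toNat : ℕ) : ℝ) = ∫ ω, (X (sig n k) ω : ℝ) ∂P := by
      intro k
      rw [(hasSum_int (h.meas _) (h.ae_ge _) (h.int_X _)).tsum_eq]
      have h2 := h.m_nonpos (sig n k)
      have h3 : (((-m (sig n k)).toNat : ℕ) : ℤ) = - m (sig n k) := Int.toNat_of_nonneg (by omega)
      have h4 : (((-m (sig n k)).toNat : ℕ) : ℝ) = - (m (sig n k) : ℝ) := by exact_mod_cast h3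
      rw [h4]; ring
    simp only [h1]
    rw [sum_sig (fun j => ∫ ω, (X j ω : ℝ) ∂P), ← integral_finsetSum _ (fun j _ => h.int_X j)]
    have := h.mean_neg
    push_cast at this
    exact this

lemma Setting.mu_cast (h : Setting P X m) (k : ℕ) : ((h.dat.mu k : ℕ) : ℤ) = - m (sig n k) :=
  Int.toNat_of_nonneg (by have := h.m_nonpos (sig n k); omega)

lemma Setting.Ms_cast (h : Setting P X m) (k : ℕ) :
    ((h.dat.Ms k : ℕ) : ℤ) = - ∑ i ∈ range k, m (sig n i) := by
  unfold Dat.Ms
  push_cast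
  rw [← Finset.sum_neg_distrib]
  exact Finset.sum_congr rfl fun i _ => h.mu_cast i

lemma Setting.P_eq (h : Setting P X m) (k : ℕ) (hk : k ≤ n + 1) (l : ℕ) :
    h.dat.P k l = P.real {ω | W X k ω = ∑ i ∈ range k, m (sig n i) + l} := by
  have := h.prob
  induction k generalizing l with
  | zero =>
    simp only [Dat.P, W, Finset.range_zero, Finset.sum_empty]
    split_ifs with h1
    · subst h1; simp
    · have : {ω : Ω | (0:ℤ) = 0 + (l:ℤ)} = ∅ := by
        ext ω; simp; omega
      rw [this]; simp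
  | succ k ih =>
    have hind : IndepFun (W X k) (X (sig n k)) P := by
      have h1 := h.indep.indepFun_finsetSum_of_notMem h.meas (s := (range k).image (sig n))
        (i := sig n k) (by
          rw [Finset.mem_image]
          rintro ⟨i, hi, h2⟩
          rw [Finset.mem_range] at hi
          have := sig_inj (by omega) (by omega) h2
          omega)
      rw [Finset.sum_image (by
        intro i hi j hj hij
        rw [Finset.mem_coe, Finset.mem_range] at hi hj
        exact sig_inj (by omega) (by omega) hij)] at h1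
      convert h1 using 1
      ext ω; simp [W]
    have h2 := conv_law (h.meas_W k) (h.meas (sig n k)) hind (h.W_ge k) (h.ae_ge _) l
    simp only [Dat.P]
    have h3 : ∀ ω, W X (k+1) ω = W X k ω + X (sig n k) ω := fun ω => by
      simp [W, Finset.sum_range_succ]
    simp only [h3, Finset.sum_range_succ]
    rw [h2]
    unfold conv
    refine Finset.sum_congr rfl fun x _ => ?_
    rw [ih (by omega)]
    rfl

lemma Setting.genFun_W (h : Setting P X m) (k : ℕ) (hk : k ≤ n + 1) {s : ℂ} (hs : s ≠ 0) :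
    genFun P (W X k) s = s ^ (-(h.dat.Ms k : ℤ)) * T (h.dat.P k) (e s 0) 0 := by
  have := h.prob
  rw [genFun_T (h.W_ge k) hs, h.Ms_cast, neg_neg]
  congr 1
  unfold T
  congr 1; ext l
  rw [h.P_eq k hk l]

lemma Setting.genFun_total (h : Setting P X m) {s : ℂ} (hs : s ≠ 0) :
    genFun P (total X) s - 1 = s ^ (-(h.dat.M : ℤ)) * h.dat.H s := by
  rw [← W_total, h.genFun_W (n+1) le_rfl hs]
  have h1 : h.dat.Ms (n+1) = h.dat.M := rfl
  rw [h1]
  unfold Dat.H
  rw [mul_sub, ← zpow_natCast s h.dat.M, ← zpow_add₀ hs, neg_add_cancel, zpow_zero]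
  rfl

lemma sum_filter_lt {E : Type*} [AddCommMonoid E] (f : Fin (n+1) → E) (k : ℕ) (hk : k ≤ n)
    (hk0 : k ≠ 0) :
    ∑ i with i < sig n k, f i = ∑ i ∈ range (k-1), f (sig n (i+1)) := by
  symm
  refine Finset.sum_bij (fun i _ => sig n (i+1)) ?_ ?_ ?_ ?_
  · intro i hi
    rw [Finset.mem_range] at hi
    simp only [Finset.mem_filter, Finset.mem_univ, true_and]
    rw [Fin.lt_def]
    simp only [sig, Nat.succ_ne_zero, if_false, hk0]
    omega
  · intro i hi j hj hij
    rw [Finset.mem_range] at hi hj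
    have := sig_inj (by omega) (by omega) hij
    omega
  · intro j hj
    simp only [Finset.mem_filter, Finset.mem_univ, true_and, Fin.lt_def] at hj
    simp only [sig, hk0, if_false] at hj
    refine ⟨j, by rw [Finset.mem_range]; omega, ?_⟩
    ext
    simp only [sig, Nat.succ_ne_zero, if_false]
    omega
  · intro i _; rfl

lemma Setting.weight_eq (h : Setting P X m) (k : ℕ) (hk : k ≤ n) {s : ℂ} (hs : s ≠ 0) :
    weight P X m (sig n k) s = s ^ (m (sig n k)) * genFun P (W X k) s := by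
  unfold weight
  by_cases hk0 : k = 0
  · subst hk0
    rw [if_pos (by simp [sig]), h.genFun_W 0 (by omega) hs, Dat.T_zero_P]
    simp [Dat.Ms_zero, e]
  · rw [if_neg (by
      intro h1
      have := congrArg Fin.val h1
      simp only [sig, hk0, if_false, Fin.val_last] at this
      omega)]
    congr 2
    ext ω
    have h1 := sum_filter_lt (fun i => X i ω) k hk hk0
    rw [h1]
    unfold W
    obtain ⟨k', rfl⟩ := Nat.exists_eq_succ_of_ne_zero hk0
    rw [Nat.succ_sub_one, Finset.sum_range_succ']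
    rw [add_comm]
    simp [sig]

/-- column reindexing -/
noncomputable def Setting.colEquiv (h : Setting P X m) : h.dat.C ≃ Col m :=
  Equiv.sigmaCongrLeft (β := fun j : Fin (n+1) => Fin (-m j).toNat) (rho n)

lemma Setting.pair_eq (h : Setting P X m) (x : h.dat.C) {s : ℂ} (hs : s ≠ 0) :
    h.dat.pair (e s 0) x = s ^ h.dat.M * phi P X m (h.colEquiv x) s := by
  have := h.prob
  obtain ⟨⟨k, hk⟩, ⟨c, hc⟩⟩ := x
  have hk' : k < n + 1 := hk
  have h0 : h.colEquiv ⟨⟨k, hk⟩, ⟨c, hc⟩⟩ = (⟨sig n k, ⟨c, hc⟩⟩ : Col m) := rfl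
  rw [h0]
  unfold phi Dat.pair
  simp only
  rw [h.weight_eq k (by omega) hs, h.genFun_W k (by omega) hs, Finset.mul_sum, Finset.mul_sum]
  refine Finset.sum_congr rfl fun r _ => ?_
  have hF : h.dat.F k r = cdfZ P (X (sig n k)) (m (sig n k) + r) := by
    rw [cdf_eq (h.meas _) (h.ae_ge _) r]; rfl
  rw [T_e_zero, hF]
  have h1 : h.dat.Ms (k+1) ≤ h.dat.M := h.dat.Ms_mono hk
  have h2 := h.dat.Ms_succ k
  have h3 := h.mu_cast k
  have h4 : s ^ (h.dat.M - h.dat.Ms (k+1) + (r + c)) =
      s ^ h.dat.M * (s ^ (m (sig n k)) * s ^ (-(h.dat.Ms k : ℤ))) * s ^ (r + c) := by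
    rw [← zpow_natCast, ← zpow_natCast, ← zpow_natCast, ← zpow_add₀ hs, ← zpow_add₀ hs,
      ← zpow_add₀ hs]
    congr 1
    omega
  rw [h4]; ring

/-! analytic facts -/

lemma eventually_punctured {α : ℂ} (h0 : α ≠ 0) (h1 : ‖α‖ < 1) :
    ∀ᶠ s in 𝓝 α, s ≠ 0 ∧ ‖s‖ < 1 := by
  have h2 : ∀ᶠ s in 𝓝 α, s ≠ 0 := isOpen_ne.mem_nhds h0
  have h3 : ∀ᶠ s in 𝓝 α, ‖s‖ < 1 := (isOpen_lt continuous_norm continuous_const).mem_nhds h1
  exact h2.and h3

lemma analyticAt_pair (D : Dat) (x : D.C) {α : ℂ} (hα : ‖α‖ < 1) :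
    AnalyticAt ℂ (fun s => D.pair (e s 0) x) α := by
  unfold Dat.pair
  exact Finset.analyticAt_fun_sum _ fun r _ =>
    analyticAt_const.mul (analyticAt_T (D.lawP _) _ hα)

lemma Setting.phi_analytic (h : Setting P X m) (y : Col m) {α : ℂ} (h0 : α ≠ 0) (h1 : ‖α‖ < 1) :
    AnalyticAt ℂ (phi P X m y) α := by
  have h2 : (fun s => s ^ (-(h.dat.M : ℤ)) * h.dat.pair (e s 0) (h.colEquiv.symm y)) =ᶠ[𝓝 α]
      phi P X m y := by
    filter_upwards [eventually_punctured h0 h1] with s hs
    rw [h.pair_eq _ hs.1, Equiv.apply_symm_apply, ← mul_assoc, ← zpow_natCast, ← zpow_add₀ hs.1,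
      neg_add_cancel, zpow_zero, one_mul]
  exact ((analyticAt_id.zpow h0).mul (analyticAt_pair h.dat _ h1)).congr h2

lemma Setting.order_eq (h : Setting P X m) {α : ℂ} (h0 : α ≠ 0) (h1 : ‖α‖ < 1) :
    analyticOrderAt (fun s => genFun P (total X) s - 1) α = analyticOrderAt h.dat.H α := by
  have h2 : (fun s => genFun P (total X) s - 1) =ᶠ[𝓝 α]
      (fun s => s ^ (-(h.dat.M : ℤ))) * h.dat.H := by
    filter_upwards [eventually_punctured h0 h1] with s hs
    exact h.genFun_total hs.1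
  have h3 : AnalyticAt ℂ (fun s : ℂ => s ^ (-(h.dat.M : ℤ))) α := analyticAt_id.zpow h0
  rw [analyticOrderAt_congr h2, analyticOrderAt_mul h3 (h.dat.analyticAt_H h1),
    h3.analyticOrderAt_eq_zero.2 (zpow_ne_zero _ h0), zero_add]

lemma Setting.H_zero_iff (h : Setting P X m) {α : ℂ} (h0 : α ≠ 0) :
    h.dat.H α = 0 ↔ genFun P (total X) α - 1 = 0 := by
  rw [h.genFun_total h0, mul_eq_zero, or_iff_right (zpow_ne_zero _ h0)]

lemma Setting.root_iff (h : Setting P X m) (α : ℂ) :
    (‖α‖ ≤ 1 ∧ α ≠ 0 ∧ α ≠ 1 ∧ genFun P (total X) α - 1 = 0) ↔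
    (‖α‖ ≤ 1 ∧ α ≠ 1 ∧ h.dat.H α = 0) := by
  constructor
  · rintro ⟨h1, h2, h3, h4⟩
    exact ⟨h1, h3, (h.H_zero_iff h2).2 h4⟩
  · rintro ⟨h1, h3, h4⟩
    have h2 : α ≠ 0 := by
      rintro rfl
      exact h.dat.H_zero h4
    exact ⟨h1, h2, h3, (h.H_zero_iff h2).1 h4⟩

lemma Setting.mult_eq (h : Setting P X m) (α : ℂ) (h0 : α ≠ 0) :
    mult P X α = h.dat.mult α := by
  unfold mult Dat.mult
  split_ifs with h1
  · unfold analyticOrderNatAt
    rw [h.order_eq h0 h1]
  · rfl

noncomputable def Setting.rowEquiv (h : Setting P X m) : Row P X ≃ h.dat.Row :=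
  Equiv.sumCongr
    (Equiv.sigmaCongr (Equiv.subtypeEquivRight h.root_iff)
      (fun α => finCongr (h.mult_eq α.1 α.2.2.1)))
    (Equiv.refl _)

lemma Setting.nonempty_equiv (h : Setting P X m) : Nonempty (Row P X ≃ Col m) := by
  obtain ⟨E⟩ := h.dat.nonempty_equiv
  exact ⟨(h.rowEquiv.trans E).trans h.colEquiv⟩

lemma Setting.M_eq (h : Setting P X m) : h.dat.M = (-∑ j, m j).toNat := by
  have h1 := h.Ms_cast (n+1)
  have h2 : h.dat.M = h.dat.Ms (n+1) := rfl
  rw [sum_sig (fun j => m j)] at h1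
  omega

lemma Setting.phi_one (h : Setting P X m) (y : Col m) : phi P X m y 1 = (nu P X m y : ℂ) := by
  have hw : weight P X m y.1 1 = 1 := by
    obtain ⟨k, hk⟩ := (rho n).surjective y.1
    rw [← hk, rho_apply, h.weight_eq k (by omega) one_ne_zero, h.genFun_W k (by omega) one_ne_zero,
      one_zpow, one_zpow, one_mul, one_mul]
    unfold T
    have h1 : (fun l => (h.dat.P k l : ℂ) * e 1 0 (0 + l)) = fun l => ((h.dat.P k l : ℝ) : ℂ) := by
      ext l; simp [e]
    rw [h1, ← Complex.ofReal_tsum, (h.dat.lawP _).sum.tsum_eq]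
    simp
  unfold phi nu
  rw [hw, one_mul]
  push_cast
  refine Finset.sum_congr rfl fun r _ => ?_
  simp

lemma Setting.sum_pair (h : Setting P X m) (v : Col m → ℂ) {s : ℂ} (hs : s ≠ 0) :
    ∑ x, v (h.colEquiv x) * h.dat.pair (e s 0) x = s ^ h.dat.M * ∑ y, v y * phi P X m y s := by
  rw [Finset.mul_sum, ← Equiv.sum_comp h.colEquiv]
  refine Finset.sum_congr rfl fun x _ => ?_
  rw [h.pair_eq x hs]; ring

theorem Setting.kernel (h : Setting P X m) (v : Col m → ℂ)
    (hv : ∀ r : Row P X, ∑ x, A P X m r x * v x = 0) : v = 0 := by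
  have key := h.dat.core (fun x => v (h.colEquiv x)) ?_ ?_ ?_
  · ext y
    have := congrFun key (h.colEquiv.symm y)
    simpa using this
  · rw [h.sum_pair v one_ne_zero, one_pow, one_mul]
    have h1 := hv (Sum.inr ())
    rw [← h1]
    refine Finset.sum_congr rfl fun y _ => ?_
    rw [h.phi_one]
    simp only [A]; ring
  · intro α hα hα1 hH
    have h0 : α ≠ 0 := by
      rintro rfl; simp at hα
    rw [h.sum_pair v h0]
    have hroot : (‖α‖ ≤ 1 ∧ α ≠ 0 ∧ α ≠ 1 ∧ genFun P (total X) α - 1 = 0) :=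
      ⟨hα.le, h0, hα1, (h.H_zero_iff h0).1 hH⟩
    have hm : mult P X α = 1 := by
      unfold mult
      rw [if_neg (by rw [hα]; exact lt_irrefl _)]
    have h1 := hv (Sum.inl ⟨⟨α, hroot⟩, ⟨0, by simp only [hm]; norm_num⟩⟩)
    have h2 : ∑ y, v y * phi P X m y α = 0 := by
      rw [← h1]
      refine Finset.sum_congr rfl fun y _ => ?_
      simp only [A, iteratedDeriv_zero]; ring
    rw [h2, mul_zero]
  · intro α hα hH t ht
    have h0 : α ≠ 0 := by
      rintro rfl; exact h.dat.H_zero hH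
    have hα1 : α ≠ 1 := by
      rintro rfl; simp at hα
    have hroot : (‖α‖ ≤ 1 ∧ α ≠ 0 ∧ α ≠ 1 ∧ genFun P (total X) α - 1 = 0) :=
      ⟨hα.le, h0, hα1, (h.H_zero_iff h0).1 hH⟩
    have hm : mult P X α = analyticOrderNatAt h.dat.H α := by
      rw [h.mult_eq α h0]
      unfold Dat.mult
      rw [if_pos hα]
    set f : ℂ → ℂ := fun s => ∑ y, v y * phi P X m y s with hf
    have hfa : AnalyticAt ℂ f α := Finset.analyticAt_fun_sum _ fun y _ =>
      analyticAt_const.mul (h.phi_analytic y h0 hα)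
    have hder : ∀ i < analyticOrderNatAt h.dat.H α, iteratedDeriv i f α = 0 := by
      intro i hi
      have h1 := hv (Sum.inl ⟨⟨α, hroot⟩, ⟨i, by simp only [hm]; exact hi⟩⟩)
      rw [hf, iteratedDeriv_fun_sum]
      · rw [← h1]
        refine Finset.sum_congr rfl fun y _ => ?_
        rw [iteratedDeriv_const_mul_field]
        simp only [A]; ring
      · intro y _
        exact contDiffAt_const.mul (h.phi_analytic y h0 hα).contDiffAt
    have hord : ((analyticOrderNatAt h.dat.H α : ℕ) : ℕ∞) ≤ analyticOrderAt f α :=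
      (natCast_le_analyticOrderAt_iff_iteratedDeriv_eq_zero hfa).2 hder
    have heq : (fun s => ∑ x, v (h.colEquiv x) * h.dat.pair (e s 0) x) =ᶠ[𝓝 α]
        (fun s => s ^ h.dat.M) * f := by
      filter_upwards [eventually_punctured h0 hα] with s hs
      exact h.sum_pair v hs.1
    have hpow : AnalyticAt ℂ (fun s : ℂ => s ^ h.dat.M) α := analyticAt_id.pow _
    have hord2 : ((analyticOrderNatAt h.dat.H α : ℕ) : ℕ∞) ≤
        analyticOrderAt (fun s => ∑ x, v (h.colEquiv x) * h.dat.pair (e s 0) x) α := by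
      rw [analyticOrderAt_congr heq, analyticOrderAt_mul hpow hfa]
      exact hord.trans le_add_self
    have hFa : AnalyticAt ℂ (fun s => ∑ x, v (h.colEquiv x) * h.dat.pair (e s 0) x) α :=
      Finset.analyticAt_fun_sum _ fun x _ => analyticAt_const.mul (analyticAt_pair h.dat x hα)
    exact (natCast_le_analyticOrderAt_iff_iteratedDeriv_eq_zero hFa).1 hord2 t ht

theorem Setting.det_ne_zero (h : Setting P X m) (E : Row P X ≃ Col m) :
    ((A P X m).reindex E (Equiv.refl _)).det ≠ 0 := by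
  classical
  intro hdet
  obtain ⟨v, hv0, hv⟩ := Matrix.exists_mulVec_eq_zero_iff.2 hdet
  apply hv0
  apply h.kernel v
  intro r
  have h1 := congrFun hv (E r)
  simp only [Matrix.mulVec, dotProduct, Matrix.reindex_apply, Matrix.submatrix_apply,
    Equiv.symm_apply_apply, Equiv.refl_symm, Equiv.refl_apply, Pi.zero_apply] at h1
  exact h1

end V11327.RootMatrix
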