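import Mathlib
import Pool.Agent.V11327.RMfinal

open MeasureTheory ProbabilityTheory Finset Filter Topology

namespace V11327.RootMatrix

open V11327.RM

lemma norm_slope_pow_le {s α : ℂ} (hs : ‖s‖ ≤ 1) (hα : ‖α‖ ≤ 1) (hne : s ≠ α) (l : ℕ) :
    ‖(s - α)⁻¹ * (s ^ l - α ^ l)‖ ≤ l := by
  rw [← Commute.geom_sum₂_mul (Commute.all s α), mul_comm (s - α)⁻¹, mul_assoc,
    mul_inv_cancel₀ (sub_ne_zero.2 hne), mul_one]
  refine (norm_sum_le _ _).trans ?_
  refine (Finset.sum_le_sum (g := fun _ => (1:ℝ)) fun i _ => ?_).trans ?_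
  · rw [norm_mul, norm_pow, norm_pow]
    exact mul_le_one₀ (pow_le_one₀ (norm_nonneg _) hs) (by positivity)
      (pow_le_one₀ (norm_nonneg _) hα)
  · simp

lemma hasDerivWithinAt_series {p : ℕ → ℝ} (hp : Law p)
    (hmom : Summable (fun k : ℕ => (k:ℝ) * p k)) {α : ℂ} (hα : ‖α‖ ≤ 1) :
    HasDerivWithinAt (fun s : ℂ => ∑' l, (p l : ℂ) * s ^ l) (∑' l : ℕ, (p l : ℂ) * (l * α ^ (l-1)))
      (Metric.closedBall 0 1) α := by
  rw [hasDerivWithinAt_iff_tendsto_slope]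
  have hsum : ∀ s : ℂ, ‖s‖ ≤ 1 → Summable (fun l : ℕ => (p l : ℂ) * s ^ l) := by
    intro s hs
    refine Summable.of_norm_bounded hp.sum.summable fun l => ?_
    rw [norm_mul, Complex.norm_real, Real.norm_of_nonneg (hp.nn l), norm_pow]
    exact mul_le_of_le_one_right (hp.nn l) (pow_le_one₀ (norm_nonneg _) hs)
  have heq : ∀ᶠ s in 𝓝[Metric.closedBall (0:ℂ) 1 \ {α}] α,
      (∑' l, (p l : ℂ) * ((s - α)⁻¹ * (s ^ l - α ^ l))) =
      slope (fun s : ℂ => ∑' l, (p l : ℂ) * s ^ l) α s := by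
    filter_upwards [self_mem_nhdsWithin] with s hs
    have hs1 : ‖s‖ ≤ 1 := by
      have := hs.1
      rwa [Metric.mem_closedBall, dist_zero_right] at this
    rw [slope_def_field, div_eq_inv_mul]
    rw [← (hsum s hs1).tsum_sub (hsum α hα), ← tsum_mul_left]
    congr 1; ext l; ring
  refine Tendsto.congr' heq ?_
  refine tendsto_tsum_of_dominated_convergence hmom (fun l => ?_) ?_
  · refine Tendsto.const_mul _ ?_
    have h1 := (hasDerivAt_pow l α).hasDerivWithinAt (s := Metric.closedBall (0:ℂ) 1)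
    rw [hasDerivWithinAt_iff_tendsto_slope] at h1
    refine h1.congr' ?_
    filter_upwards [self_mem_nhdsWithin] with s hs
    rw [slope_def_field, div_eq_inv_mul]
  · filter_upwards [self_mem_nhdsWithin] with s hs l
    have hs1 : ‖s‖ ≤ 1 := by
      have := hs.1
      rwa [Metric.mem_closedBall, dist_zero_right] at this
    rw [norm_mul, Complex.norm_real, Real.norm_of_nonneg (hp.nn l), mul_comm]
    exact mul_le_mul_of_nonneg_right (norm_slope_pow_le hs1 hα hs.2 l) (hp.nn l)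

variable {Ω : Type*} [MeasurableSpace Ω] {n : ℕ} {P : Measure Ω}
  {X : Fin (n+1) → Ω → ℤ} {m : Fin (n+1) → ℤ}

/-- first moment of the law of the total -/
lemma Setting.hasSum_total (h : Setting P X m) :
    HasSum (fun k : ℕ => (k : ℝ) * h.dat.P (n+1) k)
      (∫ ω, ((∑ j, X j ω : ℤ) : ℝ) ∂P + h.dat.M) := by
  have := h.prob
  have hint : Integrable (fun ω => (W X (n+1) ω : ℝ)) P := by
    rw [W_total]; exact h.integrable
  have h1 := hasSum_int (h.meas_W (n+1)) (h.W_ge (n+1)) hint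
  have h2 : (fun k : ℕ => (k : ℝ) * h.dat.P (n+1) k) = fun k : ℕ => (k : ℝ) *
      P.real {ω | W X (n+1) ω = ∑ i ∈ range (n+1), m (sig n i) + k} := by
    ext k; rw [h.P_eq (n+1) le_rfl]
  rw [h2]
  convert h1 using 1
  have h3 := h.Ms_cast (n+1)
  have h4 : h.dat.M = h.dat.Ms (n+1) := rfl
  have h5 : (h.dat.M : ℝ) = - ((∑ i ∈ range (n+1), m (sig n i) : ℤ) : ℝ) := by
    rw [h4]; exact_mod_cast h3
  rw [h5, W_total, sub_eq_add_neg]
  rfl

lemma Setting.unit_of_root (h : Setting P X m) {α : ℂ} (hα : ‖α‖ = 1)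
    (hroot : genFun P (total X) α - 1 = 0) (l : ℕ) (hl : h.dat.P (n+1) l ≠ 0) :
    α ^ l = α ^ h.dat.M := by
  have h0 : α ≠ 0 := by rintro rfl; simp at hα
  have hH := (h.H_zero_iff h0).2 hroot
  unfold Dat.H T at hH
  have hlaw := h.dat.lawP (n+1)
  have h1 : HasSum (fun k => (h.dat.P (n+1) k : ℂ) * (α ^ k * (α ^ h.dat.M)⁻¹)) 1 := by
    have h2 : Summable (fun k => (h.dat.P (n+1) k : ℂ) * e α 0 (0 + k)) :=
      hlaw.summ (e_bdd_zero hα.le) 0
    have h3 := (h2.hasSum).mul_right (α ^ h.dat.M)⁻¹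
    rw [sub_eq_zero] at hH
    have h4 : (∑' k, (h.dat.P (n+1) k : ℂ) * e α 0 (0 + k)) = α ^ h.dat.M := hH
    rw [h4, mul_inv_cancel₀ (pow_ne_zero _ h0)] at h3
    have h5 : (fun k => (h.dat.P (n+1) k : ℂ) * (α ^ k * (α ^ h.dat.M)⁻¹)) =
        fun i => (h.dat.P (n+1) i : ℂ) * e α 0 (0 + i) * (α ^ h.dat.M)⁻¹ := by
      ext k; simp [e]; ring
    rw [h5]
    exact h3
  have h2 : HasSum (fun k => h.dat.P (n+1) k * (1 - (α ^ k * (α ^ h.dat.M)⁻¹).re)) (1 - 1) := by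
    have h3 := Complex.hasSum_re h1
    have h4 := hlaw.sum.sub h3
    have h5 : (fun k => h.dat.P (n+1) k * (1 - (α ^ k * (α ^ h.dat.M)⁻¹).re)) =
        fun b => h.dat.P (n+1) b - ((h.dat.P (n+1) b : ℂ) * (α ^ b * (α ^ h.dat.M)⁻¹)).re := by
      ext k; rw [Complex.re_ofReal_mul]; ring
    rw [h5]
    exact h4
  rw [sub_self] at h2
  have hn : ∀ k, ‖α ^ k * (α ^ h.dat.M)⁻¹‖ = 1 := by
    intro k; simp [hα]
  have hnn : ∀ k, 0 ≤ h.dat.P (n+1) k * (1 - (α ^ k * (α ^ h.dat.M)⁻¹).re) := by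
    intro k
    refine mul_nonneg (hlaw.nn k) ?_
    have := Complex.re_le_norm (α ^ k * (α ^ h.dat.M)⁻¹)
    rw [hn k] at this
    linarith
  have h5 := (hasSum_zero_iff_of_nonneg hnn).1 h2
  have h6 := congrFun h5 l
  simp only [Pi.zero_apply] at h6
  rcases mul_eq_zero.1 h6 with h7 | h7
  · exact absurd h7 hl
  · set z := α ^ l * (α ^ h.dat.M)⁻¹ with hz
    have h8 : z.re = 1 := by linarith
    have h9 : z.re * z.re + z.im * z.im = 1 := by
      have := Complex.normSq_eq_norm_sq z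
      rw [hn l, Complex.normSq_apply] at this
      linarith
    have h10 : z.im = 0 := by
      rw [h8] at h9
      nlinarith
    have h11 : z = 1 := Complex.ext h8 h10
    rw [hz] at h11
    field_simp at h11
    exact h11

theorem Setting.boundary (h : Setting P X m) {α : ℂ} (hα : ‖α‖ = 1)
    (hroot : genFun P (total X) α - 1 = 0) :
    HasDerivWithinAt (genFun P (total X))
      (((∫ ω, ((∑ j, X j ω : ℤ) : ℝ) ∂P : ℝ) : ℂ) / α) (Metric.closedBall 0 1) α := by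
  have h0 : α ≠ 0 := by rintro rfl; simp at hα
  have hlaw := h.dat.lawP (n+1)
  have hmom := h.hasSum_total
  have h1 := hasDerivWithinAt_series hlaw hmom.summable hα.le
  have h2 : HasDerivWithinAt (fun s : ℂ => s ^ (-(h.dat.M : ℤ)))
      (((-(h.dat.M : ℤ) : ℤ) : ℂ) * α ^ (-(h.dat.M : ℤ) - 1)) (Metric.closedBall 0 1) α :=
    (hasDerivAt_zpow _ α (Or.inl h0)).hasDerivWithinAt
  have h3 := h2.mul h1
  have heq : ∀ s : ℂ, s ≠ 0 → genFun P (total X) s =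
      s ^ (-(h.dat.M : ℤ)) * ∑' l, (h.dat.P (n+1) l : ℂ) * s ^ l := by
    intro s hs
    rw [← W_total, h.genFun_W (n+1) le_rfl hs]
    congr 1
    unfold T
    congr 1; ext l; simp [e]
  have hval : ∑' l, (h.dat.P (n+1) l : ℂ) * α ^ l = α ^ h.dat.M := by
    have := heq α h0
    rw [sub_eq_zero.1 hroot, zpow_neg, zpow_natCast] at this
    have hne : α ^ h.dat.M ≠ 0 := pow_ne_zero _ h0
    field_simp at this
    exact this.symm
  have hder : ∑' l : ℕ, (h.dat.P (n+1) l : ℂ) * (l * α ^ (l-1)) =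
      α ^ h.dat.M / α * ((((∫ ω, ((∑ j, X j ω : ℤ) : ℝ) ∂P) + h.dat.M : ℝ)) : ℂ) := by
    rw [← hmom.tsum_eq, Complex.ofReal_tsum, ← tsum_mul_left]
    congr 1; ext l
    by_cases hl : h.dat.P (n+1) l = 0
    · rw [hl]; simp
    · have h5 := h.unit_of_root hα hroot l hl
      rcases Nat.eq_zero_or_pos l with h6 | h6
      · subst h6; simp
      · have h7 : α ^ (l - 1) = α ^ h.dat.M / α := by
          rw [← h5, eq_div_iff h0, ← pow_succ, Nat.sub_add_cancel h6]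
        rw [h7]; push_cast; ring
  rw [hval, hder] at h3
  have h4 : HasDerivWithinAt (genFun P (total X))
      (((-(h.dat.M : ℤ) : ℤ) : ℂ) * α ^ (-(h.dat.M : ℤ) - 1) * α ^ h.dat.M +
        α ^ (-(h.dat.M : ℤ)) * (α ^ h.dat.M / α *
          ((((∫ ω, ((∑ j, X j ω : ℤ) : ℝ) ∂P) + h.dat.M : ℝ)) : ℂ))) (Metric.closedBall 0 1) α := by
    refine h3.congr_of_eventuallyEq ?_ (heq α h0)
    have : ∀ᶠ s in 𝓝[Metric.closedBall (0:ℂ) 1] α, s ≠ 0 :=
      mem_nhdsWithin_of_mem_nhds (isOpen_ne.mem_nhds h0)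
    filter_upwards [this] with s hs
    exact heq s hs
  convert h4 using 1
  have h8 : α ^ (-(h.dat.M : ℤ) - 1) * α ^ h.dat.M = α⁻¹ := by
    rw [← zpow_natCast α h.dat.M, ← zpow_add₀ h0]
    rw [show -(h.dat.M : ℤ) - 1 + (h.dat.M : ℤ) = -1 by ring, zpow_neg_one]
  have h9 : α ^ (-(h.dat.M : ℤ)) * α ^ h.dat.M = 1 := by
    rw [← zpow_natCast α h.dat.M, ← zpow_add₀ h0, neg_add_cancel, zpow_zero]
  rw [mul_assoc, h8]
  have h10 : α ^ (-(h.dat.M : ℤ)) * (α ^ h.dat.M / α *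
          ((((∫ ω, ((∑ j, X j ω : ℤ) : ℝ) ∂P) + h.dat.M : ℝ)) : ℂ)) =
      (α ^ (-(h.dat.M : ℤ)) * α ^ h.dat.M) * (α⁻¹ *
          ((((∫ ω, ((∑ j, X j ω : ℤ) : ℝ) ∂P) + h.dat.M : ℝ)) : ℂ)) := by
    rw [div_eq_mul_inv]; ring
  rw [h10, h9]
  push_cast
  ring

theorem main (h : Setting P X m) :
    (∀ α : Root P X, ‖α.1‖ < 1 →
      analyticOrderAt (fun s => genFun P (total X) s - 1) α.1 ≠ ⊤) ∧
    (∀ α : Root P X, ‖α.1‖ = 1 →
      HasDerivWithinAt (genFun P (total X))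
        (((∫ ω, ((∑ j, X j ω : ℤ) : ℝ) ∂P : ℝ) : ℂ) / α.1) (Metric.closedBall 0 1) α.1 ∧
      ((∫ ω, ((∑ j, X j ω : ℤ) : ℝ) ∂P : ℝ) : ℂ) / α.1 ≠ 0) ∧
    (Finite (Row P X) ∧ Nat.card (Row P X) = (-∑ j, m j).toNat ∧
      Nat.card (Col m) = (-∑ j, m j).toNat) ∧
    ∀ E : Row P X ≃ Col m, ((A P X m).reindex E (Equiv.refl _)).det ≠ 0 := by
  refine ⟨?_, ?_, ⟨?_, ?_, ?_⟩, h.det_ne_zero⟩
  · rintro ⟨α, h1, h2, h3, h4⟩ hα
    rw [h.order_eq h2 hα]
    exact h.dat.order_ne_top hα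
  · rintro ⟨α, h1, h2, h3, h4⟩ hα
    refine ⟨h.boundary hα h4, div_ne_zero ?_ h2⟩
    exact_mod_cast h.mean_neg.ne
  · obtain ⟨E⟩ := h.nonempty_equiv
    exact Finite.of_equiv _ E.symm
  · obtain ⟨E⟩ := h.nonempty_equiv
    rw [Nat.card_congr E, ← Nat.card_congr h.colEquiv, Nat.card_eq_fintype_card, h.dat.card_C,
      h.M_eq]
  · rw [← Nat.card_congr h.colEquiv, Nat.card_eq_fintype_card, h.dat.card_C, h.M_eq]

end V11327.RootMatrix
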