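import Mathlib

open MeasureTheory ProbabilityTheory Filter Set Topology
open scoped ENNReal

namespace Pool.Agent.V11327.SX

/-- Intensity accumulated during `[s, t]` by the process if it has made exactly `n` jumps:
the integral of `lam ((n + γ) / (u + 1))` over `s ≤ u ≤ t`. -/
noncomputable def clock (lam : ℝ → ℝ) (γ : ℝ) (n : ℕ) (s t : ℝ) : ℝ :=
  ∫ u in s..t, lam ((n + γ) / (u + 1))

/-- The points of the process built from the clocks `e 0, e 1, ...`: `pt 0 = 0`, and the
`(n+1)`-st point is the first time `t ≥ pt n` at which the intensity accumulated since the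
`n`-th point reaches `e n` (`⊤` if this never happens). -/
noncomputable def pt (lam : ℝ → ℝ) (γ : ℝ) (e : ℕ → ℝ) : ℕ → EReal
  | 0 => 0
  | n + 1 => sInf ((fun t : ℝ => (t : EReal)) ''
      {t : ℝ | pt lam γ e n ≤ (t : EReal) ∧
        e n ≤ clock lam γ n (pt lam γ e n).toReal t})

/-- The set of points up to time `t` (the index `n` stands for the `(n+1)`-st point). -/
def pts (lam : ℝ → ℝ) (γ : ℝ) (e : ℕ → ℝ) (t : ℝ) : Set ℕ :=
  {n | pt lam γ e (n + 1) ≤ (t : EReal)}

/-- `N_t < ∞` for all `t` and `N_t / t → x`. -/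
def Conv (lam : ℝ → ℝ) (γ : ℝ) (e : ℕ → ℝ) (x : ℝ) : Prop :=
  (∀ t : ℝ, (pts lam γ e t).Finite) ∧
    Tendsto (fun t : ℝ => ((pts lam γ e t).ncard : ℝ) / t) atTop (𝓝 x)

/-- The example. -/
noncomputable def L (z : ℝ) : ℝ := max (1 - z) 0 + min 4 (max 0 (40 * z - 68))

theorem L_cont : Continuous L := by
  unfold L; fun_prop

theorem L_nonneg (z : ℝ) : 0 ≤ L z := by
  unfold L
  have h1 : (0:ℝ) ≤ max (1 - z) 0 := le_max_right _ _
  have h2 : (0:ℝ) ≤ min 4 (max 0 (40 * z - 68)) := le_min (by norm_num) (le_max_left _ _)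
  linarith

theorem L_low {z : ℝ} (h : z ≤ 1) : L z = 1 - z := by
  unfold L
  rw [max_eq_left (by linarith), max_eq_left (by linarith : 40 * z - 68 ≤ 0),
    min_eq_right (by norm_num)]
  ring

theorem L_mid {z : ℝ} (h : 1 ≤ z) (h' : z ≤ 17 / 10) : L z = 0 := by
  unfold L
  rw [max_eq_right (by linarith), max_eq_left (by linarith : 40 * z - 68 ≤ 0),
    min_eq_right (by norm_num)]
  ring

theorem L_ramp {z : ℝ} (h : 17 / 10 ≤ z) (h' : z ≤ 9 / 5) : L z = 40 * z - 68 := by
  unfold L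
  rw [max_eq_right (by linarith), max_eq_right (by linarith : 0 ≤ 40 * z - 68),
    min_eq_right (by linarith)]
  ring

theorem L_top {z : ℝ} (h : 9 / 5 ≤ z) : L z = 4 := by
  unfold L
  rw [max_eq_right (by linarith), max_eq_right (by linarith : 0 ≤ 40 * z - 68),
    min_eq_left (by linarith)]
  ring

theorem L_fixed {z : ℝ} (h : L z = z) : z = 1 / 2 ∨ z = 68 / 39 ∨ z = 4 := by
  rcases le_total z 1 with h1 | h1
  · rw [L_low h1] at h; left; linarith
  rcases le_total z (17 / 10) with h2 | h2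
  · rw [L_mid h1 h2] at h; exfalso; linarith
  rcases le_total z (9 / 5) with h3 | h3
  · rw [L_ramp h2 h3] at h; right; left; linarith
  · rw [L_top h3] at h; right; right; linarith

theorem pt_zero (lam : ℝ → ℝ) (γ : ℝ) (e : ℕ → ℝ) : pt lam γ e 0 = 0 := rfl

theorem pt_succ (lam : ℝ → ℝ) (γ : ℝ) (e : ℕ → ℝ) (n : ℕ) :
    pt lam γ e (n + 1) = sInf ((fun t : ℝ => (t : EReal)) ''
      {t : ℝ | pt lam γ e n ≤ (t : EReal) ∧
        e n ≤ clock lam γ n (pt lam γ e n).toReal t}) := rfl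

theorem pt_le_succ (lam : ℝ → ℝ) (γ : ℝ) (e : ℕ → ℝ) (n : ℕ) :
    pt lam γ e n ≤ pt lam γ e (n + 1) := by
  rw [pt_succ]
  apply le_sInf
  rintro _ ⟨t, ht, rfl⟩
  exact ht.1

theorem pt_mono (lam : ℝ → ℝ) (γ : ℝ) (e : ℕ → ℝ) : Monotone (pt lam γ e) :=
  monotone_nat_of_le_succ (pt_le_succ lam γ e)

theorem pt_nonneg (lam : ℝ → ℝ) (γ : ℝ) (e : ℕ → ℝ) (n : ℕ) : 0 ≤ pt lam γ e n :=
  pt_mono lam γ e (Nat.zero_le n)

theorem pt_real (lam : ℝ → ℝ) (γ : ℝ) (e : ℕ → ℝ) (n : ℕ) {r : ℝ}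
    (h : pt lam γ e n ≤ (r : EReal)) : pt lam γ e n = ((pt lam γ e n).toReal : EReal) := by
  rw [EReal.coe_toReal]
  · exact ne_top_of_le_ne_top (EReal.coe_ne_top r) h
  · exact ne_bot_of_le_ne_bot EReal.zero_ne_bot (pt_nonneg lam γ e n)

/-- Started from `8/5`, the quantity `Z` never exceeds `17/10` at (and after) any point. -/
theorem trapped (e : ℕ → ℝ) (he : ∀ n, 0 < e n) :
    ∀ (n : ℕ) (r : ℝ), pt L (8 / 5) e n ≤ (r : EReal) → (n : ℝ) + 8 / 5 ≤ 17 / 10 * (r + 1) := by
  intro n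
  induction n with
  | zero =>
    intro r hr
    rw [pt_zero] at hr
    have : (0:ℝ) ≤ r := by exact_mod_cast hr
    push_cast
    linarith
  | succ n ih =>
    intro r hr
    have key : (((n : ℝ) + 3 / 5 : ℝ) : EReal) ≤ pt L (8 / 5) e (n + 1) := by
      rw [pt_succ]
      apply le_sInf
      rintro _ ⟨t, ht, rfl⟩
      obtain ⟨ht1, ht2⟩ := ht
      show (((n : ℝ) + 3 / 5 : ℝ) : EReal) ≤ (t : EReal)
      rw [EReal.coe_le_coe_iff]
      by_contra hcon
      push Not at hcon
      have hre := pt_real L (8 / 5) e n ht1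
      set s := (pt L (8 / 5) e n).toReal with hs
      have hst : s ≤ t := by
        rw [hre] at ht1
        exact_mod_cast ht1
      have hs0 : 0 ≤ s := by
        have := pt_nonneg L (8 / 5) e n
        rw [hre] at this
        exact_mod_cast this
      have hzero : clock L (8 / 5) n s t = 0 := by
        unfold clock
        have : ∀ u ∈ uIcc s t, L (((n : ℝ) + 8 / 5) / (u + 1)) = (fun _ : ℝ => (0:ℝ)) u := by
          intro u hu
          rw [uIcc_of_le hst] at hu
          have hu0 : 0 < u + 1 := by linarith [hu.1]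
          apply L_mid
          · rw [le_div_iff₀ hu0]; linarith [hu.2]
          · rw [div_le_iff₀ hu0]
            apply ih u
            rw [hre]
            exact_mod_cast hu.1
        rw [intervalIntegral.integral_congr this]
        simp
      rw [hzero] at ht2
      exact absurd ht2 (not_le.2 (he n))
    have h2 : (n : ℝ) + 3 / 5 ≤ r := by
      have := key.trans hr
      exact_mod_cast this
    push_cast
    have hn : (0:ℝ) ≤ n := Nat.cast_nonneg n
    linarith

theorem not_conv (e : ℕ → ℝ) (he : ∀ n, 0 < e n) : ¬ Conv L (8 / 5) e 4 := by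
  rintro ⟨-, h⟩
  have h1 : ∀ᶠ t : ℝ in atTop, (3:ℝ) < ((pts L (8 / 5) e t).ncard : ℝ) / t :=
    h.eventually (lt_mem_nhds (by norm_num))
  obtain ⟨t, ht, ht10⟩ := (h1.and (eventually_ge_atTop (10:ℝ))).exists
  have ht0 : 0 < t := by linarith
  rw [lt_div_iff₀ ht0] at ht
  have hsub : pts L (8 / 5) e t ⊆ ((Finset.range (⌊17 / 10 * (t + 1)⌋₊) : Finset ℕ) : Set ℕ) := by
    intro n hn
    have h3 := trapped e he (n + 1) t hn
    push_cast at h3
    rw [Finset.coe_range, mem_Iio]
    have : n + 1 ≤ ⌊17 / 10 * (t + 1)⌋₊ := by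
      apply Nat.le_floor
      push_cast
      linarith
    omega
  have hc := Set.ncard_le_ncard hsub (Finset.finite_toSet _)
  rw [Set.ncard_coe_finset, Finset.card_range] at hc
  have hf : ((⌊17 / 10 * (t + 1)⌋₊ : ℕ) : ℝ) ≤ 17 / 10 * (t + 1) := Nat.floor_le (by positivity)
  have hc' : ((pts L (8 / 5) e t).ncard : ℝ) ≤ ((⌊17 / 10 * (t + 1)⌋₊ : ℕ) : ℝ) := by
    exact_mod_cast hc
  linarith

/-- In the zone `Z ≥ 9/5` the process is a Poisson process of rate `4`. -/
theorem poisson_zone (γ : ℝ) (e : ℕ → ℝ) (he : ∀ n, 0 < e n) (n0 : ℕ) (s : ℝ)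
    (hs0 : 0 ≤ s) (hs : pt L γ e n0 = (s : EReal))
    (hreq : ∀ n, n0 ≤ n → s + (∑ k ∈ Finset.Ico n0 (n + 1), e k) / 4 + 1 ≤ 5 / 9 * (n + γ)) :
    ∀ j : ℕ, pt L γ e (n0 + j) = ((s + (∑ k ∈ Finset.Ico n0 (n0 + j), e k) / 4 : ℝ) : EReal) := by
  intro j
  induction j with
  | zero => simp [hs]
  | succ j ih =>
    set n := n0 + j with hn
    have hnn : n0 + (j + 1) = n + 1 := by omega
    rw [hnn]
    set τ := s + (∑ k ∈ Finset.Ico n0 n, e k) / 4 with hτ
    have hτ0 : 0 ≤ τ := by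
      have : 0 ≤ ∑ k ∈ Finset.Ico n0 n, e k := Finset.sum_nonneg fun k _ => (he k).le
      positivity
    have hsum : ∑ k ∈ Finset.Ico n0 (n + 1), e k = (∑ k ∈ Finset.Ico n0 n, e k) + e n :=
      Finset.sum_Ico_succ_top (by omega) _
    have hr := hreq n (by omega)
    rw [hsum] at hr ⊢
    have hgoal : s + ((∑ k ∈ Finset.Ico n0 n, e k) + e n) / 4 = τ + e n / 4 := by
      rw [hτ]; ring
    rw [hgoal]
    have hr' : τ + e n / 4 + 1 ≤ 5 / 9 * (n + γ) := by
      rw [hτ]; linarith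
    have hclock : ∀ t, τ ≤ t → t ≤ τ + e n / 4 → clock L γ n τ t = 4 * (t - τ) := by
      intro t h1 h2
      unfold clock
      have : ∀ u ∈ uIcc τ t, L (((n : ℝ) + γ) / (u + 1)) = (fun _ : ℝ => (4:ℝ)) u := by
        intro u hu
        rw [uIcc_of_le h1] at hu
        have hu0 : 0 < u + 1 := by linarith [hu.1]
        apply L_top
        rw [le_div_iff₀ hu0]
        linarith [hu.2]
      rw [intervalIntegral.integral_congr this]
      simp [mul_comm]
    rw [pt_succ, ih, EReal.toReal_coe]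
    apply IsLeast.csInf_eq
    constructor
    · refine ⟨τ + e n / 4, ⟨?_, ?_⟩, rfl⟩
      · have : τ ≤ τ + e n / 4 := by linarith [he n]
        exact_mod_cast this
      · rw [hclock _ (by linarith [he n]) le_rfl]
        linarith
    · rintro _ ⟨t, ⟨ht1, ht2⟩, rfl⟩
      show ((τ + e n / 4 : ℝ) : EReal) ≤ (t : EReal)
      have ht1' : τ ≤ t := by exact_mod_cast ht1
      rw [EReal.coe_le_coe_iff]
      by_contra hcon
      push Not at hcon
      rw [hclock t ht1' hcon.le] at ht2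
      linarith

/-- Counting: if the times grow like `n / 4` then `N_t / t → 4`. -/
theorem counting (τ : ℕ → ℝ) (hmono : Monotone τ) (h0 : τ 0 = 0)
    (hlim : Tendsto (fun n : ℕ => τ n / n) atTop (𝓝 (1 / 4))) :
    (∀ t : ℝ, {n : ℕ | τ (n + 1) ≤ t}.Finite) ∧
      Tendsto (fun t : ℝ => (({n : ℕ | τ (n + 1) ≤ t}.ncard : ℕ) : ℝ) / t) atTop (𝓝 4) := by
  have hinf : Tendsto τ atTop atTop := by
    have h1 : Tendsto (fun n : ℕ => (n : ℝ) * (τ n / n)) atTop atTop :=
      Tendsto.atTop_mul_pos (by norm_num : (0:ℝ) < 1 / 4) tendsto_natCast_atTop_atTop hlim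
    refine h1.congr' ?_
    filter_upwards [eventually_gt_atTop 0] with n hn
    have : (n : ℝ) ≠ 0 := by positivity
    field_simp
  have hex : ∀ t : ℝ, ∃ n, t < τ (n + 1) := by
    intro t
    obtain ⟨n, hn⟩ := ((tendsto_add_atTop_iff_nat 1).2 hinf |>.eventually_gt_atTop t).exists
    exact ⟨n, hn⟩
  classical
  let N : ℝ → ℕ := fun t => Nat.find (hex t)
  have hNs : ∀ t, t < τ (N t + 1) := fun t => Nat.find_spec (hex t)
  have hset : ∀ t, {n : ℕ | τ (n + 1) ≤ t} = ((Finset.range (N t) : Finset ℕ) : Set ℕ) := by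
    intro t
    ext n
    rw [Finset.coe_range, mem_Iio]
    constructor
    · intro hn
      by_contra hcon
      push Not at hcon
      have h1 : τ (N t + 1) ≤ τ (n + 1) := hmono (by omega)
      have h2 : τ (n + 1) ≤ t := hn
      linarith [hNs t]
    · intro hn
      have := Nat.find_min (hex t) hn
      push Not at this
      exact this
  refine ⟨fun t => by rw [hset t]; exact Finset.finite_toSet _, ?_⟩
  have hcard : ∀ t, {n : ℕ | τ (n + 1) ≤ t}.ncard = N t := by
    intro t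
    rw [hset t, Set.ncard_coe_finset, Finset.card_range]
  simp only [hcard]
  have hNle : ∀ t, 0 ≤ t → τ (N t) ≤ t := by
    intro t ht
    rcases Nat.eq_zero_or_pos (N t) with h | h
    · rw [h, h0]; exact ht
    · have hlt : N t - 1 < N t := by omega
      have := Nat.find_min (hex t) hlt
      push Not at this
      have e1 : N t - 1 + 1 = N t := by omega
      rwa [e1] at this
  have hNinf : Tendsto N atTop atTop := by
    rw [tendsto_atTop]
    intro K
    filter_upwards [eventually_ge_atTop (τ K)] with t ht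
    by_contra hcon
    push Not at hcon
    have h1 : τ (N t + 1) ≤ τ K := hmono (by omega)
    linarith [hNs t]
  have hb : Tendsto (fun n : ℕ => (n : ℝ) / τ n) atTop (𝓝 4) := by
    have h1 := hlim.inv₀ (by norm_num)
    have e1 : ((1:ℝ) / 4)⁻¹ = 4 := by norm_num
    rw [e1] at h1
    refine h1.congr ?_
    intro n
    rw [inv_div]
  have ha : Tendsto (fun n : ℕ => (n : ℝ) / τ (n + 1)) atTop (𝓝 4) := by
    have h1 : Tendsto (fun n : ℕ => ((n + 1 : ℕ) : ℝ) / τ (n + 1)) atTop (𝓝 4) :=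
      (tendsto_add_atTop_iff_nat (f := fun n : ℕ => (n : ℝ) / τ n) 1).2 hb
    have h2 : Tendsto (fun n : ℕ => 1 / τ (n + 1)) atTop (𝓝 0) := by
      have : Tendsto (fun n : ℕ => (τ (n + 1))⁻¹) atTop (𝓝 0) :=
        tendsto_inv_atTop_zero.comp ((tendsto_add_atTop_iff_nat 1).2 hinf)
      simpa [one_div] using this
    have h3 := h1.sub h2
    rw [sub_zero] at h3
    refine h3.congr ?_
    intro n
    rw [← sub_div]
    push_cast
    ring
  refine tendsto_of_tendsto_of_tendsto_of_le_of_le' (ha.comp hNinf) (hb.comp hNinf) ?_ ?_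
  · filter_upwards [eventually_gt_atTop (0:ℝ)] with t ht
    show (N t : ℝ) / τ (N t + 1) ≤ (N t : ℝ) / t
    exact div_le_div_of_nonneg_left (Nat.cast_nonneg _) ht (hNs t).le
  · have hpos : ∀ᶠ t in atTop, 0 < τ (N t) :=
      (hinf.comp hNinf).eventually_gt_atTop 0
    filter_upwards [eventually_gt_atTop (0:ℝ), hpos] with t ht hp
    show (N t : ℝ) / t ≤ (N t : ℝ) / τ (N t)
    exact div_le_div_of_nonneg_left (Nat.cast_nonneg _) hp (hNle t ht.le)

/-- If from index `n0` on the points follow the clocks at rate `4`, then `N_t / t → 4`. -/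
theorem conv_of_zone (γ : ℝ) (e : ℕ → ℝ) (n0 : ℕ) (s : ℝ)
    (hz : ∀ j : ℕ, pt L γ e (n0 + j) =
      ((s + (∑ k ∈ Finset.Ico n0 (n0 + j), e k) / 4 : ℝ) : EReal))
    (hlim : Tendsto (fun n : ℕ => (∑ k ∈ Finset.range n, e k) / n) atTop (𝓝 1)) :
    Conv L γ e 4 := by
  let τ : ℕ → ℝ := fun n => (pt L γ e n).toReal
  have hreal : ∀ n, pt L γ e n = (τ n : EReal) := by
    intro n
    apply pt_real L γ e n (r := s + (∑ k ∈ Finset.Ico n0 (n0 + n), e k) / 4)
    rw [← hz n]
    exact pt_mono L γ e (by omega)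
  have hmono : Monotone τ := by
    intro a b hab
    have := pt_mono L γ e hab
    rw [hreal a, hreal b] at this
    exact_mod_cast this
  have h0 : τ 0 = 0 := by
    show (pt L γ e 0).toReal = 0
    rw [pt_zero]; simp
  have hτlim : Tendsto (fun n : ℕ => τ n / n) atTop (𝓝 (1 / 4)) := by
    have h1 : Tendsto (fun n : ℕ => (s - (∑ k ∈ Finset.range n0, e k) / 4) / n +
        ((∑ k ∈ Finset.range n, e k) / n) / 4) atTop (𝓝 (0 + 1 / 4)) := by
      apply Tendsto.add
      · exact tendsto_const_nhds.div_atTop tendsto_natCast_atTop_atTop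
      · exact hlim.div_const 4
    rw [zero_add] at h1
    refine h1.congr' ?_
    filter_upwards [eventually_ge_atTop n0] with n hn
    have h2 : τ n = s + (∑ k ∈ Finset.Ico n0 n, e k) / 4 := by
      have h3 := hz (n - n0)
      rw [show n0 + (n - n0) = n by omega, hreal n] at h3
      exact_mod_cast h3
    have h4 : ∑ k ∈ Finset.range n0, e k + ∑ k ∈ Finset.Ico n0 n, e k
        = ∑ k ∈ Finset.range n, e k := Finset.sum_range_add_sum_Ico _ hn
    rw [h2, ← h4]
    ring
  have hc := counting τ hmono h0 hτlim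
  have hset : ∀ t : ℝ, pts L γ e t = {n : ℕ | τ (n + 1) ≤ t} := by
    intro t
    ext n
    show pt L γ e (n + 1) ≤ (t : EReal) ↔ τ (n + 1) ≤ t
    rw [hreal (n + 1), EReal.coe_le_coe_iff]
  refine ⟨fun t => by rw [hset t]; exact hc.1 t, ?_⟩
  simp only [hset]
  exact hc.2

/-- Start at `10`. -/
theorem conv_ten (e : ℕ → ℝ) (he : ∀ n, 0 < e n)
    (hS0 : e 0 ≤ 1 / 400)
    (hS : ∀ n : ℕ, 1 ≤ n → ∑ k ∈ Finset.range (n + 1), e k ≤ 20 / 9 * n - 21 / 10)
    (hlim : Tendsto (fun n : ℕ => (∑ k ∈ Finset.range n, e k) / n) atTop (𝓝 1)) :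
    Conv L 10 e 4 := by
  apply conv_of_zone 10 e 0 0 _ hlim
  apply poisson_zone 10 e he 0 0 le_rfl (by rw [pt_zero]; simp)
  intro n _
  rw [← Finset.range_eq_Ico]
  rcases Nat.eq_zero_or_pos n with h | h
  · subst h
    simp
    linarith
  · have := hS n h
    linarith

/-- Start at `9/10`. -/
theorem conv_low (e : ℕ → ℝ) (he : ∀ n, 0 < e n)
    (hS0 : e 0 ≤ 1 / 400)
    (hS : ∀ n : ℕ, 1 ≤ n → ∑ k ∈ Finset.range (n + 1), e k ≤ 20 / 9 * n - 21 / 10)
    (hlim : Tendsto (fun n : ℕ => (∑ k ∈ Finset.range n, e k) / n) atTop (𝓝 1)) :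
    Conv L (9 / 10) e 4 := by
  -- the first point comes before time `1/40`
  have hle : pt L (9 / 10) e 1 ≤ ((1 / 40 : ℝ) : EReal) := by
    rw [pt_succ]
    apply sInf_le
    refine ⟨1 / 40, ⟨?_, ?_⟩, rfl⟩
    · rw [pt_zero]
      exact_mod_cast (by norm_num : (0:ℝ) ≤ 1 / 40)
    · rw [pt_zero]
      refine hS0.trans ?_
      have h1 : (1:ℝ) / 400 = ∫ _ in (0:ℝ)..(1 / 40), (1 / 10 : ℝ) := by
        simp; norm_num
      rw [h1]
      unfold clock
      rw [EReal.toReal_zero]
      apply intervalIntegral.integral_mono_on (by norm_num)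
      · exact intervalIntegrable_const
      · apply ContinuousOn.intervalIntegrable
        intro u hu
        rw [uIcc_of_le (by norm_num)] at hu
        have hu0 : u + 1 ≠ 0 := by linarith [hu.1]
        apply ContinuousAt.continuousWithinAt
        apply L_cont.continuousAt.comp
        exact ContinuousAt.div₀ continuousAt_const (continuousAt_id.add continuousAt_const) hu0
      · intro u hu
        have hu0 : 0 < u + 1 := by linarith [hu.1]
        have hz : (((0:ℕ) : ℝ) + 9 / 10) / (u + 1) ≤ 9 / 10 := by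
          rw [div_le_iff₀ hu0]
          push_cast
          linarith [hu.1]
        rw [L_low (by linarith)]
        linarith
  have hre := pt_real L (9 / 10) e 1 hle
  set s := (pt L (9 / 10) e 1).toReal with hs
  have hs1 : s ≤ 1 / 40 := by
    rw [hre] at hle
    exact_mod_cast hle
  have hs0 : 0 ≤ s := by
    have := pt_nonneg L (9 / 10) e 1
    rw [hre] at this
    exact_mod_cast this
  apply conv_of_zone (9 / 10) e 1 s _ hlim
  apply poisson_zone (9 / 10) e he 1 s hs0 hre
  intro n hn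
  have h1 := hS n hn
  have h4 : ∑ k ∈ Finset.range 1, e k + ∑ k ∈ Finset.Ico 1 (n + 1), e k
      = ∑ k ∈ Finset.range (n + 1), e k := Finset.sum_range_add_sum_Ico _ (by omega)
  rw [Finset.sum_range_one] at h4
  have := he 0
  linarith

end Pool.Agent.V11327.SX
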