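import Mathlib

/-! The Ulam-Kac adder. -/

set_option autoImplicit false

namespace Pool.Agent.V11327.UK

open MeasureTheory ProbabilityTheory Finset Filter Topology

/-- `X` is the Ulam-Kac adder driven by the independent variables `U n`, uniform on
`{0, 1, ..., n}`. -/
structure IsUlamKac {Ω : Type} [MeasurableSpace Ω] (P : Measure Ω)
    (U : (n : ℕ) → Ω → Fin (n + 1)) (X : ℕ → Ω → ℕ) : Prop where
  meas : ∀ n, Measurable (U n)
  indep : iIndepFun U P
  unif : ∀ (n : ℕ) (k : Fin (n + 1)), P.real {ω | U n ω = k} = 1 / ((n : ℝ) + 1)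
  zero : ∀ ω, X 0 ω = 1
  succ : ∀ n ω, X (n + 1) ω = X n ω + X (U n ω) ω

variable {Ω : Type} [mΩ : MeasurableSpace Ω] {P : Measure Ω}
  {U : (n : ℕ) → Ω → Fin (n + 1)} {X : ℕ → Ω → ℕ}

theorem X_le_succ (h : IsUlamKac P U X) (n : ℕ) (ω : Ω) : X n ω ≤ X (n + 1) ω := by
  rw [h.succ]; omega

theorem X_mono (h : IsUlamKac P U X) (ω : Ω) : Monotone (fun n => X n ω) :=
  monotone_nat_of_le_succ fun n => X_le_succ h n ω

theorem X_pos (h : IsUlamKac P U X) (n : ℕ) (ω : Ω) : 1 ≤ X n ω := by
  have := X_mono h ω (Nat.zero_le n)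
  simp only [h.zero] at this
  exact this

theorem X_le (h : IsUlamKac P U X) (n : ℕ) (ω : Ω) : X n ω ≤ 2 ^ n := by
  induction n with
  | zero => rw [h.zero]; norm_num
  | succ n ih =>
    rw [h.succ, pow_succ]
    have := X_mono h ω (Nat.lt_succ_iff.1 (U n ω).2)
    simp only at this
    omega

/-- the history up to time `n` -/
def hist (U : (n : ℕ) → Ω → Fin (n + 1)) (n : ℕ) : MeasurableSpace Ω :=
  ⨆ i ∈ Set.Iio n, MeasurableSpace.comap (U i) ⊤

theorem hist_le (h : IsUlamKac P U X) (n : ℕ) : hist U n ≤ mΩ :=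
  iSup₂_le fun i _ => (h.meas i).comap_le

theorem hist_mono {k n : ℕ} (hkn : k ≤ n) : hist U k ≤ hist U n :=
  biSup_mono fun _ hi => lt_of_lt_of_le hi hkn

theorem meas_U_hist {i n : ℕ} (hi : i < n) : Measurable[hist U n] (U i) := by
  have h1 : MeasurableSpace.comap (U i) ⊤ ≤ hist U n :=
    le_iSup₂_of_le (f := fun i (_ : i ∈ Set.Iio n) => MeasurableSpace.comap (U i) ⊤) i hi le_rfl
  exact (comap_measurable (U i)).mono h1 le_rfl

theorem X_succ_eq (h : IsUlamKac P U X) (n : ℕ) : X (n + 1) = fun ω => X n ω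
    + ∑ j : Fin (n + 1), if U n ω = j then X j ω else 0 := by
  funext ω
  rw [h.succ]
  simp

theorem meas_X (h : IsUlamKac P U X) : ∀ n k : ℕ, k ≤ n → Measurable[hist U n] (X k) := by
  intro n
  induction n with
  | zero =>
    intro k hk
    have : k = 0 := by omega
    subst this
    have : X 0 = fun _ => 1 := funext h.zero
    rw [this]
    exact measurable_const
  | succ n ih =>
    intro k hk
    rcases Nat.lt_or_ge k (n + 1) with h1 | h1
    · exact (ih k (by omega)).mono (hist_mono (by omega)) le_rfl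
    · have : k = n + 1 := by omega
      subst this
      rw [X_succ_eq h]
      have h2 : ∀ j : ℕ, j ≤ n → Measurable[hist U (n + 1)] (X j) := fun j hj =>
        (ih j hj).mono (hist_mono (by omega)) le_rfl
      refine Measurable.add (h2 n le_rfl) ?_
      refine Finset.measurable_sum _ fun j _ => ?_
      refine Measurable.ite ?_ (h2 j (by omega)) measurable_const
      exact meas_U_hist (Nat.lt_succ_self n) (measurableSet_singleton j)

theorem indep_hist (h : IsUlamKac P U X) (n : ℕ) :
    Indep (hist U n) (MeasurableSpace.comap (U n) ⊤) P := by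
  have h1 := indep_iSup_of_disjoint (m := fun i => MeasurableSpace.comap (U i) ⊤) (μ := P)
    (fun i => (h.meas i).comap_le) h.indep.iIndep (S := Set.Iio n) (T := {n})
    (by simp)
  have h2 : (⨆ i ∈ ({n} : Set ℕ), MeasurableSpace.comap (U i) ⊤) = MeasurableSpace.comap (U n) ⊤ := by
    simp
  rw [h2] at h1
  exact h1

/-- independence of the next choice from the history, in the form of an integral -/
theorem integral_choice [IsProbabilityMeasure P] (h : IsUlamKac P U X) (n : ℕ) (G : Ω → ℝ)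
    (hG : Measurable[hist U n] G) (j : Fin (n + 1)) :
    ∫ ω, G ω * (if U n ω = j then 1 else 0) ∂P = 1 / ((n : ℝ) + 1) * ∫ ω, G ω ∂P := by
  have hind : IndepFun G (fun ω => if U n ω = j then (1 : ℝ) else 0) P := by
    rw [IndepFun_iff_Indep]
    refine indep_of_indep_of_le_left (indep_of_indep_of_le_right (indep_hist h n) ?_) hG.comap_le
    have h1 : Measurable[MeasurableSpace.comap (U n) ⊤] (fun ω => if U n ω = j then (1 : ℝ) else 0) := by
      refine Measurable.ite ?_ measurable_const measurable_const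
      exact (comap_measurable (U n)) (measurableSet_singleton j)
    exact h1.comap_le
  have hGm : Measurable G := hG.mono (hist_le h n) le_rfl
  have hms : MeasurableSet {ω | U n ω = j} := h.meas n (measurableSet_singleton j)
  have h1m : Measurable (fun ω => if U n ω = j then (1 : ℝ) else 0) :=
    Measurable.ite hms measurable_const measurable_const
  rw [hind.integral_fun_mul_eq_mul_integral hGm.aestronglyMeasurable h1m.aestronglyMeasurable]
  have h2 : ∫ ω, (if U n ω = j then (1 : ℝ) else 0) ∂P = 1 / ((n : ℝ) + 1) := by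
    have : (fun ω => if U n ω = j then (1 : ℝ) else 0) = Set.indicator {ω | U n ω = j} 1 := by
      funext ω; simp [Set.indicator]
    rw [this, integral_indicator_one hms, h.unif]
  rw [h2, mul_comm]

theorem integrable_bdd [IsProbabilityMeasure P] (G : Ω → ℝ) (hG : Measurable G) (C : ℝ)
    (hC : ∀ ω, |G ω| ≤ C) : Integrable G P :=
  Integrable.of_bound hG.aestronglyMeasurable C (ae_of_all _ hC)

theorem tower [IsProbabilityMeasure P] (h : IsUlamKac P U X) (n k : ℕ) (G : Ω → ℝ)
    (hG : Measurable[hist U n] G) (C : ℝ) (hC : ∀ ω, |G ω| ≤ C) :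
    ∫ ω, G ω * (X (U n ω) ω : ℝ) ^ k ∂P
      = 1 / ((n : ℝ) + 1) * ∫ ω, G ω * ∑ j ∈ range (n + 1), (X j ω : ℝ) ^ k ∂P := by
  have hX : ∀ j : ℕ, j ≤ n → Measurable[hist U n] (fun ω => (X j ω : ℝ) ^ k) := by
    intro j hj
    have := meas_X h n j hj
    exact (measurable_from_nat.comp this).pow_const k
  have hb : ∀ (j : ℕ), j ≤ n → ∀ ω, |G ω * (X j ω : ℝ) ^ k| ≤ C * (2 ^ n) ^ k := by
    intro j hj ω
    rw [abs_mul]
    have h1 : |(X j ω : ℝ) ^ k| ≤ (2 ^ n) ^ k := by
      rw [abs_of_nonneg (by positivity)]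
      refine pow_le_pow_left₀ (by positivity) ?_ k
      have h2 := X_le h j ω
      have h3 : 2 ^ j ≤ 2 ^ n := Nat.pow_le_pow_right (by norm_num) hj
      exact_mod_cast h2.trans h3
    have h0 : 0 ≤ C := (abs_nonneg _).trans (hC ω)
    exact mul_le_mul (hC ω) h1 (abs_nonneg _) h0
  have hGm : Measurable G := hG.mono (hist_le h n) le_rfl
  have hXm : ∀ j : ℕ, j ≤ n → Measurable (fun ω => (X j ω : ℝ) ^ k) := fun j hj =>
    (hX j hj).mono (hist_le h n) le_rfl
  have e1 : (fun ω => G ω * (X (U n ω) ω : ℝ) ^ k)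
      = fun ω => ∑ j : Fin (n + 1), (G ω * (X j ω : ℝ) ^ k) * (if U n ω = j then 1 else 0) := by
    funext ω
    simp
  rw [e1, integral_finsetSum]
  · have e2 : ∀ j : Fin (n + 1), ∫ ω, (G ω * (X j ω : ℝ) ^ k) * (if U n ω = j then 1 else 0) ∂P
        = 1 / ((n : ℝ) + 1) * ∫ ω, G ω * (X j ω : ℝ) ^ k ∂P := by
      intro j
      exact integral_choice h n (fun ω => G ω * (X j ω : ℝ) ^ k)
        (hG.mul (hX j (by omega))) j
    rw [sum_congr rfl fun j _ => e2 j, ← mul_sum]
    congr 1
    rw [Fin.sum_univ_eq_sum_range (fun j => ∫ ω, G ω * (X j ω : ℝ) ^ k ∂P) (n + 1),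
      ← integral_finsetSum]
    · congr 1
      funext ω
      rw [mul_sum]
    · intro j hj
      have hj' : j ≤ n := by have := mem_range.1 hj; omega
      exact integrable_bdd _ (hGm.mul (hXm j hj')) _ (hb j hj')
  · intro j _
    have hj' : (j : ℕ) ≤ n := by omega
    have hms : MeasurableSet {ω | U n ω = j} := h.meas n (measurableSet_singleton j)
    have h1m : Measurable (fun ω => if U n ω = j then (1 : ℝ) else 0) :=
      Measurable.ite hms measurable_const measurable_const
    refine integrable_bdd _ ((hGm.mul (hXm j hj')).mul h1m) (C * (2 ^ n) ^ k) ?_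
    intro ω
    rw [abs_mul]
    have h4 := hb j hj' ω
    have h5 : |(if U n ω = j then (1 : ℝ) else 0)| ≤ 1 := by split_ifs <;> simp
    calc _ ≤ |G ω * (X j ω : ℝ) ^ k| * 1 := mul_le_mul_of_nonneg_left h5 (abs_nonneg _)
      _ ≤ _ := by rw [mul_one]; exact h4

end Pool.Agent.V11327.UK
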