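import Pool.Agent.V11327.UKupper

/-! The growth constants of the moments of the Ulam-Kac adder. -/

set_option autoImplicit false

namespace Pool.Agent.V11327.UK

open MeasureTheory ProbabilityTheory Finset Filter Topology

variable {Ω : Type} [mΩ : MeasurableSpace Ω] {P : Measure Ω}
  {U : (n : ℕ) → Ω → Fin (n + 1)} {X : ℕ → Ω → ℕ}

theorem pow_add_ge (x y : ℝ) (hy : 0 ≤ y) (hxy : y ≤ x) (m : ℕ) (hm : 1 ≤ m) :
    x ^ m + (2 ^ m - 1) * y ^ m ≤ (x + y) ^ m := by
  induction m, hm using Nat.le_induction with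
  | base => simp; linarith
  | succ m hm ih =>
    have hx : 0 ≤ x := hy.trans hxy
    have h1 : (x ^ m + (2 ^ m - 1) * y ^ m) * (x + y) ≤ (x + y) ^ m * (x + y) :=
      mul_le_mul_of_nonneg_right ih (by linarith)
    rw [← pow_succ] at h1
    refine le_trans ?_ h1
    have h2 : y ^ m ≤ x ^ m := pow_le_pow_left₀ hy hxy m
    have h3 : (1 : ℝ) ≤ 2 ^ m := one_le_pow₀ (by norm_num)
    have h4 : y ^ m * y ≤ x ^ m * y := mul_le_mul_of_nonneg_right h2 hy
    have h5 : (2 ^ m - 1) * (y ^ m * y) ≤ (2 ^ m - 1) * (y ^ m * x) :=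
      mul_le_mul_of_nonneg_left (mul_le_mul_of_nonneg_left hxy (by positivity)) (by linarith)
    have e1 : x ^ (m + 1) + (2 ^ (m + 1) - 1) * y ^ (m + 1)
        = x ^ m * x + y ^ m * y + 2 * ((2 ^ m - 1) * (y ^ m * y)) := by ring
    have e2 : (x ^ m + (2 ^ m - 1) * y ^ m) * (x + y)
        = x ^ m * x + x ^ m * y + (2 ^ m - 1) * (y ^ m * x) + (2 ^ m - 1) * (y ^ m * y) := by ring
    rw [e1, e2]
    linarith

theorem integrable_pow [IsProbabilityMeasure P] (h : IsUlamKac P U X) (m n : ℕ) :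
    Integrable (fun ω => (X n ω : ℝ) ^ m) P := by
  have := integrable_state h m [] [] n n le_rfl
  simpa only [Pr_nil, mul_one] using this

theorem moment_ge_one [IsProbabilityMeasure P] (h : IsUlamKac P U X) (m n : ℕ) :
    1 ≤ ∫ ω, (X n ω : ℝ) ^ m ∂P := by
  have h1 : ∫ _ω, (1 : ℝ) ∂P ≤ ∫ ω, (X n ω : ℝ) ^ m ∂P := by
    refine integral_mono (integrable_const _) (integrable_pow h m n) fun ω => ?_
    have : (1 : ℝ) ≤ X n ω := by exact_mod_cast X_pos h n ω
    exact one_le_pow₀ this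
  simpa using h1

theorem lower_rec [IsProbabilityMeasure P] (h : IsUlamKac P U X) (m : ℕ) (hm : 1 ≤ m) (n : ℕ) :
    ∫ ω, (X n ω : ℝ) ^ m ∂P + (2 ^ m - 1) / ((n : ℝ) + 1) *
      ∑ j ∈ range (n + 1), ∫ ω, (X j ω : ℝ) ^ m ∂P ≤ ∫ ω, (X (n + 1) ω : ℝ) ^ m ∂P := by
  have h1 := tower h n m (fun _ => 1) measurable_const 1 (fun ω => by simp)
  simp only [one_mul] at h1
  rw [integral_finsetSum _ fun j _ => integrable_pow h m j] at h1
  have hXU : Integrable (fun ω => (X (U n ω) ω : ℝ) ^ m) P := by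
    have e : (fun ω => (X (U n ω) ω : ℝ)) = fun ω => (X (n + 1) ω : ℝ) - (X n ω : ℝ) := by
      funext ω; rw [h.succ]; push_cast; ring
    have m1 : Measurable (fun ω => (X (n + 1) ω : ℝ)) :=
      (measurable_from_nat.comp (meas_X h (n + 1) (n + 1) le_rfl)).mono (hist_le h _) le_rfl
    have m2 : Measurable (fun ω => (X n ω : ℝ)) :=
      (measurable_from_nat.comp (meas_X h n n le_rfl)).mono (hist_le h _) le_rfl
    have m3 : Measurable (fun ω => (X (U n ω) ω : ℝ)) := by rw [e]; exact m1.sub m2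
    refine integrable_bdd _ (m3.pow_const m) ((2 ^ n) ^ m) fun ω => ?_
    rw [abs_of_nonneg (by positivity)]
    exact pow_le_pow_left₀ (by positivity) (X_le_real h (by omega) ω) _
  have h2 : ∫ ω, ((X n ω : ℝ) ^ m + (2 ^ m - 1) * (X (U n ω) ω : ℝ) ^ m) ∂P
      ≤ ∫ ω, (X (n + 1) ω : ℝ) ^ m ∂P := by
    refine integral_mono ((integrable_pow h m n).add (hXU.const_mul _)) (integrable_pow h m (n + 1))
      fun ω => ?_
    simp only
    rw [h.succ]
    push_cast
    refine pow_add_ge _ _ (by positivity) ?_ m hm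
    exact_mod_cast X_mono h ω (Nat.lt_succ_iff.1 (U n ω).2)
  rw [integral_add (integrable_pow h m n) (hXU.const_mul _), integral_const_mul, h1] at h2
  refine le_trans (le_of_eq ?_) h2
  ring

theorem exp_ge_quad (x : ℝ) (hx : 0 ≤ x) : 1 + x + x ^ 2 / 2 ≤ Real.exp x :=
  Real.quadratic_le_exp_of_nonneg hx

/-- the weights for large `m` -/
noncomputable def yy : ℕ → ℝ
  | 0 => 1
  | 1 => 7 / 4
  | 2 => 23 / 10
  | 3 => 7 / 2
  | w + 4 => (w : ℝ) + 4

theorem yy_pos (w : ℕ) : 0 < yy w := by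
  match w with
  | 0 => norm_num [yy]
  | 1 => norm_num [yy]
  | 2 => norm_num [yy]
  | 3 => norm_num [yy]
  | w + 4 => simp only [yy]; positivity

theorem lin_le_pow (w : ℕ) : (w : ℝ) + 5 ≤ 3 / 4 * 2 ^ (w + 4) := by
  induction w with
  | zero => norm_num
  | succ w ih =>
    push_cast
    have h1 : (1 : ℝ) ≤ 2 ^ (w + 4) := one_le_pow₀ (by norm_num)
    have e : (2 : ℝ) ^ (w + 1 + 4) = 2 * 2 ^ (w + 4) := by ring
    rw [e]; linarith

theorem yy_ineq (w : ℕ) : yy (w + 1) / 2 ^ w + w / yy w ≤ 7 / 4 := by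
  match w with
  | 0 => norm_num [yy]
  | 1 => norm_num [yy]
  | 2 => norm_num [yy]
  | 3 => norm_num [yy]
  | w + 4 =>
    have h1 := lin_le_pow w
    simp only [yy]
    have h2 : (((w + 4 : ℕ) : ℝ)) / ((w : ℝ) + 4) = 1 := by
      push_cast; exact div_self (by positivity)
    rw [h2]
    have h3 : (((w + 1 : ℕ) : ℝ) + 4) / 2 ^ (w + 4) ≤ 3 / 4 := by
      rw [div_le_iff₀ (by positivity)]
      push_cast; linarith
    linarith

theorem upper_large [IsProbabilityMeasure P] (h : IsUlamKac P U X) (m : ℕ) :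
    ∃ K : ℝ, 0 < K ∧ ∀ᶠ n : ℕ in atTop,
      ∫ ω, (X n ω : ℝ) ^ m ∂P ≤ K * Real.exp (2 * (7 / 4 * √(2 ^ m)) * √(n : ℝ)) := by
  set t : ℝ := √(2 ^ m) with ht
  have ht0 : 0 < t := Real.sqrt_pos.2 (by positivity)
  have htt : t * t = 2 ^ m := Real.mul_self_sqrt (by positivity)
  refine upper h m (fun w => (∏ i ∈ range w, yy (i + 1)) / t ^ w) (7 / 4 * t) ?_ (by positivity) ?_
  · intro w
    exact div_pos (prod_pos fun i _ => yy_pos _) (by positivity)
  · intro w hw
    set Q : ℝ := (∏ i ∈ range w, yy (i + 1)) / t ^ w with hQ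
    have hQ0 : 0 < Q := div_pos (prod_pos fun i _ => yy_pos _) (by positivity)
    have e1 : (∏ i ∈ range (w + 1), yy (i + 1)) / t ^ (w + 1) = Q * yy (w + 1) / t := by
      rw [prod_range_succ, hQ, pow_succ]; field_simp
    have e2 : (w : ℝ) * ((∏ i ∈ range (w - 1), yy (i + 1)) / t ^ (w - 1)) = Q * (w / yy w) * t := by
      rcases Nat.eq_zero_or_pos w with h0 | h0
      · subst h0; simp
      · obtain ⟨v, rfl⟩ : ∃ v, w = v + 1 := ⟨w - 1, by omega⟩
        have := (yy_pos (v + 1)).ne'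
        rw [hQ, prod_range_succ, Nat.add_sub_cancel, pow_succ]
        field_simp
    rw [e1, e2]
    have h2w : kap m w < t * t / 2 ^ w := by
      unfold kap
      rw [htt]
      have : (2 : ℝ) ^ m / 2 ^ w = 2 ^ (m - w) := by
        rw [div_eq_iff (by positivity), ← pow_add]; congr 1; omega
      rw [this]; linarith
    have hy := yy_pos (w + 1)
    have h3 : kap m w * (Q * yy (w + 1) / t) < t * t / 2 ^ w * (Q * yy (w + 1) / t) :=
      mul_lt_mul_of_pos_right h2w (by positivity)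
    have e3 : t * t / 2 ^ w * (Q * yy (w + 1) / t) = Q * t * (yy (w + 1) / 2 ^ w) := by
      field_simp
    rw [e3] at h3
    have h4 := mul_le_mul_of_nonneg_left (yy_ineq w) (show 0 ≤ Q * t by positivity)
    calc _ < Q * t * (yy (w + 1) / 2 ^ w) + Q * (w / yy w) * t := by linarith
      _ = Q * t * (yy (w + 1) / 2 ^ w + w / yy w) := by ring
      _ ≤ _ := h4
      _ = _ := by ring

theorem upper1 [IsProbabilityMeasure P] (h : IsUlamKac P U X) :
    ∃ K : ℝ, 0 < K ∧ ∀ᶠ n : ℕ in atTop,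
      ∫ ω, (X n ω : ℝ) ^ 1 ∂P ≤ K * Real.exp (2 * (3 / 2) * √(n : ℝ)) := by
  refine upper h 1 (fun _ => 1) (3 / 2) (fun _ => one_pos) (by norm_num) ?_
  intro w hw
  interval_cases w <;> norm_num [kap]

theorem upper2 [IsProbabilityMeasure P] (h : IsUlamKac P U X) :
    ∃ K : ℝ, 0 < K ∧ ∀ᶠ n : ℕ in atTop,
      ∫ ω, (X n ω : ℝ) ^ 2 ∂P ≤ K * Real.exp (2 * (5 / 2) * √(n : ℝ)) := by
  refine upper h 2 (fun w => if w = 0 then 1 else if w = 1 then 0.82 else 0.8) (5 / 2) ?_ (by norm_num) ?_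
  · intro w
    split_ifs <;> norm_num
  · intro w hw
    interval_cases w <;> norm_num [kap]

theorem upper3 [IsProbabilityMeasure P] (h : IsUlamKac P U X) :
    ∃ K : ℝ, 0 < K ∧ ∀ᶠ n : ℕ in atTop,
      ∫ ω, (X n ω : ℝ) ^ 3 ∂P ≤ K * Real.exp (2 * 4 * √(n : ℝ)) := by
  refine upper h 3 (fun w => if w = 0 then 1 else if w = 1 then 0.56 else if w = 2 then 0.41 else 0.4)
    4 ?_ (by norm_num) ?_
  · intro w
    split_ifs <;> norm_num
  · intro w hw
    interval_cases w <;> norm_num [kap]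

theorem upper4 [IsProbabilityMeasure P] (h : IsUlamKac P U X) :
    ∃ K : ℝ, 0 < K ∧ ∀ᶠ n : ℕ in atTop,
      ∫ ω, (X n ω : ℝ) ^ 4 ∂P ≤ K * Real.exp (2 * 6.2 * √(n : ℝ)) := by
  refine upper h 4 (fun w => if w = 0 then 1 else if w = 1 then 0.41 else if w = 2 then 0.22
    else if w = 3 then 0.18 else 0.2) 6.2 ?_ (by norm_num) ?_
  · intro w
    split_ifs <;> norm_num
  · intro w hw
    interval_cases w <;> norm_num [kap]

theorem main [IsProbabilityMeasure P] (h : IsUlamKac P U X) (m : ℕ) (hm : 1 ≤ m) (c : ℝ)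
    (hc : Tendsto (fun n : ℕ => Real.log (∫ ω, (X n ω : ℝ) ^ m ∂P) / √(n : ℝ)) atTop (𝓝 c)) :
    0.3 * (m : ℝ) ≤ Real.log c ∧ Real.log c ≤ 0.4 * (m : ℝ) + 1 := by
  have hmR : (1 : ℝ) ≤ m := by exact_mod_cast hm
  have hpos : ∀ n, 0 < ∫ ω, (X n ω : ℝ) ^ m ∂P := fun n => lt_of_lt_of_le one_pos (moment_ge_one h m n)
  have hlow : Real.exp (0.3 * (m : ℝ)) ≤ c := by
    have h2m : (2 : ℝ) ≤ 2 ^ m := by
      calc (2 : ℝ) = 2 ^ 1 := by norm_num
        _ ≤ 2 ^ m := pow_le_pow_right₀ (by norm_num) hm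
    have h1 : Real.exp (0.3 * (m : ℝ)) ^ 2 < 4 * (2 ^ m - 1) := by
      rw [← Real.exp_nat_mul]
      have h2 : Real.exp (((2 : ℕ) : ℝ) * (0.3 * (m : ℝ))) ≤ 2 ^ m := by
        have h3 : (2 : ℝ) ^ m = Real.exp (m * Real.log 2) := by
          rw [Real.exp_nat_mul, Real.exp_log (by norm_num)]
        rw [h3]
        apply Real.exp_le_exp.2
        have := Real.log_two_gt_d9
        push_cast
        nlinarith
      linarith
    obtain ⟨δ, hδ, hev⟩ := growth_lower (fun n => ∫ ω, (X n ω : ℝ) ^ m ∂P) (2 ^ m - 1)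
      (Real.exp (0.3 * (m : ℝ))) (by linarith) (Real.exp_pos _) h1 hpos (lower_rec h m hm)
    exact exponent_ge _ c δ _ hδ hev hc
  have hc0 : 0 < c := lt_of_lt_of_le (Real.exp_pos _) hlow
  refine ⟨?_, ?_⟩
  · have := Real.log_le_log (Real.exp_pos _) hlow
    rwa [Real.log_exp] at this
  · rw [Real.log_le_iff_le_exp hc0]
    have he1 := Real.exp_one_gt_d9
    have hE : ∀ k : ℕ, (2.7182818283 : ℝ) ^ k ≤ Real.exp k := by
      intro k
      have : Real.exp (k : ℝ) = Real.exp 1 ^ k := by rw [← Real.exp_nat_mul, mul_one]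
      rw [this]
      exact pow_le_pow_left₀ (by norm_num) he1.le k
    rcases Nat.lt_or_ge m 5 with h5 | h5
    · interval_cases m
      · obtain ⟨K, hK, hev⟩ := upper1 h
        refine (exponent_le _ c K _ hK hpos hev hc).trans ?_
        have h1 := exp_ge_quad 0.4 (by norm_num)
        have h2 := hE 1
        have e : Real.exp (0.4 * ((1 : ℕ) : ℝ) + 1) = Real.exp 0.4 * Real.exp ((1 : ℕ) : ℝ) := by
          rw [← Real.exp_add]; norm_num
        rw [e]
        have h3 : (2 : ℝ) * (3 / 2) ≤ (1 + 0.4 + 0.4 ^ 2 / 2) * 2.7182818283 ^ 1 := by norm_num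
        exact h3.trans (mul_le_mul h1 h2 (by norm_num) (Real.exp_pos _).le)
      · obtain ⟨K, hK, hev⟩ := upper2 h
        refine (exponent_le _ c K _ hK hpos hev hc).trans ?_
        have h1 := exp_ge_quad 0.8 (by norm_num)
        have h2 := hE 1
        have e : Real.exp (0.4 * ((2 : ℕ) : ℝ) + 1) = Real.exp 0.8 * Real.exp ((1 : ℕ) : ℝ) := by
          rw [← Real.exp_add]; norm_num
        rw [e]
        have h3 : (2 : ℝ) * (5 / 2) ≤ (1 + 0.8 + 0.8 ^ 2 / 2) * 2.7182818283 ^ 1 := by norm_num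
        exact h3.trans (mul_le_mul h1 h2 (by norm_num) (Real.exp_pos _).le)
      · obtain ⟨K, hK, hev⟩ := upper3 h
        refine (exponent_le _ c K _ hK hpos hev hc).trans ?_
        have h1 := exp_ge_quad 0.2 (by norm_num)
        have h2 := hE 2
        have e : Real.exp (0.4 * ((3 : ℕ) : ℝ) + 1) = Real.exp 0.2 * Real.exp ((2 : ℕ) : ℝ) := by
          rw [← Real.exp_add]; norm_num
        rw [e]
        have h3 : (2 : ℝ) * 4 ≤ (1 + 0.2 + 0.2 ^ 2 / 2) * 2.7182818283 ^ 2 := by norm_num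
        exact h3.trans (mul_le_mul h1 h2 (by norm_num) (Real.exp_pos _).le)
      · obtain ⟨K, hK, hev⟩ := upper4 h
        refine (exponent_le _ c K _ hK hpos hev hc).trans ?_
        have h1 := exp_ge_quad 0.6 (by norm_num)
        have h2 := hE 2
        have e : Real.exp (0.4 * ((4 : ℕ) : ℝ) + 1) = Real.exp 0.6 * Real.exp ((2 : ℕ) : ℝ) := by
          rw [← Real.exp_add]; norm_num
        rw [e]
        have h3 : (2 : ℝ) * 6.2 ≤ (1 + 0.6 + 0.6 ^ 2 / 2) * 2.7182818283 ^ 2 := by norm_num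
        exact h3.trans (mul_le_mul h1 h2 (by norm_num) (Real.exp_pos _).le)
    · obtain ⟨K, hK, hev⟩ := upper_large h m
      refine (exponent_le _ c K _ hK hpos hev hc).trans ?_
      obtain ⟨k, rfl⟩ : ∃ k, m = k + 5 := ⟨m - 5, by omega⟩
      have h1 : (7 / 2 * √(2 ^ (k + 5))) ^ 2 ≤ Real.exp (0.4 * ((k + 5 : ℕ) : ℝ) + 1) ^ 2 := by
        rw [mul_pow, Real.sq_sqrt (by positivity), ← Real.exp_nat_mul]
        have e : Real.exp (((2 : ℕ) : ℝ) * (0.4 * ((k + 5 : ℕ) : ℝ) + 1))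
            = Real.exp (0.8 * k) * Real.exp ((6 : ℕ) : ℝ) := by
          rw [← Real.exp_add]; congr 1; push_cast; ring
        rw [e]
        have h2 : (2 : ℝ) ^ k ≤ Real.exp (0.8 * k) := by
          have h3 : (2 : ℝ) ^ k = Real.exp (k * Real.log 2) := by
            rw [Real.exp_nat_mul, Real.exp_log (by norm_num)]
          rw [h3]
          apply Real.exp_le_exp.2
          have := Real.log_two_lt_d9
          have hk : (0 : ℝ) ≤ k := Nat.cast_nonneg _
          nlinarith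
        have h3 := hE 6
        have h4 : (7 / 2 : ℝ) ^ 2 * 2 ^ 5 ≤ 2.7182818283 ^ 6 := by norm_num
        have e2 : (7 / 2 : ℝ) ^ 2 * 2 ^ (k + 5) = 2 ^ k * ((7 / 2 : ℝ) ^ 2 * 2 ^ 5) := by ring
        rw [e2]
        exact mul_le_mul h2 (h4.trans h3) (by positivity) (Real.exp_pos _).le
      have h2 := le_of_sq_le_sq (a := 7 / 2 * √(2 ^ (k + 5))) h1 (Real.exp_pos _).le
      refine le_trans (le_of_eq ?_) h2
      ring

end Pool.Agent.V11327.UK
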