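import Mathlib

/-! Sequence lemmas for the Ulam-Kac adder. -/

set_option autoImplicit false

namespace Pool.Agent.V11327.UK

open Finset Filter Topology

theorem tendsto_natSqrt : Tendsto (fun n : ℕ => √(n : ℝ)) atTop atTop :=
  Real.tendsto_sqrt_atTop.comp tendsto_natCast_atTop_atTop

theorem sqrt_diff_eq (n : ℕ) : √((n : ℝ) + 1) - √(n : ℝ) = 1 / (√((n : ℝ) + 1) + √(n : ℝ)) := by
  have h1 : 0 < √((n : ℝ) + 1) := Real.sqrt_pos.2 (by positivity)
  have h2 : 0 ≤ √(n : ℝ) := Real.sqrt_nonneg _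
  rw [eq_div_iff (by positivity)]
  have e1 : √((n : ℝ) + 1) * √((n : ℝ) + 1) = n + 1 := Real.mul_self_sqrt (by positivity)
  have e2 : √(n : ℝ) * √(n : ℝ) = n := Real.mul_self_sqrt (by positivity)
  linear_combination e1 - e2

theorem sqrt_diff_pos (n : ℕ) : 0 < √((n : ℝ) + 1) - √(n : ℝ) := by
  rw [sqrt_diff_eq]
  have h1 : 0 < √((n : ℝ) + 1) := Real.sqrt_pos.2 (by positivity)
  positivity

theorem tendsto_ratio : Tendsto (fun n : ℕ => √((n : ℝ) + 1) / √(n : ℝ)) atTop (𝓝 1) := by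
  have h1 : Tendsto (fun n : ℕ => √(1 + 1 / (n : ℝ))) atTop (𝓝 √(1 + 0)) :=
    (Real.continuous_sqrt.tendsto _).comp (tendsto_const_nhds.add tendsto_one_div_atTop_nhds_zero_nat)
  rw [add_zero, Real.sqrt_one] at h1
  refine h1.congr' ?_
  filter_upwards [eventually_ge_atTop 1] with n hn
  have hn0 : (0 : ℝ) < n := by exact_mod_cast hn
  rw [← Real.sqrt_div (by positivity)]
  congr 1
  field_simp

theorem tendsto_sqrt_mul_diff :
    Tendsto (fun n : ℕ => √(n : ℝ) * (√((n : ℝ) + 1) - √(n : ℝ))) atTop (𝓝 (1 / 2)) := by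
  have h1 : Tendsto (fun n : ℕ => 1 / (√((n : ℝ) + 1) / √(n : ℝ) + 1)) atTop (𝓝 (1 / (1 + 1))) :=
    tendsto_const_nhds.div (tendsto_ratio.add tendsto_const_nhds) (by norm_num)
  rw [show (1 : ℝ) / 2 = 1 / (1 + 1) by norm_num]
  refine h1.congr' ?_
  filter_upwards [eventually_ge_atTop 1] with n hn
  have hn0 : (0 : ℝ) < √(n : ℝ) := Real.sqrt_pos.2 (by exact_mod_cast hn)
  have h2 : 0 < √((n : ℝ) + 1) := Real.sqrt_pos.2 (by positivity)
  rw [sqrt_diff_eq]
  field_simp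

theorem tendsto_diff : Tendsto (fun n : ℕ => √((n : ℝ) + 1) - √(n : ℝ)) atTop (𝓝 0) := by
  have h1 : Tendsto (fun n : ℕ => 1 / √(n : ℝ)) atTop (𝓝 0) := by
    simp only [one_div]
    exact tendsto_natSqrt.inv_tendsto_atTop
  have h2 := tendsto_sqrt_mul_diff.mul h1
  rw [mul_zero] at h2
  refine h2.congr' ?_
  filter_upwards [eventually_ge_atTop 1] with n hn
  have hn0 : (0 : ℝ) < √(n : ℝ) := Real.sqrt_pos.2 (by exact_mod_cast hn)
  field_simp

theorem tendsto_sqrt_mul_exp (μ : ℝ) :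
    Tendsto (fun n : ℕ => √(n : ℝ) * (Real.exp (μ * (√((n : ℝ) + 1) - √(n : ℝ))) - 1)) atTop
      (𝓝 (μ / 2)) := by
  have hd : HasDerivAt (fun t : ℝ => Real.exp (μ * t)) μ 0 := by
    have := ((hasDerivAt_id (0 : ℝ)).const_mul μ).exp
    simpa using this
  have h1 := hd.tendsto_slope_zero
  have h2 : Tendsto (fun n : ℕ => √((n : ℝ) + 1) - √(n : ℝ)) atTop (𝓝[≠] 0) := by
    rw [tendsto_nhdsWithin_iff]
    exact ⟨tendsto_diff, Eventually.of_forall fun n => (sqrt_diff_pos n).ne'⟩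
  have h3 := (h1.comp h2).mul tendsto_sqrt_mul_diff
  rw [show μ * (1 / 2) = μ / 2 by ring] at h3
  refine h3.congr fun n => ?_
  have := (sqrt_diff_pos n).ne'
  simp only [Function.comp_apply, smul_eq_mul, zero_add, mul_zero, Real.exp_zero]
  field_simp

theorem tendsto_frac : Tendsto (fun n : ℕ => √(n : ℝ) * (√(n : ℝ) / ((n : ℝ) + 1))) atTop (𝓝 1) := by
  have h1 : Tendsto (fun n : ℕ => (n : ℝ) / ((n : ℝ) + 1)) atTop (𝓝 1) :=
    tendsto_natCast_div_add_atTop (1 : ℝ)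
  refine h1.congr fun n => ?_
  have e2 : √(n : ℝ) * √(n : ℝ) = n := Real.mul_self_sqrt (by positivity)
  rw [mul_div_assoc', e2]

/-- growth from below -/
theorem growth_lower (a : ℕ → ℝ) (κ lam : ℝ) (hκ : 0 < κ) (hlam : 0 < lam) (hlt : lam ^ 2 < 4 * κ)
    (hpos : ∀ n, 0 < a n)
    (hrec : ∀ n : ℕ, a n + κ / ((n : ℝ) + 1) * ∑ j ∈ range (n + 1), a j ≤ a (n + 1)) :
    ∃ δ : ℝ, 0 < δ ∧ ∀ᶠ n : ℕ in atTop, δ * Real.exp (lam * √(n : ℝ)) ≤ a n := by
  obtain ⟨c, hc1, hc2⟩ : ∃ c : ℝ, lam / (2 * κ) < c ∧ c < 2 / lam := by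
    apply _root_.exists_between
    rw [div_lt_div_iff₀ (by positivity) hlam]
    nlinarith
  have hc0 : 0 < c := lt_trans (by positivity) hc1
  have hc1' : lam / 2 < κ * c := by
    rw [div_lt_iff₀ (by positivity)] at hc1
    linarith
  have hc2' : c * (lam / 2) < 1 := by
    rw [lt_div_iff₀ hlam] at hc2
    linarith
  -- (i)
  have hi : ∀ᶠ n : ℕ in atTop, Real.exp (lam * √((n : ℝ) + 1))
      ≤ Real.exp (lam * √(n : ℝ)) * (1 + κ / ((n : ℝ) + 1) * (c * √(n : ℝ))) := by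
    have h1 := tendsto_sqrt_mul_exp lam
    have h2 : Tendsto (fun n : ℕ => κ * c * (√(n : ℝ) * (√(n : ℝ) / ((n : ℝ) + 1)))) atTop
        (𝓝 (κ * c * 1)) := tendsto_const_nhds.mul tendsto_frac
    rw [mul_one] at h2
    filter_upwards [h1.eventually_lt h2 hc1', eventually_ge_atTop 1] with n hn hn1
    have hn0 : (0 : ℝ) < √(n : ℝ) := Real.sqrt_pos.2 (by exact_mod_cast hn1)
    have h3 : Real.exp (lam * (√((n : ℝ) + 1) - √(n : ℝ))) - 1 < κ * c * (√(n : ℝ) / ((n : ℝ) + 1)) := by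
      refine lt_of_mul_lt_mul_left ?_ hn0.le
      calc _ < _ := hn
        _ = _ := by ring
    have h4 : Real.exp (lam * √((n : ℝ) + 1))
        = Real.exp (lam * √(n : ℝ)) * Real.exp (lam * (√((n : ℝ) + 1) - √(n : ℝ))) := by
      rw [← Real.exp_add]; congr 1; ring
    rw [h4]
    refine mul_le_mul_of_nonneg_left ?_ (Real.exp_pos _).le
    have e : κ / ((n : ℝ) + 1) * (c * √(n : ℝ)) = κ * c * (√(n : ℝ) / ((n : ℝ) + 1)) := by ring
    rw [e]; linarith
  -- (ii)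
  have hii : ∀ᶠ n : ℕ in atTop, c * √((n : ℝ) + 1) * Real.exp (lam * √((n : ℝ) + 1))
      ≤ c * √(n : ℝ) * Real.exp (lam * √(n : ℝ)) + Real.exp (lam * √((n : ℝ) + 1)) := by
    have h1 := tendsto_sqrt_mul_exp (-lam)
    have h2 : Tendsto (fun n : ℕ => c * ((√((n : ℝ) + 1) - √(n : ℝ))
        - √(n : ℝ) * (Real.exp (-lam * (√((n : ℝ) + 1) - √(n : ℝ))) - 1))) atTop
        (𝓝 (c * (0 - -lam / 2))) := tendsto_const_nhds.mul (tendsto_diff.sub h1)
    have h3 : c * (0 - -lam / 2) < 1 := by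
      have : c * (0 - -lam / 2) = c * (lam / 2) := by ring
      rw [this]; exact hc2'
    filter_upwards [h2.eventually_lt_const h3] with n hn
    have h4 : Real.exp (lam * √(n : ℝ))
        = Real.exp (lam * √((n : ℝ) + 1)) * Real.exp (-lam * (√((n : ℝ) + 1) - √(n : ℝ))) := by
      rw [← Real.exp_add]; congr 1; ring
    rw [h4]
    have h5 := Real.exp_pos (lam * √((n : ℝ) + 1))
    nlinarith
  obtain ⟨n0, hn0⟩ := eventually_atTop.1 (hi.and hii)
  set S : ℕ → ℝ := fun n => ∑ j ∈ range (n + 1), a j with hS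
  have hSpos : ∀ n, 0 < S n := fun n => sum_pos (fun j _ => hpos j) ⟨0, by simp⟩
  set δ := min (a n0 / Real.exp (lam * √(n0 : ℝ))) (S n0 / (c * √(n0 : ℝ) * Real.exp (lam * √(n0 : ℝ)) + 1)) with hδ
  have hδ0 : 0 < δ := by
    rw [hδ]
    refine lt_min (div_pos (hpos _) (Real.exp_pos _)) (div_pos (hSpos _) (by positivity))
  refine ⟨δ, hδ0, ?_⟩
  have key : ∀ n : ℕ, n0 ≤ n → δ * Real.exp (lam * √(n : ℝ)) ≤ a n ∧
      δ * (c * √(n : ℝ) * Real.exp (lam * √(n : ℝ))) ≤ S n := by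
    intro n hn
    induction n, hn using Nat.le_induction with
    | base =>
      constructor
      · have h1 : δ ≤ a n0 / Real.exp (lam * √(n0 : ℝ)) := min_le_left _ _
        rwa [le_div_iff₀ (Real.exp_pos _)] at h1
      · have h1 : δ ≤ S n0 / (c * √(n0 : ℝ) * Real.exp (lam * √(n0 : ℝ)) + 1) := min_le_right _ _
        rw [le_div_iff₀ (by positivity)] at h1
        nlinarith
    | succ n hn ih =>
      obtain ⟨ih1, ih2⟩ := ih
      obtain ⟨hi', hii'⟩ := hn0 n hn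
      have hA : δ * Real.exp (lam * √((n : ℝ) + 1)) ≤ a (n + 1) := by
        refine le_trans ?_ (hrec n)
        have h1 := mul_le_mul_of_nonneg_left hi' hδ0.le
        have hk : 0 < κ / ((n : ℝ) + 1) := by positivity
        have h2 := mul_le_mul_of_nonneg_left ih2 hk.le
        calc _ ≤ _ := h1
          _ = δ * Real.exp (lam * √(n : ℝ))
            + κ / ((n : ℝ) + 1) * (δ * (c * √(n : ℝ) * Real.exp (lam * √(n : ℝ)))) := by ring
          _ ≤ _ := add_le_add ih1 h2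
      push_cast
      refine ⟨hA, ?_⟩
      have h3 : S (n + 1) = S n + a (n + 1) := by
        rw [hS]; simp only; rw [sum_range_succ _ (n + 1)]
      rw [h3]
      have h1 := mul_le_mul_of_nonneg_left hii' hδ0.le
      calc _ ≤ _ := h1
        _ = δ * (c * √(n : ℝ) * Real.exp (lam * √(n : ℝ))) + δ * Real.exp (lam * √((n : ℝ) + 1)) := by ring
        _ ≤ _ := add_le_add ih2 hA
  filter_upwards [eventually_ge_atTop n0] with n hn using (key n hn).1

/-- from growth bounds to the exponent -/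
theorem exponent_ge (a : ℕ → ℝ) (c δ lam : ℝ) (hδ : 0 < δ)
    (h : ∀ᶠ n : ℕ in atTop, δ * Real.exp (lam * √(n : ℝ)) ≤ a n)
    (hc : Tendsto (fun n : ℕ => Real.log (a n) / √(n : ℝ)) atTop (𝓝 c)) : lam ≤ c := by
  have h1 : Tendsto (fun n : ℕ => Real.log δ / √(n : ℝ) + lam) atTop (𝓝 (0 + lam)) :=
    (tendsto_natSqrt.const_div_atTop _).add_const _
  rw [zero_add] at h1
  refine le_of_tendsto_of_tendsto h1 hc ?_
  filter_upwards [h, eventually_ge_atTop 1] with n hn hn1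
  have hn0 : (0 : ℝ) < √(n : ℝ) := Real.sqrt_pos.2 (by exact_mod_cast hn1)
  rw [div_add' _ _ _ hn0.ne']
  refine div_le_div_of_nonneg_right ?_ hn0.le
  have h2 := Real.log_le_log (by positivity) hn
  rwa [Real.log_mul hδ.ne' (Real.exp_pos _).ne', Real.log_exp] at h2

theorem exponent_le (a : ℕ → ℝ) (c K lam : ℝ) (hK : 0 < K) (hpos : ∀ n, 0 < a n)
    (h : ∀ᶠ n : ℕ in atTop, a n ≤ K * Real.exp (lam * √(n : ℝ)))
    (hc : Tendsto (fun n : ℕ => Real.log (a n) / √(n : ℝ)) atTop (𝓝 c)) : c ≤ lam := by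
  have h1 : Tendsto (fun n : ℕ => Real.log K / √(n : ℝ) + lam) atTop (𝓝 (0 + lam)) :=
    (tendsto_natSqrt.const_div_atTop _).add_const _
  rw [zero_add] at h1
  refine le_of_tendsto_of_tendsto hc h1 ?_
  filter_upwards [h, eventually_ge_atTop 1] with n hn hn1
  have hn0 : (0 : ℝ) < √(n : ℝ) := Real.sqrt_pos.2 (by exact_mod_cast hn1)
  rw [div_add' _ _ _ hn0.ne']
  refine div_le_div_of_nonneg_right ?_ hn0.le
  have h2 := Real.log_le_log (hpos n) hn
  rwa [Real.log_mul hK.ne' (Real.exp_pos _).ne', Real.log_exp] at h2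

end Pool.Agent.V11327.UK
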