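import Pool.Agent.V11327.UKdefs
import Pool.Agent.V11327.UKseq

/-! Mixed moments of the Ulam-Kac adder. -/

set_option autoImplicit false

namespace Pool.Agent.V11327.UK

open MeasureTheory ProbabilityTheory Finset Filter Topology

variable {Ω : Type} [mΩ : MeasurableSpace Ω] {P : Measure Ω}
  {U : (n : ℕ) → Ω → Fin (n + 1)} {X : ℕ → Ω → ℕ}

/-- power sums -/
noncomputable def S (X : ℕ → Ω → ℕ) (b n : ℕ) (ω : Ω) : ℝ := ∑ j ∈ range (n + 1), (X j ω : ℝ) ^ b

/-- products of power sums -/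
noncomputable def Pr (X : ℕ → Ω → ℕ) (bs : List ℕ) (n : ℕ) (ω : Ω) : ℝ :=
  (bs.map fun b => S X b n ω).prod

omit mΩ in
theorem S_nonneg (b n : ℕ) (ω : Ω) : 0 ≤ S X b n ω := sum_nonneg fun _ _ => by positivity

omit mΩ in
theorem Pr_nil (n : ℕ) (ω : Ω) : Pr X [] n ω = 1 := by simp [Pr]

omit mΩ in
theorem Pr_cons (b : ℕ) (bs : List ℕ) (n : ℕ) (ω : Ω) :
    Pr X (b :: bs) n ω = S X b n ω * Pr X bs n ω := by simp [Pr]

omit mΩ in
theorem Pr_nonneg (bs : List ℕ) (n : ℕ) (ω : Ω) : 0 ≤ Pr X bs n ω := by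
  induction bs with
  | nil => rw [Pr_nil]; norm_num
  | cons b bs ih => rw [Pr_cons]; exact mul_nonneg (S_nonneg _ _ _) ih

omit mΩ in
theorem S_succ (b n : ℕ) (ω : Ω) : S X b (n + 1) ω = S X b n ω + (X (n + 1) ω : ℝ) ^ b := by
  unfold S; rw [sum_range_succ _ (n + 1)]

theorem X_le_real (h : IsUlamKac P U X) {j n : ℕ} (hj : j ≤ n) (ω : Ω) : (X j ω : ℝ) ≤ 2 ^ n := by
  have h2 := X_le h j ω
  have h3 : 2 ^ j ≤ 2 ^ n := Nat.pow_le_pow_right (by norm_num) hj
  exact_mod_cast h2.trans h3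

theorem S_le (h : IsUlamKac P U X) (b n : ℕ) (ω : Ω) : S X b n ω ≤ ((n : ℝ) + 1) * (2 ^ n) ^ b := by
  unfold S
  have h1 : ∀ j ∈ range (n + 1), (X j ω : ℝ) ^ b ≤ (2 ^ n) ^ b := by
    intro j hj
    have hj' : j ≤ n := by have := mem_range.1 hj; omega
    exact pow_le_pow_left₀ (by positivity) (X_le_real h hj' ω) b
  refine (sum_le_card_nsmul _ _ _ h1).trans ?_
  rw [card_range, nsmul_eq_mul]
  push_cast
  exact le_rfl

theorem Pr_le (h : IsUlamKac P U X) (bs : List ℕ) (n : ℕ) (ω : Ω) :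
    Pr X bs n ω ≤ ((n : ℝ) + 1) ^ bs.length * (2 ^ n) ^ bs.sum := by
  induction bs with
  | nil => rw [Pr_nil]; simp
  | cons b bs ih =>
    rw [Pr_cons, List.length_cons, List.sum_cons, pow_succ, pow_add]
    calc _ ≤ (((n : ℝ) + 1) * (2 ^ n) ^ b) * (((n : ℝ) + 1) ^ bs.length * (2 ^ n) ^ bs.sum) :=
          mul_le_mul (S_le h b n ω) ih (Pr_nonneg _ _ _) (by positivity)
      _ = _ := by ring

theorem meas_pow (h : IsUlamKac P U X) {j n : ℕ} (hj : j ≤ n) (b : ℕ) :
    Measurable[hist U n] (fun ω => (X j ω : ℝ) ^ b) :=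
  (measurable_from_nat.comp (meas_X h n j hj)).pow_const b

theorem meas_S (h : IsUlamKac P U X) (b n : ℕ) : Measurable[hist U n] (fun ω => S X b n ω) := by
  unfold S
  exact Finset.measurable_sum _ fun j hj => meas_pow h (by have := mem_range.1 hj; omega) b

theorem meas_Pr (h : IsUlamKac P U X) (bs : List ℕ) (n : ℕ) :
    Measurable[hist U n] (fun ω => Pr X bs n ω) := by
  induction bs with
  | nil => simp only [Pr_nil]; exact measurable_const
  | cons b bs ih => simp only [Pr_cons]; exact (meas_S h b n).mul ih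

/-- mixed moments -/
noncomputable def M (P : Measure Ω) (X : ℕ → Ω → ℕ) (a : ℕ) (bs : List ℕ) (n : ℕ) : ℝ :=
  ∫ ω, (X n ω : ℝ) ^ a * Pr X bs n ω ∂P

theorem G_bound (h : IsUlamKac P U X) (a : ℕ) (bs : List ℕ) (n : ℕ) (ω : Ω) :
    |(X n ω : ℝ) ^ a * Pr X bs n ω| ≤ ((n : ℝ) + 1) ^ bs.length * (2 ^ n) ^ (a + bs.sum) := by
  rw [abs_of_nonneg (mul_nonneg (by positivity) (Pr_nonneg _ _ _)), pow_add]
  calc _ ≤ (2 ^ n) ^ a * (((n : ℝ) + 1) ^ bs.length * (2 ^ n) ^ bs.sum) :=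
        mul_le_mul (pow_le_pow_left₀ (by positivity) (X_le_real h le_rfl ω) a) (Pr_le h bs n ω)
          (Pr_nonneg _ _ _) (by positivity)
    _ = _ := by ring

theorem integrable_state [IsProbabilityMeasure P] (h : IsUlamKac P U X) (a : ℕ) (bs cs : List ℕ)
    (n k : ℕ) (hk : k ≤ n) :
    Integrable (fun ω => (X n ω : ℝ) ^ a * Pr X bs k ω * Pr X cs n ω) P := by
  have hm : Measurable (fun ω => (X n ω : ℝ) ^ a * Pr X bs k ω * Pr X cs n ω) :=
    (((meas_pow h le_rfl a).mono (hist_le h n) le_rfl).mul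
      ((meas_Pr h bs k).mono (hist_le h k) le_rfl)).mul
      ((meas_Pr h cs n).mono (hist_le h n) le_rfl)
  refine integrable_bdd _ hm ((2 ^ n) ^ a * (((k : ℝ) + 1) ^ bs.length * (2 ^ k) ^ bs.sum)
    * (((n : ℝ) + 1) ^ cs.length * (2 ^ n) ^ cs.sum)) ?_
  intro ω
  rw [abs_of_nonneg (mul_nonneg (mul_nonneg (by positivity) (Pr_nonneg _ _ _)) (Pr_nonneg _ _ _))]
  exact mul_le_mul (mul_le_mul (pow_le_pow_left₀ (by positivity) (X_le_real h le_rfl ω) a)
    (Pr_le h bs k ω) (Pr_nonneg _ _ _) (by positivity)) (Pr_le h cs n ω) (Pr_nonneg _ _ _)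
    (by positivity)

theorem M_le_start [IsProbabilityMeasure P] (h : IsUlamKac P U X) (a : ℕ) (bs : List ℕ) (n : ℕ) :
    M P X a bs n ≤ ((n : ℝ) + 1) ^ bs.length * (2 ^ n) ^ (a + bs.sum) := by
  unfold M
  have h1 : ∫ ω, (X n ω : ℝ) ^ a * Pr X bs n ω ∂P
      ≤ ∫ ω, ((n : ℝ) + 1) ^ bs.length * (2 ^ n) ^ (a + bs.sum) ∂P := by
    refine integral_mono ?_ (integrable_const _) fun ω => (le_abs_self _).trans (G_bound h a bs n ω)
    have := integrable_state h a bs [] n n le_rfl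
    simpa only [Pr_nil, mul_one] using this
  refine h1.trans (le_of_eq ?_)
  rw [integral_const]; simp

/-- the update of `X` -/
theorem stage1 [IsProbabilityMeasure P] (h : IsUlamKac P U X) (a : ℕ) (bs : List ℕ) (n : ℕ) :
    ∫ ω, (X (n + 1) ω : ℝ) ^ a * Pr X bs n ω ∂P
      = M P X a bs n + 1 / ((n : ℝ) + 1) *
        ∑ k ∈ range a, (a.choose (k + 1) : ℝ) * M P X (a - (k + 1)) ((k + 1) :: bs) n := by
  have hexp : (fun ω => (X (n + 1) ω : ℝ) ^ a * Pr X bs n ω)
      = fun ω => (∑ k ∈ range a, ((a.choose (k + 1) : ℝ) * ((X n ω : ℝ) ^ (a - (k + 1)) * Pr X bs n ω))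
          * (X (U n ω) ω : ℝ) ^ (k + 1)) + (X n ω : ℝ) ^ a * Pr X bs n ω := by
    funext ω
    rw [h.succ]
    push_cast
    rw [add_comm (X n ω : ℝ), add_pow, sum_range_succ', add_mul, sum_mul]
    congr 1
    · refine sum_congr rfl fun k _ => ?_
      ring
    · simp
  have hm : ∀ k, Measurable[hist U n]
      (fun ω => (a.choose (k + 1) : ℝ) * ((X n ω : ℝ) ^ (a - (k + 1)) * Pr X bs n ω)) := fun k =>
    ((meas_pow h le_rfl _).mul (meas_Pr h bs n)).const_mul _
  have hb : ∀ k ω, |(a.choose (k + 1) : ℝ) * ((X n ω : ℝ) ^ (a - (k + 1)) * Pr X bs n ω)|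
      ≤ (a.choose (k + 1) : ℝ) * (((n : ℝ) + 1) ^ bs.length * (2 ^ n) ^ (a - (k + 1) + bs.sum)) := by
    intro k ω
    rw [abs_mul, abs_of_nonneg (by positivity : (0 : ℝ) ≤ (a.choose (k + 1) : ℝ))]
    exact mul_le_mul_of_nonneg_left (G_bound h _ bs n ω) (by positivity)
  have hXU : Measurable (fun ω => (X (U n ω) ω : ℝ)) := by
    have e : (fun ω => (X (U n ω) ω : ℝ)) = fun ω => (X (n + 1) ω : ℝ) - (X n ω : ℝ) := by
      funext ω; rw [h.succ]; push_cast; ring
    rw [e]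
    have m1 : Measurable (fun ω => (X (n + 1) ω : ℝ)) :=
      (measurable_from_nat.comp (meas_X h (n + 1) (n + 1) le_rfl)).mono (hist_le h _) le_rfl
    have m2 : Measurable (fun ω => (X n ω : ℝ)) :=
      (measurable_from_nat.comp (meas_X h n n le_rfl)).mono (hist_le h _) le_rfl
    exact m1.sub m2
  have hXUb : ∀ k ω, |(X (U n ω) ω : ℝ) ^ (k + 1)| ≤ (2 ^ n) ^ (k + 1) := by
    intro k ω
    rw [abs_of_nonneg (by positivity)]
    exact pow_le_pow_left₀ (by positivity) (X_le_real h (by omega) ω) _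
  have hint : ∀ k, Integrable (fun ω => ((a.choose (k + 1) : ℝ) * ((X n ω : ℝ) ^ (a - (k + 1)) * Pr X bs n ω))
          * (X (U n ω) ω : ℝ) ^ (k + 1)) P := by
    intro k
    refine integrable_bdd _ (((hm k).mono (hist_le h n) le_rfl).mul (hXU.pow_const _))
      ((a.choose (k + 1) : ℝ) * (((n : ℝ) + 1) ^ bs.length * (2 ^ n) ^ (a - (k + 1) + bs.sum))
        * (2 ^ n) ^ (k + 1)) ?_
    intro ω
    rw [abs_mul]
    exact mul_le_mul (hb k ω) (hXUb k ω) (abs_nonneg _) (by positivity)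
  have hint2 : Integrable (fun ω => (X n ω : ℝ) ^ a * Pr X bs n ω) P := by
    have := integrable_state h a bs [] n n le_rfl
    simpa only [Pr_nil, mul_one] using this
  rw [hexp, integral_add (integrable_finsetSum _ fun k _ => hint k) hint2,
    integral_finsetSum _ fun k _ => hint k, add_comm]
  congr 1
  rw [mul_sum]
  refine sum_congr rfl fun k _ => ?_
  rw [tower h n (k + 1) _ (hm k) _ (hb k)]
  congr 1
  unfold M
  rw [← integral_const_mul]
  congr 1
  funext ω
  rw [Pr_cons]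
  unfold S
  ring

/-- the recursion for the update of the sums -/
noncomputable def Phi (G : ℕ → ℝ) : ℕ → ℕ → ℝ
  | d, 0 => G d
  | d, r + 1 => Phi G (d + 1) r + Phi G d r

theorem choose_sum (a : ℕ) : ∑ k ∈ range a, (a.choose (k + 1) : ℝ) = 2 ^ a - 1 := by
  have h1 := Nat.sum_range_choose a
  rw [sum_range_succ'] at h1
  have h2 : ((∑ k ∈ range a, a.choose (k + 1) + a.choose 0 : ℕ) : ℝ) = ((2 ^ a : ℕ) : ℝ) := by rw [h1]
  push_cast at h2
  simp only [Nat.choose_zero_right, Nat.cast_one] at h2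
  linarith

theorem length_le_sum (bs : List ℕ) (hb : ∀ b ∈ bs, 1 ≤ b) : bs.length ≤ bs.sum := by
  induction bs with
  | nil => simp
  | cons b bs ih =>
    rw [List.length_cons, List.sum_cons]
    have h1 := ih fun x hx => hb x (List.mem_cons_of_mem _ hx)
    have h2 := hb b List.mem_cons_self
    omega

theorem stage1_le [IsProbabilityMeasure P] (h : IsUlamKac P U X) (m n : ℕ) (D : ℕ → ℝ)
    (hD0 : ∀ w, 0 ≤ D w)
    (hD : ∀ (a : ℕ) (bs : List ℕ), (∀ b ∈ bs, 1 ≤ b) → a + bs.sum = m → M P X a bs n ≤ D bs.length)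
    (a : ℕ) (bs : List ℕ) (hbs : ∀ b ∈ bs, 1 ≤ b) (hsum : a + bs.sum = m) :
    ∫ ω, (X (n + 1) ω : ℝ) ^ a * Pr X bs n ω ∂P
      ≤ D bs.length + (2 ^ (m - bs.length) - 1) / ((n : ℝ) + 1) * D (bs.length + 1) := by
  rw [stage1 h]
  refine add_le_add (hD a bs hbs hsum) ?_
  have h1 : ∑ k ∈ range a, (a.choose (k + 1) : ℝ) * M P X (a - (k + 1)) ((k + 1) :: bs) n
      ≤ ∑ k ∈ range a, (a.choose (k + 1) : ℝ) * D (bs.length + 1) := by
    refine sum_le_sum fun k hk => mul_le_mul_of_nonneg_left ?_ (by positivity)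
    have hk' := mem_range.1 hk
    refine hD _ _ ?_ ?_
    · intro b hb
      rw [List.mem_cons] at hb
      rcases hb with rfl | hb
      · omega
      · exact hbs b hb
    · rw [List.sum_cons]; omega
  rw [← sum_mul, choose_sum] at h1
  have h2 : (2 : ℝ) ^ a ≤ 2 ^ (m - bs.length) := by
    have := length_le_sum bs hbs
    exact pow_le_pow_right₀ (by norm_num) (by omega)
  have h3 : ((2 : ℝ) ^ a - 1) * D (bs.length + 1) ≤ (2 ^ (m - bs.length) - 1) * D (bs.length + 1) :=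
    mul_le_mul_of_nonneg_right (by linarith) (hD0 _)
  have h4 : (0 : ℝ) ≤ 1 / ((n : ℝ) + 1) := by positivity
  calc _ ≤ 1 / ((n : ℝ) + 1) * ((2 ^ (m - bs.length) - 1) * D (bs.length + 1)) :=
        mul_le_mul_of_nonneg_left (h1.trans h3) h4
    _ = _ := by ring

theorem stage2 [IsProbabilityMeasure P] (h : IsUlamKac P U X) (m n : ℕ) (G : ℕ → ℝ)
    (hG : ∀ (a : ℕ) (bs : List ℕ), (∀ b ∈ bs, 1 ≤ b) → a + bs.sum = m →
      ∫ ω, (X (n + 1) ω : ℝ) ^ a * Pr X bs n ω ∂P ≤ G bs.length) :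
    ∀ (rest : List ℕ) (a : ℕ) (bs : List ℕ), (∀ b ∈ bs, 1 ≤ b) → (∀ b ∈ rest, 1 ≤ b) →
      a + bs.sum + rest.sum = m →
      ∫ ω, (X (n + 1) ω : ℝ) ^ a * Pr X bs n ω * Pr X rest (n + 1) ω ∂P
        ≤ Phi G bs.length rest.length := by
  intro rest
  induction rest with
  | nil =>
    intro a bs hbs _ hs
    simp only [Pr_nil, mul_one, List.length_nil, Phi]
    exact hG a bs hbs (by simpa using hs)
  | cons b rest ih =>
    intro a bs hbs hrest hs
    have hb1 : 1 ≤ b := hrest b List.mem_cons_self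
    have hrest' : ∀ x ∈ rest, 1 ≤ x := fun x hx => hrest x (List.mem_cons_of_mem _ hx)
    rw [List.sum_cons] at hs
    have h1 := ih a (b :: bs) (by
      intro x hx
      rw [List.mem_cons] at hx
      rcases hx with rfl | hx
      · exact hb1
      · exact hbs x hx) hrest' (by rw [List.sum_cons]; omega)
    have h2 := ih (a + b) bs hbs hrest' (by omega)
    rw [List.length_cons] at h1
    rw [List.length_cons, Phi]
    refine le_trans (le_of_eq ?_) (add_le_add h1 h2)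
    rw [← integral_add (integrable_state h _ _ _ _ _ (Nat.le_succ n))
      (integrable_state h _ _ _ _ _ (Nat.le_succ n))]
    congr 1
    funext ω
    rw [Pr_cons, Pr_cons, S_succ, pow_add]
    ring

/-! ### The supersolution -/

section super

variable (m : ℕ) (hh : ℕ → ℝ) (Lam : ℝ)

/-- the coefficient `2 ^ (m - w) - 1` -/
noncomputable def kap (m w : ℕ) : ℝ := 2 ^ (m - w) - 1

/-- normalised version of `Phi` -/
noncomputable def phi (n : ℕ) : ℕ → ℕ → ℝ
  | d, 0 => hh d + kap m d * (√(n : ℝ) / ((n : ℝ) + 1)) * hh (d + 1)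
  | d, r + 1 => phi n (d + 1) r + 1 / √(n : ℝ) * phi n d r

theorem Phi_eq (K : ℝ) (n : ℕ) (hn : 1 ≤ n) (r : ℕ) : ∀ d : ℕ,
    Phi (fun w => K * hh w * √(n : ℝ) ^ w * Real.exp (2 * Lam * √(n : ℝ))
      + kap m w / ((n : ℝ) + 1) * (K * hh (w + 1) * √(n : ℝ) ^ (w + 1) * Real.exp (2 * Lam * √(n : ℝ)))) d r
    = K * √(n : ℝ) ^ (d + r) * Real.exp (2 * Lam * √(n : ℝ)) * phi m hh n d r := by
  have hn0 : (0 : ℝ) < √(n : ℝ) := Real.sqrt_pos.2 (by exact_mod_cast hn)
  induction r with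
  | zero =>
    intro d
    simp only [Phi, phi, add_zero]
    rw [pow_succ]
    ring
  | succ r ih =>
    intro d
    simp only [Phi, phi]
    rw [ih (d + 1), ih d]
    have e : √(n : ℝ) ^ (d + (r + 1)) = √(n : ℝ) ^ (d + r) * √(n : ℝ) := by
      rw [← pow_succ]; congr 1
    have e2 : √(n : ℝ) ^ (d + 1 + r) = √(n : ℝ) ^ (d + r) * √(n : ℝ) := by
      rw [← pow_succ]; congr 1; ring
    rw [e, e2]
    field_simp

theorem phi_tendsto (r : ℕ) : ∀ d : ℕ,
    Tendsto (fun n : ℕ => √(n : ℝ) * (phi m hh n d r - hh (d + r))) atTop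
      (𝓝 (kap m (d + r) * hh (d + r + 1) + r * hh (d + r - 1))) := by
  induction r with
  | zero =>
    intro d
    have h1 : Tendsto (fun n : ℕ => kap m d * hh (d + 1) * (√(n : ℝ) * (√(n : ℝ) / ((n : ℝ) + 1)))) atTop
        (𝓝 (kap m d * hh (d + 1) * 1)) := tendsto_const_nhds.mul tendsto_frac
    simp only [phi, add_zero, Nat.cast_zero, zero_mul]
    rw [mul_one] at h1
    refine h1.congr fun n => ?_
    ring
  | succ r ih =>
    intro d
    have h1 := ih (d + 1)
    have h2 := ih d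
    have h0 : Tendsto (fun n : ℕ => 1 / √(n : ℝ)) atTop (𝓝 0) := by
      simp only [one_div]
      exact tendsto_natSqrt.inv_tendsto_atTop
    have h3 : Tendsto (fun n : ℕ => phi m hh n d r) atTop (𝓝 (hh (d + r))) := by
      have h4 := (h0.mul h2).add_const (hh (d + r))
      rw [zero_mul, zero_add] at h4
      refine h4.congr' ?_
      filter_upwards [eventually_ge_atTop 1] with n hn
      have hn0 : (0 : ℝ) < √(n : ℝ) := Real.sqrt_pos.2 (by exact_mod_cast hn)
      field_simp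
      ring
    have h5 := h1.add h3
    have e1 : d + 1 + r = d + (r + 1) := by ring
    have e2 : d + (r + 1) - 1 = d + r := by omega
    rw [e1, e2] at h5
    rw [e2]
    have e3 : kap m (d + (r + 1)) * hh (d + (r + 1) + 1) + (r : ℝ) * hh (d + r) + hh (d + r)
        = kap m (d + (r + 1)) * hh (d + (r + 1) + 1) + ((r + 1 : ℕ) : ℝ) * hh (d + r) := by
      push_cast; ring
    rw [e3] at h5
    refine h5.congr' ?_
    filter_upwards [eventually_ge_atTop 1] with n hn
    have hn0 : (0 : ℝ) < √(n : ℝ) := Real.sqrt_pos.2 (by exact_mod_cast hn)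
    simp only [phi]
    field_simp
    ring

theorem super_eventually (hpos : ∀ w, 0 < hh w)
    (hs : ∀ w, w ≤ m → kap m w * hh (w + 1) + w * hh (w - 1) < Lam * hh w) :
    ∀ᶠ n : ℕ in atTop, ∀ w ∈ range (m + 1),
      phi m hh n 0 w ≤ hh w * Real.exp (2 * Lam * (√((n : ℝ) + 1) - √(n : ℝ))) := by
  rw [eventually_all_finset]
  intro w hw
  have hw' : w ≤ m := by have := mem_range.1 hw; omega
  have h1 := phi_tendsto m hh w 0
  rw [zero_add] at h1
  have h2 : Tendsto (fun n : ℕ => hh w * (√(n : ℝ) *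
      (Real.exp (2 * Lam * (√((n : ℝ) + 1) - √(n : ℝ))) - 1))) atTop (𝓝 (hh w * (2 * Lam / 2))) :=
    tendsto_const_nhds.mul (tendsto_sqrt_mul_exp (2 * Lam))
  have h3 : kap m w * hh (w + 1) + w * hh (w - 1) < hh w * (2 * Lam / 2) := by
    have := hs w hw'
    have e : hh w * (2 * Lam / 2) = Lam * hh w := by ring
    rw [e]; exact this
  have := hpos w
  filter_upwards [h1.eventually_lt h2 h3, eventually_ge_atTop 1] with n hn hn1
  have hn0 : (0 : ℝ) < √(n : ℝ) := Real.sqrt_pos.2 (by exact_mod_cast hn1)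
  have h4 : √(n : ℝ) * phi m hh n 0 w
      < √(n : ℝ) * (hh w * Real.exp (2 * Lam * (√((n : ℝ) + 1) - √(n : ℝ)))) := by linarith
  exact (lt_of_mul_lt_mul_left h4 hn0.le).le

end super

/-- the upper bound: a strict supersolution of the tridiagonal system bounds the growth -/
theorem upper [IsProbabilityMeasure P] (h : IsUlamKac P U X) (m : ℕ) (hh : ℕ → ℝ) (Lam : ℝ)
    (hpos : ∀ w, 0 < hh w) (hLam : 0 < Lam)
    (hs : ∀ w, w ≤ m → kap m w * hh (w + 1) + w * hh (w - 1) < Lam * hh w) :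
    ∃ K : ℝ, 0 < K ∧ ∀ᶠ n : ℕ in atTop,
      ∫ ω, (X n ω : ℝ) ^ m ∂P ≤ K * Real.exp (2 * Lam * √(n : ℝ)) := by
  obtain ⟨n1, hn1⟩ := eventually_atTop.1 (super_eventually m hh Lam hpos hs)
  set n0 := max n1 1 with hn0
  have hn0pos : 1 ≤ n0 := le_max_right _ _
  have hs0 : (0 : ℝ) < √(n0 : ℝ) := Real.sqrt_pos.2 (by exact_mod_cast hn0pos)
  -- the constant
  set B : ℝ := ((n0 : ℝ) + 1) ^ m * (2 ^ n0) ^ m with hB
  have hB0 : 0 < B := by positivity
  set e : ℕ → ℝ := fun w => hh w * √(n0 : ℝ) ^ w * Real.exp (2 * Lam * √(n0 : ℝ)) with he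
  have he0 : ∀ w, 0 < e w := fun w => by have := hpos w; positivity
  set K : ℝ := ∑ w ∈ range (m + 1), B / e w with hK
  have hK0 : 0 < K := sum_pos (fun w _ => div_pos hB0 (he0 w)) ⟨0, by simp⟩
  have hKe : ∀ w ∈ range (m + 1), B ≤ K * e w := by
    intro w hw
    have h1 : B / e w ≤ K := single_le_sum (f := fun w => B / e w)
      (fun i _ => (div_pos hB0 (he0 i)).le) hw
    rwa [div_le_iff₀ (he0 w)] at h1
  have key : ∀ n : ℕ, n0 ≤ n → ∀ (a : ℕ) (bs : List ℕ), (∀ b ∈ bs, 1 ≤ b) → a + bs.sum = m →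
      M P X a bs n ≤ K * hh bs.length * √(n : ℝ) ^ bs.length * Real.exp (2 * Lam * √(n : ℝ)) := by
    intro n hn
    induction n, hn using Nat.le_induction with
    | base =>
      intro a bs hbs hsum
      have hlen := length_le_sum bs hbs
      have h1 := M_le_start h a bs n0
      have h2 : ((n0 : ℝ) + 1) ^ bs.length * (2 ^ n0) ^ (a + bs.sum) ≤ B := by
        rw [hsum, hB]
        refine mul_le_mul_of_nonneg_right ?_ (by positivity)
        refine pow_le_pow_right₀ ?_ (by omega)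
        have : (0 : ℝ) ≤ n0 := Nat.cast_nonneg _
        linarith
      have h3 := hKe bs.length (mem_range.2 (by omega))
      refine h1.trans (h2.trans (h3.trans (le_of_eq ?_)))
      rw [he]; ring
    | succ n hn ih =>
      intro a bs hbs hsum
      have hlen := length_le_sum bs hbs
      have hn1' : 1 ≤ n := hn0pos.trans hn
      have hD0 : ∀ w, 0 ≤ K * hh w * √(n : ℝ) ^ w * Real.exp (2 * Lam * √(n : ℝ)) := fun w => by
        have := hpos w
        positivity
      have h1 := stage2 h m n (fun w => K * hh w * √(n : ℝ) ^ w * Real.exp (2 * Lam * √(n : ℝ))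
        + kap m w / ((n : ℝ) + 1) * (K * hh (w + 1) * √(n : ℝ) ^ (w + 1)
          * Real.exp (2 * Lam * √(n : ℝ)))) (fun a bs hbs hsum => by
            exact stage1_le h m n (fun w => K * hh w * √(n : ℝ) ^ w * Real.exp (2 * Lam * √(n : ℝ)))
              hD0 ih a bs hbs hsum) bs a [] (by simp) hbs (by simpa using hsum)
      rw [Phi_eq m hh Lam K n hn1'] at h1
      simp only [Pr_nil, mul_one, List.length_nil, zero_add] at h1
      refine h1.trans ?_
      have h2 := hn1 n ((le_max_left _ _).trans hn) bs.length (mem_range.2 (by omega))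
      have h3 : K * √(n : ℝ) ^ bs.length * Real.exp (2 * Lam * √(n : ℝ)) * phi m hh n 0 bs.length
          ≤ K * √(n : ℝ) ^ bs.length * Real.exp (2 * Lam * √(n : ℝ)) *
            (hh bs.length * Real.exp (2 * Lam * (√((n : ℝ) + 1) - √(n : ℝ)))) :=
        mul_le_mul_of_nonneg_left h2 (by positivity)
      refine h3.trans ?_
      have h4 : Real.exp (2 * Lam * √(n : ℝ)) * Real.exp (2 * Lam * (√((n : ℝ) + 1) - √(n : ℝ)))
          = Real.exp (2 * Lam * √((n : ℝ) + 1)) := by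
        rw [← Real.exp_add]; congr 1; ring
      have h5 : K * √(n : ℝ) ^ bs.length * Real.exp (2 * Lam * √(n : ℝ)) *
            (hh bs.length * Real.exp (2 * Lam * (√((n : ℝ) + 1) - √(n : ℝ))))
          = K * hh bs.length * √(n : ℝ) ^ bs.length * Real.exp (2 * Lam * √((n : ℝ) + 1)) := by
        rw [← h4]; ring
      rw [h5]
      push_cast
      have h6 : √(n : ℝ) ^ bs.length ≤ √((n : ℝ) + 1) ^ bs.length :=
        pow_le_pow_left₀ (Real.sqrt_nonneg _) (Real.sqrt_le_sqrt (by linarith)) _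
      have := hpos bs.length
      gcongr
  refine ⟨K * hh 0, mul_pos hK0 (hpos 0), ?_⟩
  filter_upwards [eventually_ge_atTop n0] with n hn
  have h1 := key n hn m [] (by simp) (by simp)
  unfold M at h1
  simp only [Pr_nil, mul_one, List.length_nil, pow_zero] at h1
  exact h1

end Pool.Agent.V11327.UK
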