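import Pool.Agent.V11327.WBmain

/-!
Every Borel set of Baire space is given by closed sets with unique sections, and there is no Borel
set which finds the first entry of the unique point of a closed set from a name.
-/

set_option autoImplicit false

namespace Pool.Agent.V11327.UL

open Set Topology Pool.Agent.V11327.WB

/-- `S` is represented by a closed set all of whose sections have one point. -/
def Rep (S : Set B) : Prop :=
  ∃ C : Set (B × B), IsClosed C ∧ ∀ x, ∃ y, {y' | (x, y') ∈ C} = {y} ∧ (y 0 ≠ 0 ↔ x ∈ S)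

theorem cont_coord (k : ℕ) : Continuous (fun z : B × B => z.2 k) :=
  (continuous_apply k).comp continuous_snd

theorem clopen_coord (k : ℕ) (T : Set ℕ) : IsClopen {z : B × B | z.2 k ∈ T} :=
  (isClopen_discrete T).preimage (cont_coord k)

theorem closed_imp {k : ℕ} {Q : Set (B × B)} (hQ : IsClosed Q) :
    IsClosed {z : B × B | z.2 0 = k → z ∈ Q} := by
  have h : {z : B × B | z.2 0 = k → z ∈ Q} = {z : B × B | z.2 0 ∈ ({k}ᶜ : Set ℕ)} ∪ Q := by
    ext z
    simp only [mem_ofPred_eq, mem_union, mem_compl_iff, mem_singleton_iff]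
    tauto
  rw [h]
  exact (clopen_coord 0 _).1.union hQ

theorem rep_open {U : Set B} (hU : IsOpen U) : Rep U := by
  classical
  let Q : Set (List ℕ) := {s | {x : B | rs x s.length = s} ⊆ U}
  have hQ : ∀ x, x ∈ U ↔ ∃ n, rs x n ∈ Q := by
    intro x
    constructor
    · intro hx
      obtain ⟨n, hn⟩ := nhds_rs (hU.mem_nhds hx)
      refine ⟨n, ?_⟩
      intro y hy
      apply hn
      have : rs y (rs x n).length = rs x n := hy
      rwa [rs_length] at this
    · rintro ⟨n, hn⟩
      apply hn
      show rs x (rs x n).length = rs x n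
      rw [rs_length]
  have hcl : ∀ n, IsClopen {z : B × B | rs z.1 n ∈ Q} := fun n =>
    (isClopen_discrete Q).preimage ((continuous_rs n).comp continuous_fst)
  let C1 : Set (B × B) := ⋂ j, {z : B × B | z.2 (j + 1) ∈ ({0} : Set ℕ)}
  let C2 : Set (B × B) := {z : B × B | z.2 0 = 0 → z ∈ ⋂ n, {z : B × B | rs z.1 n ∈ Q}ᶜ}
  let C3 : Set (B × B) := ⋂ n, {z : B × B | z.2 0 = n + 1 → z ∈ {z : B × B | rs z.1 n ∈ Q} ∩
    ⋂ m, ⋂ (_ : m < n), {z : B × B | rs z.1 m ∈ Q}ᶜ}
  have hC1 : IsClosed C1 := isClosed_iInter fun j => (clopen_coord _ _).1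
  have hC2 : IsClosed C2 := closed_imp (isClosed_iInter fun n => (hcl n).compl.1)
  have hC3 : IsClosed C3 := isClosed_iInter fun n => closed_imp
    ((hcl n).1.inter (isClosed_iInter fun m => isClosed_iInter fun _ => (hcl m).compl.1))
  refine ⟨C1 ∩ C2 ∩ C3, (hC1.inter hC2).inter hC3, ?_⟩
  intro x
  have mem1 : ∀ y : B, (x, y) ∈ C1 ↔ ∀ j, y (j + 1) = 0 := by
    intro y; simp [C1]
  have mem2 : ∀ y : B, (x, y) ∈ C2 ↔ (y 0 = 0 → ∀ n, rs x n ∉ Q) := by
    intro y; simp [C2]
  have mem3 : ∀ y : B, (x, y) ∈ C3 ↔
      ∀ n, y 0 = n + 1 → rs x n ∈ Q ∧ ∀ m < n, rs x m ∉ Q := by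
    intro y; simp [C3]
  by_cases hex : ∃ n, rs x n ∈ Q
  · refine ⟨fun j => if j = 0 then Nat.find hex + 1 else 0, ?_, ?_⟩
    · ext y
      simp only [mem_ofPred_eq, mem_singleton_iff, mem_inter_iff, mem1, mem2, mem3]
      constructor
      · rintro ⟨⟨h1, h2⟩, h3⟩
        funext j
        cases j with
        | zero =>
          simp only [if_true]
          rcases Nat.eq_zero_or_pos (y 0) with h0 | h0
          · exact absurd (Nat.find_spec hex) (h2 h0 _)
          · have e1 : y 0 = (y 0 - 1) + 1 := by omega
            obtain ⟨h4, h5⟩ := h3 _ e1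
            have h6 : Nat.find hex = y 0 - 1 := by
              rw [Nat.find_eq_iff]
              exact ⟨h4, fun m hm => h5 m hm⟩
            omega
        | succ j => simp [h1 j]
      · intro h
        subst h
        refine ⟨⟨fun j => by simp, fun h => by simp at h⟩, fun n hn => ?_⟩
        simp only [if_true, Nat.add_right_cancel_iff] at hn
        subst hn
        exact ⟨Nat.find_spec hex, fun m hm => Nat.find_min hex hm⟩
    · simp only [if_true]
      exact ⟨fun _ => (hQ x).2 hex, fun _ => Nat.succ_ne_zero _⟩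
  · refine ⟨fun _ => 0, ?_, ?_⟩
    · ext y
      simp only [mem_ofPred_eq, mem_singleton_iff, mem_inter_iff, mem1, mem2, mem3]
      constructor
      · rintro ⟨⟨h1, h2⟩, h3⟩
        funext j
        cases j with
        | zero =>
          by_contra h0
          have e1 : y 0 = (y 0 - 1) + 1 := by omega
          exact hex ⟨_, (h3 _ e1).1⟩
        | succ j => exact h1 j
      · intro h
        subst h
        refine ⟨⟨fun j => rfl, fun _ n hn => hex ⟨n, hn⟩⟩, fun n hn => ?_⟩
        have hn' : 0 = n + 1 := hn
        omega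
    · constructor
      · intro h; exact absurd rfl h
      · intro h; exact absurd ((hQ x).1 h) hex

theorem rep_compl {S : Set B} (h : Rep S) : Rep Sᶜ := by
  obtain ⟨C, hC, hC2⟩ := h
  have hcont : Continuous (fun z : B × B => ((z.1, fun j => z.2 (j + 1)) : B × B)) :=
    continuous_fst.prodMk (continuous_pi fun j => cont_coord (j + 1))
  have hcont2 : Continuous (fun z : B × B => ((z.2 0, z.2 1) : ℕ × ℕ)) :=
    (cont_coord 0).prodMk (cont_coord 1)
  refine ⟨(fun z : B × B => ((z.1, fun j => z.2 (j + 1)) : B × B)) ⁻¹' C ∩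
    (fun z : B × B => ((z.2 0, z.2 1) : ℕ × ℕ)) ⁻¹' {w | w.1 = if w.2 = 0 then 1 else 0},
    (hC.preimage hcont).inter ((isClosed_discrete _).preimage hcont2), ?_⟩
  intro x
  obtain ⟨y, hy, hy2⟩ := hC2 x
  have hmem : ∀ y', (x, y') ∈ C ↔ y' = y := by
    intro y'
    have : y' ∈ {y' | (x, y') ∈ C} ↔ y' ∈ ({y} : Set B) := by rw [hy]
    exact this
  refine ⟨fun j => match j with | 0 => if y 0 = 0 then 1 else 0 | j + 1 => y j, ?_, ?_⟩
  · ext y'
    simp only [mem_ofPred_eq, mem_singleton_iff, mem_inter_iff, mem_preimage, hmem]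
    constructor
    · rintro ⟨h1, h2⟩
      funext j
      cases j with
      | zero =>
        show y' 0 = if y 0 = 0 then 1 else 0
        rw [h2, ← h1]
      | succ j => exact congrFun h1 j
    · intro h
      subst h
      exact ⟨rfl, rfl⟩
  · show (if y 0 = 0 then 1 else 0) ≠ 0 ↔ x ∈ Sᶜ
    rw [mem_compl_iff, ← hy2]
    by_cases h0 : y 0 = 0 <;> simp [h0]

theorem rep_iUnion {S : ℕ → Set B} (h : ∀ n, Rep (S n)) : Rep (⋃ n, S n) := by
  classical
  choose C hC hC2 using h
  let dec : ℕ → B → B := fun n y j => y (Nat.pair n j + 1)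
  have hdec : ∀ n, Continuous (dec n) := fun n => continuous_pi fun j => continuous_apply _
  have hcz : ∀ n, IsClopen {z : B × B | dec n z.2 0 ∈ ({0} : Set ℕ)} := fun n =>
    (isClopen_discrete _).preimage ((continuous_apply 0).comp ((hdec n).comp continuous_snd))
  let D1 : Set (B × B) := ⋂ n, (fun z : B × B => ((z.1, dec n z.2) : B × B)) ⁻¹' C n
  let D2 : Set (B × B) := {z : B × B | z.2 0 = 0 → z ∈ ⋂ n, {z : B × B | dec n z.2 0 ∈ ({0} : Set ℕ)}}
  let D3 : Set (B × B) := ⋂ n, {z : B × B | z.2 0 = n + 1 →
    z ∈ {z : B × B | dec n z.2 0 ∈ ({0} : Set ℕ)}ᶜ ∩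
      ⋂ m, ⋂ (_ : m < n), {z : B × B | dec m z.2 0 ∈ ({0} : Set ℕ)}}
  have hD1 : IsClosed D1 := isClosed_iInter fun n =>
    (hC n).preimage (continuous_fst.prodMk ((hdec n).comp continuous_snd))
  have hD2 : IsClosed D2 := closed_imp (isClosed_iInter fun n => (hcz n).1)
  have hD3 : IsClosed D3 := isClosed_iInter fun n => closed_imp
    ((hcz n).compl.1.inter (isClosed_iInter fun m => isClosed_iInter fun _ => (hcz m).1))
  refine ⟨D1 ∩ D2 ∩ D3, (hD1.inter hD2).inter hD3, ?_⟩
  intro x
  have hC3 := fun n => hC2 n x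
  choose y hy hy2 using hC3
  have hmem : ∀ n y', (x, y') ∈ C n ↔ y' = y n := by
    intro n y'
    have : y' ∈ {y' | (x, y') ∈ C n} ↔ y' ∈ ({y n} : Set B) := by rw [hy n]
    exact this
  have mem1 : ∀ y' : B, (x, y') ∈ D1 ↔ ∀ n, dec n y' = y n := by
    intro y'; simp only [D1, mem_iInter, mem_preimage, hmem]
  have mem2 : ∀ y' : B, (x, y') ∈ D2 ↔ (y' 0 = 0 → ∀ n, dec n y' 0 = 0) := by
    intro y'; simp [D2]
  have mem3 : ∀ y' : B, (x, y') ∈ D3 ↔
      ∀ n, y' 0 = n + 1 → dec n y' 0 ≠ 0 ∧ ∀ m < n, dec m y' 0 = 0 := by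
    intro y'; simp [D3]
  have hU : x ∈ ⋃ n, S n ↔ ∃ n, y n 0 ≠ 0 := by
    rw [mem_iUnion]
    exact exists_congr fun n => (hy2 n).symm
  have hdecm : ∀ (w : ℕ) (n : ℕ), dec n (fun j => match j with
      | 0 => w | j + 1 => y (Nat.unpair j).1 (Nat.unpair j).2) = y n := by
    intro w n
    funext j
    show y (Nat.unpair (Nat.pair n j)).1 (Nat.unpair (Nat.pair n j)).2 = y n j
    rw [Nat.unpair_pair]
  have hrest : ∀ y' : B, (∀ n, dec n y' = y n) →
      ∀ j, y' (j + 1) = y (Nat.unpair j).1 (Nat.unpair j).2 := by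
    intro y' h j
    rw [← h (Nat.unpair j).1]
    show y' (j + 1) = y' (Nat.pair (Nat.unpair j).1 (Nat.unpair j).2 + 1)
    rw [Nat.pair_unpair]
  by_cases hex : ∃ n, y n 0 ≠ 0
  · refine ⟨fun j => match j with
      | 0 => Nat.find hex + 1 | j + 1 => y (Nat.unpair j).1 (Nat.unpair j).2, ?_, ?_⟩
    · ext y'
      simp only [mem_ofPred_eq, mem_singleton_iff, mem_inter_iff, mem1, mem2, mem3]
      constructor
      · rintro ⟨⟨h1, h2⟩, h3⟩
        funext j
        cases j with
        | zero =>
          show y' 0 = Nat.find hex + 1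
          rcases Nat.eq_zero_or_pos (y' 0) with h0 | h0
          · have := h2 h0 (Nat.find hex)
            rw [h1] at this
            exact absurd this (Nat.find_spec hex)
          · have e1 : y' 0 = (y' 0 - 1) + 1 := by omega
            obtain ⟨h4, h5⟩ := h3 _ e1
            rw [h1] at h4
            have h6 : Nat.find hex = y' 0 - 1 := by
              rw [Nat.find_eq_iff]
              refine ⟨h4, fun m hm => ?_⟩
              have := h5 m hm
              rw [h1] at this
              exact not_not.2 this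
            omega
        | succ j => exact hrest y' h1 j
      · intro h
        subst h
        refine ⟨⟨hdecm (Nat.find hex + 1), fun h => by simp at h⟩, fun n hn => ?_⟩
        have hn' : Nat.find hex + 1 = n + 1 := hn
        have hn2 : Nat.find hex = n := by omega
        subst hn2
        rw [hdecm (Nat.find hex + 1)]
        refine ⟨Nat.find_spec hex, fun m hm => ?_⟩
        rw [hdecm (Nat.find hex + 1)]
        have := Nat.find_min hex hm
        exact not_not.1 this
    · rw [hU]
      exact ⟨fun _ => hex, fun _ => Nat.succ_ne_zero _⟩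
  · refine ⟨fun j => match j with
      | 0 => 0 | j + 1 => y (Nat.unpair j).1 (Nat.unpair j).2, ?_, ?_⟩
    · ext y'
      simp only [mem_ofPred_eq, mem_singleton_iff, mem_inter_iff, mem1, mem2, mem3]
      constructor
      · rintro ⟨⟨h1, h2⟩, h3⟩
        funext j
        cases j with
        | zero =>
          show y' 0 = 0
          by_contra h0
          have e1 : y' 0 = (y' 0 - 1) + 1 := by omega
          have h4 := (h3 _ e1).1
          rw [h1] at h4
          exact hex ⟨_, h4⟩
        | succ j => exact hrest y' h1 j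
      · intro h
        subst h
        refine ⟨⟨hdecm 0, fun _ n => ?_⟩, fun n hn => ?_⟩
        · rw [hdecm 0]
          by_contra h
          exact hex ⟨n, h⟩
        · have hn' : 0 = n + 1 := hn
          omega
    · constructor
      · intro h; exact absurd rfl h
      · intro h; exact absurd (hU.1 h) hex

theorem rep_measurable {S : Set B} (h : MeasurableSet S) : Rep S := by
  induction S, h using MeasurableSet.induction_on_open with
  | isOpen U hU => exact rep_open hU
  | compl t _ ih => exact rep_compl ih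
  | iUnion f _ _ ih => exact rep_iUnion ih

/-! ### Sections -/

/-- The entry belonging to a box. -/
def secw (o : Option (List ℕ × List ℕ)) (x : B) : ℕ :=
  match o with
  | none => 0
  | some w => if rs x w.1.length = w.1 then Encodable.encode w.2 + 1 else 0

/-- One entry of the name of a section. -/
def secv (k : ℕ) (x : B) : ℕ :=
  match k with
  | 0 => 0
  | k + 1 => secw (Encodable.decode k) x

theorem secv_none {k : ℕ} (x : B)
    (h : (Encodable.decode k : Option (List ℕ × List ℕ)) = none) : secv (k + 1) x = 0 := by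
  show secw (Encodable.decode k) x = 0
  rw [h]; rfl

theorem secv_some {k : ℕ} (x : B) {w : List ℕ × List ℕ}
    (h : (Encodable.decode k : Option (List ℕ × List ℕ)) = some w) : secv (k + 1) x =
      if rs x w.1.length = w.1 then Encodable.encode w.2 + 1 else 0 := by
  show secw (Encodable.decode k) x = _
  rw [h]; rfl

/-- The name of the section at `x` of the closed set with code `c`. -/
def sec (c x : B) : B := fun i => secv (c i) x

theorem measurable_secv : Measurable (fun w : ℕ × B => secv w.1 w.2) := by
  apply measurable_from_prod_countable_right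
  intro k
  show Measurable (fun x : B => secv k x)
  cases k with
  | zero => exact measurable_const
  | succ k =>
    rcases h : (Encodable.decode k : Option (List ℕ × List ℕ)) with _ | w
    · have : (fun x : B => secv (k + 1) x) = fun _ => 0 := by
        funext x; exact secv_none x h
      rw [this]; exact measurable_const
    · have : (fun x : B => secv (k + 1) x) =
          fun x => if rs x w.1.length = w.1 then Encodable.encode w.2 + 1 else 0 := by
        funext x; exact secv_some x h
      rw [this]
      exact Measurable.ite (isOpen_rs _ _).measurableSet measurable_const measurable_const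

theorem measurable_sec_diag : Measurable (fun c : B => sec c c) := by
  rw [measurable_pi_iff]
  intro i
  have h2 : Measurable (fun c : B => ((c i, c) : ℕ × B)) :=
    (measurable_pi_apply i).prodMk measurable_id
  exact measurable_secv.comp h2

theorem exists_code {C : Set (B × B)} (hC : IsClosed C) :
    ∃ c : B, ∀ x, named (sec c x) = {y | (x, y) ∈ C} := by
  classical
  let bad : List ℕ × List ℕ → Prop := fun w =>
    ∀ z : B × B, rs z.1 w.1.length = w.1 → rs z.2 w.2.length = w.2 → z ∉ C
  let c : B := fun i => if ∃ w : List ℕ × List ℕ, Encodable.decode i = some w ∧ bad w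
    then i + 1 else 0
  refine ⟨c, fun x => ?_⟩
  ext y
  constructor
  · intro hy
    by_contra hcon
    have hopen : Cᶜ ∈ 𝓝 (x, y) := hC.isOpen_compl.mem_nhds hcon
    rw [nhds_prod_eq, Filter.mem_prod_iff] at hopen
    obtain ⟨U, hU, V, hV, hUV⟩ := hopen
    obtain ⟨n1, hn1⟩ := nhds_rs hU
    obtain ⟨n2, hn2⟩ := nhds_rs hV
    have hbad : bad (rs x n1, rs y n2) := by
      intro z h1 h2
      have h1' : rs z.1 n1 = rs x n1 := by simpa using h1
      have h2' : rs z.2 n2 = rs y n2 := by simpa using h2
      exact hUV ⟨hn1 h1', hn2 h2'⟩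
    have hi := hy (Encodable.encode (rs x n1, rs y n2))
    apply hi
    have hc : c (Encodable.encode (rs x n1, rs y n2)) =
        Encodable.encode (rs x n1, rs y n2) + 1 := by
      show (if _ then _ else _) = _
      rw [if_pos]
      exact ⟨_, Encodable.encodek _, hbad⟩
    show y ∈ bas (secv (c (Encodable.encode (rs x n1, rs y n2))) x)
    rw [hc]
    have hs : secv (Encodable.encode (rs x n1, rs y n2) + 1) x =
        Encodable.encode (rs y n2) + 1 := by
      rw [secv_some x (Encodable.encodek (rs x n1, rs y n2)), if_pos]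
      rw [rs_length]
    rw [hs, bas_code]
    show rs y (rs y n2).length = rs y n2
    rw [rs_length]
  · intro hy i hi
    have hi' : y ∈ bas (secv (c i) x) := hi
    by_cases hex : ∃ w : List ℕ × List ℕ, Encodable.decode i = some w ∧ bad w
    · have hc : c i = i + 1 := if_pos hex
      obtain ⟨w, hw, hb⟩ := hex
      rw [hc] at hi'
      by_cases hr : rs x w.1.length = w.1
      · have hs : secv (i + 1) x = Encodable.encode w.2 + 1 := by
          rw [secv_some x hw, if_pos hr]
        rw [hs, bas_code] at hi'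
        exact hb (x, y) hr hi' hy
      · have hs : secv (i + 1) x = 0 := by
          rw [secv_some x hw, if_neg hr]
        rw [hs] at hi'
        exact hi'
    · have hc : c i = 0 := if_neg hex
      rw [hc] at hi'
      exact hi'

/-- No Borel set finds the first entry of the unique point of a closed set. -/
theorem no_borel (M : Set B) (hM : MeasurableSet M) :
    ¬ ∀ p x, named p = {x} → (p ∈ M ↔ x 0 = 0) := by
  intro h
  have hS : MeasurableSet {c : B | sec c c ∈ M} := measurable_sec_diag hM
  obtain ⟨C, hC, hC2⟩ := rep_measurable hS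
  obtain ⟨c, hc⟩ := exists_code hC
  obtain ⟨y, hy, hy2⟩ := hC2 c
  have h1 : named (sec c c) = {y} := (hc c).trans hy
  have h2 := h _ _ h1
  have h3 : c ∈ {c : B | sec c c ∈ M} ↔ y 0 = 0 := h2
  by_cases h0 : y 0 = 0
  · exact (hy2.2 (h3.2 h0)) h0
  · exact h0 (h3.1 (hy2.1 h0))

end Pool.Agent.V11327.UL
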