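import Pool.Agent.V11327.WBmain
import Pool.Agent.V11327.ULrep

/-!
Listing the points of a countable closed subset of Cantor space, twice.
-/

set_option autoImplicit false

namespace Pool.Agent.V11327.UL

open Set Topology Pool.Agent.V11327.WB

/-- Cantor space, as a subset of Baire space. -/
def cantor : Set B := {x | ∀ i, x i = 0 ∨ x i = 1}

/-- The problem `List` on Cantor space: given a name of a countable closed subset `A` of Cantor
space (a list of cylinders whose union is the complement), find a sequence `(b_i, x_i)` in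
`{0,1} × Cantor` with `A = {x_i : b_i = 1}`. -/
def listC : Prob where
  inst := {p | (named p ∩ cantor).Countable}
  sol p := {z | (∀ i, (bit z i = 0 ∨ bit z i = 1) ∧ pt z i ∈ cantor) ∧
    {x | ∃ i, bit z i = 1 ∧ pt z i = x} = named p ∩ cantor}

/-- Unique choice on Baire space. -/
def ucBaire : Prob where
  inst := {p | ∃ x, named p = {x}}
  sol p := named p

/-- The composition `f ∘ g` of two problems. -/
def comp (f g : Prob) : Prob where
  inst := {p | p ∈ g.inst ∧ g.sol p ⊆ f.inst}
  sol p := {r | ∃ q ∈ g.sol p, r ∈ f.sol q}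

/-! ### Blocks -/

/-- The names `z` and `w` have the same first `m` blocks. -/
def Agree (m : ℕ) (z w : B) : Prop := ∀ n, (Nat.unpair n).1 < m → z n = w n

theorem Agree.mono {m m' : ℕ} {z w : B} (h : Agree m z w) (hm : m' ≤ m) : Agree m' z w :=
  fun n hn => h n (lt_of_lt_of_le hn hm)

theorem Agree.trans {m : ℕ} {z w v : B} (h : Agree m z w) (h' : Agree m w v) : Agree m z v :=
  fun n hn => (h n hn).trans (h' n hn)

theorem Agree.rs_eq {m N : ℕ} {z w : B} (h : Agree m z w) (hN : N ≤ m) : rs z N = rs w N := by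
  rw [rs_eq_iff]
  intro i hi
  apply h
  have := Nat.unpair_left_le i
  omega

theorem Agree.bit_eq {m i : ℕ} {z w : B} (h : Agree m z w) (hi : i < m) : bit z i = bit w i := by
  apply h
  rw [Nat.unpair_pair]; exact hi

theorem Agree.pt_eq {m i : ℕ} {z w : B} (h : Agree m z w) (hi : i < m) : pt z i = pt w i := by
  funext j
  apply h
  rw [Nat.unpair_pair]; exact hi

/-- The first `m` blocks of `w` are correct for the closed set named by `q`. -/
def Okw (q : B) (m : ℕ) (w : B) : Prop :=
  w ∈ cantor ∧ ∀ i < m, bit w i = 1 → pt w i ∈ named q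

theorem pt_cantor {w : B} (h : w ∈ cantor) (i : ℕ) : pt w i ∈ cantor := fun _ => h _

theorem Okw.congr {q : B} {m : ℕ} {z w : B} (h : Okw q m w) (ha : Agree m z w)
    (hz : z ∈ cantor) : Okw q m z := by
  refine ⟨hz, fun i hi hb => ?_⟩
  rw [ha.pt_eq hi]
  apply h.2 i hi
  rw [← ha.bit_eq hi]; exact hb

theorem okw_of_sol {q z : B} (h : z ∈ listC.sol q) (m : ℕ) : Okw q m z := by
  obtain ⟨h1, h2⟩ := h
  constructor
  · intro n
    have e := Nat.pair_unpair n
    rcases hj : (Nat.unpair n).2 with _ | j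
    · have := (h1 (Nat.unpair n).1).1
      unfold bit at this
      rw [hj] at e
      rw [e] at this
      exact this
    · have := (h1 (Nat.unpair n).1).2 j
      unfold pt at this
      rw [hj] at e
      rw [e] at this
      exact this
  · intro i _ hb
    have : pt z i ∈ {x | ∃ i, bit z i = 1 ∧ pt z i = x} := ⟨i, hb, rfl⟩
    rw [h2] at this
    exact this.1

/-- A sequence of blocks which together list the set. -/
theorem exists_blocks {q : B} (hq : q ∈ listC.inst) :
    ∃ g : ℕ → B, (∀ k, g k ∈ cantor ∧ (g k 0 = 1 → (fun j => g k (j + 1)) ∈ named q)) ∧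
      ∀ x ∈ named q ∩ cantor, ∃ k, g k 0 = 1 ∧ (fun j => g k (j + 1)) = x := by
  by_cases hne : (named q ∩ cantor).Nonempty
  · obtain ⟨f, hf⟩ := Set.Countable.exists_eq_range hq hne
    have hmem : ∀ k, f k ∈ named q ∩ cantor := by
      intro k; rw [hf]; exact mem_range_self k
    refine ⟨fun k j => match j with | 0 => 1 | j + 1 => f k j, ?_, ?_⟩
    · intro k
      refine ⟨fun j => ?_, fun _ => (hmem k).1⟩
      cases j with
      | zero => exact Or.inr rfl
      | succ j => exact (hmem k).2 j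
    · intro x hx
      rw [hf] at hx
      obtain ⟨k, hk⟩ := hx
      exact ⟨k, rfl, hk⟩
  · refine ⟨fun _ _ => 0, fun k => ⟨fun j => Or.inl rfl, fun h => by simp at h⟩, ?_⟩
    intro x hx
    exact absurd ⟨x, hx⟩ hne

theorem mem_sol_of {q z : B} (h : ∀ m, Okw q m z)
    (h' : ∀ x ∈ named q ∩ cantor, ∃ i, bit z i = 1 ∧ pt z i = x) : z ∈ listC.sol q := by
  refine ⟨fun i => ⟨(h 0).1 _, pt_cantor (h 0).1 i⟩, ?_⟩
  ext x
  constructor
  · rintro ⟨i, hb, rfl⟩
    exact ⟨(h (i + 1)).2 i (Nat.lt_succ_self i) hb, pt_cantor (h 0).1 i⟩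
  · intro hx
    exact h' x hx

/-- Correct blocks can be completed to a correct list. -/
theorem exists_ext {q : B} (hq : q ∈ listC.inst) {m : ℕ} {w : B} (hw : Okw q m w) :
    ∃ z ∈ listC.sol q, Agree m z w := by
  obtain ⟨g, hg1, hg2⟩ := exists_blocks hq
  let z : B := fun n => if (Nat.unpair n).1 < m then w n
    else g ((Nat.unpair n).1 - m) (Nat.unpair n).2
  have hag : Agree m z w := fun n hn => if_pos hn
  have hzc : z ∈ cantor := by
    intro n
    by_cases h : (Nat.unpair n).1 < m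
    · rw [hag n h]; exact hw.1 n
    · have : z n = g ((Nat.unpair n).1 - m) (Nat.unpair n).2 := if_neg h
      rw [this]
      exact (hg1 _).1 _
  have hbig : ∀ i j, m ≤ i → z (Nat.pair i j) = g (i - m) j := by
    intro i j hi
    show (if _ then _ else _) = _
    rw [Nat.unpair_pair, if_neg (not_lt.2 hi)]
  refine ⟨z, mem_sol_of ?_ ?_, hag⟩
  · intro m'
    refine ⟨hzc, fun i _ hb => ?_⟩
    rcases Nat.lt_or_ge i m with h | h
    · rw [hag.pt_eq h]
      apply hw.2 i h
      rw [← hag.bit_eq h]; exact hb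
    · have e1 : pt z i = fun j => g (i - m) (j + 1) := by
        funext j; exact hbig i (j + 1) h
      rw [e1]
      apply (hg1 (i - m)).2
      rw [← hbig i 0 h]; exact hb
  · intro x hx
    obtain ⟨k, hk1, hk2⟩ := hg2 x hx
    refine ⟨m + k, ?_, ?_⟩
    · show z (Nat.pair (m + k) 0) = 1
      rw [hbig _ _ (Nat.le_add_right m k), Nat.add_sub_cancel_left]
      exact hk1
    · rw [← hk2]
      funext j
      show z (Nat.pair (m + k) (j + 1)) = _
      rw [hbig _ _ (Nat.le_add_right m k), Nat.add_sub_cancel_left]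

/-! ### The relation `R1` -/

/-- Some `w` with initial segment `ρ` has its first `m` blocks correct. -/
def R1 (q : B) (m N : ℕ) (ρ : List ℕ) : Prop := ∃ w, Okw q m w ∧ rs w N = ρ

theorem isCompact_cantor : IsCompact cantor := by
  have h : cantor = Set.pi univ (fun _ : ℕ => ({0, 1} : Set ℕ)) := by
    ext x; simp [cantor, Set.mem_pi]
  rw [h]
  exact isCompact_univ_pi fun _ => (Set.toFinite _).isCompact

theorem isClosed_mem_named : IsClosed {w : B × B | w.2 ∈ named w.1} := by
  have h : {w : B × B | w.2 ∈ named w.1} = ⋂ i, ⋂ k,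
      ({w : B × B | w.1 i ∈ ({k}ᶜ : Set ℕ)} ∪ {w : B × B | w.2 ∈ (bas k)ᶜ}) := by
    ext w
    simp only [mem_ofPred_eq, mem_iInter, mem_union, mem_compl_iff, mem_singleton_iff]
    constructor
    · intro h i k
      by_cases hk : w.1 i = k
      · right; rw [← hk]; exact h i
      · left; exact hk
    · intro h i
      rcases h i (w.1 i) with h1 | h1
      · exact absurd rfl h1
      · exact h1
  rw [h]
  refine isClosed_iInter fun i => isClosed_iInter fun k => IsClosed.union ?_ ?_
  · exact (isClosed_discrete _).preimage ((continuous_apply i).comp continuous_fst)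
  · exact (isOpen_bas k).isClosed_compl.preimage continuous_snd

theorem continuous_pt (i : ℕ) : Continuous (fun z : B => pt z i) :=
  continuous_pi fun _ => continuous_apply _

theorem isClosed_okw (m : ℕ) : IsClosed {v : B × B | ∀ i < m, bit v.2 i = 1 → pt v.2 i ∈ named v.1} := by
  have h : {v : B × B | ∀ i < m, bit v.2 i = 1 → pt v.2 i ∈ named v.1} = ⋂ i, ⋂ (_ : i < m),
      ({v : B × B | v.2 (Nat.pair i 0) ∈ ({1}ᶜ : Set ℕ)} ∪
        (fun v : B × B => ((v.1, pt v.2 i) : B × B)) ⁻¹' {w : B × B | w.2 ∈ named w.1}) := by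
    ext v
    simp only [mem_ofPred_eq, mem_iInter, mem_union, mem_compl_iff, mem_singleton_iff,
      mem_preimage]
    constructor
    · intro h i hi
      by_cases hb : v.2 (Nat.pair i 0) = 1
      · right; exact h i hi hb
      · left; exact hb
    · intro h i hi hb
      rcases h i hi with h1 | h1
      · exact absurd hb h1
      · exact h1
  rw [h]
  refine isClosed_iInter fun i => isClosed_iInter fun _ => IsClosed.union ?_ ?_
  · exact (clopen_coord _ _).1
  · exact isClosed_mem_named.preimage (continuous_fst.prodMk ((continuous_pt i).comp continuous_snd))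

theorem isClosed_R1 (m N : ℕ) (ρ : List ℕ) : IsClosed {q : B | R1 q m N ρ} := by
  have : CompactSpace cantor := isCompact_iff_compactSpace.1 isCompact_cantor
  have hmap : IsClosedMap (Prod.fst : B × cantor → B) := isClosedMap_fst_of_compactSpace
  let T : Set (B × cantor) := (fun v : B × cantor => ((v.1, (v.2 : B)) : B × B)) ⁻¹'
    ({v : B × B | ∀ i < m, bit v.2 i = 1 → pt v.2 i ∈ named v.1} ∩ {v : B × B | rs v.2 N = ρ})
  have hT : IsClosed T := by
    apply IsClosed.preimage
    · exact continuous_fst.prodMk (continuous_subtype_val.comp continuous_snd)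
    · exact (isClosed_okw m).inter ((isClosed_rs N ρ).preimage continuous_snd)
  have h : {q : B | R1 q m N ρ} = Prod.fst '' T := by
    ext q
    constructor
    · rintro ⟨w, ⟨hw1, hw2⟩, hw3⟩
      exact ⟨(q, ⟨w, hw1⟩), ⟨hw2, hw3⟩, rfl⟩
    · rintro ⟨⟨q', w⟩, ⟨h1, h2⟩, rfl⟩
      exact ⟨w, ⟨w.2, h1⟩, h2⟩
  rw [h]
  exact hmap _ hT

theorem exists_sol_of_R1 {q : B} (hq : q ∈ listC.inst) {N : ℕ} {σ : List ℕ}
    (h : R1 q N N σ) : ∃ z ∈ listC.sol q, rs z N = σ := by
  obtain ⟨w, hw, hσ⟩ := h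
  obtain ⟨z, hz, hag⟩ := exists_ext hq hw
  exact ⟨z, hz, (hag.rs_eq le_rfl).trans hσ⟩

/-! ### Neighbourhoods in products -/

theorem rs_mono {x y : B} {n m : ℕ} (h : rs x n = rs y n) (hm : m ≤ n) : rs x m = rs y m := by
  rw [rs_eq_iff] at h ⊢
  exact fun i hi => h i (lt_of_lt_of_le hi hm)

theorem nhds2 {w : B × B} {U : Set (B × B)} (hU : U ∈ 𝓝 w) :
    ∃ n, ∀ w' : B × B, rs w'.1 n = rs w.1 n → rs w'.2 n = rs w.2 n → w' ∈ U := by
  obtain ⟨a, b⟩ := w
  rw [nhds_prod_eq, Filter.mem_prod_iff] at hU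
  obtain ⟨U1, hU1, U2, hU2, hUV⟩ := hU
  obtain ⟨n1, hn1⟩ := nhds_rs hU1
  obtain ⟨n2, hn2⟩ := nhds_rs hU2
  refine ⟨max n1 n2, fun w' h1 h2 => hUV ⟨hn1 ?_, hn2 ?_⟩⟩
  · exact rs_mono h1 (le_max_left _ _)
  · exact rs_mono h2 (le_max_right _ _)

theorem nhds3 {v : (B × B) × B} {U : Set ((B × B) × B)} (hU : U ∈ 𝓝 v) :
    ∃ n, ∀ v' : (B × B) × B, rs v'.1.1 n = rs v.1.1 n → rs v'.1.2 n = rs v.1.2 n →
      rs v'.2 n = rs v.2 n → v' ∈ U := by
  obtain ⟨a, b⟩ := v
  rw [nhds_prod_eq, Filter.mem_prod_iff] at hU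
  obtain ⟨U1, hU1, U2, hU2, hUV⟩ := hU
  obtain ⟨n1, hn1⟩ := nhds2 hU1
  obtain ⟨n2, hn2⟩ := nhds_rs hU2
  refine ⟨max n1 n2, fun v' h1 h2 h3 => hUV ⟨hn1 _ ?_ ?_, hn2 ?_⟩⟩
  · exact rs_mono h1 (le_max_left _ _)
  · exact rs_mono h2 (le_max_left _ _)
  · exact rs_mono h3 (le_max_right _ _)

/-- `w` and `w'` agree at the places below `N` in the first `m` blocks. -/
def Agr (m N : ℕ) (w w' : B) : Prop := ∀ n < N, (Nat.unpair n).1 < m → w n = w' n

open Classical in
/-- A point with a given initial segment. -/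
noncomputable def ofL (ρ : List ℕ) : B :=
  if h : ∃ w, rs w ρ.length = ρ then h.choose else fun _ => 0

theorem rs_ofL (w : B) (N : ℕ) : rs (ofL (rs w N)) N = rs w N := by
  have hex : ∃ w', rs w' (rs w N).length = rs w N := ⟨w, by rw [rs_length]⟩
  have h := hex.choose_spec
  have e : ofL (rs w N) = hex.choose := dif_pos hex
  rw [e]
  have h2 : rs hex.choose (rs w N).length = rs hex.choose N := congrArg _ (rs_length w N)
  exact h2.symm.trans h

end Pool.Agent.V11327.UL
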