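import Pool.Agent.V11327.ULmain

/-!
Compositional products and the final statements.
-/

set_option autoImplicit false

namespace Pool.Agent.V11327.UL

open Set Topology Pool.Agent.V11327.WB

/-- `h` is a compositional product of `f` and `g`: it is, up to Weihrauch equivalence, the largest
of all `f₀ ∘ g₀` with `f₀` reducible to `f` and `g₀` reducible to `g`. -/
def IsStar (h f g : Prob) : Prop :=
  (∃ f₀ g₀, WReducible f₀ f ∧ WReducible g₀ g ∧ WReducible h (comp f₀ g₀) ∧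
    WReducible (comp f₀ g₀) h) ∧
  ∀ f₀ g₀, WReducible f₀ f → WReducible g₀ g → WReducible (comp f₀ g₀) h

theorem ContReducible.trans {f g h : Prob} (h1 : ContReducible f g) (h2 : ContReducible g h) :
    ContReducible f h := by
  obtain ⟨Φ, Ψ, cΦ, cΨ, r⟩ := h1
  obtain ⟨Φ', Ψ', cΦ', cΨ', r'⟩ := h2
  refine ⟨fun p => Φ' (Φ p), fun w => Ψ (w.1, Ψ' (Φ w.1, w.2)), ?_, ?_, ?_⟩
  · exact cΦ'.comp cΦ fun p hp => (r p hp).1
  · have m1 : MapsTo (fun w : B × B => ((Φ w.1, w.2) : B × B))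
        (dom2 (fun p => Φ' (Φ p)) f h) (dom2 Φ' g h) := fun w hw => ⟨(r _ hw.1).1, hw.2⟩
    have k1 : ContinuousOn (fun w : B × B => ((Φ w.1, w.2) : B × B))
        (dom2 (fun p => Φ' (Φ p)) f h) :=
      (cΦ.comp continuousOn_fst fun w hw => hw.1).prodMk continuousOn_snd
    have k2 := cΨ'.comp k1 m1
    refine cΨ.comp (continuousOn_fst.prodMk k2) ?_
    intro w hw
    exact ⟨hw.1, (r' _ (r _ hw.1).1).2 _ hw.2⟩
  · intro p hp
    refine ⟨(r' _ (r p hp).1).1, fun q hq => ?_⟩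
    exact (r p hp).2 _ ((r' _ (r p hp).1).2 q hq)

theorem not_cont {f₀ g₀ : Prob} (hf : ContReducible f₀ listC) (hg : ContReducible g₀ listC) :
    ¬ ContReducible ucBaire (comp f₀ g₀) := by
  rintro ⟨Φ, Ψ, cΦ, cΨ, r⟩
  obtain ⟨Φ1, Ψ1, cΦ1, cΨ1, r1⟩ := hf
  obtain ⟨Φ2, Ψ2, cΦ2, cΨ2, r2⟩ := hg
  let K1 : B → B := fun p => Φ2 (Φ p)
  let Q : B × B → B := fun w => Ψ2 (Φ w.1, w.2)
  let K2 : B × B → B := fun w => Φ1 (Q w)
  let R : (B × B) × B → B := fun v => Ψ1 (Q v.1, v.2)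
  let H : (B × B) × B → B := fun v => Ψ (v.1.1, R v)
  have a1 : ∀ p ∈ ucBaire.inst, Φ p ∈ g₀.inst := fun p hp => (r p hp).1.1
  have a2 : ∀ w ∈ E1 K1, Q w ∈ g₀.sol (Φ w.1) := fun w hw => (r2 _ (a1 _ hw.1)).2 _ hw.2
  have a3 : ∀ w ∈ E1 K1, Q w ∈ f₀.inst := fun w hw => (r _ hw.1).1.2 (a2 w hw)
  have a4 : ∀ v ∈ E2 K1 K2, R v ∈ f₀.sol (Q v.1) := fun v hv => (r1 _ (a3 _ hv.1)).2 _ hv.2
  have a5 : ∀ v ∈ E2 K1 K2, R v ∈ (comp f₀ g₀).sol (Φ v.1.1) := fun v hv =>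
    ⟨Q v.1, a2 _ hv.1, a4 v hv⟩
  have k1 : ContinuousOn (fun w : B × B => ((Φ w.1, w.2) : B × B)) (E1 K1) :=
    (cΦ.comp continuousOn_fst fun w hw => hw.1).prodMk continuousOn_snd
  have kQ : ContinuousOn Q (E1 K1) := cΨ2.comp k1 fun w hw => ⟨a1 _ hw.1, hw.2⟩
  have kQ' : ContinuousOn (fun v : (B × B) × B => ((Q v.1, v.2) : B × B)) (E2 K1 K2) :=
    (kQ.comp continuousOn_fst fun v hv => hv.1).prodMk continuousOn_snd
  have kR : ContinuousOn R (E2 K1 K2) := cΨ1.comp kQ' fun v hv => ⟨a3 _ hv.1, hv.2⟩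
  refine no_two_lists (K1 := K1) (K2 := K2) (H := H) ?_ ?_ ?_ ?_ ?_ ?_
  · exact fun p hp => (r2 _ (a1 p hp)).1
  · exact fun w hw => (r1 _ (a3 w hw)).1
  · exact fun v hv => (r _ hv.1.1).2 _ (a5 v hv)
  · exact cΦ2.comp cΦ a1
  · exact cΦ1.comp kQ a3
  · have k3 : ContinuousOn (fun v : (B × B) × B => ((v.1.1, R v) : B × B)) (E2 K1 K2) :=
      (continuous_fst.comp continuous_fst).continuousOn.prodMk kR
    exact cΨ.comp k3 fun v hv => ⟨hv.1.1, a5 v hv⟩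

end Pool.Agent.V11327.UL
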