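import Pool.Agent.V11327.ULcore

/-!
Unique choice on Baire space is not reducible to two successive uses of `List`.
-/

set_option autoImplicit false

namespace Pool.Agent.V11327.UL

open Set Topology Pool.Agent.V11327.WB

/-- Pairs (instance, list for the first set). -/
def E1 (K1 : B → B) : Set (B × B) := {w | w.1 ∈ ucBaire.inst ∧ w.2 ∈ listC.sol (K1 w.1)}

/-- Triples (instance, list for the first set, list for the second set). -/
def E2 (K1 : B → B) (K2 : B × B → B) : Set ((B × B) × B) :=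
  {v | v.1 ∈ E1 K1 ∧ v.2 ∈ listC.sol (K2 v.1)}

/-- The finite data `a, b, σ` force the output to start with `0`. -/
def Forced (K1 : B → B) (K2 : B × B → B) (H : (B × B) × B → B) (s : ℕ) (a b σ : List ℕ) : Prop :=
  ∀ v ∈ E2 K1 K2, rs v.1.1 s = a → rs v.1.2 s = b → rs v.2 σ.length = σ → H v 0 = 0

/-- The condition `F` of the proof. -/
def InF (K1 : B → B) (K2 : B × B → B) (H : (B × B) × B → B) (s : ℕ) (σ : List ℕ)
    (w : B × B) : Prop :=
  Forced K1 K2 H s (rs w.1 s) (rs w.2 s) σ ∧ R1 (K2 w) σ.length σ.length σ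

/-- Finite data which exclude `F`. -/
def VV (K1 : B → B) (K2 : B × B → B) (H : (B × B) × B → B) (s : ℕ) (σ : List ℕ)
    (N : ℕ) (a b : List ℕ) : Prop :=
  ∀ w ∈ E1 K1, rs w.1 N = a → rs w.2 N = b → ¬ InF K1 K2 H s σ w

/-- The Borel set of the proof. -/
def MM (K1' K1 : B → B) (K2 : B × B → B) (H : (B × B) × B → B) : Set B :=
  {p | ∃ m s : ℕ, ∃ σ : List ℕ, ∀ N : ℕ, ∃ ρ : List ℕ, R1 (K1' p) m N ρ ∧
    ∀ N' : ℕ, N' ≤ N → ∀ τ : List ℕ, R1 (K1' p) N' N' τ → Agr m N' (ofL ρ) (ofL τ) →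
      ¬ VV K1 K2 H s σ N' (rs p N') τ}

theorem exists_VV {K1 : B → B} {K2 : B × B → B} {H : (B × B) × B → B}
    (c2 : ContinuousOn K2 (E1 K1)) {s : ℕ} {σ : List ℕ} {w : B × B} (hw : w ∈ E1 K1)
    (h : ¬ InF K1 K2 H s σ w) : ∃ N, VV K1 K2 H s σ N (rs w.1 N) (rs w.2 N) := by
  by_cases hf : Forced K1 K2 H s (rs w.1 s) (rs w.2 s) σ
  · have hR : ¬ R1 (K2 w) σ.length σ.length σ := fun hR => h ⟨hf, hR⟩
    have hO : {q : B | R1 q σ.length σ.length σ}ᶜ ∈ 𝓝 (K2 w) :=
      (isClosed_R1 _ _ _).isOpen_compl.mem_nhds hR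
    have h1 := c2 w hw hO
    rw [Filter.mem_map, mem_nhdsWithin_iff_exists_mem_nhds_inter] at h1
    obtain ⟨u, hu, hu2⟩ := h1
    obtain ⟨N, hN⟩ := nhds2 hu
    refine ⟨N, fun w' hw' e1 e2 hF => ?_⟩
    have h3 : w' ∈ K2 ⁻¹' {q : B | R1 q σ.length σ.length σ}ᶜ := hu2 ⟨hN w' e1 e2, hw'⟩
    exact h3 hF.2
  · refine ⟨s, fun w' _ e1 e2 hF => hf ?_⟩
    have := hF.1
    rw [e1, e2] at this
    exact this

theorem measurable_MM {K1' K1 : B → B} {K2 : B × B → B} {H : (B × B) × B → B}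
    (hm : Measurable K1') : MeasurableSet (MM K1' K1 K2 H) := by
  have mR : ∀ m N ρ, Measurable (fun p => R1 (K1' p) m N ρ) := fun m N ρ =>
    measurableSet_setOfPred.1 (hm (isClosed_R1 m N ρ).measurableSet)
  have mV : ∀ s σ N' τ, Measurable (fun p => ¬ VV K1 K2 H s σ N' (rs p N') τ) := fun s σ N' τ =>
    measurableSet_setOfPred.1 ((isClopen_discrete {l | ¬ VV K1 K2 H s σ N' l τ}).preimage
      (continuous_rs N')).1.measurableSet
  refine measurableSet_setOfPred.2 ?_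
  refine Measurable.exists fun m => Measurable.exists fun s => Measurable.exists fun σ =>
    Measurable.forall fun N => Measurable.exists fun ρ => Measurable.and (mR _ _ _) ?_
  refine Measurable.forall fun N' => Measurable.imp measurable_const ?_
  exact Measurable.forall fun τ => Measurable.imp (mR _ _ _)
    (Measurable.imp measurable_const (mV _ _ _ _))

theorem agr_congr {m N N1 N2 : ℕ} {w1 w2 v1 v2 : B} (h1 : rs w1 N1 = rs v1 N1)
    (h2 : rs w2 N2 = rs v2 N2) (hN1 : N ≤ N1) (hN2 : N ≤ N2) (h : Agr m N v1 v2) :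
    Agr m N w1 w2 := by
  intro n hn hb
  rw [rs_eq_iff.1 h1 n (by omega), rs_eq_iff.1 h2 n (by omega)]
  exact h n hn hb

theorem isClopen_agr (m N : ℕ) (w' : B) : IsClopen {w : B | Agr m N w w'} := by
  have h : {w : B | Agr m N w w'} = (fun w => rs w N) ⁻¹' {l | Agr m N (ofL l) w'} := by
    ext w
    constructor
    · intro h
      exact agr_congr (rs_ofL w N) (rfl : rs w' N = rs w' N) le_rfl le_rfl h
    · intro h
      exact agr_congr (rs_ofL w N).symm (rfl : rs w' N = rs w' N) le_rfl le_rfl h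
  rw [h]
  exact (isClopen_discrete _).preimage (continuous_rs N)

theorem isClosed_okw' (q : B) (m : ℕ) : IsClosed {w : B | Okw q m w} := by
  have h : {w : B | Okw q m w} = cantor ∩ (fun w : B => ((q, w) : B × B)) ⁻¹'
      {v : B × B | ∀ i < m, bit v.2 i = 1 → pt v.2 i ∈ named v.1} := rfl
  rw [h]
  exact isCompact_cantor.isClosed.inter
    ((isClosed_okw m).preimage (continuous_const.prodMk continuous_id))

section
variable {K1' K1 : B → B} {K2 : B × B → B} {H : (B × B) × B → B}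

theorem mem_MM_imp (h1 : ∀ p ∈ ucBaire.inst, K1 p ∈ listC.inst)
    (h2 : ∀ w ∈ E1 K1, K2 w ∈ listC.inst)
    (h3 : ∀ v ∈ E2 K1 K2, H v ∈ named v.1.1)
    (c2 : ContinuousOn K2 (E1 K1)) (hK : ∀ p ∈ ucBaire.inst, K1' p = K1 p)
    {p x : B} (hp : named p = {x}) (hM : p ∈ MM K1' K1 K2 H) : x 0 = 0 := by
  have hpi : p ∈ ucBaire.inst := ⟨x, hp⟩
  obtain ⟨m, s, σ, hM⟩ := hM
  rw [hK p hpi] at hM
  set q := K1 p with hq
  have hqi : q ∈ listC.inst := h1 p hpi
  let X : ℕ → Set B := fun N => {w | Okw q m w} ∩ ⋂ N' : ℕ, ⋂ (_ : N' ≤ N), ⋂ w' : B,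
    ⋂ (_ : Okw q N' w' ∧ VV K1 K2 H s σ N' (rs p N') (rs w' N')), {w : B | Agr m N' w w'}ᶜ
  have hXmem : ∀ N w, w ∈ X N ↔ Okw q m w ∧ ∀ N' ≤ N, ∀ w', Okw q N' w' →
      VV K1 K2 H s σ N' (rs p N') (rs w' N') → ¬ Agr m N' w w' := by
    intro N w
    simp only [X, mem_inter_iff, mem_iInter, mem_compl_iff, mem_ofPred_eq, and_imp]
  have hXcl : ∀ N, IsClosed (X N) := fun N => (isClosed_okw' q m).inter
    (isClosed_iInter fun N' => isClosed_iInter fun _ => isClosed_iInter fun w' =>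
      isClosed_iInter fun _ => (isClopen_agr m N' w').compl.1)
  have hXdec : ∀ N, X (N + 1) ⊆ X N := by
    intro N w hw
    rw [hXmem] at hw ⊢
    exact ⟨hw.1, fun N' hN' => hw.2 N' (by omega)⟩
  have hXne : ∀ N, (X N).Nonempty := by
    intro N
    obtain ⟨ρ, ⟨w, hw, hρ⟩, hR⟩ := hM N
    refine ⟨w, (hXmem N w).2 ⟨hw, fun N' hN' w' hw' hV hag => ?_⟩⟩
    refine hR N' hN' (rs w' N') ⟨w', hw', rfl⟩ ?_ hV
    subst hρ
    exact agr_congr (rs_ofL w N) (rs_ofL w' N') hN' le_rfl hag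
  have hXc : IsCompact (X 0) :=
    isCompact_cantor.of_isClosed_subset (hXcl 0) fun w hw => hw.1.1
  obtain ⟨w, hw⟩ := IsCompact.nonempty_iInter_of_sequence_nonempty_isCompact_isClosed X hXdec
    hXne hXc hXcl
  rw [mem_iInter] at hw
  have hw0 := ((hXmem 0 w).1 (hw 0)).1
  obtain ⟨z, hz, hag⟩ := exists_ext hqi hw0
  have hzE : (p, z) ∈ E1 K1 := ⟨hpi, hz⟩
  have hF : InF K1 K2 H s σ (p, z) := by
    by_contra hcon
    obtain ⟨N, hN⟩ := exists_VV c2 hzE hcon
    exact ((hXmem N w).1 (hw N)).2 N le_rfl z (okw_of_sol hz N) hN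
      fun n _ hb => (hag n hb).symm
  obtain ⟨z', hz', hσ⟩ := exists_sol_of_R1 (h2 _ hzE) hF.2
  have hv : ((p, z), z') ∈ E2 K1 K2 := ⟨hzE, hz'⟩
  have h0 := hF.1 _ hv rfl rfl hσ
  have hx : H ((p, z), z') ∈ named p := h3 _ hv
  rw [hp] at hx
  rw [mem_singleton_iff] at hx
  rw [← hx]
  exact h0

theorem generic (h1 : ∀ p ∈ ucBaire.inst, K1 p ∈ listC.inst)
    (h2 : ∀ w ∈ E1 K1, K2 w ∈ listC.inst)
    (h3 : ∀ v ∈ E2 K1 K2, H v ∈ named v.1.1)
    (c2 : ContinuousOn K2 (E1 K1)) (c3 : ContinuousOn H (E2 K1 K2))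
    {p x : B} (hp : named p = {x}) (hx : x 0 = 0) :
    ∃ m s : ℕ, ∃ σ : List ℕ, ∃ w, Okw (K1 p) m w ∧ ∀ z ∈ listC.sol (K1 p), Agree m z w →
      InF K1 K2 H s σ (p, z) := by
  classical
  by_contra hcon
  push Not at hcon
  have hpi : p ∈ ucBaire.inst := ⟨x, hp⟩
  set q := K1 p with hq
  have hqi : q ∈ listC.inst := h1 p hpi
  obtain ⟨g, hg1, hg2⟩ := exists_blocks hqi
  obtain ⟨e, he⟩ := exists_surjective_nat (ℕ × List ℕ)
  let St := {st : ℕ × B // Okw q st.1 st.2}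
  have hstep : ∀ (j : ℕ) (st : St), ∃ st' : St, st.1.1 < st'.1.1 ∧
      Agree st.1.1 st'.1.2 st.1.2 ∧
      (∃ N, N < st'.1.1 ∧ VV K1 K2 H (e j).1 (e j).2 N (rs p N) (rs st'.1.2 N)) ∧
      (∃ i, i < st'.1.1 ∧ ∀ k, st'.1.2 (Nat.pair i k) = g j k) := by
    rintro j ⟨⟨m, w⟩, hw⟩
    obtain ⟨z, hz, hag, hnF⟩ := hcon m (e j).1 (e j).2 w hw
    obtain ⟨N, hN⟩ := exists_VV c2 (show (p, z) ∈ E1 K1 from ⟨hpi, hz⟩) hnF
    set m' := max m N with hm'
    let w' : B := fun n => if (Nat.unpair n).1 = m' then g j (Nat.unpair n).2 else z n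
    have hw'z : ∀ n, (Nat.unpair n).1 ≠ m' → w' n = z n := fun n hn => if_neg hn
    have hw'g : ∀ k, w' (Nat.pair m' k) = g j k := by
      intro k
      show (if _ then _ else _) = _
      rw [Nat.unpair_pair, if_pos rfl]
    have hw'a : Agree m' w' z := fun n hn => hw'z n (ne_of_lt hn)
    have hzok := okw_of_sol hz
    have hok : Okw q (m' + 1) w' := by
      constructor
      · intro n
        by_cases h : (Nat.unpair n).1 = m'
        · have : w' n = g j (Nat.unpair n).2 := if_pos h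
          rw [this]
          exact (hg1 j).1 _
        · rw [hw'z n h]; exact (hzok 0).1 n
      · intro i hi hb
        rcases Nat.lt_succ_iff_lt_or_eq.1 hi with h | h
        · rw [hw'a.pt_eq h]
          apply (hzok (i + 1)).2 i (Nat.lt_succ_self i)
          rw [← hw'a.bit_eq h]; exact hb
        · subst h
          have e1 : pt w' m' = fun j' => g j (j' + 1) := by
            funext j'; exact hw'g (j' + 1)
          rw [e1]
          apply (hg1 j).2
          rw [← hw'g 0]; exact hb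
    refine ⟨⟨(m' + 1, w'), hok⟩, ?_, ?_, ?_, ?_⟩
    · show m < m' + 1
      have := le_max_left m N
      omega
    · exact (hw'a.mono (le_max_left m N)).trans hag
    · refine ⟨N, ?_, ?_⟩
      · show N < m' + 1
        have := le_max_right m N
        omega
      · show VV K1 K2 H (e j).1 (e j).2 N (rs p N) (rs w' N)
        rw [hw'a.rs_eq (le_max_right m N)]
        exact hN
    · exact ⟨m', Nat.lt_succ_self m', hw'g⟩
  choose step hs1 hs2 hs3 hs4 using hstep
  let st0 : St := ⟨(0, fun _ => 0), ⟨fun i => Or.inl rfl, fun i hi => absurd hi (Nat.not_lt_zero i)⟩⟩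
  let st : ℕ → St := fun j => Nat.rec st0 (fun j s => step j s) j
  have hst : ∀ j, st (j + 1) = step j (st j) := fun j => rfl
  have hlt : ∀ j, (st j).1.1 < (st (j + 1)).1.1 := fun j => by rw [hst]; exact hs1 j (st j)
  have hge : ∀ j, j ≤ (st j).1.1 := by
    intro j
    induction j with
    | zero => exact Nat.zero_le _
    | succ j ih => have := hlt j; omega
  have hmono : ∀ j k, j ≤ k → (st j).1.1 ≤ (st k).1.1 ∧
      Agree (st j).1.1 (st k).1.2 (st j).1.2 := by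
    intro j k hjk
    induction hjk with
    | refl => exact ⟨le_rfl, fun n _ => rfl⟩
    | @step k hjk ih =>
      refine ⟨ih.1.trans (hlt k).le, ?_⟩
      have h := hs2 k (st k)
      rw [← hst] at h
      exact (h.mono ih.1).trans ih.2
  let wi : B := fun n => (st (n + 1)).1.2 n
  have hwi : ∀ j, Agree (st j).1.1 wi (st j).1.2 := by
    intro j n hn
    show (st (n + 1)).1.2 n = (st j).1.2 n
    rcases Nat.le_total j (n + 1) with h | h
    · exact (hmono j (n + 1) h).2 n hn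
    · have h5 : (Nat.unpair n).1 < (st (n + 1)).1.1 := by
        have := Nat.unpair_left_le n
        have := hge (n + 1)
        omega
      exact ((hmono (n + 1) j h).2 n h5).symm
  have hwic : wi ∈ cantor := fun n => (st (n + 1)).2.1 n
  have hwiok : ∀ m, Okw q m wi := by
    intro m
    have h5 : Okw q (st m).1.1 wi := (st m).2.congr (hwi m) hwic
    exact ⟨hwic, fun i hi => h5.2 i (lt_of_lt_of_le hi (hge m))⟩
  have hsol : wi ∈ listC.sol q := by
    apply mem_sol_of hwiok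
    intro y hy
    obtain ⟨k, hk1, hk2⟩ := hg2 y hy
    obtain ⟨i, hi, hik⟩ := hs4 k (st k)
    rw [← hst] at hi hik
    have hik' : ∀ j, wi (Nat.pair i j) = g k j := by
      intro j
      rw [hwi (k + 1) (Nat.pair i j) (by rw [Nat.unpair_pair]; exact hi)]
      exact hik j
    refine ⟨i, (hik' 0).trans hk1, ?_⟩
    rw [← hk2]
    funext j
    exact hik' (j + 1)
  have hE : (p, wi) ∈ E1 K1 := ⟨hpi, hsol⟩
  have hnot : ∀ j, ¬ InF K1 K2 H (e j).1 (e j).2 (p, wi) := by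
    intro j
    obtain ⟨N, hN1, hN2⟩ := hs3 j (st j)
    rw [← hst] at hN1 hN2
    apply hN2 (p, wi) hE rfl
    exact (hwi (j + 1)).rs_eq hN1.le
  -- a list for the second set
  obtain ⟨z', hz', -⟩ := exists_ext (h2 _ hE) (m := 0) (w := fun _ => 0)
    ⟨fun i => Or.inl rfl, fun i hi => absurd hi (Nat.not_lt_zero i)⟩
  have hv : ((p, wi), z') ∈ E2 K1 K2 := ⟨hE, hz'⟩
  have hHx : H ((p, wi), z') ∈ named p := h3 _ hv
  rw [hp, mem_singleton_iff] at hHx
  have hc := c3 _ hv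
  have hopen : {y : B | y 0 = 0} ∈ 𝓝 (H ((p, wi), z')) := by
    apply IsOpen.mem_nhds
    · exact (isOpen_discrete ({0} : Set ℕ)).preimage (continuous_apply (A := fun _ : ℕ => ℕ) 0)
    · show H ((p, wi), z') 0 = 0
      rw [hHx]; exact hx
  have h7 := hc hopen
  rw [Filter.mem_map, mem_nhdsWithin_iff_exists_mem_nhds_inter] at h7
  obtain ⟨u, hu, hu2⟩ := h7
  obtain ⟨s, hs⟩ := nhds3 hu
  obtain ⟨j, hj⟩ := he (s, rs z' s)
  apply hnot j
  rw [hj]
  constructor
  · intro v' hv' e1 e2 e3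
    have e3' : rs v'.2 s = rs z' s := by
      have : rs v'.2 (rs z' s).length = rs z' s := e3
      rwa [rs_length] at this
    have h8 : v' ∈ H ⁻¹' {y : B | y 0 = 0} := hu2 ⟨hs v' e1 e2 e3', hv'⟩
    exact h8
  · refine ⟨z', ?_, ?_⟩
    · exact okw_of_sol hz' _
    · show rs z' (rs z' s).length = rs z' s
      rw [rs_length]

theorem imp_mem_MM (h1 : ∀ p ∈ ucBaire.inst, K1 p ∈ listC.inst)
    (h2 : ∀ w ∈ E1 K1, K2 w ∈ listC.inst)
    (h3 : ∀ v ∈ E2 K1 K2, H v ∈ named v.1.1)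
    (c2 : ContinuousOn K2 (E1 K1)) (c3 : ContinuousOn H (E2 K1 K2))
    (hK : ∀ p ∈ ucBaire.inst, K1' p = K1 p)
    {p x : B} (hp : named p = {x}) (hx : x 0 = 0) : p ∈ MM K1' K1 K2 H := by
  obtain ⟨m, s, σ, w, hw, hF⟩ := generic h1 h2 h3 c2 c3 hp hx
  have hpi : p ∈ ucBaire.inst := ⟨x, hp⟩
  refine ⟨m, s, σ, ?_⟩
  rw [hK p hpi]
  set q := K1 p with hq
  have hqi : q ∈ listC.inst := h1 p hpi
  intro N
  refine ⟨rs w N, ⟨w, hw, rfl⟩, ?_⟩
  rintro N' hN' τ ⟨w', hw', hτ⟩ hag hV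
  subst hτ
  have hag' : Agr m N' w w' :=
    agr_congr (rs_ofL w N).symm (rs_ofL w' N').symm hN' le_rfl hag
  let w3 : B := fun n => if (Nat.unpair n).1 < m then w n else w' n
  have h3a : Agree m w3 w := fun n hn => if_pos hn
  have h3b : ∀ n, ¬ (Nat.unpair n).1 < m → w3 n = w' n := fun n hn => if_neg hn
  have h3c : w3 ∈ cantor := by
    intro n
    by_cases h : (Nat.unpair n).1 < m
    · rw [h3a n h]; exact hw.1 n
    · rw [h3b n h]; exact hw'.1 n
  have h3ok : Okw q (max m N') w3 := by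
    refine ⟨h3c, fun i hi hb => ?_⟩
    rcases Nat.lt_or_ge i m with h | h
    · rw [h3a.pt_eq h]
      apply hw.2 i h
      rw [← h3a.bit_eq h]; exact hb
    · have hi' : i < N' := by
        rcases lt_max_iff.1 hi with h5 | h5
        · omega
        · exact h5
      have e1 : ∀ k, w3 (Nat.pair i k) = w' (Nat.pair i k) := by
        intro k
        apply h3b
        rw [Nat.unpair_pair]
        exact not_lt.2 h
      have e2 : pt w3 i = pt w' i := by
        funext k; exact e1 (k + 1)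
      rw [e2]
      apply hw'.2 i hi'
      rw [show bit w' i = bit w3 i from (e1 0).symm]
      exact hb
  obtain ⟨z, hz, hzag⟩ := exists_ext hqi h3ok
  have hFz := hF z hz ((hzag.mono (le_max_left _ _)).trans h3a)
  have hrs : rs z N' = rs w' N' := by
    rw [hzag.rs_eq (le_max_right _ _), rs_eq_iff]
    intro n hn
    by_cases h : (Nat.unpair n).1 < m
    · rw [h3a n h]; exact hag' n hn h
    · exact h3b n h
  exact hV (p, z) ⟨hpi, hz⟩ rfl hrs hFz

theorem no_two_lists (h1 : ∀ p ∈ ucBaire.inst, K1 p ∈ listC.inst)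
    (h2 : ∀ w ∈ E1 K1, K2 w ∈ listC.inst)
    (h3 : ∀ v ∈ E2 K1 K2, H v ∈ named v.1.1)
    (c1 : ContinuousOn K1 ucBaire.inst)
    (c2 : ContinuousOn K2 (E1 K1)) (c3 : ContinuousOn H (E2 K1 K2)) : False := by
  obtain ⟨K1', hm, hK⟩ := exists_measurable_ext c1
  exact no_borel (MM K1' K1 K2 H) (measurable_MM hm) fun p x hp =>
    ⟨mem_MM_imp h1 h2 h3 c2 hK hp, imp_mem_MM h1 h2 h3 c2 c3 hK hp⟩

end

end Pool.Agent.V11327.UL
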