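import Pool.Agent.V11327.WBtree

/-!
Coanalytic sets: closure properties, trees, and two coanalytic conditions on names of closed sets.
-/

set_option autoImplicit false

namespace Pool.Agent.V11327.WB

open Set Topology MeasureTheory

section general

variable {X : Type} [TopologicalSpace X] [PolishSpace X] [MeasurableSpace X] [BorelSpace X]

/-- Coanalytic sets. -/
def CoA (P : Set X) : Prop := AnalyticSet Pᶜ

theorem CoA.of_meas {P : Set X} (h : MeasurableSet P) : CoA P := h.compl.analyticSet

theorem CoA.forall' {ι : Type} [Countable ι] {P : ι → X → Prop} (h : ∀ i, CoA {x | P i x}) :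
    CoA {x | ∀ i, P i x} := by
  have : {x | ∀ i, P i x}ᶜ = ⋃ i, {x | P i x}ᶜ := by
    ext x; simp
  rw [CoA, this]
  exact AnalyticSet.iUnion h

theorem CoA.exists' {ι : Type} [Countable ι] [Nonempty ι] {P : ι → X → Prop}
    (h : ∀ i, CoA {x | P i x}) : CoA {x | ∃ i, P i x} := by
  have : {x | ∃ i, P i x}ᶜ = ⋂ i, {x | P i x}ᶜ := by
    ext x; simp
  rw [CoA, this]
  exact AnalyticSet.iInter h

theorem CoA.and {P Q : X → Prop} (hP : CoA {x | P x}) (hQ : CoA {x | Q x}) :
    CoA {x | P x ∧ Q x} := by
  have h := CoA.forall' (ι := Bool) (P := fun b x => cond b (P x) (Q x))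
    (by intro b; cases b; exacts [hQ, hP])
  have h2 : {x | P x ∧ Q x} = {x | ∀ b : Bool, cond b (P x) (Q x)} := by
    ext x; simp [Bool.forall_bool, and_comm]
  rw [h2]; exact h

theorem CoA.or {P Q : X → Prop} (hP : CoA {x | P x}) (hQ : CoA {x | Q x}) :
    CoA {x | P x ∨ Q x} := by
  have h := CoA.exists' (ι := Bool) (P := fun b x => cond b (P x) (Q x))
    (by intro b; cases b; exacts [hQ, hP])
  have h2 : {x | P x ∨ Q x} = {x | ∃ b : Bool, cond b (P x) (Q x)} := by
    ext x; simp [Bool.exists_bool, or_comm]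
  rw [h2]; exact h

theorem CoA.imp {P Q : X → Prop} (hP : MeasurableSet {x | P x}) (hQ : CoA {x | Q x}) :
    CoA {x | P x → Q x} := by
  have h2 : {x | P x → Q x} = {x | ¬ P x ∨ Q x} := by
    ext x; exact imp_iff_not_or
  rw [h2]
  exact CoA.or (CoA.of_meas hP.compl) hQ

theorem CoA.const (p : Prop) : CoA {_x : X | p} := CoA.of_meas (MeasurableSet.const p)

theorem analytic_proj {Y : Type} [TopologicalSpace Y] [PolishSpace Y] [MeasurableSpace Y]
    [BorelSpace Y] {S : Set (X × Y)} (hS : MeasurableSet S) : AnalyticSet {x | ∃ y, (x, y) ∈ S} := by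
  have h : {x | ∃ y, (x, y) ∈ S} = Prod.fst '' S := by
    ext x
    constructor
    · rintro ⟨y, hy⟩; exact ⟨(x, y), hy, rfl⟩
    · rintro ⟨⟨x', y⟩, hy, rfl⟩; exact ⟨y, hy⟩
  rw [h]
  exact hS.analyticSet.image_of_continuous continuous_fst

theorem CoA.preimage {Y : Type} [TopologicalSpace Y] [PolishSpace Y] [MeasurableSpace Y]
    [BorelSpace Y] {P : Set Y} (hP : CoA P) {f : X → Y} (hf : Measurable f) :
    CoA (f ⁻¹' P) := by
  have h1 : (f ⁻¹' P)ᶜ = Prod.fst '' (⋂ b : Bool, cond b {w : X × Y | f w.1 = w.2}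
      (Prod.snd ⁻¹' Pᶜ)) := by
    ext x
    constructor
    · intro hx
      refine ⟨(x, f x), ?_, rfl⟩
      rw [mem_iInter]
      intro b
      cases b
      · exact hx
      · rfl
    · rintro ⟨⟨x', y⟩, hy, rfl⟩ hx
      rw [mem_iInter] at hy
      have h2 : y ∈ Pᶜ := hy false
      have h3 : f x' = y := hy true
      rw [← h3] at h2
      exact h2 hx
  rw [CoA, h1]
  refine AnalyticSet.image_of_continuous (AnalyticSet.iInter fun b => ?_) continuous_fst
  cases b
  · exact AnalyticSet.preimage hP continuous_snd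
  · have : MeasurableSet {w : X × Y | f w.1 = w.2} :=
      measurableSet_eq_fun (hf.comp measurable_fst) measurable_snd
    exact this.analyticSet

theorem continuous_mp (t : List ℕ) : Continuous (fun f : List ℕ → ℕ => mp f t) := by
  induction t with
  | nil => exact continuous_const
  | cons a t ih =>
    have h : (fun f : List ℕ → ℕ => mp f (a :: t)) = (fun w : ℕ × List ℕ => w.1 :: w.2) ∘
        (fun f : List ℕ → ℕ => (f (a :: t), mp f t)) := rfl
    rw [h]
    exact continuous_of_discreteTopology.comp ((continuous_apply (a :: t)).prodMk ih)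

theorem analytic_Mn {S R : X → List ℕ → Prop} (hS : ∀ t, MeasurableSet {x | S x t})
    (hR : ∀ t, MeasurableSet {x | R x t}) (s r : List ℕ) :
    AnalyticSet {x | Mn (S x) s (R x) r} := by
  have hm : MeasurableSet {w : X × (List ℕ → ℕ) | ∀ t, S w.1 (t ++ s) → R w.1 (mp w.2 t ++ r)} := by
    have h1 : {w : X × (List ℕ → ℕ) | ∀ t, S w.1 (t ++ s) → R w.1 (mp w.2 t ++ r)} =
        ⋂ t : List ℕ, ((Prod.fst ⁻¹' {x | S x (t ++ s)})ᶜ ∪ ⋃ u : List ℕ,
          (Prod.snd ⁻¹' {f | mp f t = u}) ∩ (Prod.fst ⁻¹' {x | R x (u ++ r)})) := by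
      ext w
      simp only [mem_ofPred_eq, mem_iInter, mem_union, mem_compl_iff, mem_preimage, mem_iUnion,
        mem_inter_iff, exists_eq_left', imp_iff_not_or]
    rw [h1]
    refine MeasurableSet.iInter fun t => (measurable_fst (hS _)).compl.union
      (MeasurableSet.iUnion fun u => (measurable_snd ?_).inter (measurable_fst (hR _)))
    exact ((isOpen_discrete {u}).preimage (continuous_mp t)).measurableSet
  exact analytic_proj hm

theorem coA_not_Mn {S R : X → List ℕ → Prop} (hS : ∀ t, MeasurableSet {x | S x t})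
    (hR : ∀ t, MeasurableSet {x | R x t}) (s r : List ℕ) :
    CoA {x | ¬ Mn (S x) s (R x) r} := by
  have h : {x | ¬ Mn (S x) s (R x) r}ᶜ = {x | Mn (S x) s (R x) r} := by
    ext x; simp
  rw [CoA, h]
  exact analytic_Mn hS hR s r

end general

/-- Trees for coanalytic sets. -/
theorem coan_tree {P : Set B} (hP : CoA P) : ∃ R : B → List ℕ → Prop,
    (∀ s, MeasurableSet {x | R x s}) ∧ (∀ x, IsTr (R x)) ∧ (∀ x, R x []) ∧
      ∀ x, x ∈ P ↔ WFt (R x) [] := by
  rw [CoA, AnalyticSet] at hP
  rcases hP with h | ⟨f, hf, hr⟩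
  · have hu : P = univ := by simpa using h
    refine ⟨fun _ s => s = [], fun s => MeasurableSet.const _, fun x a s h => ?_, fun _ => rfl,
      fun x => ?_⟩
    · exact absurd h (by simp)
    · rw [hu]
      refine ⟨fun _ y hy => ?_, fun _ => mem_univ _⟩
      have := hy 1
      simp [rs] at this
  · refine ⟨fun x s => s = [] ∨ ∃ y, rs y s.length = s ∧ rs (f y) s.length = rs x s.length,
      fun s => ?_, fun x a s h => ?_, fun _ => Or.inl rfl, fun x => ?_⟩
    · have h1 : {x : B | s = [] ∨ ∃ y, rs y s.length = s ∧ rs (f y) s.length = rs x s.length} =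
          (fun x => rs x s.length) ⁻¹' {u | s = [] ∨ ∃ y, rs y s.length = s ∧
            rs (f y) s.length = u} := rfl
      rw [h1]
      exact ((isOpen_discrete _).preimage (continuous_rs _)).measurableSet
    · right
      rcases h with h | ⟨y, h1, h2⟩
      · exact absurd h (by simp)
      · simp only [List.length_cons, rs, List.cons.injEq] at h1 h2
        exact ⟨y, h1.2, h2.2⟩
    · constructor
      · intro hx y hy
        have h1 : f y = x := by
          by_contra hne
          obtain ⟨i, hi⟩ := Function.ne_iff.1 hne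
          have hcont : {z : B | f z i = f y i} ∈ 𝓝 y := by
            have : IsOpen ((fun z : B => f z i) ⁻¹' {f y i}) :=
              (isOpen_discrete _).preimage ((continuous_apply i).comp hf)
            exact this.mem_nhds rfl
          obtain ⟨n, hn⟩ := nhds_rs hcont
          have h3 := hy (max n (i + 1))
          rw [List.append_nil] at h3
          rcases h3 with h3 | ⟨z, h4, h5⟩
          · have := congrArg List.length h3
            simp at this
          · rw [rs_length] at h4 h5
            have h6 : rs z n = rs y n := rs_eq_iff.2 fun k hk => rs_eq_iff.1 h4 k (by omega)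
            have h7 : f z i = f y i := hn h6
            have h8 : f z i = x i := rs_eq_iff.1 h5 i (by omega)
            exact hi (h7.symm.trans h8)
        have h2 : x ∈ range f := ⟨y, h1⟩
        rw [hr] at h2
        exact h2 hx
      · intro hw
        by_contra hx
        have h1 : x ∈ range f := by rw [hr]; exact hx
        obtain ⟨y, rfl⟩ := h1
        apply hw y
        intro n
        rw [List.append_nil]
        right
        exact ⟨y, by simp, rfl⟩

/-! ### Countability -/

theorem meas_mem_named (n : ℕ) : MeasurableSet {w : B × (ℕ → B) | w.2 n ∈ named w.1} := by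
  have h : {w : B × (ℕ → B) | w.2 n ∈ named w.1} =
      ⋂ i : ℕ, (⋃ k : ℕ, {w : B × (ℕ → B) | w.1 i = k} ∩ {w | w.2 n ∈ bas k})ᶜ := by
    ext w
    simp only [named, mem_ofPred_eq, mem_iInter, mem_compl_iff, mem_iUnion, mem_inter_iff,
      exists_eq_left']
  rw [h]
  refine MeasurableSet.iInter fun i => (MeasurableSet.iUnion fun k => ?_).compl
  refine MeasurableSet.inter ?_ ?_
  · have h2 : Measurable (fun w : B × (ℕ → B) => w.1 i) :=
      (measurable_pi_apply i).comp measurable_fst
    exact h2 (measurableSet_singleton k)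
  · exact ((measurable_pi_apply n).comp measurable_snd) (isOpen_bas k).measurableSet

theorem coA_countable {U : Set B} (hU : IsClosed U) (hU' : IsOpen U) :
    CoA {r : B | (named r ∩ U).Countable} := by
  have hm : MeasurableSet {w : B × (ℕ → B) | (∀ n, w.2 n ∈ named w.1 ∧ w.2 n ∈ U) ∧
      ∀ n k, ∃ m, w.2 m ≠ w.2 n ∧ rs (w.2 m) k = rs (w.2 n) k} := by
    have e1 : {w : B × (ℕ → B) | (∀ n, w.2 n ∈ named w.1 ∧ w.2 n ∈ U) ∧
      ∀ n k, ∃ m, w.2 m ≠ w.2 n ∧ rs (w.2 m) k = rs (w.2 n) k} =
      (⋂ n : ℕ, {w : B × (ℕ → B) | w.2 n ∈ named w.1} ∩ {w | w.2 n ∈ U}) ∩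
      ⋂ n : ℕ, ⋂ k : ℕ, ⋃ m : ℕ, {w : B × (ℕ → B) | w.2 m = w.2 n}ᶜ ∩
        {w | rs (w.2 m) k = rs (w.2 n) k} := by
      ext w
      simp only [mem_inter_iff, mem_iInter, mem_iUnion, mem_ofPred_eq, mem_compl_iff, ne_eq]
    rw [e1]
    have hev : ∀ n, Measurable (fun w : B × (ℕ → B) => w.2 n) := fun n =>
      (measurable_pi_apply n).comp measurable_snd
    have hcv : ∀ n, Continuous (fun w : B × (ℕ → B) => w.2 n) := fun n =>
      (continuous_apply n).comp continuous_snd
    refine MeasurableSet.inter (MeasurableSet.iInter fun n =>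
      (meas_mem_named n).inter (hev n hU.measurableSet)) ?_
    refine MeasurableSet.iInter fun n => MeasurableSet.iInter fun k => MeasurableSet.iUnion fun m =>
      MeasurableSet.inter (MeasurableSet.compl ?_) ?_
    · exact measurableSet_eq_fun (hev m) (hev n)
    · exact (isClosed_eq ((continuous_rs k).comp (hcv m))
        ((continuous_rs k).comp (hcv n))).measurableSet
  have h := analytic_proj hm
  have e : {r : B | (named r ∩ U).Countable}ᶜ = {x : B | ∃ d : ℕ → B, (x, d) ∈
      {w : B × (ℕ → B) | (∀ n, w.2 n ∈ named w.1 ∧ w.2 n ∈ U) ∧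
      ∀ n k, ∃ m, w.2 m ≠ w.2 n ∧ rs (w.2 m) k = rs (w.2 n) k}} := by
    ext r
    simp only [mem_compl_iff, mem_ofPred_eq]
    constructor
    · intro hunc
      obtain ⟨D, hD, hne, hsub⟩ := exists_perfect_nonempty_of_isClosed_of_not_countable
        ((isClosed_named r).inter hU) hunc
      have : Nonempty D := hne.to_subtype
      refine ⟨fun n => (TopologicalSpace.denseSeq D n : B), fun n => ?_, fun n k => ?_⟩
      · exact hsub (TopologicalSpace.denseSeq D n).2
      · have hacc := hD.acc _ (TopologicalSpace.denseSeq D n).2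
        set x : B := (TopologicalSpace.denseSeq D n : B) with hx
        rw [accPt_iff_nhds] at hacc
        obtain ⟨y, ⟨hy1, hy2⟩, hyx⟩ := hacc {z | rs z k = rs x k}
          ((isOpen_rs k _).mem_nhds rfl)
        have hopen : IsOpen {z : D | rs (z : B) k = rs x k ∧ (z : B) ≠ x} := by
          refine IsOpen.inter ((isOpen_rs k _).preimage continuous_subtype_val) ?_
          exact (isOpen_ne.preimage continuous_subtype_val)
        obtain ⟨m, hm1⟩ := (TopologicalSpace.denseRange_denseSeq D).exists_mem_open hopen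
          ⟨⟨y, hy2⟩, hy1, hyx⟩
        exact ⟨m, hm1.2, hm1.1⟩
    · rintro ⟨d, h1, h2⟩ hc
      have hpre : Preperfect (range d) := by
        rintro _ ⟨n, rfl⟩
        rw [accPt_iff_nhds]
        intro V hV
        obtain ⟨k, hk⟩ := nhds_rs hV
        obtain ⟨m, hm1, hm2⟩ := h2 n k
        exact ⟨d m, ⟨hk hm2, ⟨m, rfl⟩⟩, hm1⟩
      have hperf := hpre.perfect_closure
      have hne : (closure (range d)).Nonempty := ⟨d 0, subset_closure ⟨0, rfl⟩⟩
      have hsub : closure (range d) ⊆ named r ∩ U := by
        refine closure_minimal ?_ ((isClosed_named r).inter hU)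
        rintro _ ⟨n, rfl⟩
        exact h1 n
      let _ := TopologicalSpace.upgradeIsCompletelyMetrizable B
      obtain ⟨f, hf1, hf2, hf3⟩ := Perfect.exists_nat_bool_injection hperf hne
      have hcr : (range f).Countable := hc.mono (hf1.trans hsub)
      have h4 : Countable (ℕ → Bool) := by
        have := hcr.to_subtype
        exact (Set.rangeFactorization_injective.2 hf3).countable
      have h5 := Cardinal.mk_le_aleph0_iff.2 h4
      have h6 : Cardinal.mk (ℕ → Bool) = Cardinal.continuum := by
        rw [← Cardinal.power_def, Cardinal.mk_bool, Cardinal.mk_nat, Cardinal.two_power_aleph0]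
      rw [h6] at h5
      exact absurd h5 (not_le.2 Cardinal.aleph0_lt_continuum)
  rw [CoA, e]
  exact h

end Pool.Agent.V11327.WB
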