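import Mathlib

/-!
Closed subsets of Baire space given by names, the Cantor-Bendixson problem, and Weihrauch
reducibility of problems on Baire space.
-/

set_option autoImplicit false

namespace Pool.Agent.V11327.WB

open Set Topology

/-- Baire space. -/
abbrev B := ℕ → ℕ

/-- The first `n` entries of `x`, the latest one first. -/
def rs (x : B) : ℕ → List ℕ
  | 0 => []
  | n + 1 => x n :: rs x n

/-- The basic open set with code `k`: code `0` is the empty set, and `n + 1` codes the set of all
`x` whose initial segment is the finite sequence with number `n`. -/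
def bas : ℕ → Set B
  | 0 => ∅
  | n + 1 => {x | ∃ s : List ℕ, Encodable.decode n = some s ∧ rs x s.length = s}

/-- The closed set with name `p`: the complement of the basic open sets enumerated by `p`. -/
def named (p : B) : Set B := {x | ∀ i, x ∉ bas (p i)}

/-- A problem on Baire space: a set of names of instances, and for each name of an instance the set
of names of its solutions. -/
structure Prob where
  /-- names of instances -/
  inst : Set B
  /-- names of solutions -/
  sol : B → Set B

/-- `P` is the perfect kernel of the closed set `A`. -/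
def IsKernel (A P : Set B) : Prop := Perfect P ∧ P ⊆ A ∧ (A \ P).Countable

/-- The bit `b_i` of the list `z`. -/
def bit (z : B) (i : ℕ) : ℕ := z (Nat.pair i 0)

/-- The point `x_i` of the list `z`. -/
def pt (z : B) (i : ℕ) : B := fun j => z (Nat.pair i (j + 1))

/-- `z` lists the set `S`. -/
def Lists (z : B) (S : Set B) : Prop := (∀ i, bit z i = 0 ∨ bit z i = 1) ∧
  {x | ∃ i, bit z i = 1 ∧ pt z i = x} = S

/-- `c` is the cardinality code of `S`: `0` for an infinite set and `|S| + 1` for a finite set. -/
def Counts (c : ℕ) (S : Set B) : Prop := (S.Infinite ∧ c = 0) ∨ (S.Finite ∧ c = S.ncard + 1)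

/-- Choice on Baire space: given a nonempty closed set, find one of its points. -/
def choiceBaire : Prob where
  inst := {p | (named p).Nonempty}
  sol p := named p

/-- A name of the pair (list, cardinality code): entry `0` is the code, the rest is the list. -/
def IsScList (A : Set B) (q : B) : Prop :=
  ∃ P, IsKernel A P ∧ Lists (fun i => q (i + 1)) (A \ P) ∧ Counts (q 0) (A \ P)

/-- The problem `ScList` on Baire space. -/
def scList : Prob where
  inst := univ
  sol p := {q | IsScList (named p) q}

/-- The problem `CB` on Baire space: the odd entries name the perfect kernel, the even entries are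
a solution of `ScList`. -/
def cbProb : Prob where
  inst := univ
  sol p := {q | IsKernel (named p) (named (fun i => q (2 * i + 1))) ∧
    IsScList (named p) (fun i => q (2 * i))}

/-- `Φ` and `Ψ` transform instances of `f` to instances of `g` and solutions back. -/
def Reduces (Φ : B → B) (Ψ : B × B → B) (f g : Prob) : Prop :=
  ∀ p ∈ f.inst, Φ p ∈ g.inst ∧ ∀ q ∈ g.sol (Φ p), Ψ (p, q) ∈ f.sol p

/-- The pairs on which the second map of a reduction is used. -/
def dom2 (Φ : B → B) (f g : Prob) : Set (B × B) := {w | w.1 ∈ f.inst ∧ w.2 ∈ g.sol (Φ w.1)}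

/-- Continuous Weihrauch reducibility: the two partial maps are continuous where they are used. -/
def ContReducible (f g : Prob) : Prop :=
  ∃ (Φ : B → B) (Ψ : B × B → B), ContinuousOn Φ f.inst ∧ ContinuousOn Ψ (dom2 Φ f g) ∧
    Reduces Φ Ψ f g

/-- `F` is computable on `D`: a partial recursive function finds each value of `F x` from a long
enough initial segment of `x`, and never gives a wrong value. -/
def Comp1 (F : B → B) (D : Set B) : Prop :=
  ∃ g : List ℕ × ℕ →. ℕ, Partrec g ∧ ∀ x ∈ D, ∀ n,
    (∃ k, F x n ∈ g (rs x k, n)) ∧ ∀ k m, m ∈ g (rs x k, n) → m = F x n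

/-- The same for maps of two arguments. -/
def Comp2 (F : B × B → B) (D : Set (B × B)) : Prop :=
  ∃ g : (List ℕ × List ℕ) × ℕ →. ℕ, Partrec g ∧ ∀ x ∈ D, ∀ n,
    (∃ k, F x n ∈ g ((rs x.1 k, rs x.2 k), n)) ∧
      ∀ k m, m ∈ g ((rs x.1 k, rs x.2 k), n) → m = F x n

/-- Weihrauch reducibility. -/
def WReducible (f g : Prob) : Prop :=
  ∃ (Φ : B → B) (Ψ : B × B → B), Comp1 Φ f.inst ∧ Comp2 Ψ (dom2 Φ f g) ∧ Reduces Φ Ψ f g

/-! ### Initial segments -/

@[simp] theorem rs_length (x : B) (n : ℕ) : (rs x n).length = n := by
  induction n with
  | zero => rfl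
  | succ n ih => simp [rs, ih]

theorem rs_eq_iff {x y : B} {n : ℕ} : rs x n = rs y n ↔ ∀ i < n, x i = y i := by
  induction n with
  | zero => simp [rs]
  | succ n ih =>
    simp only [rs, List.cons.injEq, ih]
    constructor
    · rintro ⟨h1, h2⟩ i hi
      rcases Nat.lt_succ_iff_lt_or_eq.1 hi with h | rfl
      · exact h2 i h
      · exact h1
    · intro h
      exact ⟨h n (Nat.lt_succ_self n), fun i hi => h i (by omega)⟩

theorem rs_suffix (x : B) {m n : ℕ} (h : m ≤ n) : rs x m <:+ rs x n := by
  induction h with
  | refl => exact List.suffix_refl _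
  | step h ih => exact ih.trans (List.suffix_cons _ _)

theorem suffix_rs {x : B} {s : List ℕ} {n : ℕ} (h : s <:+ rs x n) : rs x s.length = s := by
  have h1 : s.length ≤ n := by simpa using h.length_le
  have h2 := rs_suffix x h1
  exact List.IsSuffix.eq_of_length (List.suffix_of_suffix_length_le h2 h (by simp)) (by simp)

theorem continuous_rs (n : ℕ) : Continuous (fun x : B => rs x n) := by
  induction n with
  | zero => exact continuous_const
  | succ n ih =>
    have h : (fun x : B => rs x (n + 1)) = (fun w : ℕ × List ℕ => w.1 :: w.2) ∘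
        (fun x : B => (x n, rs x n)) := rfl
    rw [h]
    exact continuous_of_discreteTopology.comp ((continuous_apply n).prodMk ih)

theorem isOpen_rs (n : ℕ) (s : List ℕ) : IsOpen {x : B | rs x n = s} :=
  (isOpen_discrete {s}).preimage (continuous_rs n)

theorem isClosed_rs (n : ℕ) (s : List ℕ) : IsClosed {x : B | rs x n = s} :=
  (isClosed_discrete {s}).preimage (continuous_rs n)

theorem nhds_rs {x : B} {U : Set B} (hU : U ∈ 𝓝 x) : ∃ n, {y : B | rs y n = rs x n} ⊆ U := by
  rw [nhds_pi, Filter.mem_pi] at hU
  obtain ⟨I, hI, t, ht, hsub⟩ := hU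
  obtain ⟨N, hN⟩ := hI.bddAbove
  refine ⟨N + 1, fun y hy => hsub ?_⟩
  intro i hi
  have h1 : y i = x i := rs_eq_iff.1 hy i (by have := hN hi; omega)
  rw [h1]
  exact mem_of_mem_nhds (ht i)

theorem isOpen_bas (k : ℕ) : IsOpen (bas k) := by
  cases k with
  | zero => exact isOpen_empty
  | succ n =>
    cases h : (Encodable.decode n : Option (List ℕ)) with
    | none => simp only [bas, h, reduceCtorEq, false_and, exists_false]; exact isOpen_empty
    | some s =>
      have : bas (n + 1) = {x | rs x s.length = s} := by
        ext x
        constructor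
        · rintro ⟨s', hs', h'⟩
          rw [h, Option.some.injEq] at hs'
          subst hs'
          exact h'
        · intro h'
          exact ⟨s, h, h'⟩
      rw [this]
      exact isOpen_rs _ _

theorem isClosed_named (p : B) : IsClosed (named p) := by
  have : named p = ⋂ i, (bas (p i))ᶜ := by ext x; simp [named]
  rw [this]
  exact isClosed_iInter fun i => (isOpen_bas _).isClosed_compl

theorem bas_code (s : List ℕ) : bas (Encodable.encode s + 1) = {x | rs x s.length = s} := by
  ext x; simp [bas]

end Pool.Agent.V11327.WB
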