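import Pool.Agent.V11327.WBsing

/-!
Finite initial segments of names of solutions of the Cantor-Bendixson problem.
-/

set_option autoImplicit false

namespace Pool.Agent.V11327.WB

open Set Topology MeasureTheory

theorem isClosed_bas (k : ℕ) : IsClosed (bas k) := by
  cases k with
  | zero => exact isClosed_empty
  | succ n =>
    cases h : (Encodable.decode n : Option (List ℕ)) with
    | none => simp only [bas, h, reduceCtorEq, false_and, exists_false]; exact isClosed_empty
    | some s =>
      have : bas (n + 1) = {x | rs x s.length = s} := by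
        ext x
        constructor
        · rintro ⟨s', hs', h'⟩
          rw [h, Option.some.injEq] at hs'
          subst hs'
          exact h'
        · intro h'
          exact ⟨s, h, h'⟩
      rw [this]
      exact isClosed_rs _ _

theorem perfect_not_countable {K : Set B} (hK : Perfect K) (hne : K.Nonempty) :
    ¬ K.Countable := by
  intro hc
  let _ := TopologicalSpace.upgradeIsCompletelyMetrizable B
  obtain ⟨f, hf1, hf2, hf3⟩ := Perfect.exists_nat_bool_injection hK hne
  have hcr : (range f).Countable := hc.mono hf1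
  have h4 : Countable (ℕ → Bool) := by
    have := hcr.to_subtype
    exact (Set.rangeFactorization_injective.2 hf3).countable
  have h5 := Cardinal.mk_le_aleph0_iff.2 h4
  have h6 : Cardinal.mk (ℕ → Bool) = Cardinal.continuum := by
    rw [← Cardinal.power_def, Cardinal.mk_bool, Cardinal.mk_nat, Cardinal.two_power_aleph0]
  rw [h6] at h5
  exact absurd h5 (not_le.2 Cardinal.aleph0_lt_continuum)

theorem kernel_disjoint {A P U : Set B} (hP : Perfect P) (hPA : P ⊆ A) (hU : IsOpen U)
    (hU' : IsClosed U) (hc : (A ∩ U).Countable) {x : B} (hx : x ∈ P) (hxU : x ∈ U) : False := by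
  have h1 : Perfect (U ∩ P) := ⟨hU'.inter hP.closed, hP.acc.open_inter hU⟩
  have h2 : U ∩ P ⊆ A ∩ U := fun y hy => ⟨hPA hy.2, hy.1⟩
  exact perfect_not_countable h1 ⟨x, hxU, hx⟩ (hc.mono h2)

theorem exists_sing {r : B} {v : List ℕ} {x : B} (hx : x ∈ named r) (hxv : rs x v.length = v)
    (hc : (named r ∩ {x | rs x v.length = v}).Countable) : ∃ u, v <:+ u ∧ Sing r u := by
  by_contra hcon
  push Not at hcon
  have hperf : Perfect (named r ∩ {x | rs x v.length = v}) := by
    refine ⟨(isClosed_named r).inter (isClosed_rs _ _), ?_⟩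
    rintro y ⟨hy1, hy2⟩
    rw [accPt_iff_nhds]
    intro V hV
    obtain ⟨M, hM⟩ := nhds_rs hV
    have hy2' : rs y v.length = v := hy2
    have h1 : v <:+ rs y (max M v.length) := by
      have := rs_suffix y (le_max_right M v.length)
      rwa [hy2'] at this
    have h2 := hcon _ h1
    have h3 : ∃ z, (z ∈ named r ∧ rs z (rs y (max M v.length)).length =
        rs y (max M v.length)) ∧ z ≠ y := by
      by_contra h4
      push Not at h4
      exact h2 ⟨y, ⟨hy1, by rw [rs_length]⟩, fun z hz => h4 z hz⟩
    obtain ⟨z, ⟨hz1, hz2⟩, hz3⟩ := h3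
    rw [rs_length] at hz2
    have h5 : rs z M = rs y M := rs_eq_iff.2 fun k hk =>
      rs_eq_iff.1 hz2 k (lt_of_lt_of_le hk (le_max_left _ _))
    have h6 : rs z v.length = rs y v.length := rs_eq_iff.2 fun k hk =>
      rs_eq_iff.1 hz2 k (lt_of_lt_of_le hk (le_max_right _ _))
    exact ⟨z, ⟨hM h5, hz1, h6.trans hy2'⟩, hz3⟩
  exact perfect_not_countable hperf ⟨x, hx, hxv⟩ hc

/-- The sequence with initial segment `s`, followed by zeros. -/
def ent (s : List ℕ) : B := app s (fun _ => 0)

theorem rs_ent (s : List ℕ) : rs (ent s) s.length = s := rs_app_self s _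

theorem ent_eq {q : B} {s : List ℕ} (h : rs q s.length = s) {k : ℕ} (hk : k < s.length) :
    ent s k = q k := by
  have h1 : rs (ent s) s.length = rs q s.length := by rw [rs_ent, h]
  exact rs_eq_iff.1 h1 k hk

/-- The finite sequence `s` is an initial segment of a name with cardinality code `c`. -/
def Ext (c : ℕ) (s : List ℕ) (r : B) : Prop :=
  (0 < s.length → ent s 0 = c) ∧
  (∀ i, 2 * i + 1 < s.length → (named r ∩ bas (ent s (2 * i + 1))).Countable) ∧
  ∀ i, 2 * (Nat.pair i 0 + 1) < s.length → ent s (2 * (Nat.pair i 0 + 1)) = 0 ∨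
    (ent s (2 * (Nat.pair i 0 + 1)) = 1 ∧ ∃ u, Sing r u ∧
      ∀ j, 2 * (Nat.pair i (j + 1) + 1) < s.length → j < u.length ∧
        ent u j = ent s (2 * (Nat.pair i (j + 1) + 1)))

theorem coA_Ext (c : ℕ) (s : List ℕ) : CoA {r : B | Ext c s r} := by
  refine CoA.and (CoA.const _) (CoA.and ?_ ?_)
  · exact CoA.forall' fun i => CoA.imp (MeasurableSet.const _)
      (coA_countable (isClosed_bas _) (isOpen_bas _))
  · refine CoA.forall' fun i => CoA.imp (MeasurableSet.const _) (CoA.or (CoA.const _)
      (CoA.and (CoA.const _) (CoA.exists' fun u => CoA.and (coA_sing u) (CoA.const _))))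

theorem pair_mono (i j : ℕ) : Nat.pair i 0 ≤ Nat.pair i (j + 1) :=
  (Nat.pair_lt_pair_right i (Nat.succ_pos j)).le

/-- Initial segments of names satisfy the condition. -/
theorem ext_of_name {r q : B} (hq : q ∈ cbProb.sol r) {n : ℕ} : Ext (q 0) (rs q n) r := by
  obtain ⟨hK, P, hP, hL, -⟩ := hq
  have hent : ∀ k, k < n → ent (rs q n) k = q k := fun k hk =>
    ent_eq (by rw [rs_length]) (by rw [rs_length]; exact hk)
  refine ⟨fun h => hent 0 (by rwa [rs_length] at h), fun i hi => ?_, fun i hi => ?_⟩
  · rw [rs_length] at hi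
    rw [hent _ hi]
    refine hK.2.2.mono ?_
    rintro x ⟨h1, h2⟩
    exact ⟨h1, fun h3 => h3 i h2⟩
  · rw [rs_length] at hi
    rw [hent _ hi]
    rcases hL.1 i with h | h
    · left; exact h
    · right
      refine ⟨h, ?_⟩
      set z : B := fun i => q (2 * (i + 1)) with hz
      have hx : pt z i ∈ named r \ P := by
        rw [← hL.2]; exact ⟨i, h, rfl⟩
      have hPc : Pᶜ ∈ 𝓝 (pt z i) := hP.1.closed.isOpen_compl.mem_nhds hx.2
      obtain ⟨n0, hn0⟩ := nhds_rs hPc
      obtain ⟨u, hu1, hu2⟩ := exists_sing (r := r) (v := rs (pt z i) (max n0 n)) hx.1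
        (by rw [rs_length]) (by
          refine hP.2.2.mono ?_
          rintro y ⟨hy1, hy2⟩
          refine ⟨hy1, hn0 ?_⟩
          have hy3 : rs y (max n0 n) = rs (pt z i) (max n0 n) := by
            have hy4 : rs y (rs (pt z i) (max n0 n)).length = rs (pt z i) (max n0 n) := hy2
            rwa [rs_length] at hy4
          exact rs_eq_iff.2 fun k hk => rs_eq_iff.1 hy3 k (lt_of_lt_of_le hk (le_max_left _ _)))
      refine ⟨u, hu2, fun j hj => ?_⟩
      rw [rs_length] at hj
      have h1 : j < n := by
        have := Nat.right_le_pair i (j + 1); omega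
      have h2 : (max n0 n) ≤ u.length := by simpa using hu1.length_le
      have h3 : j < u.length := by omega
      refine ⟨h3, ?_⟩
      rw [hent _ hj]
      have h4 : rs (ent u) (max n0 n) = rs (pt z i) (max n0 n) := by
        have h5 : rs (pt z i) (max n0 n) <:+ rs (ent u) u.length := by rw [rs_ent]; exact hu1
        have h6 := suffix_rs h5
        rwa [rs_length] at h6
      have h7 := rs_eq_iff.1 h4 j (by omega)
      rw [h7]
      rfl

theorem sing_point {r : B} {u : List ℕ} (h : Sing r u) {P : Set B} (hP : IsKernel (named r) P) :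
    ∃ x ∈ named r \ P, rs x u.length = u := by
  obtain ⟨x, ⟨hx1, hx2⟩, huniq⟩ := h
  refine ⟨x, ⟨hx1, fun hxP => ?_⟩, hx2⟩
  refine kernel_disjoint hP.1 hP.2.1 (isOpen_rs u.length u) (isClosed_rs _ _) ?_ hxP hx2
  refine (countable_singleton x).mono ?_
  rintro y ⟨hy1, hy2⟩
  exact huniq y ⟨hy1, hy2⟩

/-- Every sequence satisfying the condition extends to a name. -/
theorem name_of_ext {r : B} {P : Set B} (hP : IsKernel (named r) P) {c : ℕ}
    (hc : Counts c (named r \ P)) {s : List ℕ} (hs : Ext c s r) :
    ∃ q ∈ cbProb.sol r, q 0 = c ∧ rs q s.length = s := by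
  classical
  obtain ⟨h0, h1, h2⟩ := hs
  set S := named r \ P with hS
  obtain ⟨e, he⟩ : ∃ e : ℕ → B, S.Nonempty → S = range e := by
    by_cases hne : S.Nonempty
    · obtain ⟨e, he⟩ := hP.2.2.exists_eq_range hne
      exact ⟨e, fun _ => he⟩
    · exact ⟨fun _ _ => 0, fun h => absurd h hne⟩
  -- the kernel part
  let odd : B := fun i => if 2 * i + 1 < s.length then ent s (2 * i + 1) else
    if Disjoint (bas (Nat.unpair i).1) P then (Nat.unpair i).1 else 0
  have hodd : named odd = P := by
    apply Subset.antisymm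
    · intro x hx
      by_contra hxP
      have hPc : Pᶜ ∈ 𝓝 x := hP.1.closed.isOpen_compl.mem_nhds hxP
      obtain ⟨m, hm⟩ := nhds_rs hPc
      have hb : bas (Encodable.encode (rs x m) + 1) = {y | rs y m = rs x m} := by
        rw [bas_code, rs_length]
      have h3 := hx (Nat.pair (Encodable.encode (rs x m) + 1) s.length)
      have h4 := Nat.right_le_pair (Encodable.encode (rs x m) + 1) s.length
      have h5 : ¬ 2 * Nat.pair (Encodable.encode (rs x m) + 1) s.length + 1 < s.length := by omega
      have h6 : Disjoint (bas (Encodable.encode (rs x m) + 1)) P := by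
        rw [hb, disjoint_left]
        exact fun y hy => hm hy
      simp only [odd, h5, if_false, Nat.unpair_pair, h6, if_true] at h3
      rw [hb] at h3
      exact h3 rfl
    · intro x hx i hi
      by_cases h3 : 2 * i + 1 < s.length
      · simp only [odd, h3, if_true] at hi
        exact kernel_disjoint hP.1 hP.2.1 (isOpen_bas _) (isClosed_bas _) (h1 i h3) hx hi
      · by_cases h4 : Disjoint (bas (Nat.unpair i).1) P
        · simp only [odd, h3, if_false, h4, if_true] at hi
          exact disjoint_left.1 h4 hi hx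
        · simp only [odd, h3, if_false, h4] at hi
          exact absurd hi (by simp [bas])
  -- the list part
  have hlist : ∀ i, ∃ (b : ℕ) (x : B), (b = 0 ∨ b = 1) ∧ (b = 1 → x ∈ S) ∧
      (2 * (Nat.pair i 0 + 1) < s.length → b = ent s (2 * (Nat.pair i 0 + 1))) ∧
      (∀ j, 2 * (Nat.pair i (j + 1) + 1) < s.length →
        x j = ent s (2 * (Nat.pair i (j + 1) + 1))) ∧
      (¬ 2 * (Nat.pair i 0 + 1) < s.length → S.Nonempty → b = 1 ∧ x = e (Nat.unpair i).1) := by
    intro i
    by_cases ht : 2 * (Nat.pair i 0 + 1) < s.length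
    · rcases h2 i ht with h3 | ⟨h3, u, hu, h4⟩
      · exact ⟨0, fun j => ent s (2 * (Nat.pair i (j + 1) + 1)), Or.inl rfl, by simp,
          fun _ => h3.symm, fun j _ => rfl, fun h => absurd ht h⟩
      · obtain ⟨x, hx1, hx2⟩ := sing_point hu hP
        refine ⟨1, x, Or.inr rfl, fun _ => hx1, fun _ => h3.symm, fun j hj => ?_,
          fun h => absurd ht h⟩
        obtain ⟨h5, h6⟩ := h4 j hj
        rw [← h6, ent_eq hx2 h5]
    · have hpos : ∀ j, ¬ 2 * (Nat.pair i (j + 1) + 1) < s.length := by
        intro j
        have := pair_mono i j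
        omega
      by_cases hne : S.Nonempty
      · refine ⟨1, e (Nat.unpair i).1, Or.inr rfl, fun _ => ?_, fun h => absurd h ht,
          fun j hj => absurd hj (hpos j), fun _ _ => ⟨rfl, rfl⟩⟩
        rw [he hne]; exact ⟨_, rfl⟩
      · exact ⟨0, fun _ => 0, Or.inl rfl, by simp, fun h => absurd h ht,
          fun j hj => absurd hj (hpos j), fun _ h => absurd h hne⟩
  choose β ξ hβ hβS hβs hξs hun using hlist
  let z : B := fun m => if (Nat.unpair m).2 = 0 then β (Nat.unpair m).1 else
    ξ (Nat.unpair m).1 ((Nat.unpair m).2 - 1)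
  have hbit : ∀ i, bit z i = β i := fun i => by simp [bit, z]
  have hpt : ∀ i, pt z i = ξ i := fun i => by funext j; simp [pt, z]
  let q : B := fun k => if k % 2 = 1 then odd (k / 2) else if k = 0 then c else z (k / 2 - 1)
  have hq1 : (fun i => q (2 * i + 1)) = odd := by
    funext i
    have h3 : (2 * i + 1) % 2 = 1 := by omega
    have h4 : (2 * i + 1) / 2 = i := by omega
    simp only [q, h3, if_true, h4]
  have hq2 : ∀ m, q (2 * (m + 1)) = z m := by
    intro m
    have h3 : ¬ (2 * (m + 1)) % 2 = 1 := by omega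
    have h4 : ¬ 2 * (m + 1) = 0 := by omega
    have h5 : 2 * (m + 1) / 2 - 1 = m := by omega
    simp only [q, h3, if_false, h4, h5]
  have hq0 : q 0 = c := by simp [q]
  have hlists : Lists z S := by
    refine ⟨fun i => by rw [hbit]; exact hβ i, ?_⟩
    ext x
    constructor
    · rintro ⟨i, hi1, rfl⟩
      rw [hbit] at hi1
      rw [hpt]
      exact hβS i hi1
    · intro hx
      have hne : S.Nonempty := ⟨x, hx⟩
      rw [he hne] at hx
      obtain ⟨k, rfl⟩ := hx
      have h3 : ¬ 2 * (Nat.pair (Nat.pair k s.length) 0 + 1) < s.length := by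
        have h4 := Nat.left_le_pair (Nat.pair k s.length) 0
        have h5 := Nat.right_le_pair k s.length
        omega
      obtain ⟨h4, h5⟩ := hun _ h3 hne
      refine ⟨Nat.pair k s.length, by rw [hbit]; exact h4, ?_⟩
      rw [hpt, h5, Nat.unpair_pair]
  refine ⟨q, ⟨?_, P, hP, ?_, ?_⟩, hq0, ?_⟩
  · rw [hq1, hodd]; exact hP
  · have h3 : (fun i => (fun i => q (2 * i)) (i + 1)) = z := funext hq2
    rw [h3]; exact hlists
  · show Counts (q (2 * 0)) _
    rw [Nat.mul_zero, hq0]; exact hc
  · have h3 : rs q s.length = rs (ent s) s.length := by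
      refine rs_eq_iff.2 fun k hk => ?_
      rcases Nat.even_or_odd' k with ⟨m, hm | hm⟩
      · cases m with
        | zero =>
          have : k = 0 := by omega
          subst this
          rw [hq0, h0 hk]
        | succ m =>
          rw [hm, hq2]
          obtain ⟨i, j, hij⟩ : ∃ i j, Nat.pair i j = m := ⟨_, _, Nat.pair_unpair m⟩
          subst hij
          rw [hm] at hk
          cases j with
          | zero =>
            have : z (Nat.pair i 0) = β i := hbit i
            rw [this, hβs i hk]
          | succ j =>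
            have : z (Nat.pair i (j + 1)) = ξ i j := congrFun (hpt i) j
            rw [this, hξs i j hk]
      · rw [hm]
        have h4 : q (2 * m + 1) = odd m := congrFun hq1 m
        rw [h4]
        rw [hm] at hk
        simp only [odd, hk, if_true]
    rw [h3, rs_ent]

end Pool.Agent.V11327.WB
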