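import Pool.Agent.V11327.WBcoan

/-!
Names of closed sets with exactly one point in a given cylinder form a coanalytic set.
-/

set_option autoImplicit false

namespace Pool.Agent.V11327.WB

open Set Topology MeasureTheory

/-- The basic open set with code `k` contains the cylinder of `s`. -/
def Hits (k : ℕ) (s : List ℕ) : Prop :=
  ∃ n w, k = n + 1 ∧ (Encodable.decode n : Option (List ℕ)) = some w ∧ w <:+ s

/-- The tree of the closed set named by `r`, inside the cylinder of `u`. -/
def Tn (r : B) (u : List ℕ) (s : List ℕ) : Prop :=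
  (s <:+ u ∨ u <:+ s) ∧ ∀ i < s.length, ¬ Hits (r i) s

theorem hits_rs {k : ℕ} {y : B} {n : ℕ} (h : Hits k (rs y n)) : y ∈ bas k := by
  obtain ⟨m, w, rfl, h1, h2⟩ := h
  exact ⟨w, h1, suffix_rs h2⟩

theorem bas_hits {k : ℕ} {y : B} (h : y ∈ bas k) : ∃ N, ∀ n, N ≤ n → Hits k (rs y n) := by
  cases k with
  | zero => exact absurd h (by simp [bas])
  | succ m =>
    obtain ⟨w, h1, h2⟩ := h
    refine ⟨w.length, fun n hn => ⟨m, w, rfl, h1, ?_⟩⟩
    rw [← h2]
    exact rs_suffix y hn

theorem isTr_Tn (r : B) (u : List ℕ) : IsTr (Tn r u) := by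
  rintro a s ⟨h1, h2⟩
  refine ⟨?_, fun i hi hh => ?_⟩
  · rcases h1 with h1 | h1
    · exact Or.inl ((List.suffix_cons a s).trans h1)
    · rw [List.suffix_cons_iff] at h1
      rcases h1 with h1 | h1
      · rw [h1]; exact Or.inl (List.suffix_cons a s)
      · exact Or.inr h1
  · apply h2 i (by simp; omega)
    obtain ⟨n, w, h3, h4, h5⟩ := hh
    exact ⟨n, w, h3, h4, h5.trans (List.suffix_cons a s)⟩

theorem brAt_Tn {r : B} {u : List ℕ} {y : B} :
    BrAt (Tn r u) [] y ↔ y ∈ named r ∧ rs y u.length = u := by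
  constructor
  · intro h
    refine ⟨fun i hi => ?_, ?_⟩
    · obtain ⟨N, hN⟩ := bas_hits hi
      have h1 := h (max N (i + 1))
      rw [List.append_nil] at h1
      exact h1.2 i (by rw [rs_length]; omega) (hN _ (le_max_left _ _))
    · have h1 := h u.length
      rw [List.append_nil] at h1
      rcases h1.1 with h2 | h2
      · exact List.IsSuffix.eq_of_length h2 (by simp)
      · exact (List.IsSuffix.eq_of_length h2 (by simp)).symm
  · rintro ⟨h1, h2⟩ n
    rw [List.append_nil]
    refine ⟨?_, fun i _ hh => h1 i (hits_rs hh)⟩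
    rcases le_total n u.length with h | h
    · left; rw [← h2]; exact rs_suffix y h
    · right
      have := rs_suffix y h
      rwa [h2] at this

theorem meas_Tn (u s : List ℕ) : MeasurableSet {r : B | Tn r u s} := by
  have h : {r : B | Tn r u s} = {_r : B | s <:+ u ∨ u <:+ s} ∩
      ⋂ i : ℕ, ({_r : B | i < s.length}ᶜ ∪ (fun r : B => r i) ⁻¹' {k | ¬ Hits k s}) := by
    ext r
    simp only [Tn, mem_ofPred_eq, mem_inter_iff, mem_iInter, mem_union, mem_compl_iff,
      mem_preimage, imp_iff_not_or]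
  rw [h]
  refine (MeasurableSet.const _).inter (MeasurableSet.iInter fun i =>
    (MeasurableSet.const _).compl.union ?_)
  exact (measurable_pi_apply i) (MeasurableSet.of_discrete)

theorem rs_shift (x : B) (n k : ℕ) : rs (fun m => x (n + m)) k ++ rs x n = rs x (n + k) := by
  induction k with
  | zero => rfl
  | succ k ih =>
    show x (n + k) :: (rs (fun m => x (n + m)) k ++ rs x n) = x (n + k) :: rs x (n + k)
    rw [ih]

theorem brAt_app {T : List ℕ → Prop} (hT : IsTr T) {s : List ℕ} {y : B} (h : BrAt T s y) :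
    BrAt T [] (app s y) := by
  intro n
  rw [List.append_nil]
  have h1 : T (rs (app s y) (s.length + n)) := by
    rw [rs_app]; exact h n
  exact hT.suffix h1 (rs_suffix _ (by omega))

theorem brAt_shift {T : List ℕ → Prop} {y : B} (h : BrAt T [] y) (n : ℕ) :
    BrAt T (rs y n) (fun m => y (n + m)) := by
  intro k
  rw [rs_shift]
  have := h (n + k)
  rwa [List.append_nil] at this

/-- The closed set named by `r` has exactly one point in the cylinder of `u`. -/
def Sing (r : B) (u : List ℕ) : Prop := ∃! y, y ∈ named r ∧ rs y u.length = u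

theorem sing_iff (r : B) (u : List ℕ) : Sing r u ↔ ∀ n : ℕ, ∃ s : List ℕ, (s.length = n ∧
    Tn r u s) ∧ ∀ t : List ℕ, (t.length = n ∧ Tn r u t ∧ t ≠ s) →
      ¬ Mn (Tn r u) s (Tn r u) t := by
  have hT := isTr_Tn r u
  constructor
  · rintro ⟨x, hx, huniq⟩ n
    have hb := brAt_Tn.2 hx
    refine ⟨rs x n, ⟨by simp, by simpa using hb n⟩, ?_⟩
    rintro t ⟨ht1, ht2, ht3⟩ hM
    obtain ⟨z, hz⟩ := hM.branch (brAt_shift hb n)
    have h1 := huniq _ (brAt_Tn.1 (brAt_app hT hz))
    apply ht3
    rw [← h1, ← ht1]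
    exact (rs_app_self t z).symm
  · intro h
    choose S hS hS2 using h
    have hthin : ∀ n t, t.length = n → Tn r u t → t ≠ S n → WFt (Tn r u) t := by
      intro n t h1 h2 h3 y hy
      exact hS2 n t ⟨h1, h2, h3⟩ (Mn.of_branch hy)
    have huniq : ∀ y, BrAt (Tn r u) [] y → ∀ n, rs y n = S n := by
      intro y hy n
      by_contra hne
      exact hthin n (rs y n) (by simp) (by simpa using hy n) hne _ (brAt_shift hy n)
    have hex : ∃ y, BrAt (Tn r u) [] y := by
      by_contra hno
      push Not at hno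
      have hwf : ∀ s, WFt (Tn r u) s := fun s y hy => hno _ (brAt_app hT hy)
      have hacc : ∀ s, Acc (Chd (Tn r u)) s := fun s => chd_wf hT (hwf s)
      have hdec : ∀ n, rk (Tn r u) (S (n + 1)) < rk (Tn r u) (S n) := by
        intro n
        have h1 := (hS (n + 1)).1
        cases hs : S (n + 1) with
        | nil => rw [hs] at h1; simp at h1
        | cons a s' =>
          have h2 : Tn r u (a :: s') := by rw [← hs]; exact (hS (n + 1)).2
          have h3 : Tn r u s' := hT _ _ h2
          have h4 := rk_lt (hacc s') h2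
          by_cases h5 : s' = S n
          · rw [← h5]; exact h4
          · have h6 : s'.length = n := by rw [hs] at h1; simpa using h1
            obtain ⟨b, hb1, hb2⟩ := Mn.total hT hT (hacc s') (S n) h3
              (hS2 n s' ⟨h6, h3, h5⟩)
            have h7 := Mn.rk_le hT hT hb2 (hwf _)
            exact h4.trans (h7.trans_lt (rk_lt (hacc _) hb1))
      obtain ⟨m, ⟨k, rfl⟩, hm⟩ := (wellFounded_lt (α := Ordinal)).has_min
        (range fun n => rk (Tn r u) (S n)) ⟨_, 0, rfl⟩
      exact hm _ ⟨k + 1, rfl⟩ (hdec k)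
    obtain ⟨y, hy⟩ := hex
    refine ⟨y, brAt_Tn.1 hy, fun z hz => ?_⟩
    have hz' := brAt_Tn.2 hz
    funext i
    have h1 : rs z (i + 1) = rs y (i + 1) := by rw [huniq z hz', huniq y hy]
    exact rs_eq_iff.1 h1 i (Nat.lt_succ_self i)

theorem coA_sing (u : List ℕ) : CoA {r : B | Sing r u} := by
  have h : {r : B | Sing r u} = {r | ∀ n : ℕ, ∃ s : List ℕ, (s.length = n ∧
    Tn r u s) ∧ ∀ t : List ℕ, (t.length = n ∧ Tn r u t ∧ t ≠ s) →
      ¬ Mn (Tn r u) s (Tn r u) t} := by
    ext r; exact sing_iff r u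
  rw [h]
  refine CoA.forall' fun n => CoA.exists' fun s => CoA.and (CoA.and (CoA.const _)
    (CoA.of_meas (meas_Tn u s))) (CoA.forall' fun t => CoA.imp ?_
      (coA_not_Mn (meas_Tn u) (meas_Tn u) s t))
  exact (MeasurableSet.const _).inter ((meas_Tn u t).inter (MeasurableSet.const _))

end Pool.Agent.V11327.WB
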