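import Pool.Agent.V11327.WBdefs

/-!
Comparison of well-founded trees by embeddings.
-/

set_option autoImplicit false

namespace Pool.Agent.V11327.WB

open Set Topology

/-- Closed under initial segments. -/
def IsTr (R : List ℕ → Prop) : Prop := ∀ a s, R (a :: s) → R s

/-- `y` is a branch above the node `s`. -/
def BrAt (R : List ℕ → Prop) (s : List ℕ) (y : B) : Prop := ∀ n, R (rs y n ++ s)

/-- No infinite branch above the node `s`. -/
def WFt (R : List ℕ → Prop) (s : List ℕ) : Prop := ∀ y, ¬ BrAt R s y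

/-- The map of nodes given by `f`. -/
def mp (f : List ℕ → ℕ) : List ℕ → List ℕ
  | [] => []
  | a :: s => f (a :: s) :: mp f s

/-- The part of `S` above `s` embeds into the part of `R` above `r`. -/
def Mn (S : List ℕ → Prop) (s : List ℕ) (R : List ℕ → Prop) (r : List ℕ) : Prop :=
  ∃ f : List ℕ → ℕ, ∀ t, S (t ++ s) → R (mp f t ++ r)

theorem IsTr.append {R : List ℕ → Prop} (hR : IsTr R) (t s : List ℕ) (h : R (t ++ s)) : R s := by
  induction t with
  | nil => exact h
  | cons a t ih => exact ih (hR a _ h)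

theorem IsTr.suffix {R : List ℕ → Prop} (hR : IsTr R) {t s : List ℕ} (h : R t) (hs : s <:+ t) :
    R s := by
  obtain ⟨u, rfl⟩ := hs
  exact hR.append u s h

theorem mp_snoc (f : List ℕ → ℕ) (b : ℕ) (g : ℕ → List ℕ → ℕ) (a : ℕ) (u : List ℕ)
    (h1 : f [a] = b) (h2 : ∀ c v, f (c :: v ++ [a]) = g a (c :: v)) :
    mp f (u ++ [a]) = mp (g a) u ++ [b] := by
  induction u with
  | nil => simp [mp, h1]
  | cons c u ih =>
    have h3 : mp f (c :: u ++ [a]) = f (c :: u ++ [a]) :: mp f (u ++ [a]) := rfl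
    rw [h3, h2, ih]
    rfl

theorem Mn.step {S R : List ℕ → Prop} {s r : List ℕ} (h0 : S s → R r)
    (h : ∀ a, S (a :: s) → ∃ b, Mn S (a :: s) R (b :: r)) (hS : IsTr S) : Mn S s R r := by
  classical
  choose! b hb using h
  choose! g hg using hb
  let f : List ℕ → ℕ := fun t => match t.reverse with
    | [] => 0
    | a :: [] => b a
    | a :: c :: w => g a (c :: w).reverse
  have f1 : ∀ a, f [a] = b a := fun a => rfl
  have f2 : ∀ a c v, f (c :: v ++ [a]) = g a (c :: v) := by
    intro a c v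
    have h1 : (c :: v ++ [a]).reverse = a :: (c :: v).reverse := by simp
    have h2 : (c :: v).reverse ≠ [] := by simp
    obtain ⟨c', w, h3⟩ := List.exists_cons_of_ne_nil h2
    show (match (c :: v ++ [a]).reverse with
      | [] => 0
      | a :: [] => b a
      | a :: c :: w => g a (c :: w).reverse) = _
    rw [h1, h3]
    simp only
    rw [← h3, List.reverse_reverse]
  refine ⟨f, fun t ht => ?_⟩
  rcases List.eq_nil_or_concat t with rfl | ⟨u, a, rfl⟩
  · exact h0 ht
  · rw [List.concat_eq_append] at ht ⊢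
    rw [mp_snoc f (b a) g a u (f1 a) (fun c v => f2 a c v)]
    have h1 : (u ++ [a]) ++ s = u ++ a :: s := by simp
    rw [h1] at ht
    have h2 := hg a (hS.append u _ ht) u ht
    have h3 : mp (g a) u ++ [b a] ++ r = mp (g a) u ++ b a :: r := by simp
    rw [h3]
    exact h2

/-- The child relation of a tree. -/
def Chd (R : List ℕ → Prop) (t s : List ℕ) : Prop := R t ∧ ∃ a, t = a :: s

/-- Put `a` in front of `y`. -/
def cns (a : ℕ) (y : B) : B := fun n => Nat.casesOn n a y

theorem rs_cns (a : ℕ) (y : B) (n : ℕ) : rs (cns a y) (n + 1) = rs y n ++ [a] := by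
  induction n with
  | zero => rfl
  | succ n ih =>
    have : rs (cns a y) (n + 1 + 1) = y n :: rs (cns a y) (n + 1) := rfl
    rw [this, ih]
    rfl

/-- The sequence with initial segment `s`, followed by `y`. -/
def app : List ℕ → B → B
  | [], y => y
  | a :: s, y => app s (cns a y)

theorem rs_app (s : List ℕ) : ∀ (y : B) (n : ℕ), rs (app s y) (s.length + n) = rs y n ++ s := by
  induction s with
  | nil => intro y n; simp [app]
  | cons a s ih =>
    intro y n
    have h1 : (a :: s).length + n = s.length + (n + 1) := by simp; omega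
    rw [h1]
    show rs (app s (cns a y)) _ = _
    rw [ih, rs_cns]
    simp

theorem rs_app_self (s : List ℕ) (y : B) : rs (app s y) s.length = s := by
  have := rs_app s y 0
  simpa [rs] using this

theorem chd_wf {R : List ℕ → Prop} (hR : IsTr R) {s : List ℕ} (h : WFt R s) :
    Acc (Chd R) s := by
  classical
  by_contra hcon
  have hstep : ∀ t : {t // ¬ Acc (Chd R) t}, ∃ a, R (a :: t.1) ∧ ¬ Acc (Chd R) (a :: t.1) := by
    rintro ⟨t, ht⟩
    by_contra h2
    push Not at h2
    apply ht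
    constructor
    rintro t' ⟨h3, a, rfl⟩
    exact h2 a h3
  choose nx hn1 hn2 using hstep
  let S : ℕ → {t // ¬ Acc (Chd R) t} := fun n =>
    Nat.rec ⟨s, hcon⟩ (fun _ t => ⟨nx t :: t.1, hn2 t⟩) n
  have hS : ∀ n, (S (n + 1)).1 = nx (S n) :: (S n).1 := fun n => rfl
  let y : B := fun n => nx (S n)
  have h1 : ∀ n, (S n).1 = rs y n ++ s := by
    intro n
    induction n with
    | zero => rfl
    | succ n ih => rw [hS, ih]; rfl
  apply h y
  intro n
  have h2 : R (nx (S n) :: (S n).1) := hn1 (S n)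
  have h3 := hR _ _ h2
  rw [h1] at h3
  exact h3

/-- A tree with an infinite branch above `r` receives everything. -/
theorem Mn.of_branch {S R : List ℕ → Prop} {s r : List ℕ} {y : B} (h : BrAt R r y) :
    Mn S s R r := by
  refine ⟨fun t => y (t.length - 1), fun t _ => ?_⟩
  have : ∀ t, mp (fun t => y (t.length - 1)) t = rs y t.length := by
    intro t
    induction t with
    | nil => rfl
    | cons a t ih => simp [mp, rs, ih]
  rw [this]
  exact h _

/-- Branches are carried along. -/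
theorem Mn.branch {S R : List ℕ → Prop} {s r : List ℕ} (h : Mn S s R r) {y : B}
    (hy : BrAt S s y) : ∃ z, BrAt R r z := by
  obtain ⟨f, hf⟩ := h
  refine ⟨fun n => f (rs y (n + 1)), fun n => ?_⟩
  have : rs (fun n => f (rs y (n + 1))) n = mp f (rs y n) := by
    induction n with
    | zero => rfl
    | succ n ih =>
      show f (rs y (n + 1)) :: rs (fun n => f (rs y (n + 1))) n = f (y n :: rs y n) :: mp f (rs y n)
      rw [ih]
      rfl
  rw [this]
  exact hf _ (hy n)

/-- Comparability. -/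
theorem Mn.total {S R : List ℕ → Prop} (hS : IsTr S) (hR : IsTr R) {r : List ℕ}
    (hr : Acc (Chd R) r) : ∀ s, R r → ¬ Mn S s R r → ∃ a, S (a :: s) ∧ Mn R r S (a :: s) := by
  induction hr with
  | intro r hr ih =>
    intro s hRr hns
    have h1 : ¬ ∀ a, S (a :: s) → ∃ b, Mn S (a :: s) R (b :: r) := fun h =>
      hns (Mn.step (fun _ => hRr) h hS)
    push Not at h1
    obtain ⟨a, ha, h2⟩ := h1
    refine ⟨a, ha, Mn.step (fun _ => ha) (fun b hb => ?_) hR⟩
    exact (ih (b :: r) ⟨hb, b, rfl⟩ (a :: s) hb (h2 b)).imp fun a' h => h.2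

/-- The rank of a node. -/
noncomputable def rk (R : List ℕ → Prop) (s : List ℕ) : Ordinal :=
  open Classical in if h : Acc (Chd R) s then h.rank else 0

theorem rk_lt {R : List ℕ → Prop} {s : List ℕ} (h : Acc (Chd R) s) {a : ℕ} (ha : R (a :: s)) :
    rk R (a :: s) < rk R s := by
  have h1 : Chd R (a :: s) s := ⟨ha, a, rfl⟩
  have h2 := h.inv h1
  rw [rk, rk, dif_pos h, dif_pos h2]
  exact Acc.rank_lt_of_rel h h1

theorem rk_le {R : List ℕ → Prop} {s : List ℕ} (h : Acc (Chd R) s) {o : Ordinal}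
    (ho : ∀ a, R (a :: s) → rk R (a :: s) < o) : rk R s ≤ o := by
  rw [rk, dif_pos h, Acc.rank_eq]
  refine ciSup_le' ?_
  rintro ⟨t, ht, a, rfl⟩
  rw [Order.succ_le_iff]
  have := ho a ht
  rw [rk, dif_pos (h.inv ⟨ht, a, rfl⟩)] at this
  exact this

theorem Mn.acc {S R : List ℕ → Prop} {s r : List ℕ} (hS : IsTr S) (hR : IsTr R) (h : Mn S s R r)
    (hr : WFt R r) : WFt S s := by
  intro y hy
  obtain ⟨z, hz⟩ := h.branch hy
  exact hr z hz

theorem Mn.rk_le_aux {S R : List ℕ → Prop} (hS : IsTr S) (hR : IsTr R)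
    {s r : List ℕ} (f : List ℕ → ℕ) (hf : ∀ t, S (t ++ s) → R (mp f t ++ r))
    (hr : WFt R r) {t : List ℕ} (ht : Acc (Chd S) (t ++ s)) :
    rk S (t ++ s) ≤ rk R (mp f t ++ r) := by
  have hRacc : ∀ t, Acc (Chd R) (mp f t ++ r) := by
    intro t
    induction t with
    | nil => exact chd_wf hR hr
    | cons a t ih =>
      by_cases h : R (mp f (a :: t) ++ r)
      · exact ih.inv ⟨h, _, rfl⟩
      · constructor
        rintro t' ⟨h1, b, rfl⟩
        exact absurd (hR _ _ h1) h
  generalize hu : t ++ s = u at ht ⊢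
  induction ht generalizing t with
  | intro u hu' ih =>
    refine rk_le ⟨_, hu'⟩ (fun a ha => ?_)
    subst hu
    have h1 : Chd S (a :: (t ++ s)) (t ++ s) := ⟨ha, a, rfl⟩
    have h2 := ih _ h1 (t := a :: t) rfl
    refine lt_of_le_of_lt h2 ?_
    exact rk_lt (hRacc t) (hf (a :: t) ha)

theorem Mn.rk_le {S R : List ℕ → Prop} (hS : IsTr S) (hR : IsTr R)
    {s r : List ℕ} (h : Mn S s R r) (hr : WFt R r) : rk S s ≤ rk R r := by
  obtain ⟨f, hf⟩ := h
  exact Mn.rk_le_aux hS hR f hf hr (t := []) (chd_wf hS (Mn.acc hS hR ⟨f, hf⟩ hr))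

/-- Strict comparison. -/
def Ms (S : List ℕ → Prop) (R : List ℕ → Prop) : Prop := ∃ b, Mn S [] R [b]

/-- The choice of a tree of least rank, with least index. -/
def Best {ι : Type} (e : ι → ℕ) (C : ι → Prop) (R : ι → List ℕ → Prop) (c : ι) : Prop :=
  C c ∧ ∀ c', C c' → (e c' < e c → ¬ Mn (R c') [] (R c) []) ∧ (e c ≤ e c' → ¬ Ms (R c') (R c))

theorem Best.wf {ι : Type} {e : ι → ℕ} {C : ι → Prop} {R : ι → List ℕ → Prop} {c : ι}
    (h : Best e C R c) : WFt (R c) [] := by
  intro y hy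
  apply (h.2 c h.1).2 le_rfl
  refine ⟨y 0, Mn.of_branch (y := fun n => y (n + 1)) fun n => ?_⟩
  have h1 : rs (fun n => y (n + 1)) n ++ [y 0] = rs y (n + 1) := by
    rw [← rs_cns]
    congr 1
    funext n
    cases n <;> rfl
  rw [h1]
  have := hy (n + 1)
  rwa [List.append_nil] at this

theorem Best.unique {ι : Type} {e : ι → ℕ} (he : Function.Injective e) {C : ι → Prop}
    {R : ι → List ℕ → Prop} (hR : ∀ c, IsTr (R c)) (h0 : ∀ c, R c []) {c c' : ι}
    (h : Best e C R c) (h' : Best e C R c') : c = c' := by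
  have key : ∀ c c' : ι, Best e C R c → Best e C R c' → ¬ e c < e c' := by
    intro c c' h h' hlt
    have h1 := (h'.2 c h.1).1 hlt
    obtain ⟨a, -, h2⟩ := Mn.total (hR c) (hR c') (chd_wf (hR c') h'.wf) [] (h0 c') h1
    exact (h.2 c' h'.1).2 hlt.le ⟨a, h2⟩
  rcases lt_trichotomy (e c) (e c') with h1 | h1 | h1
  · exact absurd h1 (key _ _ h h')
  · exact he h1
  · exact absurd h1 (key _ _ h' h)

theorem Best.exists {ι : Type} (e : ι → ℕ) {C : ι → Prop}
    {R : ι → List ℕ → Prop} (hR : ∀ c, IsTr (R c)) (h0 : ∀ c, R c []) {c : ι} (hc : C c)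
    (hwf : WFt (R c) []) : ∃ c, Best e C R c := by
  classical
  let Q : Set ι := {c | C c ∧ WFt (R c) []}
  have hQ : Q.Nonempty := ⟨c, hc, hwf⟩
  obtain ⟨c1, hc1, hmin1⟩ : ∃ c1 ∈ Q, ∀ c ∈ Q, rk (R c1) [] ≤ rk (R c) [] := by
    have hne : ((fun c => rk (R c) []) '' Q).Nonempty := hQ.image _
    obtain ⟨c1, h1, h2⟩ := csInf_mem hne
    refine ⟨c1, h1, fun c hc => ?_⟩
    have h3 : sInf ((fun c => rk (R c) []) '' Q) ≤ rk (R c) [] := csInf_le' ⟨c, hc, rfl⟩
    rw [← h2] at h3
    exact h3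
  let Q2 : Set ℕ := {n | ∃ c ∈ Q, rk (R c) [] ≤ rk (R c1) [] ∧ e c = n}
  have hQ2 : Q2.Nonempty := ⟨e c1, c1, hc1, le_rfl, rfl⟩
  obtain ⟨c2, hc2, h2, h3⟩ := Nat.sInf_mem hQ2
  refine ⟨c2, hc2.1, fun c' hc' => ⟨fun hlt hM => ?_, fun hle hM => ?_⟩⟩
  · have h4 := Mn.acc (hR _) (hR _) hM hc2.2
    have h5 := Mn.rk_le (hR _) (hR _) hM hc2.2
    have h6 : e c' ∈ Q2 := ⟨c', ⟨hc', h4⟩, h5.trans h2, rfl⟩
    have := Nat.sInf_le h6
    omega
  · obtain ⟨b, hb⟩ := hM
    have hwf2 : WFt (R c2) [b] := by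
      intro y hy
      apply hc2.2 (cns b y)
      intro n
      cases n with
      | zero => exact h0 c2
      | succ n =>
        rw [List.append_nil, rs_cns]
        exact hy n
    have h4 := Mn.acc (hR _) (hR _) hb hwf2
    have h5 := Mn.rk_le (hR _) (hR _) hb hwf2
    have h7 : R c2 [b] := by
      obtain ⟨f, hf⟩ := hb
      exact hf [] (h0 c')
    have h6 := rk_lt (chd_wf (hR _) hc2.2) h7
    have h8 := hmin1 c' ⟨hc', h4⟩
    exact absurd (h6.trans_le (h2.trans h8)) (not_lt.2 h5)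

end Pool.Agent.V11327.WB
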