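import Pool.Agent.V11327.WCweight

/-! # The tree is infinite, connected, locally finite; its weighted Cheeger constant -/

open MeasureTheory
open scoped ENNReal NNReal

namespace Pool.Agent.V11327.WC

/-! ### Basic properties of the tree -/

lemma rep_chain (n : ℕ) : (List.replicate n (Sum.inl 0 : Letter)).IsChain ok :=
  List.isChain_replicate_of_rel n trivial

/-- The vertices `(inl 0)^n`. -/
def rep (n : ℕ) : TV := ⟨List.replicate n (Sum.inl 0 : Letter), rep_chain n⟩

lemma rep_injective : Function.Injective rep := by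
  intro m n h
  have h1 : List.replicate m (Sum.inl 0 : Letter) = List.replicate n (Sum.inl 0 : Letter) :=
    congrArg Subtype.val h
  have := congrArg List.length h1
  simpa using this

instance : Infinite TV := Infinite.of_injective rep rep_injective

lemma reach_root (x : TV) : T.Reachable root x := by
  obtain ⟨l, hl⟩ := x
  induction l using List.reverseRecOn with
  | nil => exact SimpleGraph.Reachable.refl _
  | append_singleton l c ih =>
    refine (ih hl.left_of_append).trans (SimpleGraph.Adj.reachable ?_)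
    exact adj_iff.2 (Or.inl ⟨c, rfl⟩)

lemma connected : T.Connected :=
  haveI : Nonempty TV := ⟨root⟩
  ⟨fun x y => (reach_root x).symm.trans (reach_root y)⟩

lemma locallyFinite (x : TV) : (T.neighborSet x).Finite := by
  have h1 : {z | Arrow x z}.Finite := Set.finite_of_ncard_ne_zero (by rw [ncard_out]; norm_num)
  have h2 : {z | Arrow z x}.Finite := Set.finite_of_ncard_ne_zero (by rw [ncard_in]; norm_num)
  refine (h1.union h2).subset ?_
  rintro z (hz | hz)
  · exact Or.inl hz
  · exact Or.inr hz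

/-! ### The weight of the children of a vertex -/

lemma chain_snoc {l : List Letter} {d c : Letter} (h : (l ++ [d]).IsChain ok) (hdc : ok d c) :
    ((l ++ [d]) ++ [c]).IsChain ok := by
  have : (l ++ [d]) ++ [c] = l ++ d :: c :: [] := by simp
  rw [this, List.isChain_append_cons_cons]
  exact ⟨h, hdc, List.isChain_singleton _⟩

open Classical in
/-- The children of a word have total weight at least 18 times the weight of the word. -/
lemma children_weight (l : List Letter) (h : l.IsChain ok) :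
    18 * g l ≤ ∑ c : Letter, if (l ++ [c]).IsChain ok then g (l ++ [c]) else 0 := by
  have hval1 : ∀ i : Fin 2, g (l ++ [.inl i]) = g l * 16 := fun i => by rw [g_append]; rfl
  have hval2 : ∀ j : Fin 32, g (l ++ [.inr j]) = g l * (1 / 16) := fun j => by rw [g_append]; rfl
  rw [Fintype.sum_sum_type]
  have caseA : (∀ i : Fin 2, (l ++ [Sum.inl i]).IsChain ok) →
      18 * g l ≤ (∑ i : Fin 2, if (l ++ [Sum.inl i]).IsChain ok then g (l ++ [Sum.inl i]) else 0)
        + ∑ j : Fin 32, if (l ++ [Sum.inr j]).IsChain ok then g (l ++ [Sum.inr j]) else 0 := by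
    intro hA
    have h1 : (∑ i : Fin 2, if (l ++ [Sum.inl i]).IsChain ok then g (l ++ [Sum.inl i]) else 0)
        = 32 * g l := by
      rw [Finset.sum_congr rfl (fun i _ => by rw [if_pos (hA i), hval1 i]), Finset.sum_const,
        Finset.card_univ, Fintype.card_fin, nsmul_eq_mul]
      push_cast
      ring
    rw [h1]
    calc 18 * g l ≤ 32 * g l := by gcongr; norm_num
      _ ≤ _ := le_self_add
  rcases List.eq_nil_or_concat l with rfl | ⟨l', d, rfl⟩
  · exact caseA (fun i => List.isChain_singleton _)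
  · rw [List.concat_eq_append] at *
    rcases d with i' | j'
    · exact caseA (fun i => chain_snoc h trivial)
    · -- the last letter is `inr`
      have h0 : (l' ++ [Sum.inr j'] ++ [Sum.inl 0]).IsChain ok :=
        chain_snoc h (by change (0 : Fin 2) ≠ 1; decide)
      have h2 : ∀ j : Fin 32, (l' ++ [Sum.inr j'] ++ [Sum.inr j]).IsChain ok :=
        fun j => chain_snoc h trivial
      have e1 : 16 * g (l' ++ [.inr j']) ≤ ∑ i : Fin 2,
          if (l' ++ [Sum.inr j'] ++ [Sum.inl i]).IsChain ok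
            then g (l' ++ [Sum.inr j'] ++ [Sum.inl i]) else 0 := by
        refine le_trans ?_ (Finset.single_le_sum (fun _ _ => zero_le) (Finset.mem_univ 0))
        rw [if_pos h0, hval1 0, mul_comm]
      have e2 : 2 * g (l' ++ [.inr j']) = ∑ j : Fin 32,
          if (l' ++ [Sum.inr j'] ++ [Sum.inr j]).IsChain ok
            then g (l' ++ [Sum.inr j'] ++ [Sum.inr j]) else 0 := by
        rw [Finset.sum_congr rfl (fun j _ => by rw [if_pos (h2 j), hval2 j]), Finset.sum_const,
          Finset.card_univ, Fintype.card_fin, nsmul_eq_mul]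
        push_cast
        rw [mul_comm (g _) (1 / 16), ← mul_assoc]
        norm_num
      rw [← e2]
      calc 18 * g (l' ++ [.inr j']) = 16 * g (l' ++ [.inr j']) + 2 * g (l' ++ [.inr j']) := by
            ring
        _ ≤ _ := by gcongr

/-! ### The isoperimetric inequality -/

lemma wt_finset (F : Finset TV) : wt Gam root (F : Set TV) = ∑ x ∈ F, (g x.1 : ℝ≥0∞) := by
  rw [wt_eq]
  exact Finset.tsum_subtype' F (fun x : TV => (g x.1 : ℝ≥0∞))

lemma isoperimetric (F : Finset TV) :
    17 * wt Gam root (F : Set TV) ≤ wt Gam root (bdry T (F : Set TV)) := by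
  classical
  set K : Set TV := (F : Set TV) ∪ bdry T (F : Set TV) with hK
  -- the set of all pairs (vertex of F, letter) such that the child exists
  let P : Finset (TV × Letter) :=
    (F ×ˢ (Finset.univ : Finset Letter)).filter (fun p => (p.1.1 ++ [p.2]).IsChain ok)
  have hmem : ∀ p : P, (⟨p.1.1.1 ++ [p.1.2], (Finset.mem_filter.1 p.2).2⟩ : TV) ∈ K := by
    intro p
    have hp := Finset.mem_filter.1 p.2
    have hF : p.1.1 ∈ F := (Finset.mem_product.1 hp.1).1
    by_cases hy : (⟨p.1.1.1 ++ [p.1.2], hp.2⟩ : TV) ∈ (F : Set TV)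
    · exact Or.inl hy
    · refine Or.inr ⟨hy, p.1.1, hF, ?_⟩
      exact adj_iff.2 (Or.inr ⟨p.1.2, rfl⟩)
  let φ : P → K := fun p => ⟨⟨p.1.1.1 ++ [p.1.2], (Finset.mem_filter.1 p.2).2⟩, hmem p⟩
  have hφ : Function.Injective φ := by
    intro p q h
    have h1 : p.1.1.1 ++ [p.1.2] = q.1.1.1 ++ [q.1.2] := by
      have := congrArg (fun z : K => z.1.1) h
      exact this
    have h2 := List.append_inj' h1 rfl
    apply Subtype.ext
    apply Prod.ext
    · exact Subtype.ext h2.1
    · simpa using h2.2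
  have h1 : ∑' p : P, ((g (p.1.1.1 ++ [p.1.2]) : ℝ≥0) : ℝ≥0∞) ≤ wt Gam root K := by
    rw [wt_eq]
    exact ENNReal.tsum_comp_le_tsum_of_injective hφ (fun y : K => ((g y.1.1 : ℝ≥0) : ℝ≥0∞))
  have h2 : ∑' p : P, ((g (p.1.1.1 ++ [p.1.2]) : ℝ≥0) : ℝ≥0∞)
      = ∑ p ∈ P, ((g (p.1.1 ++ [p.2]) : ℝ≥0) : ℝ≥0∞) :=
    Finset.tsum_subtype P (fun p : TV × Letter => ((g (p.1.1 ++ [p.2]) : ℝ≥0) : ℝ≥0∞))
  have h3 : ∑ p ∈ P, ((g (p.1.1 ++ [p.2]) : ℝ≥0) : ℝ≥0∞)
      = ∑ x ∈ F, ((∑ c : Letter, if (x.1 ++ [c]).IsChain ok then g (x.1 ++ [c]) else 0 : ℝ≥0)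
          : ℝ≥0∞) := by
    rw [Finset.sum_filter, Finset.sum_product]
    refine Finset.sum_congr rfl (fun x _ => ?_)
    rw [ENNReal.ofNNReal_finsetSum]
    refine Finset.sum_congr rfl (fun c _ => ?_)
    split_ifs <;> simp
  have h4 : 18 * wt Gam root (F : Set TV) ≤ wt Gam root K := by
    rw [wt_finset, Finset.mul_sum]
    refine le_trans (Finset.sum_le_sum fun x _ => ?_) (h3 ▸ h2 ▸ h1)
    have := children_weight x.1 x.2
    calc (18 : ℝ≥0∞) * (g x.1 : ℝ≥0∞) = ((18 * g x.1 : ℝ≥0) : ℝ≥0∞) := by push_cast; rfl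
      _ ≤ _ := by exact_mod_cast this
  have h5 : wt Gam root K ≤ wt Gam root (F : Set TV) + wt Gam root (bdry T (F : Set TV)) := by
    rw [wt_eq, wt_eq, wt_eq]
    exact ENNReal.tsum_union_le (fun x : TV => ((g x.1 : ℝ≥0) : ℝ≥0∞)) _ _
  have hfin : wt Gam root (F : Set TV) ≠ ⊤ := by
    rw [wt_finset]
    exact ENNReal.sum_ne_top.2 (fun x _ => ENNReal.coe_ne_top)
  have h6 : wt Gam root (F : Set TV) + 17 * wt Gam root (F : Set TV)
      ≤ wt Gam root (F : Set TV) + wt Gam root (bdry T (F : Set TV)) := by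
    calc wt Gam root (F : Set TV) + 17 * wt Gam root (F : Set TV)
        = 18 * wt Gam root (F : Set TV) := by
          rw [← one_add_mul]; norm_num
      _ ≤ _ := h4.trans h5
  exact (ENNReal.add_le_add_iff_left hfin).1 h6

theorem cheeger_ge : 17 ≤ cheeger Gam root := by
  unfold cheeger
  refine le_iInf (fun F => ?_)
  have hfin : wt Gam root (F.1 : Set TV) ≠ ⊤ := by
    rw [wt_finset]
    exact ENNReal.sum_ne_top.2 (fun x _ => ENNReal.coe_ne_top)
  have hpos : wt Gam root (F.1 : Set TV) ≠ 0 := by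
    rw [wt_finset]
    obtain ⟨x, hx⟩ := F.2
    intro h0
    rw [Finset.sum_eq_zero_iff] at h0
    have := h0 x hx
    have hg := g_pos x.1
    rw [ENNReal.coe_eq_zero] at this
    exact hg.ne' this
  rw [ENNReal.le_div_iff_mul_le (Or.inl hpos) (Or.inl hfin)]
  exact isoperimetric F.1

end Pool.Agent.V11327.WC
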