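import Mathlib

/-! # Heavy clusters on graphs with a transitive group: definitions (MP_6c3571_pr) -/

open MeasureTheory
open scoped ENNReal NNReal

namespace Pool.Agent.V11327.WC

variable {V : Type} {G : SimpleGraph V}

/-- The orbit `Γ_x y` of the vertex `y` under the stabiliser of the vertex `x` in `Γ`. -/
def orb (Γ : Subgroup (G ≃g G)) (x y : V) : Set V := {z | ∃ γ ∈ Γ, γ x = x ∧ γ y = z}

/-- The relative weight `w^y(x) = |Γ_x y| / |Γ_y x|`. -/
noncomputable def relWeight (Γ : Subgroup (G ≃g G)) (y x : V) : ℝ≥0∞ :=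
  ((orb Γ x y).ncard : ℝ≥0∞) / ((orb Γ y x).ncard : ℝ≥0∞)

/-- The weight `w(K) = ∑_{x ∈ K} w^o(x)` of a set of vertices. -/
noncomputable def wt (Γ : Subgroup (G ≃g G)) (o : V) (K : Set V) : ℝ≥0∞ :=
  ∑' x : K, relWeight Γ o x

/-- `Γ` is closed in `Aut(G)` for the topology of pointwise convergence: an automorphism which
agrees on every finite set of vertices with an element of `Γ` belongs to `Γ`. -/
def IsClosedGroup (Γ : Subgroup (G ≃g G)) : Prop :=
  ∀ φ : G ≃g G, (∀ S : Finset V, ∃ γ ∈ Γ, ∀ v ∈ S, γ v = φ v) → φ ∈ Γ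

/-- `Γ` acts transitively on the vertices. -/
def IsTransitiveGroup (Γ : Subgroup (G ≃g G)) : Prop := ∀ x y : V, ∃ γ ∈ Γ, γ x = y

/-- The external vertex boundary of a set of vertices. -/
def bdry (G : SimpleGraph V) (F : Set V) : Set V := {y | y ∉ F ∧ ∃ x ∈ F, G.Adj y x}

/-- The weighted vertex Cheeger constant: the infimum of `w(∂_V F) / w(F)` over finite nonempty
sets `F` of vertices. -/
noncomputable def cheeger (Γ : Subgroup (G ≃g G)) (o : V) : ℝ≥0∞ :=
  ⨅ F : {F : Finset V // F.Nonempty},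
    wt Γ o (bdry G (F.1 : Set V)) / wt Γ o (F.1 : Set V)

/-- The law of the state of one edge: open (`true`) with probability `p`. -/
noncomputable def edgeLaw (p : Set.Icc (0 : ℝ) 1) : Measure Bool :=
  ENNReal.ofReal p.1 • Measure.dirac true + ENNReal.ofReal (1 - p.1) • Measure.dirac false

instance (p : Set.Icc (0 : ℝ) 1) : IsProbabilityMeasure (edgeLaw p) := by
  constructor
  unfold edgeLaw
  rw [Measure.add_apply, Measure.smul_apply, Measure.smul_apply, measure_univ, measure_univ,
    smul_eq_mul, smul_eq_mul, mul_one, mul_one,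
    ← ENNReal.ofReal_add p.2.1 (by linarith [p.2.2])]
  simp

/-- Bernoulli(`p`) bond percolation on `G`: the states of the edges are independent. -/
noncomputable def perc (G : SimpleGraph V) (p : Set.Icc (0 : ℝ) 1) :
    Measure (G.edgeSet → Bool) :=
  Measure.infinitePi (fun _ : G.edgeSet => edgeLaw p)

/-- The open subgraph of a configuration. -/
def openGraph (ω : G.edgeSet → Bool) : SimpleGraph V :=
  SimpleGraph.fromEdgeSet {e | ∃ h : e ∈ G.edgeSet, ω ⟨e, h⟩ = true}

/-- The open cluster of a vertex. -/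
def cluster (ω : G.edgeSet → Bool) (x : V) : Set V := {y | (openGraph ω).Reachable x y}

/-- The heavy-cluster threshold: the infimum of the `p ∈ [0,1]` for which some cluster is heavy
(has infinite weight) with positive probability. -/
noncomputable def pHeavy (Γ : Subgroup (G ≃g G)) (o : V) : ℝ :=
  sInf {p : ℝ | ∃ hp : p ∈ Set.Icc (0 : ℝ) 1,
    0 < perc G ⟨p, hp⟩ {ω | ∃ x : V, wt Γ o (cluster ω x) = ⊤}}

end Pool.Agent.V11327.WC
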