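import Pool.Agent.V11327.WCcheeger

/-! # No heavy cluster below 1/16 -/

open MeasureTheory
open scoped ENNReal NNReal

namespace Pool.Agent.V11327.WC

/-! ### The edges on the way from the root to a vertex -/

lemma take_chain (y : TV) (k : ℕ) : (y.1.take k).IsChain ok := by
  have h := y.2
  rw [← List.take_append_drop k y.1] at h
  exact h.left_of_append

/-- The prefix of length `k` of `y`. -/
def pre (y : TV) (k : ℕ) : TV := ⟨y.1.take k, take_chain y k⟩

lemma pre_adj (y : TV) (k : ℕ) (hk : k < y.1.length) : T.Adj (pre y k) (pre y (k + 1)) := by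
  refine adj_iff.2 (Or.inl ⟨y.1[k], ?_⟩)
  change y.1.take (k + 1) = y.1.take k ++ [y.1[k]]
  exact (List.take_concat_get' y.1 k hk).symm

/-- The `k`-th edge on the way from the root to `y`. -/
def edg (y : TV) (k : ℕ) (hk : k < y.1.length) : T.edgeSet :=
  ⟨s(pre y k, pre y (k + 1)), (SimpleGraph.mem_edgeSet T).2 (pre_adj y k hk)⟩

lemma edg_inj (y : TV) (k k' : ℕ) (hk : k < y.1.length) (hk' : k' < y.1.length)
    (h : edg y k hk = edg y k' hk') : k = k' := by
  have h1 : s(pre y k, pre y (k + 1)) = s(pre y k', pre y (k' + 1)) := congrArg Subtype.val h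
  have hlen : ∀ j, j ≤ y.1.length → (pre y j).1.length = j := by
    intro j hj
    change (y.1.take j).length = j
    rw [List.length_take]
    omega
  rw [Sym2.eq_iff] at h1
  rcases h1 with ⟨h1, h2⟩ | ⟨h1, h2⟩
  · have : (pre y k).1.length = (pre y k').1.length := congrArg (fun z : TV => z.1.length) h1
    rw [hlen k hk.le, hlen k' hk'.le] at this
    exact this
  · have e1 : (pre y k).1.length = (pre y (k' + 1)).1.length :=
      congrArg (fun z : TV => z.1.length) h1
    have e2 : (pre y (k + 1)).1.length = (pre y k').1.length :=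
      congrArg (fun z : TV => z.1.length) h2
    rw [hlen k hk.le, hlen (k' + 1) hk'] at e1
    rw [hlen (k + 1) hk, hlen k' hk'.le] at e2
    omega

/-- If `x` and `y` are connected by open edges, the edges on the way from the root to `y` at
height at least the height of `x` are open. -/
lemma edg_open (ω : T.edgeSet → Bool) (x y : TV) (h : (openGraph ω).Reachable x y) (k : ℕ)
    (hxk : x.1.length ≤ k) (hk : k < y.1.length) : ω (edg y k hk) = true := by
  obtain ⟨w⟩ := h
  set u : List Letter := y.1.take (k + 1) with hu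
  have hul : u.length = k + 1 := by
    rw [hu, List.length_take]; omega
  let S : Set TV := {z | ¬ u <+: z.1}
  have hxS : x ∈ S := by
    intro hx
    have := hx.length_le
    omega
  have hyS : y ∉ S := by
    intro hy
    exact hy (List.take_prefix _ _)
  obtain ⟨d, _, hd1, hd2⟩ := w.exists_boundary_dart S hxS hyS
  have hadj := d.adj
  change (SimpleGraph.fromEdgeSet _).Adj _ _ at hadj
  rw [SimpleGraph.fromEdgeSet_adj] at hadj
  obtain ⟨⟨hG, hopen⟩, _⟩ := hadj
  have hT : T.Adj d.fst d.snd := (SimpleGraph.mem_edgeSet T).1 hG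
  have hd2' : u <+: d.snd.1 := by
    by_contra hcon
    exact hd2 hcon
  -- the dart is the edge from `pre y k` to `pre y (k+1)`
  have hsnd : d.snd.1 = u ∧ d.fst.1 = y.1.take k := by
    rw [adj_iff] at hT
    rcases hT with ⟨c, hc⟩ | ⟨c, hc⟩
    · -- `d.snd = d.fst ++ [c]`
      have h1 : u = d.snd.1 := by
        rw [hc] at hd2' ⊢
        obtain ⟨t, ht⟩ := hd2'
        rcases List.eq_nil_or_concat t with rfl | ⟨t', c', rfl⟩
        · simpa using ht
        · exfalso
          rw [List.concat_eq_append, ← List.append_assoc] at ht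
          have := List.append_inj' ht rfl
          exact hd1 ⟨t', this.1⟩
      refine ⟨h1.symm, ?_⟩
      rw [← h1, hu, ← List.take_concat_get' y.1 k hk] at hc
      have := List.append_inj' hc rfl
      exact this.1.symm
    · exfalso
      apply hd1
      rw [hc]
      exact hd2'.trans (List.prefix_append _ _)
  have e : edg y k hk = ⟨s(d.fst, d.snd), hG⟩ := by
    apply Subtype.ext
    change s(pre y k, pre y (k + 1)) = s(d.fst, d.snd)
    have e1 : d.fst = pre y k := Subtype.ext hsnd.2
    have e2 : d.snd = pre y (k + 1) := Subtype.ext hsnd.1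
    rw [e1, e2]
  rw [e]
  exact hopen

/-- The relevant finite set of edges. -/
noncomputable def Edges (x y : TV) : Finset T.edgeSet := by
  classical
  exact (Finset.Ico x.1.length y.1.length).attach.image
    (fun k => edg y k.1 (Finset.mem_Ico.1 k.2).2)

lemma Edges_card (x y : TV) : (Edges x y).card = y.1.length - x.1.length := by
  classical
  unfold Edges
  rw [Finset.card_image_of_injective, Finset.card_attach, Nat.card_Ico]
  intro k k' h
  exact Subtype.ext (edg_inj y _ _ _ _ h)

lemma reach_subset (x y : TV) (ω : T.edgeSet → Bool) (h : (openGraph ω).Reachable x y) :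
    ω ∈ Set.pi (Edges x y : Set T.edgeSet) (fun _ => ({true} : Set Bool)) := by
  classical
  intro e he
  rw [Finset.mem_coe] at he
  unfold Edges at he
  rw [Finset.mem_image] at he
  obtain ⟨k, _, rfl⟩ := he
  exact edg_open ω x y h k.1 (Finset.mem_Ico.1 k.2).1 (Finset.mem_Ico.1 k.2).2

lemma edgeLaw_true (p : Set.Icc (0 : ℝ) 1) : edgeLaw p {true} = ENNReal.ofReal p.1 := by
  unfold edgeLaw
  rw [Measure.add_apply, Measure.smul_apply, Measure.smul_apply,
    Measure.dirac_apply' _ (MeasurableSet.singleton _),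
    Measure.dirac_apply' _ (MeasurableSet.singleton _)]
  simp

lemma edgeLaw_false (p : Set.Icc (0 : ℝ) 1) :
    edgeLaw p {false} = ENNReal.ofReal (1 - p.1) := by
  unfold edgeLaw
  rw [Measure.add_apply, Measure.smul_apply, Measure.smul_apply,
    Measure.dirac_apply' _ (MeasurableSet.singleton _),
    Measure.dirac_apply' _ (MeasurableSet.singleton _)]
  simp

lemma measure_event (p : Set.Icc (0 : ℝ) 1) (x y : TV) :
    perc T p (Set.pi (Edges x y : Set T.edgeSet) (fun _ => ({true} : Set Bool)))
      = ENNReal.ofReal p.1 ^ (y.1.length - x.1.length) := by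
  unfold perc
  rw [Measure.infinitePi_pi _ (fun i _ => MeasurableSet.singleton _)]
  rw [Finset.prod_congr rfl (fun i _ => edgeLaw_true p), Finset.prod_const, Edges_card]

/-! ### Square roots of the weights -/

/-- Square root of the weight of a letter. -/
noncomputable def sval : Letter → ℝ≥0∞
  | .inl _ => 4
  | .inr _ => 4⁻¹

/-- Square root of the weight of a word. -/
noncomputable def sq (l : List Letter) : ℝ≥0∞ := (l.map sval).prod

lemma sq_mul_self (l : List Letter) : sq l * sq l = (g l : ℝ≥0∞) := by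
  induction l with
  | nil => simp [sq, g]
  | cons c l ih =>
    have h1 : sq (c :: l) = sval c * sq l := by simp [sq]
    have h2 : g (c :: l) = val c * g l := by simp [g]
    have h3 : sval c * sval c = (val c : ℝ≥0∞) := by
      rcases c with i | j
      · simp only [sval, val]
        norm_num
      · simp only [sval, val]
        rw [← ENNReal.mul_inv (Or.inl (by norm_num)) (Or.inl (by norm_num))]
        rw [ENNReal.coe_div (by norm_num)]
        norm_num
    rw [h1, h2, ENNReal.coe_mul, ← ih, ← h3]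
    ring

lemma sum_sval : ∑ c : Letter, sval c = 16 := by
  rw [Fintype.sum_sum_type]
  simp only [sval, Finset.sum_const, Finset.card_univ, Fintype.card_fin, nsmul_eq_mul]
  have : ((32 : ℕ) : ℝ≥0∞) * 4⁻¹ = 8 := by
    have h32 : ((32 : ℕ) : ℝ≥0∞) = 8 * 4 := by norm_num
    rw [h32, mul_assoc, ENNReal.mul_inv_cancel (by norm_num) (by norm_num), mul_one]
  rw [this]
  norm_num

lemma tsum_lists (r : ℝ≥0∞) :
    ∑' l : List Letter, sq l * r ^ l.length = ∑' n : ℕ, (16 * r) ^ n := by
  rw [← (List.equivSigmaTuple (α := Letter)).symm.tsum_eq]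
  rw [ENNReal.tsum_sigma']
  apply tsum_congr
  intro n
  have : ∀ f : Fin n → Letter, (List.equivSigmaTuple (α := Letter)).symm ⟨n, f⟩ = List.ofFn f :=
    fun f => rfl
  simp only [this]
  rw [tsum_fintype]
  have h2 : ∀ f : Fin n → Letter, sq (List.ofFn f) * r ^ (List.ofFn f).length
      = (∏ i, sval (f i)) * r ^ n := by
    intro f
    rw [List.length_ofFn]
    congr 1
    unfold sq
    rw [List.map_ofFn, List.prod_ofFn]
    rfl
  rw [Finset.sum_congr rfl (fun f _ => h2 f), ← Finset.sum_mul, ← Fintype.sum_pow, sum_sval,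
    mul_pow]

lemma tsum_bound (x : TV) (p : ℝ) (hp0 : 0 ≤ p) (hp : p < 1 / 16) :
    ∑' y : TV, sq y.1 * ENNReal.ofReal p ^ (y.1.length - x.1.length) ≠ ⊤ := by
  -- enlarge `p` to a positive `r`
  set r : ℝ := max p (1 / 32) with hr
  have hrpos : 0 < r := lt_of_lt_of_le (by norm_num) (le_max_right _ _)
  have hr16 : r < 1 / 16 := max_lt hp (by norm_num)
  set R : ℝ≥0∞ := ENNReal.ofReal r with hR
  have hpR : ENNReal.ofReal p ≤ R := ENNReal.ofReal_le_ofReal (le_max_left _ _)
  have hR0 : R ≠ 0 := by
    rw [hR]; exact (ENNReal.ofReal_pos.2 hrpos).ne'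
  have hRt : R ≠ ⊤ := ENNReal.ofReal_ne_top
  have hR1 : R ≤ 1 := by
    rw [hR, ← ENNReal.ofReal_one]
    exact ENNReal.ofReal_le_ofReal (by linarith)
  set m := x.1.length with hm
  have hRm0 : R ^ m ≠ 0 := pow_ne_zero _ hR0
  have hRmt : R ^ m ≠ ⊤ := ENNReal.pow_ne_top hRt
  have key : ∀ n : ℕ, ENNReal.ofReal p ^ (n - m) ≤ R ^ n * (R ^ m)⁻¹ := by
    intro n
    refine le_trans (pow_le_pow_left₀ (zero_le) hpR _) ?_
    rw [← div_eq_mul_inv, ENNReal.le_div_iff_mul_le (Or.inl hRm0) (Or.inl hRmt)]
    rcases le_total m n with h | h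
    · rw [← pow_add]
      have : n - m + m = n := by omega
      rw [this]
    · have : n - m = 0 := by omega
      rw [this, pow_zero, one_mul]
      exact pow_le_pow_right_of_le_one' hR1 h
  have h1 : ∑' y : TV, sq y.1 * ENNReal.ofReal p ^ (y.1.length - m)
      ≤ (∑' n : ℕ, (16 * R) ^ n) * (R ^ m)⁻¹ := by
    calc ∑' y : TV, sq y.1 * ENNReal.ofReal p ^ (y.1.length - m)
        ≤ ∑' y : TV, sq y.1 * R ^ y.1.length * (R ^ m)⁻¹ := by
          apply ENNReal.tsum_le_tsum
          intro y
          rw [mul_assoc]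
          gcongr
          exact key _
      _ = (∑' y : TV, sq y.1 * R ^ y.1.length) * (R ^ m)⁻¹ := ENNReal.tsum_mul_right
      _ ≤ (∑' l : List Letter, sq l * R ^ l.length) * (R ^ m)⁻¹ := by
          gcongr
          exact ENNReal.tsum_comp_le_tsum_of_injective
            (f := (Subtype.val : {l : List Letter // l.IsChain ok} → List Letter))
            Subtype.val_injective
            (fun l : List Letter => sq l * R ^ l.length)
      _ = _ := by rw [tsum_lists]
  have h16 : 16 * R < 1 := by
    have : 16 * R = ENNReal.ofReal (16 * r) := by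
      rw [ENNReal.ofReal_mul (by norm_num)]
      congr 1
      norm_num
    rw [this, ← ENNReal.ofReal_one]
    exact (ENNReal.ofReal_lt_ofReal_iff (by norm_num)).2 (by linarith)
  have h2 : (∑' n : ℕ, (16 * R) ^ n) ≠ ⊤ := by
    rw [ENNReal.tsum_geometric]
    rw [ENNReal.inv_ne_top]
    exact (tsub_pos_of_lt h16).ne'
  exact ne_top_of_le_ne_top (ENNReal.mul_ne_top h2 (ENNReal.inv_ne_top.2 hRm0)) h1

/-! ### Clusters are light below 1/16 -/

lemma tsum_sq_le {ι : Type*} (a : ι → ℝ≥0∞) (h : ∑' i, a i ≠ ⊤) : ∑' i, a i * a i ≠ ⊤ := by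
  have h1 : ∑' i, a i * a i ≤ ∑' i, (∑' j, a j) * a i := by
    apply ENNReal.tsum_le_tsum
    intro i
    gcongr
    exact ENNReal.le_tsum i
  rw [ENNReal.tsum_mul_left] at h1
  exact ne_top_of_le_ne_top (ENNReal.mul_ne_top h h) h1

lemma light_cluster (p : Set.Icc (0 : ℝ) 1) (hp : p.1 < 1 / 16) (x : TV) :
    perc T p {ω | wt Gam root (cluster ω x) = ⊤} = 0 := by
  classical
  haveI : IsProbabilityMeasure (perc T p) := by unfold perc; infer_instance
  let A : TV → Set (T.edgeSet → Bool) := fun y =>
    Set.pi (Edges x y : Set T.edgeSet) (fun _ => ({true} : Set Bool))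
  have hA : ∀ y, MeasurableSet (A y) := fun y =>
    MeasurableSet.pi (Finset.countable_toSet _) (fun _ _ => MeasurableSet.singleton _)
  let f : (T.edgeSet → Bool) → ℝ≥0∞ := fun ω =>
    ∑' y : TV, sq y.1 * (A y).indicator (fun _ => (1 : ℝ≥0∞)) ω
  have hmeas : ∀ y : TV, Measurable
      (fun ω => sq y.1 * (A y).indicator (fun _ => (1 : ℝ≥0∞)) ω) := fun y =>
    (measurable_const.indicator (hA y)).const_mul _
  have hf : Measurable f := Measurable.tsum hmeas
  have hint : ∫⁻ ω, f ω ∂(perc T p) ≠ ⊤ := by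
    change ∫⁻ ω, ∑' y : TV, sq y.1 * (A y).indicator (fun _ => (1 : ℝ≥0∞)) ω ∂(perc T p) ≠ ⊤
    rw [lintegral_tsum (fun y => (hmeas y).aemeasurable)]
    have : ∀ y : TV, ∫⁻ ω, sq y.1 * (A y).indicator (fun _ => (1 : ℝ≥0∞)) ω ∂(perc T p)
        = sq y.1 * ENNReal.ofReal p.1 ^ (y.1.length - x.1.length) := by
      intro y
      rw [lintegral_const_mul _ (measurable_const.indicator (hA y)), lintegral_indicator (hA y),
        setLIntegral_const, one_mul]
      congr 1
      exact measure_event p x y
    simp only [this]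
    exact tsum_bound x p.1 p.2.1 hp
  have hae := ae_lt_top hf hint
  have hnull : perc T p {ω | ¬ f ω < ⊤} = 0 := hae
  refine measure_mono_null ?_ hnull
  intro ω hω hfin
  apply absurd hω
  change wt Gam root (cluster ω x) ≠ ⊤
  rw [wt_eq]
  have h1 : ∑' y : cluster ω x, sq y.1.1 ≤ f ω := by
    rw [tsum_subtype (cluster ω x) (fun y : TV => sq y.1)]
    apply ENNReal.tsum_le_tsum
    intro y
    by_cases hy : y ∈ cluster ω x
    · rw [Set.indicator_of_mem hy]
      have : ω ∈ A y := reach_subset x y ω hy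
      rw [Set.indicator_of_mem this, mul_one]
    · rw [Set.indicator_of_notMem hy]
      exact zero_le
  have h2 : ∑' y : cluster ω x, sq y.1.1 ≠ ⊤ := ne_top_of_le_ne_top hfin.ne h1
  have h3 := tsum_sq_le (fun y : cluster ω x => sq y.1.1) h2
  have h4 : ∀ y : cluster ω x, sq y.1.1 * sq y.1.1 = ((g y.1.1 : ℝ≥0) : ℝ≥0∞) :=
    fun y => sq_mul_self _
  simp only [h4] at h3
  exact h3

/-! ### The cluster at `p = 1` -/

lemma heavy_at_one :
    0 < perc T ⟨1, by norm_num, le_rfl⟩ {ω | ∃ x : TV, wt Gam root (cluster ω x) = ⊤} := by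
  classical
  set p : Set.Icc (0 : ℝ) 1 := ⟨1, by norm_num, le_rfl⟩ with hp
  haveI : IsProbabilityMeasure (perc T p) := by unfold perc; infer_instance
  haveI : Countable T.edgeSet := by
    haveI : Countable (Sym2 TV) := inferInstance
    infer_instance
  have hae : ∀ᵐ ω ∂(perc T p), ∀ e : T.edgeSet, ω e = true := by
    rw [ae_all_iff]
    intro e
    have h1 : perc T p (Set.pi (({e} : Finset T.edgeSet) : Set T.edgeSet)
        (fun _ => ({false} : Set Bool))) = 0 := by
      unfold perc
      rw [Measure.infinitePi_pi _ (fun i _ => MeasurableSet.singleton _), Finset.prod_singleton,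
        edgeLaw_false]
      simp [hp]
    refine measure_mono_null ?_ h1
    intro ω hω i hi
    rw [Finset.mem_coe, Finset.mem_singleton] at hi
    rw [hi]
    have : ω e ≠ true := hω
    simpa using this
  have hsub : ∀ ω : T.edgeSet → Bool, (∀ e, ω e = true) →
      ω ∈ {ω : T.edgeSet → Bool | ∃ x : TV, wt Gam root (cluster ω x) = ⊤} := by
    intro ω hω
    refine ⟨root, ?_⟩
    have h1 : openGraph ω = T := by
      unfold openGraph
      have : {e | ∃ h : e ∈ T.edgeSet, ω ⟨e, h⟩ = true} = T.edgeSet := by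
        ext e
        constructor
        · rintro ⟨h, _⟩
          exact h
        · intro h
          exact ⟨h, hω _⟩
      rw [this, SimpleGraph.fromEdgeSet_edgeSet]
    have h2 : ∀ n, rep n ∈ cluster ω root := by
      intro n
      change (openGraph ω).Reachable root (rep n)
      rw [h1]
      exact reach_root _
    rw [wt_eq]
    have h3 : ∑' n : ℕ, ((g (rep n).1 : ℝ≥0) : ℝ≥0∞)
        ≤ ∑' y : cluster ω root, ((g y.1.1 : ℝ≥0) : ℝ≥0∞) := by
      have hinj : Function.Injective (fun n : ℕ => (⟨rep n, h2 n⟩ : cluster ω root)) := by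
        intro m n h
        exact rep_injective (congrArg Subtype.val h)
      exact ENNReal.tsum_comp_le_tsum_of_injective hinj
        (fun y : cluster ω root => ((g y.1.1 : ℝ≥0) : ℝ≥0∞))
    have h4 : ∑' _ : ℕ, (1 : ℝ≥0∞) ≤ ∑' n : ℕ, ((g (rep n).1 : ℝ≥0) : ℝ≥0∞) := by
      apply ENNReal.tsum_le_tsum
      intro n
      have : g (rep n).1 = 16 ^ n := by
        change g (List.replicate n (Sum.inl 0)) = 16 ^ n
        unfold g
        rw [List.map_replicate, List.prod_replicate]
        rfl
      rw [this]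
      have h5 : (1 : ℝ≥0) ≤ 16 ^ n := one_le_pow₀ (by norm_num)
      exact_mod_cast h5
    rw [ENNReal.tsum_const_eq_top_of_ne_zero one_ne_zero] at h4
    exact top_le_iff.1 (h4.trans h3)
  rw [pos_iff_ne_zero]
  intro h0
  have h1 : ∀ᵐ ω ∂(perc T p), ω ∉ {ω : T.edgeSet → Bool |
      ∃ x : TV, wt Gam root (cluster ω x) = ⊤} := by
    rw [ae_iff]
    simp only [not_not]
    exact h0
  obtain ⟨ω, hω1, hω2⟩ := (hae.and h1).exists
  exact hω2 (hsub ω hω1)

theorem pHeavy_ge : (1 / 16 : ℝ) ≤ pHeavy Gam root := by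
  unfold pHeavy
  apply le_csInf
  · exact ⟨1, ⟨by norm_num, le_rfl⟩, heavy_at_one⟩
  · rintro p ⟨hp, hpos⟩
    by_contra hcon
    push Not at hcon
    apply hpos.ne'
    have : {ω : T.edgeSet → Bool | ∃ x : TV, wt Gam root (cluster ω x) = ⊤}
        = ⋃ x : TV, {ω | wt Gam root (cluster ω x) = ⊤} := by
      ext ω
      simp
    rw [this]
    exact measure_iUnion_null (fun x => light_cluster ⟨p, hp⟩ hcon x)

end Pool.Agent.V11327.WC
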