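import Pool.Agent.V11327.WCdefs

/-! # The oriented tree with 2 outgoing and 32 incoming edges at every vertex -/

open MeasureTheory
open scoped ENNReal NNReal

namespace Pool.Agent.V11327.WC

/-- Letters: `inl i` = a step along an outgoing edge, `inr j` = a step against an incoming edge.
-/
abbrev Letter := Fin 2 ⊕ Fin 32

/-- Which letters may follow each other. -/
def ok : Letter → Letter → Prop
  | .inl _, .inr j => j ≠ 31
  | .inr _, .inl i => i ≠ 1
  | .inl _, .inl _ => True
  | .inr _, .inr _ => True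

/-- Vertices: reduced words. -/
def TV : Type := {l : List Letter // l.IsChain ok}

instance : DecidableEq TV := inferInstanceAs (DecidableEq {l : List Letter // l.IsChain ok})
instance : Countable TV := inferInstanceAs (Countable {l : List Letter // l.IsChain ok})

/-- There is an arrow from `u` to `v`. -/
def Arrow (u v : TV) : Prop :=
  (∃ i : Fin 2, v.1 = u.1 ++ [.inl i]) ∨ (∃ j : Fin 32, u.1 = v.1 ++ [.inr j])

lemma Arrow.irrefl (u : TV) : ¬ Arrow u u := by
  rintro (⟨i, h⟩ | ⟨i, h⟩)
  · have := congrArg List.length h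
    simp at this
  · have := congrArg List.length h
    simp at this

/-- The tree. -/
def T : SimpleGraph TV where
  Adj u v := Arrow u v ∨ Arrow v u
  symm := ⟨fun _ _ h => h.symm⟩
  loopless := ⟨fun u h => h.elim (Arrow.irrefl u) (Arrow.irrefl u)⟩

/-- The root. -/
def root : TV := ⟨[], List.isChain_nil⟩

lemma arrow_adj {u v : TV} (h : Arrow u v) : T.Adj u v := Or.inl h

/-- Adjacency: one word is obtained from the other by appending a letter. -/
lemma adj_iff {u v : TV} : T.Adj u v ↔ (∃ c, v.1 = u.1 ++ [c]) ∨ (∃ c, u.1 = v.1 ++ [c]) := by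
  constructor
  · rintro ((⟨i, h⟩ | ⟨i, h⟩) | (⟨i, h⟩ | ⟨i, h⟩))
    · exact Or.inl ⟨_, h⟩
    · exact Or.inr ⟨_, h⟩
    · exact Or.inr ⟨_, h⟩
    · exact Or.inl ⟨_, h⟩
  · rintro (⟨c, h⟩ | ⟨c, h⟩)
    · rcases c with i | j
      · exact Or.inl (Or.inl ⟨i, h⟩)
      · exact Or.inr (Or.inr ⟨j, h⟩)
    · rcases c with i | j
      · exact Or.inr (Or.inl ⟨i, h⟩)
      · exact Or.inl (Or.inr ⟨j, h⟩)

/-- The group of automorphisms preserving the arrows. -/
def Gam : Subgroup (T ≃g T) where
  carrier := {γ | ∀ u v, Arrow (γ u) (γ v) ↔ Arrow u v}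
  mul_mem' := by
    intro a b ha hb u v
    rw [RelIso.mul_apply, RelIso.mul_apply, ha, hb]
  one_mem' := by
    intro u v
    rfl
  inv_mem' := by
    intro a ha u v
    have := ha (a⁻¹ u) (a⁻¹ v)
    rw [RelIso.apply_inv_self, RelIso.apply_inv_self] at this
    exact this.symm

lemma mem_Gam {γ : T ≃g T} : γ ∈ Gam ↔ ∀ u v, Arrow (γ u) (γ v) ↔ Arrow u v := Iff.rfl

/-- Build an automorphism from a bijection which preserves arrows both ways. -/
def mkAut (f : TV ≃ TV) (h1 : ∀ u v, Arrow u v → Arrow (f u) (f v))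
    (h2 : ∀ u v, Arrow u v → Arrow (f.symm u) (f.symm v)) : T ≃g T where
  toEquiv := f
  map_rel_iff' := by
    intro u v
    constructor
    · rintro (h | h)
      · left
        have := h2 _ _ h
        rwa [f.symm_apply_apply, f.symm_apply_apply] at this
      · right
        have := h2 _ _ h
        rwa [f.symm_apply_apply, f.symm_apply_apply] at this
    · rintro (h | h)
      · exact Or.inl (h1 _ _ h)
      · exact Or.inr (h1 _ _ h)

lemma mkAut_mem (f : TV ≃ TV) (h1 : ∀ u v, Arrow u v → Arrow (f u) (f v))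
    (h2 : ∀ u v, Arrow u v → Arrow (f.symm u) (f.symm v)) : mkAut f h1 h2 ∈ Gam := by
  intro u v
  constructor
  · intro h
    have := h2 _ _ h
    change Arrow (f.symm (f u)) (f.symm (f v)) at this
    rwa [f.symm_apply_apply, f.symm_apply_apply] at this
  · exact h1 u v

/-! ### Permuting the first letter -/

/-- Apply a letter map to the first letter. -/
def fm (π : Letter → Letter) : List Letter → List Letter
  | [] => []
  | c :: l => π c :: l

lemma ok_sumMap (σ : Fin 2 → Fin 2) (τ : Fin 32 → Fin 32) (c y : Letter) :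
    ok (Sum.map σ τ c) y ↔ ok c y := by
  rcases c with i | j <;> rcases y with i' | j' <;> simp [ok]

lemma fm_chain (σ : Fin 2 → Fin 2) (τ : Fin 32 → Fin 32) (l : List Letter)
    (h : l.IsChain ok) : (fm (Sum.map σ τ) l).IsChain ok := by
  cases l with
  | nil => exact List.isChain_nil
  | cons c l =>
    cases l with
    | nil => exact List.isChain_singleton _
    | cons d l =>
      rw [List.isChain_cons_cons] at h
      change (Sum.map σ τ c :: d :: l).IsChain ok
      rw [List.isChain_cons_cons]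
      exact ⟨(ok_sumMap σ τ c d).2 h.1, h.2⟩

lemma fm_arrow (σ : Fin 2 → Fin 2) (τ : Fin 32 → Fin 32) (u v : TV) (h : Arrow u v) :
    Arrow ⟨fm (Sum.map σ τ) u.1, fm_chain σ τ u.1 u.2⟩
      ⟨fm (Sum.map σ τ) v.1, fm_chain σ τ v.1 v.2⟩ := by
  have key : ∀ (l : List Letter) (c : Letter), l ≠ [] →
      fm (Sum.map σ τ) (l ++ [c]) = fm (Sum.map σ τ) l ++ [c] := by
    intro l c hl
    cases l with
    | nil => exact absurd rfl hl
    | cons d l => rfl
  rcases h with ⟨i, h⟩ | ⟨j, h⟩
  · left
    by_cases hu : u.1 = []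
    · refine ⟨σ i, ?_⟩
      change fm (Sum.map σ τ) v.1 = fm (Sum.map σ τ) u.1 ++ [.inl (σ i)]
      rw [h, hu]
      rfl
    · refine ⟨i, ?_⟩
      change fm (Sum.map σ τ) v.1 = fm (Sum.map σ τ) u.1 ++ [.inl i]
      rw [h, key _ _ hu]
  · right
    by_cases hv : v.1 = []
    · refine ⟨τ j, ?_⟩
      change fm (Sum.map σ τ) u.1 = fm (Sum.map σ τ) v.1 ++ [.inr (τ j)]
      rw [h, hv]
      rfl
    · refine ⟨j, ?_⟩
      change fm (Sum.map σ τ) u.1 = fm (Sum.map σ τ) v.1 ++ [.inr j]
      rw [h, key _ _ hv]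

/-- The bijection of the vertices permuting the first letters. -/
def fmEquiv (σ : Equiv.Perm (Fin 2)) (τ : Equiv.Perm (Fin 32)) : TV ≃ TV where
  toFun u := ⟨fm (Sum.map σ τ) u.1, fm_chain σ τ u.1 u.2⟩
  invFun u := ⟨fm (Sum.map σ.symm τ.symm) u.1, fm_chain σ.symm τ.symm u.1 u.2⟩
  left_inv u := by
    apply Subtype.ext
    obtain ⟨l, hl⟩ := u
    cases l with
    | nil => rfl
    | cons c l =>
      change Sum.map σ.symm τ.symm (Sum.map σ τ c) :: l = c :: l
      rcases c with i | j <;> simp
  right_inv u := by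
    apply Subtype.ext
    obtain ⟨l, hl⟩ := u
    cases l with
    | nil => rfl
    | cons c l =>
      change Sum.map σ τ (Sum.map σ.symm τ.symm c) :: l = c :: l
      rcases c with i | j <;> simp

/-- The automorphism permuting the first letters. -/
def fmAut (σ : Equiv.Perm (Fin 2)) (τ : Equiv.Perm (Fin 32)) : T ≃g T :=
  mkAut (fmEquiv σ τ) (fun u v h => fm_arrow σ τ u v h) (fun u v h => fm_arrow σ.symm τ.symm u v h)

lemma fmAut_mem (σ : Equiv.Perm (Fin 2)) (τ : Equiv.Perm (Fin 32)) : fmAut σ τ ∈ Gam :=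
  mkAut_mem _ _ _

lemma fmAut_val (σ : Equiv.Perm (Fin 2)) (τ : Equiv.Perm (Fin 32)) (u : TV) :
    (fmAut σ τ u).1 = fm (Sum.map σ τ) u.1 := rfl

/-! ### The shift -/

/-- Left multiplication by the letter `inl 1` (whose inverse is `inr 31`). -/
def sh : List Letter → List Letter
  | [] => [.inl 1]
  | .inl i :: l => .inl 1 :: .inl i :: l
  | .inr j :: l => if j = 31 then l else .inl 1 :: .inr j :: l

/-- Left multiplication by the letter `inr 31`. -/
def sh' : List Letter → List Letter
  | [] => [.inr 31]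
  | .inr j :: l => .inr 31 :: .inr j :: l
  | .inl i :: l => if i = 1 then l else .inr 31 :: .inl i :: l

lemma sh_chain (l : List Letter) (h : l.IsChain ok) : (sh l).IsChain ok := by
  cases l with
  | nil => exact List.isChain_singleton _
  | cons c l =>
    rcases c with i | j
    · change (.inl 1 :: .inl i :: l : List Letter).IsChain ok
      rw [List.isChain_cons_cons]
      exact ⟨trivial, h⟩
    · by_cases hj : j = 31
      · have : sh (.inr j :: l) = l := by simp [sh, hj]
        rw [this]
        exact h.tail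
      · have : sh (.inr j :: l) = .inl 1 :: .inr j :: l := by simp [sh, hj]
        rw [this, List.isChain_cons_cons]
        exact ⟨hj, h⟩

lemma sh'_chain (l : List Letter) (h : l.IsChain ok) : (sh' l).IsChain ok := by
  cases l with
  | nil => exact List.isChain_singleton _
  | cons c l =>
    rcases c with i | j
    · by_cases hi : i = 1
      · have : sh' (.inl i :: l) = l := by simp [sh', hi]
        rw [this]
        exact h.tail
      · have : sh' (.inl i :: l) = .inr 31 :: .inl i :: l := by simp [sh', hi]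
        rw [this, List.isChain_cons_cons]
        exact ⟨hi, h⟩
    · change (.inr 31 :: .inr j :: l : List Letter).IsChain ok
      rw [List.isChain_cons_cons]
      exact ⟨trivial, h⟩

lemma sh'_sh (l : List Letter) (h : l.IsChain ok) : sh' (sh l) = l := by
  cases l with
  | nil => rfl
  | cons c l =>
    rcases c with i | j
    · rfl
    · by_cases hj : j = 31
      · have h1 : sh (.inr j :: l) = l := by simp [sh, hj]
        rw [h1]
        cases l with
        | nil => rw [hj]; rfl
        | cons d l =>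
          rcases d with i' | j'
          · rw [List.isChain_cons_cons] at h
            have hi' : i' ≠ 1 := h.1
            simp [sh', hi', hj]
          · rw [hj]; rfl
      · have h1 : sh (.inr j :: l) = .inl 1 :: .inr j :: l := by simp [sh, hj]
        rw [h1]
        rfl

lemma sh_sh' (l : List Letter) (h : l.IsChain ok) : sh (sh' l) = l := by
  cases l with
  | nil => rfl
  | cons c l =>
    rcases c with i | j
    · by_cases hi : i = 1
      · have h1 : sh' (.inl i :: l) = l := by simp [sh', hi]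
        rw [h1]
        cases l with
        | nil => rw [hi]; rfl
        | cons d l =>
          rcases d with i' | j'
          · rw [hi]; rfl
          · rw [List.isChain_cons_cons] at h
            have hj' : j' ≠ 31 := h.1
            simp [sh, hj', hi]
      · have h1 : sh' (.inl i :: l) = .inr 31 :: .inl i :: l := by simp [sh', hi]
        rw [h1]
        rfl
    · rfl

lemma sh_append (l : List Letter) (c : Letter) (h : l ≠ [] ∨ c ≠ .inr 31) :
    sh (l ++ [c]) = sh l ++ [c] := by
  cases l with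
  | nil =>
    have hc : c ≠ .inr 31 := h.resolve_left (fun h' => h' rfl)
    rcases c with i | j
    · rfl
    · have hj : j ≠ 31 := fun h' => hc (by rw [h'])
      simp [sh, hj]
  | cons d l =>
    rcases d with i' | j'
    · rfl
    · by_cases hj : j' = 31
      · simp [sh, hj]
      · simp [sh, hj]

lemma sh'_append (l : List Letter) (c : Letter) (h : l ≠ [] ∨ c ≠ .inl 1) :
    sh' (l ++ [c]) = sh' l ++ [c] := by
  cases l with
  | nil =>
    have hc : c ≠ .inl 1 := h.resolve_left (fun h' => h' rfl)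
    rcases c with i | j
    · have hi : i ≠ 1 := fun h' => hc (by rw [h'])
      simp [sh', hi]
    · rfl
  | cons d l =>
    rcases d with i' | j'
    · by_cases hi : i' = 1
      · simp [sh', hi]
      · simp [sh', hi]
    · rfl

lemma sh_arrow (u v : TV) (h : Arrow u v) :
    Arrow ⟨sh u.1, sh_chain u.1 u.2⟩ ⟨sh v.1, sh_chain v.1 v.2⟩ := by
  rcases h with ⟨i, h⟩ | ⟨j, h⟩
  · left
    refine ⟨i, ?_⟩
    change sh v.1 = sh u.1 ++ [.inl i]
    rw [h, sh_append _ _ (Or.inr (by simp))]
  · by_cases hv : v.1 = [] ∧ j = 31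
    · left
      refine ⟨1, ?_⟩
      change sh v.1 = sh u.1 ++ [.inl 1]
      rw [h, hv.1, hv.2]
      rfl
    · right
      refine ⟨j, ?_⟩
      change sh u.1 = sh v.1 ++ [.inr j]
      rw [h, sh_append]
      by_cases hv' : v.1 = []
      · right
        intro hj
        exact hv ⟨hv', Sum.inr_injective hj⟩
      · exact Or.inl hv'

lemma sh'_arrow (u v : TV) (h : Arrow u v) :
    Arrow ⟨sh' u.1, sh'_chain u.1 u.2⟩ ⟨sh' v.1, sh'_chain v.1 v.2⟩ := by
  rcases h with ⟨i, h⟩ | ⟨j, h⟩
  · by_cases hu : u.1 = [] ∧ i = 1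
    · right
      refine ⟨31, ?_⟩
      change sh' u.1 = sh' v.1 ++ [.inr 31]
      rw [h, hu.1, hu.2]
      rfl
    · left
      refine ⟨i, ?_⟩
      change sh' v.1 = sh' u.1 ++ [.inl i]
      rw [h, sh'_append]
      by_cases hu' : u.1 = []
      · right
        intro hi
        exact hu ⟨hu', Sum.inl_injective hi⟩
      · exact Or.inl hu'
  · right
    refine ⟨j, ?_⟩
    change sh' u.1 = sh' v.1 ++ [.inr j]
    rw [h, sh'_append _ _ (Or.inr (by simp))]

/-- The shift as a bijection. -/
def shEquiv : TV ≃ TV where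
  toFun u := ⟨sh u.1, sh_chain u.1 u.2⟩
  invFun u := ⟨sh' u.1, sh'_chain u.1 u.2⟩
  left_inv u := Subtype.ext (sh'_sh u.1 u.2)
  right_inv u := Subtype.ext (sh_sh' u.1 u.2)

/-- The shift as an automorphism. -/
def shAut : T ≃g T := mkAut shEquiv (fun u v h => sh_arrow u v h) (fun u v h => sh'_arrow u v h)

lemma shAut_mem : shAut ∈ Gam := mkAut_mem _ _ _

lemma shAut_val (u : TV) : (shAut u).1 = sh u.1 := rfl
lemma shAut_inv_val (u : TV) : (shAut⁻¹ u).1 = sh' u.1 := rfl

/-! ### Transitivity -/

lemma adj_root {y : TV} (h : T.Adj root y) : ∃ c, y.1 = [c] := by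
  rw [adj_iff] at h
  rcases h with ⟨c, h⟩ | ⟨c, h⟩
  · exact ⟨c, h⟩
  · exfalso
    have := congrArg List.length h
    simp [root] at this

lemma exists_to_letter (y : TV) (c : Letter) (hy : y.1 = [c]) : ∃ γ ∈ Gam, γ root = y := by
  rcases c with i | j
  · refine ⟨fmAut (Equiv.swap 1 i) (Equiv.refl _) * shAut, mul_mem (fmAut_mem _ _) shAut_mem, ?_⟩
    apply Subtype.ext
    rw [RelIso.mul_apply, fmAut_val, shAut_val, hy]
    change [Sum.inl ((Equiv.swap 1 i) 1)] = _
    rw [Equiv.swap_apply_left]
  · refine ⟨fmAut (Equiv.refl _) (Equiv.swap 31 j) * shAut⁻¹,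
      mul_mem (fmAut_mem _ _) (inv_mem shAut_mem), ?_⟩
    apply Subtype.ext
    rw [RelIso.mul_apply, fmAut_val, shAut_inv_val, hy]
    change [Sum.inr ((Equiv.swap 31 j) 31)] = _
    rw [Equiv.swap_apply_left]

lemma exists_to (x : TV) : ∃ γ ∈ Gam, γ root = x := by
  obtain ⟨l, hl⟩ := x
  induction l using List.reverseRecOn with
  | nil => exact ⟨1, one_mem _, rfl⟩
  | append_singleton l c ih =>
    obtain ⟨γ, hγ, hx⟩ := ih (hl.left_of_append)
    have hadj : T.Adj (⟨l, hl.left_of_append⟩ : TV) ⟨l ++ [c], hl⟩ :=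
      adj_iff.2 (Or.inl ⟨c, rfl⟩)
    rw [← hx] at hadj
    set y : TV := ⟨l ++ [c], hl⟩ with hy
    have h2 : T.Adj root (γ⁻¹ y) := by
      have h3 : T.Adj (γ root) (γ (γ⁻¹ y)) := by
        rw [RelIso.apply_inv_self]; exact hadj
      exact γ.map_rel_iff.1 h3
    obtain ⟨c', hc'⟩ := adj_root h2
    obtain ⟨δ, hδ, hδ'⟩ := exists_to_letter _ c' hc'
    refine ⟨γ * δ, mul_mem hγ hδ, ?_⟩
    rw [RelIso.mul_apply, hδ', RelIso.apply_inv_self]

lemma transitive : IsTransitiveGroup Gam := by
  intro x y
  obtain ⟨γ, hγ, hx⟩ := exists_to x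
  obtain ⟨δ, hδ, hy⟩ := exists_to y
  refine ⟨δ * γ⁻¹, mul_mem hδ (inv_mem hγ), ?_⟩
  rw [RelIso.mul_apply, ← hx, RelIso.inv_apply_self, hy]

lemma closed : IsClosedGroup Gam := by
  intro φ h u v
  obtain ⟨γ, hγ, hS⟩ := h {u, v}
  rw [← hS u (by simp), ← hS v (by simp)]
  exact hγ u v

end Pool.Agent.V11327.WC
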