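import Pool.Agent.V11327.WCtree

/-! # The relative weights on the tree -/

open MeasureTheory
open scoped ENNReal NNReal

namespace Pool.Agent.V11327.WC

/-! ### Homogeneity -/

lemma move_out {x y z : TV} (hy : Arrow x y) (hz : Arrow x z) :
    ∃ γ ∈ Gam, γ x = x ∧ γ y = z := by
  obtain ⟨δ, hδ, hx⟩ := exists_to x
  have hinv := inv_mem hδ
  have hxr : δ⁻¹ x = root := by rw [← hx, RelIso.inv_apply_self]
  have h1 : Arrow root (δ⁻¹ y) := by
    have := (mem_Gam.1 hinv x y).2 hy
    rwa [hxr] at this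
  have h2 : Arrow root (δ⁻¹ z) := by
    have := (mem_Gam.1 hinv x z).2 hz
    rwa [hxr] at this
  have key : ∀ w : TV, Arrow root w → ∃ i : Fin 2, w.1 = [.inl i] := by
    rintro w (⟨i, h⟩ | ⟨j, h⟩)
    · exact ⟨i, h⟩
    · exfalso
      have := congrArg List.length h
      simp [root] at this
  obtain ⟨i, hi⟩ := key _ h1
  obtain ⟨i', hi'⟩ := key _ h2
  refine ⟨δ * fmAut (Equiv.swap i i') (Equiv.refl _) * δ⁻¹,
    mul_mem (mul_mem hδ (fmAut_mem _ _)) hinv, ?_, ?_⟩
  · rw [RelIso.mul_apply, RelIso.mul_apply, hxr]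
    have : fmAut (Equiv.swap i i') (Equiv.refl _) root = root := rfl
    rw [this, hx]
  · rw [RelIso.mul_apply, RelIso.mul_apply]
    have : fmAut (Equiv.swap i i') (Equiv.refl _) (δ⁻¹ y) = δ⁻¹ z := by
      apply Subtype.ext
      rw [fmAut_val, hi, hi']
      change [Sum.inl ((Equiv.swap i i') i)] = _
      rw [Equiv.swap_apply_left]
    rw [this, RelIso.apply_inv_self]

lemma move_in {x y z : TV} (hy : Arrow y x) (hz : Arrow z x) :
    ∃ γ ∈ Gam, γ x = x ∧ γ y = z := by
  obtain ⟨δ, hδ, hx⟩ := exists_to x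
  have hinv := inv_mem hδ
  have hxr : δ⁻¹ x = root := by rw [← hx, RelIso.inv_apply_self]
  have h1 : Arrow (δ⁻¹ y) root := by
    have := (mem_Gam.1 hinv y x).2 hy
    rwa [hxr] at this
  have h2 : Arrow (δ⁻¹ z) root := by
    have := (mem_Gam.1 hinv z x).2 hz
    rwa [hxr] at this
  have key : ∀ w : TV, Arrow w root → ∃ j : Fin 32, w.1 = [.inr j] := by
    rintro w (⟨i, h⟩ | ⟨j, h⟩)
    · exfalso
      have := congrArg List.length h
      simp [root] at this
    · exact ⟨j, h⟩
  obtain ⟨j, hj⟩ := key _ h1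
  obtain ⟨j', hj'⟩ := key _ h2
  refine ⟨δ * fmAut (Equiv.refl _) (Equiv.swap j j') * δ⁻¹,
    mul_mem (mul_mem hδ (fmAut_mem _ _)) hinv, ?_, ?_⟩
  · rw [RelIso.mul_apply, RelIso.mul_apply, hxr]
    have : fmAut (Equiv.refl _) (Equiv.swap j j') root = root := rfl
    rw [this, hx]
  · rw [RelIso.mul_apply, RelIso.mul_apply]
    have : fmAut (Equiv.refl _) (Equiv.swap j j') (δ⁻¹ y) = δ⁻¹ z := by
      apply Subtype.ext
      rw [fmAut_val, hj, hj']
      change [Sum.inr ((Equiv.swap j j') j)] = _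
      rw [Equiv.swap_apply_left]
    rw [this, RelIso.apply_inv_self]

lemma orb_out {x y : TV} (h : Arrow x y) : orb Gam x y = {z | Arrow x z} := by
  ext z
  constructor
  · rintro ⟨γ, hγ, hx, hz⟩
    have := (mem_Gam.1 hγ x y).2 h
    rw [hx, hz] at this
    exact this
  · intro hz
    obtain ⟨γ, hγ, hx, hyz⟩ := move_out h hz
    exact ⟨γ, hγ, hx, hyz⟩

lemma orb_in {x y : TV} (h : Arrow y x) : orb Gam x y = {z | Arrow z x} := by
  ext z
  constructor
  · rintro ⟨γ, hγ, hx, hz⟩
    have := (mem_Gam.1 hγ y x).2 h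
    rw [hx, hz] at this
    exact this
  · intro hz
    obtain ⟨γ, hγ, hx, hyz⟩ := move_in h hz
    exact ⟨γ, hγ, hx, hyz⟩

lemma ncard_out (x : TV) : {z | Arrow x z}.ncard = 2 := by
  obtain ⟨δ, hδ, hx⟩ := exists_to x
  let e : Fin 2 → TV := fun i => ⟨[.inl i], List.isChain_singleton _⟩
  have he : Function.Injective (fun i => δ (e i)) := by
    intro i j h
    have h1 : e i = e j := δ.injective h
    have h2 : [Sum.inl i] = ([Sum.inl j] : List Letter) := congrArg Subtype.val h1
    simpa using h2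
  have : {z | Arrow x z} = (fun i => δ (e i)) '' Set.univ := by
    ext z
    constructor
    · intro hz
      have h1 : Arrow root (δ⁻¹ z) := by
        have := (mem_Gam.1 (inv_mem hδ) x z).2 hz
        rwa [← hx, RelIso.inv_apply_self] at this
      rcases h1 with ⟨i, h1⟩ | ⟨j, h1⟩
      · refine ⟨i, Set.mem_univ _, ?_⟩
        have : δ⁻¹ z = e i := Subtype.ext h1
        change δ (e i) = z
        rw [← this, RelIso.apply_inv_self]
      · exfalso
        have := congrArg List.length h1
        simp [root] at this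
    · rintro ⟨i, _, rfl⟩
      change Arrow x (δ (e i))
      rw [← hx]
      exact (mem_Gam.1 hδ root (e i)).2 (Or.inl ⟨i, rfl⟩)
  rw [this, Set.ncard_image_of_injective _ he, Set.ncard_univ, Nat.card_eq_fintype_card,
    Fintype.card_fin]

lemma ncard_in (x : TV) : {z | Arrow z x}.ncard = 32 := by
  obtain ⟨δ, hδ, hx⟩ := exists_to x
  let e : Fin 32 → TV := fun i => ⟨[.inr i], List.isChain_singleton _⟩
  have he : Function.Injective (fun i => δ (e i)) := by
    intro i j h
    have h1 : e i = e j := δ.injective h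
    have h2 : [Sum.inr i] = ([Sum.inr j] : List Letter) := congrArg Subtype.val h1
    simpa using h2
  have : {z | Arrow z x} = (fun i => δ (e i)) '' Set.univ := by
    ext z
    constructor
    · intro hz
      have h1 : Arrow (δ⁻¹ z) root := by
        have := (mem_Gam.1 (inv_mem hδ) z x).2 hz
        rwa [← hx, RelIso.inv_apply_self] at this
      rcases h1 with ⟨i, h1⟩ | ⟨j, h1⟩
      · exfalso
        have := congrArg List.length h1
        simp [root] at this
      · refine ⟨j, Set.mem_univ _, ?_⟩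
        have : δ⁻¹ z = e j := Subtype.ext h1
        change δ (e j) = z
        rw [← this, RelIso.apply_inv_self]
    · rintro ⟨i, _, rfl⟩
      change Arrow (δ (e i)) x
      rw [← hx]
      exact (mem_Gam.1 hδ (e i) root).2 (Or.inr ⟨i, rfl⟩)
  rw [this, Set.ncard_image_of_injective _ he, Set.ncard_univ, Nat.card_eq_fintype_card,
    Fintype.card_fin]

lemma out_of_arrow {x y : TV} (h : Arrow x y) : (orb Gam x y).ncard = 2 := by
  rw [orb_out h, ncard_out]

lemma in_of_arrow {x y : TV} (h : Arrow y x) : (orb Gam x y).ncard = 32 := by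
  rw [orb_in h, ncard_in]

/-! ### Orbits and relative indices -/

section general
variable {V : Type} {G : SimpleGraph V}

/-- The stabiliser of a vertex in `Γ`, as a group of automorphisms. -/
def stab (Γ : Subgroup (G ≃g G)) (x : V) : Subgroup (G ≃g G) where
  carrier := {γ | γ ∈ Γ ∧ γ x = x}
  mul_mem' := by
    rintro a b ⟨ha, ha'⟩ ⟨hb, hb'⟩
    exact ⟨mul_mem ha hb, by rw [RelIso.mul_apply, hb', ha']⟩
  one_mem' := ⟨one_mem _, rfl⟩
  inv_mem' := by
    rintro a ⟨ha, ha'⟩
    refine ⟨inv_mem ha, ?_⟩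
    have : a⁻¹ (a x) = x := RelIso.inv_apply_self _ _
    rwa [ha'] at this

lemma mem_stab {Γ : Subgroup (G ≃g G)} {x : V} {γ : G ≃g G} :
    γ ∈ stab Γ x ↔ γ ∈ Γ ∧ γ x = x := Iff.rfl

lemma orb_ncard (Γ : Subgroup (G ≃g G)) (x y : V) :
    (orb Γ x y).ncard = (stab Γ y).relIndex (stab Γ x) := by
  have h1 : orb Γ x y = MulAction.orbit (stab Γ x) y := by
    ext z
    rw [MulAction.mem_orbit_iff]
    constructor
    · rintro ⟨γ, hγ, hx, hz⟩
      exact ⟨⟨γ, hγ, hx⟩, hz⟩
    · rintro ⟨⟨γ, hγ, hx⟩, hz⟩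
      exact ⟨γ, hγ, hx, hz⟩
  rw [h1, ← MulAction.index_stabilizer, Subgroup.relIndex]
  congr 1
  ext ⟨γ, hγ, hx⟩
  rw [MulAction.mem_stabilizer_iff, Subgroup.mem_subgroupOf, mem_stab]
  constructor
  · intro h
    exact ⟨hγ, h⟩
  · intro h
    exact h.2

/-- The cocycle identity for relative indices. -/
lemma relIndex_cocycle {α : Type*} [Group α] (A B C : Subgroup α)
    (h1 : C.relIndex (A ⊓ B) ≠ 0) (h2 : A.relIndex (B ⊓ C) ≠ 0) (h3 : B.relIndex (C ⊓ A) ≠ 0) :
    A.relIndex B * B.relIndex C * C.relIndex A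
      = B.relIndex A * C.relIndex B * A.relIndex C := by
  have e1 : C.relIndex (A ⊓ B) * A.relIndex B = (C ⊓ A).relIndex B :=
    Subgroup.relIndex_inf_mul_relIndex C A B
  have e2 : C.relIndex (A ⊓ B) * B.relIndex A = (C ⊓ B).relIndex A := by
    rw [inf_comm A B]; exact Subgroup.relIndex_inf_mul_relIndex C B A
  have e3 : A.relIndex (B ⊓ C) * B.relIndex C = (A ⊓ B).relIndex C :=
    Subgroup.relIndex_inf_mul_relIndex A B C
  have e4 : A.relIndex (B ⊓ C) * C.relIndex B = (C ⊓ A).relIndex B := by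
    rw [inf_comm B C, inf_comm C A]; exact Subgroup.relIndex_inf_mul_relIndex A C B
  have e5 : B.relIndex (C ⊓ A) * C.relIndex A = (C ⊓ B).relIndex A := by
    rw [inf_comm C B]; exact Subgroup.relIndex_inf_mul_relIndex B C A
  have e6 : B.relIndex (C ⊓ A) * A.relIndex C = (A ⊓ B).relIndex C := by
    rw [inf_comm C A, inf_comm A B]; exact Subgroup.relIndex_inf_mul_relIndex B A C
  generalize C.relIndex (A ⊓ B) = k1 at *
  generalize A.relIndex (B ⊓ C) = k2 at *
  generalize B.relIndex (C ⊓ A) = k3 at *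
  generalize A.relIndex B = ab at *
  generalize B.relIndex A = ba at *
  generalize B.relIndex C = bc at *
  generalize C.relIndex B = cb at *
  generalize C.relIndex A = ca at *
  generalize A.relIndex C = ac at *
  have f1 : k1 * ab = k2 * cb := by rw [e1, e4]
  have f2 : k1 * ba = k3 * ca := by rw [e2, e5]
  have f3 : k2 * bc = k3 * ac := by rw [e3, e6]
  have hk : 0 < k1 * k2 * k3 := by positivity
  apply Nat.eq_of_mul_eq_mul_left hk
  calc k1 * k2 * k3 * (ab * bc * ca) = (k1 * ab) * (k2 * bc) * (k3 * ca) := by ring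
    _ = (k2 * cb) * (k3 * ac) * (k1 * ba) := by rw [f1, f2, f3]
    _ = k1 * k2 * k3 * (ba * cb * ac) := by ring

end general

/-! ### The weights -/

/-- Weight of a letter. -/
noncomputable def val : Letter → ℝ≥0
  | .inl _ => 16
  | .inr _ => 1 / 16

/-- Weight of a word. -/
noncomputable def g (l : List Letter) : ℝ≥0 := (l.map val).prod

lemma g_append (l : List Letter) (c : Letter) : g (l ++ [c]) = g l * val c := by
  simp [g]

lemma g_pos (l : List Letter) : 0 < g l := by
  induction l with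
  | nil => simp [g]
  | cons c l ih =>
    have : g (c :: l) = val c * g l := by simp [g]
    rw [this]
    have hc : 0 < val c := by
      rcases c with i | j <;> simp [val]
    positivity

lemma step_arrow (l : List Letter) (c : Letter) (h : (l ++ [c]).IsChain ok) :
    (Arrow ⟨l, h.left_of_append⟩ ⟨l ++ [c], h⟩ ∧ ∃ i, c = .inl i) ∨
    (Arrow ⟨l ++ [c], h⟩ ⟨l, h.left_of_append⟩ ∧ ∃ j, c = .inr j) := by
  rcases c with i | j
  · exact Or.inl ⟨Or.inl ⟨i, rfl⟩, i, rfl⟩
  · exact Or.inr ⟨Or.inr ⟨j, rfl⟩, j, rfl⟩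

lemma nz_root (x : TV) : (stab Gam x).relIndex (stab Gam root) ≠ 0 ∧
    (stab Gam root).relIndex (stab Gam x) ≠ 0 := by
  obtain ⟨l, hl⟩ := x
  induction l using List.reverseRecOn with
  | nil =>
    have : (⟨[], hl⟩ : TV) = root := rfl
    rw [this, Subgroup.relIndex_self]
    simp
  | append_singleton l c ih =>
    obtain ⟨ih1, ih2⟩ := ih hl.left_of_append
    set x : TV := ⟨l, hl.left_of_append⟩ with hx
    set z : TV := ⟨l ++ [c], hl⟩ with hz
    have h1 : (stab Gam z).relIndex (stab Gam x) ≠ 0 ∧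
        (stab Gam x).relIndex (stab Gam z) ≠ 0 := by
      rw [← orb_ncard, ← orb_ncard]
      rcases step_arrow l c hl with ⟨h, _⟩ | ⟨h, _⟩
      · rw [out_of_arrow h, in_of_arrow h]; simp
      · rw [in_of_arrow h, out_of_arrow h]; simp
    exact ⟨Subgroup.relIndex_ne_zero_trans h1.1 ih1, Subgroup.relIndex_ne_zero_trans ih2 h1.2⟩

lemma nz (x y : TV) : (stab Gam x).relIndex (stab Gam y) ≠ 0 :=
  Subgroup.relIndex_ne_zero_trans (nz_root x).1 (nz_root y).2

lemma nz_inf (x y z : TV) : (stab Gam x).relIndex (stab Gam y ⊓ stab Gam z) ≠ 0 := by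
  intro h
  have h1 := Subgroup.relIndex_inf_mul_relIndex (stab Gam x) (stab Gam y) (stab Gam z)
  rw [h, zero_mul] at h1
  exact Subgroup.relIndex_inf_ne_zero (nz x z) (nz y z) h1.symm

lemma relWeight_root (l : List Letter) (h : l.IsChain ok) :
    relWeight Gam root ⟨l, h⟩ = (g l : ℝ≥0∞) := by
  induction l using List.reverseRecOn with
  | nil =>
    have h0 : (⟨[], h⟩ : TV) = root := rfl
    rw [h0]
    unfold relWeight
    rw [orb_ncard, Subgroup.relIndex_self]
    simp [g]
  | append_singleton l c ih =>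
    have ih' := ih h.left_of_append
    set x : TV := ⟨l, h.left_of_append⟩ with hx
    set z : TV := ⟨l ++ [c], h⟩ with hz
    have hco := relIndex_cocycle (stab Gam root) (stab Gam x) (stab Gam z)
      (nz_inf _ _ _) (nz_inf _ _ _) (nz_inf _ _ _)
    -- `|Γ_z x| = bc`, `|Γ_x z| = cb`
    have hbc : (stab Gam x).relIndex (stab Gam z) = (orb Gam z x).ncard := (orb_ncard _ _ _).symm
    have hcb : (stab Gam z).relIndex (stab Gam x) = (orb Gam x z).ncard := (orb_ncard _ _ _).symm
    have hratio : (((orb Gam z x).ncard : ℝ≥0)) = val c * ((orb Gam x z).ncard : ℝ≥0) := by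
      rcases step_arrow l c h with ⟨h', i, rfl⟩ | ⟨h', j, rfl⟩
      · rw [out_of_arrow h', in_of_arrow h']
        simp only [val]
        norm_num
      · rw [in_of_arrow h', out_of_arrow h']
        simp only [val]
        norm_num
    unfold relWeight at ih' ⊢
    rw [orb_ncard, orb_ncard] at ih' ⊢
    have n1 := nz root x
    have n2 := nz x root
    have n3 := nz x z
    have n4 := nz z x
    have n5 := nz root z
    have n6 := nz z root
    rw [← hbc, ← hcb] at hratio
    generalize (stab Gam root).relIndex (stab Gam x) = ab at *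
    generalize (stab Gam x).relIndex (stab Gam root) = ba at *
    generalize (stab Gam x).relIndex (stab Gam z) = bc at *
    generalize (stab Gam z).relIndex (stab Gam x) = cb at *
    generalize (stab Gam z).relIndex (stab Gam root) = ca at *
    generalize (stab Gam root).relIndex (stab Gam z) = ac at *
    have m2 : (ba : ℝ≥0) ≠ 0 := by exact_mod_cast n2
    have m4 : (cb : ℝ≥0) ≠ 0 := by exact_mod_cast n4
    have m6 : (ca : ℝ≥0) ≠ 0 := by exact_mod_cast n6
    have ih2 : (ab : ℝ≥0) / ba = g l := by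
      have : ((((ab : ℝ≥0) / ba : ℝ≥0)) : ℝ≥0∞) = (g l : ℝ≥0∞) := by
        rw [ENNReal.coe_div m2]
        simpa using ih'
      exact_mod_cast this
    have goal2 : (ac : ℝ≥0) / ca = g (l ++ [c]) := by
      rw [g_append, ← ih2, div_eq_iff m6, div_mul_eq_mul_div, div_mul_eq_mul_div, eq_div_iff m2]
      have hco' : (ab : ℝ≥0) * bc * ca = ba * cb * ac := by exact_mod_cast hco
      have h4 : (cb : ℝ≥0) * ((ac : ℝ≥0) * ba) = cb * (ab * val c * ca) := by
        calc (cb : ℝ≥0) * ((ac : ℝ≥0) * ba) = ba * cb * ac := by ring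
          _ = ab * bc * ca := hco'.symm
          _ = ab * (val c * cb) * ca := by rw [hratio]
          _ = cb * (ab * val c * ca) := by ring
      exact mul_left_cancel₀ m4 h4
    rw [← goal2, ENNReal.coe_div m6]
    simp

lemma wt_eq (K : Set TV) : wt Gam root K = ∑' x : K, (g x.1.1 : ℝ≥0∞) := by
  unfold wt
  apply tsum_congr
  intro x
  exact relWeight_root _ _

end Pool.Agent.V11327.WC
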